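import Mathlib

set_option autoImplicit false

/-! Characters of the circle and the Fourier expansion of the tent function. -/

noncomputable section

namespace Run7.h297

open Real

/-- the basic character of the circle -/
def ch (θ : UnitAddCircle) : ℂ := (AddCircle.toCircle θ : ℂ)

theorem ch_add (x y : UnitAddCircle) : ch (x + y) = ch x * ch y := by
  simp [ch, AddCircle.toCircle_add]

theorem ch_zero : ch 0 = 1 := by simp [ch]

theorem norm_ch (x : UnitAddCircle) : ‖ch x‖ = 1 := by simp [ch]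

theorem ch_ne_zero (x : UnitAddCircle) : ch x ≠ 0 := by
  intro h
  have := norm_ch x
  rw [h] at this; simp at this

theorem ch_zsmul (n : ℤ) (x : UnitAddCircle) : ch (n • x) = ch x ^ n := by
  simp [ch, AddCircle.toCircle_zsmul]

theorem ch_nsmul (n : ℕ) (x : UnitAddCircle) : ch (n • x) = ch x ^ n := by
  simp [ch, AddCircle.toCircle_nsmul]

theorem ch_neg (x : UnitAddCircle) : ch (-x) = (ch x)⁻¹ := by
  have h := ch_add x (-x)
  rw [add_neg_cancel, ch_zero] at h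
  field_simp [ch_ne_zero x]
  rw [mul_comm]; exact h.symm

theorem ch_sub (x y : UnitAddCircle) : ch (x - y) = ch x * (ch y)⁻¹ := by
  rw [sub_eq_add_neg, ch_add, ch_neg]

theorem ch_coe (x : ℝ) : ch (x : UnitAddCircle) = Complex.exp (2 * π * x * Complex.I) := by
  unfold ch
  rw [AddCircle.toCircle_apply_mk, Circle.coe_exp]
  congr 1; push_cast; ring

theorem continuous_ch : Continuous ch := by
  unfold ch
  exact continuous_subtype_val.comp AddCircle.continuous_toCircle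

theorem star_ch (x : UnitAddCircle) : (starRingEnd ℂ) (ch x) = ch (-x) := by
  rw [ch_neg]
  have h := norm_ch x
  rw [Complex.inv_def, Complex.normSq_eq_norm_sq, h]; simp

theorem exists_rep (θ : UnitAddCircle) :
    ∃ x : ℝ, (x : UnitAddCircle) = θ ∧ |x| = ‖θ‖ ∧ |x| ≤ 1 / 2 := by
  obtain ⟨y, rfl⟩ := QuotientAddGroup.mk_surjective θ
  refine ⟨y - round y, ?_, ?_, ?_⟩
  · have : ((y - round y : ℝ) : UnitAddCircle) = (y : UnitAddCircle) - ((round y : ℝ) : UnitAddCircle) := by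
      rfl
    rw [this]
    have h0 : (((round y : ℤ) : ℝ) : UnitAddCircle) = 0 := by
      rw [AddCircle.coe_eq_zero_iff]
      exact ⟨round y, by simp⟩
    rw [h0, sub_zero]
  · exact (UnitAddCircle.norm_eq (x := y)).symm
  · exact abs_sub_round y

theorem norm_le_half (θ : UnitAddCircle) : ‖θ‖ ≤ 1 / 2 := by
  obtain ⟨x, _, h1, h2⟩ := exists_rep θ
  rw [← h1]; exact h2

theorem norm_coe_le (x : ℝ) (n : ℤ) : ‖(x : UnitAddCircle)‖ ≤ |x - n| := by
  rw [UnitAddCircle.norm_eq]; exact round_le x n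

theorem norm_coe_le_abs (x : ℝ) : ‖(x : UnitAddCircle)‖ ≤ |x| := by
  have := norm_coe_le x 0
  simpa using this

theorem norm_ch_sub_one (θ : UnitAddCircle) : 4 * ‖θ‖ ≤ ‖ch θ - 1‖ := by
  obtain ⟨x, rfl, h1, h2⟩ := exists_rep θ
  rw [← h1, ch_coe]
  have h3 : ‖Complex.exp (2 * π * x * Complex.I) - 1‖ = 2 * |Real.sin (π * x)| := by
    have := Complex.norm_exp_I_mul_ofReal_sub_one (2 * π * x)
    have e : Complex.exp (2 * π * x * Complex.I) = Complex.exp (Complex.I * ((2 * π * x : ℝ) : ℂ)) := by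
      congr 1; push_cast; ring
    rw [e, this, Real.norm_eq_abs, abs_mul]
    rw [show (2 * π * x) / 2 = π * x by ring]
    norm_num
  rw [h3]
  have h4 : 2 * |x| ≤ |Real.sin (π * x)| := by
    have hx : 0 ≤ |x| := abs_nonneg x
    have h5 := Real.mul_le_sin (x := π * |x|) (by positivity) (by nlinarith [Real.pi_pos])
    have h6 : 2 / π * (π * |x|) = 2 * |x| := by field_simp
    rw [h6] at h5
    rcases abs_cases x with ⟨hx1, _⟩ | ⟨hx1, _⟩
    · rw [hx1] at h5 ⊢; exact h5.trans (le_abs_self _)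
    · rw [hx1] at h5 ⊢
      have : Real.sin (π * -x) = - Real.sin (π * x) := by rw [mul_neg, Real.sin_neg]
      rw [this] at h5
      exact h5.trans (neg_le_abs _)
  linarith

/-- Fourier coefficients of the tent -/
def th (δ : ℝ) (m : ℤ) : ℝ := if m = 0 then δ else Real.sin (π * m * δ) ^ 2 / (π ^ 2 * m ^ 2 * δ)

/-- tent of height one and half width `δ` -/
def tent (δ : ℝ) (θ : UnitAddCircle) : ℝ := max 0 (1 - ‖θ‖ / δ)

theorem tent_nonneg (δ : ℝ) (θ : UnitAddCircle) : 0 ≤ tent δ θ := le_max_left _ _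

theorem tent_zero (δ : ℝ) : tent δ 0 = 1 := by simp [tent]

theorem tent_eq_zero {δ : ℝ} (hδ : 0 < δ) {θ : UnitAddCircle} (h : δ ≤ ‖θ‖) : tent δ θ = 0 := by
  unfold tent
  apply max_eq_left
  rw [sub_nonpos, one_le_div hδ]; exact h

theorem half_le_tent {δ : ℝ} (hδ : 0 < δ) {θ : UnitAddCircle} (h : ‖θ‖ ≤ δ / 2) :
    1 / 2 ≤ tent δ θ := by
  unfold tent
  apply le_max_of_le_right
  have : ‖θ‖ / δ ≤ 1 / 2 := by rw [div_le_iff₀ hδ]; linarith
  linarith

theorem tent_le_one {δ : ℝ} (hδ : 0 < δ) (θ : UnitAddCircle) : tent δ θ ≤ 1 := by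
  unfold tent
  apply max_le zero_le_one
  have : 0 ≤ ‖θ‖ / δ := by positivity
  linarith

theorem th_nonneg {δ : ℝ} (hδ : 0 < δ) (m : ℤ) : 0 ≤ th δ m := by
  unfold th; split_ifs
  · exact hδ.le
  · positivity

theorem th_le {δ : ℝ} (hδ : 0 < δ) (m : ℤ) : th δ m ≤ δ := by
  unfold th; split_ifs with h
  · exact le_rfl
  · have hm : (m : ℝ) ≠ 0 := by exact_mod_cast h
    have h1 : Real.sin (π * m * δ) ^ 2 ≤ (π * m * δ) ^ 2 := by
      rw [sq_le_sq]; exact Real.abs_sin_le_abs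
    rw [div_le_iff₀ (by positivity)]
    calc _ ≤ (π * m * δ) ^ 2 := h1
      _ = _ := by ring

theorem th_le' {δ : ℝ} (hδ : 0 < δ) {m : ℤ} (hm : m ≠ 0) : th δ m ≤ 1 / (π ^ 2 * m ^ 2 * δ) := by
  unfold th; rw [if_neg hm]
  have hm : (m : ℝ) ≠ 0 := by exact_mod_cast hm
  gcongr
  have := Real.sin_sq_le_one (π * m * δ)
  exact this

theorem bern2 (x : ℝ) : bernoulliFun 2 x = x ^ 2 - x + 1 / 6 := by
  unfold bernoulliFun
  simp [Polynomial.bernoulli, Finset.sum_range_succ, bernoulli, bernoulli'_two, Nat.choose]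
  ring

theorem fourier_ch (m : ℤ) (x : ℝ) : (fourier m : C(UnitAddCircle, ℂ)) (x : UnitAddCircle) = ch (m • (x : UnitAddCircle)) := by
  rw [fourier_apply]; rfl

theorem hasSum_B2 {x : ℝ} (hx : x ∈ Set.Icc (0 : ℝ) 1) :
    HasSum (fun m : ℤ => (1 / (m : ℂ) ^ 2) * ch (m • (x : UnitAddCircle)))
      ((2 * π ^ 2 * (x ^ 2 - x + 1 / 6) : ℝ) : ℂ) := by
  have h := hasSum_one_div_pow_mul_fourier_mul_bernoulliFun (k := 2) le_rfl hx
  rw [bern2] at h
  have e : ((2 * π ^ 2 * (x ^ 2 - x + 1 / 6) : ℝ) : ℂ) =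
      -(2 * (π : ℂ) * Complex.I) ^ 2 / ((Nat.factorial 2 : ℕ) : ℂ) * ((x ^ 2 - x + 1 / 6 : ℝ) : ℂ) := by
    have : (2 * (π : ℂ) * Complex.I) ^ 2 = - (4 * π ^ 2) := by
      have : Complex.I ^ 2 = -1 := Complex.I_sq
      calc _ = 4 * π ^ 2 * Complex.I ^ 2 := by ring
        _ = _ := by rw [this]; ring
    rw [this, Nat.factorial_two]
    push_cast
    ring
  rw [e]
  refine h.congr_fun ?_
  intro m
  rw [fourier_ch]

theorem sin_sq_ch (δ : ℝ) (m : ℤ) (θ : UnitAddCircle) :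
    ((4 * Real.sin (π * m * δ) ^ 2 : ℝ) : ℂ) * ch (m • θ) =
      2 * ch (m • θ) - ch (m • (θ + (δ : UnitAddCircle))) - ch (m • (θ - (δ : UnitAddCircle))) := by
  have e1 : ch (m • (θ + (δ : UnitAddCircle))) = ch (m • θ) * ch (m • (δ : UnitAddCircle)) := by
    rw [smul_add, ch_add]
  have e2 : ch (m • (θ - (δ : UnitAddCircle))) = ch (m • θ) * (ch (m • (δ : UnitAddCircle)))⁻¹ := by
    rw [smul_sub, ch_sub]
  rw [e1, e2]
  have e3 : ch (m • (δ : UnitAddCircle)) = Complex.exp (2 * (π * m * δ : ℝ) * Complex.I) := by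
    have : m • (δ : UnitAddCircle) = ((m * δ : ℝ) : UnitAddCircle) := by
      rw [← zsmul_eq_mul]; rfl
    rw [this, ch_coe]; congr 1; push_cast; ring
  rw [e3, ← Complex.exp_neg]
  set z : ℂ := ((π * m * δ : ℝ) : ℂ) with hz
  have h4 : ((4 * Real.sin (π * m * δ) ^ 2 : ℝ) : ℂ) = 4 * Complex.sin z ^ 2 := by
    rw [hz]; push_cast; ring
  rw [h4]
  have h5 : 4 * Complex.sin z ^ 2 = 2 - 2 * Complex.cos (2 * z) := by
    rw [Complex.cos_two_mul, Complex.sin_sq]; ring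
  rw [h5, Complex.cos]
  have : -(2 * z * Complex.I) = -(2 * z) * Complex.I := by ring
  rw [this]
  ring

theorem hasSum_B2_neg {x : ℝ} (hx : x ∈ Set.Icc (0 : ℝ) 1) :
    HasSum (fun m : ℤ => (1 / (m : ℂ) ^ 2) * ch (m • (-(x : UnitAddCircle))))
      ((2 * π ^ 2 * (x ^ 2 - x + 1 / 6) : ℝ) : ℂ) := by
  have h := hasSum_B2 hx
  rw [← (Equiv.neg ℤ).hasSum_iff] at h
  refine h.congr_fun ?_
  intro m
  simp only [Function.comp, Equiv.neg_apply, Int.cast_neg, smul_neg, neg_smul]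
  ring

theorem th_neg (δ : ℝ) (m : ℤ) : th δ (-m) = th δ m := by
  unfold th
  by_cases h : m = 0
  · simp [h]
  · rw [if_neg h, if_neg (by omega)]
    push_cast
    have : π * -(m : ℝ) * δ = -(π * m * δ) := by ring
    rw [this, Real.sin_neg]; ring

theorem hasSum_tent_aux {δ : ℝ} (hδ : 0 < δ) (hδ2 : δ ≤ 1 / 2) {x : ℝ} (hx : 0 ≤ x) (hx2 : x ≤ 1 / 2) :
    HasSum (fun m : ℤ => (th δ m : ℂ) * ch (m • (x : UnitAddCircle))) (max 0 (1 - x / δ) : ℝ) := by
  have h1 := hasSum_B2 (x := x) ⟨hx, by linarith⟩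
  have h2 := hasSum_B2 (x := x + δ) ⟨by linarith, by linarith⟩
  have h3 : HasSum (fun m : ℤ => (1 / (m : ℂ) ^ 2) * ch (m • ((x - δ : ℝ) : UnitAddCircle)))
      ((2 * π ^ 2 * (|x - δ| ^ 2 - |x - δ| + 1 / 6) : ℝ) : ℂ) := by
    rcases abs_cases (x - δ) with ⟨ha, hb⟩ | ⟨ha, hb⟩
    · rw [ha]; exact hasSum_B2 ⟨hb, by linarith⟩
    · rw [ha]
      have := hasSum_B2_neg (x := -(x - δ)) ⟨by linarith, by linarith⟩
      refine this.congr_fun ?_
      intro m
      have e : -((-(x - δ) : ℝ) : UnitAddCircle) = ((x - δ : ℝ) : UnitAddCircle) := by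
        rw [AddCircle.coe_neg, neg_neg]
      rw [e]
  have h4 := (((h1.mul_left (2 : ℂ)).sub h2).sub h3).mul_left ((1 / (4 * π ^ 2 * δ) : ℝ) : ℂ)
  have h5 : HasSum (fun m : ℤ => if m = 0 then (δ : ℂ) else 0) (δ : ℂ) := by
    convert hasSum_ite_eq (0 : ℤ) (δ : ℂ) using 1
  have h6 := h5.add h4
  have hval : (δ : ℂ) + ((1 / (4 * π ^ 2 * δ) : ℝ) : ℂ) * (2 * ((2 * π ^ 2 * (x ^ 2 - x + 1 / 6) : ℝ) : ℂ)
      - ((2 * π ^ 2 * ((x + δ) ^ 2 - (x + δ) + 1 / 6) : ℝ) : ℂ)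
      - ((2 * π ^ 2 * (|x - δ| ^ 2 - |x - δ| + 1 / 6) : ℝ) : ℂ)) = ((max 0 (1 - x / δ) : ℝ) : ℂ) := by
    rw [← Complex.ofReal_ofNat, ← Complex.ofReal_mul, ← Complex.ofReal_sub, ← Complex.ofReal_sub,
      ← Complex.ofReal_mul, ← Complex.ofReal_add]
    congr 1
    have hpi : π ≠ 0 := Real.pi_ne_zero
    rcases le_total δ x with hc | hc
    · rw [abs_of_nonneg (by linarith), max_eq_left]
      · field_simp; ring
      · rw [sub_nonpos, one_le_div hδ]; exact hc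
    · rw [abs_of_nonpos (by linarith), max_eq_right]
      · field_simp; ring
      · rw [sub_nonneg, div_le_one hδ]; exact hc
  rw [hval] at h6
  refine h6.congr_fun ?_
  intro m
  by_cases hm : m = 0
  · subst hm
    simp [th, ch_zero]
  · rw [if_neg hm, zero_add]
    have h7 := sin_sq_ch δ m (x : UnitAddCircle)
    have e1 : ((x + δ : ℝ) : UnitAddCircle) = (x : UnitAddCircle) + (δ : UnitAddCircle) := by
      rfl
    have e2 : ((x - δ : ℝ) : UnitAddCircle) = (x : UnitAddCircle) - (δ : UnitAddCircle) := by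
      rfl
    rw [e1, e2]
    have hm' : (m : ℂ) ≠ 0 := by exact_mod_cast hm
    have hpi : (π : ℂ) ≠ 0 := by exact_mod_cast Real.pi_ne_zero
    have hd : (δ : ℂ) ≠ 0 := by exact_mod_cast hδ.ne'
    have h8 : (1 / (m : ℂ) ^ 2) * ((4 * Real.sin (π * m * δ) ^ 2 : ℝ) : ℂ) * ch (m • (x : UnitAddCircle)) =
        2 * (1 / (m : ℂ) ^ 2 * ch (m • (x : UnitAddCircle))) -
        1 / (m : ℂ) ^ 2 * ch (m • ((x : UnitAddCircle) + (δ : UnitAddCircle))) -
        1 / (m : ℂ) ^ 2 * ch (m • ((x : UnitAddCircle) - (δ : UnitAddCircle))) := by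
      rw [mul_assoc, h7]; ring
    rw [← h8]
    unfold th
    rw [if_neg hm]
    push_cast
    field_simp

theorem hasSum_tent {δ : ℝ} (hδ : 0 < δ) (hδ2 : δ ≤ 1 / 2) (θ : UnitAddCircle) :
    HasSum (fun m : ℤ => (th δ m : ℂ) * ch (m • θ)) (tent δ θ : ℂ) := by
  obtain ⟨x, rfl, h1, h2⟩ := exists_rep θ
  unfold tent
  rw [← h1]
  rcases abs_cases x with ⟨ha, hb⟩ | ⟨ha, hb⟩
  · rw [ha] at h2 ⊢
    exact hasSum_tent_aux hδ hδ2 hb h2
  · rw [ha] at h2 ⊢
    have h := hasSum_tent_aux hδ hδ2 (x := -x) (by linarith) h2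
    rw [← (Equiv.neg ℤ).hasSum_iff] at h
    refine h.congr_fun ?_
    intro m
    simp only [Function.comp, Equiv.neg_apply]
    rw [th_neg, AddCircle.coe_neg, smul_neg, neg_smul, neg_neg]

end Run7.h297
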