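import Mathlib

set_option autoImplicit false

/-! Counting integer vectors in three dimensional boxes. -/

noncomputable section

namespace Run7.h297

open Real Finset

/-- integer vectors -/
abbrev V3 := ℤ × ℤ × ℤ

/-- scalar product -/
def dot (k q : V3) : ℤ := k.1 * q.1 + k.2.1 * q.2.1 + k.2.2 * q.2.2

/-- vector product -/
def crs (k l : V3) : V3 :=
  (k.2.1 * l.2.2 - k.2.2 * l.2.1, k.2.2 * l.1 - k.1 * l.2.2, k.1 * l.2.1 - k.2.1 * l.1)

/-- maximum norm -/
def nm (k : V3) : ℕ := max k.1.natAbs (max k.2.1.natAbs k.2.2.natAbs)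

/-- box -/
def bx (P : ℕ) : Finset V3 := Finset.Icc (-(P : ℤ)) P ×ˢ (Finset.Icc (-(P : ℤ)) P ×ˢ Finset.Icc (-(P : ℤ)) P)

theorem mem_bx {P : ℕ} {k : V3} : k ∈ bx P ↔ nm k ≤ P := by
  unfold bx nm
  rw [Finset.mem_product, Finset.mem_product, Finset.mem_Icc, Finset.mem_Icc, Finset.mem_Icc]
  omega

theorem card_Icc_sym (P : ℕ) : (Finset.Icc (-(P : ℤ)) P).card = 2 * P + 1 := by
  rw [Int.card_Icc]; omega

theorem card_bx (P : ℕ) : (bx P).card = (2 * P + 1) ^ 3 := by
  unfold bx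
  rw [Finset.card_product, Finset.card_product, card_Icc_sym]; ring

theorem nm_eq_zero {k : V3} : nm k = 0 ↔ k = 0 := by
  unfold nm
  constructor
  · intro h
    have h1 : k.1.natAbs = 0 := by omega
    have h2 : k.2.1.natAbs = 0 := by omega
    have h3 : k.2.2.natAbs = 0 := by omega
    ext
    · simpa using h1
    · simpa using h2
    · simpa using h3
  · rintro rfl; simp

theorem card_dvd {S n : ℕ} (hn : 0 < n) (F : Finset ℤ) (hF : ∀ a ∈ F, -(S : ℤ) ≤ a ∧ a ≤ S)
    (hd : ∀ a ∈ F, ∀ b ∈ F, (n : ℤ) ∣ a - b) : F.card ≤ 2 * S / n + 1 := by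
  have hnZ : (0 : ℤ) < n := by exact_mod_cast hn
  have : F.card ≤ (Finset.range (2 * S / n + 1)).card := by
    apply Finset.card_le_card_of_injOn (fun a : ℤ => ((a + S) / (n : ℤ)).toNat)
    · intro a ha
      obtain ⟨h1, h2⟩ := hF a ha
      rw [Finset.mem_coe, Finset.mem_range]
      have h3 : (a + S) / (n : ℤ) ≤ (2 * S : ℕ) / (n : ℤ) := Int.ediv_le_ediv hnZ (by push_cast; linarith)
      have h4 : ((2 * S : ℕ) : ℤ) / (n : ℤ) = ((2 * S / n : ℕ) : ℤ) := by push_cast; rfl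
      rw [h4] at h3
      dsimp only
      generalize 2 * S / n = E at h3 ⊢
      generalize (a + (S : ℤ)) / (n : ℤ) = X at h3 ⊢
      omega
    · intro a ha b hb hab
      dsimp only at hab
      have p1 : 0 ≤ (a + S) / (n : ℤ) := Int.ediv_nonneg (by linarith [(hF a ha).1]) hnZ.le
      have p2 : 0 ≤ (b + S) / (n : ℤ) := Int.ediv_nonneg (by linarith [(hF b hb).1]) hnZ.le
      have h : (a + S) / (n : ℤ) = (b + S) / (n : ℤ) := by omega
      obtain ⟨c, hc⟩ := hd a ha b hb
      have m1 := Int.mul_ediv_add_emod (a + S) n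
      have m2 := Int.mul_ediv_add_emod (b + S) n
      have r1 := Int.emod_nonneg (a + S) hnZ.ne'
      have r2 := Int.emod_nonneg (b + S) hnZ.ne'
      have r1' := Int.emod_lt_of_pos (a + S) hnZ
      have r2' := Int.emod_lt_of_pos (b + S) hnZ
      have hc2 : (n : ℤ) * c = (a + S) % n - (b + S) % n := by
        rw [h] at m1; linarith
      have hc3 : c = 0 := by
        by_contra hne
        rcases lt_or_gt_of_ne hne with h' | h'
        · nlinarith
        · nlinarith
      rw [hc3] at hc; linarith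
  rwa [card_range] at this

/-- number of solutions of a linear equation, the last coefficient being nonzero -/
theorem card_plane {S : ℕ} {a b c : ℤ} (hc : c ≠ 0) (hg : ∀ d : ℤ, d ∣ a → d ∣ b → d ∣ c → IsUnit d)
    (F : Finset (ℤ × ℤ × ℤ)) (hF : ∀ k ∈ F, (-(S : ℤ) ≤ k.1 ∧ k.1 ≤ S) ∧ (-(S : ℤ) ≤ k.2.1 ∧ k.2.1 ≤ S) ∧
      a * k.1 + b * k.2.1 + c * k.2.2 = 0) :
    (F.card : ℝ) ≤ 1 + 4 * S + 4 * S ^ 2 / (c.natAbs : ℝ) := by
  classical
  set g : ℕ := Int.gcd a c with hgdef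
  have hg0 : 0 < g := Int.gcd_pos_of_ne_zero_right a hc
  have hga : (g : ℤ) ∣ a := (Int.gcd_dvd_left _ _)
  have hgc : (g : ℤ) ∣ c := (Int.gcd_dvd_right _ _)
  obtain ⟨a', ha'⟩ := hga
  obtain ⟨c', hc'⟩ := hgc
  have hgZ : (g : ℤ) ≠ 0 := by exact_mod_cast hg0.ne'
  have hcop : IsCoprime a' c' := by
    rw [Int.isCoprime_iff_gcd_eq_one]
    have h := Int.gcd_div_gcd_div_gcd (i := a) (j := c) hg0
    rw [← hgdef] at h
    have e1 : a / (g : ℤ) = a' := by rw [ha', Int.mul_ediv_cancel_left _ hgZ]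
    have e2 : c / (g : ℤ) = c' := by rw [hc', Int.mul_ediv_cancel_left _ hgZ]
    rwa [e1, e2] at h
  have hcopb : IsCoprime (g : ℤ) b := by
    rw [Int.isCoprime_iff_gcd_eq_one]
    have d1 : (Int.gcd (g : ℤ) b : ℤ) ∣ (g : ℤ) := (Int.gcd_dvd_left _ _)
    have d2 : (Int.gcd (g : ℤ) b : ℤ) ∣ b := (Int.gcd_dvd_right _ _)
    have hu := hg _ (d1.trans ⟨a', ha'⟩) d2 (d1.trans ⟨c', hc'⟩)
    rw [Int.isUnit_iff] at hu
    omega
  have hc'0 : c' ≠ 0 := by rintro rfl; apply hc; rw [hc']; simp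
  have hn : 0 < c'.natAbs := Int.natAbs_pos.mpr hc'0
  -- projections
  set F2 : Finset ℤ := F.image (fun k => k.2.1) with hF2
  have hF2card : F2.card ≤ 2 * S / g + 1 := by
    have hdv : ∀ y ∈ F2, (g : ℤ) ∣ y := by
      intro y hy
      rw [hF2, Finset.mem_image] at hy
      obtain ⟨k, hk, rfl⟩ := hy
      have h := (hF k hk).2.2
      have : (g : ℤ) ∣ b * k.2.1 := by
        have : b * k.2.1 = -(g * (a' * k.1 + c' * k.2.2)) := by
          rw [ha', hc'] at h; linarith
        rw [this]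
        exact (Dvd.intro _ rfl).neg_right
      exact hcopb.dvd_of_dvd_mul_left this
    apply card_dvd hg0
    · intro y hy
      rw [hF2, Finset.mem_image] at hy
      obtain ⟨k, hk, rfl⟩ := hy
      exact (hF k hk).2.1
    · intro y hy z hz
      exact dvd_sub (hdv y hy) (hdv z hz)
  have hfib : ∀ y ∈ F2, (F.filter (fun k => k.2.1 = y)).card ≤ 2 * S / c'.natAbs + 1 := by
    intro y _
    have e : (F.filter (fun k => k.2.1 = y)).card = ((F.filter (fun k => k.2.1 = y)).image (fun k => k.1)).card := by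
      rw [Finset.card_image_of_injOn]
      intro k hk k' hk' h
      rw [Finset.mem_coe, Finset.mem_filter] at hk hk'
      have h1 := (hF k hk.1).2.2
      have h2 := (hF k' hk'.1).2.2
      dsimp only at h
      have h3 : c * (k.2.2 - k'.2.2) = 0 := by
        rw [hk.2, h] at h1
        rw [hk'.2] at h2
        linarith
      have h4 : k.2.2 = k'.2.2 := by
        have := (mul_eq_zero.mp h3).resolve_left hc
        linarith
      exact Prod.ext h (Prod.ext (hk.2.trans hk'.2.symm) h4)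
    rw [e]
    apply card_dvd hn
    · intro x hx
      rw [Finset.mem_image] at hx
      obtain ⟨k, hk, rfl⟩ := hx
      exact (hF k (Finset.mem_filter.mp hk).1).1
    · intro x hx x' hx'
      rw [Finset.mem_image] at hx hx'
      obtain ⟨k, hk, rfl⟩ := hx
      obtain ⟨k', hk', rfl⟩ := hx'
      rw [Finset.mem_filter] at hk hk'
      have h1 := (hF k hk.1).2.2
      have h2 := (hF k' hk'.1).2.2
      rw [hk.2] at h1
      rw [hk'.2] at h2
      rw [Int.natAbs_dvd]
      have h3 : (g : ℤ) * (a' * (k.1 - k'.1)) = g * (c' * (k'.2.2 - k.2.2)) := by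
        have : a * (k.1 - k'.1) = c * (k'.2.2 - k.2.2) := by linarith
        rw [ha', hc'] at this; linarith
      have h4 := mul_left_cancel₀ hgZ h3
      exact hcop.symm.dvd_of_dvd_mul_left (Dvd.intro _ h4.symm)
  have hcard : F.card ≤ (2 * S / g + 1) * (2 * S / c'.natAbs + 1) := by
    have h1 : F.card = ∑ y ∈ F2, (F.filter (fun k => k.2.1 = y)).card :=
      Finset.card_eq_sum_card_fiberwise (fun k hk => Finset.mem_image_of_mem _ hk)
    rw [h1]
    calc _ ≤ ∑ y ∈ F2, (2 * S / c'.natAbs + 1) := Finset.sum_le_sum hfib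
      _ = F2.card * (2 * S / c'.natAbs + 1) := by rw [Finset.sum_const, smul_eq_mul]
      _ ≤ _ := Nat.mul_le_mul_right _ hF2card
  have hcR : (F.card : ℝ) ≤ (2 * S / g + 1) * (2 * S / c'.natAbs + 1) := by
    have h1 : (F.card : ℝ) ≤ (((2 * S / g + 1) * (2 * S / c'.natAbs + 1) : ℕ) : ℝ) := by exact_mod_cast hcard
    refine h1.trans ?_
    push_cast
    have a1 : ((2 * S / g : ℕ) : ℝ) ≤ 2 * S / g := by
      have := @Nat.cast_div_le ℝ _ _ _ (2 * S) g
      push_cast at this; exact this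
    have a2 : ((2 * S / c'.natAbs : ℕ) : ℝ) ≤ 2 * S / c'.natAbs := by
      have := @Nat.cast_div_le ℝ _ _ _ (2 * S) c'.natAbs
      push_cast at this; exact this
    gcongr
  have hcn : (c.natAbs : ℝ) = g * c'.natAbs := by
    rw [hc', Int.natAbs_mul, Int.natAbs_natCast]; push_cast; rfl
  have hgR : (1 : ℝ) ≤ g := by exact_mod_cast hg0
  have hnR : (1 : ℝ) ≤ c'.natAbs := by exact_mod_cast hn
  have hS : (0 : ℝ) ≤ S := Nat.cast_nonneg S
  refine hcR.trans ?_
  rw [hcn]
  have e : (2 * (S : ℝ) / g + 1) * (2 * S / c'.natAbs + 1) = 4 * S ^ 2 / (g * c'.natAbs) + 2 * S / g + 2 * S / c'.natAbs + 1 := by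
    field_simp; ring
  rw [e]
  have b1 : 2 * (S : ℝ) / g ≤ 2 * S := div_le_self (by positivity) hgR
  have b2 : 2 * (S : ℝ) / c'.natAbs ≤ 2 * S := div_le_self (by positivity) hnR
  linarith

/-- primitive vectors -/
def Prim (q : V3) : Prop := ∀ d : ℤ, d ∣ q.1 → d ∣ q.2.1 → d ∣ q.2.2 → IsUnit d

theorem card_plane' {S : ℕ} {q : V3} (hq : q ≠ 0) (hp : Prim q) :
    (((bx S).filter (fun k => dot k q = 0)).card : ℝ) ≤ 1 + 4 * S + 4 * S ^ 2 / (nm q : ℝ) := by
  have hn : nm q ≠ 0 := fun h => hq (nm_eq_zero.mp h)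
  have hcase : nm q = q.2.2.natAbs ∨ nm q = q.2.1.natAbs ∨ nm q = q.1.natAbs := by
    unfold nm; omega
  rcases hcase with h | h | h
  · rw [h]
    apply card_plane (a := q.1) (b := q.2.1) (c := q.2.2)
    · intro h0; rw [h, h0] at hn; simp at hn
    · exact hp
    · intro k hk
      rw [Finset.mem_filter, bx, Finset.mem_product, Finset.mem_product, Finset.mem_Icc, Finset.mem_Icc,
        Finset.mem_Icc] at hk
      refine ⟨hk.1.1, hk.1.2.1, ?_⟩
      have := hk.2; unfold dot at this; linarith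
  · rw [h]
    have e : ((bx S).filter (fun k => dot k q = 0)).card = (((bx S).filter (fun k => dot k q = 0)).image (fun k : V3 => (k.1, k.2.2, k.2.1))).card := by
      rw [Finset.card_image_of_injective]
      intro k k' hk
      simp only [Prod.mk.injEq] at hk
      exact Prod.ext hk.1 (Prod.ext hk.2.2 hk.2.1)
    rw [e]
    apply card_plane (a := q.1) (b := q.2.2) (c := q.2.1)
    · intro h0; rw [h, h0] at hn; simp at hn
    · intro d d1 d2 d3; exact hp d d1 d3 d2
    · intro k hk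
      rw [Finset.mem_image] at hk
      obtain ⟨k', hk', rfl⟩ := hk
      rw [Finset.mem_filter, bx, Finset.mem_product, Finset.mem_product, Finset.mem_Icc, Finset.mem_Icc,
        Finset.mem_Icc] at hk'
      refine ⟨hk'.1.1, hk'.1.2.2, ?_⟩
      have := hk'.2; unfold dot at this; dsimp only; linarith
  · rw [h]
    have e : ((bx S).filter (fun k => dot k q = 0)).card = (((bx S).filter (fun k => dot k q = 0)).image (fun k : V3 => (k.2.2, k.2.1, k.1))).card := by
      rw [Finset.card_image_of_injective]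
      intro k k' hk
      simp only [Prod.mk.injEq] at hk
      exact Prod.ext hk.2.2 (Prod.ext hk.2.1 hk.1)
    rw [e]
    apply card_plane (a := q.2.2) (b := q.2.1) (c := q.1)
    · intro h0; rw [h, h0] at hn; simp at hn
    · intro d d1 d2 d3; exact hp d d3 d2 d1
    · intro k hk
      rw [Finset.mem_image] at hk
      obtain ⟨k', hk', rfl⟩ := hk
      rw [Finset.mem_filter, bx, Finset.mem_product, Finset.mem_product, Finset.mem_Icc, Finset.mem_Icc,
        Finset.mem_Icc] at hk'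
      refine ⟨hk'.1.2.2, hk'.1.2.1, ?_⟩
      have := hk'.2; unfold dot at this; dsimp only; linarith

/-- every nonzero vector is a multiple of a primitive one -/
theorem exists_prim {q : V3} (hq : q ≠ 0) : ∃ ν : V3, ∃ g : ℤ, g ≠ 0 ∧ Prim ν ∧ ν ≠ 0 ∧
    q = (g * ν.1, g * ν.2.1, g * ν.2.2) ∧ nm ν ≤ nm q := by
  set g : ℕ := Int.gcd q.1 (Int.gcd q.2.1 q.2.2) with hg
  have d1 : (g : ℤ) ∣ q.1 := (Int.gcd_dvd_left _ _)
  have d23 : (g : ℤ) ∣ (Int.gcd q.2.1 q.2.2 : ℤ) := (Int.gcd_dvd_right _ _)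
  have d2 : (g : ℤ) ∣ q.2.1 := d23.trans (Int.gcd_dvd_left _ _)
  have d3 : (g : ℤ) ∣ q.2.2 := d23.trans (Int.gcd_dvd_right _ _)
  have hg0 : g ≠ 0 := by
    intro h0
    apply hq
    rw [h0] at d1 d2 d3
    simp only [Nat.cast_zero, zero_dvd_iff] at d1 d2 d3
    exact Prod.ext d1 (Prod.ext d2 d3)
  obtain ⟨x, hx⟩ := d1
  obtain ⟨y, hy⟩ := d2
  obtain ⟨z, hz⟩ := d3
  have hgZ : (g : ℤ) ≠ 0 := by exact_mod_cast hg0
  refine ⟨(x, y, z), g, hgZ, ?_, ?_, Prod.ext hx (Prod.ext hy hz), ?_⟩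
  · intro d h1 h2 h3
    dsimp only at h1 h2 h3
    have e1 : (g : ℤ) * d ∣ q.1 := by rw [hx]; exact mul_dvd_mul_left _ h1
    have e2 : (g : ℤ) * d ∣ q.2.1 := by rw [hy]; exact mul_dvd_mul_left _ h2
    have e3 : (g : ℤ) * d ∣ q.2.2 := by rw [hz]; exact mul_dvd_mul_left _ h3
    have e4 : (g : ℤ) * d ∣ (g : ℤ) := by
      rw [hg]
      exact Int.dvd_coe_gcd e1 (Int.dvd_coe_gcd e2 e3)
    have e5 : (g : ℤ) * d ∣ (g : ℤ) * 1 := by rw [mul_one]; exact e4
    have := Int.dvd_of_mul_dvd_mul_left hgZ e5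
    exact isUnit_of_dvd_one this
  · intro h0
    simp only [Prod.mk_eq_zero] at h0
    apply hq
    rw [h0.1, mul_zero] at hx
    rw [h0.2.1, mul_zero] at hy
    rw [h0.2.2, mul_zero] at hz
    exact Prod.ext hx (Prod.ext hy hz)
  · unfold nm
    dsimp only
    rw [hx, hy, hz, Int.natAbs_mul, Int.natAbs_mul, Int.natAbs_mul, Int.natAbs_natCast]
    have hg1 : 1 ≤ g := Nat.one_le_iff_ne_zero.mpr hg0
    have l1 : x.natAbs ≤ g * x.natAbs := Nat.le_mul_of_pos_left _ hg1
    have l2 : y.natAbs ≤ g * y.natAbs := Nat.le_mul_of_pos_left _ hg1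
    have l3 : z.natAbs ≤ g * z.natAbs := Nat.le_mul_of_pos_left _ hg1
    omega

theorem dot_smul (k ν : V3) (g : ℤ) : dot k (g * ν.1, g * ν.2.1, g * ν.2.2) = g * dot k ν := by
  unfold dot; ring

/-- the bound for the number of points in a plane -/
theorem card_level {P : ℕ} (q : V3) (t : ℤ) :
    ((bx P).filter (fun k => dot k q = t)).card ≤ ((bx (2 * P)).filter (fun k => dot k q = 0)).card := by
  rcases ((bx P).filter (fun k => dot k q = t)).eq_empty_or_nonempty with h | ⟨k₀, hk₀⟩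
  · rw [h]; simp
  · apply Finset.card_le_card_of_injOn (fun k => k - k₀)
    · intro k hk
      rw [Finset.mem_coe, Finset.mem_filter, mem_bx] at hk
      rw [Finset.mem_filter, mem_bx] at hk₀
      rw [Finset.mem_coe, Finset.mem_filter, mem_bx]
      obtain ⟨h1, h2⟩ := hk
      obtain ⟨h3, h4⟩ := hk₀
      constructor
      · have a1 : k.1.natAbs ≤ P := le_trans (by unfold nm; omega) h1
        have a2 : k.2.1.natAbs ≤ P := le_trans (by unfold nm; omega) h1
        have a3 : k.2.2.natAbs ≤ P := le_trans (by unfold nm; omega) h1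
        have b1 : k₀.1.natAbs ≤ P := le_trans (by unfold nm; omega) h3
        have b2 : k₀.2.1.natAbs ≤ P := le_trans (by unfold nm; omega) h3
        have b3 : k₀.2.2.natAbs ≤ P := le_trans (by unfold nm; omega) h3
        unfold nm
        simp only [Prod.fst_sub, Prod.snd_sub]
        refine max_le ?_ (max_le ?_ ?_) <;> omega
      · unfold dot at h2 h4 ⊢
        simp only [Prod.fst_sub, Prod.snd_sub]
        linarith
    · intro a _ b _ hab
      exact sub_left_injective hab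

/-- harmonic sum over a symmetric interval -/
theorem sum_harm (T : ℕ) : ∑ t ∈ Finset.Icc (-(T : ℤ)) T, (1 : ℝ) / (1 + |(t : ℝ)|) ≤ 2 * (1 + Real.log (T + 1)) := by
  have h1 : ∑ t ∈ Finset.Icc (-(T : ℤ)) T, (1 : ℝ) / (1 + |(t : ℝ)|) ≤
      ∑ t ∈ (Finset.Icc (-(T : ℤ)) T).filter (fun t => 0 ≤ t), (1 : ℝ) / (1 + |(t : ℝ)|) +
      ∑ t ∈ (Finset.Icc (-(T : ℤ)) T).filter (fun t => ¬ 0 ≤ t), (1 : ℝ) / (1 + |(t : ℝ)|) :=
    (Finset.sum_filter_add_sum_filter_not _ _ _).ge
  have key : ∀ F : Finset ℤ, (∀ t ∈ F, t.natAbs ≤ T) → Set.InjOn Int.natAbs (F : Set ℤ) →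
      ∑ t ∈ F, (1 : ℝ) / (1 + |(t : ℝ)|) ≤ 1 + Real.log (T + 1) := by
    intro F hF hinj
    have e : ∑ t ∈ F, (1 : ℝ) / (1 + |(t : ℝ)|) = ∑ n ∈ F.image Int.natAbs, (1 : ℝ) / (1 + n) := by
      rw [Finset.sum_image hinj]
      apply Finset.sum_congr rfl; intro t _
      rw [Nat.cast_natAbs, Int.cast_abs]
    rw [e]
    have h2 : ∑ n ∈ F.image Int.natAbs, (1 : ℝ) / (1 + n) ≤ ∑ n ∈ range (T + 1), (1 : ℝ) / (1 + n) := by
      apply Finset.sum_le_sum_of_subset_of_nonneg
      · intro n hn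
        rw [Finset.mem_image] at hn
        obtain ⟨t, ht, rfl⟩ := hn
        rw [Finset.mem_range]
        have := hF t ht; omega
      · intro n _ _; positivity
    refine h2.trans ?_
    have h3 := harmonic_le_one_add_log (T + 1)
    unfold harmonic at h3
    push_cast at h3
    refine le_trans (le_of_eq ?_) h3
    apply Finset.sum_congr rfl; intro n _
    rw [one_div, add_comm]
  have a1 := key ((Finset.Icc (-(T : ℤ)) T).filter (fun t => 0 ≤ t))
    (fun t ht => by rw [Finset.mem_filter, Finset.mem_Icc] at ht; omega)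
    (fun a ha b hb hab => by
      rw [Finset.mem_coe, Finset.mem_filter] at ha hb; omega)
  have a2 := key ((Finset.Icc (-(T : ℤ)) T).filter (fun t => ¬ 0 ≤ t))
    (fun t ht => by rw [Finset.mem_filter, Finset.mem_Icc] at ht; omega)
    (fun a ha b hb hab => by
      rw [Finset.mem_coe, Finset.mem_filter] at ha hb; omega)
  linarith

theorem natAbs_dot_le (k q : V3) : (dot k q).natAbs ≤ 3 * (nm k * nm q) := by
  unfold dot
  have h1 : (k.1 * q.1).natAbs ≤ nm k * nm q := by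
    rw [Int.natAbs_mul]; apply Nat.mul_le_mul <;> (unfold nm; omega)
  have h2 : (k.2.1 * q.2.1).natAbs ≤ nm k * nm q := by
    rw [Int.natAbs_mul]; apply Nat.mul_le_mul <;> (unfold nm; omega)
  have h3 : (k.2.2 * q.2.2).natAbs ≤ nm k * nm q := by
    rw [Int.natAbs_mul]; apply Nat.mul_le_mul <;> (unfold nm; omega)
  omega

theorem nm_crs_le (k l : V3) : nm (crs k l) ≤ 2 * (nm k * nm l) := by
  have hb : ∀ x y z w : ℤ, x.natAbs ≤ nm k → y.natAbs ≤ nm l → z.natAbs ≤ nm k → w.natAbs ≤ nm l →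
      (x * y - z * w).natAbs ≤ 2 * (nm k * nm l) := by
    intro x y z w h1 h2 h3 h4
    have a := Int.natAbs_sub_le (x * y) (z * w)
    rw [Int.natAbs_mul, Int.natAbs_mul] at a
    have b := Nat.mul_le_mul h1 h2
    have c := Nat.mul_le_mul h3 h4
    omega
  have k1 : k.1.natAbs ≤ nm k := by unfold nm; omega
  have k2 : k.2.1.natAbs ≤ nm k := by unfold nm; omega
  have k3 : k.2.2.natAbs ≤ nm k := by unfold nm; omega
  have l1 : l.1.natAbs ≤ nm l := by unfold nm; omega
  have l2 : l.2.1.natAbs ≤ nm l := by unfold nm; omega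
  have l3 : l.2.2.natAbs ≤ nm l := by unfold nm; omega
  have a := hb _ _ _ _ k2 l3 k3 l2
  have b := hb _ _ _ _ k3 l1 k1 l3
  have c := hb _ _ _ _ k1 l2 k2 l1
  have : nm (crs k l) = max (k.2.1 * l.2.2 - k.2.2 * l.2.1).natAbs
    (max (k.2.2 * l.1 - k.1 * l.2.2).natAbs (k.1 * l.2.1 - k.2.1 * l.1).natAbs) := rfl
  rw [this]
  omega

theorem inner_sum {P : ℕ} (q : V3) (T : ℕ) (hT : 3 * (P * nm q) ≤ T) :
    ∑ k ∈ bx P, (1 : ℝ) / (1 + |((dot k q : ℤ) : ℝ)|) ≤
      (((bx (2 * P)).filter (fun k => dot k q = 0)).card : ℝ) * (2 * (1 + Real.log (T + 1))) := by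
  have hmaps : ∀ k ∈ bx P, dot k q ∈ Finset.Icc (-(T : ℤ)) T := by
    intro k hk
    rw [mem_bx] at hk
    have h1 := natAbs_dot_le k q
    have h2 : nm k * nm q ≤ P * nm q := Nat.mul_le_mul_right _ hk
    rw [Finset.mem_Icc]; omega
  rw [← Finset.sum_fiberwise_of_maps_to hmaps]
  calc _ = ∑ t ∈ Finset.Icc (-(T : ℤ)) T, (((bx P).filter (fun k => dot k q = t)).card : ℝ) * (1 / (1 + |(t : ℝ)|)) := by
        apply Finset.sum_congr rfl; intro t _
        rw [← nsmul_eq_mul, ← Finset.sum_const]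
        apply Finset.sum_congr rfl; intro k hk
        rw [(Finset.mem_filter.mp hk).2]
    _ ≤ ∑ t ∈ Finset.Icc (-(T : ℤ)) T, (((bx (2 * P)).filter (fun k => dot k q = 0)).card : ℝ) * (1 / (1 + |(t : ℝ)|)) := by
        apply Finset.sum_le_sum; intro t _
        apply mul_le_mul_of_nonneg_right _ (by positivity)
        exact_mod_cast card_level q t
    _ ≤ _ := by
        rw [← Finset.mul_sum]
        apply mul_le_mul_of_nonneg_left (sum_harm T) (Nat.cast_nonneg _)

end Run7.h297
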