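import Pool.Agent.Run7.h297.Energy
import Pool.Agent.Run7.h297.Kspace

set_option autoImplicit false

/-! Reduced bases of the lattice of modes for generic points. -/

noncomputable section

namespace Run7.h297

open Real Finset MeasureTheory

/-- linear form -/
def lin (m : ℤ × ℤ) (X : ℝ × ℝ) : ℝ := m.1 * X.1 + m.2 * X.2

/-- point of the torus -/
def pt (X : ℝ × ℝ) : TT × TT := (((X.1 : ℝ) : TT), ((X.2 : ℝ) : TT))

theorem dm_pt (m : ℤ × ℤ) (X : ℝ × ℝ) : dm m (pt X) = ((lin m X : ℝ) : TT) := by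
  unfold dm pt lin
  have e1 : m.1 • ((X.1 : ℝ) : TT) = ((m.1 * X.1 : ℝ) : TT) := by
    rw [← zsmul_eq_mul]; rfl
  have e2 : m.2 • ((X.2 : ℝ) : TT) = ((m.2 * X.2 : ℝ) : TT) := by
    rw [← zsmul_eq_mul]; rfl
  rw [e1, e2]; rfl

/-- nearest integer -/
def pz (m : ℤ × ℤ) (X : ℝ × ℝ) : ℤ := round (lin m X)

/-- signed distance -/
def cz (m : ℤ × ℤ) (X : ℝ × ℝ) : ℝ := lin m X - pz m X

theorem abs_cz (m : ℤ × ℤ) (X : ℝ × ℝ) : |cz m X| = ‖dm m (pt X)‖ := by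
  rw [dm_pt, UnitAddCircle.norm_eq]; rfl

theorem coe_cz (m : ℤ × ℤ) (X : ℝ × ℝ) : ((cz m X : ℝ) : TT) = dm m (pt X) := by
  rw [dm_pt]
  unfold cz
  have h0 : (((pz m X : ℤ) : ℝ) : TT) = 0 := by
    rw [AddCircle.coe_eq_zero_iff]
    exact ⟨pz m X, by simp⟩
  have : ((lin m X - pz m X : ℝ) : TT) = ((lin m X : ℝ) : TT) - (((pz m X : ℤ) : ℝ) : TT) := rfl
  rw [this, h0, sub_zero]

theorem pigeon {P1 P2 Nc : ℕ} (hN : 0 < Nc) (h : Nc < P1 * P2) (x : TT × TT) :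
    ∃ m : ℤ × ℤ, m ≠ 0 ∧ m.1.natAbs < P1 ∧ m.2.natAbs < P2 ∧ ‖dm m x‖ ≤ 1 / Nc := by
  obtain ⟨x1, x2⟩ := x
  obtain ⟨X1, rfl⟩ := QuotientAddGroup.mk_surjective x1
  obtain ⟨X2, rfl⟩ := QuotientAddGroup.mk_surjective x2
  have hN' : (0 : ℝ) < Nc := by exact_mod_cast hN
  set F : ℕ × ℕ → ℕ := fun z => ⌊(Nc : ℝ) * Int.fract ((z.1 : ℝ) * X1 + z.2 * X2)⌋₊ with hF
  have hmaps : Set.MapsTo F (range P1 ×ˢ range P2 : Finset (ℕ × ℕ)) (range Nc : Finset ℕ) := by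
    intro z _
    rw [Finset.mem_coe, Finset.mem_range, hF]
    dsimp only
    rw [Nat.floor_lt (mul_nonneg hN'.le (Int.fract_nonneg _))]
    have := Int.fract_lt_one ((z.1 : ℝ) * X1 + z.2 * X2)
    calc (Nc : ℝ) * Int.fract ((z.1 : ℝ) * X1 + z.2 * X2) < Nc * 1 := by gcongr
      _ = Nc := mul_one _
  obtain ⟨z, hz, z', hz', hne, heq⟩ := Finset.exists_ne_map_eq_of_card_lt_of_maps_to
    (by rw [Finset.card_product, card_range, card_range, card_range]; exact h) hmaps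
  rw [Finset.mem_product, Finset.mem_range, Finset.mem_range] at hz hz'
  refine ⟨((z.1 : ℤ) - z'.1, (z.2 : ℤ) - z'.2), ?_, ?_, ?_, ?_⟩
  · intro h0
    rw [Prod.mk_eq_zero] at h0
    apply hne
    apply Prod.ext <;> omega
  · dsimp only; omega
  · dsimp only; omega
  · have e : dm ((z.1 : ℤ) - z'.1, (z.2 : ℤ) - z'.2) (((X1 : ℝ) : TT), ((X2 : ℝ) : TT)) =
        ((((z.1 : ℝ) * X1 + z.2 * X2) - ((z'.1 : ℝ) * X1 + z'.2 * X2) : ℝ) : TT) := by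
      have := dm_pt ((z.1 : ℤ) - z'.1, (z.2 : ℤ) - z'.2) (X1, X2)
      unfold pt lin at this
      dsimp only at this
      rw [this]
      congr 1; push_cast; ring
    have e2 : ‖dm ((z.1 : ℤ) - z'.1, (z.2 : ℤ) - z'.2) (((X1 : ℝ) : TT), ((X2 : ℝ) : TT))‖ ≤
        |Int.fract ((z.1 : ℝ) * X1 + z.2 * X2) - Int.fract ((z'.1 : ℝ) * X1 + z'.2 * X2)| := by
      rw [e]
      refine (norm_coe_le _ (⌊(z.1 : ℝ) * X1 + z.2 * X2⌋ - ⌊(z'.1 : ℝ) * X1 + z'.2 * X2⌋)).trans (le_of_eq ?_)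
      unfold Int.fract
      push_cast
      congr 1; ring
    refine e2.trans ?_
    have heq' : ⌊(Nc : ℝ) * Int.fract ((z.1 : ℝ) * X1 + z.2 * X2)⌋₊ = ⌊(Nc : ℝ) * Int.fract ((z'.1 : ℝ) * X1 + z'.2 * X2)⌋₊ := heq
    have a1 := Nat.floor_le (mul_nonneg hN'.le (Int.fract_nonneg ((z.1 : ℝ) * X1 + z.2 * X2)))
    have a2 := Nat.lt_floor_add_one ((Nc : ℝ) * Int.fract ((z.1 : ℝ) * X1 + z.2 * X2))
    have b1 := Nat.floor_le (mul_nonneg hN'.le (Int.fract_nonneg ((z'.1 : ℝ) * X1 + z'.2 * X2)))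
    have b2 := Nat.lt_floor_add_one ((Nc : ℝ) * Int.fract ((z'.1 : ℝ) * X1 + z'.2 * X2))
    rw [heq'] at a1 a2
    rw [le_div_iff₀ hN']
    have e5 : |Int.fract ((z.1 : ℝ) * X1 + z.2 * X2) - Int.fract ((z'.1 : ℝ) * X1 + z'.2 * X2)| * (Nc : ℝ) =
        |(Int.fract ((z.1 : ℝ) * X1 + z.2 * X2) - Int.fract ((z'.1 : ℝ) * X1 + z'.2 * X2)) * (Nc : ℝ)| := by
      rw [abs_mul, abs_of_pos hN']
    rw [e5, abs_le]
    constructor <;> linarith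

/-- exponent of the side length -/
def AP.r (a : AP) : ℕ := (a.g + a.f - a.σ + a.k + 17 * a.w) / 3

theorem AP.Ok.r_facts {a : AP} (h : a.Ok) : 3 * a.r + a.σ ≤ a.g + a.f + a.k + 17 * a.w ∧
    a.g + a.f + a.k + 17 * a.w ≤ 3 * a.r + a.σ + 2 ∧ 3 * a.r ≤ a.k + 18 * a.w ∧ a.r + 20 * a.w ≤ a.k ∧
    a.k + 11 * a.w + 4 ≤ a.σ + a.r := by
  have h1 := h.he0
  have h2 := h.he1
  have h3 := h.hk
  have h4 := h.hw
  have h5 := h.hσ
  unfold AP.r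
  omega

/-- unit of the first coordinate -/
def AP.s1 (a : AP) : ℝ := 2 ^ (a.g + 4 * a.w - a.r)
/-- unit of the second coordinate -/
def AP.s2 (a : AP) : ℝ := 2 ^ (a.f + 4 * a.w - a.r)
/-- unit of the third coordinate -/
def AP.s3 (a : AP) : ℝ := 2 ^ (a.k + 6 * a.w) / 2 ^ (a.σ + a.r)

/-- no very short vectors -/
def Gen1 (a : AP) (x : TT × TT) : Prop :=
  ∀ m : ℤ × ℤ, m ≠ 0 → m.1.natAbs ≤ 2 ^ (a.g + 4 * a.w - a.r) → m.2.natAbs ≤ 2 ^ (a.f + 4 * a.w - a.r) →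
    a.s3 < ‖dm m x‖

theorem AP.Ok.s_vol {a : AP} (h : a.Ok) : a.s1 * a.s2 * a.s3 * (2 ^ a.w) ^ 3 ≤ 4 := by
  obtain ⟨h1, h2, h3, h4, h5⟩ := h.r_facts
  have hg := h.hg
  have hf := h.hf
  have e : a.s1 * a.s2 * a.s3 * (2 ^ a.w) ^ 3 =
      2 ^ (a.g + 4 * a.w - a.r + (a.f + 4 * a.w - a.r) + (a.k + 6 * a.w) + a.w * 3) / 2 ^ (a.σ + a.r) := by
    unfold AP.s1 AP.s2 AP.s3
    rw [pow_add 2 (a.g + 4 * a.w - a.r + (a.f + 4 * a.w - a.r) + (a.k + 6 * a.w)), pow_add 2 (a.g + 4 * a.w - a.r + (a.f + 4 * a.w - a.r)),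
      pow_add 2 (a.g + 4 * a.w - a.r), pow_mul]
    ring
  rw [e, div_le_iff₀ (by positivity)]
  have e4 : (4 : ℝ) * 2 ^ (a.σ + a.r) = 2 ^ (a.σ + a.r + 2) := by rw [pow_add 2 (a.σ + a.r) 2]; ring
  rw [e4]
  apply pow_le_pow_right₀ (by norm_num)
  omega

theorem meas_Gen1 (a : AP) (h : a.Ok) : volume {x : TT × TT | ¬ Gen1 a x} ≤ ENNReal.ofReal (1 / 2 ^ a.w) := by
  set S : Finset (ℤ × ℤ) := ((Finset.Icc (-((2 ^ (a.g + 4 * a.w - a.r) : ℕ) : ℤ)) ((2 ^ (a.g + 4 * a.w - a.r) : ℕ) : ℤ)) ×ˢ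
    (Finset.Icc (-((2 ^ (a.f + 4 * a.w - a.r) : ℕ) : ℤ)) ((2 ^ (a.f + 4 * a.w - a.r) : ℕ) : ℤ))).filter (fun m => m ≠ 0) with hS
  have hs3 : 0 < a.s3 := by unfold AP.s3; positivity
  have h1 := meas_count S (fun m hm => (Finset.mem_filter.mp hm).2) (ρ := a.s3) (t := 1) hs3.le one_pos
  have hsub : {x : TT × TT | ¬ Gen1 a x} ⊆ {x | (1 : ℝ) ≤ ((S.filter (fun m => ‖dm m x‖ ≤ a.s3)).card : ℝ)} := by
    intro x hx
    simp only [Set.mem_ofPred_eq] at hx ⊢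
    unfold Gen1 at hx
    push Not at hx
    obtain ⟨m, m0, m1, m2, m3⟩ := hx
    have : 0 < (S.filter (fun m => ‖dm m x‖ ≤ a.s3)).card := by
      rw [Finset.card_pos]
      refine ⟨m, ?_⟩
      rw [Finset.mem_filter, hS, Finset.mem_filter, Finset.mem_product, Finset.mem_Icc, Finset.mem_Icc]
      refine ⟨⟨⟨?_, ?_⟩, m0⟩, m3⟩
      · generalize 2 ^ (a.g + 4 * a.w - a.r) = E at m1
        omega
      · generalize 2 ^ (a.f + 4 * a.w - a.r) = E at m2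
        omega
    exact_mod_cast this
  refine (measure_mono hsub).trans (h1.trans ?_)
  apply ENNReal.ofReal_le_ofReal
  have hc : (S.card : ℝ) ≤ 9 * (a.s1 * a.s2) := by
    have c1 : S.card ≤ (2 * 2 ^ (a.g + 4 * a.w - a.r) + 1) * (2 * 2 ^ (a.f + 4 * a.w - a.r) + 1) := by
      refine (Finset.card_filter_le _ _).trans ?_
      rw [Finset.card_product, card_Icc_sym, card_Icc_sym]
    have c2 : (S.card : ℝ) ≤ (2 * a.s1 + 1) * (2 * a.s2 + 1) := by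
      unfold AP.s1 AP.s2; exact_mod_cast c1
    have u1 : 1 ≤ a.s1 := by unfold AP.s1; exact one_le_pow₀ (by norm_num)
    have u2 : 1 ≤ a.s2 := by unfold AP.s2; exact one_le_pow₀ (by norm_num)
    calc _ ≤ _ := c2
      _ ≤ (3 * a.s1) * (3 * a.s2) := by gcongr <;> linarith
      _ = _ := by ring
  have hv := h.s_vol
  have hW := h.W40
  have hW1 := h.W1
  rw [div_one, le_div_iff₀ (by positivity)]
  set W : ℝ := 2 ^ a.w with hWdef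
  have hW0 : 0 < W := by positivity
  have hu : 0 < a.s1 * a.s2 := by unfold AP.s1 AP.s2; positivity
  have hW72 : 72 ≤ W ^ 2 := by nlinarith
  have h5 : (a.s1 * a.s2 * a.s3) * W ^ 3 * 18 ≤ W ^ 2 := by linarith
  have h6 : (18 * (a.s1 * a.s2 * a.s3) * W) * W ^ 2 ≤ 1 * W ^ 2 := by linarith
  have h7 := le_of_mul_le_mul_right h6 (by positivity)
  calc (S.card : ℝ) * (2 * a.s3) * W ≤ (9 * (a.s1 * a.s2)) * (2 * a.s3) * W := by gcongr
    _ = 18 * (a.s1 * a.s2 * a.s3) * W := by ring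
    _ ≤ 1 := h7

/-- real third coordinate -/
def cV (X : ℝ × ℝ) (V : V3) : ℝ := V.1 * X.1 + V.2.1 * X.2 - V.2.2

/-- real determinant -/
def dr (X : ℝ × ℝ) (A B C : V3) : ℝ :=
  A.1 * (B.2.1 * cV X C - cV X B * C.2.1) - A.2.1 * (B.1 * cV X C - cV X B * C.1) + cV X A * (B.1 * C.2.1 - B.2.1 * C.1)

theorem dot_eq_dr (X : ℝ × ℝ) (A B C : V3) : ((dot A (crs B C) : ℤ) : ℝ) = - dr X A B C := by
  unfold dot crs dr cV
  push_cast
  ring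

/-- size of a vector in units -/
def Sz (a : AP) (X : ℝ × ℝ) (α : ℝ) (V : V3) : Prop :=
  |(V.1 : ℝ)| ≤ α * a.s1 ∧ |(V.2.1 : ℝ)| ≤ α * a.s2 ∧ |cV X V| ≤ α * a.s3

theorem dr_le {a : AP} {X : ℝ × ℝ} {α β γ : ℝ} {A B C : V3} (hA : Sz a X α A) (hB : Sz a X β B) (hC : Sz a X γ C) :
    |dr X A B C| ≤ 6 * (α * β * γ) * (a.s1 * a.s2 * a.s3) := by
  obtain ⟨a1, a2, a3⟩ := hA
  obtain ⟨b1, b2, b3⟩ := hB
  obtain ⟨c1, c2, c3⟩ := hC
  have key : ∀ x y z p q t : ℝ, |x| ≤ p → |y| ≤ q → |z| ≤ t → |x * y * z| ≤ p * q * t := by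
    intro x y z p q t h1 h2 h3
    rw [abs_mul, abs_mul]
    have hp := (abs_nonneg x).trans h1
    have hq := (abs_nonneg y).trans h2
    gcongr
  have k1 := key _ _ _ _ _ _ a1 b2 c3
  have k2 := key _ _ _ _ _ _ a1 b3 c2
  have k3 := key _ _ _ _ _ _ a2 b1 c3
  have k4 := key _ _ _ _ _ _ a2 b3 c1
  have k5 := key _ _ _ _ _ _ a3 b1 c2
  have k6 := key _ _ _ _ _ _ a3 b2 c1
  have e : dr X A B C = A.1 * B.2.1 * cV X C - A.1 * cV X B * C.2.1 - A.2.1 * B.1 * cV X C + A.2.1 * cV X B * C.1 +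
      cV X A * B.1 * C.2.1 - cV X A * B.2.1 * C.1 := by unfold dr; ring
  rw [e]
  rw [abs_le] at *
  obtain ⟨k1a, k1b⟩ := k1
  obtain ⟨k2a, k2b⟩ := k2
  obtain ⟨k3a, k3b⟩ := k3
  obtain ⟨k4a, k4b⟩ := k4
  obtain ⟨k5a, k5b⟩ := k5
  obtain ⟨k6a, k6b⟩ := k6
  constructor
  · linarith
  · linarith

private theorem x_le {x W u : ℝ} (hx : 0 ≤ x) (hW : 1 ≤ W) (h : x * W ≤ u) : x ≤ u :=
  (le_mul_of_one_le_right hx hW).trans h

/-- a good basis -/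
structure Bas (a : AP) (X : ℝ × ℝ) (A B C : V3) : Prop where
  nd : dot A (crs B C) ≠ 0
  dle : |((dot A (crs B C) : ℤ) : ℝ)| ≤ (2 ^ a.w) ^ 13
  hA : Sz a X (2 * (2 ^ a.w) ^ 5) A
  hB : Sz a X (2 * (2 ^ a.w) ^ 5) B
  hC : Sz a X (2 * (2 ^ a.w) ^ 5) C
  cA : |cV X A| ≤ (2 ^ a.w) ^ 5 * a.s3
  cB : |cV X B| ≤ (2 ^ a.w) ^ 5 * a.s3
  cC : |cV X C| ≤ (2 ^ a.w) ^ 5 * a.s3

theorem exists_bas {a : AP} (h : a.Ok) {X : ℝ × ℝ} (hX : Gen1 a (pt X)) : ∃ A B C : V3, Bas a X A B C := by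
  obtain ⟨r1, r2, r3, r4, r5⟩ := h.r_facts
  have hg := h.hg
  have hf := h.hf
  have hw := h.hw
  have hσ := h.hσ
  have hW := h.W40
  have hW1 := h.W1
  have s1p : 0 < a.s1 := by unfold AP.s1; positivity
  have s2p : 0 < a.s2 := by unfold AP.s2; positivity
  have s3p : 0 < a.s3 := by unfold AP.s3; positivity
  have hv := h.s_vol
  set W : ℝ := 2 ^ a.w with hWdef
  have hW0 : 0 < W := by positivity
  have pw : ∀ n : ℕ, W ^ n = 2 ^ (a.w * n) := fun n => by rw [hWdef, ← pow_mul]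
  -- vectors from the pigeonhole principle
  have mk : ∀ (P1 P2 Nc : ℕ), Nc + 1 ≤ P1 + P2 → ∃ m : ℤ × ℤ, m ≠ 0 ∧ m.1.natAbs < 2 ^ P1 ∧ m.2.natAbs < 2 ^ P2 ∧
      ‖dm m (pt X)‖ ≤ 1 / 2 ^ Nc := by
    intro P1 P2 Nc hh
    have := pigeon (P1 := 2 ^ P1) (P2 := 2 ^ P2) (Nc := 2 ^ Nc) (by positivity)
      (by rw [← pow_add]; exact Nat.pow_lt_pow_right (by norm_num) (by omega)) (pt X)
    push_cast at this
    exact this
  have nn : ∀ z : ℤ, (z.natAbs : ℝ) = |(z : ℝ)| := fun z => by rw [Nat.cast_natAbs, Int.cast_abs]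
  have cle : ∀ (z : ℤ) (n : ℕ), z.natAbs < 2 ^ n → |(z : ℝ)| ≤ 2 ^ n := by
    intro z n hz
    rw [← nn]; exact_mod_cast hz.le
  have p2 : ∀ i j : ℕ, i ≤ j → (2 : ℝ) ^ i ≤ 2 ^ j := fun i j hij => pow_le_pow_right₀ (by norm_num) hij
  obtain ⟨mA, A0, A1, A2, A3⟩ := mk (a.g + 9 * a.w + 1 - a.r) (a.f + 3 * a.w - a.r) (a.σ + a.r - a.k - 5 * a.w) (by omega)
  obtain ⟨mB, B0, B1, B2, B3⟩ := mk (a.g + 3 * a.w - a.r) (a.f + 9 * a.w + 1 - a.r) (a.σ + a.r - a.k - 5 * a.w) (by omega)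
  obtain ⟨mC, C0, C1, C2, C3⟩ := mk (a.g + 3 * a.w + 1 - a.r) (a.f + 3 * a.w - a.r) (a.σ + a.r - a.k - 11 * a.w) (by omega)
  set A : V3 := (mA.1, mA.2, pz mA X) with hA
  set B : V3 := (mB.1, mB.2, pz mB X) with hB
  set C : V3 := (mC.1, mC.2, pz mC X) with hC
  have cVA : cV X A = cz mA X := rfl
  have cVB : cV X B = cz mB X := rfl
  have cVC : cV X C = cz mC X := rfl
  -- units
  have e1s : (2 : ℝ) ^ (a.g + 9 * a.w + 1 - a.r) = 2 * W ^ 5 * a.s1 := by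
    rw [pw]; unfold AP.s1
    rw [mul_assoc, ← pow_add, ← pow_succ']; congr 1; omega
  have e1t : (2 : ℝ) ^ (a.g + 3 * a.w - a.r) * W = a.s1 := by
    unfold AP.s1; rw [hWdef, ← pow_add]; congr 1; omega
  have e1u : (2 : ℝ) ^ (a.g + 3 * a.w + 1 - a.r) * W = 2 * a.s1 := by
    unfold AP.s1; rw [hWdef, ← pow_add, ← pow_succ']; congr 1; omega
  have e2s : (2 : ℝ) ^ (a.f + 9 * a.w + 1 - a.r) = 2 * W ^ 5 * a.s2 := by
    rw [pw]; unfold AP.s2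
    rw [mul_assoc, ← pow_add, ← pow_succ']; congr 1; omega
  have e2t : (2 : ℝ) ^ (a.f + 3 * a.w - a.r) * W = a.s2 := by
    unfold AP.s2; rw [hWdef, ← pow_add]; congr 1; omega
  have e3t : 1 / (2 : ℝ) ^ (a.σ + a.r - a.k - 5 * a.w) * W = a.s3 := by
    unfold AP.s3
    rw [one_div_mul_eq_div, hWdef, div_eq_div_iff (by positivity) (by positivity), ← pow_add, ← pow_add]
    congr 1; omega
  have e3s : 1 / (2 : ℝ) ^ (a.σ + a.r - a.k - 11 * a.w) = W ^ 5 * a.s3 := by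
    unfold AP.s3
    rw [pw, mul_div_assoc', div_eq_div_iff (by positivity) (by positivity), ← pow_add, ← pow_add, one_mul]
    congr 1; omega
  have a1 : |(A.1 : ℝ)| ≤ 2 * W ^ 5 * a.s1 := by rw [← e1s]; exact cle _ _ A1
  have a2 : |(A.2.1 : ℝ)| * W ≤ a.s2 := by
    rw [← e2t]; exact mul_le_mul_of_nonneg_right (cle _ _ A2) hW0.le
  have a3 : |cV X A| * W ≤ a.s3 := by
    rw [← e3t, cVA, abs_cz]; exact mul_le_mul_of_nonneg_right A3 hW0.le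
  have b1 : |(B.1 : ℝ)| * W ≤ a.s1 := by
    rw [← e1t]; exact mul_le_mul_of_nonneg_right (cle _ _ B1) hW0.le
  have b2 : |(B.2.1 : ℝ)| ≤ 2 * W ^ 5 * a.s2 := by rw [← e2s]; exact cle _ _ B2
  have b3 : |cV X B| * W ≤ a.s3 := by
    rw [← e3t, cVB, abs_cz]; exact mul_le_mul_of_nonneg_right B3 hW0.le
  have c1 : |(C.1 : ℝ)| * W ≤ 2 * a.s1 := by
    rw [← e1u]; exact mul_le_mul_of_nonneg_right (cle _ _ C1) hW0.le
  have c2 : |(C.2.1 : ℝ)| * W ≤ a.s2 := by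
    rw [← e2t]; exact mul_le_mul_of_nonneg_right (cle _ _ C2) hW0.le
  have c3 : |cV X C| ≤ W ^ 5 * a.s3 := by rw [← e3s, cVC, abs_cz]; exact C3
  -- lower bounds
  have l1 : a.s1 ≤ |(A.1 : ℝ)| := by
    by_contra hc
    push Not at hc
    have := hX mA A0 (by
      have : (mA.1.natAbs : ℝ) < ((2 ^ (a.g + 4 * a.w - a.r) : ℕ) : ℝ) := by
        rw [nn]; push_cast; exact hc
      exact_mod_cast this.le) (by
      refine A2.le.trans ?_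
      exact Nat.pow_le_pow_right (by norm_num) (by omega))
    rw [← abs_cz, ← cVA] at this
    linarith [x_le (abs_nonneg (cV X A)) hW1 a3]
  have l2 : a.s2 ≤ |(B.2.1 : ℝ)| := by
    by_contra hc
    push Not at hc
    have := hX mB B0 (by
      refine B1.le.trans ?_
      exact Nat.pow_le_pow_right (by norm_num) (by omega)) (by
      have : (mB.2.natAbs : ℝ) < ((2 ^ (a.f + 4 * a.w - a.r) : ℕ) : ℝ) := by
        rw [nn]; push_cast; exact hc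
      exact_mod_cast this.le)
    rw [← abs_cz, ← cVB] at this
    linarith [x_le (abs_nonneg (cV X B)) hW1 b3]
  have l3 : a.s3 ≤ |cV X C| := by
    have := hX mC C0 (by
      refine C1.le.trans ?_
      exact Nat.pow_le_pow_right (by norm_num) (by omega)) (by
      refine C2.le.trans ?_
      exact Nat.pow_le_pow_right (by norm_num) (by omega))
    rw [← abs_cz, ← cVC] at this
    exact this.le
  have hW5 : (1 : ℝ) ≤ W ^ 5 := one_le_pow₀ hW1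
  have s1W : 2 * a.s1 ≤ 2 * W ^ 5 * a.s1 := mul_le_mul_of_nonneg_right (by linarith) s1p.le
  have s2W : 2 * a.s2 ≤ 2 * W ^ 5 * a.s2 := mul_le_mul_of_nonneg_right (by linarith) s2p.le
  have s3W : a.s3 ≤ W ^ 5 * a.s3 := le_mul_of_one_le_left s3p.le hW5
  have hSA : Sz a X (2 * W ^ 5) A := by
    refine ⟨a1, ?_, ?_⟩
    · linarith [x_le (abs_nonneg _) hW1 a2]
    · linarith [x_le (abs_nonneg _) hW1 a3]
  have hSB : Sz a X (2 * W ^ 5) B := by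
    refine ⟨?_, b2, ?_⟩
    · linarith [x_le (abs_nonneg _) hW1 b1]
    · linarith [x_le (abs_nonneg _) hW1 b3]
  have hSC : Sz a X (2 * W ^ 5) C := by
    refine ⟨?_, ?_, ?_⟩
    · exact (x_le (abs_nonneg _) hW1 c1).trans s1W
    · linarith [x_le (abs_nonneg _) hW1 c2]
    · linarith
  refine ⟨A, B, C, ?_, ?_, hSA, hSB, hSC, ?_, ?_, c3⟩
  · -- nonvanishing of the determinant
    intro hdet
    have hd0 : dr X A B C = 0 := by
      have := dot_eq_dr X A B C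
      rw [hdet] at this; push_cast at this; linarith
    have e : A.1 * B.2.1 * cV X C = A.1 * cV X B * C.2.1 + A.2.1 * B.1 * cV X C - A.2.1 * cV X B * C.1 -
        cV X A * B.1 * C.2.1 + cV X A * B.2.1 * C.1 := by unfold dr at hd0; linarith
    obtain ⟨α1, hα1⟩ : ∃ z, z = |(A.1 : ℝ)| := ⟨_, rfl⟩
    obtain ⟨α2, hα2⟩ : ∃ z, z = |(A.2.1 : ℝ)| := ⟨_, rfl⟩
    obtain ⟨α3, hα3⟩ : ∃ z, z = |cV X A| := ⟨_, rfl⟩
    obtain ⟨β1, hβ1⟩ : ∃ z, z = |(B.1 : ℝ)| := ⟨_, rfl⟩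
    obtain ⟨β2, hβ2⟩ : ∃ z, z = |(B.2.1 : ℝ)| := ⟨_, rfl⟩
    obtain ⟨β3, hβ3⟩ : ∃ z, z = |cV X B| := ⟨_, rfl⟩
    obtain ⟨γ1, hγ1⟩ : ∃ z, z = |(C.1 : ℝ)| := ⟨_, rfl⟩
    obtain ⟨γ2, hγ2⟩ : ∃ z, z = |(C.2.1 : ℝ)| := ⟨_, rfl⟩
    obtain ⟨γ3, hγ3⟩ : ∃ z, z = |cV X C| := ⟨_, rfl⟩
    have hab := congrArg abs e
    have t : |(A.1 : ℝ) * cV X B * C.2.1 + A.2.1 * B.1 * cV X C - A.2.1 * cV X B * C.1 -
        cV X A * B.1 * C.2.1 + cV X A * B.2.1 * C.1| ≤ α1 * β3 * γ2 + α2 * β1 * γ3 + α2 * β3 * γ1 + α3 * β1 * γ2 + α3 * β2 * γ1 := by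
      have t1 := abs_add_le ((A.1 : ℝ) * cV X B * C.2.1 + A.2.1 * B.1 * cV X C - A.2.1 * cV X B * C.1 -
        cV X A * B.1 * C.2.1) (cV X A * B.2.1 * C.1)
      have t2 := abs_sub ((A.1 : ℝ) * cV X B * C.2.1 + A.2.1 * B.1 * cV X C - A.2.1 * cV X B * C.1) (cV X A * B.1 * C.2.1)
      have t3 := abs_sub ((A.1 : ℝ) * cV X B * C.2.1 + A.2.1 * B.1 * cV X C) (A.2.1 * cV X B * C.1)
      have t4 := abs_add_le ((A.1 : ℝ) * cV X B * C.2.1) (A.2.1 * B.1 * cV X C)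
      rw [abs_mul (cV X A * B.2.1) _, abs_mul (cV X A) _, ← hα3, ← hβ2, ← hγ1] at t1
      rw [abs_mul (cV X A * B.1) _, abs_mul (cV X A) _, ← hα3, ← hβ1, ← hγ2] at t2
      rw [abs_mul ((A.2.1 : ℝ) * cV X B) _, abs_mul (A.2.1 : ℝ) _, ← hα2, ← hβ3, ← hγ1] at t3
      rw [abs_mul ((A.1 : ℝ) * cV X B) _, abs_mul (A.1 : ℝ) _, abs_mul ((A.2.1 : ℝ) * B.1) _, abs_mul (A.2.1 : ℝ) _,
        ← hα1, ← hα2, ← hβ3, ← hγ2, ← hβ1, ← hγ3] at t4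
      linarith
    rw [abs_mul, abs_mul, ← hα1, ← hβ2, ← hγ3] at hab
    rw [← hab] at t
    rw [← hα1] at a1 l1
    rw [← hα2] at a2
    rw [← hα3] at a3
    rw [← hβ1] at b1
    rw [← hβ2] at b2 l2
    rw [← hβ3] at b3
    rw [← hγ1] at c1
    rw [← hγ2] at c2
    rw [← hγ3] at c3 l3
    have α20 : 0 ≤ α2 := by rw [hα2]; exact abs_nonneg _
    have α30 : 0 ≤ α3 := by rw [hα3]; exact abs_nonneg _
    have β10 : 0 ≤ β1 := by rw [hβ1]; exact abs_nonneg _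
    have β30 : 0 ≤ β3 := by rw [hβ3]; exact abs_nonneg _
    have γ10 : 0 ≤ γ1 := by rw [hγ1]; exact abs_nonneg _
    have γ20 : 0 ≤ γ2 := by rw [hγ2]; exact abs_nonneg _
    have hα1p : 0 < α1 := by linarith
    have hβ2p : 0 < β2 := by linarith
    have hγ3p : 0 < γ3 := by linarith
    -- multiply by W squared
    have q1 : (α1 * β3 * γ2) * W ^ 2 ≤ α1 * β2 * γ3 := by
      calc (α1 * β3 * γ2) * W ^ 2 = α1 * ((β3 * W) * (γ2 * W)) := by ring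
        _ ≤ α1 * (a.s3 * a.s2) := by gcongr
        _ ≤ α1 * (γ3 * β2) := by gcongr
        _ = _ := by ring
    have q2 : (α2 * β1 * γ3) * W ^ 2 ≤ α1 * β2 * γ3 := by
      calc (α2 * β1 * γ3) * W ^ 2 = ((α2 * W) * (β1 * W)) * γ3 := by ring
        _ ≤ (a.s2 * a.s1) * γ3 := by gcongr
        _ ≤ (β2 * α1) * γ3 := by gcongr
        _ = _ := by ring
    have q5 : (α3 * β2 * γ1) * W ^ 2 ≤ 2 * (α1 * β2 * γ3) := by
      calc (α3 * β2 * γ1) * W ^ 2 = ((α3 * W) * (γ1 * W)) * β2 := by ring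
        _ ≤ (a.s3 * (2 * a.s1)) * β2 := by gcongr
        _ ≤ (γ3 * (2 * α1)) * β2 := by gcongr
        _ = _ := by ring
    have q3 : (α2 * β3 * γ1) * W ^ 2 ≤ 2 * (α1 * β2 * γ3) := by
      have : (α2 * β3 * γ1) * W ^ 3 ≤ 2 * (α1 * β2 * γ3) := by
        calc (α2 * β3 * γ1) * W ^ 3 = (α2 * W) * (β3 * W) * (γ1 * W) := by ring
          _ ≤ a.s2 * a.s3 * (2 * a.s1) := by gcongr
          _ ≤ β2 * γ3 * (2 * α1) := by gcongr
          _ = _ := by ring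
      have h2 : (α2 * β3 * γ1) * W ^ 2 ≤ (α2 * β3 * γ1) * W ^ 3 := by
        apply mul_le_mul_of_nonneg_left _ (by positivity)
        exact pow_le_pow_right₀ hW1 (by norm_num)
      linarith
    have q4 : (α3 * β1 * γ2) * W ^ 2 ≤ α1 * β2 * γ3 := by
      have : (α3 * β1 * γ2) * W ^ 3 ≤ α1 * β2 * γ3 := by
        calc (α3 * β1 * γ2) * W ^ 3 = (α3 * W) * (β1 * W) * (γ2 * W) := by ring
          _ ≤ a.s3 * a.s1 * a.s2 := by gcongr
          _ ≤ γ3 * α1 * β2 := by gcongr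
          _ = _ := by ring
      have h2 : (α3 * β1 * γ2) * W ^ 2 ≤ (α3 * β1 * γ2) * W ^ 3 := by
        apply mul_le_mul_of_nonneg_left _ (by positivity)
        exact pow_le_pow_right₀ hW1 (by norm_num)
      linarith
    have hmain : (α1 * β2 * γ3) * W ^ 2 ≤ 7 * (α1 * β2 * γ3) := by
      have := mul_le_mul_of_nonneg_right t (show 0 ≤ W ^ 2 by positivity)
      linarith
    have hpos : 0 < α1 * β2 * γ3 := by positivity
    have hW8 : 8 ≤ W ^ 2 := by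
      have h1 : W ≤ W ^ 2 := by rw [sq]; exact le_mul_of_one_le_left hW0.le hW1
      linarith
    have hmul := mul_le_mul_of_nonneg_left hW8 hpos.le
    linarith
  · rw [dot_eq_dr X, abs_neg]
    refine (dr_le hSA hSB hSC).trans ?_
    have : 6 * (2 * W ^ 5 * (2 * W ^ 5) * (2 * W ^ 5)) * (a.s1 * a.s2 * a.s3) = 48 * (a.s1 * a.s2 * a.s3 * W ^ 3) * W ^ 12 := by ring
    rw [this]
    calc 48 * (a.s1 * a.s2 * a.s3 * W ^ 3) * W ^ 12 ≤ 48 * 4 * W ^ 12 := by gcongr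
      _ ≤ W * W ^ 12 := by
        apply mul_le_mul_of_nonneg_right _ (by positivity)
        linarith
      _ = _ := by ring
  · exact (x_le (abs_nonneg _) hW1 a3).trans s3W
  · exact (x_le (abs_nonneg _) hW1 b3).trans s3W

end Run7.h297
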