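import Mathlib

set_option autoImplicit false

/-! Combinatorial bookkeeping over the nodes. -/

noncomputable section

namespace Run7.h297

open Real Finset

/-- monotone submodular functions on four coordinates, with increments at most `lg` per unit -/
structure Sub4 (h : ℕ → ℕ → ℕ → ℕ → ℝ) (lg : ℝ) : Prop where
  lg0 : 0 ≤ lg
  sub : ∀ k l g f k' l' g' f' : ℕ,
    h (max k k') (max l l') (max g g') (max f f') + h (min k k') (min l l') (min g g') (min f f') ≤
      h k l g f + h k' l' g' f'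
  mono : ∀ k l g f k' l' g' f' : ℕ, k ≤ k' → l ≤ l' → g ≤ g' → f ≤ f' → h k l g f ≤ h k' l' g' f'
  incr : ∀ k l g f k' l' g' f' : ℕ, k ≤ k' → l ≤ l' → g ≤ g' → f ≤ f' →
    h k' l' g' f' ≤ h k l g f + (((k' - k) + (l' - l) + (g' - g) + (f' - f) : ℕ) : ℝ) * lg

theorem Sub4.sub' {h : ℕ → ℕ → ℕ → ℕ → ℝ} {lg : ℝ} (hs : Sub4 h lg) (x y u v : ℕ × ℕ × ℕ × ℕ)
    (hu : u = (max x.1 y.1, max x.2.1 y.2.1, max x.2.2.1 y.2.2.1, max x.2.2.2 y.2.2.2))
    (hv : v = (min x.1 y.1, min x.2.1 y.2.1, min x.2.2.1 y.2.2.1, min x.2.2.2 y.2.2.2)) :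
    h u.1 u.2.1 u.2.2.1 u.2.2.2 + h v.1 v.2.1 v.2.2.1 v.2.2.2 ≤
      h x.1 x.2.1 x.2.2.1 x.2.2.2 + h y.1 y.2.1 y.2.2.1 y.2.2.2 := by
  rw [hu, hv]
  exact hs.sub _ _ _ _ _ _ _ _

theorem telescope (f : ℕ → ℝ) (n M : ℕ) :
    ∑ t ∈ range n, (f t - f (t + M)) = ∑ t ∈ range M, f t - ∑ t ∈ range M, f (n + t) := by
  rw [Finset.sum_sub_distrib]
  have h1 : ∑ t ∈ range (n + M), f t = ∑ t ∈ range n, f t + ∑ t ∈ range M, f (n + t) := Finset.sum_range_add _ _ _
  have h2 : ∑ t ∈ range (M + n), f t = ∑ t ∈ range M, f t + ∑ t ∈ range n, f (M + t) := Finset.sum_range_add _ _ _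
  rw [add_comm M n] at h2
  have h3 : ∑ t ∈ range n, f (M + t) = ∑ t ∈ range n, f (t + M) := by
    apply Finset.sum_congr rfl; intro t _; rw [add_comm]
  linarith

variable {h : ℕ → ℕ → ℕ → ℕ → ℝ} {lg : ℝ}

/-- the mutual information of a node -/
def II (h : ℕ → ℕ → ℕ → ℕ → ℝ) (M a b : ℕ) : ℝ :=
  h (2 * a + b) (a + 2 * b) (a + M) b + h (2 * a + b + M) (a + 2 * b) a b -
    h (2 * a + b) (a + 2 * b) a b - h (2 * a + b + M) (a + 2 * b) (a + M) b

/-- the telescoping potential -/
def hb (h : ℕ → ℕ → ℕ → ℕ → ℝ) (M a b : ℕ) : ℝ :=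
  h (2 * a + b) (a + 2 * b) (a + M) b - h (2 * a + b) (a + 2 * b) a b

theorem II_le (hs : Sub4 h lg) (M a b : ℕ) : II h M a b ≤ hb h M a b - hb h M a (b + M) := by
  unfold II hb
  have := hs.sub' (2 * a + (b + M), a + 2 * (b + M), a, b + M) (2 * a + b + M, a + 2 * b, a + M, b)
    (2 * a + (b + M), a + 2 * (b + M), a + M, b + M) (2 * a + b + M, a + 2 * b, a, b)
    (by simp only [Prod.mk.injEq]; omega) (by simp only [Prod.mk.injEq]; omega)
  dsimp only at this
  linarith

theorem hb_nonneg (hs : Sub4 h lg) (M a b : ℕ) : 0 ≤ hb h M a b := by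
  unfold hb
  have := hs.mono (2 * a + b) (a + 2 * b) a b (2 * a + b) (a + 2 * b) (a + M) b le_rfl le_rfl (by omega) le_rfl
  linarith

theorem hb_le (hs : Sub4 h lg) (M a b : ℕ) : hb h M a b ≤ M * lg := by
  unfold hb
  have := hs.incr (2 * a + b) (a + 2 * b) a b (2 * a + b) (a + 2 * b) (a + M) b le_rfl le_rfl (by omega) le_rfl
  have e : (2 * a + b - (2 * a + b)) + (a + 2 * b - (a + 2 * b)) + (a + M - a) + (b - b) = M := by omega
  rw [e] at this
  linarith

theorem sum_II (hs : Sub4 h lg) (M a B0 n : ℕ) :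
    ∑ t ∈ range n, II h M a (B0 + t) ≤ M * (M * lg) := by
  calc ∑ t ∈ range n, II h M a (B0 + t) ≤ ∑ t ∈ range n, (hb h M a (B0 + t) - hb h M a (B0 + (t + M))) := by
        apply Finset.sum_le_sum; intro t _
        have := II_le hs M a (B0 + t)
        rw [add_assoc] at this; exact this
    _ = ∑ t ∈ range M, hb h M a (B0 + t) - ∑ t ∈ range M, hb h M a (B0 + (n + t)) :=
        telescope (fun t => hb h M a (B0 + t)) n M
    _ ≤ ∑ t ∈ range M, hb h M a (B0 + t) := by
        have : 0 ≤ ∑ t ∈ range M, hb h M a (B0 + (n + t)) := Finset.sum_nonneg (fun t _ => hb_nonneg hs _ _ _)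
        linarith
    _ ≤ ∑ t ∈ range M, (M * lg) := Finset.sum_le_sum (fun t _ => hb_le hs _ _ _)
    _ = M * (M * lg) := by rw [Finset.sum_const, card_range, nsmul_eq_mul]

/-- the multi step gain -/
theorem bracket_le (hs : Sub4 h lg) {m K a b : ℕ} {g₀ : ℝ}
    (P6 : ∀ t, t < K → h (2 * (a + m * K + m * t) + b + 2 * m) ((a + m * K + m * t) + 2 * b + m) ((a + m * K + m * t) + m) b ≤
      h (2 * (a + m * K + m * t) + b) ((a + m * K + m * t) + 2 * b) ((a + m * K + m * t) + m) b + 3 * m * lg - g₀) :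
    h (2 * (a + 2 * m * K) + b) ((a + 2 * m * K) + 2 * b) (a + 2 * m * K) b ≤
      h (2 * a + b + 2 * m * K) (a + 2 * b) (a + 2 * m * K) b + 2 * (2 * m * K) * lg - K * g₀ := by
  have key : ∀ t, t ≤ K → h (2 * (a + m * K + m * t) + b) ((a + m * K + m * t) + 2 * b) (a + 2 * m * K) b ≤
      h (2 * a + b + 2 * m * K) (a + 2 * b) (a + 2 * m * K) b + (m * K) * lg + t * (3 * m * lg - g₀) := by
    intro t
    induction t with
    | zero =>
      intro _
      have := hs.incr (2 * a + b + 2 * m * K) (a + 2 * b) (a + 2 * m * K) b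
        (2 * (a + m * K + m * 0) + b) ((a + m * K + m * 0) + 2 * b) (a + 2 * m * K) b
        (by nlinarith) (by nlinarith) le_rfl le_rfl
      have e : (2 * (a + m * K + m * 0) + b - (2 * a + b + 2 * m * K)) + ((a + m * K + m * 0) + 2 * b - (a + 2 * b)) +
          (a + 2 * m * K - (a + 2 * m * K)) + (b - b) = m * K := by
        have e1 : 2 * (a + m * K + m * 0) + b = 2 * a + b + 2 * m * K := by ring
        rw [e1]; simp; omega
      rw [e] at this
      push_cast at this ⊢
      linarith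
    | succ t ih =>
      intro ht
      have h1 := ih (by omega)
      have h2 := P6 t (by omega)
      have ht' : m * t + m ≤ m * K := by
        calc m * t + m = m * (t + 1) := by ring
          _ ≤ m * K := Nat.mul_le_mul_left _ ht
      have ht'' : 2 * m * K = m * K + m * K := by ring
      have h3 := hs.sub' (2 * (a + m * K + m * t) + b + 2 * m, (a + m * K + m * t) + 2 * b + m, (a + m * K + m * t) + m, b)
        (2 * (a + m * K + m * t) + b, (a + m * K + m * t) + 2 * b, a + 2 * m * K, b)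
        (2 * (a + m * K + m * (t + 1)) + b, (a + m * K + m * (t + 1)) + 2 * b, a + 2 * m * K, b)
        (2 * (a + m * K + m * t) + b, (a + m * K + m * t) + 2 * b, (a + m * K + m * t) + m, b)
        (by
          have : m * (t + 1) = m * t + m := by ring
          simp only [Prod.mk.injEq]
          rw [this, ht'']
          omega)
        (by simp only [Prod.mk.injEq]; rw [ht'']; omega)
      dsimp only at h3
      push_cast
      linarith
  have h1 := key K le_rfl
  have e : a + m * K + m * K = a + 2 * m * K := by ring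
  rw [e] at h1
  linarith

theorem bookkeeping (hs : Sub4 h lg) {m K A0 B0 na nb : ℕ} {g₀ c₁ E lC : ℝ} (hE : 0 ≤ E)
    (P5 : ∀ a b, A0 ≤ a → a < A0 + na → B0 ≤ b → b < B0 + nb →
      (h (2 * a + b) (a + 2 * b) (a + 2 * m * K) b - h (2 * a + b) (a + 2 * b) a b) +
      (h (2 * a + b + 2 * m * K) (a + 2 * b) a b - h (2 * a + b) (a + 2 * b) a b) ≤
      (2 * m * K) * lg + c₁ + E * II h (2 * m * K) a b)
    (P6 : ∀ a b, A0 ≤ a → a < A0 + na + 2 * m * K → B0 ≤ b → b < B0 + nb →
      h (2 * a + b + 2 * m) (a + 2 * b + m) (a + m) b ≤ h (2 * a + b) (a + 2 * b) (a + m) b + 3 * m * lg - g₀)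
    (hup : ∀ a b, A0 ≤ a → a < A0 + 2 * m * K → B0 ≤ b → b < B0 + nb →
      h (2 * a + b) (a + 2 * b) a b ≤ (4 * a + 4 * b) * lg)
    (hlo : ∀ a b, A0 + na ≤ a → a < A0 + na + 2 * m * K → B0 ≤ b → b < B0 + nb →
      (3 * a + 3 * b) * lg - lC ≤ h (2 * a + b) (a + 2 * b) a b) :
    (na : ℝ) * nb * (K * g₀) ≤
      nb * (2 * m * K) * ((A0 + 4 * (2 * m * K) + B0 + nb) * lg + lC) + na * nb * c₁ +
        E * (na * ((2 * m * K) * ((2 * m * K) * lg))) := by
  have hlg := hs.lg0
  set M := 2 * m * K with hM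
  have hMc : (M : ℝ) = 2 * m * K := by rw [hM]; push_cast; ring
  rw [← hMc]
  rw [← hMc] at P5
  set U : ℕ → ℕ → ℝ := fun a b => h (2 * (a + M) + b) ((a + M) + 2 * b) (a + M) b - h (2 * a + b) (a + 2 * b) a b with hU
  -- upper bound for each node
  have hUle : ∀ a b, A0 ≤ a → a < A0 + na → B0 ≤ b → b < B0 + nb →
      U a b ≤ 3 * M * lg + c₁ + E * II h M a b - K * g₀ := by
    intro a b ha1 ha2 hb1 hb2
    have h1 := P5 a b ha1 ha2 hb1 hb2
    have h2 := bracket_le hs (m := m) (K := K) (a := a) (b := b) (g₀ := g₀) (by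
      intro t ht
      have ht' : m * K + m * t < 2 * m * K + 1 := by
        have : m * t ≤ m * K := Nat.mul_le_mul_left _ ht.le
        have e : 2 * m * K = m * K + m * K := by ring
        omega
      by_cases hlt : a + m * K + m * t < A0 + na + 2 * m * K
      · exact P6 _ b (by nlinarith [Nat.zero_le (m * K), Nat.zero_le (m * t)]) hlt hb1 hb2
      · exfalso; omega)
    have h3 : 0 ≤ II h M a b := by
      unfold II
      have := hs.sub' (2 * a + b, a + 2 * b, a + M, b) (2 * a + b + M, a + 2 * b, a, b)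
        (2 * a + b + M, a + 2 * b, a + M, b) (2 * a + b, a + 2 * b, a, b)
        (by simp only [Prod.mk.injEq]; omega) (by simp only [Prod.mk.injEq]; omega)
      dsimp only at this
      linarith
    rw [← hMc] at h2
    unfold II at h3
    rw [hU]; dsimp only
    linarith
  -- sum of the upper bounds
  have hsumU : ∑ t ∈ range nb, ∑ s ∈ range na, U (A0 + s) (B0 + t) ≤
      na * nb * (3 * M * lg + c₁ - K * g₀) + E * (na * (M * (M * lg))) := by
    calc ∑ t ∈ range nb, ∑ s ∈ range na, U (A0 + s) (B0 + t)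
        ≤ ∑ t ∈ range nb, ∑ s ∈ range na, ((3 * M * lg + c₁ - K * g₀) + E * II h M (A0 + s) (B0 + t)) := by
          apply Finset.sum_le_sum; intro t ht
          apply Finset.sum_le_sum; intro s hs'
          rw [Finset.mem_range] at ht hs'
          have := hUle (A0 + s) (B0 + t) (by omega) (by omega) (by omega) (by omega)
          linarith
      _ = na * nb * (3 * M * lg + c₁ - K * g₀) + E * ∑ s ∈ range na, ∑ t ∈ range nb, II h M (A0 + s) (B0 + t) := by
          simp_rw [Finset.sum_add_distrib, ← Finset.mul_sum, Finset.sum_const, card_range, nsmul_eq_mul]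
          rw [Finset.sum_comm]
          ring
      _ ≤ _ := by
          have : ∑ s ∈ range na, ∑ t ∈ range nb, II h M (A0 + s) (B0 + t) ≤ na * (M * (M * lg)) := by
            calc _ ≤ ∑ s ∈ range na, ((M : ℝ) * (M * lg)) := Finset.sum_le_sum (fun s _ => sum_II hs M (A0 + s) B0 nb)
              _ = _ := by rw [Finset.sum_const, card_range, nsmul_eq_mul]
          gcongr
  -- lower bound
  have hlow : ∀ t ∈ range nb, 3 * M * na * lg - M * ((A0 + 4 * M + B0 + nb) * lg + lC) ≤ ∑ s ∈ range na, U (A0 + s) (B0 + t) := by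
    intro t ht
    rw [Finset.mem_range] at ht
    set F : ℕ → ℝ := fun s => h (2 * (A0 + s) + (B0 + t)) ((A0 + s) + 2 * (B0 + t)) (A0 + s) (B0 + t) with hF
    have e : ∑ s ∈ range na, U (A0 + s) (B0 + t) = ∑ s ∈ range M, F (na + s) - ∑ s ∈ range M, F s := by
      have := telescope F na M
      have e2 : ∑ s ∈ range na, U (A0 + s) (B0 + t) = - ∑ s ∈ range na, (F s - F (s + M)) := by
        rw [← Finset.sum_neg_distrib]
        apply Finset.sum_congr rfl; intro s _
        rw [hU, hF]; dsimp only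
        rw [show A0 + (s + M) = A0 + s + M by ring]
        ring
      rw [e2, this]; ring
    rw [e]
    have h1 : ∑ s ∈ range M, F s ≤ ∑ s ∈ range M, ((4 * ((A0 : ℝ) + M) + 4 * (B0 + t)) * lg) := by
      apply Finset.sum_le_sum; intro s hs'
      rw [Finset.mem_range] at hs'
      have := hup (A0 + s) (B0 + t) (by omega) (by omega) (by omega) (by omega)
      rw [hF]; dsimp only
      refine this.trans ?_
      apply mul_le_mul_of_nonneg_right _ hlg
      have : (s : ℝ) ≤ M := by exact_mod_cast hs'.le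
      push_cast; linarith
    have h2 : ∑ s ∈ range M, ((3 * ((A0 : ℝ) + na) + 3 * (B0 + t)) * lg - lC) ≤ ∑ s ∈ range M, F (na + s) := by
      apply Finset.sum_le_sum; intro s hs'
      rw [Finset.mem_range] at hs'
      have := hlo (A0 + (na + s)) (B0 + t) (by omega) (by omega) (by omega) (by omega)
      rw [hF]; dsimp only
      refine le_trans ?_ this
      apply sub_le_sub_right
      apply mul_le_mul_of_nonneg_right _ hlg
      have : (0 : ℝ) ≤ s := Nat.cast_nonneg s
      push_cast; linarith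
    rw [Finset.sum_const, card_range, nsmul_eq_mul] at h1 h2
    have ht' : (t : ℝ) ≤ nb := by exact_mod_cast ht.le
    have hM0 : (0 : ℝ) ≤ M := Nat.cast_nonneg M
    have h3 : (M : ℝ) * ((3 * ((A0 : ℝ) + na) + 3 * (B0 + t)) * lg - lC) - M * ((4 * ((A0 : ℝ) + M) + 4 * (B0 + t)) * lg) =
      M * ((3 * na - A0 - 4 * M - B0 - t) * lg - lC) := by ring
    have h4 : M * ((3 * na - A0 - 4 * M - B0 - nb) * lg - lC) ≤ M * ((3 * (na : ℝ) - A0 - 4 * M - B0 - t) * lg - lC) := by
      apply mul_le_mul_of_nonneg_left _ hM0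
      apply sub_le_sub_right
      apply mul_le_mul_of_nonneg_right _ hlg
      linarith
    linarith
  have hlow' := Finset.sum_le_sum hlow
  rw [Finset.sum_const, card_range, nsmul_eq_mul] at hlow'
  have := hlow'.trans hsumU
  linarith

end Run7.h297
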