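import Pool.Agent.Run7.h297.Book

set_option autoImplicit false

/-! Combinatorial bookkeeping with two kinds of information costs. -/

noncomputable section

namespace Run7.h297

open Real Finset

variable {h : ℕ → ℕ → ℕ → ℕ → ℝ} {lg : ℝ}

/-- the mutual information of the two leading coordinates -/
def IJ (h : ℕ → ℕ → ℕ → ℕ → ℝ) (m k a b : ℕ) : ℝ :=
  h (2 * a + b + m + k) (a + 2 * b) (a + m) b + h (2 * a + b + m) (a + 2 * b + k) (a + m) b -
    h (2 * a + b + m) (a + 2 * b) (a + m) b - h (2 * a + b + m + k) (a + 2 * b + k) (a + m) b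

/-- potential -/
def Ps (h : ℕ → ℕ → ℕ → ℕ → ℝ) (m k a b : ℕ) : ℝ :=
  h (2 * a + b + m + k) (a + 2 * b) (a + m) b - h (2 * a + b + m) (a + 2 * b) (a + m) b

theorem Ps_nonneg (hs : Sub4 h lg) (m k a b : ℕ) : 0 ≤ Ps h m k a b := by
  unfold Ps
  have := hs.mono (2 * a + b + m) (a + 2 * b) (a + m) b (2 * a + b + m + k) (a + 2 * b) (a + m) b (by omega) le_rfl le_rfl le_rfl
  linarith

theorem Ps_le (hs : Sub4 h lg) (m k a b : ℕ) : Ps h m k a b ≤ k * lg := by
  unfold Ps
  have := hs.incr (2 * a + b + m) (a + 2 * b) (a + m) b (2 * a + b + m + k) (a + 2 * b) (a + m) b (by omega) le_rfl le_rfl le_rfl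
  have e : (2 * a + b + m + k - (2 * a + b + m)) + (a + 2 * b - (a + 2 * b)) + (a + m - (a + m)) + (b - b) = k := by omega
  rw [e] at this
  linarith

theorem II_nonneg (hs : Sub4 h lg) (M a b : ℕ) : 0 ≤ II h M a b := by
  unfold II
  have := hs.sub' (2 * a + b, a + 2 * b, a + M, b) (2 * a + b + M, a + 2 * b, a, b)
    (2 * a + b + M, a + 2 * b, a + M, b) (2 * a + b, a + 2 * b, a, b)
    (by simp only [Prod.mk.injEq]; omega) (by simp only [Prod.mk.injEq]; omega)
  dsimp only at this
  linarith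

/-- the sub rectangle estimate -/
theorem II_sub (hs : Sub4 h lg) (m k l a b : ℕ) (hl : l ≤ k) :
    h (2 * a + b + m + k) (a + 2 * b) (a + m) b + h (2 * a + b + m) (a + 2 * b) (a + m + l) b -
      h (2 * a + b + m) (a + 2 * b) (a + m) b - h (2 * a + b + m + k) (a + 2 * b) (a + m + l) b ≤ II h (m + k) a b := by
  unfold II
  have h1 := hs.sub' (2 * a + b, a + 2 * b, a + m, b) (2 * a + b + m, a + 2 * b, a, b)
    (2 * a + b + m, a + 2 * b, a + m, b) (2 * a + b, a + 2 * b, a, b)
    (by simp only [Prod.mk.injEq]; omega) (by simp only [Prod.mk.injEq]; omega)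
  have h2 := hs.sub' (2 * a + b + m, a + 2 * b, a + m, b) (2 * a + b + m + k, a + 2 * b, a, b)
    (2 * a + b + m + k, a + 2 * b, a + m, b) (2 * a + b + m, a + 2 * b, a, b)
    (by simp only [Prod.mk.injEq]; omega) (by simp only [Prod.mk.injEq]; omega)
  have h3 := hs.sub' (2 * a + b, a + 2 * b, a + (m + k), b) (2 * a + b + m, a + 2 * b, a + m, b)
    (2 * a + b + m, a + 2 * b, a + (m + k), b) (2 * a + b, a + 2 * b, a + m, b)
    (by simp only [Prod.mk.injEq]; omega) (by simp only [Prod.mk.injEq]; omega)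
  have h4 := hs.sub' (2 * a + b + m, a + 2 * b, a + (m + k), b) (2 * a + b + m + k, a + 2 * b, a + m + l, b)
    (2 * a + b + m + k, a + 2 * b, a + (m + k), b) (2 * a + b + m, a + 2 * b, a + m + l, b)
    (by simp only [Prod.mk.injEq]; omega) (by simp only [Prod.mk.injEq]; omega)
  dsimp only at h1 h2 h3 h4
  have e : 2 * a + b + (m + k) = 2 * a + b + m + k := by ring
  rw [e]
  linarith

theorem IJ_le (hs : Sub4 h lg) (m l a b : ℕ) (ha : l ≤ a) :
    IJ h m (3 * l) a b ≤ Ps h m (3 * l) a b - Ps h m (3 * l) (a - l) (b + 2 * l) + II h (m + 3 * l) (a - l) (b + 2 * l) := by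
  obtain ⟨c, rfl⟩ := Nat.exists_eq_add_of_le ha
  rw [Nat.add_sub_cancel_left]
  have h1 := II_sub hs m (3 * l) l c (b + 2 * l) (by omega)
  unfold IJ Ps
  have e1 : 2 * c + (b + 2 * l) = 2 * (l + c) + b := by ring
  have e2 : c + 2 * (b + 2 * l) = l + c + 2 * b + 3 * l := by ring
  have e3 : c + m + l = l + c + m := by ring
  rw [e1, e2, e3] at h1
  rw [e1, e2]
  have h2 := hs.sub' (2 * (l + c) + b + m, l + c + 2 * b + 3 * l, l + c + m, b + 2 * l)
    (2 * (l + c) + b + m + 3 * l, l + c + 2 * b + 3 * l, l + c + m, b)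
    (2 * (l + c) + b + m + 3 * l, l + c + 2 * b + 3 * l, l + c + m, b + 2 * l)
    (2 * (l + c) + b + m, l + c + 2 * b + 3 * l, l + c + m, b)
    (by simp only [Prod.mk.injEq]; omega) (by simp only [Prod.mk.injEq]; omega)
  dsimp only at h2
  linarith

theorem sum_Ps_a (hs : Sub4 h lg) (m k l A b n : ℕ) (hA : l ≤ A) :
    ∑ s ∈ range n, (Ps h m k (A + s) b - Ps h m k (A + s - l) b) ≤ l * (k * lg) := by
  have e : ∑ s ∈ range n, (Ps h m k (A + s) b - Ps h m k (A + s - l) b) =
      - ∑ s ∈ range n, ((fun s => Ps h m k (A - l + s) b) s - (fun s => Ps h m k (A - l + s) b) (s + l)) := by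
    rw [← Finset.sum_neg_distrib]
    apply Finset.sum_congr rfl; intro s _
    dsimp only
    rw [show A - l + (s + l) = A + s by omega, show A - l + s = A + s - l by omega]
    ring
  rw [e, telescope]
  have h1 : 0 ≤ ∑ t ∈ range l, Ps h m k (A - l + t) b := Finset.sum_nonneg (fun t _ => Ps_nonneg hs _ _ _ _)
  have h2 : ∑ t ∈ range l, Ps h m k (A - l + (n + t)) b ≤ l * (k * lg) := by
    calc _ ≤ ∑ t ∈ range l, (k * lg) := Finset.sum_le_sum (fun t _ => Ps_le hs _ _ _ _)
      _ = _ := by rw [Finset.sum_const, card_range, nsmul_eq_mul]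
  linarith

theorem sum_Ps_b (hs : Sub4 h lg) (m k l a B n : ℕ) :
    ∑ t ∈ range n, (Ps h m k a (B + t) - Ps h m k a (B + t + l)) ≤ l * (k * lg) := by
  have e : ∑ t ∈ range n, (Ps h m k a (B + t) - Ps h m k a (B + t + l)) =
      ∑ t ∈ range n, ((fun t => Ps h m k a (B + t)) t - (fun t => Ps h m k a (B + t)) (t + l)) := by
    apply Finset.sum_congr rfl; intro t _
    dsimp only
    rw [add_assoc]
  rw [e, telescope]
  have h1 : 0 ≤ ∑ t ∈ range l, Ps h m k a (B + (n + t)) := Finset.sum_nonneg (fun t _ => Ps_nonneg hs _ _ _ _)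
  have h2 : ∑ t ∈ range l, Ps h m k a (B + t) ≤ l * (k * lg) := by
    calc _ ≤ ∑ t ∈ range l, (k * lg) := Finset.sum_le_sum (fun t _ => Ps_le hs _ _ _ _)
      _ = _ := by rw [Finset.sum_const, card_range, nsmul_eq_mul]
  linarith

/-- the total of the second kind of information -/
theorem sum_IJ (hs : Sub4 h lg) (m l A B na nb : ℕ) (hA : l ≤ A) :
    ∑ s ∈ range na, ∑ t ∈ range nb, IJ h m (3 * l) (A + s) (B + t) ≤
      nb * (l * ((3 * l) * lg)) + na * ((2 * l) * ((3 * l) * lg)) + na * ((m + 3 * l) * ((m + 3 * l) * lg)) := by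
  have hterm : ∀ s ∈ range na, ∀ t ∈ range nb, IJ h m (3 * l) (A + s) (B + t) ≤
      (Ps h m (3 * l) (A + s) (B + t) - Ps h m (3 * l) (A + s - l) (B + t)) +
      (Ps h m (3 * l) (A + s - l) (B + t) - Ps h m (3 * l) (A + s - l) (B + t + 2 * l)) +
      II h (m + 3 * l) (A + s - l) (B + 2 * l + t) := by
    intro s _ t _
    have h1 := IJ_le hs m l (A + s) (B + t) (by omega)
    rw [show B + 2 * l + t = B + t + 2 * l by ring]
    linarith
  refine (Finset.sum_le_sum (fun s hs' => Finset.sum_le_sum (fun t ht => hterm s hs' t ht))).trans ?_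
  simp_rw [Finset.sum_add_distrib]
  have p1 : ∑ s ∈ range na, ∑ t ∈ range nb, (Ps h m (3 * l) (A + s) (B + t) - Ps h m (3 * l) (A + s - l) (B + t)) ≤
      nb * (l * ((3 * l) * lg)) := by
    rw [Finset.sum_comm]
    calc _ ≤ ∑ t ∈ range nb, ((l : ℝ) * (((3 * l : ℕ) : ℝ) * lg)) := Finset.sum_le_sum (fun t _ => sum_Ps_a hs m (3 * l) l A (B + t) na hA)
      _ = _ := by rw [Finset.sum_const, card_range, nsmul_eq_mul]; push_cast; ring
  have p2 : ∑ s ∈ range na, ∑ t ∈ range nb, (Ps h m (3 * l) (A + s - l) (B + t) - Ps h m (3 * l) (A + s - l) (B + t + 2 * l)) ≤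
      na * ((2 * l) * ((3 * l) * lg)) := by
    calc _ ≤ ∑ s ∈ range na, (((2 * l : ℕ) : ℝ) * (((3 * l : ℕ) : ℝ) * lg)) := Finset.sum_le_sum (fun s _ => sum_Ps_b hs m (3 * l) (2 * l) (A + s - l) B nb)
      _ = _ := by rw [Finset.sum_const, card_range, nsmul_eq_mul]; push_cast; ring
  have p3 : ∑ s ∈ range na, ∑ t ∈ range nb, II h (m + 3 * l) (A + s - l) (B + 2 * l + t) ≤
      na * ((m + 3 * l) * ((m + 3 * l) * lg)) := by
    calc _ ≤ ∑ s ∈ range na, (((m + 3 * l : ℕ) : ℝ) * (((m + 3 * l : ℕ) : ℝ) * lg)) :=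
          Finset.sum_le_sum (fun s _ => sum_II hs (m + 3 * l) (A + s - l) (B + 2 * l) nb)
      _ = _ := by rw [Finset.sum_const, card_range, nsmul_eq_mul]; push_cast; ring
  linarith

/-- the multi step gain with costs -/
theorem bracket_leB (hs : Sub4 h lg) {m K a b : ℕ} {g₀ : ℝ} {J : ℕ → ℝ}
    (P6 : ∀ t, t < K → h (2 * (a + m * K + m * t) + b + 2 * m) ((a + m * K + m * t) + 2 * b + m) ((a + m * K + m * t) + m) b ≤
      h (2 * (a + m * K + m * t) + b) ((a + m * K + m * t) + 2 * b) ((a + m * K + m * t) + m) b + 3 * m * lg - g₀ + J t) :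
    h (2 * (a + 2 * m * K) + b) ((a + 2 * m * K) + 2 * b) (a + 2 * m * K) b ≤
      h (2 * a + b + 2 * m * K) (a + 2 * b) (a + 2 * m * K) b + 2 * (2 * m * K) * lg - K * g₀ + ∑ t ∈ range K, J t := by
  have key : ∀ t, t ≤ K → h (2 * (a + m * K + m * t) + b) ((a + m * K + m * t) + 2 * b) (a + 2 * m * K) b ≤
      h (2 * a + b + 2 * m * K) (a + 2 * b) (a + 2 * m * K) b + (m * K) * lg + t * (3 * m * lg - g₀) + ∑ t ∈ range t, J t := by
    intro t
    induction t with
    | zero =>
      intro _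
      have := hs.incr (2 * a + b + 2 * m * K) (a + 2 * b) (a + 2 * m * K) b
        (2 * (a + m * K + m * 0) + b) ((a + m * K + m * 0) + 2 * b) (a + 2 * m * K) b
        (by nlinarith) (by nlinarith) le_rfl le_rfl
      have e : (2 * (a + m * K + m * 0) + b - (2 * a + b + 2 * m * K)) + ((a + m * K + m * 0) + 2 * b - (a + 2 * b)) +
          (a + 2 * m * K - (a + 2 * m * K)) + (b - b) = m * K := by
        have e1 : 2 * (a + m * K + m * 0) + b = 2 * a + b + 2 * m * K := by ring
        rw [e1]; simp; omega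
      rw [e] at this
      rw [Finset.sum_range_zero]
      push_cast at this ⊢
      linarith
    | succ t ih =>
      intro ht
      have h1 := ih (by omega)
      have h2 := P6 t (by omega)
      have ht' : m * t + m ≤ m * K := by
        calc m * t + m = m * (t + 1) := by ring
          _ ≤ m * K := Nat.mul_le_mul_left _ ht
      have ht'' : 2 * m * K = m * K + m * K := by ring
      have h3 := hs.sub' (2 * (a + m * K + m * t) + b + 2 * m, (a + m * K + m * t) + 2 * b + m, (a + m * K + m * t) + m, b)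
        (2 * (a + m * K + m * t) + b, (a + m * K + m * t) + 2 * b, a + 2 * m * K, b)
        (2 * (a + m * K + m * (t + 1)) + b, (a + m * K + m * (t + 1)) + 2 * b, a + 2 * m * K, b)
        (2 * (a + m * K + m * t) + b, (a + m * K + m * t) + 2 * b, (a + m * K + m * t) + m, b)
        (by
          have : m * (t + 1) = m * t + m := by ring
          simp only [Prod.mk.injEq]
          rw [this, ht'']
          omega)
        (by simp only [Prod.mk.injEq]; rw [ht'']; omega)
      dsimp only at h3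
      rw [Finset.sum_range_succ]
      push_cast
      linarith
  have h1 := key K le_rfl
  have e : a + m * K + m * K = a + 2 * m * K := by ring
  rw [e] at h1
  linarith

theorem bookkeepingB (hs : Sub4 h lg) {m K A0 B0 na nb l : ℕ} {g₀ c₁ E E3 lC : ℝ} (hE : 0 ≤ E) (hE3 : 0 ≤ E3) (hlA : l ≤ A0)
    (hIJ : ∀ a b, 0 ≤ IJ h m (3 * l) a b)
    (P5 : ∀ a b, A0 ≤ a → a < A0 + na → B0 ≤ b → b < B0 + nb →
      (h (2 * a + b) (a + 2 * b) (a + 2 * m * K) b - h (2 * a + b) (a + 2 * b) a b) +
      (h (2 * a + b + 2 * m * K) (a + 2 * b) a b - h (2 * a + b) (a + 2 * b) a b) ≤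
      (2 * m * K) * lg + c₁ + E * II h (2 * m * K) a b)
    (P6 : ∀ a b, A0 ≤ a → a < A0 + na + 2 * m * K → B0 ≤ b → b < B0 + nb →
      h (2 * a + b + 2 * m) (a + 2 * b + m) (a + m) b ≤ h (2 * a + b) (a + 2 * b) (a + m) b + 3 * m * lg - g₀ +
        E3 * IJ h m (3 * l) a b)
    (hup : ∀ a b, A0 ≤ a → a < A0 + 2 * m * K → B0 ≤ b → b < B0 + nb →
      h (2 * a + b) (a + 2 * b) a b ≤ (4 * a + 4 * b) * lg)
    (hlo : ∀ a b, A0 + na ≤ a → a < A0 + na + 2 * m * K → B0 ≤ b → b < B0 + nb →
      (3 * a + 3 * b) * lg - lC ≤ h (2 * a + b) (a + 2 * b) a b) :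
    (na : ℝ) * nb * (K * g₀) ≤
      nb * (2 * m * K) * ((A0 + 4 * (2 * m * K) + B0 + nb) * lg + lC) + na * nb * c₁ +
        E * (na * ((2 * m * K) * ((2 * m * K) * lg))) +
        K * E3 * (nb * (l * ((3 * l) * lg)) + (na + 2 * m * K) * ((2 * l) * ((3 * l) * lg)) +
          (na + 2 * m * K) * ((m + 3 * l) * ((m + 3 * l) * lg))) := by
  have hlg := hs.lg0
  set M := 2 * m * K with hM
  have hMc : (M : ℝ) = 2 * m * K := by rw [hM]; push_cast; ring
  rw [← hMc]
  rw [← hMc] at P5
  set J : ℕ → ℕ → ℝ := fun a b => ∑ t ∈ range K, E3 * IJ h m (3 * l) (a + m * K + m * t) b with hJ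
  set U : ℕ → ℕ → ℝ := fun a b => h (2 * (a + M) + b) ((a + M) + 2 * b) (a + M) b - h (2 * a + b) (a + 2 * b) a b with hU
  -- upper bound for each node
  have hUle : ∀ a b, A0 ≤ a → a < A0 + na → B0 ≤ b → b < B0 + nb →
      U a b ≤ 3 * M * lg + c₁ + E * II h M a b - K * g₀ + J a b := by
    intro a b ha1 ha2 hb1 hb2
    have h1 := P5 a b ha1 ha2 hb1 hb2
    have h2 := bracket_leB hs (m := m) (K := K) (a := a) (b := b) (g₀ := g₀) (J := fun t => E3 * IJ h m (3 * l) (a + m * K + m * t) b) (by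
      intro t ht
      have ht' : m * K + m * t < 2 * m * K + 1 := by
        have : m * t ≤ m * K := Nat.mul_le_mul_left _ ht.le
        have e : 2 * m * K = m * K + m * K := by ring
        omega
      by_cases hlt : a + m * K + m * t < A0 + na + 2 * m * K
      · exact P6 _ b (by nlinarith [Nat.zero_le (m * K), Nat.zero_le (m * t)]) hlt hb1 hb2
      · exfalso; omega)
    have h3 := II_nonneg hs M a b
    rw [← hMc] at h2
    unfold II at h3
    rw [hU, hJ]; dsimp only
    linarith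
  -- the sum of the second costs
  have hsumJ : ∑ t ∈ range nb, ∑ s ∈ range na, J (A0 + s) (B0 + t) ≤
      K * E3 * (nb * (l * ((3 * l) * lg)) + (na + M) * ((2 * l) * ((3 * l) * lg)) + (na + M) * ((m + 3 * l) * ((m + 3 * l) * lg))) := by
    have e1 : ∑ t ∈ range nb, ∑ s ∈ range na, J (A0 + s) (B0 + t) =
        E3 * ∑ r ∈ range K, ∑ s ∈ range na, ∑ t ∈ range nb, IJ h m (3 * l) (A0 + s + m * K + m * r) (B0 + t) := by
      rw [hJ]; dsimp only
      simp_rw [← Finset.mul_sum]
      congr 1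
      rw [Finset.sum_comm]
      have : ∀ s ∈ range na, ∑ t ∈ range nb, ∑ r ∈ range K, IJ h m (3 * l) (A0 + s + m * K + m * r) (B0 + t) =
          ∑ r ∈ range K, ∑ t ∈ range nb, IJ h m (3 * l) (A0 + s + m * K + m * r) (B0 + t) := fun s _ => Finset.sum_comm
      rw [Finset.sum_congr rfl this, Finset.sum_comm]
    rw [e1]
    have hr : ∀ r ∈ range K, ∑ s ∈ range na, ∑ t ∈ range nb, IJ h m (3 * l) (A0 + s + m * K + m * r) (B0 + t) ≤
        ∑ s ∈ range (na + M), ∑ t ∈ range nb, IJ h m (3 * l) (A0 + s) (B0 + t) := by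
      intro r hr
      rw [Finset.mem_range] at hr
      have hoff : m * K + m * r ≤ M := by
        rw [hM]
        have : m * r ≤ m * K := Nat.mul_le_mul_left _ hr.le
        nlinarith
      have e2 : ∑ s ∈ range na, ∑ t ∈ range nb, IJ h m (3 * l) (A0 + s + m * K + m * r) (B0 + t) =
          ∑ s ∈ (range na).image (fun s => (m * K + m * r) + s), ∑ t ∈ range nb, IJ h m (3 * l) (A0 + s) (B0 + t) := by
        rw [Finset.sum_image (fun x _ y _ h => by simpa using h)]
        apply Finset.sum_congr rfl; intro s _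
        apply Finset.sum_congr rfl; intro t _
        congr 1; ring
      rw [e2]
      apply Finset.sum_le_sum_of_subset_of_nonneg
      · intro s hs'
        rw [Finset.mem_image] at hs'
        obtain ⟨s', hs', rfl⟩ := hs'
        rw [Finset.mem_range] at hs' ⊢
        omega
      · intro s _ _
        exact Finset.sum_nonneg (fun t _ => hIJ _ _)
    have h1 := Finset.sum_le_sum hr
    rw [Finset.sum_const, card_range, nsmul_eq_mul] at h1
    have h2 := sum_IJ hs m l A0 B0 (na + M) nb hlA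
    push_cast at h2
    calc _ ≤ E3 * (K * ∑ s ∈ range (na + M), ∑ t ∈ range nb, IJ h m (3 * l) (A0 + s) (B0 + t)) := by gcongr
      _ ≤ E3 * (K * (nb * (l * ((3 * l) * lg)) + (na + M) * ((2 * l) * ((3 * l) * lg)) + (na + M) * ((m + 3 * l) * ((m + 3 * l) * lg)))) := by
          gcongr
      _ = _ := by ring
  -- sum of the upper bounds
  have hsumU : ∑ t ∈ range nb, ∑ s ∈ range na, U (A0 + s) (B0 + t) ≤
      na * nb * (3 * M * lg + c₁ - K * g₀) + E * (na * (M * (M * lg))) +
      K * E3 * (nb * (l * ((3 * l) * lg)) + (na + M) * ((2 * l) * ((3 * l) * lg)) + (na + M) * ((m + 3 * l) * ((m + 3 * l) * lg))) := by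
    calc ∑ t ∈ range nb, ∑ s ∈ range na, U (A0 + s) (B0 + t)
        ≤ ∑ t ∈ range nb, ∑ s ∈ range na, ((3 * M * lg + c₁ - K * g₀) + E * II h M (A0 + s) (B0 + t) + J (A0 + s) (B0 + t)) := by
          apply Finset.sum_le_sum; intro t ht
          apply Finset.sum_le_sum; intro s hs'
          rw [Finset.mem_range] at ht hs'
          have := hUle (A0 + s) (B0 + t) (by omega) (by omega) (by omega) (by omega)
          linarith
      _ = na * nb * (3 * M * lg + c₁ - K * g₀) + E * ∑ s ∈ range na, ∑ t ∈ range nb, II h M (A0 + s) (B0 + t) +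
            ∑ t ∈ range nb, ∑ s ∈ range na, J (A0 + s) (B0 + t) := by
          simp_rw [Finset.sum_add_distrib, ← Finset.mul_sum, Finset.sum_const, card_range, nsmul_eq_mul]
          rw [Finset.sum_comm (s := range nb) (t := range na) (f := fun t s => II h M (A0 + s) (B0 + t))]
          ring
      _ ≤ _ := by
          have : ∑ s ∈ range na, ∑ t ∈ range nb, II h M (A0 + s) (B0 + t) ≤ na * (M * (M * lg)) := by
            calc _ ≤ ∑ s ∈ range na, ((M : ℝ) * (M * lg)) := Finset.sum_le_sum (fun s _ => sum_II hs M (A0 + s) B0 nb)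
              _ = _ := by rw [Finset.sum_const, card_range, nsmul_eq_mul]
          gcongr
  -- lower bound
  have hlow : ∀ t ∈ range nb, 3 * M * na * lg - M * ((A0 + 4 * M + B0 + nb) * lg + lC) ≤ ∑ s ∈ range na, U (A0 + s) (B0 + t) := by
    intro t ht
    rw [Finset.mem_range] at ht
    set F : ℕ → ℝ := fun s => h (2 * (A0 + s) + (B0 + t)) ((A0 + s) + 2 * (B0 + t)) (A0 + s) (B0 + t) with hF
    have e : ∑ s ∈ range na, U (A0 + s) (B0 + t) = ∑ s ∈ range M, F (na + s) - ∑ s ∈ range M, F s := by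
      have := telescope F na M
      have e2 : ∑ s ∈ range na, U (A0 + s) (B0 + t) = - ∑ s ∈ range na, (F s - F (s + M)) := by
        rw [← Finset.sum_neg_distrib]
        apply Finset.sum_congr rfl; intro s _
        rw [hU, hF]; dsimp only
        rw [show A0 + (s + M) = A0 + s + M by ring]
        ring
      rw [e2, this]; ring
    rw [e]
    have h1 : ∑ s ∈ range M, F s ≤ ∑ s ∈ range M, ((4 * ((A0 : ℝ) + M) + 4 * (B0 + t)) * lg) := by
      apply Finset.sum_le_sum; intro s hs'
      rw [Finset.mem_range] at hs'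
      have := hup (A0 + s) (B0 + t) (by omega) (by omega) (by omega) (by omega)
      rw [hF]; dsimp only
      refine this.trans ?_
      apply mul_le_mul_of_nonneg_right _ hlg
      have : (s : ℝ) ≤ M := by exact_mod_cast hs'.le
      push_cast; linarith
    have h2 : ∑ s ∈ range M, ((3 * ((A0 : ℝ) + na) + 3 * (B0 + t)) * lg - lC) ≤ ∑ s ∈ range M, F (na + s) := by
      apply Finset.sum_le_sum; intro s hs'
      rw [Finset.mem_range] at hs'
      have := hlo (A0 + (na + s)) (B0 + t) (by omega) (by omega) (by omega) (by omega)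
      rw [hF]; dsimp only
      refine le_trans ?_ this
      apply sub_le_sub_right
      apply mul_le_mul_of_nonneg_right _ hlg
      have : (0 : ℝ) ≤ s := Nat.cast_nonneg s
      push_cast; linarith
    rw [Finset.sum_const, card_range, nsmul_eq_mul] at h1 h2
    have ht' : (t : ℝ) ≤ nb := by exact_mod_cast ht.le
    have hM0 : (0 : ℝ) ≤ M := Nat.cast_nonneg M
    have h3 : (M : ℝ) * ((3 * ((A0 : ℝ) + na) + 3 * (B0 + t)) * lg - lC) - M * ((4 * ((A0 : ℝ) + M) + 4 * (B0 + t)) * lg) =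
      M * ((3 * na - A0 - 4 * M - B0 - t) * lg - lC) := by ring
    have h4 : M * ((3 * na - A0 - 4 * M - B0 - nb) * lg - lC) ≤ M * ((3 * (na : ℝ) - A0 - 4 * M - B0 - t) * lg - lC) := by
      apply mul_le_mul_of_nonneg_left _ hM0
      apply sub_le_sub_right
      apply mul_le_mul_of_nonneg_right _ hlg
      linarith
    linarith
  have hlow' := Finset.sum_le_sum hlow
  rw [Finset.sum_const, card_range, nsmul_eq_mul] at hlow'
  have := hlow'.trans hsumU
  linarith

end Run7.h297
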