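import Pool.Agent.Run7.h297.Generic

set_option autoImplicit false

/-! The bilinear hitting estimate on a node, for generic base points. -/

noncomputable section

namespace Run7.h297

open Real Finset MeasureTheory

/-- the finite set of resonant modes -/
def NearF (Rl Rh R2 : ℕ) (r : ℝ) (x : TT × TT) : Finset (ℤ × ℤ) :=
  ((Finset.Icc (-(Rh : ℤ)) Rh) ×ˢ (Finset.Icc (-(R2 : ℤ)) R2)).filter (Near Rl Rh R2 r x)

theorem mem_NearF {Rl Rh R2 : ℕ} {r : ℝ} {x : TT × TT} {m : ℤ × ℤ} :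
    m ∈ NearF Rl Rh R2 r x ↔ Near Rl Rh R2 r x m := by
  unfold NearF
  rw [Finset.mem_filter, Finset.mem_product, Finset.mem_Icc, Finset.mem_Icc]
  constructor
  · exact fun h => h.2
  · intro h
    refine ⟨?_, h⟩
    obtain ⟨h1, h2, h3, _⟩ := h
    omega

theorem cfFQ_le {Q : ℕ} {δ₁ δ₂ : ℝ} (h₁ : 0 < δ₁) (h₂ : 0 < δ₂) (m : ℤ × ℤ) (θ : TT) :
    cf δ₁ δ₂ m * FQ Q θ ≤ Q * (δ₁ * δ₂) := by
  have a : cf δ₁ δ₂ m ≤ δ₁ * δ₂ := by
    unfold cf
    exact mul_le_mul (th_le h₁ _) (th_le h₂ _) (th_nonneg h₂ _) h₁.le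
  have b := FQ_le Q θ
  have c := FQ_nonneg Q θ
  have d := cf_nonneg h₁ h₂ m
  calc _ ≤ (δ₁ * δ₂) * Q := by gcongr
    _ = _ := by ring

theorem SS_le {Q : ℕ} (hQ : 0 < Q) {δ₁ δ₂ : ℝ} (h₁ : 0 < δ₁) (h₁' : δ₁ ≤ 1 / 2) (h₂ : 0 < δ₂)
    (h₂' : δ₂ ≤ 1 / 2) (s : ℤ) (x γ : TT × TT) : SS Q δ₁ δ₂ s x γ ≤ SS Q δ₁ δ₂ 0 x 0 := by
  have a := hasSum_SS hQ h₁ h₁' h₂ h₂' s x γ
  have b := hasSum_Sp hQ h₁ h₁' h₂ h₂' x
  have := a.norm_le_of_bounded b (fun m => by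
    rw [norm_mul, norm_mul, norm_ch, norm_ch, mul_one, mul_one, Complex.norm_real, Real.norm_eq_abs,
      abs_of_nonneg (mul_nonneg (cf_nonneg h₁ h₂ m) (FQ_nonneg _ _))])
  rw [Complex.norm_real, Real.norm_eq_abs] at this
  exact (le_abs_self _).trans this

/-- at every shift the sum differs from its mean by at most the nontrivial mass -/
theorem SS_ge {Q : ℕ} (hQ : 0 < Q) {δ₁ δ₂ : ℝ} (h₁ : 0 < δ₁) (h₁' : δ₁ ≤ 1 / 2) (h₂ : 0 < δ₂)
    (h₂' : δ₂ ≤ 1 / 2) (s : ℤ) (x γ : TT × TT) :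
    Q * (δ₁ * δ₂) - (SS Q δ₁ δ₂ 0 x 0 - Q * (δ₁ * δ₂)) ≤ SS Q δ₁ δ₂ s x γ := by
  have a := (hasSum_SS hQ h₁ h₁' h₂ h₂' s x γ).sub (hasSum_ite_eq (0 : ℤ × ℤ) (((Q : ℝ) * (δ₁ * δ₂) : ℝ) : ℂ))
  have b := (hasSum_Sp hQ h₁ h₁' h₂ h₂' x).sub (hasSum_ite_eq (0 : ℤ × ℤ) ((Q : ℝ) * (δ₁ * δ₂)))
  have := a.norm_le_of_bounded b (fun m => by
    by_cases hm : m = 0
    · subst hm
      rw [if_pos rfl, if_pos rfl, cf_zero, dm_zero, FQ_zero, dm_zero, smul_zero, neg_zero, ch_zero, mul_one, mul_one,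
        ← Complex.ofReal_sub, Complex.norm_real, Real.norm_eq_abs]
      have : δ₁ * δ₂ * Q - Q * (δ₁ * δ₂) = 0 := by ring
      rw [this, abs_zero]
    · rw [if_neg hm, if_neg hm, sub_zero, sub_zero, norm_mul, norm_mul, norm_ch, norm_ch, mul_one, mul_one,
        Complex.norm_real, Real.norm_eq_abs,
        abs_of_nonneg (mul_nonneg (cf_nonneg h₁ h₂ m) (FQ_nonneg _ _))])
  rw [← Complex.ofReal_sub, Complex.norm_real, Real.norm_eq_abs] at this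
  have := (abs_le.mp this).1
  linarith

theorem per_point {Q : ℕ} (hQ : 0 < Q) {δ₁ δ₂ : ℝ} (h₁ : 0 < δ₁) (h₁' : δ₁ ≤ 1 / 2) (h₂ : 0 < δ₂)
    (h₂' : δ₂ ≤ 1 / 2) (s : ℤ) (x : TT × TT) (N : ℕ) (g₁ : ℕ → TT) (g₂ : TT) (μ : ℕ → ℝ)
    (hμ0 : ∀ i, 0 ≤ μ i) (hμ1 : ∑ i ∈ range N, μ i = 1) (Rl Rh R2 : ℕ) (r : ℝ) {η : ℝ} (hη : 0 < η) :
    |∑ i ∈ range N, μ i * SS Q δ₁ δ₂ s x (g₁ i, g₂) - Q * (δ₁ * δ₂)| ≤
      Rest Q δ₁ δ₂ Rl Rh R2 r x + η * SS Q δ₁ δ₂ 0 x 0 +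
      ∑ m ∈ NearF Rl Rh R2 r x, (Q * (δ₁ * δ₂) / η) * ‖∑ i ∈ range N, (μ i : ℂ) * ch (-(m.1 • g₁ i))‖ ^ 2 := by
  set V : ℝ := Q * (δ₁ * δ₂) with hV
  have hV0 : 0 ≤ V := by positivity
  set Mh : ℤ → ℂ := fun m => ∑ i ∈ range N, (μ i : ℂ) * ch (-(m • g₁ i)) with hMh
  have hM0 : Mh 0 = 1 := by
    rw [hMh]; dsimp only
    simp only [zero_smul, neg_zero, ch_zero, mul_one]
    rw [← Complex.ofReal_sum, hμ1]; simp
  have hM1 : ∀ m, ‖Mh m‖ ≤ 1 := by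
    intro m
    have h : ‖Mh m‖ ≤ ∑ i ∈ range N, μ i := by
      rw [hMh]; dsimp only
      refine (norm_sum_le _ _).trans (le_of_eq ?_)
      apply Finset.sum_congr rfl; intro i _
      rw [norm_mul, norm_ch, mul_one, Complex.norm_real, Real.norm_eq_abs, abs_of_nonneg (hμ0 i)]
    exact h.trans hμ1.le
  have a : HasSum (fun m : ℤ × ℤ => ((cf δ₁ δ₂ m * FQ Q (dm m x) : ℝ) : ℂ) *
      (ch (s • dm m x) * (ch (-(m.2 • g₂)) * Mh m.1)))
      ((∑ i ∈ range N, μ i * SS Q δ₁ δ₂ s x (g₁ i, g₂) : ℝ) : ℂ) := by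
    have : HasSum (fun m : ℤ × ℤ => ∑ i ∈ range N, (μ i : ℂ) * (((cf δ₁ δ₂ m * FQ Q (dm m x) : ℝ) : ℂ) *
        (ch (s • dm m x) * ch (-dm m (g₁ i, g₂)))))
        (∑ i ∈ range N, (μ i : ℂ) * (SS Q δ₁ δ₂ s x (g₁ i, g₂) : ℂ)) := by
      apply hasSum_sum; intro i _
      exact (hasSum_SS hQ h₁ h₁' h₂ h₂' s x (g₁ i, g₂)).mul_left _
    push_cast
    push_cast at this
    refine this.congr_fun ?_
    intro m
    rw [hMh]; dsimp only
    rw [Finset.mul_sum, Finset.mul_sum, Finset.mul_sum]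
    apply Finset.sum_congr rfl; intro i _
    have : ch (-dm m (g₁ i, g₂)) = ch (-(m.2 • g₂)) * ch (-(m.1 • g₁ i)) := by
      rw [← ch_add]; congr 1; unfold dm; abel
    rw [this]; ring
  have a' := a.sub (hasSum_ite_eq (0 : ℤ × ℤ) ((V : ℝ) : ℂ))
  have b1 := (summable_w (Q := Q) h₁ h₁' h₂ h₂' x (fun m => m ≠ 0 ∧ ¬ Near Rl Rh R2 r x m)).hasSum
  have b2 := (hasSum_Sp hQ h₁ h₁' h₂ h₂' x).mul_left η
  have b3 : HasSum (fun m : ℤ × ℤ => if m ∈ NearF Rl Rh R2 r x then (V / η) * ‖Mh m.1‖ ^ 2 else 0)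
      (∑ m ∈ NearF Rl Rh R2 r x, (V / η) * ‖Mh m.1‖ ^ 2) := by
    have : HasSum (fun m : ℤ × ℤ => if m ∈ NearF Rl Rh R2 r x then (V / η) * ‖Mh m.1‖ ^ 2 else 0)
      (∑ m ∈ NearF Rl Rh R2 r x, if m ∈ NearF Rl Rh R2 r x then (V / η) * ‖Mh m.1‖ ^ 2 else 0) :=
      hasSum_sum_of_ne_finset_zero (by intro m hm; simp [hm])
    rwa [Finset.sum_congr rfl (fun m hm => if_pos hm)] at this
  have b := (b1.add b2).add b3
  have key := a'.norm_le_of_bounded b (fun m => by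
    have hc0 : 0 ≤ cf δ₁ δ₂ m * FQ Q (dm m x) := mul_nonneg (cf_nonneg h₁ h₂ m) (FQ_nonneg _ _)
    have hVη : 0 ≤ V / η := by positivity
    by_cases hm : m = 0
    · subst hm
      rw [if_pos rfl]
      simp only [Prod.fst_zero, Prod.snd_zero, zero_smul, neg_zero, ch_zero, hM0, mul_one, dm_zero, smul_zero,
        cf_zero, FQ_zero]
      have : (((δ₁ * δ₂ * Q : ℝ) : ℂ) - (V : ℂ)) = 0 := by
        rw [hV]; push_cast; ring
      rw [this, norm_zero]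
      refine add_nonneg (add_nonneg ?_ ?_) ?_
      · split_ifs <;> positivity
      · positivity
      · split_ifs <;> positivity
    · rw [if_neg hm, sub_zero, norm_mul, norm_mul, norm_mul, norm_ch, norm_ch, one_mul, one_mul,
        Complex.norm_real, Real.norm_eq_abs, abs_of_nonneg hc0]
      by_cases hn : Near Rl Rh R2 r x m
      · rw [if_neg (by tauto), if_pos (mem_NearF.mpr hn), zero_add]
        by_cases hM : ‖Mh m.1‖ ≤ η
        · have : 0 ≤ V / η * ‖Mh m.1‖ ^ 2 := by positivity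
          calc _ ≤ (cf δ₁ δ₂ m * FQ Q (dm m x)) * η := by gcongr
            _ ≤ _ := by linarith
        · push Not at hM
          have h3 := cfFQ_le (Q := Q) h₁ h₂ m (dm m x)
          have : 0 ≤ η * (cf δ₁ δ₂ m * FQ Q (dm m x)) := by positivity
          calc _ ≤ V * ‖Mh m.1‖ := by gcongr
            _ ≤ V / η * ‖Mh m.1‖ ^ 2 := by
              rw [sq, ← mul_assoc, div_mul_eq_mul_div]
              apply mul_le_mul_of_nonneg_right _ (norm_nonneg _)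
              rw [le_div_iff₀ hη]
              gcongr
            _ ≤ _ := by linarith
      · rw [if_pos ⟨hm, hn⟩]
        have e1 : 0 ≤ (if m ∈ NearF Rl Rh R2 r x then V / η * ‖Mh m.1‖ ^ 2 else 0) := by
          split_ifs <;> positivity
        have e2 : 0 ≤ η * (cf δ₁ δ₂ m * FQ Q (dm m x)) := by positivity
        calc _ ≤ (cf δ₁ δ₂ m * FQ Q (dm m x)) * 1 := by
              gcongr
              exact hM1 _
          _ ≤ _ := by linarith)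
  rw [← Complex.ofReal_sub, Complex.norm_real, Real.norm_eq_abs] at key
  exact key

/-- parameters of the bilinear estimate -/
structure Par where
  N : ℕ
  ℓ : ℕ
  Q : ℕ
  I : ℕ
  J : ℕ
  Rl : ℕ
  Rh : ℕ
  R2 : ℕ
  D : ℕ
  Kc : ℕ
  A : ℕ
  δ₁ : ℝ
  δ₂ : ℝ
  r : ℝ
  ρ : ℝ
  K : ℝ

/-- the mean value -/
def Par.V (p : Par) : ℝ := p.Q * (p.δ₁ * p.δ₂)

/-- admissibility of the parameters -/
structure Par.Ok (p : Par) : Prop where
  hN : 0 < p.N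
  hℓ : 0 < p.ℓ
  hQ : 0 < p.Q
  hI : 0 < p.I
  hJ : 0 < p.J
  hRl : 0 < p.Rl
  h₁ : 0 < p.δ₁
  h₁' : p.δ₁ ≤ 1 / 2
  h₂ : 0 < p.δ₂
  h₂' : p.δ₂ ≤ 1 / 2
  hr : 0 ≤ p.r
  hK : 0 < p.K
  hwrap : (p.Rh : ℝ) / p.I + p.R2 / p.J ≤ 1 / 2
  hD : p.N * p.I * (2 * p.r + p.R2 / p.J) ≤ p.D * p.Rl
  hρ : 2 * p.r + p.Rh / p.I + p.R2 / p.J ≤ p.ρ
  hA : p.Rh + p.ℓ ≤ p.A * p.ℓ

/-- short nonzero vectors -/
def Par.W (p : Par) : Finset (ℤ × ℤ) :=
  ((Finset.Icc (-(p.ℓ : ℤ)) p.ℓ) ×ˢ (Finset.Icc (-(2 * p.R2 : ℤ)) (2 * p.R2))).filter (fun m => m ≠ 0)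

/-- generic points -/
structure Gen (p : Par) (x : TT × TT) : Prop where
  a : SS p.Q p.δ₁ p.δ₂ 0 x 0 ≤ p.K
  b : Rest p.Q p.δ₁ p.δ₂ p.Rl p.Rh p.R2 p.r x ≤ p.V / 20
  c : (p.W.filter (fun m => ‖dm m x‖ ≤ p.ρ)).card ≤ p.Kc

theorem Par.Ok.V_pos {p : Par} (h : p.Ok) : 0 < p.V := by
  have := h.h₁
  have := h.h₂
  have : (0 : ℝ) < p.Q := by exact_mod_cast h.hQ
  unfold Par.V; positivity

/-- data of the points over a node -/
structure Pts (p : Par) (T : Finset ℕ) (xa xb : ℕ → ℝ) (c : ℝ) : Prop where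
  hT : ∀ y ∈ T, y < p.N
  h1 : ∀ y ∈ T, (y : ℝ) ≤ p.N * p.I * xa y - c
  h2 : ∀ y ∈ T, p.N * p.I * xa y - c < y + 1
  h3 : ∀ y ∈ T, ∀ y' ∈ T, |xb y - xb y'| ≤ 1 / p.J
  hg : ∀ y ∈ T, Gen p (((xa y : ℝ) : TT), ((xb y : ℝ) : TT))

theorem dm_coe (m : ℤ × ℤ) (a b : ℝ) : dm m (((a : ℝ) : TT), ((b : ℝ) : TT)) = ((m.1 * a + m.2 * b : ℝ) : TT) := by
  unfold dm
  have e1 : m.1 • ((a : ℝ) : TT) = ((m.1 * a : ℝ) : TT) := by
    rw [← zsmul_eq_mul]; rfl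
  have e2 : m.2 • ((b : ℝ) : TT) = ((m.2 * b : ℝ) : TT) := by
    rw [← zsmul_eq_mul]; rfl
  rw [e1, e2]; rfl

theorem norm_coe_eq_abs {v : ℝ} (h : |v| ≤ 1 / 2) : ‖(v : TT)‖ = |v| := by
  rw [AddCircle.norm_coe_eq_abs_iff 1 one_ne_zero]
  rw [abs_one]; exact h

section

variable {p : Par} (hp : p.Ok) {T : Finset ℕ} {xa xb : ℕ → ℝ} {c : ℝ} (hP : Pts p T xa xb c)

include hp hP

theorem Pts.diff_a {y y' : ℕ} (hy : y ∈ T) (hy' : y' ∈ T) : |xa y - xa y'| ≤ 1 / p.I := by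
  have hN : (0 : ℝ) < p.N := by exact_mod_cast hp.hN
  have hI : (0 : ℝ) < p.I := by exact_mod_cast hp.hI
  have a1 := hP.h1 y hy
  have a2 := hP.h2 y hy
  have b1 := hP.h1 y' hy'
  have b2 := hP.h2 y' hy'
  have c1 : (y : ℝ) + 1 ≤ p.N := by exact_mod_cast hP.hT y hy
  have c2 : (y' : ℝ) + 1 ≤ p.N := by exact_mod_cast hP.hT y' hy'
  have d1 : (0 : ℝ) ≤ y := Nat.cast_nonneg _
  have d2 : (0 : ℝ) ≤ y' := Nat.cast_nonneg _
  rw [abs_le, ← neg_div, div_le_iff₀ hI, le_div_iff₀ hI]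
  constructor
  · have : p.N * (-1) ≤ p.N * ((xa y - xa y') * p.I) := by nlinarith
    exact le_of_mul_le_mul_left this hN
  · have : p.N * ((xa y - xa y') * p.I) ≤ p.N * 1 := by nlinarith
    exact le_of_mul_le_mul_left this hN

theorem Pts.diff_dm {y y' : ℕ} (hy : y ∈ T) (hy' : y' ∈ T) {m : ℤ × ℤ} (h1 : m.1.natAbs ≤ p.Rh)
    (h2 : m.2.natAbs ≤ p.R2) :
    |m.1 * (xa y - xa y') + m.2 * (xb y - xb y')| ≤ p.Rh / p.I + p.R2 / p.J := by
  have hI : (0 : ℝ) < p.I := by exact_mod_cast hp.hI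
  have hJ : (0 : ℝ) < p.J := by exact_mod_cast hp.hJ
  have e1 : |(m.1 : ℝ)| ≤ p.Rh := by
    rw [← Int.cast_abs, ← Nat.cast_natAbs]; exact_mod_cast h1
  have e2 : |(m.2 : ℝ)| ≤ p.R2 := by
    rw [← Int.cast_abs, ← Nat.cast_natAbs]; exact_mod_cast h2
  calc _ ≤ |(m.1 : ℝ) * (xa y - xa y')| + |(m.2 : ℝ) * (xb y - xb y')| := abs_add_le _ _
    _ = |(m.1 : ℝ)| * |xa y - xa y'| + |(m.2 : ℝ)| * |xb y - xb y'| := by rw [abs_mul, abs_mul]
    _ ≤ p.Rh * (1 / p.I) + p.R2 * (1 / p.J) := by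
      have a := Pts.diff_a hp hP hy hy'
      have b := hP.h3 y hy y' hy'
      gcongr
    _ = _ := by ring

theorem Pts.card_y {m : ℤ × ℤ} :
    (T.filter (fun y => m ∈ NearF p.Rl p.Rh p.R2 p.r (((xa y : ℝ) : TT), ((xb y : ℝ) : TT)))).card ≤ p.D + 2 := by
  have hN : (0 : ℝ) < p.N := by exact_mod_cast hp.hN
  have hI : (0 : ℝ) < p.I := by exact_mod_cast hp.hI
  have hJ : (0 : ℝ) < p.J := by exact_mod_cast hp.hJ
  have hRl : (0 : ℝ) < p.Rl := by exact_mod_cast hp.hRl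
  set F := T.filter (fun y => m ∈ NearF p.Rl p.Rh p.R2 p.r (((xa y : ℝ) : TT), ((xb y : ℝ) : TT))) with hF
  rcases F.eq_empty_or_nonempty with h | h
  · rw [h]; simp
  · have hsub : F ⊆ Finset.Icc (F.min' h) (F.min' h + (p.D + 1)) := by
      intro y hy
      rw [Finset.mem_Icc]
      refine ⟨F.min'_le y hy, ?_⟩
      have hy0 := F.min'_mem h
      set y0 := F.min' h with hy0def
      rw [hF, Finset.mem_filter, mem_NearF] at hy hy0
      obtain ⟨hyT, n1, n2, n3, n4⟩ := hy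
      obtain ⟨hyT0, _, _, _, n4'⟩ := hy0
      have d1 := Pts.diff_dm hp hP hyT hyT0 n2 n3
      have d2 : ‖((m.1 * (xa y - xa y0) + m.2 * (xb y - xb y0) : ℝ) : TT)‖ ≤ 2 * p.r := by
        have e : ((m.1 * (xa y - xa y0) + m.2 * (xb y - xb y0) : ℝ) : TT) =
            dm m (((xa y : ℝ) : TT), ((xb y : ℝ) : TT)) - dm m (((xa y0 : ℝ) : TT), ((xb y0 : ℝ) : TT)) := by
          rw [dm_coe, dm_coe]
          have : (m.1 * (xa y - xa y0) + m.2 * (xb y - xb y0) : ℝ) =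
            (m.1 * xa y + m.2 * xb y) - (m.1 * xa y0 + m.2 * xb y0) := by ring
          rw [this]; rfl
        rw [e]
        refine (norm_sub_le _ _).trans ?_
        linarith
      rw [norm_coe_eq_abs (d1.trans hp.hwrap)] at d2
      have e1 : (p.Rl : ℝ) ≤ |(m.1 : ℝ)| := by
        rw [← Int.cast_abs, ← Nat.cast_natAbs]; exact_mod_cast n1
      have e2 : |(m.2 : ℝ)| ≤ p.R2 := by
        rw [← Int.cast_abs, ← Nat.cast_natAbs]; exact_mod_cast n3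
      have d3 : |(m.1 : ℝ)| * |xa y - xa y0| ≤ 2 * p.r + p.R2 / p.J := by
        rw [← abs_mul]
        have : (m.1 : ℝ) * (xa y - xa y0) = (m.1 * (xa y - xa y0) + m.2 * (xb y - xb y0)) - m.2 * (xb y - xb y0) := by
          ring
        rw [this]
        refine (abs_sub _ _).trans ?_
        rw [abs_mul (m.2 : ℝ)]
        have b := hP.h3 y hyT y0 hyT0
        have : |(m.2 : ℝ)| * |xb y - xb y0| ≤ p.R2 * (1 / p.J) := by gcongr
        have e : (p.R2 : ℝ) * (1 / p.J) = p.R2 / p.J := by ring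
        rw [e] at this
        linarith
      have d4 : (p.Rl : ℝ) * (xa y - xa y0) ≤ 2 * p.r + p.R2 / p.J := by
        have : (p.Rl : ℝ) * (xa y - xa y0) ≤ |(m.1 : ℝ)| * |xa y - xa y0| := by
          calc _ ≤ (p.Rl : ℝ) * |xa y - xa y0| := by gcongr; exact le_abs_self _
            _ ≤ _ := by gcongr
        linarith
      have a1 := hP.h1 y hyT
      have b2 := hP.h2 y0 hyT0
      have hD := hp.hD
      have d5 : (p.Rl : ℝ) * ((y : ℝ) - y0 - 1) ≤ p.Rl * p.D := by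
        calc (p.Rl : ℝ) * ((y : ℝ) - y0 - 1) ≤ p.Rl * (p.N * p.I * (xa y - xa y0)) := by
              apply mul_le_mul_of_nonneg_left _ hRl.le; linarith
          _ = p.N * p.I * (p.Rl * (xa y - xa y0)) := by ring
          _ ≤ p.N * p.I * (2 * p.r + p.R2 / p.J) := by gcongr
          _ ≤ p.Rl * p.D := by linarith
      have d6 := le_of_mul_le_mul_left d5 hRl
      have d7 : (y : ℝ) ≤ ((y0 + (p.D + 1) : ℕ) : ℝ) := by push_cast; linarith
      exact_mod_cast d7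
    calc F.card ≤ (Finset.Icc (F.min' h) (F.min' h + (p.D + 1))).card := Finset.card_le_card hsub
      _ = p.D + 2 := by rw [Nat.card_Icc]; omega

/-- all resonant modes -/
theorem Pts.card_m (t : ℤ) :
    ((T.biUnion (fun y => NearF p.Rl p.Rh p.R2 p.r (((xa y : ℝ) : TT), ((xb y : ℝ) : TT)))).filter
      (fun m => m.1 / (p.ℓ : ℤ) = t)).card ≤ p.Kc + 1 := by
  set 𝓜 := T.biUnion (fun y => NearF p.Rl p.Rh p.R2 p.r (((xa y : ℝ) : TT), ((xb y : ℝ) : TT))) with h𝓜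
  set F := 𝓜.filter (fun m => m.1 / (p.ℓ : ℤ) = t) with hF
  have hℓ : (0 : ℤ) < p.ℓ := by exact_mod_cast hp.hℓ
  rcases F.eq_empty_or_nonempty with h | ⟨m0, hm0⟩
  · rw [h]; simp
  · have hm0' := hm0
    rw [hF, Finset.mem_filter, h𝓜, Finset.mem_biUnion] at hm0'
    obtain ⟨⟨y0, hy0, hn0⟩, ht0⟩ := hm0'
    rw [mem_NearF] at hn0
    obtain ⟨_, n2', n3', n4'⟩ := hn0
    have hc := (hP.hg y0 hy0).c
    have hcard : (F.erase m0).card ≤ (p.W.filter (fun m => ‖dm m (((xa y0 : ℝ) : TT), ((xb y0 : ℝ) : TT))‖ ≤ p.ρ)).card := by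
      apply Finset.card_le_card_of_injOn (fun m => m - m0)
      · intro m hm
        rw [Finset.mem_coe, Finset.mem_erase, hF, Finset.mem_filter, h𝓜, Finset.mem_biUnion] at hm
        obtain ⟨hne, ⟨y, hy, hn⟩, ht⟩ := hm
        rw [mem_NearF] at hn
        obtain ⟨_, n2, n3, n4⟩ := hn
        rw [Finset.mem_coe, Finset.mem_filter]
        constructor
        · unfold Par.W
          rw [Finset.mem_filter, Finset.mem_product, Finset.mem_Icc, Finset.mem_Icc]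
          refine ⟨⟨⟨?_, ?_⟩, ?_, ?_⟩, sub_ne_zero.mpr hne⟩
          · have f1 := Int.mul_ediv_self_le (x := m.1) hℓ.ne'
            have f2 := Int.lt_mul_ediv_self_add (x := m0.1) hℓ
            rw [ht] at f1; rw [ht0] at f2
            simp only [Prod.fst_sub]; linarith
          · have f1 := Int.mul_ediv_self_le (x := m0.1) hℓ.ne'
            have f2 := Int.lt_mul_ediv_self_add (x := m.1) hℓ
            rw [ht0] at f1; rw [ht] at f2
            simp only [Prod.fst_sub]; linarith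
          · simp only [Prod.snd_sub]; omega
          · simp only [Prod.snd_sub]; omega
        · have e : dm (m - m0) (((xa y0 : ℝ) : TT), ((xb y0 : ℝ) : TT)) =
              dm m (((xa y : ℝ) : TT), ((xb y : ℝ) : TT)) -
              ((m.1 * (xa y - xa y0) + m.2 * (xb y - xb y0) : ℝ) : TT) -
              dm m0 (((xa y0 : ℝ) : TT), ((xb y0 : ℝ) : TT)) := by
            rw [dm_sub_left]
            congr 1
            rw [dm_coe, dm_coe]
            have : (m.1 * (xa y - xa y0) + m.2 * (xb y - xb y0) : ℝ) =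
              (m.1 * xa y + m.2 * xb y) - (m.1 * xa y0 + m.2 * xb y0) := by ring
            rw [this]
            have e2 : (((m.1 * xa y + m.2 * xb y) - (m.1 * xa y0 + m.2 * xb y0) : ℝ) : TT) =
              ((m.1 * xa y + m.2 * xb y : ℝ) : TT) - ((m.1 * xa y0 + m.2 * xb y0 : ℝ) : TT) := rfl
            rw [e2, sub_sub_cancel]
          show ‖dm (m - m0) (((xa y0 : ℝ) : TT), ((xb y0 : ℝ) : TT))‖ ≤ p.ρ
          rw [e]
          have d1 := Pts.diff_dm hp hP hy hy0 n2 n3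
          have d2 := (norm_coe_le_abs (m.1 * (xa y - xa y0) + m.2 * (xb y - xb y0))).trans d1
          refine (norm_sub_le _ _).trans ?_
          have d3 := norm_sub_le (dm m (((xa y : ℝ) : TT), ((xb y : ℝ) : TT)))
            ((m.1 * (xa y - xa y0) + m.2 * (xb y - xb y0) : ℝ) : TT)
          have := hp.hρ
          linarith
      · intro a _ b _ hab
        exact sub_left_injective hab
    have := Finset.card_erase_of_mem hm0
    omega

end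

end Run7.h297
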