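import Mathlib

set_option autoImplicit false

/-! Finite entropy. -/

noncomputable section

namespace Run7.h297

open Real Finset

/-- basic logarithmic lower bound -/
theorem mul_log_ge {a t : ℝ} (ha : 0 ≤ a) (ht : 0 < t) : a - a / t ≤ a * Real.log t := by
  have h : 1 - t⁻¹ ≤ Real.log t := Real.one_sub_inv_le_log_of_pos ht
  calc a - a / t = a * (1 - t⁻¹) := by ring
    _ ≤ a * Real.log t := by gcongr

/-- the core inequality, with a gain coming from the zero entries -/
theorem core_ineq {σ τ : Type*} (S : Finset σ) (T : Finset τ) (a : σ → τ → ℝ)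
    (ha : ∀ x ∈ S, ∀ y ∈ T, 0 ≤ a x y) (s : ℝ) (hs : ∑ x ∈ S, ∑ y ∈ T, a x y = s) (hs0 : 0 < s) :
    (1 / s) * (∑ x ∈ S, ∑ y ∈ T, if a x y = 0 then (∑ y' ∈ T, a x y') * (∑ x' ∈ S, a x' y) else 0) ≤
      (∑ x ∈ S, negMulLog (∑ y ∈ T, a x y)) + (∑ y ∈ T, negMulLog (∑ x ∈ S, a x y)) -
      (∑ x ∈ S, ∑ y ∈ T, negMulLog (a x y)) - negMulLog s := by
  set r : σ → ℝ := fun x => ∑ y ∈ T, a x y with hr
  set c : τ → ℝ := fun y => ∑ x ∈ S, a x y with hc
  have e1 : ∑ x ∈ S, negMulLog (r x) = ∑ x ∈ S, ∑ y ∈ T, -(a x y * Real.log (r x)) := by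
    apply Finset.sum_congr rfl; intro x _
    rw [negMulLog, neg_mul, hr]; dsimp only
    rw [Finset.sum_mul, ← Finset.sum_neg_distrib]
  have e2 : ∑ y ∈ T, negMulLog (c y) = ∑ x ∈ S, ∑ y ∈ T, -(a x y * Real.log (c y)) := by
    rw [Finset.sum_comm]
    apply Finset.sum_congr rfl; intro y _
    rw [negMulLog, neg_mul, hc]; dsimp only
    rw [Finset.sum_mul, ← Finset.sum_neg_distrib]
  have e3 : negMulLog s = ∑ x ∈ S, ∑ y ∈ T, -(a x y * Real.log s) := by
    rw [negMulLog, neg_mul]
    nth_rewrite 1 [← hs]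
    rw [Finset.sum_mul, ← Finset.sum_neg_distrib]
    apply Finset.sum_congr rfl; intro x _
    rw [Finset.sum_mul, ← Finset.sum_neg_distrib]
  have e4 : (∑ x ∈ S, ∑ y ∈ T, r x * c y) = s * s := by
    rw [← Finset.sum_mul_sum]
    have h1 : ∑ x ∈ S, r x = s := hs
    have h2 : ∑ y ∈ T, c y = s := by rw [← hs, Finset.sum_comm]
    rw [h1, h2]
  have hterm : ∀ x ∈ S, ∀ y ∈ T, (a x y - (1 / s) * (r x * c y)) + (1 / s) * (if a x y = 0 then r x * c y else 0) ≤
      -(a x y * Real.log (r x)) + -(a x y * Real.log (c y)) - negMulLog (a x y) - -(a x y * Real.log s) := by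
    intro x hx y hy
    have h0 := ha x hx y hy
    rcases h0.eq_or_lt with h | h
    · rw [← h]; simp
    · rw [if_neg h.ne', mul_zero, add_zero]
      have hrx : a x y ≤ r x := Finset.single_le_sum (f := fun y => a x y) (fun y' hy' => ha x hx y' hy') hy
      have hcy : a x y ≤ c y := Finset.single_le_sum (f := fun x => a x y) (fun x' hx' => ha x' hx' y hy) hx
      have hr0 : 0 < r x := h.trans_le hrx
      have hc0 : 0 < c y := h.trans_le hcy
      have ht : 0 < a x y * s / (r x * c y) := by positivity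
      have h1 := mul_log_ge h0 ht
      have h2 : Real.log (a x y * s / (r x * c y)) = Real.log (a x y) + Real.log s - (Real.log (r x) + Real.log (c y)) := by
        rw [Real.log_div (by positivity) (by positivity), Real.log_mul h.ne' hs0.ne', Real.log_mul hr0.ne' hc0.ne']
      have h3 : a x y / (a x y * s / (r x * c y)) = (1 / s) * (r x * c y) := by
        field_simp
      rw [h2, h3] at h1
      rw [negMulLog]
      linarith
  have hsum := Finset.sum_le_sum (fun x hx => Finset.sum_le_sum (fun y hy => hterm x hx y hy))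
  have l1 : ∑ x ∈ S, ∑ y ∈ T, ((a x y - (1 / s) * (r x * c y)) + (1 / s) * (if a x y = 0 then r x * c y else 0)) =
      (1 / s) * (∑ x ∈ S, ∑ y ∈ T, if a x y = 0 then r x * c y else 0) := by
    simp_rw [Finset.sum_add_distrib, Finset.sum_sub_distrib, ← Finset.mul_sum]
    have h5 : ∑ x ∈ S, r x * ∑ y ∈ T, c y = s * s := by
      rw [← e4]; simp_rw [Finset.mul_sum]
    rw [hs, h5]
    have : s - 1 / s * (s * s) = 0 := by field_simp; ring
    rw [this, zero_add]
  have l2 : ∑ x ∈ S, ∑ y ∈ T, (-(a x y * Real.log (r x)) + -(a x y * Real.log (c y)) - negMulLog (a x y) - -(a x y * Real.log s)) =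
      (∑ x ∈ S, negMulLog (r x)) + (∑ y ∈ T, negMulLog (c y)) - (∑ x ∈ S, ∑ y ∈ T, negMulLog (a x y)) - negMulLog s := by
    rw [e1, e2, e3]
    simp_rw [Finset.sum_sub_distrib, Finset.sum_add_distrib]
  rw [l1, l2] at hsum
  exact hsum

theorem core_ineq' {σ τ : Type*} (S : Finset σ) (T : Finset τ) (a : σ → τ → ℝ)
    (ha : ∀ x ∈ S, ∀ y ∈ T, 0 ≤ a x y) (s : ℝ) (hs : ∑ x ∈ S, ∑ y ∈ T, a x y = s) :
    (∑ x ∈ S, ∑ y ∈ T, negMulLog (a x y)) + negMulLog s ≤
      (∑ x ∈ S, negMulLog (∑ y ∈ T, a x y)) + (∑ y ∈ T, negMulLog (∑ x ∈ S, a x y)) := by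
  have hs0 : 0 ≤ s := by rw [← hs]; exact Finset.sum_nonneg (fun x hx => Finset.sum_nonneg (fun y hy => ha x hx y hy))
  rcases hs0.eq_or_lt with h | h
  · have h0 : ∀ x ∈ S, ∀ y ∈ T, a x y = 0 := by
      intro x hx y hy
      rw [← h] at hs
      have h1 := (Finset.sum_eq_zero_iff_of_nonneg (fun x hx => Finset.sum_nonneg (fun y hy => ha x hx y hy))).mp hs x hx
      exact (Finset.sum_eq_zero_iff_of_nonneg (fun y hy => ha x hx y hy)).mp h1 y hy
    have e1 : ∑ x ∈ S, ∑ y ∈ T, negMulLog (a x y) = 0 := by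
      apply Finset.sum_eq_zero; intro x hx
      apply Finset.sum_eq_zero; intro y hy
      rw [h0 x hx y hy, negMulLog_zero]
    have e2 : ∑ x ∈ S, negMulLog (∑ y ∈ T, a x y) = 0 := by
      apply Finset.sum_eq_zero; intro x hx
      rw [Finset.sum_eq_zero (fun y hy => h0 x hx y hy), negMulLog_zero]
    have e3 : ∑ y ∈ T, negMulLog (∑ x ∈ S, a x y) = 0 := by
      apply Finset.sum_eq_zero; intro y hy
      rw [Finset.sum_eq_zero (fun x hx => h0 x hx y hy), negMulLog_zero]
    rw [e1, e2, e3, ← h, negMulLog_zero]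
  · have h1 := core_ineq S T a ha s hs h
    have h2 : 0 ≤ (1 / s) * (∑ x ∈ S, ∑ y ∈ T, if a x y = 0 then (∑ y' ∈ T, a x y') * (∑ x' ∈ S, a x' y) else 0) := by
      apply mul_nonneg (by positivity)
      apply Finset.sum_nonneg; intro x hx
      apply Finset.sum_nonneg; intro y hy
      split_ifs
      · exact mul_nonneg (Finset.sum_nonneg (fun y' hy' => ha x hx y' hy')) (Finset.sum_nonneg (fun x' hx' => ha x' hx' y hy))
      · exact le_rfl
    linarith

/-- entropy of a vector supported on a set of given size -/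
theorem sum_negMulLog_le {σ : Type*} [DecidableEq σ] (S : Finset σ) (r : σ → ℝ) (hr : ∀ x ∈ S, 0 ≤ r x) (s : ℝ)
    (hs : ∑ x ∈ S, r x = s) (A : Finset σ) (hA : ∀ x ∈ S, x ∉ A → r x = 0) (n : ℝ) (hn : 0 < n)
    (hcard : ((S ∩ A).card : ℝ) ≤ n) :
    ∑ x ∈ S, negMulLog (r x) ≤ negMulLog s + s * Real.log n := by
  have hs0 : 0 ≤ s := by rw [← hs]; exact Finset.sum_nonneg hr
  rcases hs0.eq_or_lt with h | h
  · rw [← h] at hs ⊢
    have h1 := (Finset.sum_eq_zero_iff_of_nonneg hr).mp hs
    have : ∑ x ∈ S, negMulLog (r x) = 0 := by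
      apply Finset.sum_eq_zero; intro x hx; rw [h1 x hx, negMulLog_zero]
    rw [this, negMulLog_zero]; simp
  · have hterm : ∀ x ∈ S, negMulLog (r x) ≤ (- r x * Real.log s + r x * Real.log n) - (r x - if x ∈ A then s / n else 0) := by
      intro x hx
      rcases (hr x hx).eq_or_lt with h0 | h0
      · rw [← h0, negMulLog_zero]
        have : 0 ≤ (if x ∈ A then s / n else 0 : ℝ) := by split_ifs <;> positivity
        simp only [neg_zero, zero_mul, add_zero, zero_sub, neg_neg]
        linarith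
      · have hxA : x ∈ A := by
          by_contra hc
          exact h0.ne' (hA x hx hc)
        rw [if_pos hxA]
        have ht : 0 < r x * n / s := by positivity
        have h1 := mul_log_ge (hr x hx) ht
        have h2 : Real.log (r x * n / s) = Real.log (r x) + Real.log n - Real.log s := by
          rw [Real.log_div (by positivity) h.ne', Real.log_mul h0.ne' hn.ne']
        have h3 : r x / (r x * n / s) = s / n := by field_simp
        rw [h2, h3] at h1
        rw [negMulLog]
        linarith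
    refine (Finset.sum_le_sum hterm).trans ?_
    have e : ∑ x ∈ S, ((- r x * Real.log s + r x * Real.log n) - (r x - if x ∈ A then s / n else 0)) =
        (-s * Real.log s + s * Real.log n) - (s - (S ∩ A).card * (s / n)) := by
      rw [Finset.sum_sub_distrib, Finset.sum_add_distrib, Finset.sum_sub_distrib, ← Finset.sum_mul,
        ← Finset.sum_mul, Finset.sum_neg_distrib, hs, Finset.sum_ite_mem, Finset.sum_const, nsmul_eq_mul]
    rw [e, negMulLog]
    have : (S ∩ A).card * (s / n) ≤ s := by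
      calc _ ≤ n * (s / n) := by gcongr
        _ = s := by field_simp
    linarith

section defs

variable {Ω : Type*} [Fintype Ω]

/-- probability of a value -/
def pr (p : Ω → ℝ) {α : Type*} [DecidableEq α] (f : Ω → α) (v : α) : ℝ := ∑ ω, if f ω = v then p ω else 0

/-- entropy -/
def H (p : Ω → ℝ) {α : Type*} [DecidableEq α] (f : Ω → α) : ℝ := ∑ v ∈ univ.image f, negMulLog (pr p f v)

variable {p : Ω → ℝ} (hp : ∀ ω, 0 ≤ p ω)

include hp in
theorem pr_nonneg {α : Type*} [DecidableEq α] (f : Ω → α) (v : α) : 0 ≤ pr p f v := by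
  unfold pr
  apply Finset.sum_nonneg; intro ω _
  split_ifs
  · exact hp ω
  · exact le_rfl

theorem pr_eq_zero {α : Type*} [DecidableEq α] {f : Ω → α} {v : α} (hv : v ∉ univ.image f) : pr p f v = 0 := by
  unfold pr
  apply Finset.sum_eq_zero; intro ω _
  rw [if_neg]
  intro h; apply hv; rw [Finset.mem_image]; exact ⟨ω, Finset.mem_univ _, h⟩

theorem H_eq {α : Type*} [DecidableEq α] {f : Ω → α} {s : Finset α} (hs : univ.image f ⊆ s) :
    H p f = ∑ v ∈ s, negMulLog (pr p f v) := by
  unfold H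
  apply Finset.sum_subset hs
  intro v _ hv
  rw [pr_eq_zero hv, negMulLog_zero]

theorem sum_pr {α : Type*} [DecidableEq α] {f : Ω → α} {s : Finset α} (hs : univ.image f ⊆ s) :
    ∑ v ∈ s, pr p f v = ∑ ω, p ω := by
  unfold pr
  rw [Finset.sum_comm]
  apply Finset.sum_congr rfl; intro ω _
  rw [Finset.sum_ite_eq, if_pos]
  exact hs (Finset.mem_image_of_mem _ (Finset.mem_univ ω))

theorem sum_pr_pair {α β : Type*} [DecidableEq α] [DecidableEq β] {f : Ω → α} {g : Ω → β} {s : Finset β}
    (hs : univ.image g ⊆ s) (v : α) : ∑ w ∈ s, pr p (fun ω => (f ω, g ω)) (v, w) = pr p f v := by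
  unfold pr
  rw [Finset.sum_comm]
  apply Finset.sum_congr rfl; intro ω _
  simp only [Prod.mk.injEq]
  by_cases h : f ω = v
  · simp only [h, true_and, if_true]
    rw [Finset.sum_ite_eq, if_pos]
    exact hs (Finset.mem_image_of_mem _ (Finset.mem_univ ω))
  · simp [h]

theorem H_omega {α : Type*} [DecidableEq α] (f : Ω → α) :
    H p f = ∑ ω, -(p ω * Real.log (pr p f (f ω))) := by
  unfold H
  have e : ∀ v ∈ univ.image f, negMulLog (pr p f v) = ∑ ω, if f ω = v then -(p ω * Real.log (pr p f v)) else 0 := by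
    intro v _
    rw [negMulLog, neg_mul]
    nth_rewrite 1 [pr]
    rw [Finset.sum_mul, ← Finset.sum_neg_distrib]
    apply Finset.sum_congr rfl; intro ω _
    split_ifs <;> simp
  rw [Finset.sum_congr rfl e, Finset.sum_comm]
  apply Finset.sum_congr rfl; intro ω _
  rw [Finset.sum_ite_eq, if_pos (Finset.mem_image_of_mem _ (Finset.mem_univ ω))]

theorem pr_congr {α β : Type*} [DecidableEq α] [DecidableEq β] {f : Ω → α} {g : Ω → β}
    (h : ∀ ω ω', f ω = f ω' ↔ g ω = g ω') (ω : Ω) : pr p f (f ω) = pr p g (g ω) := by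
  unfold pr
  apply Finset.sum_congr rfl; intro ω' _
  by_cases h1 : f ω' = f ω
  · rw [if_pos h1, if_pos ((h _ _).mp h1)]
  · rw [if_neg h1, if_neg (fun h2 => h1 ((h _ _).mpr h2))]

theorem H_congr {α β : Type*} [DecidableEq α] [DecidableEq β] {f : Ω → α} {g : Ω → β}
    (h : ∀ ω ω', f ω = f ω' ↔ g ω = g ω') : H p f = H p g := by
  rw [H_omega, H_omega]
  apply Finset.sum_congr rfl; intro ω _
  rw [pr_congr h]

theorem image_pair {α β : Type*} [DecidableEq α] [DecidableEq β] (f : Ω → α) (g : Ω → β)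
    {s : Finset α} {t : Finset β} (hs : univ.image f ⊆ s) (ht : univ.image g ⊆ t) :
    univ.image (fun ω => (f ω, g ω)) ⊆ s ×ˢ t := by
  intro v hv
  rw [Finset.mem_image] at hv
  obtain ⟨ω, _, rfl⟩ := hv
  rw [Finset.mem_product]
  exact ⟨hs (Finset.mem_image_of_mem _ (Finset.mem_univ ω)), ht (Finset.mem_image_of_mem _ (Finset.mem_univ ω))⟩

theorem H_pair {α β : Type*} [DecidableEq α] [DecidableEq β] (f : Ω → α) (g : Ω → β)
    {s : Finset α} {t : Finset β} (hs : univ.image f ⊆ s) (ht : univ.image g ⊆ t) :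
    H p (fun ω => (f ω, g ω)) = ∑ v ∈ s, ∑ w ∈ t, negMulLog (pr p (fun ω => (f ω, g ω)) (v, w)) := by
  rw [H_eq (image_pair f g hs ht), Finset.sum_product]

/-- strong subadditivity -/
theorem ssa (hp : ∀ ω, 0 ≤ p ω) {α β γ : Type*} [DecidableEq α] [DecidableEq β] [DecidableEq γ]
    (h : Ω → α) (f : Ω → β) (g : Ω → γ) :
    H p (fun ω => (h ω, (f ω, g ω))) + H p h ≤ H p (fun ω => (h ω, f ω)) + H p (fun ω => (h ω, g ω)) := by
  have e1 : H p (fun ω => (h ω, (f ω, g ω))) = ∑ v ∈ univ.image h, ∑ x ∈ univ.image f, ∑ y ∈ univ.image g,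
      negMulLog (pr p (fun ω => (h ω, (f ω, g ω))) (v, (x, y))) := by
    rw [H_pair h (fun ω => (f ω, g ω)) (s := univ.image h) (t := univ.image f ×ˢ univ.image g) (Finset.Subset.refl _)
      (image_pair f g (Finset.Subset.refl _) (Finset.Subset.refl _))]
    apply Finset.sum_congr rfl; intro v _
    rw [Finset.sum_product]
  have e2 := H_pair (p := p) h f (s := univ.image h) (t := univ.image f) (Finset.Subset.refl _) (Finset.Subset.refl _)
  have e3 := H_pair (p := p) h g (s := univ.image h) (t := univ.image g) (Finset.Subset.refl _) (Finset.Subset.refl _)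
  have e4 : H p h = ∑ v ∈ univ.image h, negMulLog (pr p h v) := rfl
  rw [e1, e2, e3, e4, ← Finset.sum_add_distrib, ← Finset.sum_add_distrib]
  apply Finset.sum_le_sum; intro v _
  have hx : ∀ x, ∑ y ∈ univ.image g, pr p (fun ω => (h ω, (f ω, g ω))) (v, (x, y)) = pr p (fun ω => (h ω, f ω)) (v, x) := by
    intro x
    rw [← sum_pr_pair (p := p) (f := fun ω => (h ω, f ω)) (g := g) (Finset.Subset.refl _) (v, x)]
    apply Finset.sum_congr rfl; intro y _
    unfold pr
    apply Finset.sum_congr rfl; intro ω _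
    simp only [Prod.mk.injEq, and_assoc]
  have hy : ∀ y, ∑ x ∈ univ.image f, pr p (fun ω => (h ω, (f ω, g ω))) (v, (x, y)) = pr p (fun ω => (h ω, g ω)) (v, y) := by
    intro y
    rw [← sum_pr_pair (p := p) (f := fun ω => (h ω, g ω)) (g := f) (Finset.Subset.refl _) (v, y)]
    apply Finset.sum_congr rfl; intro x _
    unfold pr
    apply Finset.sum_congr rfl; intro ω _
    congr 1
    simp only [Prod.mk.injEq, eq_iff_iff]
    tauto
  have hs : ∑ x ∈ univ.image f, ∑ y ∈ univ.image g, pr p (fun ω => (h ω, (f ω, g ω))) (v, (x, y)) = pr p h v := by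
    simp_rw [hx]
    exact sum_pr_pair (Finset.Subset.refl _) v
  have := core_ineq' (univ.image f) (univ.image g) (fun x y => pr p (fun ω => (h ω, (f ω, g ω))) (v, (x, y)))
    (fun x _ y _ => pr_nonneg hp _ _) _ hs
  simp_rw [hx, hy] at this
  exact this

/-- conditional entropy bounded by the logarithm of the number of available values -/
theorem H_cond_le (hp : ∀ ω, 0 ≤ p ω) {α β : Type*} [DecidableEq α] [DecidableEq β]
    (g : Ω → α) (f : Ω → β) (A : α → Finset β) (n : α → ℝ) (hn : ∀ v, 0 < n v)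
    (hA : ∀ ω, 0 < p ω → f ω ∈ A (g ω)) (hcard : ∀ v, ((A v).card : ℝ) ≤ n v) :
    H p (fun ω => (g ω, f ω)) ≤ H p g + ∑ v ∈ univ.image g, pr p g v * Real.log (n v) := by
  rw [H_pair (p := p) g f (s := univ.image g) (t := univ.image f) (Finset.Subset.refl _) (Finset.Subset.refl _)]
  have e4 : H p g = ∑ v ∈ univ.image g, negMulLog (pr p g v) := rfl
  rw [e4, ← Finset.sum_add_distrib]
  apply Finset.sum_le_sum; intro v _
  apply sum_negMulLog_le (univ.image f) (fun w => pr p (fun ω => (g ω, f ω)) (v, w)) (fun w _ => pr_nonneg hp _ _)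
    _ (sum_pr_pair (Finset.Subset.refl _) v) (A v) _ (n v) (hn v)
  · refine le_trans ?_ (hcard v)
    exact_mod_cast Finset.card_le_card Finset.inter_subset_right
  · intro w _ hw
    unfold pr
    apply Finset.sum_eq_zero; intro ω _
    split_ifs with h
    · rw [Prod.mk.injEq] at h
      by_contra hne
      have hpos : 0 < p ω := lt_of_le_of_ne (hp ω) (Ne.symm hne)
      apply hw
      rw [← h.1, ← h.2]; exact hA ω hpos
    · rfl

theorem H_cond_nonneg (hp : ∀ ω, 0 ≤ p ω) {α β : Type*} [DecidableEq α] [DecidableEq β]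
    (g : Ω → α) (f : Ω → β) : H p g ≤ H p (fun ω => (g ω, f ω)) := by
  rw [H_omega, H_omega]
  apply Finset.sum_le_sum; intro ω _
  rcases (hp ω).eq_or_lt with h | h
  · rw [← h]; simp
  · apply neg_le_neg
    apply mul_le_mul_of_nonneg_left _ (hp ω)
    have h1 : p ω ≤ pr p (fun ω => (g ω, f ω)) (g ω, f ω) := by
      unfold pr
      have := Finset.single_le_sum (f := fun ω' => if (g ω', f ω') = (g ω, f ω) then p ω' else 0)
        (fun ω' _ => by
          show 0 ≤ (if (g ω', f ω') = (g ω, f ω) then p ω' else 0)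
          split_ifs
          · exact hp ω'
          · exact le_rfl) (Finset.mem_univ ω)
      simpa using this
    apply Real.log_le_log (h.trans_le h1)
    unfold pr
    apply Finset.sum_le_sum; intro ω' _
    by_cases h2 : g ω' = g ω
    · rw [if_pos h2]
      split_ifs
      · exact le_rfl
      · exact hp ω'
    · rw [if_neg h2, if_neg]
      rw [Prod.mk.injEq]; tauto

theorem H_ge (hp : ∀ ω, 0 ≤ p ω) (hp1 : ∑ ω, p ω = 1) {α : Type*} [DecidableEq α]
    (f : Ω → α) {q : ℝ} (h : ∀ v, pr p f v ≤ q) : -Real.log q ≤ H p f := by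
  rw [H_omega]
  have e : -Real.log q = ∑ ω, -(p ω * Real.log q) := by
    rw [Finset.sum_neg_distrib, ← Finset.sum_mul, hp1, one_mul]
  rw [e]
  apply Finset.sum_le_sum; intro ω _
  rcases (hp ω).eq_or_lt with h0 | h0
  · rw [← h0]; simp
  · apply neg_le_neg
    apply mul_le_mul_of_nonneg_left _ (hp ω)
    have h1 : p ω ≤ pr p f (f ω) := by
      unfold pr
      have := Finset.single_le_sum (f := fun ω' => if f ω' = f ω then p ω' else 0)
        (fun ω' _ => by
          show 0 ≤ (if f ω' = f ω then p ω' else 0)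
          split_ifs
          · exact hp ω'
          · exact le_rfl) (Finset.mem_univ ω)
      simpa using this
    exact Real.log_le_log (h0.trans_le h1) (h _)

end defs

end Run7.h297
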