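import Pool.Agent.Run7.h297.Book
import Pool.Agent.Run7.h297.Ent

set_option autoImplicit false

/-! Digit systems over a finite probability space. -/

noncomputable section

namespace Run7.h297

open Real Finset

/-- leading binary digits -/
def dig (k : ℕ) (t : ℝ) : ℕ := ⌊2 ^ k * t⌋₊

theorem dig_div {k m : ℕ} {t : ℝ} : dig (k + m) t / 2 ^ m = dig k t := by
  unfold dig
  have : (2 : ℝ) ^ k * t = (2 ^ (k + m) * t) / ((2 ^ m : ℕ) : ℝ) := by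
    push_cast; rw [pow_add]; field_simp
  rw [this, Nat.floor_div_natCast]

theorem dig_congr {k k' : ℕ} (h : k ≤ k') {t t' : ℝ} (ht : dig k' t = dig k' t') : dig k t = dig k t' := by
  obtain ⟨m, rfl⟩ := Nat.exists_eq_add_of_le h
  rw [← dig_div (k := k) (m := m), ← dig_div (k := k) (m := m) (t := t'), ht]

theorem dig_max {k k' : ℕ} {t t' : ℝ} :
    dig (max k k') t = dig (max k k') t' ↔ dig k t = dig k t' ∧ dig k' t = dig k' t' := by
  constructor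
  · intro h
    exact ⟨dig_congr (le_max_left _ _) h, dig_congr (le_max_right _ _) h⟩
  · rintro ⟨h1, h2⟩
    rcases le_total k k' with h | h
    · rw [max_eq_right h]; exact h2
    · rw [max_eq_left h]; exact h1

theorem dig_min {k k' : ℕ} {t t' : ℝ} (h : dig k t = dig k t') : dig (min k k') t = dig (min k k') t' :=
  dig_congr (min_le_left _ _) h

theorem dig_lt {k : ℕ} {t : ℝ} (h0 : 0 ≤ t) (h1 : t < 1) : dig k t < 2 ^ k := by
  unfold dig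
  rw [Nat.floor_lt (by positivity)]
  push_cast
  calc (2 : ℝ) ^ k * t < 2 ^ k * 1 := by gcongr
    _ = 2 ^ k := mul_one _

theorem dig_mem {k k' : ℕ} (h : k ≤ k') {t : ℝ} :
    dig k' t ∈ Finset.Ico (dig k t * 2 ^ (k' - k)) (dig k t * 2 ^ (k' - k) + 2 ^ (k' - k)) := by
  obtain ⟨m, rfl⟩ := Nat.exists_eq_add_of_le h
  rw [Nat.add_sub_cancel_left, ← dig_div (k := k) (m := m), Finset.mem_Ico]
  have hpos : 0 < 2 ^ m := by positivity
  constructor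
  · exact Nat.div_mul_le_self _ _
  · have := Nat.lt_div_mul_add (a := dig (k + m) t) hpos
    exact this

theorem dig_le {k : ℕ} {t : ℝ} (h0 : 0 ≤ t) : (dig k t : ℝ) ≤ 2 ^ k * t := by
  unfold dig; exact Nat.floor_le (by positivity)

theorem lt_dig {k : ℕ} (t : ℝ) : 2 ^ k * t < dig k t + 1 := by
  unfold dig; exact Nat.lt_floor_add_one _

/-- a digit system -/
structure Sys (Ω : Type*) [Fintype Ω] where
  p : Ω → ℝ
  α : Ω → ℝ
  β : Ω → ℝ
  γ₁ : Ω → ℝ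
  γ₂ : Ω → ℝ
  hp : ∀ ω, 0 ≤ p ω
  hp1 : ∑ ω, p ω = 1
  hα : ∀ ω, 0 ≤ α ω ∧ α ω < 1
  hβ : ∀ ω, 0 ≤ β ω ∧ β ω < 1
  hγ₁ : ∀ ω, 0 ≤ γ₁ ω ∧ γ₁ ω < 1
  hγ₂ : ∀ ω, 0 ≤ γ₂ ω ∧ γ₂ ω < 1

section

variable {Ω : Type*} [Fintype Ω] (S : Sys Ω)

/-- node variable -/
def Sys.xi (k l g f : ℕ) (ω : Ω) : ℕ × ℕ × ℕ × ℕ :=
  (dig k (S.α ω), dig l (S.β ω), dig g (S.γ₁ ω), dig f (S.γ₂ ω))

/-- entropy of a node variable -/
def Sys.hh (k l g f : ℕ) : ℝ := H S.p (S.xi k l g f)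

theorem Sys.xi_eq {k l g f : ℕ} {ω ω' : Ω} : S.xi k l g f ω = S.xi k l g f ω' ↔
    dig k (S.α ω) = dig k (S.α ω') ∧ dig l (S.β ω) = dig l (S.β ω') ∧
    dig g (S.γ₁ ω) = dig g (S.γ₁ ω') ∧ dig f (S.γ₂ ω) = dig f (S.γ₂ ω') := by
  unfold Sys.xi
  simp only [Prod.mk.injEq]

theorem triple_eq {α β γ : Type*} {a a' : α} {b b' : β} {c c' : γ} :
    (a, (b, c)) = (a', (b', c')) ↔ a = a' ∧ b = b' ∧ c = c' := by simp only [Prod.mk.injEq]

theorem pair_eq' {α β : Type*} {a a' : α} {b b' : β} :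
    (a, b) = (a', b') ↔ a = a' ∧ b = b' := by simp only [Prod.mk.injEq]

theorem Sys.sub (k l g f k' l' g' f' : ℕ) :
    S.hh (max k k') (max l l') (max g g') (max f f') + S.hh (min k k') (min l l') (min g g') (min f f') ≤
      S.hh k l g f + S.hh k' l' g' f' := by
  have h := ssa (p := S.p) S.hp (S.xi (min k k') (min l l') (min g g') (min f f')) (S.xi k l g f) (S.xi k' l' g' f')
  have e1 : H S.p (fun ω => (S.xi (min k k') (min l l') (min g g') (min f f') ω, (S.xi k l g f ω, S.xi k' l' g' f' ω))) =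
      S.hh (max k k') (max l l') (max g g') (max f f') := by
    apply H_congr
    intro ω ω'
    rw [triple_eq, S.xi_eq, S.xi_eq, S.xi_eq, S.xi_eq, dig_max, dig_max, dig_max, dig_max]
    constructor
    · rintro ⟨_, ⟨a1, a2, a3, a4⟩, b1, b2, b3, b4⟩
      exact ⟨⟨a1, b1⟩, ⟨a2, b2⟩, ⟨a3, b3⟩, a4, b4⟩
    · rintro ⟨⟨a1, b1⟩, ⟨a2, b2⟩, ⟨a3, b3⟩, a4, b4⟩
      exact ⟨⟨dig_min a1, dig_min a2, dig_min a3, dig_min a4⟩, ⟨a1, a2, a3, a4⟩, b1, b2, b3, b4⟩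
  have e2 : H S.p (fun ω => (S.xi (min k k') (min l l') (min g g') (min f f') ω, S.xi k l g f ω)) = S.hh k l g f := by
    apply H_congr
    intro ω ω'
    rw [pair_eq', S.xi_eq, S.xi_eq]
    constructor
    · rintro ⟨_, h⟩; exact h
    · rintro ⟨a1, a2, a3, a4⟩
      exact ⟨⟨dig_min a1, dig_min a2, dig_min a3, dig_min a4⟩, a1, a2, a3, a4⟩
  have e3 : H S.p (fun ω => (S.xi (min k k') (min l l') (min g g') (min f f') ω, S.xi k' l' g' f' ω)) = S.hh k' l' g' f' := by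
    apply H_congr
    intro ω ω'
    rw [pair_eq', S.xi_eq, S.xi_eq]
    constructor
    · rintro ⟨_, h⟩; exact h
    · rintro ⟨a1, a2, a3, a4⟩
      refine ⟨⟨?_, ?_, ?_, ?_⟩, a1, a2, a3, a4⟩
      · exact dig_congr (min_le_right _ _) a1
      · exact dig_congr (min_le_right _ _) a2
      · exact dig_congr (min_le_right _ _) a3
      · exact dig_congr (min_le_right _ _) a4
  rw [e1, e2, e3] at h
  exact h

theorem Sys.pair_eq {k l g f k' l' g' f' : ℕ} (h1 : k ≤ k') (h2 : l ≤ l') (h3 : g ≤ g') (h4 : f ≤ f') :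
    H S.p (fun ω => (S.xi k l g f ω, S.xi k' l' g' f' ω)) = S.hh k' l' g' f' := by
  apply H_congr
  intro ω ω'
  rw [pair_eq', S.xi_eq, S.xi_eq]
  constructor
  · rintro ⟨_, h⟩; exact h
  · rintro ⟨a1, a2, a3, a4⟩
    exact ⟨⟨dig_congr h1 a1, dig_congr h2 a2, dig_congr h3 a3, dig_congr h4 a4⟩, a1, a2, a3, a4⟩

theorem Sys.mono (k l g f k' l' g' f' : ℕ) (h1 : k ≤ k') (h2 : l ≤ l') (h3 : g ≤ g') (h4 : f ≤ f') :
    S.hh k l g f ≤ S.hh k' l' g' f' := by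
  rw [← S.pair_eq h1 h2 h3 h4]
  exact H_cond_nonneg S.hp _ _

/-- the possible children of a node -/
def kids (k l g f k' l' g' f' : ℕ) (v : ℕ × ℕ × ℕ × ℕ) : Finset (ℕ × ℕ × ℕ × ℕ) :=
  (Finset.Ico (v.1 * 2 ^ (k' - k)) (v.1 * 2 ^ (k' - k) + 2 ^ (k' - k))) ×ˢ
  ((Finset.Ico (v.2.1 * 2 ^ (l' - l)) (v.2.1 * 2 ^ (l' - l) + 2 ^ (l' - l))) ×ˢ
  ((Finset.Ico (v.2.2.1 * 2 ^ (g' - g)) (v.2.2.1 * 2 ^ (g' - g) + 2 ^ (g' - g))) ×ˢ
  (Finset.Ico (v.2.2.2 * 2 ^ (f' - f)) (v.2.2.2 * 2 ^ (f' - f) + 2 ^ (f' - f)))))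

theorem card_kids (k l g f k' l' g' f' : ℕ) (v : ℕ × ℕ × ℕ × ℕ) :
    (kids k l g f k' l' g' f' v).card = 2 ^ ((k' - k) + (l' - l) + (g' - g) + (f' - f)) := by
  unfold kids
  simp only [Finset.card_product, Nat.card_Ico, Nat.add_sub_cancel_left]
  rw [pow_add, pow_add, pow_add]; ring

theorem Sys.mem_kids {k l g f k' l' g' f' : ℕ} (h1 : k ≤ k') (h2 : l ≤ l') (h3 : g ≤ g') (h4 : f ≤ f') (ω : Ω) :
    S.xi k' l' g' f' ω ∈ kids k l g f k' l' g' f' (S.xi k l g f ω) := by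
  unfold kids Sys.xi
  simp only [Finset.mem_product]
  exact ⟨dig_mem h1, dig_mem h2, dig_mem h3, dig_mem h4⟩

theorem Sys.sum_pr_xi (k l g f : ℕ) : ∑ v ∈ univ.image (S.xi k l g f), pr S.p (S.xi k l g f) v = 1 := by
  rw [sum_pr (Finset.Subset.refl _), S.hp1]

theorem Sys.incr (k l g f k' l' g' f' : ℕ) (h1 : k ≤ k') (h2 : l ≤ l') (h3 : g ≤ g') (h4 : f ≤ f') :
    S.hh k' l' g' f' ≤ S.hh k l g f + (((k' - k) + (l' - l) + (g' - g) + (f' - f) : ℕ) : ℝ) * Real.log 2 := by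
  rw [← S.pair_eq h1 h2 h3 h4]
  refine (H_cond_le S.hp (S.xi k l g f) (S.xi k' l' g' f') (kids k l g f k' l' g' f')
    (fun _ => 2 ^ ((k' - k) + (l' - l) + (g' - g) + (f' - f))) (fun _ => by positivity)
    (fun ω _ => S.mem_kids h1 h2 h3 h4 ω) (fun v => by rw [card_kids]; push_cast; exact le_rfl)).trans ?_
  rw [← Finset.sum_mul, S.sum_pr_xi, one_mul, Real.log_pow]
  exact le_rfl

theorem Sys.sub4 : Sub4 S.hh (Real.log 2) :=
  ⟨(Real.log_pos (by norm_num)).le, S.sub, S.mono, S.incr⟩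

theorem Sys.hh_zero : S.hh 0 0 0 0 ≤ 0 := by
  have h : H S.p (S.xi 0 0 0 0) = H S.p (fun _ : Ω => ()) := by
    apply H_congr
    intro ω ω'
    simp only [iff_true]
    rw [S.xi_eq]
    have z : ∀ t : ℝ, 0 ≤ t → t < 1 → dig 0 t = 0 := by
      intro t h0 h1
      have := dig_lt (k := 0) h0 h1
      omega
    rw [z _ (S.hα ω).1 (S.hα ω).2, z _ (S.hα ω').1 (S.hα ω').2, z _ (S.hβ ω).1 (S.hβ ω).2, z _ (S.hβ ω').1 (S.hβ ω').2,
      z _ (S.hγ₁ ω).1 (S.hγ₁ ω).2, z _ (S.hγ₁ ω').1 (S.hγ₁ ω').2, z _ (S.hγ₂ ω).1 (S.hγ₂ ω).2, z _ (S.hγ₂ ω').1 (S.hγ₂ ω').2]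
    simp
  unfold Sys.hh
  rw [h, H_omega]
  apply le_of_eq
  apply Finset.sum_eq_zero; intro ω _
  have : pr S.p (fun _ : Ω => ()) () = 1 := by
    unfold pr; simp [S.hp1]
  rw [this]; simp

theorem Sys.upper (k l g f : ℕ) : S.hh k l g f ≤ ((k + l + g + f : ℕ) : ℝ) * Real.log 2 := by
  have := S.incr 0 0 0 0 k l g f (Nat.zero_le _) (Nat.zero_le _) (Nat.zero_le _) (Nat.zero_le _)
  simp only [Nat.sub_zero] at this
  linarith [S.hh_zero]

/-- the law of the first two coordinates is dominated by Lebesgue measure up to level `n` -/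
def Sys.Dom (n : ℕ) (C : ℝ) : Prop :=
  ∀ k l, k ≤ n → l ≤ n → ∀ v, pr S.p (fun ω => (dig k (S.α ω), dig l (S.β ω))) v ≤ C * (1 / 2 ^ (k + l))

theorem Sys.lower {n : ℕ} {C : ℝ} (hC : 0 < C) (hd : S.Dom n C) {k l g f : ℕ} (hk : k ≤ n) (hl : l ≤ n) :
    ((k + l : ℕ) : ℝ) * Real.log 2 - Real.log C ≤ S.hh k l g f := by
  have h := H_ge S.hp S.hp1 (S.xi k l g f) (q := C * (1 / 2 ^ (k + l))) (by
    intro v
    refine le_trans ?_ (hd k l hk hl (v.1, v.2.1))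
    unfold pr
    apply Finset.sum_le_sum; intro ω _
    by_cases h : S.xi k l g f ω = v
    · rw [if_pos h, if_pos (by rw [← h]; rfl)]
    · rw [if_neg h]
      split_ifs
      · exact S.hp ω
      · exact le_rfl)
  refine le_trans (le_of_eq ?_) h
  rw [Real.log_mul hC.ne' (by positivity), Real.log_div one_ne_zero (by positivity), Real.log_one, Real.log_pow]
  ring

end

end Run7.h297
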