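import Pool.Agent.Run7.h297.Fejer
import Pool.Agent.Run7.h297.Sys

set_option autoImplicit false

/-! Transfer between the torus, the unit square and digit systems. -/

noncomputable section

namespace Run7.h297

open Real Finset MeasureTheory

/-- the projection of the plane to the torus -/
def prj (x : ℝ × ℝ) : TT × TT := (((x.1 : ℝ) : TT), ((x.2 : ℝ) : TT))

theorem measurePreserving_prj : MeasurePreserving prj
    ((volume : Measure (ℝ × ℝ)).restrict (Set.Ioc 0 1 ×ˢ Set.Ioc 0 1)) (volume : Measure (TT × TT)) := by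
  have h := UnitAddCircle.measurePreserving_mk 0
  have h2 := h.prod h
  rw [Measure.prod_restrict] at h2
  simp only [zero_add] at h2
  exact h2

/-- a pair of digit strings is good for a set if its cell meets the set -/
def good (𝓖 : Set (TT × TT)) (k l u v : ℕ) : Prop :=
  ∃ x : ℝ × ℝ, (0 ≤ x.1 ∧ x.1 < 1) ∧ (0 ≤ x.2 ∧ x.2 < 1) ∧ dig k x.1 = u ∧ dig l x.2 = v ∧ prj x ∈ 𝓖

/-- open cell -/
def ocell (k l : ℕ) (u : ℕ × ℕ) : Set (ℝ × ℝ) :=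
  Set.Ioo ((u.1 : ℝ) / 2 ^ k) ((u.1 + 1) / 2 ^ k) ×ˢ Set.Ioo ((u.2 : ℝ) / 2 ^ l) ((u.2 + 1) / 2 ^ l)

theorem dig_of_mem {k u : ℕ} {t : ℝ} (h1 : (u : ℝ) / 2 ^ k ≤ t) (h2 : t < (u + 1) / 2 ^ k) : dig k t = u := by
  have hpos : (0 : ℝ) < 2 ^ k := by positivity
  unfold dig
  rw [Nat.floor_eq_iff]
  · rw [div_le_iff₀ hpos] at h1
    rw [lt_div_iff₀ hpos] at h2
    constructor <;> linarith
  · have : 0 ≤ (u : ℝ) / 2 ^ k := by positivity
    have : 0 ≤ t := this.trans h1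
    positivity

theorem card_bad_le (𝓖 : Set (TT × TT)) {τ : ℝ} (hτ : 0 ≤ τ) (h𝓖 : volume 𝓖ᶜ ≤ ENNReal.ofReal τ) (k l : ℕ)
    (B : Finset (ℕ × ℕ)) (hB : ∀ u ∈ B, u.1 < 2 ^ k ∧ u.2 < 2 ^ l ∧ ¬ good 𝓖 k l u.1 u.2) :
    (B.card : ℝ) * (1 / 2 ^ (k + l)) ≤ τ := by
  set U : Set (ℝ × ℝ) := ⋃ u ∈ B, ocell k l u with hU
  have hk : (0 : ℝ) < 2 ^ k := by positivity
  have hl : (0 : ℝ) < 2 ^ l := by positivity
  have hmeas : ∀ u ∈ B, MeasurableSet (ocell k l u) := fun u _ => measurableSet_Ioo.prod measurableSet_Ioo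
  have hdisj : Set.PairwiseDisjoint (↑B) (ocell k l) := by
    intro u _ v _ huv
    rw [Function.onFun, Set.disjoint_left]
    intro x hx hx'
    apply huv
    have a1 := dig_of_mem hx.1.1.le hx.1.2
    have a2 := dig_of_mem hx.2.1.le hx.2.2
    have b1 := dig_of_mem hx'.1.1.le hx'.1.2
    have b2 := dig_of_mem hx'.2.1.le hx'.2.2
    exact Prod.ext (a1.symm.trans b1) (a2.symm.trans b2)
  have hvol : volume U = (B.card : ENNReal) * ENNReal.ofReal (1 / 2 ^ (k + l)) := by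
    rw [hU, measure_biUnion_finset hdisj hmeas]
    have e : ∀ u ∈ B, volume (ocell k l u) = ENNReal.ofReal (1 / 2 ^ (k + l)) := by
      intro u _
      unfold ocell
      rw [Measure.volume_eq_prod, Measure.prod_prod, Real.volume_Ioo, Real.volume_Ioo, ← ENNReal.ofReal_mul]
      · congr 1
        rw [pow_add]; field_simp; ring
      · rw [← sub_div]; apply div_nonneg _ hk.le; linarith
    rw [Finset.sum_congr rfl e, Finset.sum_const, nsmul_eq_mul]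
  have hUsq : U ⊆ Set.Ioc 0 1 ×ˢ Set.Ioc 0 1 := by
    intro x hx
    rw [hU, Set.mem_iUnion₂] at hx
    obtain ⟨u, hu, hx⟩ := hx
    obtain ⟨h1, h2, _⟩ := hB u hu
    have h1' : (u.1 : ℝ) + 1 ≤ 2 ^ k := by exact_mod_cast h1
    have h2' : (u.2 : ℝ) + 1 ≤ 2 ^ l := by exact_mod_cast h2
    have c1 : ((u.1 : ℝ) + 1) / 2 ^ k ≤ 1 := by rw [div_le_one hk]; exact h1'
    have c2 : ((u.2 : ℝ) + 1) / 2 ^ l ≤ 1 := by rw [div_le_one hl]; exact h2'
    have d1 : 0 ≤ (u.1 : ℝ) / 2 ^ k := by positivity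
    have d2 : 0 ≤ (u.2 : ℝ) / 2 ^ l := by positivity
    exact ⟨⟨d1.trans_lt hx.1.1, hx.1.2.le.trans c1⟩, ⟨d2.trans_lt hx.2.1, hx.2.2.le.trans c2⟩⟩
  have hUG : U ⊆ prj ⁻¹' 𝓖ᶜ := by
    intro x hx
    rw [Set.mem_preimage, Set.mem_compl_iff]
    intro hG
    have hx' := hx
    rw [hU, Set.mem_iUnion₂] at hx
    obtain ⟨u, hu, hx⟩ := hx
    obtain ⟨h1, h2, h3⟩ := hB u hu
    apply h3
    have h1' : (u.1 : ℝ) + 1 ≤ 2 ^ k := by exact_mod_cast h1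
    have h2' : (u.2 : ℝ) + 1 ≤ 2 ^ l := by exact_mod_cast h2
    have c1 : ((u.1 : ℝ) + 1) / 2 ^ k ≤ 1 := by rw [div_le_one hk]; exact h1'
    have c2 : ((u.2 : ℝ) + 1) / 2 ^ l ≤ 1 := by rw [div_le_one hl]; exact h2'
    have d1 : 0 ≤ (u.1 : ℝ) / 2 ^ k := by positivity
    have d2 : 0 ≤ (u.2 : ℝ) / 2 ^ l := by positivity
    exact ⟨x, ⟨d1.trans hx.1.1.le, hx.1.2.trans_le c1⟩, ⟨d2.trans hx.2.1.le, hx.2.2.trans_le c2⟩,
      dig_of_mem hx.1.1.le hx.1.2, dig_of_mem hx.2.1.le hx.2.2, hG⟩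
  have hUm : MeasurableSet U := Finset.measurableSet_biUnion B hmeas
  have h1 : volume U ≤ ENNReal.ofReal τ := by
    calc volume U = (volume.restrict (Set.Ioc 0 1 ×ˢ Set.Ioc 0 1)) U := by
          rw [Measure.restrict_apply hUm, Set.inter_eq_left.mpr hUsq]
      _ ≤ (volume.restrict (Set.Ioc 0 1 ×ˢ Set.Ioc 0 1)) (prj ⁻¹' 𝓖ᶜ) := measure_mono hUG
      _ ≤ (Measure.map prj (volume.restrict (Set.Ioc 0 1 ×ˢ Set.Ioc 0 1))) 𝓖ᶜ :=
          Measure.le_map_apply measurePreserving_prj.measurable.aemeasurable _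
      _ = volume 𝓖ᶜ := by rw [measurePreserving_prj.map_eq]
      _ ≤ _ := h𝓖
  rw [hvol] at h1
  have h2 : ENNReal.ofReal ((B.card : ℝ) * (1 / 2 ^ (k + l))) ≤ ENNReal.ofReal τ := by
    rw [ENNReal.ofReal_mul (Nat.cast_nonneg _), ENNReal.ofReal_natCast]; exact h1
  rwa [ENNReal.ofReal_le_ofReal_iff hτ] at h2

variable {Ω : Type*} [Fintype Ω] (S : Sys Ω)

open Classical in
theorem Sys.bad_mass {n : ℕ} {C : ℝ} (hC : 0 ≤ C) (hd : S.Dom n C) (𝓖 : Set (TT × TT)) {τ : ℝ} (hτ : 0 ≤ τ)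
    (h𝓖 : volume 𝓖ᶜ ≤ ENNReal.ofReal τ) {k l : ℕ} (hk : k ≤ n) (hl : l ≤ n) :
    ∑ ω, (if good 𝓖 k l (dig k (S.α ω)) (dig l (S.β ω)) then 0 else S.p ω) ≤ C * τ := by
  set B : Finset (ℕ × ℕ) := ((range (2 ^ k)) ×ˢ (range (2 ^ l))).filter (fun u => ¬ good 𝓖 k l u.1 u.2) with hB
  have h1 : ∑ ω, (if good 𝓖 k l (dig k (S.α ω)) (dig l (S.β ω)) then 0 else S.p ω) ≤
      ∑ u ∈ B, pr S.p (fun ω => (dig k (S.α ω), dig l (S.β ω))) u := by
    unfold pr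
    rw [Finset.sum_comm]
    apply Finset.sum_le_sum; intro ω _
    rw [Finset.sum_ite_eq]
    split_ifs with h h2 h2
    · exact S.hp ω
    · exact le_rfl
    · exact le_rfl
    · exfalso
      apply h2
      rw [hB, Finset.mem_filter, Finset.mem_product, Finset.mem_range, Finset.mem_range]
      exact ⟨⟨dig_lt (S.hα ω).1 (S.hα ω).2, dig_lt (S.hβ ω).1 (S.hβ ω).2⟩, h⟩
  refine h1.trans ?_
  calc _ ≤ ∑ u ∈ B, C * (1 / 2 ^ (k + l)) := Finset.sum_le_sum (fun u _ => hd k l hk hl u)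
    _ = C * ((B.card : ℝ) * (1 / 2 ^ (k + l))) := by rw [Finset.sum_const, nsmul_eq_mul]; ring
    _ ≤ C * τ := by
      apply mul_le_mul_of_nonneg_left _ hC
      apply card_bad_le 𝓖 hτ h𝓖 k l B
      intro u hu
      rw [hB, Finset.mem_filter, Finset.mem_product, Finset.mem_range, Finset.mem_range] at hu
      exact ⟨hu.1.1, hu.1.2, hu.2⟩

/-- no good approximations in a window -/
def Sys.Bad (q0 Q1 : ℕ) (ε : ℝ) : Prop :=
  ∀ ω, 0 < S.p ω → ∀ q : ℕ, q0 ≤ q → q ≤ Q1 →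
    ε ≤ q * ‖((q * S.α ω - S.γ₁ ω : ℝ) : TT)‖ * ‖((q * S.β ω - S.γ₂ ω : ℝ) : TT)‖

theorem dig_close {k : ℕ} {t t' : ℝ} (h0 : 0 ≤ t) (h0' : 0 ≤ t') (h : dig k t = dig k t') :
    |t - t'| ≤ 1 / 2 ^ k := by
  have hk : (0 : ℝ) < 2 ^ k := by positivity
  have a1 := dig_le (k := k) h0
  have a2 := lt_dig (k := k) t
  have b1 := dig_le (k := k) h0'
  have b2 := lt_dig (k := k) t'
  rw [h] at a1 a2
  rw [abs_le, neg_le_iff_add_nonneg, le_div_iff₀ hk]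
  constructor
  · have : 0 ≤ ((t - t') * 2 ^ k + 1) / 2 ^ k := by apply div_nonneg _ hk.le; linarith
    have e : ((t - t') * 2 ^ k + 1) / 2 ^ k = t - t' + 1 / 2 ^ k := by field_simp
    rwa [e] at this
  · linarith

end Run7.h297
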