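import Pool.Agent.Run7.h297.TameB
import Pool.Agent.Run7.h297.Transfer

set_option autoImplicit false

/-! Hitting probabilities for laws on cells. -/

noncomputable section

namespace Run7.h297

open Real Finset MeasureTheory

/-- the number of hits is controlled by the number of returns -/
theorem SS_le_nret {Q N : ℕ} (hQ : 0 < Q) (hN : Q ≤ N) {δ₁ δ₂ : ℝ} (h₁ : 0 < δ₁) (h₂ : 0 < δ₂) (s : ℤ) (x γ : TT × TT) :
    SS Q δ₁ δ₂ s x γ ≤ 1 + nret (2 * δ₁) (2 * δ₂) N x := by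
  classical
  have hQ' : (0 : ℝ) < Q := by exact_mod_cast hQ
  set T : ℤ → ℝ := fun n => tent δ₁ (n • x.1 - γ.1) * tent δ₂ (n • x.2 - γ.2) with hT
  have hT1 : ∀ n, T n ≤ 1 := by
    intro n
    rw [hT]; dsimp only
    calc _ ≤ 1 * 1 := mul_le_mul (tent_le_one h₁ _) (tent_le_one h₂ _) (tent_nonneg _ _) (by norm_num)
      _ = 1 := one_mul 1
  have hTne : ∀ n, T n ≠ 0 → ‖n • x.1 - γ.1‖ < δ₁ ∧ ‖n • x.2 - γ.2‖ < δ₂ := by
    intro n hn
    constructor
    · by_contra hc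
      push Not at hc
      apply hn
      rw [hT]; dsimp only
      rw [tent_eq_zero h₁ hc, zero_mul]
    · by_contra hc
      push Not at hc
      apply hn
      rw [hT]; dsimp only
      rw [tent_eq_zero h₂ hc, mul_zero]
  have hrow : ∀ j ∈ range Q, ∑ j' ∈ range Q, T (s + ((j : ℤ) - (j' : ℤ))) ≤ 1 + nret (2 * δ₁) (2 * δ₂) N x := by
    intro j _
    set A : Finset ℕ := (range Q).filter (fun j' : ℕ => T (s + ((j : ℤ) - (j' : ℤ))) ≠ 0) with hA
    have e1 : ∑ j' ∈ range Q, T (s + ((j : ℤ) - (j' : ℤ))) ≤ A.card := by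
      calc ∑ j' ∈ range Q, T (s + ((j : ℤ) - (j' : ℤ))) ≤ ∑ j' ∈ range Q, (if T (s + ((j : ℤ) - (j' : ℤ))) ≠ 0 then (1 : ℝ) else 0) := by
            apply Finset.sum_le_sum; intro j' _
            split_ifs with hh
            · exact hT1 _
            · push Not at hh; rw [hh]
        _ = A.card := by rw [hA, Finset.sum_boole]
    refine e1.trans ?_
    have hn0 := nret_nonneg (2 * δ₁) (2 * δ₂) N x
    rcases A.eq_empty_or_nonempty with he | hne
    · rw [he]; simp; linarith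
    · obtain ⟨j0, hj0, hmax⟩ := A.exists_max_image (fun j => j) hne
      have hnret : nret (2 * δ₁) (2 * δ₂) N x = (((Finset.Icc 1 N).filter (fun d => x ∈ RetS (2 * δ₁) (2 * δ₂) d)).card : ℝ) := by
        unfold nret; rw [Finset.sum_boole]
      rw [hnret]
      have hc : (A.erase j0).card ≤ ((Finset.Icc 1 N).filter (fun d => x ∈ RetS (2 * δ₁) (2 * δ₂) d)).card := by
        apply Finset.card_le_card_of_injOn (fun j' : ℕ => j0 - j')
        · intro j' hj'
          rw [Finset.mem_coe, Finset.mem_erase] at hj'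
          have hle := hmax j' hj'.2
          have hlt : j' < j0 := by
            rcases hle.lt_or_eq with h | h
            · exact h
            · exact absurd h hj'.1
          rw [hA, Finset.mem_filter, Finset.mem_range] at hj0
          have hj'2 := hj'.2
          rw [hA, Finset.mem_filter, Finset.mem_range] at hj'2
          rw [Finset.mem_coe, Finset.mem_filter, Finset.mem_Icc]
          refine ⟨⟨by show 1 ≤ j0 - j'; omega, by show j0 - j' ≤ N; omega⟩, ?_⟩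
          obtain ⟨p1, p2⟩ := hTne _ hj0.2
          obtain ⟨q1, q2⟩ := hTne _ hj'2.2
          have ed : ((j0 - j' : ℕ) : ℤ) = (s + ((j : ℤ) - (j' : ℤ))) - (s + ((j : ℤ) - (j0 : ℤ))) := by
            rw [Nat.cast_sub hlt.le]; ring
          unfold RetS
          rw [Set.mem_ofPred_eq]
          constructor
          · rw [← natCast_zsmul, ed, sub_smul]
            have : (s + ((j : ℤ) - (j' : ℤ))) • x.1 - (s + ((j : ℤ) - (j0 : ℤ))) • x.1 =
              ((s + ((j : ℤ) - (j' : ℤ))) • x.1 - γ.1) - ((s + ((j : ℤ) - (j0 : ℤ))) • x.1 - γ.1) := by abel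
            rw [this]
            refine (norm_sub_le _ _).trans ?_
            linarith
          · rw [← natCast_zsmul, ed, sub_smul]
            have : (s + ((j : ℤ) - (j' : ℤ))) • x.2 - (s + ((j : ℤ) - (j0 : ℤ))) • x.2 =
              ((s + ((j : ℤ) - (j' : ℤ))) • x.2 - γ.2) - ((s + ((j : ℤ) - (j0 : ℤ))) • x.2 - γ.2) := by abel
            rw [this]
            refine (norm_sub_le _ _).trans ?_
            linarith
        · intro u hu v hv huv
          rw [Finset.mem_coe, Finset.mem_erase] at hu hv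
          have h1 := hmax u hu.2
          have h2 := hmax v hv.2
          dsimp only at huv
          omega
      rw [Finset.card_erase_of_mem hj0] at hc
      have hpos : 0 < A.card := Finset.card_pos.mpr hne
      have : A.card ≤ 1 + ((Finset.Icc 1 N).filter (fun d => x ∈ RetS (2 * δ₁) (2 * δ₂) d)).card := by omega
      exact_mod_cast this
  have hall := Finset.sum_le_sum hrow
  rw [Finset.sum_const, card_range, nsmul_eq_mul] at hall
  have : SS Q δ₁ δ₂ s x γ = (1 / Q) * ∑ j ∈ range Q, ∑ j' ∈ range Q, T (s + ((j : ℤ) - (j' : ℤ))) := rfl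
  rw [this]
  calc (1 / (Q : ℝ)) * ∑ j ∈ range Q, ∑ j' ∈ range Q, T (s + ((j : ℤ) - (j' : ℤ))) ≤
      (1 / (Q : ℝ)) * (Q * (1 + nret (2 * δ₁) (2 * δ₂) N x)) := by gcongr
    _ = _ := by field_simp

theorem SS_nonneg' (Q : ℕ) (δ₁ δ₂ : ℝ) (s : ℤ) (x γ : TT × TT) : 0 ≤ SS Q δ₁ δ₂ s x γ := by
  unfold SS
  apply mul_nonneg (by positivity)
  apply Finset.sum_nonneg; intro j _
  apply Finset.sum_nonneg; intro j' _
  exact mul_nonneg (tent_nonneg _ _) (tent_nonneg _ _)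

/-- the probability of a hit under laws of bounded density -/
theorem hit_prob {a : AP} (h : a.Ok) {X : ℝ × ℝ} (hX : Gen3 a (pt X)) (hF : a.Far (pt X) < 1 / (4 * (2 ^ a.w) ^ 3))
    {T0 : ℝ} (hT0 : 0 < T0)
    (hT : (1 / ((a.N1 : ℝ) * a.N2)) * ∑ u ∈ range a.N1, ∑ v ∈ range a.N2,
      nret (2 * a.d1) (2 * a.d2) (2 * 2 ^ a.σ) (pt X + a.gp u v) ^ 2 ≤ T0) (γ : TT × TT) (μ ν : ℕ → ℝ)
    (hμ0 : ∀ u, 0 ≤ μ u) (hν0 : ∀ v, 0 ≤ ν v)
    (hμ : ∀ u ∈ range a.N1, μ u ≤ 2 ^ a.w / a.N1) (hν : ∀ v ∈ range a.N2, ν v ≤ 2 ^ a.w / a.N2)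
    (hμ1 : ∑ u ∈ range a.N1, μ u = 1) (hν1 : ∑ v ∈ range a.N2, ν v = 1)
    {Λ : ℝ} (hΛ0 : 0 < Λ) (hΛ : ∀ u ∈ range a.N1, ∀ v ∈ range a.N2, μ u * ν v ≤ Λ / (a.N1 * a.N2))
    (Z : ℕ → ℕ → ℝ) (hZ0 : ∀ u v, 0 ≤ Z u v)
    (hZ : ∀ u ∈ range a.N1, ∀ v ∈ range a.N2, μ u ≠ 0 → ν v ≠ 0 →
      SS (2 ^ a.σ) a.d1 a.d2 (2 * 2 ^ a.σ) (pt X + a.gp u v) γ ≠ 0 → 1 ≤ Z u v) :
    a.V / 4 ≤ (1 + 4 * Λ * T0 / a.V) * ∑ u ∈ range a.N1, ∑ v ∈ range a.N2, μ u * ν v * Z u v := by
  have hmix := mix h hX hF γ μ ν hμ0 hν0 hμ hν hμ1 hν1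
  obtain ⟨hV1, hV2⟩ := V_bd h
  have hV0 : 0 < a.V := lt_of_lt_of_le (by positivity) hV1
  have n1' : (0 : ℝ) < a.N1 := by unfold AP.N1; positivity
  have n2' : (0 : ℝ) < a.N2 := by unfold AP.N2; positivity
  set B : ℝ := 4 * Λ * T0 / a.V with hB
  have hB0 : 0 < B := by positivity
  have hpt : ∀ u ∈ range a.N1, ∀ v ∈ range a.N2, μ u * ν v * SS (2 ^ a.σ) a.d1 a.d2 (2 * 2 ^ a.σ) (pt X + a.gp u v) γ ≤
      (1 + B) * (μ u * ν v * Z u v) + (Λ / (a.N1 * a.N2)) * (nret (2 * a.d1) (2 * a.d2) (2 * 2 ^ a.σ) (pt X + a.gp u v) ^ 2 / B) := by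
    intro u hu v hv
    set n := nret (2 * a.d1) (2 * a.d2) (2 * 2 ^ a.σ) (pt X + a.gp u v) with hn
    have hn0 : 0 ≤ n := nret_nonneg _ _ _ _
    have hs := SS_le_nret (Q := 2 ^ a.σ) (N := 2 * 2 ^ a.σ) (by positivity) (by have : 0 < 2 ^ a.σ := by positivity
                                                                                omega) (d1_pos (a := a)) (d2_pos (a := a)) (2 * 2 ^ a.σ) (pt X + a.gp u v) γ
    rw [← hn] at hs
    have hm0 : 0 ≤ μ u * ν v := mul_nonneg (hμ0 u) (hν0 v)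
    have hz0 := hZ0 u v
    have hm1 := hΛ u hu v hv
    have hq : 0 ≤ n ^ 2 / B := by positivity
    have hlast : μ u * ν v * (n ^ 2 / B) ≤ (Λ / (a.N1 * a.N2)) * (n ^ 2 / B) := mul_le_mul_of_nonneg_right hm1 hq
    by_cases hc : μ u = 0 ∨ ν v = 0
    · have hz : μ u * ν v = 0 := by
        rcases hc with hc | hc
        · rw [hc, zero_mul]
        · rw [hc, mul_zero]
      rw [hz] at hlast ⊢
      simp only [zero_mul, mul_zero, zero_add] at hlast ⊢
      exact hlast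
    · push Not at hc
      by_cases hS : SS (2 ^ a.σ) a.d1 a.d2 (2 * 2 ^ a.σ) (pt X + a.gp u v) γ = 0
      · rw [hS, mul_zero]
        have h5 : 0 ≤ (1 + B) * (μ u * ν v * Z u v) := by positivity
        have h6 : 0 ≤ (Λ / (a.N1 * a.N2)) * (n ^ 2 / B) := by positivity
        linarith
      · have hz := hZ u hu v hv hc.1 hc.2 hS
        have h1 : n ≤ B + n ^ 2 / B := by
          have : 0 ≤ (n - B) ^ 2 / B + n := by positivity
          have e : (n - B) ^ 2 / B + n = n ^ 2 / B - n + B := by field_simp; ring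
          linarith
        have h2 : μ u * ν v * SS (2 ^ a.σ) a.d1 a.d2 (2 * 2 ^ a.σ) (pt X + a.gp u v) γ ≤ μ u * ν v * ((1 + B) + n ^ 2 / B) := by
          apply mul_le_mul_of_nonneg_left _ hm0
          linarith
        have h3 : μ u * ν v * (1 + B) ≤ (1 + B) * (μ u * ν v * Z u v) := by
          have : μ u * ν v * 1 ≤ μ u * ν v * Z u v := mul_le_mul_of_nonneg_left hz hm0
          nlinarith
        rw [mul_add] at h2
        linarith
  have hsum := Finset.sum_le_sum (fun u hu => Finset.sum_le_sum (fun v hv => hpt u hu v hv))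
  simp_rw [Finset.sum_add_distrib, ← Finset.mul_sum, ← Finset.sum_div] at hsum
  have hlast : Λ / (a.N1 * a.N2) * ((∑ u ∈ range a.N1, ∑ v ∈ range a.N2,
      nret (2 * a.d1) (2 * a.d2) (2 * 2 ^ a.σ) (pt X + a.gp u v) ^ 2) / B) ≤ a.V / 4 := by
    calc _ = Λ / B * ((1 / ((a.N1 : ℝ) * a.N2)) * ∑ u ∈ range a.N1, ∑ v ∈ range a.N2,
          nret (2 * a.d1) (2 * a.d2) (2 * 2 ^ a.σ) (pt X + a.gp u v) ^ 2) := by field_simp
      _ ≤ Λ / B * T0 := by gcongr
      _ = a.V / 4 := by rw [hB]; field_simp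
  linarith

/-- grid points and digits -/
theorem grid_dig {i k W c : ℕ} {X : ℝ} (h1 : X ≤ c / 2 ^ i) (h2 : (c : ℝ) / 2 ^ i ≤ X + 1 / 2 ^ i) :
    ∃ u0 : ℕ, u0 ≤ 2 ^ (k + W) ∧ ∀ x s : ℕ, s < 2 ^ W →
      dig (i + k) (X + ((u0 + x * 2 ^ W + s : ℕ) : ℝ) / 2 ^ (i + k + W)) = c * 2 ^ k + x ∧
      0 ≤ X + ((u0 + x * 2 ^ W + s : ℕ) : ℝ) / 2 ^ (i + k + W) := by
  have hp : (0 : ℝ) < 2 ^ (i + k + W) := by positivity
  have hi : (0 : ℝ) < 2 ^ i := by positivity
  have hk : (0 : ℝ) < 2 ^ k := by positivity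
  have hW : (0 : ℝ) < 2 ^ W := by positivity
  have ep : (2 : ℝ) ^ (i + k + W) = 2 ^ i * 2 ^ k * 2 ^ W := by rw [pow_add, pow_add]
  set y : ℝ := ((c : ℝ) / 2 ^ i - X) * 2 ^ (i + k + W) with hy
  have hy0 : 0 ≤ y := mul_nonneg (by linarith) hp.le
  refine ⟨⌈y⌉₊, ?_, ?_⟩
  · rw [Nat.ceil_le]
    push_cast
    calc y ≤ (1 / 2 ^ i) * 2 ^ (i + k + W) := by
          rw [hy]; apply mul_le_mul_of_nonneg_right _ hp.le; linarith
      _ = 2 ^ (k + W) := by rw [ep, pow_add]; field_simp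
  · intro x s hs
    have c1 := Nat.le_ceil y
    have c2 := Nat.ceil_lt_add_one hy0
    have hs1 : (s : ℝ) + 1 ≤ 2 ^ W := by exact_mod_cast hs
    have hlow : ((c * 2 ^ k + x : ℕ) : ℝ) / 2 ^ (i + k) ≤ X + ((⌈y⌉₊ + x * 2 ^ W + s : ℕ) : ℝ) / 2 ^ (i + k + W) := by
      push_cast
      have e1 : ((c : ℝ) * 2 ^ k + x) / 2 ^ (i + k) = X + (y + x * 2 ^ W) / 2 ^ (i + k + W) := by
        rw [hy, ep, pow_add]; field_simp; ring
      rw [e1]
      have h0 : (0 : ℝ) ≤ s := Nat.cast_nonneg s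
      have h3 : (y + x * 2 ^ W) / 2 ^ (i + k + W) ≤ ((⌈y⌉₊ : ℝ) + x * 2 ^ W + s) / 2 ^ (i + k + W) := by
        apply div_le_div_of_nonneg_right _ hp.le
        linarith
      linarith
    refine ⟨?_, le_trans (by positivity) hlow⟩
    apply dig_of_mem hlow
    push_cast
    have e1 : ((c : ℝ) * 2 ^ k + x + 1) / 2 ^ (i + k) = X + (y + x * 2 ^ W + 2 ^ W) / 2 ^ (i + k + W) := by
      rw [hy, ep, pow_add]; field_simp; ring
    rw [e1]
    gcongr X + ?_ / _
    linarith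

theorem sum_block (A B : ℕ) (F : ℕ → ℝ) : ∑ r ∈ range (A * B), F r = ∑ x ∈ range A, ∑ s ∈ range B, F (x * B + s) := by
  induction A with
  | zero => simp
  | succ n ih => rw [Finset.sum_range_succ, ← ih, Nat.succ_mul, Finset.sum_range_add]

theorem regroup {A B u0 N : ℕ} (hB : 0 < B) (hu : u0 + A * B ≤ N) (F : ℕ → ℝ) :
    ∑ u ∈ range N, (if u0 ≤ u ∧ u < u0 + A * B then F ((u - u0) / B) else 0) = B * ∑ x ∈ range A, F x := by
  rw [← Finset.sum_filter]
  have e : (range N).filter (fun u => u0 ≤ u ∧ u < u0 + A * B) = (range (A * B)).image (fun r => u0 + r) := by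
    ext u
    rw [Finset.mem_filter, Finset.mem_image, Finset.mem_range]
    constructor
    · rintro ⟨_, h2, h3⟩
      exact ⟨u - u0, by rw [Finset.mem_range]; omega, by omega⟩
    · rintro ⟨r, hr, rfl⟩
      rw [Finset.mem_range] at hr
      omega
  rw [e, Finset.sum_image (fun x _ y _ h => by simpa using h), sum_block, Finset.mul_sum]
  apply Finset.sum_congr rfl; intro x _
  have : ∀ s ∈ range B, F ((u0 + (x * B + s) - u0) / B) = F x := by
    intro s hs
    rw [Finset.mem_range] at hs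
    congr 1
    rw [Nat.add_sub_cancel_left, Nat.mul_comm, Nat.mul_add_div hB, Nat.div_eq_of_lt hs, add_zero]
  rw [Finset.sum_congr rfl this, Finset.sum_const, card_range, nsmul_eq_mul]

/-- spread a law on blocks -/
def spread (A B u0 : ℕ) (μ : ℕ → ℝ) (u : ℕ) : ℝ := if u0 ≤ u ∧ u < u0 + A * B then μ ((u - u0) / B) / B else 0

theorem spread_nonneg {A B u0 : ℕ} {μ : ℕ → ℝ} (h : ∀ x, 0 ≤ μ x) (u : ℕ) : 0 ≤ spread A B u0 μ u := by
  unfold spread
  split_ifs
  · exact div_nonneg (h _) (Nat.cast_nonneg _)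
  · exact le_rfl

theorem spread_le {A B u0 : ℕ} (hB : 0 < B) {μ : ℕ → ℝ} {l : ℝ} (hl : 0 ≤ l) (h : ∀ x ∈ range A, μ x ≤ l) (u : ℕ) :
    spread A B u0 μ u ≤ l / B := by
  unfold spread
  split_ifs with hc
  · apply div_le_div_of_nonneg_right _ (Nat.cast_nonneg _)
    apply h
    rw [Finset.mem_range, Nat.div_lt_iff_lt_mul hB]
    omega
  · positivity

theorem sum_spread {A B u0 N : ℕ} (hB : 0 < B) (hu : u0 + A * B ≤ N) (μ F : ℕ → ℝ) :
    ∑ u ∈ range N, spread A B u0 μ u * F ((u - u0) / B) = ∑ x ∈ range A, μ x * F x := by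
  have hB' : (B : ℝ) ≠ 0 := by exact_mod_cast hB.ne'
  have := regroup hB hu (fun x => μ x * F x / B)
  rw [← Finset.sum_div] at this
  rw [mul_div_cancel₀ _ hB'] at this
  rw [← this]
  apply Finset.sum_congr rfl; intro u _
  unfold spread
  split_ifs
  · ring
  · ring

end Run7.h297
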