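import Mathlib

set_option autoImplicit false

/-! Counting pairs with prescribed approximate difference. -/

noncomputable section

namespace Run7.h297

open Real Finset

theorem bucket {ι : Type*} (s : Finset ι) (β : ι → ℤ) (r : ℤ) :
    ((s ×ˢ s).filter (fun z => β z.1 - β z.2 = r)).card ≤ ((s ×ˢ s).filter (fun z => β z.1 = β z.2)).card := by
  classical
  set c : ℤ → ℕ := fun i => (s.filter (fun x => β x = i)).card with hc
  set B : Finset ℤ := s.image β with hB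
  have h1 : ((s ×ˢ s).filter (fun z => β z.1 - β z.2 = r)).card = ∑ i ∈ B, c i * c (i - r) := by
    have hmaps : ∀ z ∈ (s ×ˢ s).filter (fun z => β z.1 - β z.2 = r), β z.1 ∈ B := by
      intro z hz
      rw [Finset.mem_filter, Finset.mem_product] at hz
      exact Finset.mem_image_of_mem _ hz.1.1
    rw [Finset.card_eq_sum_card_fiberwise hmaps]
    apply Finset.sum_congr rfl; intro i _
    rw [hc]; dsimp only
    rw [← Finset.card_product]
    congr 1
    ext z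
    simp only [Finset.mem_filter, Finset.mem_product]
    constructor
    · rintro ⟨⟨⟨a, b⟩, d⟩, e⟩
      exact ⟨⟨a, e⟩, b, by omega⟩
    · rintro ⟨⟨a, e⟩, b, d⟩
      exact ⟨⟨⟨a, b⟩, by omega⟩, e⟩
  have h2 : ((s ×ˢ s).filter (fun z => β z.1 = β z.2)).card = ∑ i ∈ B, c i * c i := by
    have hmaps : ∀ z ∈ (s ×ˢ s).filter (fun z => β z.1 = β z.2), β z.1 ∈ B := by
      intro z hz
      rw [Finset.mem_filter, Finset.mem_product] at hz
      exact Finset.mem_image_of_mem _ hz.1.1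
    rw [Finset.card_eq_sum_card_fiberwise hmaps]
    apply Finset.sum_congr rfl; intro i _
    rw [hc]; dsimp only
    rw [← Finset.card_product]
    congr 1
    ext z
    simp only [Finset.mem_filter, Finset.mem_product]
    constructor
    · rintro ⟨⟨⟨a, b⟩, d⟩, e⟩
      exact ⟨⟨a, e⟩, b, by omega⟩
    · rintro ⟨⟨a, e⟩, b, d⟩
      exact ⟨⟨⟨a, b⟩, by omega⟩, e⟩
  have h3 : ∑ i ∈ B, c (i - r) * c (i - r) ≤ ∑ i ∈ B, c i * c i := by
    have e : ∑ i ∈ B, c (i - r) * c (i - r) = ∑ i ∈ B.image (fun i => i - r), c i * c i := by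
      refine (Finset.sum_image (g := fun i : ℤ => i - r) (f := fun i => c i * c i) ?_).symm
      intro a _ b _ hab
      dsimp only at hab; omega
    rw [e]
    have hz : ∀ i ∈ B.image (fun i => i - r), i ∉ B → c i * c i = 0 := by
      intro i _ hi
      have : c i = 0 := by
        rw [hc]; dsimp only
        rw [Finset.card_eq_zero, Finset.filter_eq_empty_iff]
        intro x hx hxi
        apply hi
        rw [hB, Finset.mem_image]; exact ⟨x, hx, hxi⟩
      rw [this]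
    calc ∑ i ∈ B.image (fun i => i - r), c i * c i = ∑ i ∈ (B.image (fun i => i - r)).filter (fun i => i ∈ B), c i * c i := by
          rw [Finset.sum_filter]
          apply Finset.sum_congr rfl; intro i hi
          split_ifs with h
          · rfl
          · exact hz i hi h
      _ ≤ ∑ i ∈ B, c i * c i := by
          apply Finset.sum_le_sum_of_subset
          intro i hi
          exact (Finset.mem_filter.mp hi).2
  have h4 : 2 * ∑ i ∈ B, c i * c (i - r) ≤ ∑ i ∈ B, c i * c i + ∑ i ∈ B, c (i - r) * c (i - r) := by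
    rw [Finset.mul_sum, ← Finset.sum_add_distrib]
    apply Finset.sum_le_sum; intro i _
    nlinarith [Nat.mul_self_le_mul_self (Nat.le_refl 0), sq_nonneg ((c i : ℤ) - c (i - r)), mul_self_nonneg ((c i : ℤ) - c (i - r)),
      two_mul_le_add_sq (c i) (c (i - r))]
  rw [h1, h2]
  omega

open Classical in
/-- number of pairs with difference close to a given value -/
def En {ι : Type*} (s : Finset ι) (ψ : ι → ℝ) (ℓ : ℝ) : ℕ := ((s ×ˢ s).filter (fun z => |ψ z.1 - ψ z.2| ≤ ℓ)).card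

open Classical in
theorem shift_count {ι : Type*} (s : Finset ι) (ψ : ι → ℝ) {ℓ : ℝ} (hℓ : 0 < ℓ) (t : ℝ) :
    ((s ×ˢ s).filter (fun z => |ψ z.1 - ψ z.2 - t| ≤ ℓ)).card ≤ 4 * En s ψ ℓ := by
  set β : ι → ℤ := fun x => ⌊ψ x / ℓ⌋ with hβ
  set I : Finset ℤ := Finset.Icc (⌊t / ℓ⌋ - 1) (⌊t / ℓ⌋ + 2) with hI
  have h1 : (s ×ˢ s).filter (fun z => |ψ z.1 - ψ z.2 - t| ≤ ℓ) ⊆
      I.biUnion (fun r => (s ×ˢ s).filter (fun z => β z.1 - β z.2 = r)) := by
    intro z hz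
    rw [Finset.mem_filter] at hz
    rw [Finset.mem_biUnion]
    refine ⟨β z.1 - β z.2, ?_, Finset.mem_filter.mpr ⟨hz.1, rfl⟩⟩
    have h2 := abs_le.mp hz.2
    have a1 := Int.floor_le (ψ z.1 / ℓ)
    have a2 := Int.lt_floor_add_one (ψ z.1 / ℓ)
    have b1 := Int.floor_le (ψ z.2 / ℓ)
    have b2 := Int.lt_floor_add_one (ψ z.2 / ℓ)
    have c1 := Int.floor_le (t / ℓ)
    have c2 := Int.lt_floor_add_one (t / ℓ)
    have d1 : ψ z.1 / ℓ - ψ z.2 / ℓ - t / ℓ ≤ 1 := by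
      rw [← sub_div, ← sub_div, div_le_one hℓ]; exact h2.2
    have d2 : -1 ≤ ψ z.1 / ℓ - ψ z.2 / ℓ - t / ℓ := by
      rw [← sub_div, ← sub_div, le_div_iff₀ hℓ]; linarith [h2.1]
    rw [hI, Finset.mem_Icc, hβ]
    dsimp only
    constructor
    · have : (⌊t / ℓ⌋ : ℝ) - 2 < ((⌊ψ z.1 / ℓ⌋ - ⌊ψ z.2 / ℓ⌋ : ℤ) : ℝ) := by push_cast; linarith
      have : ⌊t / ℓ⌋ - 2 < ⌊ψ z.1 / ℓ⌋ - ⌊ψ z.2 / ℓ⌋ := by exact_mod_cast this
      omega
    · have : ((⌊ψ z.1 / ℓ⌋ - ⌊ψ z.2 / ℓ⌋ : ℤ) : ℝ) < (⌊t / ℓ⌋ : ℝ) + 3 := by push_cast; linarith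
      have : ⌊ψ z.1 / ℓ⌋ - ⌊ψ z.2 / ℓ⌋ < ⌊t / ℓ⌋ + 3 := by exact_mod_cast this
      omega
  have h2 : ((s ×ˢ s).filter (fun z => β z.1 = β z.2)).card ≤ En s ψ ℓ := by
    unfold En
    apply Finset.card_le_card
    intro z hz
    rw [Finset.mem_filter] at hz ⊢
    refine ⟨hz.1, ?_⟩
    have h3 := hz.2
    rw [hβ] at h3; dsimp only at h3
    have a1 := Int.floor_le (ψ z.1 / ℓ)
    have a2 := Int.lt_floor_add_one (ψ z.1 / ℓ)
    have b1 := Int.floor_le (ψ z.2 / ℓ)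
    have b2 := Int.lt_floor_add_one (ψ z.2 / ℓ)
    rw [h3] at a1 a2
    have d1 : ψ z.1 / ℓ - ψ z.2 / ℓ ≤ 1 := by linarith
    have d2 : -1 ≤ ψ z.1 / ℓ - ψ z.2 / ℓ := by linarith
    rw [← sub_div, div_le_one hℓ] at d1
    rw [← sub_div, le_div_iff₀ hℓ] at d2
    rw [abs_le]; constructor <;> linarith
  calc _ ≤ (I.biUnion (fun r => (s ×ˢ s).filter (fun z => β z.1 - β z.2 = r))).card := Finset.card_le_card h1
    _ ≤ ∑ r ∈ I, ((s ×ˢ s).filter (fun z => β z.1 - β z.2 = r)).card := Finset.card_biUnion_le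
    _ ≤ ∑ r ∈ I, En s ψ ℓ := Finset.sum_le_sum (fun r _ => (bucket s β r).trans h2)
    _ = 4 * En s ψ ℓ := by
      rw [Finset.sum_const, smul_eq_mul, hI, Int.card_Icc]
      congr 1
      omega

open Classical in
theorem fixpair {ι X : Type*} (s : Finset ι) (ψ : ι → ℝ) {ℓ : ℝ} (hℓ : 0 < ℓ) (Q : Finset X)
    (pf rf : X → ι × ι) (D : Finset (ι × ι)) (t : ι × ι → ℝ) (hinj : ∀ a ∈ Q, ∀ b ∈ Q, pf a = pf b → rf a = rf b → a = b)
    (hD : ∀ q ∈ Q, pf q ∈ D) (hρ : ∀ q ∈ Q, (rf q).1 ∈ s ∧ (rf q).2 ∈ s ∧ |ψ (rf q).1 - ψ (rf q).2 - t (pf q)| ≤ ℓ) :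
    Q.card ≤ D.card * (4 * En s ψ ℓ) := by
  rw [Finset.card_eq_sum_card_fiberwise hD]
  calc _ ≤ ∑ d ∈ D, 4 * En s ψ ℓ := by
        apply Finset.sum_le_sum; intro d _
        refine le_trans ?_ (shift_count s ψ hℓ (t d))
        apply Finset.card_le_card_of_injOn rf
        · intro q hq
          rw [Finset.mem_coe, Finset.mem_filter] at hq
          obtain ⟨h1, h2, h3⟩ := hρ q hq.1
          rw [Finset.mem_coe, Finset.mem_filter, Finset.mem_product]
          rw [hq.2] at h3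
          exact ⟨⟨h1, h2⟩, h3⟩
        · intro a ha b hb hab
          rw [Finset.mem_coe, Finset.mem_filter] at ha hb
          exact hinj a ha.1 b hb.1 (ha.2.trans hb.2.symm) hab
    _ = _ := by rw [Finset.sum_const, smul_eq_mul]

end Run7.h297
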