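import Pool.Agent.Run7.h297.Fejer

set_option autoImplicit false

/-! Reduction of an almost everywhere statement on the plane to sets of positive measure in the unit
square. -/

noncomputable section

namespace Run7.h297

open Real MeasureTheory

/-- the product of the two distances -/
def prd (q : ℕ) (x g : ℝ × ℝ) : ℝ :=
  ‖((q * x.1 - g.1 : ℝ) : TT)‖ * ‖((q * x.2 - g.2 : ℝ) : TT)‖

theorem coe_int_zero (n : ℤ) : (((n : ℝ)) : TT) = 0 := by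
  rw [AddCircle.coe_eq_zero_iff]
  exact ⟨n, by simp⟩

theorem prd_nonneg (q : ℕ) (x g : ℝ × ℝ) : 0 ≤ prd q x g := mul_nonneg (norm_nonneg _) (norm_nonneg _)

theorem norm_trans (q : ℕ) (x g : ℝ) (n k : ℤ) :
    ‖((q * (x - n) - (g - k) : ℝ) : TT)‖ = ‖((q * x - g : ℝ) : TT)‖ := by
  have e : (q * (x - n) - (g - k) : ℝ) = (q * x - g) + ((((k - q * n : ℤ)) : ℝ)) := by push_cast; ring
  have e2 : ((q * (x - n) - (g - k) : ℝ) : TT) = ((q * x - g : ℝ) : TT) + (((((k - q * n : ℤ)) : ℝ)) : TT) := by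
    rw [e]; rfl
  rw [e2, coe_int_zero, add_zero]

/-- the exceptional sets -/
def BadSet (ψ : ℕ → ℝ) (η : ℝ) (N : ℕ) : Set (ℝ × ℝ) :=
  {x | ∃ g : ℝ × ℝ, ∀ q : ℕ, N ≤ q → η ≤ q * ψ q * prd q x g}

theorem BadSet_trans {ψ : ℕ → ℝ} {η : ℝ} {N : ℕ} {x : ℝ × ℝ} (hx : x ∈ BadSet ψ η N) (n : ℤ × ℤ) :
    (x.1 - n.1, x.2 - n.2) ∈ BadSet ψ η N := by
  obtain ⟨g, hg⟩ := hx
  refine ⟨g, fun q hq => ?_⟩
  have := hg q hq
  unfold prd at this ⊢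
  have e1 := norm_trans q x.1 g.1 n.1 0
  have e2 := norm_trans q x.2 g.2 n.2 0
  simp only [Int.cast_zero, sub_zero] at e1 e2
  rw [e1, e2]; exact this

theorem BadSet_null {ψ : ℕ → ℝ} {η : ℝ} {N : ℕ}
    (H : ∀ c : ℝ, 0 < c → ∀ E : Set (ℝ × ℝ), E ⊆ Set.Ico 0 1 ×ˢ Set.Ico 0 1 → ENNReal.ofReal c ≤ volume E →
      ∀ g : ℝ × ℝ → ℝ × ℝ, (∀ x, 0 ≤ (g x).1 ∧ (g x).1 < 1) → (∀ x, 0 ≤ (g x).2 ∧ (g x).2 < 1) →
      ¬ (∀ x ∈ E, ∀ q : ℕ, N ≤ q → η ≤ q * ψ q * prd q x (g x))) :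
    volume (BadSet ψ η N) = 0 := by
  classical
  set E := BadSet ψ η N ∩ (Set.Ico (0 : ℝ) 1 ×ˢ Set.Ico (0 : ℝ) 1) with hE
  have hE0 : volume E = 0 := by
    by_contra hne
    have hEsub : E ⊆ Set.Ico (0 : ℝ) 1 ×ˢ Set.Ico (0 : ℝ) 1 := Set.inter_subset_right
    have hEfin : volume E ≠ ⊤ := by
      have h1 : volume E ≤ volume (Set.Ico (0 : ℝ) 1 ×ˢ Set.Ico (0 : ℝ) 1) := measure_mono hEsub
      have h2 : volume (Set.Ico (0 : ℝ) 1 ×ˢ Set.Ico (0 : ℝ) 1) = 1 := by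
        rw [Measure.volume_eq_prod, Measure.prod_prod, Real.volume_Ico]; simp
      rw [h2] at h1
      exact (h1.trans_lt ENNReal.one_lt_top).ne
    have hc : 0 < (volume E).toReal := ENNReal.toReal_pos hne hEfin
    have hex : ∀ x : ℝ × ℝ, ∃ g : ℝ × ℝ, x ∈ E → ∀ q : ℕ, N ≤ q → η ≤ q * ψ q * prd q x g := by
      intro x
      by_cases hx : x ∈ E
      · obtain ⟨g, hg⟩ := hx.1
        exact ⟨g, fun _ => hg⟩
      · exact ⟨0, fun h => absurd h hx⟩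
    choose g hg using hex
    refine H _ hc E hEsub (by rw [ENNReal.ofReal_toReal hEfin]) (fun x => (Int.fract (g x).1, Int.fract (g x).2))
      (fun x => ⟨Int.fract_nonneg _, Int.fract_lt_one _⟩) (fun x => ⟨Int.fract_nonneg _, Int.fract_lt_one _⟩) ?_
    intro x hx q hq
    have := hg x hx q hq
    unfold prd at this ⊢
    have e1 := norm_trans q x.1 (g x).1 0 ⌊(g x).1⌋
    have e2 := norm_trans q x.2 (g x).2 0 ⌊(g x).2⌋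
    simp only [Int.cast_zero, sub_zero] at e1 e2
    simp only [← Int.self_sub_floor]
    rw [e1, e2]; exact this
  have hcov : BadSet ψ η N ⊆ ⋃ n : ℤ × ℤ, (fun x : ℝ × ℝ => x - ((n.1 : ℝ), (n.2 : ℝ))) ⁻¹' E := by
    intro x hx
    rw [Set.mem_iUnion]
    refine ⟨(⌊x.1⌋, ⌊x.2⌋), ?_⟩
    rw [Set.mem_preimage]
    have h1 := BadSet_trans hx (⌊x.1⌋, ⌊x.2⌋)
    refine ⟨h1, ?_⟩
    rw [Set.mem_prod]
    simp only [Prod.fst_sub, Prod.snd_sub, Int.self_sub_floor, Set.mem_Ico]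
    exact ⟨⟨Int.fract_nonneg _, Int.fract_lt_one _⟩, Int.fract_nonneg _, Int.fract_lt_one _⟩
  refine measure_mono_null hcov ?_
  rw [measure_iUnion_null_iff]
  intro n
  exact (measurePreserving_sub_right (volume : Measure (ℝ × ℝ)) ((n.1 : ℝ), (n.2 : ℝ))).quasiMeasurePreserving.preimage_null hE0

theorem ae_of_core {ψ : ℕ → ℝ}
    (H : ∀ η : ℝ, 0 < η → ∀ N : ℕ, ∀ c : ℝ, 0 < c → ∀ E : Set (ℝ × ℝ), E ⊆ Set.Ico 0 1 ×ˢ Set.Ico 0 1 →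
      ENNReal.ofReal c ≤ volume E →
      ∀ g : ℝ × ℝ → ℝ × ℝ, (∀ x, 0 ≤ (g x).1 ∧ (g x).1 < 1) → (∀ x, 0 ≤ (g x).2 ∧ (g x).2 < 1) →
      ¬ (∀ x ∈ E, ∀ q : ℕ, N ≤ q → η ≤ q * ψ q * prd q x (g x))) :
    ∀ᵐ x : ℝ × ℝ ∂volume, ∀ γ : ℝ × ℝ, ∀ η : ℝ, 0 < η → ∀ N : ℕ, ∃ q : ℕ, N ≤ q ∧
      (q : ℝ) * ψ q
        * |(q : ℝ) * x.1 - γ.1 - ((round ((q : ℝ) * x.1 - γ.1) : ℤ) : ℝ)|
        * |(q : ℝ) * x.2 - γ.2 - ((round ((q : ℝ) * x.2 - γ.2) : ℤ) : ℝ)| < η := by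
  have hall : ∀ᵐ x : ℝ × ℝ ∂volume, ∀ k N : ℕ, x ∉ BadSet ψ (1 / ((k : ℝ) + 1)) N := by
    rw [ae_all_iff]; intro k
    rw [ae_all_iff]; intro N
    have h0 := BadSet_null (H (1 / ((k : ℝ) + 1)) (by positivity) N)
    exact measure_eq_zero_iff_ae_notMem.mp h0
  filter_upwards [hall] with x hx γ η hη N
  obtain ⟨k, hk⟩ := exists_nat_one_div_lt hη
  by_contra hcon
  push Not at hcon
  apply hx k N
  refine ⟨γ, fun q hq => ?_⟩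
  have h1 := hcon q hq
  unfold prd
  rw [UnitAddCircle.norm_eq, UnitAddCircle.norm_eq]
  have : (q : ℝ) * ψ q * (|(q : ℝ) * x.1 - γ.1 - ((round ((q : ℝ) * x.1 - γ.1) : ℤ) : ℝ)| *
    |(q : ℝ) * x.2 - γ.2 - ((round ((q : ℝ) * x.2 - γ.2) : ℤ) : ℝ)|) = (q : ℝ) * ψ q *
    |(q : ℝ) * x.1 - γ.1 - ((round ((q : ℝ) * x.1 - γ.1) : ℤ) : ℝ)| *
    |(q : ℝ) * x.2 - γ.2 - ((round ((q : ℝ) * x.2 - γ.2) : ℤ) : ℝ)| := by ring
  rw [this]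
  exact hk.le.trans h1

end Run7.h297
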