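import Pool.Agent.Run7.h297.Transfer

set_option autoImplicit false

/-! Sampling a digit system from a set of positive measure. -/

noncomputable section

namespace Run7.h297

open Real Finset MeasureTheory

/-- half open cell -/
def hcell (k l : ℕ) (u : ℕ × ℕ) : Set (ℝ × ℝ) :=
  Set.Ico ((u.1 : ℝ) / 2 ^ k) ((u.1 + 1) / 2 ^ k) ×ˢ Set.Ico ((u.2 : ℝ) / 2 ^ l) ((u.2 + 1) / 2 ^ l)

theorem measurableSet_hcell (k l : ℕ) (u : ℕ × ℕ) : MeasurableSet (hcell k l u) :=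
  measurableSet_Ico.prod measurableSet_Ico

theorem volume_hcell (k l : ℕ) (u : ℕ × ℕ) : volume (hcell k l u) = ENNReal.ofReal (1 / 2 ^ (k + l)) := by
  have hk : (0 : ℝ) < 2 ^ k := by positivity
  unfold hcell
  rw [Measure.volume_eq_prod, Measure.prod_prod, Real.volume_Ico, Real.volume_Ico, ← ENNReal.ofReal_mul]
  · congr 1
    rw [pow_add]; field_simp; ring
  · rw [← sub_div]; apply div_nonneg _ hk.le; linarith

theorem dig_hcell {k l : ℕ} {u : ℕ × ℕ} {x : ℝ × ℝ} (hx : x ∈ hcell k l u) :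
    dig k x.1 = u.1 ∧ dig l x.2 = u.2 :=
  ⟨dig_of_mem hx.1.1 hx.1.2, dig_of_mem hx.2.1 hx.2.2⟩

theorem hcell_dig {k l : ℕ} {u : ℕ × ℕ} {x : ℝ × ℝ} (h1 : 0 ≤ x.1) (h2 : 0 ≤ x.2)
    (hx : dig k x.1 = u.1 ∧ dig l x.2 = u.2) : x ∈ hcell k l u := by
  have hk : (0 : ℝ) < 2 ^ k := by positivity
  have hl : (0 : ℝ) < 2 ^ l := by positivity
  have a1 := dig_le (k := k) h1
  have a2 := lt_dig (k := k) x.1
  have b1 := dig_le (k := l) h2
  have b2 := lt_dig (k := l) x.2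
  rw [hx.1] at a1 a2
  rw [hx.2] at b1 b2
  refine ⟨⟨?_, ?_⟩, ?_, ?_⟩
  · rw [div_le_iff₀ hk]; linarith
  · rw [lt_div_iff₀ hk]; linarith
  · rw [div_le_iff₀ hl]; linarith
  · rw [lt_div_iff₀ hl]; linarith

open Classical in
theorem exists_sys (E : Set (ℝ × ℝ)) (hE : E ⊆ Set.Ico 0 1 ×ˢ Set.Ico 0 1) {c : ℝ} (hc : 0 < c)
    (hv : ENNReal.ofReal c ≤ volume E) (n : ℕ) (g : ℝ × ℝ → ℝ × ℝ)
    (hg1 : ∀ x, 0 ≤ (g x).1 ∧ (g x).1 < 1) (hg2 : ∀ x, 0 ≤ (g x).2 ∧ (g x).2 < 1) :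
    ∃ S : Sys (Fin (2 ^ n) × Fin (2 ^ n)), S.Dom n (1 / c) ∧
      ∀ ω, 0 < S.p ω → ∃ x ∈ E, S.α ω = x.1 ∧ S.β ω = x.2 ∧ S.γ₁ ω = (g x).1 ∧ S.γ₂ ω = (g x).2 := by
  set cell : Fin (2 ^ n) × Fin (2 ^ n) → Set (ℝ × ℝ) := fun ω => hcell n n (ω.1.val, ω.2.val) with hcell'
  have hn0 : (0 : ℝ) < 2 ^ n := by positivity
  have hEfin : volume E ≠ ⊤ := by
    have h1 : volume E ≤ volume (Set.Ico (0 : ℝ) 1 ×ˢ Set.Ico (0 : ℝ) 1) := measure_mono hE
    have h2 : volume (Set.Ico (0 : ℝ) 1 ×ˢ Set.Ico (0 : ℝ) 1) = 1 := by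
      rw [Measure.volume_eq_prod, Measure.prod_prod, Real.volume_Ico]; simp
    rw [h2] at h1
    exact (h1.trans_lt ENNReal.one_lt_top).ne
  set v : ℝ := (volume E).toReal with hvdef
  have hvc : c ≤ v := by
    rw [hvdef]; exact (ENNReal.ofReal_le_iff_le_toReal hEfin).mp hv
  have hv0 : 0 < v := hc.trans_le hvc
  set m : Measure (ℝ × ℝ) := volume.restrict E with hm
  haveI : IsFiniteMeasure m := ⟨by rw [hm, Measure.restrict_apply_univ]; exact hEfin.lt_top⟩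
  have hdisj : ∀ F : Finset (Fin (2 ^ n) × Fin (2 ^ n)), Set.PairwiseDisjoint (↑F) cell := by
    intro F ω _ ω' _ hne
    rw [Function.onFun, Set.disjoint_left]
    intro x hx hx'
    apply hne
    have a1 := dig_hcell hx
    have a2 := dig_hcell hx'
    exact Prod.ext (Fin.ext (a1.1.symm.trans a2.1)) (Fin.ext (a1.2.symm.trans a2.2))
  have hsumF : ∀ F : Finset (Fin (2 ^ n) × Fin (2 ^ n)), ∑ ω ∈ F, (m (cell ω)).toReal = (m (⋃ ω ∈ F, cell ω)).toReal := by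
    intro F
    rw [measure_biUnion_finset (hdisj F) (fun ω _ => measurableSet_hcell _ _ _), ENNReal.toReal_sum]
    intro ω _; exact measure_ne_top _ _
  have hcorner : ∀ ω : Fin (2 ^ n) × Fin (2 ^ n), (((ω.1.val : ℝ) / 2 ^ n), ((ω.2.val : ℝ) / 2 ^ n)) ∈ cell ω := by
    intro ω
    refine ⟨⟨le_rfl, ?_⟩, le_rfl, ?_⟩
    · apply div_lt_div_of_pos_right _ hn0; simp
    · apply div_lt_div_of_pos_right _ hn0; simp
  have hrep : ∀ ω, ∃ x : ℝ × ℝ, x ∈ cell ω ∧ (0 < m (cell ω) → x ∈ E) := by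
    intro ω
    by_cases h : (cell ω ∩ E).Nonempty
    · obtain ⟨x, hx1, hx2⟩ := h
      exact ⟨x, hx1, fun _ => hx2⟩
    · refine ⟨_, hcorner ω, ?_⟩
      intro hpos
      exfalso
      rw [Set.not_nonempty_iff_eq_empty] at h
      rw [hm, Measure.restrict_apply (measurableSet_hcell _ _ _), h, measure_empty] at hpos
      exact lt_irrefl _ hpos
  choose rep hrep1 hrep2 using hrep
  have hrepsq : ∀ ω, (0 ≤ (rep ω).1 ∧ (rep ω).1 < 1) ∧ (0 ≤ (rep ω).2 ∧ (rep ω).2 < 1) := by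
    intro ω
    obtain ⟨⟨a1, a2⟩, b1, b2⟩ := hrep1 ω
    have h1 : ((ω.1.val : ℝ) + 1) / 2 ^ n ≤ 1 := by
      rw [div_le_one hn0]; exact_mod_cast ω.1.isLt
    have h2 : ((ω.2.val : ℝ) + 1) / 2 ^ n ≤ 1 := by
      rw [div_le_one hn0]; exact_mod_cast ω.2.isLt
    have h3 : (0 : ℝ) ≤ (ω.1.val : ℝ) / 2 ^ n := by positivity
    have h4 : (0 : ℝ) ≤ (ω.2.val : ℝ) / 2 ^ n := by positivity
    exact ⟨⟨h3.trans a1, a2.trans_le h1⟩, h4.trans b1, b2.trans_le h2⟩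
  have hcover : E ⊆ ⋃ ω ∈ (Finset.univ : Finset (Fin (2 ^ n) × Fin (2 ^ n))), cell ω := by
    intro x hx
    have hx' := hE hx
    have l1 := dig_lt (k := n) hx'.1.1 hx'.1.2
    have l2 := dig_lt (k := n) hx'.2.1 hx'.2.2
    rw [Set.mem_iUnion₂]
    exact ⟨(⟨_, l1⟩, ⟨_, l2⟩), Finset.mem_univ _, hcell_dig hx'.1.1 hx'.2.1 ⟨rfl, rfl⟩⟩
  have htot : ∑ ω, (m (cell ω)).toReal = v := by
    rw [hsumF, hvdef, hm, Measure.restrict_apply (Finset.measurableSet_biUnion _ (fun ω _ => measurableSet_hcell _ _ _)),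
      Set.inter_eq_right.mpr hcover]
  let S : Sys (Fin (2 ^ n) × Fin (2 ^ n)) :=
    { p := fun ω => (m (cell ω)).toReal / v
      α := fun ω => (rep ω).1
      β := fun ω => (rep ω).2
      γ₁ := fun ω => (g (rep ω)).1
      γ₂ := fun ω => (g (rep ω)).2
      hp := fun ω => by positivity
      hp1 := by rw [← Finset.sum_div, htot]; field_simp
      hα := fun ω => (hrepsq ω).1
      hβ := fun ω => (hrepsq ω).2
      hγ₁ := fun ω => hg1 _
      hγ₂ := fun ω => hg2 _ }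
  refine ⟨S, ?_, ?_⟩
  · intro k l hk hl u
    set F : Finset (Fin (2 ^ n) × Fin (2 ^ n)) := Finset.univ.filter (fun ω => (dig k (rep ω).1, dig l (rep ω).2) = u) with hF
    have e1 : pr S.p (fun ω => (dig k (S.α ω), dig l (S.β ω))) u = (∑ ω ∈ F, (m (cell ω)).toReal) / v := by
      unfold pr
      rw [hF, Finset.sum_div, Finset.sum_filter]
    rw [e1, hsumF]
    have hsub : (⋃ ω ∈ F, cell ω) ⊆ hcell k l u := by
      intro x hx
      rw [Set.mem_iUnion₂] at hx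
      obtain ⟨ω, hω, hx⟩ := hx
      rw [hF, Finset.mem_filter] at hω
      have a1 := dig_hcell hx
      have a2 := dig_hcell (hrep1 ω)
      have x1 : 0 ≤ x.1 := le_trans (by positivity) hx.1.1
      have x2 : 0 ≤ x.2 := le_trans (by positivity) hx.2.1
      apply hcell_dig x1 x2
      constructor
      · rw [← hω.2]
        exact dig_congr hk (a1.1.trans a2.1.symm)
      · rw [← hω.2]
        exact dig_congr hl (a1.2.trans a2.2.symm)
    have h2 : m (⋃ ω ∈ F, cell ω) ≤ ENNReal.ofReal (1 / 2 ^ (k + l)) := by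
      calc m (⋃ ω ∈ F, cell ω) ≤ volume (⋃ ω ∈ F, cell ω) := Measure.restrict_apply_le _ _
        _ ≤ volume (hcell k l u) := measure_mono hsub
        _ = _ := volume_hcell k l u
    have h3 : (m (⋃ ω ∈ F, cell ω)).toReal ≤ 1 / 2 ^ (k + l) := by
      apply ENNReal.toReal_le_of_le_ofReal (by positivity) h2
    calc (m (⋃ ω ∈ F, cell ω)).toReal / v ≤ (1 / 2 ^ (k + l)) / c := by gcongr
      _ = 1 / c * (1 / 2 ^ (k + l)) := by ring
  · intro ω hω
    refine ⟨rep ω, hrep2 ω ?_, rfl, rfl, rfl, rfl⟩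
    have h1 : 0 < (m (cell ω)).toReal / v := hω
    have h2 : 0 < (m (cell ω)).toReal := by
      by_contra hcon
      push Not at hcon
      have : (m (cell ω)).toReal = 0 := le_antisymm hcon ENNReal.toReal_nonneg
      rw [this, zero_div] at h1
      exact lt_irrefl _ h1
    exact (ENNReal.toReal_pos_iff.mp h2).1

end Run7.h297
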