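import Pool.Agent.Run7.h297.One
import Pool.Agent.Run7.h297.Reduce
import Pool.Agent.Run7.h297.Sample

set_option autoImplicit false

/-! The core contradiction with a power of the logarithm. -/

noncomputable section

namespace Run7.h297

open Real Finset MeasureTheory

theorem Sys.contr {Ω : Type*} [Fintype Ω] (S : Sys Ω) {n : ℕ} {C : ℝ} (hC : 0 < C) (hd : S.Dom n C)
    {q0 Q1 e s m K t w A0 B0 na nb : ℕ} (hbad : S.Bad q0 Q1 (1 / 2 ^ e))
    (he : ∀ a b, A0 ≤ a → B0 ≤ b → Exps a b (2 * m * K) e t w) (hs : s ≤ A0) (hB : 1 ≤ B0)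
    (hm : e + 3 * s + 6 ≤ m) (hq0 : q0 ≤ 2 ^ (A0 + B0)) (hQ1 : 3 * 2 ^ (s + A0 + na + 2 * m * K + B0 + nb) ≤ Q1)
    (hn : 4 * (A0 + na + 2 * m * K + B0 + nb) ≤ n) :
    (na : ℝ) * nb * (K * ((1 - C * (8 / (2 ^ s) ^ 2)) / 2 ^ m)) ≤
      nb * (2 * m * K) * ((A0 + 4 * (2 * m * K) + B0 + nb) * Real.log 2 + Real.log C) +
        na * nb * cst1 (2 * m * K) e t w C +
        cst2 (2 * m * K) e t * (na * ((2 * m * K) * ((2 * m * K) * Real.log 2))) := by
  have hlg : 0 < Real.log 2 := Real.log_pos (by norm_num)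
  apply bookkeeping S.sub4
  · unfold cst2; positivity
  · intro a b ha1 ha2 hb1 hb2
    have hE := he a b ha1 hb1
    have h := S.P5 hC.le hd hE hbad
      (hq0.trans (Nat.pow_le_pow_right (by norm_num) (by omega)))
      (le_trans (Nat.mul_le_mul_left _ (Nat.pow_le_pow_right (by norm_num) (by omega))) hQ1)
      (by omega) (by omega)
    have e1 : ((2 * m * K : ℕ) : ℝ) = 2 * m * K := by push_cast; ring
    rw [e1] at h
    have e2 : 2 * a + b + 2 * m * K = 2 * a + b + 2 * m * K := rfl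
    linarith
  · intro a b ha1 ha2 hb1 hb2
    exact S.P6 hC.le hd (by omega) (by omega) hm hbad
      (hq0.trans (Nat.pow_le_pow_right (by norm_num) (by omega)))
      (le_trans (Nat.mul_le_mul_left _ (Nat.pow_le_pow_right (by norm_num) (by omega))) hQ1)
      (by omega) (by omega)
  · intro a b _ _ _ _
    refine (S.upper _ _ _ _).trans ?_
    apply mul_le_mul_of_nonneg_right _ hlg.le
    push_cast
    linarith
  · intro a b _ ha2 _ hb2
    refine le_trans ?_ (S.lower hC hd (k := 2 * a + b) (l := a + 2 * b) (by omega) (by omega))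
    apply sub_le_sub_right
    apply mul_le_mul_of_nonneg_right _ hlg.le
    push_cast
    linarith

/-- existence of a large exponent -/
theorem exists_r (X : ℝ) : ∃ r : ℕ, 12 ≤ r ∧ X ≤ r ∧ 5000 * (r : ℝ) + 20 ≤ 2 ^ r := by
  have h := tendsto_pow_const_div_const_pow_of_one_lt 1 (r := (2 : ℝ)) (by norm_num)
  have h1 : ∀ᶠ r : ℕ in Filter.atTop, (r : ℝ) ^ 1 / 2 ^ r < 1 / 6000 :=
    h.eventually (gt_mem_nhds (by norm_num))
  have h2 : ∀ᶠ r : ℕ in Filter.atTop, X ≤ (r : ℝ) := by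
    obtain ⟨k, hk⟩ := exists_nat_ge X
    filter_upwards [Filter.eventually_ge_atTop k] with r hr
    exact hk.trans (by exact_mod_cast hr)
  have h3 : ∀ᶠ r : ℕ in Filter.atTop, 12 ≤ r := Filter.eventually_ge_atTop 12
  obtain ⟨r, hr1, hr2, hr3⟩ := (h1.and (h2.and h3)).exists
  refine ⟨r, hr3, hr2, ?_⟩
  rw [pow_one, div_lt_div_iff₀ (by positivity) (by norm_num)] at hr1
  have : (12 : ℝ) ≤ r := by exact_mod_cast hr3
  linarith

theorem core_base (η : ℝ) (hη : 0 < η) (N : ℕ) (c : ℝ) (hc : 0 < c) (E : Set (ℝ × ℝ))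
    (hE : E ⊆ Set.Ico 0 1 ×ˢ Set.Ico 0 1) (hv : ENNReal.ofReal c ≤ volume E)
    (g : ℝ × ℝ → ℝ × ℝ) (hg1 : ∀ x, 0 ≤ (g x).1 ∧ (g x).1 < 1) (hg2 : ∀ x, 0 ≤ (g x).2 ∧ (g x).2 < 1) :
    ¬ (∀ x ∈ E, ∀ q : ℕ, N ≤ q → η ≤ q * (Real.log q) ^ (1 / 10 : ℝ) * prd q x (g x)) := by
  intro hbad
  set C : ℝ := 1 / c with hC
  have hC0 : 0 < C := by positivity
  -- choice of s
  obtain ⟨s, hs⟩ : ∃ s : ℕ, 16 * C ≤ 2 ^ s := by
    obtain ⟨s, hs⟩ := pow_unbounded_of_one_lt (16 * C) (by norm_num : (1 : ℝ) < 2)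
    exact ⟨s, hs.le⟩
  -- choice of r
  obtain ⟨r, hr12, hrX, hr5⟩ := exists_r (4096 * C + 3 * s + 6 + N + (2 : ℝ) ^ (3 * s + 6) / η + 100)
  obtain ⟨y, hy⟩ : ∃ z : ℝ, z = 2 ^ r := ⟨_, rfl⟩
  rw [← hy] at hr5
  have hry : (r : ℝ) ≤ y := by
    have : r < 2 ^ r := Nat.lt_two_pow_self
    have h2 : (r : ℝ) < ((2 ^ r : ℕ) : ℝ) := by exact_mod_cast this
    push_cast at h2; rw [hy]; exact h2.le
  have hpos1 : 0 ≤ (2 : ℝ) ^ (3 * s + 6) / η := by positivity
  have hs0 : (0 : ℝ) ≤ s := Nat.cast_nonneg s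
  have hN0 : (0 : ℝ) ≤ N := Nat.cast_nonneg N
  have hyC : 4096 * C ≤ y := by linarith
  have hyη : (2 : ℝ) ^ (3 * s + 6) / η ≤ y := by linarith
  have hy100 : 100 ≤ y := by linarith
  have hrsN : 3 * s + 6 + N ≤ r := by
    have : ((3 * s + 6 + N : ℕ) : ℝ) ≤ r := by push_cast; linarith
    exact_mod_cast this
  have hy0 : 0 < y := by linarith
  have hy1 : 1 ≤ y := by linarith
  -- parameters
  obtain ⟨m, hm⟩ : ∃ z : ℕ, z = 40 * r := ⟨_, rfl⟩
  obtain ⟨e, he⟩ : ∃ z : ℕ, z = m - 3 * s - 6 := ⟨_, rfl⟩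
  have hem : e + 3 * s + 6 = m := by omega
  obtain ⟨K, hK⟩ : ∃ z : ℕ, z = 2 ^ (41 * r) := ⟨_, rfl⟩
  obtain ⟨M, hM⟩ : ∃ z : ℕ, z = 2 * m * K := ⟨_, rfl⟩
  obtain ⟨t, ht⟩ : ∃ z : ℕ, z = 85 * r := ⟨_, rfl⟩
  obtain ⟨w, hw⟩ : ∃ z : ℕ, z = e + 4 + t := ⟨_, rfl⟩
  obtain ⟨B0, hB0⟩ : ∃ z : ℕ, z = M := ⟨_, rfl⟩
  obtain ⟨A0, hA0⟩ : ∃ z : ℕ, z = M + w + 8 + N + s := ⟨_, rfl⟩
  obtain ⟨nb, hnb⟩ : ∃ z : ℕ, z = 2 ^ (336 * r) := ⟨_, rfl⟩
  obtain ⟨na, hna⟩ : ∃ z : ℕ, z = 2 ^ (381 * r) := ⟨_, rfl⟩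
  obtain ⟨n, hn⟩ : ∃ z : ℕ, z = 4 * (A0 + na + M + B0 + nb) := ⟨_, rfl⟩
  obtain ⟨Q1, hQ1⟩ : ∃ z : ℕ, z = 3 * 2 ^ (s + A0 + na + M + B0 + nb) := ⟨_, rfl⟩
  have hKr : (K : ℝ) = y ^ 41 := by rw [hK, hy]; push_cast; rw [← pow_mul]; congr 1; ring
  have hnbr : (nb : ℝ) = y ^ 336 := by rw [hnb, hy]; push_cast; rw [← pow_mul]; congr 1; ring
  have hnar : (na : ℝ) = y ^ 381 := by rw [hna, hy]; push_cast; rw [← pow_mul]; congr 1; ring
  have hmr : (2 : ℝ) ^ m = y ^ 40 := by rw [hm, hy, ← pow_mul]; congr 1; ring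
  have htr : (2 : ℝ) ^ t = y ^ 85 := by rw [ht, hy, ← pow_mul]; congr 1; ring
  have hpow : ∀ {i j : ℕ}, i ≤ j → y ^ i ≤ y ^ j := fun h => pow_le_pow_right₀ hy1 h
  have hMr : (M : ℝ) ≤ y ^ 42 := by
    rw [hM]; push_cast; rw [hKr, hm]; push_cast
    have : 2 * (40 * (r : ℝ)) ≤ y := by linarith
    calc 2 * (40 * (r : ℝ)) * y ^ 41 ≤ y * y ^ 41 := by gcongr
      _ = y ^ 42 := by ring
  have hM1 : (1 : ℝ) ≤ M := by
    have h1 : 1 ≤ M := by
      rw [hM]
      have : 0 < m := by omega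
      have : 0 < K := by rw [hK]; positivity
      exact Nat.one_le_iff_ne_zero.mpr (by positivity)
    exact_mod_cast h1
  have her : (e : ℝ) ≤ 40 * r := by
    have : e ≤ 40 * r := by omega
    exact_mod_cast this
  have hwr : (w : ℝ) ≤ 125 * r + 4 := by
    rw [hw, ht]; push_cast; linarith
  have hMbig : 41 * r ≤ M := by
    have h1 : 41 * r < 2 ^ (41 * r) := Nat.lt_two_pow_self
    have h2 : 2 ^ (41 * r) ≤ M := by
      rw [hM, hK]
      apply Nat.le_mul_of_pos_left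
      omega
    omega
  -- the sampled system
  obtain ⟨S, hdom, hpt⟩ := exists_sys E hE hc hv n g hg1 hg2
  -- bound on the logarithm
  have hlogQ : ∀ q : ℕ, q ≤ Q1 → Real.log q ≤ (y ^ 39) ^ 10 := by
    intro q hq
    have hlg : Real.log 2 ≤ 1 := by
      have := Real.log_two_lt_d9; linarith
    have h1 : Real.log q ≤ (2 + (s + A0 + na + M + B0 + nb) : ℕ) := by
      rcases Nat.eq_zero_or_pos q with h0 | h0
      · rw [h0]; simp only [Nat.cast_zero, Real.log_zero]; positivity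
      · have h2 : (q : ℝ) ≤ 2 ^ (2 + (s + A0 + na + M + B0 + nb)) := by
          have h3 : q ≤ 2 ^ (2 + (s + A0 + na + M + B0 + nb)) := by
            rw [pow_add]
            refine hq.trans ?_
            rw [hQ1]
            apply Nat.mul_le_mul_right; norm_num
          exact_mod_cast h3
        have h4 := Real.log_le_log (by exact_mod_cast h0) h2
        rw [Real.log_pow] at h4
        refine h4.trans ?_
        have : (0 : ℝ) ≤ ((2 + (s + A0 + na + M + B0 + nb) : ℕ) : ℝ) := Nat.cast_nonneg _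
        nlinarith
    refine h1.trans ?_
    push_cast
    rw [hA0, hnar, hnbr, hB0]
    push_cast
    have i1 := hpow (show 42 ≤ 382 by norm_num)
    have i2 := hpow (show 336 ≤ 382 by norm_num)
    have i3 := hpow (show 381 ≤ 382 by norm_num)
    have i4 := hpow (show 1 ≤ 382 by norm_num)
    rw [pow_one] at i4
    have i5 : (s : ℝ) ≤ y := by
      have : s ≤ r := by omega
      have h' : (s : ℝ) ≤ r := by exact_mod_cast this
      linarith
    have i6 : (N : ℝ) ≤ y := by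
      have : N ≤ r := by omega
      have h' : (N : ℝ) ≤ r := by exact_mod_cast this
      linarith
    have i7 : (w : ℝ) ≤ y := by linarith
    have e1 : (y ^ 39) ^ 10 = y ^ 8 * y ^ 382 := by rw [← pow_mul, ← pow_add]
    have e2 : 100 ≤ y ^ 8 := by
      have : y ^ 1 ≤ y ^ 8 := hpow (by norm_num)
      rw [pow_one] at this; linarith
    rw [e1]
    have e3 : 100 * y ^ 382 ≤ y ^ 8 * y ^ 382 := by gcongr
    linarith
  have hbadS : S.Bad N Q1 (1 / 2 ^ e) := by
    intro ω hω q hq1 hq2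
    obtain ⟨x, hxE, hx1, hx2, hx3, hx4⟩ := hpt ω hω
    have h1 := hbad x hxE q hq1
    rw [hx1, hx2, hx3, hx4]
    have h2 : (q : ℝ) * ‖((q * x.1 - (g x).1 : ℝ) : TT)‖ * ‖((q * x.2 - (g x).2 : ℝ) : TT)‖ = q * prd q x (g x) := by
      unfold prd; ring
    rw [h2]
    have hP : 0 ≤ (q : ℝ) * prd q x (g x) := mul_nonneg (Nat.cast_nonneg _) (prd_nonneg _ _ _)
    have h3 : (Real.log q) ^ (1 / 10 : ℝ) ≤ y ^ 39 := by
      have h4 := hlogQ q hq2
      have h0 : 0 ≤ Real.log q := Real.log_natCast_nonneg q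
      calc (Real.log q) ^ (1 / 10 : ℝ) ≤ ((y ^ 39) ^ 10) ^ (1 / 10 : ℝ) := Real.rpow_le_rpow h0 h4 (by norm_num)
        _ = y ^ 39 := by
          have := Real.pow_rpow_inv_natCast (x := y ^ 39) (by positivity) (n := 10) (by norm_num)
          rw [one_div]; exact_mod_cast this
    have h5 : η ≤ (q * prd q x (g x)) * y ^ 39 := by
      calc η ≤ q * (Real.log q) ^ (1 / 10 : ℝ) * prd q x (g x) := h1
        _ = (q * prd q x (g x)) * (Real.log q) ^ (1 / 10 : ℝ) := by ring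
        _ ≤ _ := by gcongr
    have h6 : (2 : ℝ) ^ e * 2 ^ (3 * s + 6) = y ^ 40 := by
      rw [← hmr, ← pow_add, hem.symm]; congr 1
    have h7 : (2 : ℝ) ^ (3 * s + 6) ≤ y * η := by
      rw [div_le_iff₀ hη] at hyη; exact hyη
    have h8 : y ^ 39 ≤ η * 2 ^ e := by
      have h9 : y ^ 39 * 2 ^ (3 * s + 6) ≤ (η * 2 ^ e) * 2 ^ (3 * s + 6) := by
        calc y ^ 39 * 2 ^ (3 * s + 6) ≤ y ^ 39 * (y * η) := by gcongr
          _ = η * y ^ 40 := by ring
          _ = _ := by rw [← h6]; ring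
      exact le_of_mul_le_mul_right h9 (by positivity)
    have h10 : η * 1 ≤ η * ((q * prd q x (g x)) * 2 ^ e) := by
      calc η * 1 = η := mul_one _
        _ ≤ (q * prd q x (g x)) * y ^ 39 := h5
        _ ≤ (q * prd q x (g x)) * (η * 2 ^ e) := by gcongr
        _ = _ := by ring
    have h11 := le_of_mul_le_mul_left h10 hη
    rw [div_le_iff₀ (by positivity)]; exact h11
  -- the main inequality
  have key := S.contr hC0 hdom (q0 := N) (Q1 := Q1) (e := e) (s := s) (m := m) (K := K) (t := t) (w := w)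
    (A0 := A0) (B0 := B0) (na := na) (nb := nb) hbadS
    (by
      intro a b ha hb
      exact ⟨hw, by rw [← hM]; omega, by rw [← hM]; omega, by omega, by rw [← hM]; omega⟩)
    (by omega) (by omega) hem.le
    (by
      have h1 : N < 2 ^ N := Nat.lt_two_pow_self
      have h2 : 2 ^ N ≤ 2 ^ (A0 + B0) := Nat.pow_le_pow_right (by norm_num) (by omega)
      omega)
    (by rw [← hM]; exact hQ1.ge) (by rw [← hM]; exact hn.ge)
  have hMc : (2 * (m : ℝ) * K) = M := by rw [hM]; push_cast; ring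
  rw [hMc, ← hM] at key
  have hlg0 : 0 < Real.log 2 := Real.log_pos (by norm_num)
  have hlg1 : Real.log 2 ≤ 1 := by
    have := Real.log_two_lt_d9; linarith
  have hna0 : 0 < (na : ℝ) := by rw [hnar]; positivity
  have hnb0 : 0 < (nb : ℝ) := by rw [hnbr]; positivity
  have hM0 : 0 < (M : ℝ) := by linarith
  have hMl : (M : ℝ) * Real.log 2 + 1 ≤ 2 * y ^ 42 := by nlinarith
  have hMl0 : 0 ≤ (M : ℝ) * Real.log 2 := by positivity
  have hMl' : (M : ℝ) * Real.log 2 ≤ y ^ 42 := by nlinarith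
  -- (I)
  have hI : y / 2 ≤ K * ((1 - C * (8 / (2 ^ s) ^ 2)) / 2 ^ m) := by
    have h1 : C * (8 / (2 ^ s) ^ 2) ≤ 1 / 2 := by
      have h2 : (1 : ℝ) ≤ 2 ^ s := one_le_pow₀ (by norm_num)
      have h3 : 16 * C ≤ (2 ^ s) ^ 2 := by nlinarith
      rw [mul_div_assoc', div_le_div_iff₀ (by positivity) (by norm_num)]; linarith
    rw [hKr, hmr]
    have h2 : (1 / 2 : ℝ) ≤ 1 - C * (8 / (2 ^ s) ^ 2) := by linarith
    calc y / 2 = y ^ 41 * ((1 / 2) / y ^ 40) := by field_simp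
      _ ≤ _ := by gcongr
  -- (II)
  have hII : (nb : ℝ) * M * ((A0 + 4 * M + B0 + nb) * Real.log 2 + Real.log C) ≤ na * nb := by
    have h1 : Real.log C ≤ y := by
      have := Real.log_le_sub_one_of_pos hC0
      linarith
    have h2 : ((A0 : ℝ) + 4 * M + B0 + nb) ≤ y ^ 337 := by
      rw [hA0, hB0, hnbr]; push_cast
      have i1 := hpow (show 42 ≤ 336 by norm_num)
      have i4 := hpow (show 1 ≤ 336 by norm_num)
      rw [pow_one] at i4
      have i5 : (s : ℝ) ≤ y := by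
        have : s ≤ r := by omega
        have h' : (s : ℝ) ≤ r := by exact_mod_cast this
        linarith
      have i6 : (N : ℝ) ≤ y := by
        have : N ≤ r := by omega
        have h' : (N : ℝ) ≤ r := by exact_mod_cast this
        linarith
      have i7 : (w : ℝ) ≤ y := by linarith
      have e1 : y ^ 337 = y * y ^ 336 := by ring
      rw [e1]
      have e3 : 100 * y ^ 336 ≤ y * y ^ 336 := by gcongr
      linarith
    have h3 : ((A0 : ℝ) + 4 * M + B0 + nb) * Real.log 2 + Real.log C ≤ y ^ 338 := by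
      have h4 : ((A0 : ℝ) + 4 * M + B0 + nb) * Real.log 2 ≤ y ^ 337 * 1 := by
        apply mul_le_mul h2 hlg1 hlg0.le (by positivity)
      have i4 := hpow (show 1 ≤ 337 by norm_num)
      rw [pow_one] at i4
      have e1 : y ^ 338 = y * y ^ 337 := by ring
      rw [e1]
      have e3 : 100 * y ^ 337 ≤ y * y ^ 337 := by gcongr
      linarith
    calc (nb : ℝ) * M * ((A0 + 4 * M + B0 + nb) * Real.log 2 + Real.log C) ≤ nb * M * y ^ 338 :=
          mul_le_mul_of_nonneg_left h3 (by positivity)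
      _ ≤ nb * y ^ 42 * y ^ 338 := by gcongr
      _ = nb * y ^ 380 := by ring
      _ ≤ nb * y ^ 381 := by
          have := hpow (show 380 ≤ 381 by norm_num)
          gcongr
      _ = na * nb := by rw [hnar]; ring
  -- (III)
  have h2e : (2 : ℝ) ^ e ≤ y ^ 40 := by
    rw [← hmr]; exact pow_le_pow_right₀ (by norm_num) (by omega)
  have hIII : cst2 M e t * (na * (M * (M * Real.log 2))) ≤ na * nb := by
    have h1 : cst2 M e t ≤ y ^ 252 := by
      unfold cst2
      have e1 : (1 : ℝ) / 2 ^ (e + t + 6) = 1 / (2 ^ e * 2 ^ t * 64) := by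
        rw [pow_add, pow_add]; norm_num
      rw [e1, htr]
      calc 2 * (M * Real.log 2) * (8 * (M * Real.log 2 + 1) ^ 2 / (1 / (2 ^ e * y ^ 85 * 64)))
          ≤ 2 * y ^ 42 * (8 * (2 * y ^ 42) ^ 2 / (1 / (y ^ 40 * y ^ 85 * 64))) := by gcongr
        _ = 4096 * y ^ 251 := by field_simp; ring
        _ ≤ y * y ^ 251 := by gcongr; linarith [hr5, show (12 : ℝ) ≤ r by exact_mod_cast hr12]
        _ = y ^ 252 := by ring
    have h2 : (M : ℝ) * (M * Real.log 2) ≤ y ^ 84 := by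
      calc (M : ℝ) * (M * Real.log 2) ≤ y ^ 42 * y ^ 42 := by gcongr
        _ = y ^ 84 := by ring
    calc cst2 M e t * (na * (M * (M * Real.log 2))) ≤ y ^ 252 * (na * y ^ 84) := by
          gcongr
      _ = na * y ^ 336 := by ring
      _ = na * nb := by rw [hnbr]
  -- (IV)
  have hIV : cst1 M e t w C ≤ 1200 * r := by
    unfold cst1
    have h12 : (12 : ℝ) ≤ r := by exact_mod_cast hr12
    have h1 : Real.log (8 * Real.exp 2 * (M * Real.log 2 + 1) ^ 2 / (1 / 2 ^ (5 * w + 2 * t + 2 * e + 38))) ≤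
        1100 * r := by
      rw [div_div_eq_mul_div, div_one, Real.log_mul (by positivity) (by positivity),
        Real.log_mul (by positivity) (by positivity), Real.log_mul (by norm_num) (Real.exp_pos _).ne', Real.log_exp,
        Real.log_pow, Real.log_pow]
      have a1 : Real.log 8 ≤ 7 := by
        have := Real.log_le_sub_one_of_pos (show (0 : ℝ) < 8 by norm_num)
        linarith
      have a2 : Real.log (M * Real.log 2 + 1) ≤ 43 * r := by
        have b1 : (M * Real.log 2 + 1 : ℝ) ≤ 2 ^ (43 * r) := by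
          have : (2 : ℝ) ^ (43 * r) = y ^ 43 := by rw [hy, ← pow_mul]; congr 1; ring
          rw [this]
          calc (M * Real.log 2 + 1 : ℝ) ≤ 2 * y ^ 42 := hMl
            _ ≤ y * y ^ 42 := by gcongr; linarith
            _ = y ^ 43 := by ring
        have b2 := Real.log_le_log (by positivity) b1
        rw [Real.log_pow] at b2
        push_cast at b2
        nlinarith
      have a3 : ((5 * w + 2 * t + 2 * e + 38 : ℕ) : ℝ) * Real.log 2 ≤ 5 * (125 * r + 4) + 2 * (85 * r) + 2 * (40 * r) + 38 := by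
        push_cast
        have b0 : (0 : ℝ) ≤ 5 * w + 2 * t + 2 * e + 38 := by positivity
        have b1 : (t : ℝ) = 85 * r := by rw [ht]; push_cast; ring
        calc (5 * (w : ℝ) + 2 * t + 2 * e + 38) * Real.log 2 ≤ (5 * (w : ℝ) + 2 * t + 2 * e + 38) * 1 := by gcongr
          _ ≤ _ := by rw [b1]; linarith
      push_cast at a3 ⊢
      linarith
    have h2 : 2 * (M * Real.log 2) * (4 * (M * Real.log 2 + 1) * (C * (256 / 2 ^ t))) ≤ 1 := by
      rw [htr]
      calc 2 * (M * Real.log 2) * (4 * (M * Real.log 2 + 1) * (C * (256 / y ^ 85)))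
          ≤ 2 * y ^ 42 * (4 * (2 * y ^ 42) * (C * (256 / y ^ 85))) := by gcongr
        _ = (4096 * C) / y := by field_simp; norm_num
        _ ≤ 1 := by rw [div_le_one hy0]; exact hyC
    linarith
  -- conclusion
  have h1 : (na : ℝ) * nb * (y / 2) ≤ na * nb * (1 + 1200 * r + 1) := by
    have a0 : (na : ℝ) * nb * (y / 2) ≤ na * nb * (K * ((1 - C * (8 / (2 ^ s) ^ 2)) / 2 ^ m)) := by gcongr
    have a1 : (na : ℝ) * nb * cst1 M e t w C ≤ na * nb * (1200 * r) := by gcongr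
    have a2 : (na : ℝ) * nb * (1 + 1200 * r + 1) = na * nb + na * nb * (1200 * r) + na * nb := by ring
    rw [a2]
    linarith
  have h2 := le_of_mul_le_mul_left h1 (by positivity)
  linarith

end Run7.h297
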