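import Pool.Agent.Run7.h297.TwoB

set_option autoImplicit false

/-! The gain from killed cells. -/

noncomputable section

namespace Run7.h297

open Real Finset MeasureTheory

/-- generic points for the coarse covering property -/
def G1 (a b s : ℕ) : Set (TT × TT) :=
  {x | SS (2 ^ (s + a + b)) (2 ^ s / (8 * 2 ^ a)) (1 / 2 ^ b) 0 x 0 - (2 ^ (s + a + b) : ℕ) * ((2 ^ s / (8 * 2 ^ a)) * (1 / 2 ^ b)) <
    (2 ^ (s + a + b) : ℕ) * ((2 ^ s / (8 * 2 ^ a)) * (1 / 2 ^ b))}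

theorem V1_eq (a b s : ℕ) : ((2 ^ (s + a + b) : ℕ) : ℝ) * ((2 ^ s / (8 * 2 ^ a)) * (1 / 2 ^ b)) = (2 ^ s) ^ 2 / 8 := by
  push_cast
  rw [pow_add, pow_add]; field_simp

theorem meas_G1 {a b s : ℕ} (h1 : s ≤ a) (h2 : 1 ≤ b) : volume (G1 a b s)ᶜ ≤ ENNReal.ofReal (8 / (2 ^ s) ^ 2) := by
  have k1 : (2 : ℝ) ^ s ≤ 2 ^ a := pow_le_pow_right₀ (by norm_num) h1
  have k2 : (2 : ℝ) ≤ 2 ^ b := by
    calc (2 : ℝ) = 2 ^ 1 := by norm_num
      _ ≤ 2 ^ b := pow_le_pow_right₀ (by norm_num) h2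
  have hV := V1_eq a b s
  have h := meas_nontriv (Q := 2 ^ (s + a + b)) (Nat.pos_of_ne_zero (by positivity)) (δ₁ := 2 ^ s / (8 * 2 ^ a))
    (δ₂ := 1 / 2 ^ b) (by positivity)
    (by rw [div_le_div_iff₀ (by positivity) (by norm_num)]; nlinarith [show (0 : ℝ) < 2 ^ a by positivity])
    (by positivity) (by rw [div_le_div_iff₀ (by positivity) (by norm_num)]; linarith)
    (t := (2 ^ s) ^ 2 / 8) (by positivity)
  have e : (1 : ℝ) / ((2 ^ s) ^ 2 / 8) = 8 / (2 ^ s) ^ 2 := by field_simp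
  rw [e] at h
  refine le_trans (measure_mono ?_) h
  intro x hx
  unfold G1 at hx
  simp only [Set.mem_compl_iff, Set.mem_ofPred_eq, not_lt] at hx ⊢
  rw [hV] at hx ⊢
  exact hx

theorem hit_G1 {a b s : ℕ} (h1 : s ≤ a) (h2 : 1 ≤ b) {x : TT × TT} (hx : x ∈ G1 a b s) (g : TT × TT) :
    ∃ n : ℕ, 2 ^ (s + a + b) < n ∧ n < 3 * 2 ^ (s + a + b) ∧ ‖(n : ℤ) • x.1 - g.1‖ < 2 ^ s / (8 * 2 ^ a) ∧
      ‖(n : ℤ) • x.2 - g.2‖ < 1 / 2 ^ b := by
  have k1 : (2 : ℝ) ^ s ≤ 2 ^ a := pow_le_pow_right₀ (by norm_num) h1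
  have k2 : (2 : ℝ) ≤ 2 ^ b := by
    calc (2 : ℝ) = 2 ^ 1 := by norm_num
      _ ≤ 2 ^ b := pow_le_pow_right₀ (by norm_num) h2
  have h := SS_ge (Q := 2 ^ (s + a + b)) (Nat.pos_of_ne_zero (by positivity)) (δ₁ := 2 ^ s / (8 * 2 ^ a))
    (δ₂ := 1 / 2 ^ b) (by positivity)
    (by rw [div_le_div_iff₀ (by positivity) (by norm_num)]; nlinarith [show (0 : ℝ) < 2 ^ a by positivity])
    (by positivity) (by rw [div_le_div_iff₀ (by positivity) (by norm_num)]; linarith)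
    (2 * (2 ^ (s + a + b) : ℕ) : ℤ) x g
  apply hit_of_SS (by positivity) (by positivity)
  have hx' : SS (2 ^ (s + a + b)) (2 ^ s / (8 * 2 ^ a)) (1 / 2 ^ b) 0 x 0 - (2 ^ (s + a + b) : ℕ) * ((2 ^ s / (8 * 2 ^ a)) * (1 / 2 ^ b)) <
    (2 ^ (s + a + b) : ℕ) * ((2 ^ s / (8 * 2 ^ a)) * (1 / 2 ^ b)) := hx
  have hpos : 0 < SS (2 ^ (s + a + b)) (2 ^ s / (8 * 2 ^ a)) (1 / 2 ^ b) (2 * (2 ^ (s + a + b) : ℕ) : ℤ) x g := by
    linarith
  exact hpos.ne'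

theorem find_star {i u n : ℕ} {x g δ : ℝ} (hn : 0 < n)
    (h1 : (u : ℝ) / 2 ^ i ≤ x) (h2 : x < (u + 1) / 2 ^ i) (hδ : 2 * δ / n ≤ 1 / (4 * 2 ^ i))
    (hh : ((x < (u + 1 / 2) / 2 ^ i) ∧ ‖((n * x - (g - δ) : ℝ) : TT)‖ < δ) ∨
      (((u + 1 / 2 : ℝ) / 2 ^ i ≤ x) ∧ ‖((n * x - (g + δ) : ℝ) : TT)‖ < δ)) :
    ∃ y : ℝ, (u : ℝ) / 2 ^ i ≤ y ∧ y < (u + 1) / 2 ^ i ∧ ((n * y - g : ℝ) : TT) = 0 := by
  have hn' : (0 : ℝ) < n := by exact_mod_cast hn
  have hi : (0 : ℝ) < 2 ^ i := by positivity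
  have hz : ∀ k : ℤ, (((k : ℝ)) : TT) = 0 := by
    intro k
    rw [AddCircle.coe_eq_zero_iff]
    exact ⟨k, by simp⟩
  have e4 : 1 / (4 * (2 : ℝ) ^ i) = (1 / 4) / 2 ^ i := by field_simp
  rw [e4] at hδ
  rcases hh with ⟨hx, hnorm⟩ | ⟨hx, hnorm⟩
  · rw [UnitAddCircle.norm_eq, abs_lt] at hnorm
    set k := round (n * x - (g - δ)) with hk
    set θ := n * x - (g - δ) - k with hθ
    refine ⟨x + (δ - θ) / n, ?_, ?_, ?_⟩
    · have : 0 ≤ (δ - θ) / n := div_nonneg (by linarith [hnorm.2]) hn'.le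
      linarith
    · have h5 : (δ - θ) / n ≤ 2 * δ / n := by
        apply div_le_div_of_nonneg_right _ hn'.le
        linarith [hnorm.1]
      have e1 : ((u : ℝ) + 1 / 2) / 2 ^ i + (1 / 4) / 2 ^ i < (u + 1) / 2 ^ i := by
        rw [← add_div]
        apply div_lt_div_of_pos_right _ hi; linarith
      linarith
    · have : (n * (x + (δ - θ) / n) - g : ℝ) = k := by
        rw [hθ]; field_simp; ring
      rw [this]; exact hz k
  · rw [UnitAddCircle.norm_eq, abs_lt] at hnorm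
    set k := round (n * x - (g + δ)) with hk
    set θ := n * x - (g + δ) - k with hθ
    refine ⟨x - (δ + θ) / n, ?_, ?_, ?_⟩
    · have h5 : (δ + θ) / n ≤ 2 * δ / n := by
        apply div_le_div_of_nonneg_right _ hn'.le
        linarith [hnorm.2]
      have e1 : (u : ℝ) / 2 ^ i ≤ ((u : ℝ) + 1 / 2) / 2 ^ i - (1 / 4) / 2 ^ i := by
        rw [← sub_div]
        apply div_le_div_of_nonneg_right _ hi.le; linarith
      linarith
    · have : 0 ≤ (δ + θ) / n := div_nonneg (by linarith [hnorm.1]) hn'.le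
      linarith
    · have : (n * (x - (δ + θ) / n) - g : ℝ) = k := by
        rw [hθ]; field_simp; ring
      rw [this]; exact hz k

theorem mem_of_dig {k u : ℕ} {t : ℝ} (h0 : 0 ≤ t) (h : dig k t = u) :
    (u : ℝ) / 2 ^ k ≤ t ∧ t < (u + 1) / 2 ^ k := by
  have hk : (0 : ℝ) < 2 ^ k := by positivity
  have a1 := dig_le (k := k) h0
  have a2 := lt_dig (k := k) t
  rw [h] at a1 a2
  constructor
  · rw [div_le_iff₀ hk]; linarith
  · rw [lt_div_iff₀ hk]; linarith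

variable {Ω : Type*} [Fintype Ω] (S : Sys Ω)

theorem Sys.kill {q0 Q1 : ℕ} {a b e s m : ℕ} (h1 : s ≤ a) (h2 : 1 ≤ b) (hm : e + 3 * s + 6 ≤ m)
    (hbad : S.Bad q0 Q1 (1 / 2 ^ e)) (hq0 : q0 ≤ 2 ^ (s + a + b)) (hQ1 : 3 * 2 ^ (s + a + b) ≤ Q1)
    (v : ℕ × ℕ × ℕ × ℕ) (hg : good (G1 a b s) (2 * a + b) (a + 2 * b) v.1 v.2.1) :
    ∃ u : ℕ, u ∈ Finset.Ico (v.1 * 2 ^ m) (v.1 * 2 ^ m + 2 ^ m) ∧
      ∀ ω, 0 < S.p ω → S.xi (2 * a + b) (a + 2 * b) (a + m) b ω = v → dig (2 * a + b + m) (S.α ω) ≠ u := by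
  obtain ⟨x, ⟨x10, x11⟩, ⟨x20, x21⟩, d1, d2, hx⟩ := hg
  obtain ⟨c1, c2⟩ := mem_of_dig x10 d1
  set g : ℝ := (v.2.2.1 : ℝ) / 2 ^ (a + m) with hgdef
  set δ : ℝ := 2 ^ s / (8 * 2 ^ a) with hδ
  set i := 2 * a + b with hi
  have hhit : ∀ t : ℝ, ∃ n : ℕ, 2 ^ (s + a + b) < n ∧ n < 3 * 2 ^ (s + a + b) ∧
      ‖((n * x.1 - t : ℝ) : TT)‖ < δ ∧ ‖((n * x.2 - (v.2.2.2 : ℝ) / 2 ^ b : ℝ) : TT)‖ < 1 / 2 ^ b := by
    intro t
    obtain ⟨n, n1, n2, n3, n4⟩ := hit_G1 h1 h2 hx (((t : ℝ) : TT), (((v.2.2.2 : ℝ) / 2 ^ b : ℝ) : TT))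
    refine ⟨n, n1, n2, ?_, ?_⟩
    · rw [← smul_coe_sub]; exact n3
    · rw [← smul_coe_sub]; exact n4
  have hstar : ∃ n : ℕ, 2 ^ (s + a + b) < n ∧ n < 3 * 2 ^ (s + a + b) ∧
      ‖((n * x.2 - (v.2.2.2 : ℝ) / 2 ^ b : ℝ) : TT)‖ < 1 / 2 ^ b ∧
      ∃ y : ℝ, (v.1 : ℝ) / 2 ^ i ≤ y ∧ y < (v.1 + 1) / 2 ^ i ∧ ((n * y - g : ℝ) : TT) = 0 := by
    have hδn : ∀ n : ℕ, 2 ^ (s + a + b) < n → 2 * δ / n ≤ 1 / (4 * 2 ^ i) := by
      intro n hn
      have hn' : (2 : ℝ) ^ (s + a + b) ≤ n := by exact_mod_cast hn.le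
      rw [pow_add, pow_add] at hn'
      have e1 : (2 : ℝ) ^ i = (2 ^ a) ^ 2 * 2 ^ b := by rw [hi, pow_add, mul_comm 2 a, pow_mul]
      rw [e1, hδ]
      have hnpos : (0 : ℝ) < n := lt_of_lt_of_le (by positivity) hn'
      calc 2 * ((2 : ℝ) ^ s / (8 * 2 ^ a)) / n ≤ 2 * ((2 : ℝ) ^ s / (8 * 2 ^ a)) / (2 ^ s * 2 ^ a * 2 ^ b) := by
            gcongr
        _ = 1 / (4 * ((2 ^ a) ^ 2 * 2 ^ b)) := by field_simp; norm_num
    rcases lt_or_ge x.1 (((v.1 : ℝ) + 1 / 2) / 2 ^ i) with hlt | hge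
    · obtain ⟨n, n1, n2, n3, n4⟩ := hhit (g - δ)
      refine ⟨n, n1, n2, n4, ?_⟩
      exact find_star (by omega) c1 c2 (hδn n n1) (Or.inl ⟨hlt, n3⟩)
    · obtain ⟨n, n1, n2, n3, n4⟩ := hhit (g + δ)
      refine ⟨n, n1, n2, n4, ?_⟩
      exact find_star (by omega) c1 c2 (hδn n n1) (Or.inr ⟨hge, n3⟩)
  obtain ⟨n, n1, n2, n4, y, y1, y2, hy⟩ := hstar
  have hy0 : 0 ≤ y := le_trans (by positivity) y1
  have hdy : dig i y = v.1 := dig_of_mem y1 y2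
  refine ⟨dig (i + m) y, ?_, ?_⟩
  · have := dig_mem (k := i) (k' := i + m) (by omega) (t := y)
    rw [Nat.add_sub_cancel_left, hdy] at this
    exact this
  · intro ω hω hξ hdig
    have hb := hbad ω hω n (by omega) (by omega)
    have f1 : dig (a + m) (S.γ₁ ω) = v.2.2.1 := by rw [← hξ]; rfl
    have f2 : dig b (S.γ₂ ω) = v.2.2.2 := by rw [← hξ]; rfl
    have f3 : dig (a + 2 * b) (S.β ω) = dig (a + 2 * b) x.2 := by rw [d2, ← hξ]; rfl
    have w1 := dig_close (S.hα ω).1 hy0 hdig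
    have w2 := dig_close (S.hβ ω).1 x20 f3
    have w3 : |S.γ₁ ω - g| ≤ 1 / 2 ^ (a + m) := by
      obtain ⟨p1, p2⟩ := mem_of_dig (S.hγ₁ ω).1 f1
      rw [abs_le]
      have : ((v.2.2.1 : ℝ) + 1) / 2 ^ (a + m) = g + 1 / 2 ^ (a + m) := by rw [hgdef]; ring
      rw [this] at p2
      have : (0 : ℝ) < 1 / 2 ^ (a + m) := by positivity
      constructor <;> linarith
    have w4 : |S.γ₂ ω - (v.2.2.2 : ℝ) / 2 ^ b| ≤ 1 / 2 ^ b := by
      obtain ⟨p1, p2⟩ := mem_of_dig (S.hγ₂ ω).1 f2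
      rw [abs_le]
      have : ((v.2.2.2 : ℝ) + 1) / 2 ^ b = (v.2.2.2 : ℝ) / 2 ^ b + 1 / 2 ^ b := by ring
      rw [this] at p2
      have : (0 : ℝ) < 1 / 2 ^ b := by positivity
      constructor <;> linarith
    have s1 := norm_shift n (S.α ω) y (S.γ₁ ω) g
    rw [hy, norm_zero, zero_add] at s1
    have s2 := norm_shift n (S.β ω) x.2 (S.γ₂ ω) ((v.2.2.2 : ℝ) / 2 ^ b)
    have hnR : (n : ℝ) ≤ 3 * (2 ^ s * 2 ^ a * 2 ^ b) := by
      have : (n : ℝ) < ((3 * 2 ^ (s + a + b) : ℕ) : ℝ) := by exact_mod_cast n2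
      push_cast at this; rw [pow_add, pow_add] at this; exact this.le
    have eiM : (2 : ℝ) ^ (i + m) = (2 ^ a) ^ 2 * 2 ^ b * 2 ^ m := by
      rw [hi, pow_add, pow_add, mul_comm 2 a, pow_mul]
    have ej : (2 : ℝ) ^ (a + 2 * b) = 2 ^ a * (2 ^ b) ^ 2 := by
      rw [pow_add, mul_comm 2 b, pow_mul]
    have eam : (2 : ℝ) ^ (a + m) = 2 ^ a * 2 ^ m := pow_add _ _ _
    rw [eiM] at w1
    rw [ej] at w2
    rw [eam] at w3
    have k0 : (1 : ℝ) ≤ 2 ^ s := one_le_pow₀ (by norm_num)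
    have k1 : (1 : ℝ) ≤ 2 ^ e := one_le_pow₀ (by norm_num)
    have k2 : (1 : ℝ) ≤ 2 ^ a := one_le_pow₀ (by norm_num)
    have k3 : (1 : ℝ) ≤ 2 ^ b := one_le_pow₀ (by norm_num)
    have k4 : (64 : ℝ) * (2 ^ e * (2 ^ s) ^ 3) ≤ 2 ^ m := by
      have : (2 : ℝ) ^ (6 + (e + s * 3)) ≤ 2 ^ m := pow_le_pow_right₀ (by norm_num) (by omega)
      rw [pow_add, pow_add, pow_mul] at this; norm_num at this; exact this
    set Sa : ℝ := 2 ^ s
    set Ea : ℝ := 2 ^ e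
    set Ma : ℝ := 2 ^ m
    set Aa : ℝ := 2 ^ a
    set Ba : ℝ := 2 ^ b
    have A0 : 0 < Aa := by linarith
    have B0 : 0 < Ba := by linarith
    have S0 : 0 < Sa := by linarith
    have E0 : 0 < Ea := by linarith
    have M0 : 0 < Ma := lt_of_lt_of_le (by positivity) k4
    clear_value Aa Ba Sa Ea Ma
    have u1 : (n : ℝ) * |S.α ω - y| ≤ 3 * Sa / (Ma * Aa) := by
      calc _ ≤ (3 * (Sa * Aa * Ba)) * (1 / (Aa ^ 2 * Ba * Ma)) := by gcongr
        _ = 3 * Sa / (Ma * Aa) := by field_simp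
    have u2 : (n : ℝ) * |S.β ω - x.2| ≤ 3 * Sa / Ba := by
      calc _ ≤ (3 * (Sa * Aa * Ba)) * (1 / (Aa * Ba ^ 2)) := by gcongr
        _ = 3 * Sa / Ba := by field_simp
    have v1 : ‖((n * S.α ω - S.γ₁ ω : ℝ) : TT)‖ ≤ 4 * Sa / (Ma * Aa) := by
      have e1 : 4 * Sa / (Ma * Aa) = 3 * Sa / (Ma * Aa) + Sa / (Ma * Aa) := by ring
      have e2 : 1 / (Aa * Ma) ≤ Sa / (Ma * Aa) := by
        rw [mul_comm Aa Ma]
        apply div_le_div_of_nonneg_right k0 (by positivity)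
      linarith
    have v2 : ‖((n * S.β ω - S.γ₂ ω : ℝ) : TT)‖ ≤ 5 * Sa / Ba := by
      have e1 : 5 * Sa / Ba = 3 * Sa / Ba + Sa / Ba + Sa / Ba := by ring
      have e2 : 1 / Ba ≤ Sa / Ba := div_le_div_of_nonneg_right k0 (by positivity)
      linarith
    have : (n : ℝ) * ‖((n * S.α ω - S.γ₁ ω : ℝ) : TT)‖ * ‖((n * S.β ω - S.γ₂ ω : ℝ) : TT)‖ < 1 / Ea := by
      calc _ ≤ (3 * (Sa * Aa * Ba)) * (4 * Sa / (Ma * Aa)) * (5 * Sa / Ba) := by gcongr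
        _ = 60 * Sa ^ 3 / Ma := by field_simp; norm_num
        _ < 1 / Ea := by
          rw [div_lt_div_iff₀ M0 E0]
          have : 0 < Ea * Sa ^ 3 := by positivity
          nlinarith
    linarith

theorem card_filter_div {c M m u : ℕ} (hu : u ∈ Finset.Ico (c * 2 ^ m) (c * 2 ^ m + 2 ^ m)) (hM : M = 2 ^ m * 2 ^ m) :
    ((Finset.Ico (c * M) (c * M + M)).filter (fun w => w / 2 ^ m ≠ u)).card ≤ M - 2 ^ m := by
  have hpos : 0 < 2 ^ m := by positivity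
  have hsub : (Finset.Ico (c * M) (c * M + M)).filter (fun w => w / 2 ^ m ≠ u) ⊆
      (Finset.Ico (c * M) (c * M + M)) \ (Finset.Ico (u * 2 ^ m) (u * 2 ^ m + 2 ^ m)) := by
    intro w hw
    rw [Finset.mem_filter] at hw
    rw [Finset.mem_sdiff]
    refine ⟨hw.1, ?_⟩
    intro h
    apply hw.2
    rw [Finset.mem_Ico] at h
    apply Nat.div_eq_of_lt_le
    · exact h.1
    · calc w < u * 2 ^ m + 2 ^ m := h.2
        _ = (u + 1) * 2 ^ m := by ring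
  have hsub2 : Finset.Ico (u * 2 ^ m) (u * 2 ^ m + 2 ^ m) ⊆ Finset.Ico (c * M) (c * M + M) := by
    rw [Finset.mem_Ico] at hu
    intro w hw
    rw [Finset.mem_Ico] at hw ⊢
    rw [hM]
    constructor
    · calc c * (2 ^ m * 2 ^ m) = (c * 2 ^ m) * 2 ^ m := by ring
        _ ≤ u * 2 ^ m := Nat.mul_le_mul_right _ hu.1
        _ ≤ w := hw.1
    · calc w < u * 2 ^ m + 2 ^ m := hw.2
        _ = (u + 1) * 2 ^ m := by ring
        _ ≤ (c * 2 ^ m + 2 ^ m) * 2 ^ m := Nat.mul_le_mul_right _ hu.2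
        _ = c * (2 ^ m * 2 ^ m) + 2 ^ m * 2 ^ m := by ring
  refine (Finset.card_le_card hsub).trans ?_
  rw [Finset.card_sdiff_of_subset hsub2, Nat.card_Ico, Nat.card_Ico]
  omega

open Classical in
theorem Sys.P6 {n : ℕ} {C : ℝ} (hC : 0 ≤ C) (hd : S.Dom n C) {q0 Q1 : ℕ} {a b e s m : ℕ} (h1 : s ≤ a) (h2 : 1 ≤ b)
    (hm : e + 3 * s + 6 ≤ m)
    (hbad : S.Bad q0 Q1 (1 / 2 ^ e)) (hq0 : q0 ≤ 2 ^ (s + a + b)) (hQ1 : 3 * 2 ^ (s + a + b) ≤ Q1)
    (hn1 : 2 * a + b ≤ n) (hn2 : a + 2 * b ≤ n) :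
    S.hh (2 * a + b + 2 * m) (a + 2 * b + m) (a + m) b ≤
      S.hh (2 * a + b) (a + 2 * b) (a + m) b + 3 * m * Real.log 2 - (1 - C * (8 / (2 ^ s) ^ 2)) / 2 ^ m := by
  set i := 2 * a + b with hi
  set j := a + 2 * b with hj
  have hm0 : 0 < m := by omega
  have hM1 : (2 : ℝ) ≤ 2 ^ m := by
    calc (2 : ℝ) = 2 ^ 1 := by norm_num
      _ ≤ 2 ^ m := pow_le_pow_right₀ (by norm_num) hm0
  have hex : ∀ v : ℕ × ℕ × ℕ × ℕ, ∃ u : ℕ, good (G1 a b s) i j v.1 v.2.1 →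
      (u ∈ Finset.Ico (v.1 * 2 ^ m) (v.1 * 2 ^ m + 2 ^ m) ∧
      ∀ ω, 0 < S.p ω → S.xi i j (a + m) b ω = v → dig (i + m) (S.α ω) ≠ u) := by
    intro v
    by_cases hg : good (G1 a b s) i j v.1 v.2.1
    · obtain ⟨u, hu⟩ := S.kill h1 h2 hm hbad hq0 hQ1 v hg
      exact ⟨u, fun _ => hu⟩
    · exact ⟨0, fun h => absurd h hg⟩
  choose us hus using hex
  set K : ℕ × ℕ × ℕ × ℕ → Finset (ℕ × ℕ × ℕ × ℕ) := kids i j (a + m) b (i + 2 * m) (j + m) (a + m) b with hK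
  set A : ℕ × ℕ × ℕ × ℕ → Finset (ℕ × ℕ × ℕ × ℕ) := fun v =>
    if good (G1 a b s) i j v.1 v.2.1 then (K v).filter (fun w => w.1 / 2 ^ m ≠ us v) else K v with hA
  set nn : ℕ × ℕ × ℕ × ℕ → ℝ := fun v =>
    if good (G1 a b s) i j v.1 v.2.1 then 2 ^ (3 * m) * (1 - 1 / 2 ^ m) else 2 ^ (3 * m) with hnn
  have hfac : (0 : ℝ) < 1 - 1 / 2 ^ m := by
    have : (1 : ℝ) / 2 ^ m ≤ 1 / 2 := one_div_le_one_div_of_le (by norm_num) hM1
    linarith
  have key := H_cond_le (p := S.p) S.hp (S.xi i j (a + m) b) (S.xi (i + 2 * m) (j + m) (a + m) b) A nn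
    (by
      intro v
      rw [hnn]; dsimp only
      split_ifs
      · positivity
      · positivity)
    (by
      intro ω hω
      have hk := S.mem_kids (k := i) (l := j) (g := a + m) (f := b) (k' := i + 2 * m) (l' := j + m) (g' := a + m) (f' := b)
        (by omega) (by omega) le_rfl le_rfl ω
      rw [hA]; dsimp only
      split_ifs with hg
      · rw [Finset.mem_filter]
        refine ⟨hk, ?_⟩
        have h3 := (hus _ hg).2 ω hω rfl
        have e1 : (S.xi (i + 2 * m) (j + m) (a + m) b ω).1 = dig (i + m + m) (S.α ω) := by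
          show dig (i + 2 * m) (S.α ω) = _
          congr 1; omega
        rw [e1, dig_div]
        exact h3
      · exact hk)
    (by
      intro v
      rw [hA, hnn]; dsimp only
      have hcK : (K v).card = 2 ^ (3 * m) := by
        rw [hK, card_kids]; congr 1; omega
      split_ifs with hg
      · obtain ⟨hu, _⟩ := hus v hg
        have hsub : (K v).filter (fun w => w.1 / 2 ^ m ≠ us v) ⊆
            ((Finset.Ico (v.1 * 2 ^ (i + 2 * m - i)) (v.1 * 2 ^ (i + 2 * m - i) + 2 ^ (i + 2 * m - i))).filter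
              (fun w => w / 2 ^ m ≠ us v)) ×ˢ
            ((Finset.Ico (v.2.1 * 2 ^ (j + m - j)) (v.2.1 * 2 ^ (j + m - j) + 2 ^ (j + m - j))) ×ˢ
            ((Finset.Ico (v.2.2.1 * 2 ^ (a + m - (a + m))) (v.2.2.1 * 2 ^ (a + m - (a + m)) + 2 ^ (a + m - (a + m)))) ×ˢ
            (Finset.Ico (v.2.2.2 * 2 ^ (b - b)) (v.2.2.2 * 2 ^ (b - b) + 2 ^ (b - b))))) := by
          intro w hw
          rw [Finset.mem_filter, hK] at hw
          unfold kids at hw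
          rw [Finset.mem_product] at hw ⊢
          refine ⟨?_, hw.1.2⟩
          rw [Finset.mem_filter]
          exact ⟨hw.1.1, hw.2⟩
        have hc := Finset.card_le_card hsub
        rw [Finset.card_product, Finset.card_product, Finset.card_product, Nat.card_Ico, Nat.card_Ico, Nat.card_Ico] at hc
        simp only [Nat.add_sub_cancel_left, Nat.sub_self, pow_zero, mul_one] at hc
        have e2 : 2 ^ (2 * m) = 2 ^ m * 2 ^ m := by rw [two_mul, pow_add]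
        have hc2 := card_filter_div (c := v.1) (M := 2 ^ (2 * m)) (m := m) (u := us v) hu e2
        have hc3 : ((K v).filter (fun w => w.1 / 2 ^ m ≠ us v)).card ≤ (2 ^ (2 * m) - 2 ^ m) * 2 ^ m :=
          hc.trans (Nat.mul_le_mul_right _ hc2)
        have hc4 : (((K v).filter (fun w => w.1 / 2 ^ m ≠ us v)).card : ℝ) ≤ (((2 ^ (2 * m) - 2 ^ m) * 2 ^ m : ℕ) : ℝ) := by
          exact_mod_cast hc3
        refine hc4.trans (le_of_eq ?_)
        have hle : 2 ^ m ≤ 2 ^ (2 * m) := Nat.pow_le_pow_right (by norm_num) (by omega)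
        rw [Nat.cast_mul, Nat.cast_sub hle]
        push_cast
        have e3 : (2 : ℝ) ^ (3 * m) = 2 ^ m * 2 ^ m * 2 ^ m := by rw [← pow_add, ← pow_add]; congr 1; omega
        have e4 : (2 : ℝ) ^ (2 * m) = 2 ^ m * 2 ^ m := by rw [← pow_add]; congr 1; omega
        rw [e3, e4]
        field_simp
      · rw [hcK]; push_cast; exact le_rfl)
  rw [S.pair_eq (by omega) (by omega) le_rfl le_rfl] at key
  have hξ : H S.p (S.xi i j (a + m) b) = S.hh i j (a + m) b := rfl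
  rw [hξ] at key
  have hsum : ∑ v ∈ univ.image (S.xi i j (a + m) b), pr S.p (S.xi i j (a + m) b) v * Real.log (nn v) ≤
      3 * m * Real.log 2 - (1 - C * (8 / (2 ^ s) ^ 2)) / 2 ^ m := by
    have hterm : ∀ v ∈ univ.image (S.xi i j (a + m) b), pr S.p (S.xi i j (a + m) b) v * Real.log (nn v) ≤
        pr S.p (S.xi i j (a + m) b) v * (3 * m * Real.log 2 - 1 / 2 ^ m) +
          (if good (G1 a b s) i j v.1 v.2.1 then 0 else pr S.p (S.xi i j (a + m) b) v) * (1 / 2 ^ m) := by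
      intro v _
      have hpr := pr_nonneg S.hp (S.xi i j (a + m) b) v
      have hl3 : Real.log ((2 : ℝ) ^ (3 * m)) = 3 * m * Real.log 2 := by rw [Real.log_pow]; push_cast; ring
      rw [hnn]; dsimp only
      split_ifs with hg
      · rw [Real.log_mul (by positivity) hfac.ne', hl3]
        have hlog : Real.log (1 - 1 / 2 ^ m) ≤ -(1 / 2 ^ m) := by
          have := Real.log_le_sub_one_of_pos hfac
          linarith
        rw [zero_mul, add_zero]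
        apply mul_le_mul_of_nonneg_left _ hpr
        linarith
      · rw [hl3]
        apply le_of_eq; ring
    refine (Finset.sum_le_sum hterm).trans ?_
    rw [Finset.sum_add_distrib, ← Finset.sum_mul, ← Finset.sum_mul, S.sum_pr_xi, one_mul]
    have hmass : ∑ v ∈ univ.image (S.xi i j (a + m) b), (if good (G1 a b s) i j v.1 v.2.1 then 0 else pr S.p (S.xi i j (a + m) b) v) ≤
        C * (8 / (2 ^ s) ^ 2) := by
      have h3 := S.bad_mass hC hd (G1 a b s) (τ := 8 / (2 ^ s) ^ 2) (by positivity) (meas_G1 h1 h2) (k := i) (l := j) hn1 hn2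
      refine le_trans (le_of_eq ?_) h3
      have e1 : ∀ v ∈ univ.image (S.xi i j (a + m) b), (if good (G1 a b s) i j v.1 v.2.1 then 0 else pr S.p (S.xi i j (a + m) b) v) =
          ∑ ω, if S.xi i j (a + m) b ω = v then (if good (G1 a b s) i j (dig i (S.α ω)) (dig j (S.β ω)) then 0 else S.p ω) else 0 := by
        intro v _
        by_cases hg : good (G1 a b s) i j v.1 v.2.1
        · rw [if_pos hg]
          symm
          apply Finset.sum_eq_zero; intro ω _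
          split_ifs with h4 h5
          · rfl
          · exfalso; apply h5; rw [← h4] at hg; exact hg
          · rfl
        · rw [if_neg hg]
          unfold pr
          apply Finset.sum_congr rfl; intro ω _
          split_ifs with h4 h5
          · exfalso; apply hg; rw [← h4]; exact h5
          · rfl
          · rfl
      rw [Finset.sum_congr rfl e1, Finset.sum_comm]
      apply Finset.sum_congr rfl; intro ω _
      rw [Finset.sum_ite_eq, if_pos (Finset.mem_image_of_mem _ (Finset.mem_univ ω))]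
    have h5 : (∑ v ∈ univ.image (S.xi i j (a + m) b), (if good (G1 a b s) i j v.1 v.2.1 then 0 else pr S.p (S.xi i j (a + m) b) v)) * (1 / 2 ^ m) ≤
        C * (8 / (2 ^ s) ^ 2) * (1 / 2 ^ m) := by gcongr
    have e5 : (1 - C * (8 / (2 ^ s) ^ 2)) / (2 : ℝ) ^ m = 1 / 2 ^ m - C * (8 / (2 ^ s) ^ 2) * (1 / 2 ^ m) := by ring
    rw [e5]; linarith
  linarith

end Run7.h297
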