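import Pool.Agent.Run7.h297.Cell
import Pool.Agent.Run7.h297.One

set_option autoImplicit false

/-! The node inequality for the two leading coordinates. -/

noncomputable section

namespace Run7.h297

open Real Finset MeasureTheory

section

variable {Ω : Type*} [Fintype Ω] (S : Sys Ω)

theorem Sys.no_hit {q0 Q1 σ g f e : ℕ} (hbad : S.Bad q0 Q1 (1 / 2 ^ e)) (hq0 : q0 ≤ 2 ^ σ) (hQ1 : 3 * 2 ^ σ ≤ Q1)
    (hV : g + f = σ + e + 7) {x : ℝ × ℝ} {c1 c2 : ℕ} {ω : Ω} (hω : 0 < S.p ω) (h1 : |S.α ω - x.1| ≤ 1 / 2 ^ (σ + g))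
    (h2 : |S.β ω - x.2| ≤ 1 / 2 ^ (σ + f)) (h3 : dig g (S.γ₁ ω) = c1) (h4 : dig f (S.γ₂ ω) = c2)
    (hS : SS (2 ^ σ) (1 / 2 ^ g) (1 / 2 ^ f) (2 * 2 ^ σ) (pt x)
      ((((c1 : ℝ) / 2 ^ g : ℝ) : TT), (((c2 : ℝ) / 2 ^ f : ℝ) : TT)) ≠ 0) : False := by
  have hS' : SS (2 ^ σ) (1 / 2 ^ g) (1 / 2 ^ f) (2 * ((2 ^ σ : ℕ) : ℤ)) (pt x)
      ((((c1 : ℝ) / 2 ^ g : ℝ) : TT), (((c2 : ℝ) / 2 ^ f : ℝ) : TT)) ≠ 0 := by
    push_cast; exact hS
  obtain ⟨n, n1, n2, n3, n4⟩ := hit_of_SS (by positivity) (by positivity) hS'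
  have hb := hbad ω hω n (by omega) (by omega)
  unfold pt at n3 n4
  rw [smul_coe_sub] at n3 n4
  have w3 : |S.γ₁ ω - (c1 : ℝ) / 2 ^ g| ≤ 1 / 2 ^ g := by
    obtain ⟨p1, p2⟩ := mem_of_dig (S.hγ₁ ω).1 h3
    rw [abs_le]
    have : ((c1 : ℝ) + 1) / 2 ^ g = c1 / 2 ^ g + 1 / 2 ^ g := by ring
    rw [this] at p2
    have : (0 : ℝ) < 1 / 2 ^ g := by positivity
    constructor <;> linarith
  have w4 : |S.γ₂ ω - (c2 : ℝ) / 2 ^ f| ≤ 1 / 2 ^ f := by
    obtain ⟨p1, p2⟩ := mem_of_dig (S.hγ₂ ω).1 h4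
    rw [abs_le]
    have : ((c2 : ℝ) + 1) / 2 ^ f = c2 / 2 ^ f + 1 / 2 ^ f := by ring
    rw [this] at p2
    have : (0 : ℝ) < 1 / 2 ^ f := by positivity
    constructor <;> linarith
  have s1 := norm_shift n (S.α ω) x.1 (S.γ₁ ω) ((c1 : ℝ) / 2 ^ g)
  have s2 := norm_shift n (S.β ω) x.2 (S.γ₂ ω) ((c2 : ℝ) / 2 ^ f)
  have hnR : (n : ℝ) ≤ 3 * 2 ^ σ := by
    have : (n : ℝ) < ((3 * 2 ^ σ : ℕ) : ℝ) := by exact_mod_cast n2
    push_cast at this; exact this.le
  have e1 : (2 : ℝ) ^ (σ + g) = 2 ^ σ * 2 ^ g := pow_add _ _ _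
  have e2 : (2 : ℝ) ^ (σ + f) = 2 ^ σ * 2 ^ f := pow_add _ _ _
  have e3 : (2 : ℝ) ^ g * 2 ^ f = 2 ^ σ * 2 ^ e * 128 := by
    rw [← pow_add, hV, pow_add, pow_add]; norm_num
  rw [e1] at h1
  rw [e2] at h2
  set Sa : ℝ := 2 ^ σ with hSa
  set Ga : ℝ := 2 ^ g with hGa
  set Fa : ℝ := 2 ^ f with hFa
  set Ea : ℝ := 2 ^ e with hEa
  have S0 : 0 < Sa := by rw [hSa]; positivity
  have G0 : 0 < Ga := by rw [hGa]; positivity
  have F0 : 0 < Fa := by rw [hFa]; positivity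
  have E0 : 0 < Ea := by rw [hEa]; positivity
  have u1 : (n : ℝ) * |S.α ω - x.1| ≤ 3 / Ga := by
    calc _ ≤ (3 * Sa) * (1 / (Sa * Ga)) := by gcongr
      _ = 3 / Ga := by field_simp
  have u2 : (n : ℝ) * |S.β ω - x.2| ≤ 3 / Fa := by
    calc _ ≤ (3 * Sa) * (1 / (Sa * Fa)) := by gcongr
      _ = 3 / Fa := by field_simp
  have v1 : ‖((n * S.α ω - S.γ₁ ω : ℝ) : TT)‖ ≤ 5 / Ga := by
    have : 5 / Ga = 1 / Ga + 3 / Ga + 1 / Ga := by ring
    linarith
  have v2 : ‖((n * S.β ω - S.γ₂ ω : ℝ) : TT)‖ ≤ 5 / Fa := by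
    have : 5 / Fa = 1 / Fa + 3 / Fa + 1 / Fa := by ring
    linarith
  have : (n : ℝ) * ‖((n * S.α ω - S.γ₁ ω : ℝ) : TT)‖ * ‖((n * S.β ω - S.γ₂ ω : ℝ) : TT)‖ < 1 / Ea := by
    calc _ ≤ (3 * Sa) * (5 / Ga) * (5 / Fa) := by gcongr
      _ = 75 * Sa / (Ga * Fa) := by field_simp; norm_num
      _ < 1 / Ea := by
        rw [e3, div_lt_div_iff₀ (by positivity) E0]
        have : 0 < Sa * Ea := by positivity
        linarith
  linarith

end

/-- parameters -/
def abp (a b k e w : ℕ) : AP := ⟨w, k + 1, k + 1, a + b + k, a + (k + e + 7), b⟩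

/-- admissible exponents -/
structure ExAB (a b k e w t lam : ℕ) : Prop where
  hw : 40 ≤ w
  hew : e + 7 ≤ w
  hk : 4200 * w ≤ k
  ha : 12 * w + k ≤ a
  hb : 2 * (k + 1) ≤ b
  hlg : a + b + 3 * k + e + 9 ≤ 2 ^ w
  hlam : lam + 1 ≤ w
  ht : t + 3 ≤ w
  hlk : lam ≤ k

theorem ExAB.ok {a b k e w t lam : ℕ} (he : ExAB a b k e w t lam) : (abp a b k e w).Ok := by
  obtain ⟨h1, h2, h3, h4, h5, h6, h7, h8, h9⟩ := he
  refine ⟨h1, ?_, ?_, ?_, ?_, ?_, ?_, ?_, ?_, ?_⟩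
  · show k + 1 ≤ k + 1 + w; omega
  · show k + 1 ≤ k + 1 + w; omega
  · show a + b + k ≤ a + (k + e + 7) + b; omega
  · show a + (k + e + 7) + b ≤ a + b + k + w; omega
  · show 4200 * w ≤ k + 1; omega
  · show k + 1 + 12 * w ≤ a + b + k; omega
  · show 2 * (k + 1) ≤ a + (k + e + 7); omega
  · show 2 * (k + 1) ≤ b; omega
  · show a + (k + e + 7) + b + 2 * (k + 1) ≤ 2 ^ w; omega

/-- generic points -/
def Gab (P : AP) (T0 : ℝ) : Set (TT × TT) :=
  {x | Gen3 P x ∧ P.Far x < 1 / (4 * (2 ^ P.w) ^ 3) ∧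
    (1 / ((P.N1 : ℝ) * P.N2)) * ∑ u ∈ range P.N1, ∑ v ∈ range P.N2,
      nret (2 * P.d1) (2 * P.d2) (2 * 2 ^ P.σ) (x + P.gp u v) ^ 2 < T0}

theorem meas_Gab {P : AP} (h : P.Ok) {t : ℕ} (ht : t + 3 ≤ P.w) :
    volume (Gab P (2 ^ 32 * P.V * 2 ^ t))ᶜ ≤ ENNReal.ofReal (2 / 2 ^ t) := by
  obtain ⟨hV1, hV2⟩ := V_bd h
  have hV0 : 0 < P.V := lt_of_lt_of_le (by positivity) hV1
  have hsub : (Gab P (2 ^ 32 * P.V * 2 ^ t))ᶜ ⊆ {x : TT × TT | Gen3 P x}ᶜ ∪ ({x | 1 / (4 * (2 ^ P.w) ^ 3) ≤ P.Far x} ∪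
      {x | 2 ^ 32 * P.V * 2 ^ t ≤ (1 / ((P.N1 : ℝ) * P.N2)) * ∑ u ∈ range P.N1, ∑ v ∈ range P.N2,
        nret (2 * P.d1) (2 * P.d2) (2 * 2 ^ P.σ) (x + P.gp u v) ^ 2}) := by
    intro x hx
    by_contra hcon
    simp only [Set.mem_union, Set.mem_ofPred_eq, Set.mem_compl_iff, not_or, not_le, not_not] at hcon
    exact hx ⟨hcon.1, hcon.2.1, hcon.2.2⟩
  refine (measure_mono hsub).trans ((measure_union_le _ _).trans ?_)
  refine (add_le_add (meas_Gen3 P h) ((measure_union_le _ _).trans (add_le_add (meas_Far h (by positivity))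
    (meas_grid h (by positivity))))).trans ?_
  rw [← ENNReal.ofReal_add (by positivity) (by positivity), ← ENNReal.ofReal_add (by positivity) (by positivity)]
  apply ENNReal.ofReal_le_ofReal
  have hW : (8 : ℝ) * 2 ^ t ≤ 2 ^ P.w := by
    have : (2 : ℝ) ^ (3 + t) ≤ 2 ^ P.w := pow_le_pow_right₀ (by norm_num) (by omega)
    rw [pow_add] at this; norm_num at this; exact this
  have hW2 : (64 : ℝ) ≤ 2 ^ P.w := by
    have : (2 : ℝ) ^ 6 ≤ 2 ^ P.w := pow_le_pow_right₀ (by norm_num) (by have := h.hw; omega)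
    norm_num at this; exact this
  have e1 : (5 : ℝ) / 2 ^ P.w ≤ (5 / 8) / 2 ^ t := by
    rw [div_le_div_iff₀ (by positivity) (by positivity)]; linarith
  have e2 : (9 : ℝ) / (2 ^ P.w) ^ 5 / (1 / (4 * (2 ^ P.w) ^ 3)) ≤ (1 / 8) / 2 ^ t := by
    have : (9 : ℝ) / (2 ^ P.w) ^ 5 / (1 / (4 * (2 ^ P.w) ^ 3)) = 36 / (2 ^ P.w) ^ 2 := by field_simp; norm_num
    rw [this, div_le_div_iff₀ (by positivity) (by positivity)]
    have h3 := mul_le_mul_of_nonneg_right hW2 (show (0 : ℝ) ≤ 2 ^ P.w by positivity)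
    rw [sq]
    linarith
  have e3 : 2 ^ 32 * P.V / (2 ^ 32 * P.V * 2 ^ t) = 1 / 2 ^ t := by field_simp
  rw [e3]
  have e4 : (2 : ℝ) / 2 ^ t = (5 / 8) / 2 ^ t + ((1 / 8) / 2 ^ t + 1 / 2 ^ t) + (1 / 4) / 2 ^ t := by ring
  have e5 : (0 : ℝ) ≤ (1 / 4) / 2 ^ t := by positivity
  linarith

/-- shifted set of generic points -/
def shiftS (G : Set (TT × TT)) (g : TT × TT) : Set (TT × TT) := (fun x => x + g) ⁻¹' G

theorem meas_shiftS (G : Set (TT × TT)) (g : TT × TT) : volume (shiftS G g)ᶜ = volume Gᶜ := by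
  have : (volume : Measure (TT × TT)).IsAddRightInvariant := by
    rw [Measure.volume_eq_prod]; infer_instance
  have e : (shiftS G g)ᶜ = (fun x => x + g) ⁻¹' Gᶜ := rfl
  rw [e]
  exact measure_preimage_add_right volume g Gᶜ

/-- first constant of the node inequality -/
def cA (k lam t : ℕ) (C : ℝ) : ℝ :=
  k * Real.log 2 + Real.log (8 * Real.exp 2 * (k * Real.log 2 + 1) ^ 2 / (2 ^ lam / 2 ^ k)) +
  2 * (k * Real.log 2) * (4 * (k * Real.log 2 + 1) * (C * (2 / 2 ^ t)))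

/-- second constant of the node inequality -/
def cB (k e lam t : ℕ) : ℝ :=
  2 * (k * Real.log 2) * (8 * (k * Real.log 2 + 1) ^ 2 / (1 / 2 ^ (e + 46 + lam + t)))

section

variable {Ω : Type*} [Fintype Ω] (S : Sys Ω)

open Classical in
theorem Sys.P6ab {n : ℕ} {C : ℝ} (hC : 0 ≤ C) (hd : S.Dom n C) {q0 Q1 a b k e w t lam : ℕ}
    (he : ExAB a b k e w t lam) (hbad : S.Bad q0 Q1 (1 / 2 ^ e)) (hq0 : q0 ≤ 2 ^ (a + b + k)) (hQ1 : 3 * 2 ^ (a + b + k) ≤ Q1)
    (hn1 : 2 * a + b + (k + e + 7) ≤ n) (hn2 : a + 2 * b ≤ n) :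
    (S.hh (2 * a + b + (k + e + 7) + k) (a + 2 * b) (a + (k + e + 7)) b - S.hh (2 * a + b + (k + e + 7)) (a + 2 * b) (a + (k + e + 7)) b) +
      (S.hh (2 * a + b + (k + e + 7)) (a + 2 * b + k) (a + (k + e + 7)) b - S.hh (2 * a + b + (k + e + 7)) (a + 2 * b) (a + (k + e + 7)) b) ≤
      cA k lam t C + cB k e lam t *
        (S.hh (2 * a + b + (k + e + 7) + k) (a + 2 * b) (a + (k + e + 7)) b + S.hh (2 * a + b + (k + e + 7)) (a + 2 * b + k) (a + (k + e + 7)) b -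
          S.hh (2 * a + b + (k + e + 7)) (a + 2 * b) (a + (k + e + 7)) b -
          S.hh (2 * a + b + (k + e + 7) + k) (a + 2 * b + k) (a + (k + e + 7)) b) := by
  set i := 2 * a + b + (k + e + 7) with hi
  set j := a + 2 * b with hj
  set g := a + (k + e + 7) with hg
  set P := abp a b k e w with hP
  have hok := he.ok
  obtain ⟨hV1, hV2⟩ := V_bd hok
  have hV0 : 0 < P.V := lt_of_lt_of_le (by positivity) hV1
  set 𝓖 : Set (TT × TT) := shiftS (Gab P (2 ^ 32 * P.V * 2 ^ t)) ((((-(1 / 2 ^ i) : ℝ)) : TT), (((-(1 / 2 ^ j) : ℝ)) : TT)) with h𝓖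
  have hmeas : volume 𝓖ᶜ ≤ ENNReal.ofReal (2 / 2 ^ t) := by
    rw [h𝓖, meas_shiftS]; exact meas_Gab hok he.ht
  set ξ : Ω → ℕ × ℕ × ℕ × ℕ := S.xi i j g b with hξ
  set X : Ω → ℕ := fun ω => dig (i + k) (S.α ω) % 2 ^ k with hX
  set Y : Ω → ℕ := fun ω => dig (j + k) (S.β ω) % 2 ^ k with hY
  have hpos2k : 0 < 2 ^ k := by positivity
  set Tg : ℕ × ℕ × ℕ × ℕ → Finset ℕ := fun v =>
    if good 𝓖 i j v.1 v.2.1 then range (2 ^ k) else ∅ with hTg
  have hXH : H S.p (fun ω => (ξ ω, X ω)) = S.hh (i + k) j g b := by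
    apply H_congr
    intro ω ω'
    rw [pair_eq', S.xi_eq, S.xi_eq, dig_mod (a := i) (M := k)]
    tauto
  have hYH : H S.p (fun ω => (ξ ω, Y ω)) = S.hh i (j + k) g b := by
    apply H_congr
    intro ω ω'
    rw [pair_eq', S.xi_eq, S.xi_eq, dig_mod (a := j) (M := k)]
    tauto
  have hXYH : H S.p (fun ω => (ξ ω, (X ω, Y ω))) = S.hh (i + k) (j + k) g b := by
    apply H_congr
    intro ω ω'
    rw [triple_eq, S.xi_eq, S.xi_eq, dig_mod (a := i) (M := k), dig_mod (a := j) (M := k)]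
    tauto
  have hlogN : Real.log ((2 ^ k : ℕ) : ℝ) = k * Real.log 2 := by
    push_cast; rw [Real.log_pow]
  have hmass : (∑ ω, if Y ω ∈ Tg (ξ ω) then 0 else S.p ω) ≤ C * (2 / 2 ^ t) := by
    have h1 := S.bad_mass hC hd 𝓖 (τ := 2 / 2 ^ t) (by positivity) hmeas (k := i) (l := j) hn1 hn2
    refine le_trans (le_of_eq ?_) h1
    apply Finset.sum_congr rfl; intro ω _
    have e3 : Y ω ∈ Tg (ξ ω) ↔ good 𝓖 i j (dig i (S.α ω)) (dig j (S.β ω)) := by
      rw [hTg]; dsimp only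
      have e0 : good 𝓖 i j (ξ ω).1 (ξ ω).2.1 = good 𝓖 i j (dig i (S.α ω)) (dig j (S.β ω)) := rfl
      rw [e0]
      constructor
      · intro h
        by_contra hc
        rw [if_neg hc] at h
        simp at h
      · intro h
        rw [if_pos h, Finset.mem_range]; exact Nat.mod_lt _ hpos2k
    by_cases h : Y ω ∈ Tg (ξ ω)
    · rw [if_pos h, if_pos (e3.mp h)]
    · rw [if_neg h, if_neg (fun h' => h (e3.mpr h'))]
  have key := NL (p := S.p) S.hp S.hp1 ξ X Y (N := 2 ^ k) Nat.one_le_two_pow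
    (fun ω => Nat.mod_lt _ hpos2k) (fun ω => Nat.mod_lt _ hpos2k) Tg
    (fun v => by
      rw [hTg]; dsimp only
      split_ifs
      · exact Finset.Subset.refl _
      · exact Finset.empty_subset _) (ρ₀ := 2 ^ lam / 2 ^ k) (p₀ := 1 / 2 ^ (e + 46 + lam + t))
    (by positivity)
    (by rw [div_le_one (by positivity)]; exact pow_le_pow_right₀ (by norm_num) he.hlk) (by positivity)
    (by
      intro v hv μ ν m0 m1 n0 n1 l₁ l₂ m2 n2 l0 hl
      have hgood : good 𝓖 i j v.1 v.2.1 := by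
        by_contra hc
        rw [hTg] at n1; dsimp only at n1
        rw [if_neg hc, Finset.sum_empty] at n1
        exact zero_ne_one n1
      have hTv : Tg v = range (2 ^ k) := by rw [hTg]; dsimp only; rw [if_pos hgood]
      rw [hTv] at n1 n2 ⊢
      obtain ⟨x0, ⟨x10, x11⟩, ⟨x20, x21⟩, dg1, dg2, hx0⟩ := hgood
      set X0 : ℝ × ℝ := (x0.1 - 1 / 2 ^ i, x0.2 - 1 / 2 ^ j) with hX0
      have hptX : pt X0 = prj x0 + ((((-(1 / 2 ^ i) : ℝ)) : TT), (((-(1 / 2 ^ j) : ℝ)) : TT)) := by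
        unfold pt prj
        rw [hX0]; dsimp only
        rw [sub_eq_add_neg, sub_eq_add_neg]; rfl
      have hGX : pt X0 ∈ Gab P (2 ^ 32 * P.V * 2 ^ t) := by
        rw [hptX]; exact hx0
      obtain ⟨g1, g2, g3⟩ := hGX
      obtain ⟨c1a, c1b⟩ := mem_of_dig x10 dg1
      obtain ⟨c2a, c2b⟩ := mem_of_dig x20 dg2
      obtain ⟨u0, hu0, hud⟩ := grid_dig (i := i) (k := k) (W := 6 * w) (c := v.1) (X := X0.1)
        (by rw [hX0]; dsimp only
            have : ((v.1 : ℝ) + 1) / 2 ^ i = v.1 / 2 ^ i + 1 / 2 ^ i := by ring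
            linarith)
        (by rw [hX0]; dsimp only; linarith)
      obtain ⟨v0, hv0, hvd⟩ := grid_dig (i := j) (k := k) (W := 6 * w) (c := v.2.1) (X := X0.2)
        (by rw [hX0]; dsimp only
            have : ((v.2.1 : ℝ) + 1) / 2 ^ j = v.2.1 / 2 ^ j + 1 / 2 ^ j := by ring
            linarith)
        (by rw [hX0]; dsimp only; linarith)
      have eN1 : P.N1 = 2 ^ (k + 1 + 6 * w) := rfl
      have eN2 : P.N2 = 2 ^ (k + 1 + 6 * w) := rfl
      have eNN : 2 ^ (k + 1 + 6 * w) = 2 ^ (k + 6 * w) + 2 ^ k * 2 ^ (6 * w) := by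
        rw [← pow_add, show k + 1 + 6 * w = k + 6 * w + 1 by ring, pow_succ]; ring
      have hBpos : 0 < 2 ^ (6 * w) := by positivity
      have hu0N : u0 + 2 ^ k * 2 ^ (6 * w) ≤ P.N1 := by rw [eN1, eNN]; omega
      have hv0N : v0 + 2 ^ k * 2 ^ (6 * w) ≤ P.N2 := by rw [eN2, eNN]; omega
      set μ' := spread (2 ^ k) (2 ^ (6 * w)) u0 μ with hμ'
      set ν' := spread (2 ^ k) (2 ^ (6 * w)) v0 ν with hν'
      have hkr : (0 : ℝ) < 2 ^ k := by positivity
      have l10 : 0 ≤ l₁ := (m0 0).trans (m2 0 (by rw [Finset.mem_range]; exact hpos2k))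
      have hl1 : l₁ ≤ 2 ^ lam / 2 ^ k := by
        have h2 : 1 ≤ l₂ * 2 ^ k := by
          calc (1 : ℝ) = ∑ y ∈ range (2 ^ k), ν y := n1.symm
            _ ≤ ∑ y ∈ range (2 ^ k), l₂ := Finset.sum_le_sum n2
            _ = l₂ * 2 ^ k := by rw [Finset.sum_const, card_range, nsmul_eq_mul]; push_cast; ring
        have h3 : l₁ * l₂ * ((2 ^ k : ℕ) : ℝ) ≤ 2 ^ lam / 2 ^ k := hl
        push_cast at h3
        have h4 := mul_le_mul_of_nonneg_left h2 l10
        linarith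
      have hl2 : l₂ ≤ 2 ^ lam / 2 ^ k := by
        have h2 : 1 ≤ l₁ * 2 ^ k := by
          calc (1 : ℝ) = ∑ y ∈ range (2 ^ k), μ y := m1.symm
            _ ≤ ∑ y ∈ range (2 ^ k), l₁ := Finset.sum_le_sum m2
            _ = l₁ * 2 ^ k := by rw [Finset.sum_const, card_range, nsmul_eq_mul]; push_cast; ring
        have h3 : l₁ * l₂ * ((2 ^ k : ℕ) : ℝ) ≤ 2 ^ lam / 2 ^ k := hl
        push_cast at h3
        have l20 : 0 ≤ l₂ := (n0 0).trans (n2 0 (by rw [Finset.mem_range]; exact hpos2k))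
        have h4 := mul_le_mul_of_nonneg_left h2 l20
        linarith
      have hμ0 : ∀ u, 0 ≤ μ' u := fun u => spread_nonneg m0 u
      have hν0 : ∀ u, 0 ≤ ν' u := fun u => spread_nonneg n0 u
      have hμl : ∀ u, μ' u ≤ l₁ / ((2 ^ (6 * w) : ℕ) : ℝ) := fun u => spread_le hBpos l10 m2 u
      have hνl : ∀ u, ν' u ≤ l₂ / ((2 ^ (6 * w) : ℕ) : ℝ) := fun u => spread_le hBpos l0 n2 u
      have hb2 : ∀ l : ℝ, l ≤ 2 ^ lam / 2 ^ k → l / ((2 ^ (6 * w) : ℕ) : ℝ) ≤ 2 ^ w / ((2 ^ (k + 1 + 6 * w) : ℕ) : ℝ) := by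
        intro l hl
        push_cast
        have h1 : (2 : ℝ) ^ (lam + 1) ≤ 2 ^ w := pow_le_pow_right₀ (by norm_num) he.hlam
        calc l / 2 ^ (6 * w) ≤ (2 ^ lam / 2 ^ k) / 2 ^ (6 * w) := by gcongr
          _ = 2 ^ (lam + 1) / 2 ^ (k + 1 + 6 * w) := by rw [pow_succ, pow_add, pow_succ]; field_simp
          _ ≤ _ := by gcongr
      have hsμ : ∑ u ∈ range P.N1, μ' u = 1 := by
        have := sum_spread hBpos hu0N μ (fun _ => 1)
        simp only [mul_one] at this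
        rw [← hμ'] at this
        rw [this, m1]
      have hsν : ∑ u ∈ range P.N2, ν' u = 1 := by
        have := sum_spread hBpos hv0N ν (fun _ => 1)
        simp only [mul_one] at this
        rw [← hν'] at this
        rw [this, n1]
      set Zc : ℕ → ℕ → ℝ := fun x y => if pr S.p (fun ω => (ξ ω, (X ω, Y ω))) (v, (x, y)) = 0 then 1 else 0 with hZc
      have hhit := hit_prob hok g1 g2 (T0 := 2 ^ 32 * P.V * 2 ^ t) (by positivity) g3.le
        ((((v.2.2.1 : ℝ) / 2 ^ g : ℝ) : TT), (((v.2.2.2 : ℝ) / 2 ^ b : ℝ) : TT)) μ' ν' hμ0 hν0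
        (fun u _ => (hμl u).trans (hb2 l₁ hl1)) (fun u _ => (hνl u).trans (hb2 l₂ hl2)) hsμ hsν
        (Λ := 4 * 2 ^ lam) (by positivity)
        (by
          intro u _ v _
          rw [eN1, eN2]
          have h3 : l₁ * l₂ * ((2 ^ k : ℕ) : ℝ) ≤ 2 ^ lam / 2 ^ k := hl
          have h4 : l₁ * l₂ ≤ 2 ^ lam / (2 ^ k * 2 ^ k) := by
            push_cast at h3
            rw [le_div_iff₀ (by positivity)]
            rw [le_div_iff₀ (by positivity)] at h3
            linarith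
          calc μ' u * ν' v ≤ (l₁ / ((2 ^ (6 * w) : ℕ) : ℝ)) * (l₂ / ((2 ^ (6 * w) : ℕ) : ℝ)) :=
                mul_le_mul (hμl u) (hνl v) (hν0 v) (by positivity)
            _ = (l₁ * l₂) / (2 ^ (6 * w) * 2 ^ (6 * w)) := by push_cast; field_simp
            _ ≤ (2 ^ lam / (2 ^ k * 2 ^ k)) / (2 ^ (6 * w) * 2 ^ (6 * w)) := by gcongr
            _ = 4 * 2 ^ lam / (((2 ^ (k + 1 + 6 * w) : ℕ) : ℝ) * ((2 ^ (k + 1 + 6 * w) : ℕ) : ℝ)) := by
              push_cast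
              rw [show k + 1 + 6 * w = k + (1 + 6 * w) by ring, pow_add, pow_add 2 1 (6 * w)]; field_simp; norm_num)
        (fun u v => Zc ((u - u0) / 2 ^ (6 * w)) ((v - v0) / 2 ^ (6 * w)))
        (by
          intro u v
          rw [hZc]; dsimp only
          split_ifs <;> norm_num)
        (by
          intro u _ v' _ hun hvn hSS
          have hu1 : u0 ≤ u ∧ u < u0 + 2 ^ k * 2 ^ (6 * w) := by
            by_contra hc
            apply hun
            rw [hμ']; unfold spread; rw [if_neg hc]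
          have hv1 : v0 ≤ v' ∧ v' < v0 + 2 ^ k * 2 ^ (6 * w) := by
            by_contra hc
            apply hvn
            rw [hν']; unfold spread; rw [if_neg hc]
          obtain ⟨x, s, hs, hxs⟩ : ∃ x s, s < 2 ^ (6 * w) ∧ u = u0 + x * 2 ^ (6 * w) + s ∧ (u - u0) / 2 ^ (6 * w) = x := by
            refine ⟨(u - u0) / 2 ^ (6 * w), (u - u0) % 2 ^ (6 * w), Nat.mod_lt _ hBpos, ?_, rfl⟩
            have := Nat.div_add_mod (u - u0) (2 ^ (6 * w))
            rw [mul_comm] at this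
            omega
          obtain ⟨y, s', hs', hys⟩ : ∃ y s', s' < 2 ^ (6 * w) ∧ v' = v0 + y * 2 ^ (6 * w) + s' ∧ (v' - v0) / 2 ^ (6 * w) = y := by
            refine ⟨(v' - v0) / 2 ^ (6 * w), (v' - v0) % 2 ^ (6 * w), Nat.mod_lt _ hBpos, ?_, rfl⟩
            have := Nat.div_add_mod (v' - v0) (2 ^ (6 * w))
            rw [mul_comm] at this
            omega
          obtain ⟨hxs1, hxs2⟩ := hxs
          obtain ⟨hys1, hys2⟩ := hys
          rw [hxs2, hys2, hZc]; dsimp only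
          obtain ⟨q1, q2⟩ := hud x s hs
          obtain ⟨r1, r2⟩ := hvd y s' hs'
          rw [← hxs1] at q1 q2
          rw [← hys1] at r1 r2
          rw [if_pos]
          by_contra hne
          unfold pr at hne
          obtain ⟨ω, _, hω⟩ := Finset.exists_ne_zero_of_sum_ne_zero hne
          have hcond : (ξ ω, (X ω, Y ω)) = (v, (x, y)) := by
            by_contra hc; exact hω (if_neg hc)
          rw [if_pos hcond] at hω
          have hpω : 0 < S.p ω := lt_of_le_of_ne (S.hp ω) (Ne.symm hω)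
          rw [triple_eq] at hcond
          obtain ⟨hc1, hc2, hc3⟩ := hcond
          have d1 : dig (i + k) (S.α ω) = v.1 * 2 ^ k + x := by
            have e1 : dig i (S.α ω) * 2 ^ k + dig (i + k) (S.α ω) % 2 ^ k = dig (i + k) (S.α ω) := by
              rw [← dig_div (k := i) (m := k)]
              have := Nat.div_add_mod (dig (i + k) (S.α ω)) (2 ^ k)
              rw [mul_comm] at this; exact this
            rw [← e1]
            have e2 : dig i (S.α ω) = v.1 := by rw [← hc1]; rfl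
            have e3 : dig (i + k) (S.α ω) % 2 ^ k = x := hc2
            rw [e2, e3]
          have d2 : dig (j + k) (S.β ω) = v.2.1 * 2 ^ k + y := by
            have e1 : dig j (S.β ω) * 2 ^ k + dig (j + k) (S.β ω) % 2 ^ k = dig (j + k) (S.β ω) := by
              rw [← dig_div (k := j) (m := k)]
              have := Nat.div_add_mod (dig (j + k) (S.β ω)) (2 ^ k)
              rw [mul_comm] at this; exact this
            rw [← e1]
            have e2 : dig j (S.β ω) = v.2.1 := by rw [← hc1]; rfl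
            have e3 : dig (j + k) (S.β ω) % 2 ^ k = y := hc3
            rw [e2, e3]
          have b1 := dig_close (S.hα ω).1 q2 (d1.trans q1.symm)
          have b2 := dig_close (S.hβ ω).1 r2 (d2.trans r1.symm)
          have f1 : dig g (S.γ₁ ω) = v.2.2.1 := by rw [← hc1]; rfl
          have f2 : dig b (S.γ₂ ω) = v.2.2.2 := by rw [← hc1]; rfl
          have sg : a + b + k + g = i + k := by omega
          have sf : a + b + k + b = j + k := by omega
          refine S.no_hit (σ := a + b + k) (g := g) (f := b) (e := e) hbad hq0 hQ1 (by omega)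
            (x := (X0.1 + (u : ℝ) / 2 ^ (i + k + 6 * w), X0.2 + (v' : ℝ) / 2 ^ (j + k + 6 * w)))
            (c1 := v.2.2.1) (c2 := v.2.2.2) hpω (by rw [sg]; exact b1) (by rw [sf]; exact b2) f1 f2 ?_
          have eP : pt (X0.1 + (u : ℝ) / 2 ^ (i + k + 6 * w), X0.2 + (v' : ℝ) / 2 ^ (j + k + 6 * w)) = pt X0 + P.gp u v' := by
            have k1 : P.st / 2 ^ P.g * u = (u : ℝ) / 2 ^ (i + k + 6 * w) := by
              show 1 / (2 ^ (a + b + k) * (2 ^ w) ^ 6) / 2 ^ g * (u : ℝ) = _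
              have e0 : (2 : ℝ) ^ (i + k + 6 * w) = 2 ^ (a + b + k) * 2 ^ g * (2 ^ w) ^ 6 := by
                rw [← sg, pow_add 2 (a + b + k + g) (6 * w), pow_add 2 (a + b + k) g, mul_comm 6 w, pow_mul]
              rw [e0]; field_simp
            have k2 : P.st / 2 ^ P.f * v' = (v' : ℝ) / 2 ^ (j + k + 6 * w) := by
              show 1 / (2 ^ (a + b + k) * (2 ^ w) ^ 6) / 2 ^ b * (v' : ℝ) = _
              have e0 : (2 : ℝ) ^ (j + k + 6 * w) = 2 ^ (a + b + k) * 2 ^ b * (2 ^ w) ^ 6 := by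
                rw [← sf, pow_add 2 (a + b + k + b) (6 * w), pow_add 2 (a + b + k) b, mul_comm 6 w, pow_mul]
              rw [e0]; field_simp
            unfold AP.gp
            rw [k1, k2]
            rfl
          rw [eP]
          exact hSS)
      have hsumZ : ∑ u ∈ range P.N1, ∑ v ∈ range P.N2, μ' u * ν' v * Zc ((u - u0) / 2 ^ (6 * w)) ((v - v0) / 2 ^ (6 * w)) =
          ∑ y ∈ range (2 ^ k), ∑ x ∈ range (2 ^ k), if pr S.p (fun ω => (ξ ω, (X ω, Y ω))) (v, (x, y)) = 0 then μ x * ν y else 0 := by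
        have h1 : ∀ u ∈ range P.N1, ∑ v ∈ range P.N2, μ' u * ν' v * Zc ((u - u0) / 2 ^ (6 * w)) ((v - v0) / 2 ^ (6 * w)) =
            μ' u * (fun x => ∑ y ∈ range (2 ^ k), ν y * Zc x y) ((u - u0) / 2 ^ (6 * w)) := by
          intro u _
          dsimp only
          rw [← sum_spread hBpos hv0N ν (fun y => Zc ((u - u0) / 2 ^ (6 * w)) y), Finset.mul_sum]
          apply Finset.sum_congr rfl; intro v' _
          rw [← hν']; ring
        rw [Finset.sum_congr rfl h1, hμ', sum_spread hBpos hu0N μ (fun x => ∑ y ∈ range (2 ^ k), ν y * Zc x y), Finset.sum_comm (s := range (2 ^ k)) (t := range (2 ^ k))]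
        apply Finset.sum_congr rfl; intro x _
        rw [Finset.mul_sum]
        apply Finset.sum_congr rfl; intro y _
        rw [hZc]; dsimp only
        split_ifs
        · ring
        · ring
      rw [hsumZ] at hhit
      have hVe : P.V = 1 / 2 ^ (e + 7) := by
        unfold AP.V AP.d1 AP.d2
        show (2 : ℝ) ^ (a + b + k) * (1 / 2 ^ (a + (k + e + 7)) * (1 / 2 ^ b)) = _
        rw [show a + (k + e + 7) = a + k + (e + 7) by ring, pow_add 2 (a + k) (e + 7), pow_add 2 (a + b) k, pow_add 2 a b, pow_add 2 a k]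
        field_simp
      set Sg' := ∑ y ∈ range (2 ^ k), ∑ x ∈ range (2 ^ k), if pr S.p (fun ω => (ξ ω, (X ω, Y ω))) (v, (x, y)) = 0 then μ x * ν y else 0 with hSg
      have hB : 1 + 4 * (4 * 2 ^ lam) * (2 ^ 32 * P.V * 2 ^ t) / P.V ≤ 2 ^ (37 + lam + t) := by
        have e1 : 4 * (4 * 2 ^ lam) * (2 ^ 32 * P.V * 2 ^ t) / P.V = 2 ^ 36 * 2 ^ lam * 2 ^ t := by
          field_simp; norm_num
        rw [e1, pow_add, pow_add]
        have k1 : (1 : ℝ) ≤ 2 ^ lam := one_le_pow₀ (by norm_num)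
        have k2 : (1 : ℝ) ≤ 2 ^ t := one_le_pow₀ (by norm_num)
        have k3 : (1 : ℝ) ≤ 2 ^ lam * 2 ^ t := one_le_mul_of_one_le_of_one_le k1 k2
        linarith
      have hS0 : 0 ≤ Sg' := by
        apply Finset.sum_nonneg; intro y _
        apply Finset.sum_nonneg; intro x _
        split_ifs
        · exact mul_nonneg (m0 x) (n0 y)
        · exact le_rfl
      have h5 : P.V / 4 ≤ 2 ^ (37 + lam + t) * Sg' := hhit.trans (mul_le_mul_of_nonneg_right hB hS0)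
      rw [hVe] at h5
      have e6 : (1 : ℝ) / 2 ^ (e + 46 + lam + t) = (1 / 2 ^ (e + 7) / 4) / 2 ^ (37 + lam + t) := by
        rw [show e + 46 + lam + t = (e + 7) + 2 + (37 + lam + t) by ring, pow_add, pow_add 2 (e + 7) 2]
        field_simp; norm_num
      rw [e6, div_le_iff₀ (by positivity)]
      linarith)
  rw [hXH, hYH, hXYH, hlogN] at key
  have hξe : H S.p ξ = S.hh i j g b := rfl
  rw [hξe] at key
  unfold cA cB
  have hlg : 0 < Real.log 2 := Real.log_pos (by norm_num)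
  have hk0 : 0 ≤ (k : ℝ) * Real.log 2 := by positivity
  have h6 : 2 * ((k : ℝ) * Real.log 2) * (4 * (k * Real.log 2 + 1) * ∑ ω, if Y ω ∈ Tg (ξ ω) then 0 else S.p ω) ≤
      2 * (k * Real.log 2) * (4 * (k * Real.log 2 + 1) * (C * (2 / 2 ^ t))) := by gcongr
  linarith [key, h6]

end

end Run7.h297
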