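import Pool.Agent.Run7.h297.BookB
import Pool.Agent.Run7.h297.NodeAB

set_option autoImplicit false

/-! The core contradiction with the logarithm divided by a power of the iterated logarithm. -/

noncomputable section

namespace Run7.h297

open Real Finset MeasureTheory

theorem IJ_nonneg {h : ℕ → ℕ → ℕ → ℕ → ℝ} {lg : ℝ} (hs : Sub4 h lg) (m k a b : ℕ) : 0 ≤ IJ h m k a b := by
  unfold IJ
  have := hs.sub' (2 * a + b + m + k, a + 2 * b, a + m, b) (2 * a + b + m, a + 2 * b + k, a + m, b)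
    (2 * a + b + m + k, a + 2 * b + k, a + m, b) (2 * a + b + m, a + 2 * b, a + m, b)
    (by simp only [Prod.mk.injEq]; omega) (by simp only [Prod.mk.injEq]; omega)
  dsimp only at this
  linarith

theorem Sys.P6B {Ω : Type*} [Fintype Ω] (S : Sys Ω) {n : ℕ} {C : ℝ} (hC : 0 ≤ C) (hd : S.Dom n C) {q0 Q1 a b k e w t lam : ℕ}
    (he : ExAB a b k e w t lam) (hbad : S.Bad q0 Q1 (1 / 2 ^ e)) (hq0 : q0 ≤ 2 ^ (a + b + k)) (hQ1 : 3 * 2 ^ (a + b + k) ≤ Q1)
    (hn1 : 2 * a + b + (k + e + 7) ≤ n) (hn2 : a + 2 * b ≤ n) :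
    S.hh (2 * a + b + 2 * (k + e + 7)) (a + 2 * b + (k + e + 7)) (a + (k + e + 7)) b ≤
      S.hh (2 * a + b) (a + 2 * b) (a + (k + e + 7)) b + 3 * ((k + e + 7 : ℕ) : ℝ) * Real.log 2 -
        (2 * (k * Real.log 2) - cA k lam t C) + cB k e lam t * IJ S.hh (k + e + 7) k a b := by
  have h1 := S.P6ab hC hd he hbad hq0 hQ1 hn1 hn2
  have h2 := IJ_nonneg S.sub4 (k + e + 7) k a b
  have h3 := S.incr (2 * a + b + (k + e + 7) + k) (a + 2 * b + k) (a + (k + e + 7)) b (2 * a + b + 2 * (k + e + 7))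
    (a + 2 * b + (k + e + 7)) (a + (k + e + 7)) b (by omega) (by omega) le_rfl le_rfl
  have e3 : (2 * a + b + 2 * (k + e + 7) - (2 * a + b + (k + e + 7) + k)) + (a + 2 * b + (k + e + 7) - (a + 2 * b + k)) +
      (a + (k + e + 7) - (a + (k + e + 7))) + (b - b) = 2 * (e + 7) := by omega
  rw [e3] at h3
  have h4 := S.incr (2 * a + b) (a + 2 * b) (a + (k + e + 7)) b (2 * a + b + (k + e + 7))
    (a + 2 * b) (a + (k + e + 7)) b (by omega) (by omega) le_rfl le_rfl
  have e4 : (2 * a + b + (k + e + 7) - (2 * a + b)) + (a + 2 * b - (a + 2 * b)) +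
      (a + (k + e + 7) - (a + (k + e + 7))) + (b - b) = k + e + 7 := by omega
  rw [e4] at h4
  have e5 : IJ S.hh (k + e + 7) k a b = S.hh (2 * a + b + (k + e + 7) + k) (a + 2 * b) (a + (k + e + 7)) b + S.hh (2 * a + b + (k + e + 7)) (a + 2 * b + k) (a + (k + e + 7)) b -
          S.hh (2 * a + b + (k + e + 7)) (a + 2 * b) (a + (k + e + 7)) b -
          S.hh (2 * a + b + (k + e + 7) + k) (a + 2 * b + k) (a + (k + e + 7)) b := rfl
  rw [← e5] at h1
  have e6 : S.hh (2 * a + b + (k + e + 7) + k) (a + 2 * b + k) (a + (k + e + 7)) b =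
      S.hh (2 * a + b + (k + e + 7) + k) (a + 2 * b) (a + (k + e + 7)) b + S.hh (2 * a + b + (k + e + 7)) (a + 2 * b + k) (a + (k + e + 7)) b -
          S.hh (2 * a + b + (k + e + 7)) (a + 2 * b) (a + (k + e + 7)) b - IJ S.hh (k + e + 7) k a b := by rw [e5]; ring
  push_cast at h3 h4 ⊢
  linarith

theorem Sys.contrB {Ω : Type*} [Fintype Ω] (S : Sys Ω) {n : ℕ} {C : ℝ} (hC : 0 < C) (hd : S.Dom n C)
    {q0 Q1 e l K t2 w2 A0 B0 na nb w t lam M : ℕ} (hM : M = 2 * (3 * l + e + 7) * K) (hbad : S.Bad q0 Q1 (1 / 2 ^ e))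
    (he : ∀ a b, A0 ≤ a → B0 ≤ b → Exps a b M e t2 w2)
    (he' : ∀ a b, A0 ≤ a → a < A0 + na + M → B0 ≤ b → b < B0 + nb → ExAB a b (3 * l) e w t lam)
    (hl : l ≤ A0) (hmM : 3 * l + e + 7 ≤ M)
    (hq0 : q0 ≤ 2 ^ (A0 + B0)) (hQ1 : 3 * 2 ^ (A0 + na + M + B0 + nb + 3 * l) ≤ Q1)
    (hn : 4 * (A0 + na + M + B0 + nb) ≤ n) :
    (na : ℝ) * nb * (K * (2 * (((3 * l : ℕ) : ℝ) * Real.log 2) - cA (3 * l) lam t C)) ≤
      nb * M * ((A0 + 4 * M + B0 + nb) * Real.log 2 + Real.log C) +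
        na * nb * cst1 M e t2 w2 C +
        cst2 M e t2 * (na * (M * (M * Real.log 2))) +
        K * cB (3 * l) e lam t * (nb * (l * ((3 * l) * Real.log 2)) + (na + M) * ((2 * l) * ((3 * l) * Real.log 2)) +
          (na + M) * (((3 * l + e + 7 : ℕ) + 3 * l) * (((3 * l + e + 7 : ℕ) + 3 * l) * Real.log 2))) := by
  have hlg : 0 < Real.log 2 := Real.log_pos (by norm_num)
  have hMc : (M : ℝ) = 2 * ((3 * l + e + 7 : ℕ) : ℝ) * K := by rw [hM]; push_cast; ring
  rw [hMc]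
  apply bookkeepingB (m := 3 * l + e + 7) S.sub4
  · unfold cst2; positivity
  · unfold cB; positivity
  · exact hl
  · intro a b; exact IJ_nonneg S.sub4 _ _ _ _
  · intro a b ha1 ha2 hb1 hb2
    rw [← hM, ← hMc]
    have hE := he a b ha1 hb1
    exact S.P5 hC.le hd hE hbad
      (hq0.trans (Nat.pow_le_pow_right (by norm_num) (by omega)))
      (le_trans (Nat.mul_le_mul_left _ (Nat.pow_le_pow_right (by norm_num) (by omega))) hQ1)
      (by omega) (by omega)
  · intro a b ha1 ha2 hb1 hb2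
    rw [← hM] at ha2
    exact S.P6B hC.le hd (he' a b ha1 ha2 hb1 hb2) hbad
      (hq0.trans (Nat.pow_le_pow_right (by norm_num) (by omega)))
      (le_trans (Nat.mul_le_mul_left _ (Nat.pow_le_pow_right (by norm_num) (by omega))) hQ1)
      (by omega) (by omega)
  · intro a b _ _ _ _
    refine (S.upper _ _ _ _).trans ?_
    apply mul_le_mul_of_nonneg_right _ hlg.le
    push_cast
    linarith
  · intro a b _ ha2 _ hb2
    rw [← hM] at ha2
    refine le_trans ?_ (S.lower hC hd (k := 2 * a + b) (l := a + 2 * b) (by omega) (by omega))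
    apply sub_le_sub_right
    apply mul_le_mul_of_nonneg_right _ hlg.le
    push_cast
    linarith

end Run7.h297
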