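import Pool.Agent.Run7.h297.Core
import Pool.Agent.Run7.h297.CoreB

set_option autoImplicit false

/-! The core contradiction with the logarithm divided by a power of the iterated logarithm: numerics. -/

noncomputable section

namespace Run7.h297

open Real Finset MeasureTheory

/-- the rate -/
def psiB (q : ℕ) : ℝ := Real.log q / (Real.log (Real.log q)) ^ 20


theorem two_mul_le_pow {s : ℕ} (h : 4 ≤ s) : 2 * s ≤ 2 ^ s := by
  induction s, h using Nat.le_induction with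
  | base => norm_num
  | succ n hn ih => rw [pow_succ]; omega

theorem rate_bound {η y Z : ℝ} {e s q : ℕ} (hη : 0 < η) (hy : 0 < y) (hey : (e : ℝ) = y) (hs : e = 2 * s) (hs4 : 4 ≤ s)
    (hηy : 10 ^ 12 / η ≤ y) (hZ : Z = 2 ^ e) (h16 : 16 ≤ q) (hl0 : Real.log q ≤ 2 * (y ^ 19 * Z)) :
    0 ≤ psiB q ∧ psiB q ≤ η * 2 ^ e := by
  have hlgl : 0.69 ≤ Real.log 2 := by
    have := Real.log_two_gt_d9; linarith
  have hZ0 : 0 < Z := by rw [hZ]; positivity
  have hq16 : (16 : ℝ) ≤ q := by exact_mod_cast h16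
  have hlog16 : 2.76 ≤ Real.log q := by
    have h1 : Real.log 16 ≤ Real.log q := Real.log_le_log (by norm_num) hq16
    have h2 : Real.log 16 = 4 * Real.log 2 := by
      rw [show (16 : ℝ) = 2 ^ 4 by norm_num, Real.log_pow]; norm_num
    linarith
  have hll : 1 ≤ Real.log (Real.log q) := by
    rw [Real.le_log_iff_exp_le (by linarith)]
    have := Real.exp_one_lt_d9
    linarith
  have hll0 : 0 < (Real.log (Real.log q)) ^ 20 := by positivity
  refine ⟨div_nonneg (by linarith) hll0.le, ?_⟩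
  unfold psiB
  rw [div_le_iff₀ hη] at hηy
  have hy2s : y = 2 * s := by rw [← hey, hs]; push_cast; ring
  rcases le_total (Real.log q) (2 ^ s) with hcase | hcase
  · have h1 : Real.log q / (Real.log (Real.log q)) ^ 20 ≤ Real.log q := by
      apply div_le_self (by linarith) (one_le_pow₀ hll)
    have h2 : y ≤ 2 ^ s := by
      rw [hy2s]; exact_mod_cast two_mul_le_pow hs4
    have h5 : (2 : ℝ) ^ e = 2 ^ s * 2 ^ s := by rw [hs, two_mul, pow_add]
    rw [h5]
    have h6 : 1 ≤ η * 2 ^ s := by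
      have : y * η ≤ 2 ^ s * η := by gcongr
      linarith [show (1 : ℝ) ≤ 10 ^ 12 by norm_num]
    calc _ ≤ Real.log q := h1
      _ ≤ 2 ^ s := hcase
      _ = 1 * 2 ^ s := (one_mul _).symm
      _ ≤ (η * 2 ^ s) * 2 ^ s := by gcongr
      _ = _ := by ring
  · have h1 : 0.3 * y ≤ Real.log (Real.log q) := by
      have h2 : Real.log (2 ^ s) ≤ Real.log (Real.log q) := Real.log_le_log (by positivity) hcase
      rw [Real.log_pow] at h2
      have h3 : (s : ℝ) = y / 2 := by linarith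
      rw [h3] at h2
      have h4 : y / 2 * 0.69 ≤ y / 2 * Real.log 2 := by gcongr
      linarith
    have h4 : (0.3 * y) ^ 20 ≤ (Real.log (Real.log q)) ^ 20 := pow_le_pow_left₀ (by positivity) h1 20
    rw [div_le_iff₀ hll0]
    have h5 : (0.3 * y) ^ 20 = 0.3 ^ 20 * y ^ 20 := by rw [mul_pow]
    rw [h5] at h4
    have h6 : 2 ≤ η * y * 0.3 ^ 20 := by
      calc (2 : ℝ) ≤ 10 ^ 12 * 0.3 ^ 20 := by norm_num
        _ ≤ (y * η) * 0.3 ^ 20 := by gcongr
        _ = _ := by ring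
    rw [← hZ]
    calc Real.log q ≤ 2 * (y ^ 19 * Z) := hl0
      _ ≤ (η * y * 0.3 ^ 20) * (y ^ 19 * Z) := by gcongr
      _ = η * Z * (0.3 ^ 20 * y ^ 20) := by ring
      _ ≤ η * Z * (Real.log (Real.log q)) ^ 20 := by gcongr

theorem core_baseB (η : ℝ) (hη : 0 < η) (N : ℕ) (c : ℝ) (hc : 0 < c) (E : Set (ℝ × ℝ))
    (hE : E ⊆ Set.Ico 0 1 ×ˢ Set.Ico 0 1) (hv : ENNReal.ofReal c ≤ volume E)
    (g : ℝ × ℝ → ℝ × ℝ) (hg1 : ∀ x, 0 ≤ (g x).1 ∧ (g x).1 < 1) (hg2 : ∀ x, 0 ≤ (g x).2 ∧ (g x).2 < 1) :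
    ¬ (∀ x ∈ E, ∀ q : ℕ, N ≤ q → η ≤ q * psiB q * prd q x (g x)) := by
  intro hbad
  obtain ⟨C, hC⟩ : ∃ C : ℝ, C = 1 / c := ⟨_, rfl⟩
  have hC0 : 0 < C := by rw [hC]; positivity
  obtain ⟨r, hr12, hrX, hr5⟩ := exists_r (10 ^ 10 * C + 10 ^ 12 / η + N + 200)
  obtain ⟨e, he⟩ : ∃ z : ℕ, z = 2 ^ r := ⟨_, rfl⟩
  obtain ⟨y, hy⟩ : ∃ z : ℝ, z = 2 ^ r := ⟨_, rfl⟩
  have hey : (e : ℝ) = y := by rw [he, hy]; push_cast; rfl
  rw [← hy] at hr5
  have hη' : 0 < 10 ^ 12 / η := by positivity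
  have hN0 : (0 : ℝ) ≤ N := Nat.cast_nonneg N
  have hC10 : 0 < 10 ^ 10 * C := by positivity
  have hr200 : (200 : ℝ) ≤ r := by linarith
  have hrC : 10 ^ 10 * C ≤ r := by linarith
  have hrη : 10 ^ 12 / η ≤ r := by linarith
  have hrN : N ≤ r := by
    have : (N : ℝ) ≤ r := by linarith
    exact_mod_cast this
  have hr200' : 200 ≤ r := by exact_mod_cast hr200
  have hry : (r : ℝ) ≤ y := by linarith
  have hy40 : (10 : ℝ) ^ 40 ≤ y := by
    rw [hy]
    calc (10 : ℝ) ^ 40 ≤ 2 ^ 200 := by norm_num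
      _ ≤ 2 ^ r := pow_le_pow_right₀ (by norm_num) hr200'
  have hy0 : 0 < y := by linarith [show (0 : ℝ) < 10 ^ 40 by norm_num]
  have hy1 : 1 ≤ y := by linarith [show (1 : ℝ) ≤ 10 ^ 40 by norm_num]
  obtain ⟨Z, hZ⟩ : ∃ z : ℝ, z = 2 ^ e := ⟨_, rfl⟩
  have hre : 5000 * r + 20 ≤ e := by
    have : ((5000 * r + 20 : ℕ) : ℝ) ≤ e := by push_cast; rw [hey]; exact hr5
    exact_mod_cast this
  have hpowr : ∀ i : ℕ, (2 : ℝ) ^ (i * r) = y ^ i := by
    intro i; rw [hy, ← pow_mul]; congr 1; ring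
  have hZy : y ^ 20 ≤ Z := by
    rw [← hpowr, hZ]
    exact pow_le_pow_right₀ (by norm_num) (by omega)
  have hZ1 : 1 ≤ Z := le_trans (one_le_pow₀ hy1) hZy
  have hZ0 : 0 < Z := by linarith
  have hpow : ∀ {i j : ℕ}, i ≤ j → y ^ i ≤ y ^ j := fun h => pow_le_pow_right₀ hy1 h
  -- parameters
  obtain ⟨w, hw⟩ : ∃ z : ℕ, z = 2 * e := ⟨_, rfl⟩
  obtain ⟨l, hl⟩ : ∃ z : ℕ, z = 3000 * e := ⟨_, rfl⟩
  obtain ⟨K, hK⟩ : ∃ z : ℕ, z = 10 * e := ⟨_, rfl⟩
  obtain ⟨M, hM⟩ : ∃ z : ℕ, z = 2 * (3 * l + e + 7) * K := ⟨_, rfl⟩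
  obtain ⟨t2, ht2⟩ : ∃ z : ℕ, z = 5 * r := ⟨_, rfl⟩
  obtain ⟨w2, hw2⟩ : ∃ z : ℕ, z = e + 4 + t2 := ⟨_, rfl⟩
  obtain ⟨t, ht⟩ : ∃ z : ℕ, z = 3 * r := ⟨_, rfl⟩
  obtain ⟨B0, hB0⟩ : ∃ z : ℕ, z = 2 * M := ⟨_, rfl⟩
  obtain ⟨A0, hA0⟩ : ∃ z : ℕ, z = M + w2 + 12 * w + 3 * l + 8 + N := ⟨_, rfl⟩
  obtain ⟨nb, hnb⟩ : ∃ z : ℕ, z = 2 ^ (16 * r + e) := ⟨_, rfl⟩
  obtain ⟨na, hna⟩ : ∃ z : ℕ, z = 2 ^ (19 * r + e) := ⟨_, rfl⟩
  obtain ⟨n, hn⟩ : ∃ z : ℕ, z = 4 * (A0 + na + M + B0 + nb) := ⟨_, rfl⟩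
  obtain ⟨Q1, hQ1⟩ : ∃ z : ℕ, z = 3 * 2 ^ (A0 + na + M + B0 + nb + 3 * l) := ⟨_, rfl⟩
  have hnbr : (nb : ℝ) = y ^ 16 * Z := by rw [hnb]; push_cast; rw [pow_add, hpowr, hZ]
  have hnar : (na : ℝ) = y ^ 19 * Z := by rw [hna]; push_cast; rw [pow_add, hpowr, hZ]
  have hlr : (l : ℝ) = 3000 * y := by rw [hl]; push_cast; rw [hey]
  have hKr : (K : ℝ) = 10 * y := by rw [hK]; push_cast; rw [hey]
  have hmr : ((3 * l + e + 7 : ℕ) : ℝ) = 9001 * y + 7 := by push_cast; rw [hey, hlr]; ring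
  have hMr0 : (M : ℝ) = 2 * (9001 * y + 7) * (10 * y) := by rw [hM, Nat.cast_mul, Nat.cast_mul, hmr, hKr]; norm_num
  have hy2 : 10 ^ 40 * y ≤ y ^ 2 := by rw [sq]; exact mul_le_mul_of_nonneg_right hy40 hy0.le
  have hMr1 : (M : ℝ) = 180020 * y ^ 2 + 140 * y := by rw [hMr0]; ring
  have hy22 : 0 < y ^ 2 := by positivity
  have hMr : (M : ℝ) ≤ 200000 * y ^ 2 := by linarith
  have hMl : 180000 * y ≤ (M : ℝ) := by linarith
  have hwr : (w : ℝ) = 2 * y := by rw [hw]; push_cast; rw [hey]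
  have hw2r : (w2 : ℝ) = y + 4 + 5 * r := by rw [hw2, ht2]; push_cast; rw [hey]
  have hA0r : (A0 : ℝ) ≤ 300000 * y ^ 2 := by
    rw [hA0]; push_cast; rw [hw2r, hwr, hlr]
    have : (N : ℝ) ≤ y := le_trans (by exact_mod_cast hrN) hry
    linarith
  have hB0r : (B0 : ℝ) ≤ 400000 * y ^ 2 := by rw [hB0]; push_cast; linarith
  have hy16 : 10 ^ 40 * y ^ 2 ≤ y ^ 16 := by
    calc 10 ^ 40 * y ^ 2 ≤ y * y ^ 2 := by gcongr
      _ = y ^ 3 := by ring
      _ ≤ y ^ 16 := hpow (by norm_num)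
  have hy16p : 0 < y ^ 16 := by positivity
  have hy16Z : 10 ^ 40 * y ^ 2 ≤ y ^ 16 * Z := hy16.trans (le_mul_of_one_le_right hy16p.le hZ1)
  have hsmall : (A0 : ℝ) + 4 * M + B0 + 3 * l ≤ nb := by
    rw [hnbr, hlr]; linarith
  have hnab : (nb : ℝ) * 10 ^ 40 ≤ na := by
    rw [hnbr, hnar]
    have h17 : 10 ^ 40 * y ^ 16 ≤ y ^ 19 := by
      calc 10 ^ 40 * y ^ 16 ≤ y * y ^ 16 := by gcongr
        _ = y ^ 17 := by ring
        _ ≤ _ := hpow (by norm_num)
    calc y ^ 16 * Z * 10 ^ 40 = (10 ^ 40 * y ^ 16) * Z := by ring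
      _ ≤ y ^ 19 * Z := by gcongr
  have hnb0 : 0 < (nb : ℝ) := by rw [hnbr]; positivity
  have hna0 : 0 < (na : ℝ) := by rw [hnar]; positivity
  have hM0 : 0 < (M : ℝ) := by linarith
  have hynb : 10 ^ 40 * y ≤ (nb : ℝ) := by rw [hnbr]; linarith
  -- the sampled system
  obtain ⟨S, hdom, hpt⟩ := exists_sys E hE hc hv n g hg1 hg2
  rw [← hC] at hdom
  have hlg0 : 0 < Real.log 2 := Real.log_pos (by norm_num)
  have hlgu : Real.log 2 ≤ 0.694 := by
    have := Real.log_two_lt_d9; linarith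
  have hlg1 : Real.log 2 ≤ 1 := by linarith
  have hlgl : 0.69 ≤ Real.log 2 := by
    have := Real.log_two_gt_d9; linarith
  -- bound on the logarithm
  have hlogQ : ∀ q : ℕ, 0 < q → q ≤ Q1 → Real.log q ≤ 2 * (y ^ 19 * Z) := by
    intro q h0 hq
    have h2 : (q : ℝ) ≤ 2 ^ (2 + (A0 + na + M + B0 + nb + 3 * l)) := by
      have h3 : q ≤ 2 ^ (2 + (A0 + na + M + B0 + nb + 3 * l)) := by
        rw [pow_add]
        refine hq.trans ?_
        rw [hQ1]
        apply Nat.mul_le_mul_right; norm_num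
      exact_mod_cast h3
    have h4 := Real.log_le_log (by exact_mod_cast h0) h2
    rw [Real.log_pow] at h4
    refine h4.trans ?_
    have h5 : ((2 + (A0 + na + M + B0 + nb + 3 * l) : ℕ) : ℝ) ≤ 2 * na := by
      push_cast
      linarith
    rw [← hnar]
    calc ((2 + (A0 + na + M + B0 + nb + 3 * l) : ℕ) : ℝ) * Real.log 2 ≤ (2 * na) * 1 := by gcongr
      _ = 2 * na := mul_one _
  -- bound on the rate
  obtain ⟨s, hs⟩ : ∃ s : ℕ, e = 2 * s := by
    refine ⟨2 ^ (r - 1), ?_⟩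
    rw [he, ← pow_succ']; congr 1; omega
  have hpsi : ∀ q : ℕ, 16 ≤ q → q ≤ Q1 → 0 ≤ psiB q ∧ psiB q ≤ η * 2 ^ e := by
    intro q h16 hq
    exact rate_bound hη hy0 hey hs (by omega) (hrη.trans hry) hZ h16 (hlogQ q (by omega) hq)
  have hbadS : S.Bad (N + 16) Q1 (1 / 2 ^ e) := by
    intro ω hω q hq1 hq2
    obtain ⟨x, hxE, hx1, hx2, hx3, hx4⟩ := hpt ω hω
    have h1 := hbad x hxE q (by omega)
    rw [hx1, hx2, hx3, hx4]
    have h2 : (q : ℝ) * ‖((q * x.1 - (g x).1 : ℝ) : TT)‖ * ‖((q * x.2 - (g x).2 : ℝ) : TT)‖ = q * prd q x (g x) := by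
      unfold prd; ring
    rw [h2]
    have hP : 0 ≤ (q : ℝ) * prd q x (g x) := mul_nonneg (Nat.cast_nonneg _) (prd_nonneg _ _ _)
    obtain ⟨h3, h4⟩ := hpsi q (by omega) hq2
    have h5 : η * 1 ≤ η * ((q * prd q x (g x)) * 2 ^ e) := by
      calc η * 1 = η := mul_one _
        _ ≤ q * psiB q * prd q x (g x) := h1
        _ = (q * prd q x (g x)) * psiB q := by ring
        _ ≤ (q * prd q x (g x)) * (η * 2 ^ e) := by gcongr
        _ = _ := by ring
    have h11 := le_of_mul_le_mul_left h5 hη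
    rw [div_le_iff₀ (by positivity)]; exact h11
  -- the main inequality
  have hMbig : 180000 * e ≤ M := by
    have : ((180000 * e : ℕ) : ℝ) ≤ M := by push_cast; rw [hey]; exact hMl
    exact_mod_cast this
  have hsmall' : A0 + 4 * M + B0 + 3 * l ≤ nb := by
    have : ((A0 + 4 * M + B0 + 3 * l : ℕ) : ℝ) ≤ nb := by push_cast; exact hsmall
    exact_mod_cast this
  have hnab' : nb ≤ na := by
    have : (nb : ℝ) ≤ na := by linarith
    exact_mod_cast this
  have hnaw : 8 * na ≤ 2 ^ w := by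
    have h1 : 8 * na = 2 ^ (19 * r + e + 3) := by rw [hna, pow_add 2 (19 * r + e) 3]; ring
    rw [h1]
    exact Nat.pow_le_pow_right (by norm_num) (by omega)
  have key := S.contrB hC0 hdom (q0 := N + 16) (Q1 := Q1) (e := e) (l := l) (K := K) (t2 := t2) (w2 := w2)
    (A0 := A0) (B0 := B0) (na := na) (nb := nb) (w := w) (t := t) (lam := t) (M := M) hM hbadS
    (by
      intro a b ha hb
      exact ⟨hw2, by omega, by omega, by omega, by omega⟩)
    (by
      intro a b ha ha2 hb hb2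
      refine ⟨by omega, by omega, by omega, by omega, by omega, ?_, by omega, by omega, by omega⟩
      omega)
    (by omega) (by omega)
    (by
      have h1 : N + 16 < 2 ^ (N + 16) := Nat.lt_two_pow_self
      have h2 : 2 ^ (N + 16) ≤ 2 ^ (A0 + B0) := Nat.pow_le_pow_right (by norm_num) (by omega)
      omega)
    hQ1.ge hn.ge
  have hlamr : (2 : ℝ) ^ t = y ^ 3 := by rw [ht, hpowr]
  have ht2r : (2 : ℝ) ^ t2 = y ^ 5 := by rw [ht2, hpowr]
  have hkr : (((3 * l : ℕ)) : ℝ) = 9000 * y := by push_cast; rw [hlr]; ring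
  rw [hmr] at key
  -- (I)
  have hI : 1 ≤ 2 * (((3 * l : ℕ) : ℝ) * Real.log 2) - cA (3 * l) t t C := by
    unfold cA
    rw [hkr, hlamr]
    have e1 : 8 * Real.exp 2 * (9000 * y * Real.log 2 + 1) ^ 2 / (y ^ 3 / 2 ^ (3 * l)) =
        (8 * Real.exp 2 * (9000 * y * Real.log 2 + 1) ^ 2 / y ^ 3) * 2 ^ (3 * l) := by
      field_simp
    rw [e1, Real.log_mul (by positivity) (by positivity), Real.log_pow, hkr]
    have he2 : Real.exp 2 ≤ 8 := by
      have : Real.exp 2 = Real.exp 1 * Real.exp 1 := by rw [← Real.exp_add]; norm_num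
      rw [this]
      have h1 := Real.exp_one_lt_d9
      have h0 := Real.exp_pos 1
      calc Real.exp 1 * Real.exp 1 ≤ 2.8 * 2.8 := by gcongr <;> linarith
        _ ≤ 8 := by norm_num
    have hk1 : 9000 * y * Real.log 2 + 1 ≤ 10000 * y := by
      have : 9000 * y * Real.log 2 ≤ 9000 * y * 1 := by gcongr
      linarith
    have h2 : 8 * Real.exp 2 * (9000 * y * Real.log 2 + 1) ^ 2 / y ^ 3 ≤ Real.exp (-2) := by
      have h3 : 1 / 8 ≤ Real.exp (-2) := by
        rw [Real.exp_neg, one_div]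
        exact inv_anti₀ (Real.exp_pos _) he2
      refine le_trans ?_ h3
      rw [div_le_iff₀ (by positivity)]
      calc 8 * Real.exp 2 * (9000 * y * Real.log 2 + 1) ^ 2 ≤ 8 * 8 * (10000 * y) ^ 2 := by gcongr
        _ = 6400000000 * y ^ 2 := by ring
        _ ≤ (1 / 8 * y) * y ^ 2 := by
          apply mul_le_mul_of_nonneg_right _ (by positivity)
          linarith [show (51200000000 : ℝ) ≤ 10 ^ 40 by norm_num]
        _ = 1 / 8 * y ^ 3 := by ring
    have h4 := Real.log_le_log (by positivity) h2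
    rw [Real.log_exp] at h4
    have h5 : 2 * (9000 * y * Real.log 2) * (4 * (9000 * y * Real.log 2 + 1) * (C * (2 / y ^ 3))) ≤ 1 := by
      calc 2 * (9000 * y * Real.log 2) * (4 * (9000 * y * Real.log 2 + 1) * (C * (2 / y ^ 3)))
          ≤ 2 * (9000 * y * 1) * (4 * (10000 * y) * (C * (2 / y ^ 3))) := by gcongr
        _ = 1440000000 * C / y := by field_simp; norm_num
        _ ≤ 1 := by
          rw [div_le_one hy0]
          linarith
    linarith
  -- (II)
  have hII : (nb : ℝ) * M * ((A0 + 4 * M + B0 + nb) * Real.log 2 + Real.log C) ≤ na * nb := by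
    have h1 : Real.log C ≤ nb := by
      have := Real.log_le_sub_one_of_pos hC0
      linarith
    have h3 : ((A0 : ℝ) + 4 * M + B0 + nb) * Real.log 2 + Real.log C ≤ 3 * nb := by
      have h4 : ((A0 : ℝ) + 4 * M + B0 + nb) * Real.log 2 ≤ (2 * nb) * 1 := by
        apply mul_le_mul _ hlg1 hlg0.le (by positivity)
        have : (0 : ℝ) ≤ 3 * l := by positivity
        linarith
      linarith
    calc (nb : ℝ) * M * ((A0 + 4 * M + B0 + nb) * Real.log 2 + Real.log C) ≤ nb * M * (3 * nb) :=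
          mul_le_mul_of_nonneg_left h3 (by positivity)
      _ ≤ nb * (200000 * y ^ 2) * (3 * nb) := by gcongr
      _ = (600000 * y ^ 2 * (y ^ 16 * Z)) * nb := by rw [hnbr]; ring
      _ ≤ (y * y ^ 2 * (y ^ 16 * Z)) * nb := by
          gcongr
          linarith [show (600000 : ℝ) ≤ 10 ^ 40 by norm_num]
      _ = na * nb := by rw [hnar]; ring
  have hMlg : (M : ℝ) * Real.log 2 ≤ 200000 * y ^ 2 := by
    calc (M : ℝ) * Real.log 2 ≤ M * 1 := by gcongr
      _ ≤ _ := by linarith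
  have hMlg0 : 0 ≤ (M : ℝ) * Real.log 2 := by positivity
  have hMlg1 : (M : ℝ) * Real.log 2 + 1 ≤ 400000 * y ^ 2 := by linarith
  -- (III)
  have hIII : cst2 M e t2 * (na * (M * (M * Real.log 2))) ≤ na * nb := by
    unfold cst2
    have e1 : (1 : ℝ) / 2 ^ (e + t2 + 6) = 1 / (Z * y ^ 5 * 64) := by
      rw [pow_add, pow_add, ht2r, ← hZ]; norm_num
    rw [e1]
    calc 2 * (M * Real.log 2) * (8 * (M * Real.log 2 + 1) ^ 2 / (1 / (Z * y ^ 5 * 64))) * (na * (M * (M * Real.log 2)))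
        ≤ 2 * (200000 * y ^ 2) * (8 * (400000 * y ^ 2) ^ 2 / (1 / (Z * y ^ 5 * 64))) * (na * ((200000 * y ^ 2) * (200000 * y ^ 2))) := by gcongr
      _ = (2 * 200000 * 8 * 400000 ^ 2 * 64 * 200000 ^ 2) * (y ^ 15 * Z) * na := by field_simp
      _ ≤ y * (y ^ 15 * Z) * na := by
          gcongr
          refine le_trans ?_ hy40
          norm_num
      _ = na * nb := by rw [hnbr]; ring
  -- (IV)
  have hIV : cst1 M e t2 w2 C ≤ 6 * y := by
    unfold cst1
    have h1 : Real.log (8 * Real.exp 2 * (M * Real.log 2 + 1) ^ 2 / (1 / 2 ^ (5 * w2 + 2 * t2 + 2 * e + 38))) ≤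
        5 * y + 100 + 100 * r := by
      rw [div_div_eq_mul_div, div_one, Real.log_mul (by positivity) (by positivity),
        Real.log_mul (by positivity) (by positivity), Real.log_mul (by norm_num) (Real.exp_pos _).ne', Real.log_exp,
        Real.log_pow, Real.log_pow]
      have a1 : Real.log 8 ≤ 7 := by
        have := Real.log_le_sub_one_of_pos (show (0 : ℝ) < 8 by norm_num)
        linarith
      have a2 : Real.log (M * Real.log 2 + 1) ≤ 3 * r := by
        have b1 : (M * Real.log 2 + 1 : ℝ) ≤ 2 ^ (3 * r) := by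
          rw [hpowr]
          calc (M * Real.log 2 + 1 : ℝ) ≤ 400000 * y ^ 2 := hMlg1
            _ ≤ y * y ^ 2 := by
              gcongr
              linarith [show (400000 : ℝ) ≤ 10 ^ 40 by norm_num]
            _ = y ^ 3 := by ring
        have b2 := Real.log_le_log (by positivity) b1
        rw [Real.log_pow] at b2
        push_cast at b2
        have b3 : 3 * (r : ℝ) * Real.log 2 ≤ 3 * r * 1 := by gcongr
        linarith
      have a3 : ((5 * w2 + 2 * t2 + 2 * e + 38 : ℕ) : ℝ) * Real.log 2 ≤ 5 * y + 60 + 50 * r := by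
        push_cast
        rw [hw2r, hey, ht2]
        push_cast
        have b1 : 5 * (y + 4 + 5 * r) + 2 * (5 * (r : ℝ)) + 2 * y + 38 = 7 * y + 58 + 35 * r := by ring
        rw [b1]
        calc (7 * y + 58 + 35 * (r : ℝ)) * Real.log 2 ≤ (7 * y + 58 + 35 * r) * 0.694 := by gcongr
          _ ≤ _ := by linarith
      push_cast at a3 ⊢
      linarith
    have h2 : 2 * (M * Real.log 2) * (4 * (M * Real.log 2 + 1) * (C * (256 / 2 ^ t2))) ≤ 1 := by
      rw [ht2r]
      calc 2 * (M * Real.log 2) * (4 * (M * Real.log 2 + 1) * (C * (256 / y ^ 5)))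
          ≤ 2 * (200000 * y ^ 2) * (4 * (400000 * y ^ 2) * (C * (256 / y ^ 5))) := by gcongr
        _ = (163840000000000 * C) / y := by field_simp; norm_num
        _ ≤ 1 := by
          rw [div_le_one hy0]
          have h3 : 10 ^ 10 * C ≤ r := hrC
          have h4 : 5000 * (r : ℝ) ≤ y := by linarith
          have h5 : (10 : ℝ) ^ 10 * C * 10 ^ 10 ≤ y := by
            have h6 : (r : ℝ) * 10 ^ 10 ≤ y := by
              have h7 : (r : ℝ) ≤ 2 ^ (r / 2) := by
                have : ∀ s : ℕ, 10 ≤ s → 2 * s + 1 ≤ 2 ^ s := by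
                  intro s hs4
                  induction s, hs4 using Nat.le_induction with
                  | base => norm_num
                  | succ n hn ih => rw [pow_succ]; omega
                have h8 := this (r / 2) (by omega)
                have h9 : r ≤ 2 ^ (r / 2) := by omega
                exact_mod_cast h9
              have h10 : (10 : ℝ) ^ 10 ≤ 2 ^ (r / 2) := by
                calc (10 : ℝ) ^ 10 ≤ 2 ^ 100 := by norm_num
                  _ ≤ 2 ^ (r / 2) := pow_le_pow_right₀ (by norm_num) (by omega)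
              calc (r : ℝ) * 10 ^ 10 ≤ 2 ^ (r / 2) * 2 ^ (r / 2) := by gcongr
                _ = 2 ^ (r / 2 + r / 2) := by rw [← pow_add]
                _ ≤ 2 ^ r := pow_le_pow_right₀ (by norm_num) (by omega)
                _ = y := hy.symm
            calc (10 : ℝ) ^ 10 * C * 10 ^ 10 ≤ r * 10 ^ 10 := by gcongr
              _ ≤ y := h6
          linarith
    linarith
  -- (V)
  have hV : K * cB (3 * l) e t t * (nb * (l * ((3 * l) * Real.log 2)) + (na + M) * ((2 * l) * ((3 * l) * Real.log 2)) +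
          (na + M) * (((9001 * y + 7) + 3 * l) * (((9001 * y + 7) + 3 * l) * Real.log 2))) ≤ na * nb := by
    unfold cB
    rw [hKr, hkr, hlr]
    have e1 : (1 : ℝ) / 2 ^ (e + 46 + t + t) = 1 / (Z * 2 ^ 46 * y ^ 3 * y ^ 3) := by
      rw [pow_add, pow_add, pow_add, hlamr, ← hZ]
    rw [e1]
    have hk1 : 9000 * y * Real.log 2 + 1 ≤ 10000 * y := by
      have : 9000 * y * Real.log 2 ≤ 9000 * y * 1 := by gcongr
      linarith
    have hbr : (nb : ℝ) * (3000 * y * ((3 * (3000 * y)) * Real.log 2)) + (na + M) * ((2 * (3000 * y)) * ((3 * (3000 * y)) * Real.log 2)) +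
          (na + M) * (((9001 * y + 7) + 3 * (3000 * y)) * (((9001 * y + 7) + 3 * (3000 * y)) * Real.log 2)) ≤ 10 ^ 10 * (y ^ 2 * na) := by
      have h1 : (nb : ℝ) ≤ na := by linarith
      have h2 : (na : ℝ) + M ≤ 2 * na := by linarith
      have h3 : (9001 * y + 7) + 3 * (3000 * y) ≤ 20000 * y := by linarith
      calc _ ≤ (na : ℝ) * (3000 * y * ((3 * (3000 * y)) * 1)) + (2 * na) * ((2 * (3000 * y)) * ((3 * (3000 * y)) * 1)) +
          (2 * na) * ((20000 * y) * ((20000 * y) * 1)) := by gcongr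
        _ = 935000000 * (y ^ 2 * na) := by ring
        _ ≤ _ := by
          apply mul_le_mul_of_nonneg_right (by norm_num) (by positivity)
    calc _ ≤ 10 * y * (2 * (9000 * y * 1) * (8 * (10000 * y) ^ 2 / (1 / (Z * 2 ^ 46 * y ^ 3 * y ^ 3)))) * (10 ^ 10 * (y ^ 2 * na)) := by
          gcongr
      _ = (10 * 2 * 9000 * 8 * 10000 ^ 2 * 2 ^ 46 * 10 ^ 10) * (y ^ 12 * Z) * na := by field_simp
      _ ≤ y * (y ^ 12 * Z) * na := by
          gcongr
          refine le_trans ?_ hy40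
          norm_num
      _ ≤ na * nb := by
          rw [hnbr]
          have := hpow (show 13 ≤ 16 by norm_num)
          calc y * (y ^ 12 * Z) * na = y ^ 13 * Z * na := by ring
            _ ≤ y ^ 16 * Z * na := by gcongr
            _ = _ := by ring
  -- conclusion
  have h1 : (na : ℝ) * nb * (10 * y) ≤ na * nb * (1 + 6 * y + 1 + 1) := by
    have a0 : (na : ℝ) * nb * (10 * y) ≤ na * nb * (K * (2 * (((3 * l : ℕ) : ℝ) * Real.log 2) - cA (3 * l) t t C)) := by
      rw [hKr]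
      calc (na : ℝ) * nb * (10 * y) = na * nb * (10 * y * 1) := by ring
        _ ≤ _ := by gcongr
    have a1 : (na : ℝ) * nb * cst1 M e t2 w2 C ≤ na * nb * (6 * y) := by gcongr
    have a2 : (na : ℝ) * nb * (1 + 6 * y + 1 + 1) = na * nb + na * nb * (6 * y) + na * nb + na * nb := by ring
    rw [a2]
    linarith
  have h2 := le_of_mul_le_mul_left h1 (by positivity)
  linarith [show (100 : ℝ) ≤ 10 ^ 40 by norm_num]

end Run7.h297
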