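import Pool.Agent.Run7.h297.CaseTwo

set_option autoImplicit false

/-! The node inequality for digit systems without good approximations. -/

noncomputable section

namespace Run7.h297

open Real Finset MeasureTheory

/-- parameters of a node -/
def par2 (a b M e t w : ℕ) : Par where
  N := 2 ^ M
  ℓ := 2 ^ a
  Q := 2 ^ (a + b)
  I := 2 ^ (2 * a + b)
  J := 2 ^ (a + 2 * b)
  Rl := 2 ^ (M + a - 2 - w)
  Rh := 2 ^ (w + M + a - 2)
  R2 := 2 ^ (w + e + 6 + b - M)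
  D := 2 ^ (2 * w + 4)
  Kc := 2 ^ (2 * w + e + 11 + t)
  A := 2 ^ (w + M)
  δ₁ := 4 / (2 ^ M * 2 ^ a)
  δ₂ := 2 ^ M / (2 ^ (e + 6) * 2 ^ b)
  r := 2 ^ w / 2 ^ (a + b)
  ρ := 2 ^ w * 2 ^ M / 2 ^ (a + b)
  K := 2 ^ (t + 1)

/-- admissible exponents -/
structure Exps (a b M e t w : ℕ) : Prop where
  hw : w = e + 4 + t
  hM : e + 8 ≤ M
  hb : M ≤ b
  ha : w + 3 ≤ a
  hab : w + M + 8 ≤ a + b

section

variable {a b M e t w : ℕ} (he : Exps a b M e t w)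

include he

theorem Exps.Rl : ((par2 a b M e t w).Rl : ℝ) = 2 ^ M * 2 ^ a / (4 * 2 ^ w) := by
  have h := he.ha
  have : M + a - 2 - w + (w + 2) = M + a := by omega
  have e1 : (2 : ℝ) ^ (M + a - 2 - w) * 2 ^ (w + 2) = 2 ^ (M + a) := by rw [← pow_add, this]
  show (((2 ^ (M + a - 2 - w) : ℕ)) : ℝ) = _
  push_cast
  rw [eq_div_iff (by positivity)]
  rw [pow_add 2 M a, pow_add 2 w 2] at e1
  linarith

theorem Exps.Rh : ((par2 a b M e t w).Rh : ℝ) = 2 ^ w * 2 ^ M * 2 ^ a / 4 := by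
  have h := he.ha
  have : w + M + a - 2 + 2 = w + M + a := by omega
  have e1 : (2 : ℝ) ^ (w + M + a - 2) * 2 ^ 2 = 2 ^ (w + M + a) := by rw [← pow_add, this]
  show (((2 ^ (w + M + a - 2) : ℕ)) : ℝ) = _
  push_cast
  rw [pow_add 2 (w + M) a, pow_add 2 w M] at e1
  linarith

theorem Exps.R2 : ((par2 a b M e t w).R2 : ℝ) = 64 * 2 ^ w * 2 ^ e * 2 ^ b / 2 ^ M := by
  have h := he.hb
  have : w + e + 6 + b - M + M = w + e + 6 + b := by omega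
  have e1 : (2 : ℝ) ^ (w + e + 6 + b - M) * 2 ^ M = 2 ^ (w + e + 6 + b) := by rw [← pow_add, this]
  show (((2 ^ (w + e + 6 + b - M) : ℕ)) : ℝ) = _
  push_cast
  rw [eq_div_iff (by positivity), e1, pow_add 2 (w + e + 6) b, pow_add 2 (w + e) 6, pow_add 2 w e]
  ring

theorem Exps.W : (2 : ℝ) ^ w = 16 * 2 ^ e * 2 ^ t := by
  rw [he.hw, pow_add, pow_add]; ring

theorem Exps.V : (par2 a b M e t w).V = 1 / (16 * 2 ^ e) := by
  unfold Par.V
  show ((2 ^ (a + b) : ℕ) : ℝ) * ((4 / (2 ^ M * 2 ^ a)) * (2 ^ M / (2 ^ (e + 6) * 2 ^ b))) = _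
  push_cast
  rw [pow_add 2 a b, pow_add 2 e 6]
  field_simp
  norm_num

theorem Exps.ok : (par2 a b M e t w).Ok := by
  have hRl := he.Rl
  have hRh := he.Rh
  have hR2 := he.R2
  have hW := he.W
  have g1 : (256 : ℝ) * 2 ^ e ≤ 2 ^ M := by
    have : (2 : ℝ) ^ (8 + e) ≤ 2 ^ M := pow_le_pow_right₀ (by norm_num) (by have := he.hM; omega)
    rw [pow_add] at this; norm_num at this; exact this
  have g2 : (2 : ℝ) ^ M ≤ 2 ^ b := pow_le_pow_right₀ (by norm_num) he.hb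
  have g3 : (8 : ℝ) * 2 ^ w ≤ 2 ^ a := by
    have : (2 : ℝ) ^ (3 + w) ≤ 2 ^ a := pow_le_pow_right₀ (by norm_num) (by have := he.ha; omega)
    rw [pow_add] at this; norm_num at this; exact this
  have g4 : (256 : ℝ) * (2 ^ w * 2 ^ M) ≤ 2 ^ a * 2 ^ b := by
    have : (2 : ℝ) ^ (8 + (w + M)) ≤ 2 ^ (a + b) := pow_le_pow_right₀ (by norm_num) (by have := he.hab; omega)
    rw [pow_add, pow_add, pow_add] at this; norm_num at this; exact this
  have k1 : (1 : ℝ) ≤ 2 ^ e := one_le_pow₀ (by norm_num)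
  have k2 : (1 : ℝ) ≤ 2 ^ w := one_le_pow₀ (by norm_num)
  have k3 : (1 : ℝ) ≤ 2 ^ M := one_le_pow₀ (by norm_num)
  have k4 : (1 : ℝ) ≤ 2 ^ a := one_le_pow₀ (by norm_num)
  have k5 : (1 : ℝ) ≤ 2 ^ b := one_le_pow₀ (by norm_num)
  have k6 : (1 : ℝ) ≤ 2 ^ t := one_le_pow₀ (by norm_num)
  have rI : ((par2 a b M e t w).I : ℝ) = (2 ^ a) ^ 2 * 2 ^ b := by
    show ((2 ^ (2 * a + b) : ℕ) : ℝ) = _
    push_cast; rw [pow_add, mul_comm 2 a, pow_mul]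
  have rJ : ((par2 a b M e t w).J : ℝ) = 2 ^ a * (2 ^ b) ^ 2 := by
    show ((2 ^ (a + 2 * b) : ℕ) : ℝ) = _
    push_cast; rw [pow_add, mul_comm 2 b, pow_mul]
  have rr : (par2 a b M e t w).r = 2 ^ w / (2 ^ a * 2 ^ b) := by
    show (2 : ℝ) ^ w / 2 ^ (a + b) = _
    rw [pow_add]
  have rρ : (par2 a b M e t w).ρ = 2 ^ w * 2 ^ M / (2 ^ a * 2 ^ b) := by
    show (2 : ℝ) ^ w * 2 ^ M / 2 ^ (a + b) = _
    rw [pow_add]
  have rN : ((par2 a b M e t w).N : ℝ) = 2 ^ M := by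
    show ((2 ^ M : ℕ) : ℝ) = _
    push_cast; rfl
  have rD : ((par2 a b M e t w).D : ℝ) = 16 * (2 ^ w) ^ 2 := by
    show ((2 ^ (2 * w + 4) : ℕ) : ℝ) = _
    push_cast; rw [pow_add, mul_comm 2 w, pow_mul]; norm_num; ring
  set Ea : ℝ := 2 ^ e
  set Wa : ℝ := 2 ^ w
  set Na : ℝ := 2 ^ M
  set Aa : ℝ := 2 ^ a
  set Ba : ℝ := 2 ^ b
  set Ta : ℝ := 2 ^ t
  have AB0 : 0 < Aa * Ba := by positivity
  have q1 : Wa * Na * Aa / 4 / (Aa ^ 2 * Ba) = (Wa * Na / 4) / (Aa * Ba) := by field_simp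
  have q2 : 64 * Wa * Ea * Ba / Na / (Aa * Ba ^ 2) = (64 * Wa * Ea / Na) / (Aa * Ba) := by field_simp
  have q3 : 64 * Wa * Ea / Na ≤ Wa / 4 := by
    rw [div_le_iff₀ (by positivity)]
    linarith [mul_le_mul_of_nonneg_left g1 (show 0 ≤ Wa by positivity)]
  refine ⟨Nat.pos_of_ne_zero (by show 2 ^ M ≠ 0; positivity), Nat.pos_of_ne_zero (by show 2 ^ a ≠ 0; positivity),
    Nat.pos_of_ne_zero (by show 2 ^ (a + b) ≠ 0; positivity), Nat.pos_of_ne_zero (by show 2 ^ (2 * a + b) ≠ 0; positivity),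
    Nat.pos_of_ne_zero (by show 2 ^ (a + 2 * b) ≠ 0; positivity), Nat.pos_of_ne_zero (by show 2 ^ (M + a - 2 - w) ≠ 0; positivity),
    ?_, ?_, ?_, ?_, ?_, ?_, ?_, ?_, ?_, ?_⟩
  · show (0 : ℝ) < 4 / (2 ^ M * 2 ^ a); positivity
  · show 4 / (Na * Aa) ≤ 1 / 2
    rw [div_le_div_iff₀ (by positivity) (by norm_num)]
    linarith [mul_le_mul_of_nonneg_left k4 (show 0 ≤ Na by positivity)]
  · show (0 : ℝ) < 2 ^ M / (2 ^ (e + 6) * 2 ^ b); positivity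
  · show Na / (2 ^ (e + 6) * Ba) ≤ 1 / 2
    have : (2 : ℝ) ^ (e + 6) = Ea * 64 := by rw [pow_add]; norm_num; rfl
    rw [this, div_le_div_iff₀ (by positivity) (by norm_num)]
    linarith [mul_le_mul_of_nonneg_right k1 (show 0 ≤ Ba by positivity)]
  · rw [rr]; positivity
  · show (0 : ℝ) < 2 ^ (t + 1); positivity
  · rw [hRh, hR2, rI, rJ, q1, q2, ← add_div, div_le_div_iff₀ AB0 (by norm_num)]
    linarith [mul_le_mul_of_nonneg_left k3 (show 0 ≤ Wa by positivity)]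
  · rw [rN, rI, rJ, rr, hR2, hRl, rD, q2]
    have e1 : Na * (Aa ^ 2 * Ba) * (2 * (Wa / (Aa * Ba)) + 64 * Wa * Ea / Na / (Aa * Ba)) =
      Aa * (2 * Na * Wa + Na * (64 * Wa * Ea / Na)) := by field_simp
    have e2 : 16 * Wa ^ 2 * (Na * Aa / (4 * Wa)) = Aa * (4 * Wa * Na) := by field_simp; norm_num
    rw [e1, e2]
    apply mul_le_mul_of_nonneg_left _ (by positivity)
    have : Na * (64 * Wa * Ea / Na) ≤ Na * (Wa / 4) := by gcongr
    linarith [show 0 ≤ Na * Wa by positivity]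
  · rw [rr, hRh, rI, hR2, rJ, rρ, q1, q2]
    have e1 : 2 * (Wa / (Aa * Ba)) + Wa * Na / 4 / (Aa * Ba) + 64 * Wa * Ea / Na / (Aa * Ba) =
      (2 * Wa + Wa * Na / 4 + 64 * Wa * Ea / Na) / (Aa * Ba) := by ring
    rw [e1]
    apply div_le_div_of_nonneg_right _ AB0.le
    linarith [mul_le_mul_of_nonneg_left (show (256 : ℝ) ≤ Na by linarith) (show 0 ≤ Wa by positivity)]
  · show 2 ^ (w + M + a - 2) + 2 ^ a ≤ 2 ^ (w + M) * 2 ^ a
    have h1 : 2 ^ (w + M + a - 2) * 2 ^ 2 = 2 ^ (w + M) * 2 ^ a := by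
      rw [← pow_add, ← pow_add]; congr 1; have := he.ha; omega
    have h2 : 2 * 2 ^ a ≤ 2 ^ (w + M) * 2 ^ a := by
      apply Nat.mul_le_mul_right
      calc 2 = 2 ^ 1 := rfl
        _ ≤ 2 ^ (w + M) := Nat.pow_le_pow_right (by norm_num) (by have := he.hM; omega)
    omega

theorem Exps.meas : volume {x : TT × TT | Gen (par2 a b M e t w) x}ᶜ ≤ ENNReal.ofReal (256 / 2 ^ t) := by
  have hok := he.ok
  have hRl := he.Rl
  have hRh := he.Rh
  have hR2 := he.R2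
  have hW := he.W
  have hV := he.V
  have g1 : (256 : ℝ) * 2 ^ e ≤ 2 ^ M := by
    have : (2 : ℝ) ^ (8 + e) ≤ 2 ^ M := pow_le_pow_right₀ (by norm_num) (by have := he.hM; omega)
    rw [pow_add] at this; norm_num at this; exact this
  have g2 : (2 : ℝ) ^ M ≤ 2 ^ b := pow_le_pow_right₀ (by norm_num) he.hb
  have g3 : (8 : ℝ) * 2 ^ w ≤ 2 ^ a := by
    have : (2 : ℝ) ^ (3 + w) ≤ 2 ^ a := pow_le_pow_right₀ (by norm_num) (by have := he.ha; omega)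
    rw [pow_add] at this; norm_num at this; exact this
  have k1 : (1 : ℝ) ≤ 2 ^ e := one_le_pow₀ (by norm_num)
  have k2 : (1 : ℝ) ≤ 2 ^ w := one_le_pow₀ (by norm_num)
  have k3 : (1 : ℝ) ≤ 2 ^ M := one_le_pow₀ (by norm_num)
  have k4 : (1 : ℝ) ≤ 2 ^ a := one_le_pow₀ (by norm_num)
  have k5 : (1 : ℝ) ≤ 2 ^ b := one_le_pow₀ (by norm_num)
  have k6 : (1 : ℝ) ≤ 2 ^ t := one_le_pow₀ (by norm_num)
  set p := par2 a b M e t w with hp
  have rQ : (p.Q : ℝ) = 2 ^ a * 2 ^ b := by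
    show ((2 ^ (a + b) : ℕ) : ℝ) = _
    push_cast; rw [pow_add]
  have rr : p.r = 2 ^ w / (2 ^ a * 2 ^ b) := by
    show (2 : ℝ) ^ w / 2 ^ (a + b) = _
    rw [pow_add]
  have rρ : p.ρ = 2 ^ w * 2 ^ M / (2 ^ a * 2 ^ b) := by
    show (2 : ℝ) ^ w * 2 ^ M / 2 ^ (a + b) = _
    rw [pow_add]
  have rK : p.K = 2 * 2 ^ t := by
    show (2 : ℝ) ^ (t + 1) = _
    rw [pow_succ]; ring
  have rKc : (p.Kc : ℝ) = 2048 * (2 ^ w) ^ 2 * 2 ^ e * 2 ^ t := by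
    show ((2 ^ (2 * w + e + 11 + t) : ℕ) : ℝ) = _
    push_cast
    rw [pow_add, pow_add, pow_add, mul_comm 2 w, pow_mul]; norm_num; ring
  have rδ₁ : p.δ₁ = 4 / (2 ^ M * 2 ^ a) := rfl
  have rδ₂ : p.δ₂ = 2 ^ M / (2 ^ e * 64 * 2 ^ b) := by
    show (2 : ℝ) ^ M / (2 ^ (e + 6) * 2 ^ b) = _
    rw [pow_add]; norm_num
  have rℓ : (p.ℓ : ℝ) = 2 ^ a := by
    show ((2 ^ a : ℕ) : ℝ) = _
    push_cast; rfl
  have hsub : {x : TT × TT | Gen p x}ᶜ ⊆ {x | p.K ≤ SS p.Q p.δ₁ p.δ₂ 0 x 0} ∪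
      ({x | p.V / 20 ≤ Rest p.Q p.δ₁ p.δ₂ p.Rl p.Rh p.R2 p.r x} ∪
      {x | ((p.Kc : ℝ) + 1) ≤ ((p.W.filter (fun m => ‖dm m x‖ ≤ p.ρ)).card : ℝ)}) := by
    intro x hx
    by_contra hcon
    simp only [Set.mem_union, Set.mem_ofPred_eq, not_or, not_le] at hcon
    apply hx
    refine ⟨hcon.1.le, hcon.2.1.le, ?_⟩
    have := hcon.2.2
    have h3 : (p.W.filter (fun m => ‖dm m x‖ ≤ p.ρ)).card < p.Kc + 1 := by exact_mod_cast this
    omega
  have hRh0 : 0 < p.Rh := Nat.pos_of_ne_zero (by show 2 ^ (w + M + a - 2) ≠ 0; positivity)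
  have hR20 : 0 < p.R2 := Nat.pos_of_ne_zero (by show 2 ^ (w + e + 6 + b - M) ≠ 0; positivity)
  have hr0 : 0 < p.r := by rw [rr]; positivity
  have hV0 := hok.V_pos
  have m1 := meas_Sp hok.hQ hok.h₁ hok.h₁' hok.h₂ hok.h₂' hok.hK
  have m2 := meas_Rest hok.hQ hok.h₁ hok.h₁' hok.h₂ hok.h₂' (Rl := p.Rl) hRh0 hR20 hr0 (t := p.V / 20) (by positivity)
  have m3 := meas_count p.W (fun m hm => (Finset.mem_filter.mp hm).2) (ρ := p.ρ) (t := (p.Kc : ℝ) + 1)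
    (by rw [rρ]; positivity) (by positivity)
  have hVV : (p.Q : ℝ) * (p.δ₁ * p.δ₂) = 1 / (16 * 2 ^ e) := hV
  rw [hVV] at m1
  have b1 : (1 + 1 / (16 * 2 ^ e)) / p.K ≤ 1 / 2 ^ t := by
    rw [rK, div_le_div_iff₀ (by positivity) (by positivity)]
    have : (1 : ℝ) / (16 * 2 ^ e) ≤ 1 := by
      rw [div_le_one (by positivity)]; linarith
    linarith [mul_le_mul_of_nonneg_right this (show (0 : ℝ) ≤ 2 ^ t by positivity)]
  have b2 : (((2 * p.Rl + 1) * p.δ₁ + 1 / (p.δ₁ * p.Rh) + 1 / (p.δ₂ * p.R2) + 2 / (p.Q * p.r)) / (p.V / 20)) ≤ 140 / 2 ^ t := by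
    rw [hRl, hRh, hR2, rδ₁, rδ₂, rQ, rr, hV]
    set Ea : ℝ := 2 ^ e
    set Wa : ℝ := 2 ^ w
    set Na : ℝ := 2 ^ M
    set Aa : ℝ := 2 ^ a
    set Ba : ℝ := 2 ^ b
    set Ta : ℝ := 2 ^ t
    have c1 : (2 * (Na * Aa / (4 * Wa)) + 1) * (4 / (Na * Aa)) ≤ 3 / Wa := by
      have : (2 * (Na * Aa / (4 * Wa)) + 1) * (4 / (Na * Aa)) = 2 / Wa + 4 / (Na * Aa) := by
        field_simp
      rw [this]
      have : 4 / (Na * Aa) ≤ 1 / Wa := by
        rw [div_le_div_iff₀ (by positivity) (by positivity)]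
        linarith [mul_le_mul_of_nonneg_right k3 (show 0 ≤ Aa by positivity)]
      have e3 : 3 / Wa = 2 / Wa + 1 / Wa := by ring
      linarith
    have c2 : 1 / (4 / (Na * Aa) * (Wa * Na * Aa / 4)) = 1 / Wa := by field_simp
    have c3 : 1 / (Na / (Ea * 64 * Ba) * (64 * Wa * Ea * Ba / Na)) = 1 / Wa := by field_simp
    have c4 : 2 / (Aa * Ba * (Wa / (Aa * Ba))) = 2 / Wa := by field_simp
    rw [c2, c3, c4]
    have c5 : (2 * (Na * Aa / (4 * Wa)) + 1) * (4 / (Na * Aa)) + 1 / Wa + 1 / Wa + 2 / Wa ≤ 7 / Wa := by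
      have e3 : 7 / Wa = 3 / Wa + 1 / Wa + 1 / Wa + 2 / Wa := by ring
      linarith
    calc _ ≤ (7 / Wa) / (1 / (16 * Ea) / 20) := by gcongr
      _ = 140 / Ta := by rw [hW]; field_simp; norm_num
  have b3 : (p.W.card : ℝ) * (2 * p.ρ) / ((p.Kc : ℝ) + 1) ≤ 1 / 2 ^ t := by
    have hc : p.W.card ≤ (2 * p.ℓ + 1) * (4 * p.R2 + 1) := by
      unfold Par.W
      refine (Finset.card_filter_le _ _).trans ?_
      rw [Finset.card_product, Int.card_Icc, Int.card_Icc]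
      apply Nat.mul_le_mul <;> omega
    have hc2 : (p.W.card : ℝ) ≤ (2 * 2 ^ a + 1) * (4 * (64 * 2 ^ w * 2 ^ e * 2 ^ b / 2 ^ M) + 1) := by
      have : (p.W.card : ℝ) ≤ (2 * p.ℓ + 1) * (4 * p.R2 + 1) := by exact_mod_cast hc
      rw [rℓ, hR2] at this; exact this
    rw [rρ, rKc]
    set Ea : ℝ := 2 ^ e
    set Wa : ℝ := 2 ^ w
    set Na : ℝ := 2 ^ M
    set Aa : ℝ := 2 ^ a
    set Ba : ℝ := 2 ^ b
    set Ta : ℝ := 2 ^ t
    have hX : 1 ≤ 64 * Wa * Ea * Ba / Na := by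
      rw [le_div_iff₀ (by positivity)]
      linarith [mul_le_mul_of_nonneg_right (one_le_mul_of_one_le_of_one_le k2 k1) (show 0 ≤ Ba by positivity)]
    have hc3 : (p.W.card : ℝ) ≤ (3 * Aa) * (5 * (64 * Wa * Ea * Ba / Na)) := by
      refine hc2.trans ?_
      apply mul_le_mul
      · linarith
      · linarith
      · positivity
      · positivity
    rw [div_le_div_iff₀ (by positivity) (by positivity), one_mul]
    calc (p.W.card : ℝ) * (2 * (Wa * Na / (Aa * Ba))) * Ta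
        ≤ ((3 * Aa) * (5 * (64 * Wa * Ea * Ba / Na))) * (2 * (Wa * Na / (Aa * Ba))) * Ta := by gcongr
      _ = 1920 * Wa ^ 2 * Ea * Ta := by field_simp; norm_num
      _ ≤ 2048 * Wa ^ 2 * Ea * Ta + 1 := by
          have : 0 ≤ Wa ^ 2 * Ea * Ta := by positivity
          linarith
  refine (measure_mono hsub).trans ((measure_union_le _ _).trans ?_)
  calc _ ≤ ENNReal.ofReal (1 / 2 ^ t) + (ENNReal.ofReal (140 / 2 ^ t) + ENNReal.ofReal (1 / 2 ^ t)) := by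
        apply add_le_add (m1.trans (ENNReal.ofReal_le_ofReal b1))
        refine (measure_union_le _ _).trans ?_
        exact add_le_add (m2.trans (ENNReal.ofReal_le_ofReal b2)) (m3.trans (ENNReal.ofReal_le_ofReal b3))
    _ ≤ ENNReal.ofReal (256 / 2 ^ t) := by
        rw [← ENNReal.ofReal_add (by positivity) (by positivity), ← ENNReal.ofReal_add (by positivity) (by positivity)]
        apply ENNReal.ofReal_le_ofReal
        rw [← add_div, ← add_div]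
        apply div_le_div_of_nonneg_right _ (by positivity)
        norm_num

end

end Run7.h297
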