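import Pool.Agent.Run7.h297.Ret
import Pool.Agent.Run7.h297.Two

set_option autoImplicit false

/-! Parameters of the shapes for the third coordinate. -/

noncomputable section

namespace Run7.h297

open Real Finset MeasureTheory

/-- points without returns -/
def NRet (r1 r2 : ℝ) (N : ℕ) : Set (TT × TT) := {x | ∀ d : ℕ, 1 ≤ d → d ≤ N → x ∉ RetS r1 r2 d}

theorem meas_NRet {r1 r2 : ℝ} (h1 : 0 ≤ r1) (N : ℕ) : volume (NRet r1 r2 N)ᶜ ≤ ENNReal.ofReal (N * (4 * r1 * r2)) := by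
  have hsub : (NRet r1 r2 N)ᶜ ⊆ ⋃ d ∈ Finset.Icc 1 N, RetS r1 r2 d := by
    intro x hx
    by_contra hcon
    simp only [Set.mem_iUnion, not_exists] at hcon
    apply hx
    intro d hd1 hd2
    exact hcon d (Finset.mem_Icc.mpr ⟨hd1, hd2⟩)
  refine (measure_mono hsub).trans ((measure_biUnion_finset_le _ _).trans ?_)
  calc ∑ d ∈ Finset.Icc 1 N, volume (RetS r1 r2 d) ≤ ∑ d ∈ Finset.Icc 1 N, ENNReal.ofReal (4 * r1 * r2) := by
        apply Finset.sum_le_sum; intro d hd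
        rw [Finset.mem_Icc] at hd
        exact meas_RetS hd.1 h1
    _ = ENNReal.ofReal (N * (4 * r1 * r2)) := by
        rw [Finset.sum_const, nsmul_eq_mul, Nat.card_Icc, Nat.add_sub_cancel, ENNReal.ofReal_mul (Nat.cast_nonneg _), ENNReal.ofReal_natCast]

/-- parameters of a shape -/
def par3 (a b M e t w u v : ℕ) : Par where
  N := 2 ^ M
  ℓ := 2 ^ a
  Q := 2 ^ (a - u + (b - v))
  I := 2 ^ (2 * a + b)
  J := 2 ^ (a + 2 * b)
  Rl := 2 ^ (M + (a - u) - 2 - w)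
  Rh := 2 ^ (w + M + (a - u) - 2)
  R2 := 2 ^ (w + e + 6 + (b - v) - M)
  D := 2 ^ (2 * w + 4 + 2 * u + v)
  Kc := 2 ^ (2 * w + e + 11 + t + u)
  A := 2 ^ (w + M)
  δ₁ := 4 / (2 ^ M * 2 ^ (a - u))
  δ₂ := 2 ^ M / (2 ^ (e + 6) * 2 ^ (b - v))
  r := 2 ^ w / 2 ^ (a - u + (b - v))
  ρ := 2 ^ w * 2 ^ M / 2 ^ (a - u + (b - v))
  K := 2 ^ (t + 1)

/-- admissible exponents -/
structure ExP (a b M e t w n : ℕ) : Prop where
  hw : w = e + 4 + t
  hM : e + 8 ≤ M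
  hb : M + n ≤ b
  ha : w + 3 + n ≤ a
  hab : w + M + 8 + 2 * n ≤ a + b

section

variable {a b M e t w n : ℕ} (he : ExP a b M e t w n) {u v : ℕ} (hu : u ≤ n) (hv : v ≤ n)

include he hu hv

theorem ExP.ex : Exps (a - u) (b - v) M e t w := by
  obtain ⟨h1, h2, h3, h4, h5⟩ := he
  refine ⟨h1, h2, ?_, ?_, ?_⟩ <;> omega

theorem ExP.eqs : (2 : ℝ) ^ a = 2 ^ (a - u) * 2 ^ u ∧ (2 : ℝ) ^ b = 2 ^ (b - v) * 2 ^ v := by
  have h3 := he.hb
  have h4 := he.ha
  constructor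
  · rw [← pow_add]; congr 1; omega
  · rw [← pow_add]; congr 1; omega

theorem ExP.ok : (par3 a b M e t w u v).Ok := by
  have hx := he.ex hu hv
  have hok := hx.ok
  have hRl := hx.Rl
  have hR2 := hx.R2
  obtain ⟨ea, eb⟩ := he.eqs hu hv
  have g1 : (256 : ℝ) * 2 ^ e ≤ 2 ^ M := by
    have : (2 : ℝ) ^ (8 + e) ≤ 2 ^ M := pow_le_pow_right₀ (by norm_num) (by have := he.hM; omega)
    rw [pow_add] at this; norm_num at this; exact this
  have hI : ((par2 (a - u) (b - v) M e t w).I : ℝ) ≤ ((par3 a b M e t w u v).I : ℝ) := by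
    have : (par2 (a - u) (b - v) M e t w).I ≤ (par3 a b M e t w u v).I := by
      show 2 ^ (2 * (a - u) + (b - v)) ≤ 2 ^ (2 * a + b)
      exact Nat.pow_le_pow_right (by norm_num) (by omega)
    exact_mod_cast this
  have hJ : ((par2 (a - u) (b - v) M e t w).J : ℝ) ≤ ((par3 a b M e t w u v).J : ℝ) := by
    have : (par2 (a - u) (b - v) M e t w).J ≤ (par3 a b M e t w u v).J := by
      show 2 ^ ((a - u) + 2 * (b - v)) ≤ 2 ^ (a + 2 * b)
      exact Nat.pow_le_pow_right (by norm_num) (by omega)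
    exact_mod_cast this
  have hI0 : (0 : ℝ) < (par2 (a - u) (b - v) M e t w).I := by exact_mod_cast hok.hI
  have hJ0 : (0 : ℝ) < (par2 (a - u) (b - v) M e t w).J := by exact_mod_cast hok.hJ
  have cI : ((par3 a b M e t w u v).Rh : ℝ) / (par3 a b M e t w u v).I ≤ ((par2 (a - u) (b - v) M e t w).Rh : ℝ) / (par2 (a - u) (b - v) M e t w).I := by
    have : (par3 a b M e t w u v).Rh = (par2 (a - u) (b - v) M e t w).Rh := rfl
    rw [this]; gcongr
  have cJ : ((par3 a b M e t w u v).R2 : ℝ) / (par3 a b M e t w u v).J ≤ ((par2 (a - u) (b - v) M e t w).R2 : ℝ) / (par2 (a - u) (b - v) M e t w).J := by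
    have : (par3 a b M e t w u v).R2 = (par2 (a - u) (b - v) M e t w).R2 := rfl
    rw [this]; gcongr
  refine ⟨hok.hN, Nat.pos_of_ne_zero (by show 2 ^ a ≠ 0; positivity), hok.hQ, Nat.pos_of_ne_zero (by show 2 ^ (2 * a + b) ≠ 0; positivity),
    Nat.pos_of_ne_zero (by show 2 ^ (a + 2 * b) ≠ 0; positivity), hok.hRl, hok.h₁, hok.h₁', hok.h₂, hok.h₂', hok.hr, hok.hK, ?_, ?_, ?_, ?_⟩
  · have := hok.hwrap
    linarith
  · have rI : ((par3 a b M e t w u v).I : ℝ) = (2 ^ (a - u) * 2 ^ u) ^ 2 * (2 ^ (b - v) * 2 ^ v) := by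
      show ((2 ^ (2 * a + b) : ℕ) : ℝ) = _
      push_cast; rw [pow_add, mul_comm 2 a, pow_mul, ea, eb]
    have rJ : ((par3 a b M e t w u v).J : ℝ) = (2 ^ (a - u) * 2 ^ u) * (2 ^ (b - v) * 2 ^ v) ^ 2 := by
      show ((2 ^ (a + 2 * b) : ℕ) : ℝ) = _
      push_cast; rw [pow_add, mul_comm 2 b, pow_mul, ea, eb]
    have rr : (par3 a b M e t w u v).r = 2 ^ w / (2 ^ (a - u) * 2 ^ (b - v)) := by
      show (2 : ℝ) ^ w / 2 ^ (a - u + (b - v)) = _
      rw [pow_add]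
    have rN : ((par3 a b M e t w u v).N : ℝ) = 2 ^ M := by
      show ((2 ^ M : ℕ) : ℝ) = _
      push_cast; rfl
    have rD : ((par3 a b M e t w u v).D : ℝ) = 16 * (2 ^ w) ^ 2 * (2 ^ u) ^ 2 * 2 ^ v := by
      show ((2 ^ (2 * w + 4 + 2 * u + v) : ℕ) : ℝ) = _
      push_cast; rw [pow_add, pow_add, pow_add, mul_comm 2 w, mul_comm 2 u, pow_mul, pow_mul]; norm_num; ring
    have rRl : ((par3 a b M e t w u v).Rl : ℝ) = 2 ^ M * 2 ^ (a - u) / (4 * 2 ^ w) := hRl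
    have rR2 : ((par3 a b M e t w u v).R2 : ℝ) = 64 * 2 ^ w * 2 ^ e * 2 ^ (b - v) / 2 ^ M := hR2
    rw [rN, rI, rJ, rr, rR2, rRl, rD]
    have k0 : (1 : ℝ) ≤ 2 ^ u := one_le_pow₀ (by norm_num)
    have k1 : (1 : ℝ) ≤ 2 ^ v := one_le_pow₀ (by norm_num)
    have kE : (0 : ℝ) < 2 ^ e := by positivity
    have kW : (0 : ℝ) < 2 ^ w := by positivity
    have kN : (0 : ℝ) < 2 ^ M := by positivity
    have kA : (0 : ℝ) < 2 ^ (a - u) := by positivity
    have kB : (0 : ℝ) < 2 ^ (b - v) := by positivity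
    generalize (2 : ℝ) ^ e = Ea at *
    generalize (2 : ℝ) ^ w = Wa at *
    generalize (2 : ℝ) ^ M = Na at *
    generalize (2 : ℝ) ^ (a - u) = Aa at *
    generalize (2 : ℝ) ^ (b - v) = Ba at *
    generalize (2 : ℝ) ^ u = Ua at *
    generalize (2 : ℝ) ^ v = Va at *
    have U0 : 0 < Ua := by linarith
    have V0 : 0 < Va := by linarith
    have e1 : Na * ((Aa * Ua) ^ 2 * (Ba * Va)) * (2 * (Wa / (Aa * Ba)) + 64 * Wa * Ea * Ba / Na / (Aa * Ua * (Ba * Va) ^ 2)) =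
      Wa * Aa * (2 * Na * (Ua ^ 2 * Va) + 64 * Ea * (Ua / Va)) := by field_simp
    have e2 : 16 * Wa ^ 2 * Ua ^ 2 * Va * (Na * Aa / (4 * Wa)) = Wa * Aa * (4 * Na * (Ua ^ 2 * Va)) := by field_simp; norm_num
    rw [e1, e2]
    apply mul_le_mul_of_nonneg_left _ (by positivity)
    have e3 : Ua / Va ≤ Ua ^ 2 * Va := by
      rw [div_le_iff₀ V0]
      calc Ua = Ua * 1 * 1 := by ring
        _ ≤ Ua * Ua * (Va * Va) := by
          apply mul_le_mul (by gcongr) _ (by norm_num) (by positivity)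
          nlinarith
        _ = _ := by ring
    have e4 : 64 * Ea * (Ua / Va) ≤ 64 * Ea * (Ua ^ 2 * Va) := by gcongr
    have e5 : 64 * Ea * (Ua ^ 2 * Va) ≤ Na * (Ua ^ 2 * Va) := by
      apply mul_le_mul_of_nonneg_right _ (by positivity); linarith
    have e6 : 0 < Na * (Ua ^ 2 * Va) := by positivity
    linarith
  · have h1 := hok.hρ
    have h2 : (par2 (a - u) (b - v) M e t w).r = (par3 a b M e t w u v).r := rfl
    have h3 : (par2 (a - u) (b - v) M e t w).ρ = (par3 a b M e t w u v).ρ := rfl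
    rw [h2, h3] at h1
    linarith
  · show 2 ^ (w + M + (a - u) - 2) + 2 ^ a ≤ 2 ^ (w + M) * 2 ^ a
    have hM := he.hM
    have h1 : 2 ^ (w + M + (a - u) - 2) * 2 ≤ 2 ^ (w + M) * 2 ^ a := by
      rw [← pow_succ, ← pow_add]; exact Nat.pow_le_pow_right (by norm_num) (by omega)
    have h2 : 2 * 2 ^ a ≤ 2 ^ (w + M) * 2 ^ a := by
      apply Nat.mul_le_mul_right
      calc 2 = 2 ^ 1 := rfl
        _ ≤ 2 ^ (w + M) := Nat.pow_le_pow_right (by norm_num) (by omega)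
    omega

theorem ExP.V : (par3 a b M e t w u v).V = 1 / (16 * 2 ^ e) := (he.ex hu hv).V

theorem ExP.meas : volume {x : TT × TT | Gen (par3 a b M e t w u v) x}ᶜ ≤ ENNReal.ofReal (257 / 2 ^ t) := by
  have hx := he.ex hu hv
  have hok := he.ok hu hv
  have hR2 := hx.R2
  have m1 := hx.meas
  obtain ⟨ea, eb⟩ := he.eqs hu hv
  set p := par3 a b M e t w u v with hp
  set p2 := par2 (a - u) (b - v) M e t w with hp2
  have hsub : {x : TT × TT | Gen p x}ᶜ ⊆ {x : TT × TT | Gen p2 x}ᶜ ∪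
      {x | ((p.Kc : ℝ) + 1) ≤ ((p.W.filter (fun m => ‖dm m x‖ ≤ p.ρ)).card : ℝ)} := by
    intro x hx
    by_contra hcon
    simp only [Set.mem_union, Set.mem_ofPred_eq, Set.mem_compl_iff, not_or, not_le, not_not] at hcon
    apply hx
    obtain ⟨⟨c1, c2, c3⟩, c4⟩ := hcon
    refine ⟨c1, c2, ?_⟩
    have h3 : (p.W.filter (fun m => ‖dm m x‖ ≤ p.ρ)).card < p.Kc + 1 := by exact_mod_cast c4
    omega
  have rρ : p.ρ = 2 ^ w * 2 ^ M / (2 ^ (a - u) * 2 ^ (b - v)) := by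
    show (2 : ℝ) ^ w * 2 ^ M / 2 ^ (a - u + (b - v)) = _
    rw [pow_add]
  have rKc : (p.Kc : ℝ) = 2048 * (2 ^ w) ^ 2 * 2 ^ e * 2 ^ t * 2 ^ u := by
    show ((2 ^ (2 * w + e + 11 + t + u) : ℕ) : ℝ) = _
    push_cast
    rw [pow_add, pow_add, pow_add, pow_add, mul_comm 2 w, pow_mul]; norm_num; ring
  have m3 := meas_count p.W (fun m hm => (Finset.mem_filter.mp hm).2) (ρ := p.ρ) (t := (p.Kc : ℝ) + 1)
    (by rw [rρ]; positivity) (by positivity)
  have hR2' : (p.R2 : ℝ) = 64 * 2 ^ w * 2 ^ e * 2 ^ (b - v) / 2 ^ M := hR2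
  have rℓ : (p.ℓ : ℝ) = 2 ^ (a - u) * 2 ^ u := by
    show ((2 ^ a : ℕ) : ℝ) = _
    push_cast; exact ea
  have b3 : (p.W.card : ℝ) * (2 * p.ρ) / ((p.Kc : ℝ) + 1) ≤ 1 / 2 ^ t := by
    have hc : p.W.card ≤ (2 * p.ℓ + 1) * (4 * p.R2 + 1) := by
      unfold Par.W
      refine (Finset.card_filter_le _ _).trans ?_
      rw [Finset.card_product, Int.card_Icc, Int.card_Icc]
      apply Nat.mul_le_mul <;> omega
    have hc2 : (p.W.card : ℝ) ≤ (2 * (2 ^ (a - u) * 2 ^ u) + 1) * (4 * (64 * 2 ^ w * 2 ^ e * 2 ^ (b - v) / 2 ^ M) + 1) := by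
      have : (p.W.card : ℝ) ≤ (2 * p.ℓ + 1) * (4 * p.R2 + 1) := by exact_mod_cast hc
      rw [rℓ, hR2'] at this; exact this
    rw [rρ, rKc]
    have g2 : (2 : ℝ) ^ M ≤ 2 ^ (b - v) := pow_le_pow_right₀ (by norm_num) hx.hb
    have k0 : (1 : ℝ) ≤ 2 ^ u := one_le_pow₀ (by norm_num)
    have k1 : (1 : ℝ) ≤ 2 ^ e := one_le_pow₀ (by norm_num)
    have k2 : (1 : ℝ) ≤ 2 ^ w := one_le_pow₀ (by norm_num)
    have k4 : (1 : ℝ) ≤ 2 ^ (a - u) := one_le_pow₀ (by norm_num)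
    have k6 : (1 : ℝ) ≤ 2 ^ t := one_le_pow₀ (by norm_num)
    have kN : (0 : ℝ) < 2 ^ M := by positivity
    have kB : (0 : ℝ) < 2 ^ (b - v) := by positivity
    generalize (2 : ℝ) ^ e = Ea at *
    generalize (2 : ℝ) ^ w = Wa at *
    generalize (2 : ℝ) ^ M = Na at *
    generalize (2 : ℝ) ^ (a - u) = Aa at *
    generalize (2 : ℝ) ^ (b - v) = Ba at *
    generalize (2 : ℝ) ^ u = Ua at *
    generalize (2 : ℝ) ^ t = Ta at *
    have E0 : 0 < Ea := by linarith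
    have W0 : 0 < Wa := by linarith
    have A0 : 0 < Aa := by linarith
    have U0 : 0 < Ua := by linarith
    have T0 : 0 < Ta := by linarith
    have hX : 1 ≤ 64 * Wa * Ea * Ba / Na := by
      rw [le_div_iff₀ kN]
      have h1 : 1 ≤ Wa * Ea := one_le_mul_of_one_le_of_one_le k2 k1
      have h2 : 1 * Ba ≤ Wa * Ea * Ba := by gcongr
      linarith
    have hAU : 1 ≤ Aa * Ua := one_le_mul_of_one_le_of_one_le k4 k0
    have hc3 : (p.W.card : ℝ) ≤ (3 * (Aa * Ua)) * (5 * (64 * Wa * Ea * Ba / Na)) := by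
      refine hc2.trans ?_
      apply mul_le_mul
      · linarith
      · linarith
      · positivity
      · positivity
    rw [div_le_div_iff₀ (by positivity) (by positivity), one_mul]
    calc (p.W.card : ℝ) * (2 * (Wa * Na / (Aa * Ba))) * Ta
        ≤ ((3 * (Aa * Ua)) * (5 * (64 * Wa * Ea * Ba / Na))) * (2 * (Wa * Na / (Aa * Ba))) * Ta := by gcongr
      _ = 1920 * Wa ^ 2 * Ea * Ta * Ua := by field_simp; norm_num
      _ ≤ 2048 * Wa ^ 2 * Ea * Ta * Ua + 1 := by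
          have : 0 ≤ Wa ^ 2 * Ea * Ta * Ua := by positivity
          linarith
  refine (measure_mono hsub).trans ((measure_union_le _ _).trans ?_)
  calc _ ≤ ENNReal.ofReal (256 / 2 ^ t) + ENNReal.ofReal (1 / 2 ^ t) := add_le_add m1 (m3.trans (ENNReal.ofReal_le_ofReal b3))
    _ ≤ ENNReal.ofReal (257 / 2 ^ t) := by
        rw [← ENNReal.ofReal_add (by positivity) (by positivity)]
        apply ENNReal.ofReal_le_ofReal
        rw [← add_div]
        apply div_le_div_of_nonneg_right _ (by positivity)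
        norm_num

end

end Run7.h297
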