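import Pool.Agent.Run7.h297.NodeC
import Pool.Agent.Run7.h297.P5b

set_option autoImplicit false

/-! The sharp node inequality for the third coordinate. -/

noncomputable section

namespace Run7.h297

open Real Finset MeasureTheory

/-- the large scale -/
def Mf (f : ℕ) : ℕ := 2 * mf f * 200000000

/-- the mass of a typical set -/
def th0 : ℝ := 1 / 10 ^ 12

/-- admissible exponents -/
structure ExQ (a b f : ℕ) : Prop where
  hf : 40000 ≤ f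
  ha : 5000 * f ≤ a
  hb : Mf f + 63 * f ≤ b

theorem Mf_eq (f : ℕ) : Mf f = 15728640000000000 * f := by
  unfold Mf mf; ring

theorem ExQ.p {a b f : ℕ} (he : ExQ a b f) : ExP a b (Mf f) (4096 * f) (2 * f) (4098 * f + 4) (63 * f) := by
  obtain ⟨h1, h2, h3⟩ := he
  rw [Mf_eq] at *
  refine ⟨?_, ?_, ?_, ?_, ?_⟩ <;> omega

/-- the density of the typical sets is small enough -/
theorem small_f {a b f : ℕ} (he : ExQ a b f) {u v : ℕ} (hu : u ≤ 63 * f) (hv : v ≤ 63 * f) :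
    5600 * (par3 a b (Mf f) (4096 * f) (2 * f) (4098 * f + 4) u v).K * ((par3 a b (Mf f) (4096 * f) (2 * f) (4098 * f + 4) u v).D + 2) *
      ((par3 a b (Mf f) (4096 * f) (2 * f) (4098 * f + 4) u v).Kc + 1) *
      (4 * (par3 a b (Mf f) (4096 * f) (2 * f) (4098 * f + 4) u v).A / (par3 a b (Mf f) (4096 * f) (2 * f) (4098 * f + 4) u v).N + 3) *
      (2 * Real.exp (-(2 * (15000 * (f : ℝ)))) / th0 ^ 2) ≤ (par3 a b (Mf f) (4096 * f) (2 * f) (4098 * f + 4) u v).V := by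
  have hp := he.p
  have hf := he.hf
  have hV := hp.V hu hv
  rw [hV]
  have rK : (par3 a b (Mf f) (4096 * f) (2 * f) (4098 * f + 4) u v).K = 2 * 2 ^ (2 * f) := by
    show (2 : ℝ) ^ (2 * f + 1) = _
    rw [pow_succ]; ring
  have rKc : ((par3 a b (Mf f) (4096 * f) (2 * f) (4098 * f + 4) u v).Kc : ℝ) = 2048 * (2 ^ (4098 * f + 4)) ^ 2 * 2 ^ (4096 * f) * 2 ^ (2 * f) * 2 ^ u := by
    show ((2 ^ (2 * (4098 * f + 4) + 4096 * f + 11 + 2 * f + u) : ℕ) : ℝ) = _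
    push_cast
    rw [pow_add _ _ u, pow_add _ _ (2 * f), pow_add _ _ 11, pow_add _ _ (4096 * f), mul_comm 2 (4098 * f + 4), pow_mul]; norm_num; ring
  have rD : ((par3 a b (Mf f) (4096 * f) (2 * f) (4098 * f + 4) u v).D : ℝ) = 16 * (2 ^ (4098 * f + 4)) ^ 2 * (2 ^ u) ^ 2 * 2 ^ v := by
    show ((2 ^ (2 * (4098 * f + 4) + 4 + 2 * u + v) : ℕ) : ℝ) = _
    push_cast
    rw [pow_add _ _ v, pow_add _ _ (2 * u), pow_add _ _ 4, mul_comm 2 (4098 * f + 4), mul_comm 2 u, pow_mul, pow_mul]; norm_num; ring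
  have rN : ((par3 a b (Mf f) (4096 * f) (2 * f) (4098 * f + 4) u v).N : ℝ) = 2 ^ (Mf f) := by
    show ((2 ^ (Mf f) : ℕ) : ℝ) = _
    push_cast; rfl
  have rA : ((par3 a b (Mf f) (4096 * f) (2 * f) (4098 * f + 4) u v).A : ℝ) = 2 ^ (4098 * f + 4) * 2 ^ (Mf f) := by
    show ((2 ^ (4098 * f + 4 + Mf f) : ℕ) : ℝ) = _
    push_cast; rw [pow_add _ _ (Mf f)]
  have rW : (2 : ℝ) ^ (4098 * f + 4) = 16 * (2 ^ (4096 * f) * 2 ^ (2 * f)) := by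
    rw [← pow_add, show 4098 * f + 4 = (4096 * f + 2 * f) + 4 by ring, pow_add _ _ 4]; norm_num; ring
  have hexp : (2 : ℝ) ^ (140 + 28938 * f) ≤ Real.exp (2 * (15000 * (f : ℝ))) := by
    have h1 : (2 : ℝ) ^ (140 + 28938 * f) ≤ 2 ^ (30000 * f) := pow_le_pow_right₀ (by norm_num) (by omega)
    have h2 : (2 : ℝ) ≤ Real.exp 1 := by
      have := Real.add_one_le_exp (1 : ℝ); linarith
    have h3 : Real.exp (2 * (15000 * (f : ℝ))) = (Real.exp 1) ^ (30000 * f) := by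
      rw [← Real.exp_nat_mul]; congr 1; push_cast; ring
    rw [h3]
    exact h1.trans (pow_le_pow_left₀ (by norm_num) h2 _)
  have hkey : (2 : ℝ) ^ 140 * ((2 ^ (2 * f)) ^ 7 * (2 ^ (4096 * f)) ^ 7 * (2 ^ (63 * f)) ^ 4) = 2 ^ (140 + 28938 * f) := by
    rw [← pow_mul, ← pow_mul, ← pow_mul, ← pow_add, ← pow_add, ← pow_add]; congr 1; ring
  rw [rK, rKc, rD, rA, rN]
  have kU : (2 : ℝ) ^ u ≤ 2 ^ (63 * f) := pow_le_pow_right₀ (by norm_num) hu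
  have kV : (2 : ℝ) ^ v ≤ 2 ^ (63 * f) := pow_le_pow_right₀ (by norm_num) hv
  have k0 : (1 : ℝ) ≤ 2 ^ u := one_le_pow₀ (by norm_num)
  have k00 : (1 : ℝ) ≤ 2 ^ v := one_le_pow₀ (by norm_num)
  have k1 : (1 : ℝ) ≤ 2 ^ (4096 * f) := one_le_pow₀ (by norm_num)
  have k2 : (1 : ℝ) ≤ 2 ^ (4098 * f + 4) := one_le_pow₀ (by norm_num)
  have k6 : (1 : ℝ) ≤ 2 ^ (2 * f) := one_le_pow₀ (by norm_num)
  have kN : (0 : ℝ) < 2 ^ (Mf f) := by positivity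
  have kG : (0 : ℝ) < 2 ^ (63 * f) := by positivity
  rw [← hkey] at hexp
  have hXp := Real.exp_pos (2 * (15000 * (f : ℝ)))
  have hX1 : Real.exp (-(2 * (15000 * (f : ℝ)))) = 1 / Real.exp (2 * (15000 * (f : ℝ))) := by
    rw [Real.exp_neg, one_div]
  rw [hX1]
  unfold th0
  generalize Real.exp (2 * (15000 * (f : ℝ))) = X at *
  generalize (2 : ℝ) ^ (4098 * f + 4) = Wa at *
  generalize (2 : ℝ) ^ (4096 * f) = Ea at *
  generalize (2 : ℝ) ^ (2 * f) = Ta at *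
  generalize (2 : ℝ) ^ (Mf f) = Na at *
  generalize (2 : ℝ) ^ (63 * f) = Ga at *
  generalize (2 : ℝ) ^ u = Ua at *
  generalize (2 : ℝ) ^ v = Va at *
  have E0 : 0 < Ea := by linarith
  have W0 : 0 < Wa := by linarith
  have U0 : 0 < Ua := by linarith
  have V0 : 0 < Va := by linarith
  have T0 : 0 < Ta := by linarith
  have f1 : 16 * Wa ^ 2 * Ua ^ 2 * Va + 2 ≤ 18 * (Wa ^ 2 * Ua ^ 2 * Va) := by
    have h1 : 1 ≤ Wa ^ 2 := one_le_pow₀ k2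
    have h2 : 1 ≤ Ua ^ 2 := one_le_pow₀ k0
    have h3 : 1 ≤ Wa ^ 2 * Ua ^ 2 * Va := one_le_mul_of_one_le_of_one_le (one_le_mul_of_one_le_of_one_le h1 h2) k00
    linarith
  have f2 : 2048 * Wa ^ 2 * Ea * Ta * Ua + 1 ≤ 2049 * (Wa ^ 2 * Ea * Ta * Ua) := by
    have h1 : 1 ≤ Wa ^ 2 := one_le_pow₀ k2
    have h3 : 1 ≤ Wa ^ 2 * Ea * Ta * Ua := one_le_mul_of_one_le_of_one_le (one_le_mul_of_one_le_of_one_le (one_le_mul_of_one_le_of_one_le h1 k1) k6) k0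
    linarith
  have f3 : 4 * (Wa * Na) / Na + 3 ≤ 7 * Wa := by
    have : 4 * (Wa * Na) / Na = 4 * Wa := by field_simp
    rw [this]; linarith
  have f30 : 0 ≤ 4 * (Wa * Na) / Na + 3 := by positivity
  calc 5600 * (2 * Ta) * (16 * Wa ^ 2 * Ua ^ 2 * Va + 2) * (2048 * Wa ^ 2 * Ea * Ta * Ua + 1) * (4 * (Wa * Na) / Na + 3) * (2 * (1 / X) / (1 / 10 ^ 12) ^ 2)
      ≤ 5600 * (2 * Ta) * (18 * (Wa ^ 2 * Ua ^ 2 * Va)) * (2049 * (Wa ^ 2 * Ea * Ta * Ua)) * (7 * Wa) * (2 * (1 / X) / (1 / 10 ^ 12) ^ 2) := by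
        gcongr
    _ = (5600 * 2 * 18 * 2049 * 7 * 2 * 10 ^ 24) * (Ta ^ 2 * Ea * Wa ^ 5 * (Ua ^ 3 * Va)) / X := by
        field_simp
    _ ≤ (5600 * 2 * 18 * 2049 * 7 * 2 * 10 ^ 24) * (Ta ^ 2 * Ea * Wa ^ 5 * (Ga ^ 3 * Ga)) / X := by
        gcongr
    _ = (5600 * 2 * 18 * 2049 * 7 * 2 * 10 ^ 24 * 16 ^ 5) * (Ta ^ 7 * Ea ^ 6 * Ga ^ 4) / X := by
        rw [rW]; ring
    _ ≤ 1 / (16 * Ea) := by
        rw [div_le_div_iff₀ hXp (by positivity), one_mul]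
        refine le_trans ?_ hexp
        have h9 : (5600 * 2 * 18 * 2049 * 7 * 2 * 10 ^ 24 * 16 ^ 5 * 16 : ℝ) ≤ 2 ^ 140 := by norm_num
        calc (5600 * 2 * 18 * 2049 * 7 * 2 * 10 ^ 24 * 16 ^ 5) * (Ta ^ 7 * Ea ^ 6 * Ga ^ 4) * (16 * Ea) =
            (5600 * 2 * 18 * 2049 * 7 * 2 * 10 ^ 24 * 16 ^ 5 * 16) * (Ta ^ 7 * Ea ^ 7 * Ga ^ 4) := by ring
          _ ≤ 2 ^ 140 * (Ta ^ 7 * Ea ^ 7 * Ga ^ 4) := mul_le_mul_of_nonneg_right h9 (by positivity)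

/-- the generic set of a node -/
def GQ (a b f : ℕ) : Set (TT × TT) :=
  {x | (∀ u v, u < 21 * f → v < 21 * f → Gen (par3 a b (Mf f) (4096 * f) (2 * f) (4098 * f + 4) (3 * u) (3 * v)) x) ∧
    x ∈ NRet (20 * 2 ^ (63 * f) / (2 ^ (Mf f) * 2 ^ a)) (2 * 2 ^ (Mf f) * 2 ^ (63 * f) / (2 ^ (4096 * f) * 64 * 2 ^ b)) (3 * 2 ^ (a + b))}

theorem sq_small {f : ℕ} (hf : 40000 ≤ f) : (250000 : ℝ) * ((f : ℝ) * f) ≤ 2 ^ f := by
  have h1 : f ≤ 4 * 2 ^ (f / 4) := by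
    have := Nat.lt_two_pow_self (n := f / 4)
    omega
  have h2 : (f : ℝ) ≤ 4 * 2 ^ (f / 4) := by exact_mod_cast h1
  have h0 : (0 : ℝ) ≤ f := Nat.cast_nonneg f
  have h3 : (4000000 : ℝ) ≤ 2 ^ (f / 4) := by
    have : (2 : ℝ) ^ 22 ≤ 2 ^ (f / 4) := pow_le_pow_right₀ (by norm_num) (by omega)
    norm_num at this; linarith
  have h4 : (2 : ℝ) ^ (f / 4 + f / 4 + f / 4) ≤ 2 ^ f := pow_le_pow_right₀ (by norm_num) (by omega)
  rw [pow_add, pow_add] at h4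
  refine le_trans ?_ h4
  calc (250000 : ℝ) * ((f : ℝ) * f) ≤ 250000 * ((4 * 2 ^ (f / 4)) * (4 * 2 ^ (f / 4))) := by gcongr
    _ = (2 ^ (f / 4) * 2 ^ (f / 4)) * 4000000 := by ring
    _ ≤ (2 ^ (f / 4) * 2 ^ (f / 4)) * 2 ^ (f / 4) := by gcongr

theorem meas_GQ {a b f : ℕ} (he : ExQ a b f) : volume (GQ a b f)ᶜ ≤ ENNReal.ofReal (1 / 2 ^ f) := by
  have hf := he.hf
  have hp := he.p
  have hsub : (GQ a b f)ᶜ ⊆ (⋃ k ∈ (range (21 * f) ×ˢ range (21 * f)), {x : TT × TT | Gen (par3 a b (Mf f) (4096 * f) (2 * f) (4098 * f + 4) (3 * k.1) (3 * k.2)) x}ᶜ) ∪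
      (NRet (20 * 2 ^ (63 * f) / (2 ^ (Mf f) * 2 ^ a)) (2 * 2 ^ (Mf f) * 2 ^ (63 * f) / (2 ^ (4096 * f) * 64 * 2 ^ b)) (3 * 2 ^ (a + b)))ᶜ := by
    intro x hx
    by_contra hcon
    simp only [Set.mem_union, Set.mem_iUnion, Set.mem_compl_iff, not_or, not_exists, not_not] at hcon
    apply hx
    refine ⟨?_, hcon.2⟩
    intro u v hu hv
    exact hcon.1 (u, v) (by rw [Finset.mem_product, Finset.mem_range, Finset.mem_range]; exact ⟨hu, hv⟩)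
  have m1 : volume (⋃ k ∈ (range (21 * f) ×ˢ range (21 * f)), {x : TT × TT | Gen (par3 a b (Mf f) (4096 * f) (2 * f) (4098 * f + 4) (3 * k.1) (3 * k.2)) x}ᶜ) ≤
      ENNReal.ofReal (((21 * f * (21 * f) : ℕ) : ℝ) * (257 / 2 ^ (2 * f))) := by
    refine (measure_biUnion_finset_le _ _).trans ?_
    calc _ ≤ ∑ k ∈ (range (21 * f) ×ˢ range (21 * f)), ENNReal.ofReal (257 / 2 ^ (2 * f)) := by
          apply Finset.sum_le_sum; intro k hk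
          rw [Finset.mem_product, Finset.mem_range, Finset.mem_range] at hk
          exact hp.meas (by omega) (by omega)
      _ = _ := by
          rw [Finset.sum_const, nsmul_eq_mul, Finset.card_product, card_range, ENNReal.ofReal_mul (Nat.cast_nonneg _), ENNReal.ofReal_natCast]
  have m2 := meas_NRet (r1 := 20 * 2 ^ (63 * f) / (2 ^ (Mf f) * 2 ^ a)) (r2 := 2 * 2 ^ (Mf f) * 2 ^ (63 * f) / (2 ^ (4096 * f) * 64 * 2 ^ b)) (by positivity) (3 * 2 ^ (a + b))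
  have e2 : ((3 * 2 ^ (a + b) : ℕ) : ℝ) * (4 * (20 * 2 ^ (63 * f) / (2 ^ (Mf f) * 2 ^ a)) * (2 * 2 ^ (Mf f) * 2 ^ (63 * f) / (2 ^ (4096 * f) * 64 * 2 ^ b))) =
      (15 / 2) * (2 ^ (63 * f) * 2 ^ (63 * f)) / 2 ^ (4096 * f) := by
    push_cast
    rw [pow_add 2 a b]; field_simp; norm_num
  rw [e2] at m2
  refine (measure_mono hsub).trans ((measure_union_le _ _).trans ((add_le_add m1 m2).trans ?_))
  rw [← ENNReal.ofReal_add (by positivity) (by positivity)]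
  apply ENNReal.ofReal_le_ofReal
  have h1 := sq_small hf
  have g1 : ((21 * f * (21 * f) : ℕ) : ℝ) * (257 / 2 ^ (2 * f)) ≤ (1 / 2) / 2 ^ f := by
    have e3 : (2 : ℝ) ^ (2 * f) = 2 ^ f * 2 ^ f := by rw [← pow_add]; congr 1; ring
    rw [e3, mul_div_assoc', div_le_div_iff₀ (by positivity) (by positivity)]
    push_cast
    have h0 : (0 : ℝ) ≤ (f : ℝ) * f := by positivity
    have h2 : (21 * (f : ℝ) * (21 * f)) * 257 ≤ 1 / 2 * 2 ^ f := by linarith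
    calc (21 * (f : ℝ) * (21 * f)) * 257 * 2 ^ f ≤ (1 / 2 * 2 ^ f) * 2 ^ f := by gcongr
      _ = _ := by ring
  have g2 : (15 / 2) * (2 ^ (63 * f) * 2 ^ (63 * f)) / 2 ^ (4096 * f) ≤ ((1 / 2) / 2 ^ f : ℝ) := by
    rw [div_le_div_iff₀ (by positivity) (by positivity)]
    have h2 : (2 : ℝ) ^ (63 * f + 63 * f + f + 4) ≤ 2 ^ (4096 * f) := pow_le_pow_right₀ (by norm_num) (by omega)
    rw [pow_add _ _ 4, pow_add _ _ f, pow_add] at h2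
    have h4 : (2 : ℝ) ^ 4 = 16 := by norm_num
    rw [h4] at h2
    have h5 : (0 : ℝ) < 2 ^ (63 * f) * 2 ^ (63 * f) * 2 ^ f := by positivity
    linarith
  have g3 : (1 : ℝ) / 2 ^ f = (1 / 2) / 2 ^ f + (1 / 2) / 2 ^ f := by ring
  rw [g3]
  exact add_le_add g1 g2

end Run7.h297
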