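import Pool.Agent.Run7.h297.Node

set_option autoImplicit false

/-! From fibers to the total entropy, with an alternative on each fiber. -/

noncomputable section

namespace Run7.h297

open Real Finset

theorem fib1 {N : ℕ} (hN : 1 ≤ N) (a : ℕ → ℕ → ℝ) (ha : ∀ x y, 0 ≤ a x y)
    (hsum : ∑ x ∈ range N, ∑ y ∈ range N, a x y = 1) {Tt Hm p1 b : ℝ} (hp1 : 0 < p1) (hHm : 2 * Real.log N ≤ Tt + Hm) (hHm0 : 0 ≤ Hm)
    (hb : 0 ≤ b)
    (hyp : ((∑ x ∈ range N, negMulLog (∑ y ∈ range N, a x y)) + (∑ y ∈ range N, negMulLog (∑ x ∈ range N, a x y)) ≤ Tt + Hm * b) ∨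
      p1 ≤ ∑ x ∈ range N, ∑ y ∈ range N, if a x y = 0 then (∑ y' ∈ range N, a x y') * (∑ x' ∈ range N, a x' y) else 0) :
    (∑ x ∈ range N, negMulLog (∑ y ∈ range N, a x y)) + (∑ y ∈ range N, negMulLog (∑ x ∈ range N, a x y)) ≤
      Tt + Hm * b + (Hm / p1) * ((∑ x ∈ range N, negMulLog (∑ y ∈ range N, a x y)) +
          (∑ y ∈ range N, negMulLog (∑ x ∈ range N, a x y)) - ∑ x ∈ range N, ∑ y ∈ range N, negMulLog (a x y)) := by
  set r : ℕ → ℝ := fun x => ∑ y ∈ range N, a x y with hr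
  set c : ℕ → ℝ := fun y => ∑ x ∈ range N, a x y with hc
  have hN' : (1 : ℝ) ≤ N := by exact_mod_cast hN
  set hX := ∑ x ∈ range N, negMulLog (r x) with hhX
  set hY := ∑ y ∈ range N, negMulLog (c y) with hhY
  have hr0 : ∀ x, 0 ≤ r x := fun x => Finset.sum_nonneg (fun y _ => ha x y)
  have hc0 : ∀ y, 0 ≤ c y := fun y => Finset.sum_nonneg (fun x _ => ha x y)
  have hrs : ∑ x ∈ range N, r x = 1 := hsum
  have hcs : ∑ y ∈ range N, c y = 1 := by rw [← hsum, Finset.sum_comm]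
  have hcore := core_ineq (range N) (range N) a (fun x _ y _ => ha x y) 1 hsum one_pos
  rw [negMulLog_one, sub_zero, div_one, one_mul] at hcore
  set I := hX + hY - ∑ x ∈ range N, ∑ y ∈ range N, negMulLog (a x y) with hI
  have hZ0 : 0 ≤ ∑ x ∈ range N, ∑ y ∈ range N, if a x y = 0 then r x * c y else 0 := by
    apply Finset.sum_nonneg; intro x _
    apply Finset.sum_nonneg; intro y _
    split_ifs
    · exact mul_nonneg (hr0 x) (hc0 y)
    · exact le_rfl
  have hI0 : 0 ≤ I := hZ0.trans hcore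
  have hXle : hX ≤ Real.log N := by
    have := sum_negMulLog_le (range N) r (fun x _ => hr0 x) 1 hrs (range N) (fun x hx hx' => absurd hx hx') N
      (by linarith) (by rw [Finset.inter_self, card_range])
    rw [negMulLog_one, zero_add, one_mul] at this; exact this
  have hYle : hY ≤ Real.log N := by
    have := sum_negMulLog_le (range N) c (fun x _ => hc0 x) 1 hcs (range N) (fun x hx hx' => absurd hx hx') N
      (by linarith) (by rw [Finset.inter_self, card_range])
    rw [negMulLog_one, zero_add, one_mul] at this; exact this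
  have hHI : 0 ≤ Hm / p1 * I := by positivity
  rcases hyp with h | h
  · linarith
  · have h1 : p1 ≤ I := h.trans hcore
    have h2 : Hm ≤ Hm / p1 * I := by
      calc Hm = Hm / p1 * p1 := by field_simp
        _ ≤ Hm / p1 * I := by gcongr
    have h3 : 0 ≤ Hm * b := by positivity
    linarith

theorem fib2 {N : ℕ} (hN : 1 ≤ N) (a : ℕ → ℕ → ℝ) (ha : ∀ x y, 0 ≤ a x y) (s : ℝ) (hs0 : 0 < s)
    (hsum : ∑ x ∈ range N, ∑ y ∈ range N, a x y = s) {Tt Hm p1 b : ℝ} (hp1 : 0 < p1) (hHm : 2 * Real.log N ≤ Tt + Hm) (hHm0 : 0 ≤ Hm)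
    (hb : 0 ≤ b)
    (hyp : ((∑ x ∈ range N, negMulLog (∑ y ∈ range N, a x y / s)) + (∑ y ∈ range N, negMulLog (∑ x ∈ range N, a x y / s)) ≤ Tt + Hm * b) ∨
      p1 ≤ ∑ x ∈ range N, ∑ y ∈ range N, if a x y = 0 then (∑ y' ∈ range N, a x y' / s) * (∑ x' ∈ range N, a x' y / s) else 0) :
    (∑ x ∈ range N, negMulLog (∑ y ∈ range N, a x y) - negMulLog s) + (∑ y ∈ range N, negMulLog (∑ x ∈ range N, a x y) - negMulLog s) ≤
      s * (Tt + Hm * b) + (Hm / p1) * ((∑ x ∈ range N, negMulLog (∑ y ∈ range N, a x y)) +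
          (∑ y ∈ range N, negMulLog (∑ x ∈ range N, a x y)) - (∑ x ∈ range N, ∑ y ∈ range N, negMulLog (a x y)) - negMulLog s) := by
  have h := fib1 hN (fun x y => a x y / s) (fun x y => div_nonneg (ha x y) hs0.le)
    (by simp_rw [← Finset.sum_div]; rw [hsum]; field_simp) hp1 hHm hHm0 hb
    (by
      rcases hyp with h | h
      · left; exact h
      · right
        refine h.trans (le_of_eq ?_)
        apply Finset.sum_congr rfl; intro x _
        apply Finset.sum_congr rfl; intro y _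
        by_cases hz : a x y = 0
        · rw [if_pos hz, if_pos (by rw [hz, zero_div])]
        · rw [if_neg hz, if_neg (div_ne_zero hz hs0.ne')])
  simp_rw [← Finset.sum_div, negMulLog_div hs0, Finset.sum_add_distrib, ← Finset.sum_mul, ← Finset.sum_div] at h
  have hcomm : ∑ y ∈ range N, ∑ x ∈ range N, a x y = s := by rw [← hsum, Finset.sum_comm]
  rw [hsum, hcomm] at h
  have hss : s / s = 1 := by field_simp
  rw [hss, one_mul] at h
  have h2 := mul_le_mul_of_nonneg_left h hs0.le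
  have e1 : negMulLog s = - (s * Real.log s) := by rw [negMulLog]; ring
  rw [e1]
  refine le_trans (le_of_eq ?_) (h2.trans (le_of_eq ?_))
  · field_simp; ring
  · field_simp; ring

section total

variable {Ω : Type*} [Fintype Ω] {p : Ω → ℝ}

theorem NLtot (hp : ∀ ω, 0 ≤ p ω) (hp1 : ∑ ω, p ω = 1) {α : Type*} [DecidableEq α] (ξ : Ω → α) (X Y : Ω → ℕ)
    {N : ℕ} (hN : 1 ≤ N) (hX : ∀ ω, X ω < N) (hY : ∀ ω, Y ω < N) {Tt Hm p₁ : ℝ} (hp₁ : 0 < p₁)
    (hHm : 2 * Real.log N ≤ Tt + Hm) (hHm0 : 0 ≤ Hm) (b : α → ℝ) (hb : ∀ v, 0 ≤ b v)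
    (hyp : ∀ v, 0 < pr p ξ v → ∀ μ ν : ℕ → ℝ, (∀ x, μ x = pr p (fun ω => (ξ ω, X ω)) (v, x) / pr p ξ v) →
      (∀ y, ν y = pr p (fun ω => (ξ ω, Y ω)) (v, y) / pr p ξ v) → (∀ x, 0 ≤ μ x) → (∀ y, 0 ≤ ν y) →
      ∑ x ∈ range N, μ x = 1 → ∑ y ∈ range N, ν y = 1 →
      ((∑ x ∈ range N, negMulLog (μ x)) + (∑ y ∈ range N, negMulLog (ν y)) ≤ Tt + Hm * b v) ∨
      p₁ ≤ ∑ x ∈ range N, ∑ y ∈ range N, if pr p (fun ω => (ξ ω, (X ω, Y ω))) (v, (x, y)) = 0 then μ x * ν y else 0) :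
    (H p (fun ω => (ξ ω, X ω)) - H p ξ) + (H p (fun ω => (ξ ω, Y ω)) - H p ξ) ≤
      Tt + Hm * (∑ v ∈ univ.image ξ, pr p ξ v * b v) + (Hm / p₁) * (H p (fun ω => (ξ ω, X ω)) + H p (fun ω => (ξ ω, Y ω)) -
          H p (fun ω => (ξ ω, (X ω, Y ω))) - H p ξ) := by
  have hXi : univ.image X ⊆ range N := by
    intro x hx
    rw [Finset.mem_image] at hx
    obtain ⟨ω, _, rfl⟩ := hx
    rw [Finset.mem_range]; exact hX ω
  have hYi : univ.image Y ⊆ range N := by
    intro x hx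
    rw [Finset.mem_image] at hx
    obtain ⟨ω, _, rfl⟩ := hx
    rw [Finset.mem_range]; exact hY ω
  set a : α → ℕ → ℕ → ℝ := fun v x y => pr p (fun ω => (ξ ω, (X ω, Y ω))) (v, (x, y)) with ha
  set V := univ.image ξ with hV
  have hrow : ∀ v x, ∑ y ∈ range N, a v x y = pr p (fun ω => (ξ ω, X ω)) (v, x) := by
    intro v x
    rw [← sum_pr_pair (p := p) (f := fun ω => (ξ ω, X ω)) (g := Y) hYi (v, x)]
    apply Finset.sum_congr rfl; intro y _
    rw [ha]; dsimp only
    unfold pr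
    apply Finset.sum_congr rfl; intro ω _
    simp only [Prod.mk.injEq, and_assoc]
  have hcol : ∀ v y, ∑ x ∈ range N, a v x y = pr p (fun ω => (ξ ω, Y ω)) (v, y) := by
    intro v y
    rw [← sum_pr_pair (p := p) (f := fun ω => (ξ ω, Y ω)) (g := X) hXi (v, y)]
    apply Finset.sum_congr rfl; intro x _
    rw [ha]; dsimp only
    unfold pr
    apply Finset.sum_congr rfl; intro ω _
    congr 1
    simp only [Prod.mk.injEq, eq_iff_iff]
    tauto
  have htot : ∀ v, ∑ x ∈ range N, ∑ y ∈ range N, a v x y = pr p ξ v := by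
    intro v
    simp_rw [hrow]
    exact sum_pr_pair hXi v
  have htot2 : ∀ v, ∑ y ∈ range N, ∑ x ∈ range N, a v x y = pr p ξ v := by
    intro v
    rw [Finset.sum_comm]; exact htot v
  have ha0 : ∀ v x y, 0 ≤ a v x y := fun v x y => pr_nonneg hp _ _
  have E1 : H p (fun ω => (ξ ω, X ω)) = ∑ v ∈ V, ∑ x ∈ range N, negMulLog (∑ y ∈ range N, a v x y) := by
    simp_rw [hrow]; exact H_pair ξ X (Finset.Subset.refl _) hXi
  have E2 : H p (fun ω => (ξ ω, Y ω)) = ∑ v ∈ V, ∑ y ∈ range N, negMulLog (∑ x ∈ range N, a v x y) := by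
    simp_rw [hcol]; exact H_pair ξ Y (Finset.Subset.refl _) hYi
  have E3 : H p (fun ω => (ξ ω, (X ω, Y ω))) = ∑ v ∈ V, ∑ x ∈ range N, ∑ y ∈ range N, negMulLog (a v x y) := by
    rw [H_pair ξ (fun ω => (X ω, Y ω)) (s := V) (t := range N ×ˢ range N) (Finset.Subset.refl _)
      (image_pair X Y hXi hYi)]
    apply Finset.sum_congr rfl; intro v _
    rw [Finset.sum_product]
  have E4 : H p ξ = ∑ v ∈ V, negMulLog (pr p ξ v) := rfl
  have E6 : ∑ v ∈ V, pr p ξ v = 1 := by rw [sum_pr (Finset.Subset.refl _), hp1]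
  have hfib : ∀ v ∈ V,
      (∑ x ∈ range N, negMulLog (∑ y ∈ range N, a v x y) - negMulLog (pr p ξ v)) +
      (∑ y ∈ range N, negMulLog (∑ x ∈ range N, a v x y) - negMulLog (pr p ξ v)) ≤
      pr p ξ v * (Tt + Hm * b v) + (Hm / p₁) * ((∑ x ∈ range N, negMulLog (∑ y ∈ range N, a v x y)) +
          (∑ y ∈ range N, negMulLog (∑ x ∈ range N, a v x y)) - (∑ x ∈ range N, ∑ y ∈ range N, negMulLog (a v x y)) -
          negMulLog (pr p ξ v)) := by
    intro v _
    rcases (pr_nonneg hp ξ v).eq_or_lt with h | h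
    · have hz : ∀ x ∈ range N, ∀ y ∈ range N, a v x y = 0 := by
        intro x hx y hy
        have h0 := htot v
        rw [← h] at h0
        have h1 := (Finset.sum_eq_zero_iff_of_nonneg (fun x _ => Finset.sum_nonneg (fun y _ => ha0 v x y))).mp h0 x hx
        exact (Finset.sum_eq_zero_iff_of_nonneg (fun y _ => ha0 v x y)).mp h1 y hy
      have z1 : ∀ x ∈ range N, negMulLog (∑ y ∈ range N, a v x y) = 0 := by
        intro x hx; rw [Finset.sum_eq_zero (fun y hy => hz x hx y hy), negMulLog_zero]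
      have z2 : ∀ y ∈ range N, negMulLog (∑ x ∈ range N, a v x y) = 0 := by
        intro y hy; rw [Finset.sum_eq_zero (fun x hx => hz x hx y hy), negMulLog_zero]
      have z3 : ∀ x ∈ range N, ∑ y ∈ range N, negMulLog (a v x y) = 0 := by
        intro x hx
        apply Finset.sum_eq_zero; intro y hy; rw [hz x hx y hy, negMulLog_zero]
      rw [← h, Finset.sum_eq_zero z1, Finset.sum_eq_zero z2, Finset.sum_eq_zero z3, negMulLog_zero]
      simp
    · have h5 := hyp v h (fun x => pr p (fun ω => (ξ ω, X ω)) (v, x) / pr p ξ v) (fun y => pr p (fun ω => (ξ ω, Y ω)) (v, y) / pr p ξ v)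
        (fun x => rfl) (fun y => rfl) (fun x => div_nonneg (pr_nonneg hp _ _) h.le) (fun y => div_nonneg (pr_nonneg hp _ _) h.le)
        (by
          rw [← Finset.sum_div, div_eq_one_iff_eq h.ne', ← htot v]
          apply Finset.sum_congr rfl; intro x _
          rw [hrow])
        (by
          rw [← Finset.sum_div, div_eq_one_iff_eq h.ne', ← htot2 v]
          apply Finset.sum_congr rfl; intro x _
          rw [hcol])
      apply fib2 hN (a v) (ha0 v) _ h (htot v) hp₁ hHm hHm0 (hb v)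
      simp_rw [← Finset.sum_div, hrow, hcol]
      exact h5
  have hall := Finset.sum_le_sum hfib
  rw [E1, E2, E3, E4]
  simp_rw [mul_add, Finset.sum_add_distrib, Finset.sum_sub_distrib, ← Finset.sum_mul, ← Finset.mul_sum,
    Finset.sum_sub_distrib, Finset.sum_add_distrib] at hall
  rw [E6, one_mul] at hall
  have e8 : ∑ v ∈ V, pr p ξ v * (Hm * b v) = Hm * ∑ v ∈ V, pr p ξ v * b v := by
    rw [Finset.mul_sum]
    apply Finset.sum_congr rfl; intro v _; ring
  rw [e8] at hall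
  exact hall

end total

end Run7.h297
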