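import Pool.Agent.Run7.h297.P5d
import Pool.Agent.Run7.h297.P5e
import Pool.Agent.Run7.h297.Tot

set_option autoImplicit false

/-! The sharp node inequality for the third coordinate: entropy form. -/

noncomputable section

namespace Run7.h297

open Real Finset MeasureTheory

theorem bad_fiber {Ω : Type*} [Fintype Ω] {α : Type*} [DecidableEq α] (p : Ω → ℝ) (ξ : Ω → α) (Y : Ω → ℕ) (T : α → Finset ℕ) (N : ℕ)
    (hY : ∀ ω, Y ω < N) :
    ∑ v ∈ univ.image ξ, ∑ y ∈ (range N).filter (fun y => y ∉ T v), pr p (fun ω => (ξ ω, Y ω)) (v, y) =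
      ∑ ω, if Y ω ∈ T (ξ ω) then 0 else p ω := by
  unfold pr
  have h1 : ∀ v ∈ univ.image ξ, ∑ y ∈ (range N).filter (fun y => y ∉ T v), ∑ ω, (if (ξ ω, Y ω) = (v, y) then p ω else 0) =
      ∑ ω, ∑ y ∈ (range N).filter (fun y => y ∉ T v), (if (ξ ω, Y ω) = (v, y) then p ω else 0) := fun v _ => Finset.sum_comm
  rw [Finset.sum_congr rfl h1, Finset.sum_comm]
  apply Finset.sum_congr rfl; intro ω _
  have h2 : ∀ v ∈ univ.image ξ, ∑ y ∈ (range N).filter (fun y => y ∉ T v), (if (ξ ω, Y ω) = (v, y) then p ω else 0) =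
      if ξ ω = v then (if Y ω ∈ T (ξ ω) then 0 else p ω) else 0 := by
    intro v _
    by_cases h : ξ ω = v
    · rw [if_pos h]
      have h3 : ∀ y ∈ (range N).filter (fun y => y ∉ T v), (if (ξ ω, Y ω) = (v, y) then p ω else 0) = if Y ω = y then p ω else 0 := by
        intro y _
        by_cases hy : Y ω = y
        · rw [if_pos hy, if_pos (by rw [h, hy])]
        · rw [if_neg hy, if_neg]
          intro hc; exact hy (Prod.ext_iff.mp hc).2
      rw [Finset.sum_congr rfl h3, Finset.sum_ite_eq, h]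
      by_cases hT : Y ω ∈ T v
      · rw [if_pos hT, if_neg]
        intro hc; exact (Finset.mem_filter.mp hc).2 hT
      · rw [if_neg hT, if_pos]
        exact Finset.mem_filter.mpr ⟨Finset.mem_range.mpr (hY ω), hT⟩
    · rw [if_neg h]
      apply Finset.sum_eq_zero; intro y _
      rw [if_neg]
      intro hc; exact h (Prod.ext_iff.mp hc).1
  rw [Finset.sum_congr rfl h2, Finset.sum_ite_eq, if_pos (Finset.mem_image_of_mem _ (Finset.mem_univ ω))]

/-- the hit probability of a node -/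
def pq (f : ℕ) : ℝ := ((21 * f : ℕ) : ℝ) ^ 2 * (1 / (16 * 2 ^ (4096 * f)) / 2) * (th0 * (th0 / 2))

theorem pq_pos {f : ℕ} (hf : 1 ≤ f) : 0 < pq f := by
  have : (0 : ℝ) < ((21 * f : ℕ) : ℝ) := by exact_mod_cast (by omega : 0 < 21 * f)
  unfold pq th0; positivity

section

variable {Ω : Type*} [Fintype Ω] (S : Sys Ω)

theorem Sys.no_hit5 {q0 Q1 a b M e t w n : ℕ} (he : ExP a b M e t w n) (hM : e + 10 ≤ M) (hbad : S.Bad q0 Q1 (1 / 2 ^ e))
    {u v : ℕ} (hu : u ≤ n) (hv : v ≤ n) (hq0 : q0 ≤ 2 ^ (a - u + (b - v))) (hQ1 : 3 * 2 ^ (a + b) ≤ Q1)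
    {c1 c2 c3 c4 x y : ℕ} {ω : Ω} (hω : 0 < S.p ω)
    (d1 : dig (2 * a + b + M) (S.α ω) = c1 * 2 ^ M + y) (d2 : dig (a + 2 * b) (S.β ω) = c2)
    (d3 : dig (a + M) (S.γ₁ ω) = c3 * 2 ^ M + x) (d4 : dig b (S.γ₂ ω) = c4)
    {P : ℝ × ℝ} (P0 : 0 ≤ P.1 ∧ 0 ≤ P.2) (P1 : dig (2 * a + b + M) P.1 = c1 * 2 ^ M + y) (P2 : dig (a + 2 * b) P.2 = c2)
    (hS : hitS a b M e t w c3 c4 u v (pt P) x ≠ 0) : False := by
  obtain ⟨q, q1, q2, q3, q4⟩ := hitS_hit he hu hv hS
  have hQle : 2 ^ (a - u + (b - v)) ≤ 2 ^ (a + b) := Nat.pow_le_pow_right (by norm_num) (by omega)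
  have hb := hbad ω hω q (by omega) (by omega)
  unfold pt at q3 q4
  rw [smul_coe_sub] at q3 q4
  have c1' := dig_close (S.hα ω).1 P0.1 (d1.trans P1.symm)
  have c2' := dig_close (S.hβ ω).1 P0.2 (d2.trans P2.symm)
  obtain ⟨ea, eb⟩ := he.eqs hu hv
  have c3' : |S.γ₁ ω - ((c3 : ℝ) * 2 ^ M + 6 * 2 ^ u + x) / (2 ^ M * 2 ^ a)| ≤ (6 * 2 ^ u + 1) / (2 ^ M * 2 ^ a) := by
    have f1 := dig_le (k := a + M) (S.hγ₁ ω).1
    have f2 := lt_dig (k := a + M) (S.γ₁ ω)
    rw [d3] at f1 f2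
    push_cast at f1 f2
    have e3 : (2 : ℝ) ^ (a + M) = 2 ^ M * 2 ^ a := by rw [add_comm, pow_add]
    rw [e3] at f1 f2
    have hpos : (0 : ℝ) < 2 ^ M * 2 ^ a := by positivity
    have e4 : S.γ₁ ω - ((c3 : ℝ) * 2 ^ M + 6 * 2 ^ u + x) / (2 ^ M * 2 ^ a) =
      (2 ^ M * 2 ^ a * S.γ₁ ω - ((c3 : ℝ) * 2 ^ M + 6 * 2 ^ u + x)) / (2 ^ M * 2 ^ a) := by field_simp
    rw [e4, abs_div, abs_of_pos hpos]
    apply div_le_div_of_nonneg_right _ hpos.le
    have hu0 : (0 : ℝ) < 2 ^ u := by positivity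
    rw [abs_le]; constructor <;> linarith
  have c4' : |S.γ₂ ω - (c4 : ℝ) / 2 ^ b| ≤ 1 / 2 ^ b := by
    have f1 := dig_le (k := b) (S.hγ₂ ω).1
    have f2 := lt_dig (k := b) (S.γ₂ ω)
    rw [d4] at f1 f2
    have hpos : (0 : ℝ) < 2 ^ b := by positivity
    have e4 : S.γ₂ ω - (c4 : ℝ) / 2 ^ b = (2 ^ b * S.γ₂ ω - (c4 : ℝ)) / 2 ^ b := by field_simp
    rw [e4, abs_div, abs_of_pos hpos]
    apply div_le_div_of_nonneg_right _ hpos.le
    rw [abs_le]; constructor <;> linarith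
  have s1 := norm_shift q (S.α ω) P.1 (S.γ₁ ω) (((c3 : ℝ) * 2 ^ M + 6 * 2 ^ u + x) / (2 ^ M * 2 ^ a))
  have s2 := norm_shift q (S.β ω) P.2 (S.γ₂ ω) ((c4 : ℝ) / 2 ^ b)
  have hqR : (q : ℝ) ≤ 3 * (2 ^ (a - u) * 2 ^ (b - v)) := by
    have : (q : ℝ) < ((3 * 2 ^ (a - u + (b - v)) : ℕ) : ℝ) := by exact_mod_cast q2
    push_cast at this; rw [pow_add] at this; exact this.le
  have k1 : (1 : ℝ) ≤ 2 ^ e := one_le_pow₀ (by norm_num)
  have gM : (1024 : ℝ) * 2 ^ e ≤ 2 ^ M := by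
    have : (2 : ℝ) ^ (10 + e) ≤ 2 ^ M := pow_le_pow_right₀ (by norm_num) (by omega)
    rw [pow_add] at this; norm_num at this; exact this
  have eiM : (2 : ℝ) ^ (2 * a + b + M) = (2 ^ a) ^ 2 * 2 ^ b * 2 ^ M := by
    rw [pow_add, pow_add, mul_comm 2 a, pow_mul]
  have ej : (2 : ℝ) ^ (a + 2 * b) = 2 ^ a * (2 ^ b) ^ 2 := by
    rw [pow_add, mul_comm 2 b, pow_mul]
  rw [eiM] at c1'
  rw [ej] at c2'
  rw [ea] at c1' c2' q3 s1 c3'
  rw [eb] at c1' c2' q4 s2 c4'
  have ku : (1 : ℝ) ≤ 2 ^ u := one_le_pow₀ (by norm_num)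
  have kv : (1 : ℝ) ≤ 2 ^ v := one_le_pow₀ (by norm_num)
  have A0 : (0 : ℝ) < 2 ^ (a - u) := by positivity
  have B0 : (0 : ℝ) < 2 ^ (b - v) := by positivity
  have N0 : (0 : ℝ) < 2 ^ M := by positivity
  generalize (2 : ℝ) ^ e = Ea at *
  generalize (2 : ℝ) ^ M = Na at *
  generalize (2 : ℝ) ^ (a - u) = Aa at *
  generalize (2 : ℝ) ^ (b - v) = Ba at *
  generalize (2 : ℝ) ^ u = Ua at *
  generalize (2 : ℝ) ^ v = Va at *
  have E0 : 0 < Ea := by linarith
  have U0 : 0 < Ua := by linarith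
  have V0 : 0 < Va := by linarith
  have u1 : (q : ℝ) * |S.α ω - P.1| ≤ 3 / (Na * (Aa * Ua)) := by
    calc _ ≤ (3 * (Aa * Ba)) * (1 / ((Aa * Ua) ^ 2 * (Ba * Va) * Na)) := by gcongr
      _ = 3 / (Na * (Aa * Ua)) * (1 / (Ua * Va)) := by field_simp
      _ ≤ 3 / (Na * (Aa * Ua)) * 1 := by
        apply mul_le_mul_of_nonneg_left _ (by positivity)
        rw [div_le_one (by positivity)]
        exact one_le_mul_of_one_le_of_one_le ku kv
      _ = _ := mul_one _
  have u2 : (q : ℝ) * |S.β ω - P.2| ≤ 3 / (Ba * Va) := by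
    calc _ ≤ (3 * (Aa * Ba)) * (1 / ((Aa * Ua) * (Ba * Va) ^ 2)) := by gcongr
      _ = 3 / (Ba * Va) * (1 / (Ua * Va)) := by field_simp
      _ ≤ 3 / (Ba * Va) * 1 := by
        apply mul_le_mul_of_nonneg_left _ (by positivity)
        rw [div_le_one (by positivity)]
        exact one_le_mul_of_one_le_of_one_le ku kv
      _ = _ := mul_one _
  have v1 : ‖((q * S.α ω - S.γ₁ ω : ℝ) : TT)‖ ≤ 14 * Ua / (Na * (Aa * Ua)) := by
    have e5 : (10 * Ua + 4) / (Na * (Aa * Ua)) = 4 * Ua / (Na * (Aa * Ua)) + 3 / (Na * (Aa * Ua)) + (6 * Ua + 1) / (Na * (Aa * Ua)) := by ring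
    have e6 : (10 * Ua + 4) / (Na * (Aa * Ua)) ≤ 14 * Ua / (Na * (Aa * Ua)) := by
      apply div_le_div_of_nonneg_right _ (by positivity); linarith
    linarith
  have v2 : ‖((q * S.β ω - S.γ₂ ω : ℝ) : TT)‖ ≤ Na * Va / (Ea * 64 * (Ba * Va)) + 4 / (Ba * Va) := by
    have : 4 / (Ba * Va) = 3 / (Ba * Va) + 1 / (Ba * Va) := by ring
    rw [this]; linarith
  have : (q : ℝ) * ‖((q * S.α ω - S.γ₁ ω : ℝ) : TT)‖ * ‖((q * S.β ω - S.γ₂ ω : ℝ) : TT)‖ < 1 / Ea := by
    calc _ ≤ (3 * (Aa * Ba)) * (14 * Ua / (Na * (Aa * Ua))) * (Na * Va / (Ea * 64 * (Ba * Va)) + 4 / (Ba * Va)) := by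
          gcongr
      _ = (42 / 64) / Ea + (168 / Na) * (1 / Va) := by field_simp; ring
      _ ≤ (42 / 64) / Ea + (168 / Na) * 1 := by
          have : 1 / Va ≤ 1 := by rw [div_le_one V0]; exact kv
          gcongr
      _ ≤ (42 / 64) / Ea + (168 / 1024) / Ea := by
          have : 168 / Na ≤ 168 / 1024 / Ea := by
            rw [div_div, div_le_div_iff₀ (by positivity) (by positivity)]; nlinarith
          linarith
      _ < 1 / Ea := by
          rw [← add_div]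
          apply div_lt_div_of_pos_right _ (by positivity)
          norm_num
  linarith

open Classical in
theorem Sys.P5x {n : ℕ} {C : ℝ} (hC : 0 ≤ C) (hd : S.Dom n C) {q0 Q1 a b f : ℕ}
    (he : ExQ a b f) (hbad : S.Bad q0 Q1 (1 / 2 ^ (4096 * f))) (hq0 : q0 ≤ 2 ^ b) (hQ1 : 3 * 2 ^ (a + b) ≤ Q1)
    (hn1 : 2 * a + b + Mf f ≤ n) (hn2 : a + 2 * b ≤ n) :
    (S.hh (2 * a + b) (a + 2 * b) (a + Mf f) b - S.hh (2 * a + b) (a + 2 * b) a b) +
      (S.hh (2 * a + b + Mf f) (a + 2 * b) a b - S.hh (2 * a + b) (a + 2 * b) a b) ≤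
      (Mf f * Real.log 2 + 60000 * f) + 2 * (Mf f * Real.log 2) * ((2 / th0) * (C * (1 / 2 ^ f))) +
        (2 * (Mf f * Real.log 2) / pq f) * II S.hh (Mf f) a b := by
  have hf := he.hf
  have hp := he.p
  have ha := he.ha
  have hb' := he.hb
  have hf0 : (40000 : ℝ) ≤ f := by exact_mod_cast hf
  have hlg2 : Real.log 2 < 0.7 := by have := Real.log_two_lt_d9; linarith
  have hlg0 : 0 < Real.log 2 := Real.log_pos (by norm_num)
  have hMe := Mf_eq f
  have hth : (0 : ℝ) < th0 := by unfold th0; positivity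
  set i := 2 * a + b with hi
  set j := a + 2 * b with hj
  set M := Mf f with hM
  have hMr : (M : ℝ) = 15728640000000000 * f := by rw [hMe]; push_cast; ring
  set 𝓖 : Set (TT × TT) := GQ a b f with h𝓖
  have hmeas : volume 𝓖ᶜ ≤ ENNReal.ofReal (1 / 2 ^ f) := meas_GQ he
  set ξ : Ω → ℕ × ℕ × ℕ × ℕ := S.xi i j a b with hξ
  set X : Ω → ℕ := fun ω => dig (a + M) (S.γ₁ ω) % 2 ^ M with hX
  set Y : Ω → ℕ := fun ω => dig (i + M) (S.α ω) % 2 ^ M with hY
  have hpos2M : 0 < 2 ^ M := by positivity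
  set Tg : ℕ × ℕ × ℕ × ℕ → Finset ℕ := fun v =>
    (range (2 ^ M)).filter (fun y => good 𝓖 (i + M) j (v.1 * 2 ^ M + y) v.2.1) with hTg
  have hXH : H S.p (fun ω => (ξ ω, X ω)) = S.hh i j (a + M) b := by
    apply H_congr
    intro ω ω'
    rw [pair_eq', S.xi_eq, S.xi_eq, dig_mod (a := a) (M := M)]
    tauto
  have hYH : H S.p (fun ω => (ξ ω, Y ω)) = S.hh (i + M) j a b := by
    apply H_congr
    intro ω ω'
    rw [pair_eq', S.xi_eq, S.xi_eq, dig_mod (a := i) (M := M)]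
    tauto
  have hXYH : H S.p (fun ω => (ξ ω, (X ω, Y ω))) = S.hh (i + M) j (a + M) b := by
    apply H_congr
    intro ω ω'
    rw [triple_eq, S.xi_eq, S.xi_eq, dig_mod (a := i) (M := M), dig_mod (a := a) (M := M)]
    tauto
  have hlogN : Real.log ((2 ^ M : ℕ) : ℝ) = M * Real.log 2 := by
    push_cast; rw [Real.log_pow]
  have hmass : (∑ ω, if Y ω ∈ Tg (ξ ω) then 0 else S.p ω) ≤ C * (1 / 2 ^ f) := by
    have h1 := S.bad_mass hC hd 𝓖 (τ := 1 / 2 ^ f) (by positivity) hmeas (k := i + M) (l := j) hn1 hn2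
    refine le_trans (le_of_eq ?_) h1
    apply Finset.sum_congr rfl; intro ω _
    have e1 : (ξ ω).1 * 2 ^ M + Y ω = dig (i + M) (S.α ω) := by
      show dig i (S.α ω) * 2 ^ M + dig (i + M) (S.α ω) % 2 ^ M = dig (i + M) (S.α ω)
      rw [← dig_div (k := i) (m := M)]
      have := Nat.div_add_mod (dig (i + M) (S.α ω)) (2 ^ M)
      rw [mul_comm] at this; exact this
    have e2 : (ξ ω).2.1 = dig j (S.β ω) := rfl
    have e3 : Y ω ∈ Tg (ξ ω) ↔ good 𝓖 (i + M) j (dig (i + M) (S.α ω)) (dig j (S.β ω)) := by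
      rw [hTg]; dsimp only
      rw [Finset.mem_filter, e1, e2]
      constructor
      · exact fun h => h.2
      · intro h
        refine ⟨?_, h⟩
        rw [Finset.mem_range]; exact Nat.mod_lt _ hpos2M
    by_cases h : Y ω ∈ Tg (ξ ω)
    · rw [if_pos h, if_pos (e3.mp h)]
    · rw [if_neg h, if_neg (fun h' => h (e3.mpr h'))]
  set bb : ℕ × ℕ × ℕ × ℕ → ℝ := fun v =>
    (2 / th0) * ((∑ y ∈ (range (2 ^ M)).filter (fun y => y ∉ Tg v), pr S.p (fun ω => (ξ ω, Y ω)) (v, y)) / pr S.p ξ v) with hbb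
  have hbb0 : ∀ v, 0 ≤ bb v := by
    intro v; rw [hbb]; dsimp only
    apply mul_nonneg (by positivity)
    exact div_nonneg (Finset.sum_nonneg (fun y _ => pr_nonneg S.hp _ _)) (pr_nonneg S.hp _ _)
  have hbsum : ∑ v ∈ univ.image ξ, pr S.p ξ v * bb v ≤ (2 / th0) * (C * (1 / 2 ^ f)) := by
    have h1 : ∀ v ∈ univ.image ξ, pr S.p ξ v * bb v ≤
        (2 / th0) * ∑ y ∈ (range (2 ^ M)).filter (fun y => y ∉ Tg v), pr S.p (fun ω => (ξ ω, Y ω)) (v, y) := by
      intro v _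
      rw [hbb]; dsimp only
      have hs0 : 0 ≤ ∑ y ∈ (range (2 ^ M)).filter (fun y => y ∉ Tg v), pr S.p (fun ω => (ξ ω, Y ω)) (v, y) :=
        Finset.sum_nonneg (fun y _ => pr_nonneg S.hp _ _)
      rcases (pr_nonneg S.hp ξ v).eq_or_lt with h | h
      · rw [← h, zero_mul]; positivity
      · apply le_of_eq
        field_simp
    refine (Finset.sum_le_sum h1).trans ?_
    rw [← Finset.mul_sum, bad_fiber S.p ξ Y Tg (2 ^ M) (fun ω => Nat.mod_lt _ hpos2M)]
    exact mul_le_mul_of_nonneg_left hmass (by positivity)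
  have key := NLtot (p := S.p) S.hp S.hp1 ξ X Y (N := 2 ^ M) Nat.one_le_two_pow
    (fun ω => Nat.mod_lt _ hpos2M) (fun ω => Nat.mod_lt _ hpos2M)
    (Tt := M * Real.log 2 + 60000 * f) (Hm := 2 * (M * Real.log 2)) (p₁ := pq f) (pq_pos (by omega))
    (by rw [hlogN]; have : 0 ≤ (M : ℝ) * Real.log 2 := by positivity
        linarith) (by positivity) bb hbb0
    (by
      intro v hv μ ν hμe hνe m0 n0 m1 n1
      have t1 := ent_le Nat.one_le_two_pow m0 m1
      have t2 := ent_le Nat.one_le_two_pow n0 n1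
      by_cases hbv : 1 ≤ bb v
      · left
        rw [hlogN] at t1 t2
        have h3 : 2 * (M * Real.log 2) * 1 ≤ 2 * (M * Real.log 2) * bb v := by gcongr
        have h4 : 0 ≤ (M : ℝ) * Real.log 2 := by positivity
        linarith
      push Not at hbv
      by_cases hsm : (∑ x ∈ range (2 ^ M), negMulLog (μ x)) + (∑ y ∈ range (2 ^ M), negMulLog (ν y)) ≤ M * Real.log 2 + 60000 * f
      · left
        have : 0 ≤ 2 * (M * Real.log 2) * bb v := mul_nonneg (by positivity) (hbb0 v)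
        linarith
      right
      push Not at hsm
      have hbfrac : ∑ y ∈ (range (2 ^ M)).filter (fun y => y ∉ Tg v), ν y ≤ th0 / 2 := by
        have e1 : ∑ y ∈ (range (2 ^ M)).filter (fun y => y ∉ Tg v), ν y =
            (∑ y ∈ (range (2 ^ M)).filter (fun y => y ∉ Tg v), pr S.p (fun ω => (ξ ω, Y ω)) (v, y)) / pr S.p ξ v := by
          rw [Finset.sum_div]
          apply Finset.sum_congr rfl; intro y _
          exact hνe y
        have e2 : bb v = (2 / th0) * ∑ y ∈ (range (2 ^ M)).filter (fun y => y ∉ Tg v), ν y := by rw [e1]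
        rw [e2] at hbv
        have h5 : (2 / th0) * ∑ y ∈ (range (2 ^ M)).filter (fun y => y ∉ Tg v), ν y = (∑ y ∈ (range (2 ^ M)).filter (fun y => y ∉ Tg v), ν y) / (th0 / 2) := by
          field_simp
        rw [h5, div_lt_one (by positivity)] at hbv
        exact hbv.le
      -- choice of generic points
      have hex : ∀ y : ℕ, ∃ x : ℝ × ℝ, y ∈ Tg v → ((0 ≤ x.1 ∧ x.1 < 1) ∧ (0 ≤ x.2 ∧ x.2 < 1) ∧
          dig (i + M) x.1 = v.1 * 2 ^ M + y ∧ dig j x.2 = v.2.1 ∧ prj x ∈ 𝓖) := by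
        intro y
        by_cases hy : y ∈ Tg v
        · have := (Finset.mem_filter.mp hy).2
          obtain ⟨x, hx⟩ := this
          exact ⟨x, fun _ => hx⟩
        · exact ⟨0, fun h => absurd h hy⟩
      choose xs hxs using hex
      refine fiber_hit hp (nn := 21 * f) (by omega) (T0 := Tg v) (xs := xs) (c1 := v.1) (c3 := v.2.2.1) (c4 := v.2.2.2)
        ?_ ?_ ?_ ?_ ?_ ?_ m0 m1 n0 n1 (θ := th0) (c := 15000 * f) hth (by positivity) ?_ ?_ hbfrac ?_ _ ?_
      · intro y hy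
        have := (Finset.mem_filter.mp hy).1
        rw [Finset.mem_range] at this
        exact this
      · intro y hy
        obtain ⟨h1, h2, h3, h4, h5⟩ := hxs y hy
        have := dig_le (k := i + M) h1.1
        rw [h3, add_comm i M, pow_add] at this
        push_cast at this
        linarith
      · intro y hy
        obtain ⟨h1, h2, h3, h4, h5⟩ := hxs y hy
        have := lt_dig (k := i + M) (xs y).1
        rw [h3, add_comm i M, pow_add] at this
        push_cast at this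
        linarith
      · intro y hy y' hy'
        obtain ⟨_, h2, _, h4, _⟩ := hxs y hy
        obtain ⟨_, h2', _, h4', _⟩ := hxs y' hy'
        exact dig_close (k := j) h2.1 h2'.1 (h4.trans h4'.symm)
      · intro y hy u v' hu hv'
        exact (hxs y hy).2.2.2.2.1 u v' hu hv'
      · intro y hy
        exact (hxs y hy).2.2.2.2.2
      · rw [hlogN, hMr]
        unfold th0
        have h3 : (f : ℝ) * Real.log 2 ≤ f * 0.7 := by gcongr
        have e3 : (1 / 10 ^ 12 : ℝ) * (15728640000000000 * f * Real.log 2 + 15000 * f) + 1 =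
            15728.64 * (f * Real.log 2) + (15000 / 10 ^ 12) * f + 1 := by ring
        rw [e3]
        norm_num at h3 ⊢
        linarith
      · rw [hlogN]; linarith
      · intro u v' hu hv'
        exact small_f he (by omega) (by omega)
      · intro x y hx hy hex
        obtain ⟨u, v', hu, hv', hS⟩ := hex
        by_contra hne
        unfold pr at hne
        obtain ⟨ω, _, hω⟩ := Finset.exists_ne_zero_of_sum_ne_zero hne
        have hcond : (ξ ω, (X ω, Y ω)) = (v, (x, y)) := by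
          by_contra hc; exact hω (if_neg hc)
        rw [if_pos hcond] at hω
        have hpω : 0 < S.p ω := lt_of_le_of_ne (S.hp ω) (Ne.symm hω)
        rw [triple_eq] at hcond
        obtain ⟨hc1, hc2, hc3⟩ := hcond
        obtain ⟨g1, g2, g3, g4, g5⟩ := hxs y hy
        have d1 : dig (i + M) (S.α ω) = v.1 * 2 ^ M + y := by
          have e1 : dig i (S.α ω) * 2 ^ M + dig (i + M) (S.α ω) % 2 ^ M = dig (i + M) (S.α ω) := by
            rw [← dig_div (k := i) (m := M)]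
            have := Nat.div_add_mod (dig (i + M) (S.α ω)) (2 ^ M)
            rw [mul_comm] at this; exact this
          rw [← e1]
          have e2 : dig i (S.α ω) = v.1 := by rw [← hc1]; rfl
          have e3 : dig (i + M) (S.α ω) % 2 ^ M = y := hc3
          rw [e2, e3]
        have d2 : dig j (S.β ω) = v.2.1 := by rw [← hc1]; rfl
        have d3 : dig (a + M) (S.γ₁ ω) = v.2.2.1 * 2 ^ M + x := by
          have e1 : dig a (S.γ₁ ω) * 2 ^ M + dig (a + M) (S.γ₁ ω) % 2 ^ M = dig (a + M) (S.γ₁ ω) := by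
            rw [← dig_div (k := a) (m := M)]
            have := Nat.div_add_mod (dig (a + M) (S.γ₁ ω)) (2 ^ M)
            rw [mul_comm] at this; exact this
          rw [← e1]
          have e2 : dig a (S.γ₁ ω) = v.2.2.1 := by rw [← hc1]; rfl
          have e3 : dig (a + M) (S.γ₁ ω) % 2 ^ M = x := hc2
          rw [e2, e3]
        have d4 : dig b (S.γ₂ ω) = v.2.2.2 := by rw [← hc1]; rfl
        exact S.no_hit5 hp (by omega) hbad (u := 3 * u) (v := 3 * v') (by omega) (by omega)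
          (hq0.trans (Nat.pow_le_pow_right (by norm_num) (by omega))) hQ1 hpω d1 d2 d3 d4 ⟨g1.1, g2.1⟩ g3 g4 hS)
  rw [hXH, hYH, hXYH] at key
  have hξe : H S.p ξ = S.hh i j a b := rfl
  rw [hξe] at key
  have hII : II S.hh M a b = S.hh i j (a + M) b + S.hh (i + M) j a b - S.hh (i + M) j (a + M) b - S.hh i j a b := by
    unfold II; rw [← hi, ← hj]; ring
  rw [hII]
  have h6 : 2 * (M * Real.log 2) * (∑ v ∈ univ.image ξ, pr S.p ξ v * bb v) ≤ 2 * (M * Real.log 2) * ((2 / th0) * (C * (1 / 2 ^ f))) := by gcongr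
  linarith

end

end Run7.h297
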