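import Pool.Agent.Run7.h297.NodeD
import Pool.Agent.Run7.h297.P5f

set_option autoImplicit false

/-! The final comparison with the exact logarithm. -/

noncomputable section

namespace Run7.h297

open Real Finset MeasureTheory

theorem Sys.contrD {Ω : Type*} [Fintype Ω] (S : Sys Ω) {n : ℕ} {C : ℝ} (hC : 0 < C) (hd : S.Dom n C)
    {q0 Q1 f l K A0 B0 na nb : ℕ} (hl : 3 * l = mf f) (hK : K = 200000000) (hf : 40000 ≤ f)
    (hA : 2 * mf f + l + 5000 * f ≤ A0) (hB : Mf f + 63 * f ≤ B0) (hlgb : A0 + na + Mf f + B0 + nb + 4 * mf f ≤ 2 ^ (8192 * f))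
    (hbad : S.Bad q0 Q1 (1 / 2 ^ (4096 * f))) (hq0 : q0 ≤ 2 ^ B0) (hQ1 : 3 * 2 ^ (A0 + na + Mf f + B0 + nb + mf f) ≤ Q1)
    (hn : 4 * (A0 + na + Mf f + B0 + nb) ≤ n) :
    (na : ℝ) * nb * (K * ((f : ℝ) / 1200 - 2 * (mf f * Real.log 2) * (C * (1 / 2 ^ (2 * f))))) ≤
      nb * (Mf f) * ((A0 + 4 * (Mf f) + B0 + nb) * Real.log 2 + Real.log C) +
        na * nb * (60000 * f + 2 * (Mf f * Real.log 2) * ((2 / th0) * (C * (1 / 2 ^ f)))) +
        (2 * (Mf f * Real.log 2) / pq f) * (na * (Mf f * (Mf f * Real.log 2))) +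
        K * (2 * (mf f * Real.log 2) / pc f) * (nb * (l * ((3 * l) * Real.log 2)) + (na + Mf f) * ((2 * l) * ((3 * l) * Real.log 2)) +
          (na + Mf f) * ((mf f + 3 * l) * ((mf f + 3 * l) * Real.log 2))) := by
  have hlg : 0 < Real.log 2 := Real.log_pos (by norm_num)
  have hM : Mf f = 2 * mf f * K := by rw [hK]; rfl
  have hMc : (Mf f : ℝ) = 2 * (mf f : ℝ) * K := by rw [hM]; push_cast; ring
  have hmM : 2 * mf f ≤ Mf f := by
    have := Mf_eq f
    have h2 : mf f = 39321600 * f := rfl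
    omega
  have hpq := pq_pos (f := f) (by omega)
  have hpc := pc_pos (f := f) (by omega)
  rw [hMc]
  apply bookkeepingB (m := mf f) S.sub4
  · positivity
  · positivity
  · omega
  · intro a b; exact IJ_nonneg S.sub4 _ _ _ _
  · intro a b ha1 ha2 hb1 hb2
    rw [← hM, ← hMc]
    have h := S.P5x hC.le hd (a := a) (b := b) (f := f) ⟨hf, by omega, by omega⟩ hbad
      (hq0.trans (Nat.pow_le_pow_right (by norm_num) (by omega)))
      (le_trans (Nat.mul_le_mul_left _ (Nat.pow_le_pow_right (by norm_num) (by omega))) hQ1)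
      (by omega) (by omega)
    linarith
  · intro a b ha1 ha2 hb1 hb2
    rw [← hM] at ha2
    rw [hl]
    exact S.P6C hC.le hd (a := a) (b := b) (f := f) ⟨hf, by omega, by omega, by omega⟩ hbad
      (hq0.trans (Nat.pow_le_pow_right (by norm_num) (by omega)))
      (le_trans (Nat.mul_le_mul_left _ (Nat.pow_le_pow_right (by norm_num) (by omega))) hQ1)
      (by omega) (by omega)
  · intro a b _ _ _ _
    refine (S.upper _ _ _ _).trans ?_
    apply mul_le_mul_of_nonneg_right _ hlg.le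
    push_cast
    linarith
  · intro a b _ ha2 _ hb2
    rw [← hM] at ha2
    refine le_trans ?_ (S.lower hC hd (k := 2 * a + b) (l := a + 2 * b) (by omega) (by omega))
    apply sub_le_sub_right
    apply mul_le_mul_of_nonneg_right _ hlg.le
    push_cast
    linarith

end Run7.h297
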