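import Pool.Agent.Run7.h297.P5f

set_option autoImplicit false

/-! The contradiction with the exact logarithm. -/

noncomputable section

namespace Run7.h297

open Real Finset MeasureTheory

/-- the bound for the hit probability in the third coordinate -/
theorem pq_bd {f : ℕ} (hf : 1 ≤ f) {Mx : ℝ} (hM0 : 0 ≤ Mx) (hM : Mx ≤ 16000000000000000 * f) {lg : ℝ} (hl0 : 0 ≤ lg) (hl1 : lg ≤ 1) :
    (2 * (Mx * lg) / pq f) * (Mx * (Mx * lg)) ≤ 10 ^ 73 * f * 2 ^ (4096 * f) := by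
  have hf0 : (1 : ℝ) ≤ f := by exact_mod_cast hf
  have hf00 : (0 : ℝ) < f := by linarith
  have hP : (0 : ℝ) < 2 ^ (4096 * f) := by positivity
  unfold pq th0
  push_cast
  generalize (2 : ℝ) ^ (4096 * f) = P at *
  have e1 : (2 * (Mx * lg) / ((21 * (f : ℝ)) ^ 2 * (1 / (16 * P) / 2) * (1 / 10 ^ 12 * (1 / 10 ^ 12 / 2)))) * (Mx * (Mx * lg)) =
      (128 * 10 ^ 24 / 441) * (Mx ^ 3 * lg ^ 2 * P / f ^ 2) := by
    field_simp; ring
  rw [e1]
  have h3 : Mx ^ 3 ≤ (16000000000000000 * (f : ℝ)) ^ 3 := pow_le_pow_left₀ hM0 hM 3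
  have h2 : lg ^ 2 ≤ 1 := pow_le_one₀ hl0 hl1
  have h4 : Mx ^ 3 * lg ^ 2 * P / f ^ 2 ≤ (16000000000000000 * (f : ℝ)) ^ 3 * 1 * P / f ^ 2 := by
    gcongr
  have e2 : (16000000000000000 * (f : ℝ)) ^ 3 * 1 * P / f ^ 2 = 16000000000000000 ^ 3 * (f * P) := by
    field_simp
  rw [e2] at h4
  have hfP : 0 ≤ (f : ℝ) * P := by positivity
  calc (128 * 10 ^ 24 / 441) * (Mx ^ 3 * lg ^ 2 * P / f ^ 2) ≤ (128 * 10 ^ 24 / 441) * (16000000000000000 ^ 3 * (f * P)) := by gcongr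
    _ = (128 * 10 ^ 24 / 441 * 16000000000000000 ^ 3) * (f * P) := by ring
    _ ≤ 10 ^ 73 * (f * P) := by
      apply mul_le_mul_of_nonneg_right _ hfP
      norm_num
    _ = _ := by ring

/-- the bound for the hit probability in the leading coordinates -/
theorem pc_bd {f : ℕ} (hf : 1 ≤ f) {m : ℝ} (hm0 : 0 ≤ m) (hm : m ≤ 40000000 * f) {lg : ℝ} (hl0 : 0 ≤ lg) (hl1 : lg ≤ 1) :
    2 * (m * lg) / pc f ≤ 10 ^ 22 * 2 ^ (4096 * f) / f := by
  have hf0 : (1 : ℝ) ≤ f := by exact_mod_cast hf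
  have hf00 : (0 : ℝ) < f := by linarith
  have hP : (0 : ℝ) < 2 ^ (4096 * f) := by positivity
  unfold pc Jc
  push_cast
  rw [pow_add 2 (4096 * f) 7]
  generalize (2 : ℝ) ^ (4096 * f) = P at *
  have e1 : (2 * (m * lg) / ((64 * (f : ℝ)) ^ 2 * (1 / (P * 2 ^ 7) / (4 * (1 + 2 ^ 13))) / (15000 * (25 * (1 + 2 ^ 15))))) =
      (2 * 2 ^ 7 * 4 * (1 + 2 ^ 13) * 15000 * 25 * (1 + 2 ^ 15) / 4096) * (m * lg * P / f ^ 2) := by
    field_simp; norm_num
  rw [e1]
  have h4 : m * lg * P / f ^ 2 ≤ (40000000 * f) * 1 * P / f ^ 2 := by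
    gcongr
  have e2 : (40000000 * (f : ℝ)) * 1 * P / f ^ 2 = 40000000 * (P / f) := by
    field_simp
  rw [e2] at h4
  have hfP : 0 ≤ P / (f : ℝ) := by positivity
  calc (2 * 2 ^ 7 * 4 * (1 + 2 ^ 13) * 15000 * 25 * (1 + 2 ^ 15) / 4096) * (m * lg * P / f ^ 2) ≤
      (2 * 2 ^ 7 * 4 * (1 + 2 ^ 13) * 15000 * 25 * (1 + 2 ^ 15) / 4096) * (40000000 * (P / f)) := by gcongr
    _ = (2 * 2 ^ 7 * 4 * (1 + 2 ^ 13) * 15000 * 25 * (1 + 2 ^ 15) / 4096 * 40000000) * (P / f) := by ring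
    _ ≤ 10 ^ 22 * (P / f) := by
      apply mul_le_mul_of_nonneg_right _ hfP
      norm_num
    _ = _ := by ring

theorem final_num {F P C lg lC M m l A0 B0 na nb K g₀ c₁ E E3 : ℝ} (hF : 10000000 ≤ F) (hFP : F ≤ P) (hl0 : 0 ≤ lg) (hl1 : lg ≤ 1)
    (hM0 : 0 ≤ M) (hM : M ≤ 16000000000000000 * F) (hm0 : 0 ≤ m) (hm : m ≤ 40000000 * F) (hL0 : 0 ≤ l) (hL : l ≤ 14000000 * F)
    (hA0 : 0 ≤ A0) (hA : A0 ≤ 100000000 * F) (hB0 : 0 ≤ B0) (hB : B0 ≤ 17000000000000000 * F) (hlC : lC ≤ F)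
    (hnb : nb = 10 ^ 80 * P) (hna : na = 10 ^ 100 * P) (hK : K = 200000000)
    (hg : F / 1200 - 1 / 1000000 ≤ g₀) (hc₁ : c₁ ≤ 60000 * F + 1)
    (hE : E * (M * (M * lg)) ≤ 10 ^ 73 * F * P) (hE30 : 0 ≤ E3) (hE3 : E3 ≤ 10 ^ 22 * P / F) :
    ¬ (na * nb * (K * g₀) ≤ nb * M * ((A0 + 4 * M + B0 + nb) * lg + lC) + na * nb * c₁ + E * (na * (M * (M * lg))) +
        K * E3 * (nb * (l * ((3 * l) * lg)) + (na + M) * ((2 * l) * ((3 * l) * lg)) + (na + M) * ((m + 3 * l) * ((m + 3 * l) * lg)))) := by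
  intro h
  have hF0 : 0 < F := by linarith
  have hP0 : 0 < P := by linarith
  have hna0 : 0 < na := by rw [hna]; positivity
  have hnb0 : 0 < nb := by rw [hnb]; positivity
  have hnn : 0 < na * nb := by positivity
  -- first term
  have t1 : nb * M * ((A0 + 4 * M + B0 + nb) * lg + lC) ≤ na * nb * (F / 1000) := by
    have h1 : (A0 + 4 * M + B0 + nb) * lg + lC ≤ 2 * nb := by
      have h2 : (A0 + 4 * M + B0 + nb) * lg ≤ (A0 + 4 * M + B0 + nb) * 1 := by gcongr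
      have h3 : 100000000000000000 * F ≤ nb := by
        rw [hnb]
        calc 100000000000000000 * F ≤ 100000000000000000 * P := by gcongr
          _ ≤ 10 ^ 80 * P := by gcongr; norm_num
      linarith
    have h4 : nb * M * ((A0 + 4 * M + B0 + nb) * lg + lC) ≤ nb * M * (2 * nb) := by gcongr
    refine h4.trans ?_
    have h5 : nb * M * (2 * nb) ≤ nb * (16000000000000000 * F) * (2 * nb) := by gcongr
    refine h5.trans ?_
    have h6 : na = 10 ^ 20 * nb := by rw [hna, hnb]; ring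
    rw [h6]
    have h7 : 0 ≤ nb * nb * F := by positivity
    have e1 : nb * (16000000000000000 * F) * (2 * nb) = 32000000000000000 * (nb * nb * F) := by ring
    have e2 : 10 ^ 20 * nb * nb * (F / 1000) = (10 ^ 20 / 1000) * (nb * nb * F) := by ring
    rw [e1, e2]
    apply mul_le_mul_of_nonneg_right _ h7
    norm_num
  have t2 : na * nb * c₁ ≤ na * nb * (60000 * F + 1) := by gcongr
  have t3 : E * (na * (M * (M * lg))) ≤ na * nb * (F / 1000) := by
    have e1 : E * (na * (M * (M * lg))) = na * (E * (M * (M * lg))) := by ring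
    rw [e1]
    have h1 : na * (E * (M * (M * lg))) ≤ na * (10 ^ 73 * F * P) := by gcongr
    refine h1.trans ?_
    rw [hnb]
    have e2 : na * (10 ^ 80 * P) * (F / 1000) = na * ((10 ^ 80 / 1000) * F * P) := by ring
    rw [e2]
    apply mul_le_mul_of_nonneg_left _ hna0.le
    have h7 : 0 ≤ F * P := by positivity
    have e3 : 10 ^ 73 * F * P = 10 ^ 73 * (F * P) := by ring
    have e4 : 10 ^ 80 / 1000 * F * P = 10 ^ 80 / 1000 * (F * P) := by ring
    rw [e3, e4]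
    apply mul_le_mul_of_nonneg_right _ h7
    norm_num
  have t4 : K * E3 * (nb * (l * ((3 * l) * lg)) + (na + M) * ((2 * l) * ((3 * l) * lg)) + (na + M) * ((m + 3 * l) * ((m + 3 * l) * lg))) ≤
      na * nb * (F / 1000) := by
    have hnbna : nb ≤ na := by
      rw [hna, hnb]; gcongr <;> norm_num
    have hMna : M ≤ na := by
      rw [hna]
      calc M ≤ 16000000000000000 * F := hM
        _ ≤ 16000000000000000 * P := by gcongr
        _ ≤ 10 ^ 100 * P := by gcongr; norm_num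
    have b1 : nb * (l * ((3 * l) * lg)) ≤ na * ((14000000 * F) * ((3 * (14000000 * F)) * 1)) := by gcongr
    have b2 : (na + M) * ((2 * l) * ((3 * l) * lg)) ≤ (na + na) * ((2 * (14000000 * F)) * ((3 * (14000000 * F)) * 1)) := by gcongr
    have b3 : (na + M) * ((m + 3 * l) * ((m + 3 * l) * lg)) ≤ (na + na) * ((40000000 * F + 3 * (14000000 * F)) * ((40000000 * F + 3 * (14000000 * F)) * 1)) := by gcongr
    have b4 : nb * (l * ((3 * l) * lg)) + (na + M) * ((2 * l) * ((3 * l) * lg)) + (na + M) * ((m + 3 * l) * ((m + 3 * l) * lg)) ≤ 10 ^ 18 * (na * F ^ 2) := by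
      have h7 : 0 ≤ na * F ^ 2 := by positivity
      have e3 : na * ((14000000 * F) * ((3 * (14000000 * F)) * 1)) + (na + na) * ((2 * (14000000 * F)) * ((3 * (14000000 * F)) * 1)) +
          (na + na) * ((40000000 * F + 3 * (14000000 * F)) * ((40000000 * F + 3 * (14000000 * F)) * 1)) = 16388000000000000 * (na * F ^ 2) := by ring
      have e4 : 16388000000000000 * (na * F ^ 2) ≤ 10 ^ 18 * (na * F ^ 2) := by
        apply mul_le_mul_of_nonneg_right _ h7
        norm_num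
      linarith
    have hKE : 0 ≤ K * E3 := by rw [hK]; positivity
    have b5 : K * E3 * (nb * (l * ((3 * l) * lg)) + (na + M) * ((2 * l) * ((3 * l) * lg)) + (na + M) * ((m + 3 * l) * ((m + 3 * l) * lg))) ≤
        K * E3 * (10 ^ 18 * (na * F ^ 2)) := mul_le_mul_of_nonneg_left b4 hKE
    refine b5.trans ?_
    have b6 : K * E3 * (10 ^ 18 * (na * F ^ 2)) ≤ K * (10 ^ 22 * P / F) * (10 ^ 18 * (na * F ^ 2)) := by
      rw [hK]; gcongr
    refine b6.trans ?_
    rw [hK, hnb]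
    have e5 : 200000000 * (10 ^ 22 * P / F) * (10 ^ 18 * (na * F ^ 2)) = (200000000 * 10 ^ 22 * 10 ^ 18) * (na * P * F) := by
      field_simp
    have e6 : na * (10 ^ 80 * P) * (F / 1000) = (10 ^ 80 / 1000) * (na * P * F) := by ring
    rw [e5, e6]
    apply mul_le_mul_of_nonneg_right _ (by positivity)
    norm_num
  have t0 : na * nb * (166666 * F - 1000) ≤ na * nb * (K * g₀) := by
    apply mul_le_mul_of_nonneg_left _ hnn.le
    rw [hK]; linarith
  have h9 : na * nb * (166666 * F - 1000) ≤ na * nb * (F / 1000 + (60000 * F + 1) + F / 1000 + F / 1000) := by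
    have e7 : na * nb * (F / 1000 + (60000 * F + 1) + F / 1000 + F / 1000) =
      na * nb * (F / 1000) + na * nb * (60000 * F + 1) + na * nb * (F / 1000) + na * nb * (F / 1000) := by ring
    rw [e7]; linarith
  have h10 := le_of_mul_le_mul_left h9 hnn
  linarith

end Run7.h297
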