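import Pool.Agent.Run7.h297.CoreD
import Pool.Agent.Run7.h297.CoreE
import Pool.Agent.Run7.h297.Reduce
import Pool.Agent.Run7.h297.Sample

set_option autoImplicit false

/-! The exceptional sets for the exact logarithm are null. -/

noncomputable section

namespace Run7.h297

open Real Finset MeasureTheory

theorem core_baseD (N : ℕ) (c : ℝ) (hc : 0 < c) (E : Set (ℝ × ℝ))
    (hE : E ⊆ Set.Ico 0 1 ×ˢ Set.Ico 0 1) (hv : ENNReal.ofReal c ≤ volume E)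
    (g : ℝ × ℝ → ℝ × ℝ) (hg1 : ∀ x, 0 ≤ (g x).1 ∧ (g x).1 < 1) (hg2 : ∀ x, 0 ≤ (g x).2 ∧ (g x).2 < 1) :
    ¬ (∀ x ∈ E, ∀ q : ℕ, N ≤ q → (10 : ℝ) ^ 101 ≤ q * Real.log q * prd q x (g x)) := by
  intro hbad
  obtain ⟨C, hC⟩ : ∃ C : ℝ, C = 1 / c := ⟨_, rfl⟩
  have hC0 : 0 < C := by rw [hC]; positivity
  obtain ⟨f, hfX⟩ := exists_nat_ge (10 ^ 40 * C + N + 10000000)
  obtain ⟨F, hFf⟩ : ∃ F : ℝ, F = f := ⟨_, rfl⟩
  rw [← hFf] at hfX
  have hN0 : (0 : ℝ) ≤ N := Nat.cast_nonneg N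
  have h40 : 0 ≤ 10 ^ 40 * C := by positivity
  have hF7 : 10000000 ≤ F := by linarith
  have hFC : 10 ^ 40 * C ≤ F := by linarith
  have hNf : N ≤ f := by
    have : (N : ℝ) ≤ f := by rw [← hFf]; linarith
    exact_mod_cast this
  have hf7 : 10000000 ≤ f := by
    have : ((10000000 : ℕ) : ℝ) ≤ f := by rw [← hFf]; push_cast; exact hF7
    exact_mod_cast this
  have hF0 : 0 < F := by linarith
  -- the powers
  obtain ⟨p, hp⟩ : ∃ z : ℕ, z = 2 ^ (4096 * f) := ⟨_, rfl⟩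
  obtain ⟨P, hP⟩ : ∃ z : ℝ, z = 2 ^ (4096 * f) := ⟨_, rfl⟩
  have hpP : (p : ℝ) = P := by rw [hp, hP]; push_cast; rfl
  have hy2 : 250000 * (F * F) ≤ 2 ^ f := by rw [hFf]; exact sq_small (by omega)
  have hfp : f ≤ p := by
    have h1 : f < 2 ^ f := Nat.lt_two_pow_self
    have h2 : 2 ^ f ≤ p := by rw [hp]; exact Nat.pow_le_pow_right (by norm_num) (by omega)
    omega
  have hFP : F ≤ P := by rw [hFf, ← hpP]; exact_mod_cast hfp
  have hpbig : 10 ^ 101 ≤ p := by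
    have h1 : (10 : ℕ) ^ 101 ≤ (2 ^ 168) ^ 2 := by norm_num
    have h2 : (2 ^ 168) ^ 2 ≤ p := by rw [hp, ← pow_mul]; exact Nat.pow_le_pow_right (by norm_num) (by omega)
    exact h1.trans h2
  -- parameters
  obtain ⟨l, hl⟩ : ∃ z : ℕ, z = 13107200 * f := ⟨_, rfl⟩
  obtain ⟨m, hm⟩ : ∃ z : ℕ, z = mf f := ⟨_, rfl⟩
  obtain ⟨M, hM⟩ : ∃ z : ℕ, z = Mf f := ⟨_, rfl⟩
  have hm' : m = 39321600 * f := hm
  have hM' : M = 15728640000000000 * f := by rw [hM, Mf_eq]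
  obtain ⟨K, hK⟩ : ∃ z : ℕ, z = 200000000 := ⟨_, rfl⟩
  obtain ⟨A0, hA0⟩ : ∃ z : ℕ, z = 2 * m + l + 5000 * f := ⟨_, rfl⟩
  obtain ⟨B0, hB0⟩ : ∃ z : ℕ, z = M + 63 * f + N := ⟨_, rfl⟩
  obtain ⟨nb, hnb⟩ : ∃ z : ℕ, z = 10 ^ 80 * p := ⟨_, rfl⟩
  obtain ⟨na, hna⟩ : ∃ z : ℕ, z = 10 ^ 100 * p := ⟨_, rfl⟩
  obtain ⟨n, hn⟩ : ∃ z : ℕ, z = 4 * (A0 + na + M + B0 + nb) := ⟨_, rfl⟩
  obtain ⟨Q1, hQ1⟩ : ∃ z : ℕ, z = 3 * 2 ^ (A0 + na + M + B0 + nb + m) := ⟨_, rfl⟩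
  have hnbr : (nb : ℝ) = 10 ^ 80 * P := by rw [hnb]; push_cast; rw [hpP]; norm_num
  have hnar : (na : ℝ) = 10 ^ 100 * P := by rw [hna]; push_cast; rw [hpP]; norm_num
  have hsmall : A0 + M + B0 + 4 * m ≤ 10 ^ 18 * p := by
    have : A0 + M + B0 + 4 * m ≤ 10 ^ 18 * f := by
      rw [hA0, hB0, hM', hm', hl]; omega
    exact this.trans (Nat.mul_le_mul_left _ hfp)
  have hsum : A0 + na + M + B0 + nb + 4 * m ≤ 10 ^ 101 * p := by
    rw [hna, hnb]
    have e1 : 10 ^ 18 * p + 10 ^ 80 * p + 10 ^ 100 * p ≤ 10 ^ 101 * p := by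
      rw [← Nat.add_mul, ← Nat.add_mul]
      apply Nat.mul_le_mul_right; norm_num
    omega
  -- the sampled system
  obtain ⟨S, hdom, hpt⟩ := exists_sys E hE hc hv n g hg1 hg2
  rw [← hC] at hdom
  -- bound on the logarithm
  have hlogQ : ∀ q : ℕ, q ≤ Q1 → Real.log q ≤ 10 ^ 101 * P := by
    intro q hq
    have hlg : Real.log 2 ≤ 1 := by
      have := Real.log_two_lt_d9; linarith
    have h1 : Real.log q ≤ (2 + (A0 + na + M + B0 + nb + m) : ℕ) := by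
      rcases Nat.eq_zero_or_pos q with h0 | h0
      · rw [h0]; simp only [Nat.cast_zero, Real.log_zero]; positivity
      · have h2 : (q : ℝ) ≤ 2 ^ (2 + (A0 + na + M + B0 + nb + m)) := by
          have h3 : q ≤ 2 ^ (2 + (A0 + na + M + B0 + nb + m)) := by
            rw [pow_add]
            refine hq.trans ?_
            rw [hQ1]
            apply Nat.mul_le_mul_right; norm_num
          exact_mod_cast h3
        have h4 := Real.log_le_log (by exact_mod_cast h0) h2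
        rw [Real.log_pow] at h4
        refine h4.trans ?_
        exact mul_le_of_le_one_right (Nat.cast_nonneg _) hlg
    refine h1.trans ?_
    have h5 : 2 + (A0 + na + M + B0 + nb + m) ≤ 10 ^ 101 * p := by omega
    have h6 : ((2 + (A0 + na + M + B0 + nb + m) : ℕ) : ℝ) ≤ ((10 ^ 101 * p : ℕ) : ℝ) := by exact_mod_cast h5
    refine h6.trans (le_of_eq ?_)
    push_cast; rw [hpP]; norm_num
  have hP0 : 0 < P := by linarith
  have hbadS : S.Bad N Q1 (1 / 2 ^ (4096 * f)) := by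
    intro ω hω q hq1 hq2
    obtain ⟨x, hxE, hx1, hx2, hx3, hx4⟩ := hpt ω hω
    have h1 := hbad x hxE q hq1
    rw [hx1, hx2, hx3, hx4, ← hP]
    have h2 : (q : ℝ) * ‖((q * x.1 - (g x).1 : ℝ) : TT)‖ * ‖((q * x.2 - (g x).2 : ℝ) : TT)‖ = q * prd q x (g x) := by
      unfold prd; ring
    rw [h2]
    have hPr : 0 ≤ (q : ℝ) * prd q x (g x) := mul_nonneg (Nat.cast_nonneg _) (prd_nonneg _ _ _)
    have h4 := hlogQ q hq2
    have h5 : (10 : ℝ) ^ 101 ≤ (q * prd q x (g x)) * (10 ^ 101 * P) := by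
      calc (10 : ℝ) ^ 101 ≤ q * Real.log q * prd q x (g x) := h1
        _ = (q * prd q x (g x)) * Real.log q := by ring
        _ ≤ _ := by gcongr
    have h6 : (10 : ℝ) ^ 101 * 1 ≤ 10 ^ 101 * ((q * prd q x (g x)) * P) := by
      calc (10 : ℝ) ^ 101 * 1 = 10 ^ 101 := mul_one _
        _ ≤ (q * prd q x (g x)) * (10 ^ 101 * P) := h5
        _ = _ := by ring
    have h7 := le_of_mul_le_mul_left h6 (by positivity)
    rw [div_le_iff₀ hP0]; exact h7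
  have key := S.contrD hC0 hdom (q0 := N) (Q1 := Q1) (f := f) (l := l) (K := K) (A0 := A0) (B0 := B0) (na := na) (nb := nb)
    (by rw [hl]; unfold mf; ring) hK (by omega) (by rw [← hm]; omega) (by rw [← hM]; omega)
    (by
      rw [← hM, ← hm]
      refine hsum.trans ?_
      have e1 : 2 ^ (8192 * f) = p * p := by rw [hp, ← pow_add]; congr 1; ring
      rw [e1]
      exact Nat.mul_le_mul_right _ hpbig)
    hbadS
    (by
      have h1 : N < 2 ^ N := Nat.lt_two_pow_self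
      have h2 : 2 ^ N ≤ 2 ^ B0 := Nat.pow_le_pow_right (by norm_num) (by omega)
      omega)
    (by rw [← hM, ← hm]; exact hQ1.ge) (by rw [← hM]; exact hn.ge)
  rw [← hM, ← hm] at key
  have hlg0 : 0 < Real.log 2 := Real.log_pos (by norm_num)
  have hlg1 : Real.log 2 ≤ 1 := by
    have := Real.log_two_lt_d9; linarith
  have hMr : (M : ℝ) = 15728640000000000 * F := by rw [hM', hFf]; push_cast; ring
  have hmr : (m : ℝ) = 39321600 * F := by rw [hm', hFf]; push_cast; ring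
  have hlr : (l : ℝ) = 13107200 * F := by rw [hl, hFf]; push_cast; ring
  have hA0r : (A0 : ℝ) = 2 * m + l + 5000 * F := by rw [hA0, hFf]; push_cast; ring
  have hB0r : (B0 : ℝ) = M + 63 * F + N := by rw [hB0, hFf]; push_cast; ring
  have hyp : (0 : ℝ) < 2 ^ f := by positivity
  have hFFC : F * (10 ^ 40 * C) ≤ 2 ^ f := by
    calc F * (10 ^ 40 * C) ≤ F * F := by gcongr
      _ ≤ 250000 * (F * F) := by linarith [mul_pos hF0 hF0]
      _ ≤ 2 ^ f := hy2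
  have hFC2 : F * C * (1 / 2 ^ f) ≤ 1 / 10 ^ 40 := by
    rw [mul_one_div, div_le_div_iff₀ hyp (by norm_num)]
    linarith
  have hFC0 : 0 ≤ F * C * (1 / 2 ^ f) := by positivity
  refine final_num (F := F) (P := P) (C := C) (lg := Real.log 2) (lC := Real.log C) (M := M) (m := m) (l := l) (A0 := A0) (B0 := B0)
    (na := na) (nb := nb) (K := K) hF7 hFP hlg0.le hlg1 (Nat.cast_nonneg _) (by rw [hMr]; linarith) (Nat.cast_nonneg _) (by rw [hmr]; linarith)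
    (Nat.cast_nonneg _) (by rw [hlr]; linarith) (Nat.cast_nonneg _) (by rw [hA0r, hmr, hlr]; linarith) (Nat.cast_nonneg _)
    (by
      rw [hB0r, hMr]
      have : (N : ℝ) ≤ F := by rw [hFf]; exact_mod_cast hNf
      linarith)
    ?_ hnbr hnar (by rw [hK]; push_cast; rfl) ?_ ?_ ?_ ?_ ?_ key
  · have := Real.log_le_sub_one_of_pos hC0
    have h1 : C ≤ 10 ^ 40 * C := by
      have : (1 : ℝ) * C ≤ 10 ^ 40 * C := by gcongr; norm_num
      linarith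
    linarith
  · rw [← hFf, hmr]
    have h1 : (1 : ℝ) / 2 ^ (2 * f) ≤ 1 / 2 ^ f := by
      apply one_div_le_one_div_of_le hyp
      exact pow_le_pow_right₀ (by norm_num) (by omega)
    have h2 : 2 * (39321600 * F * Real.log 2) * (C * (1 / 2 ^ (2 * f))) ≤ 2 * (39321600 * F * 1) * (C * (1 / 2 ^ f)) := by gcongr
    have h3 : 2 * (39321600 * F * 1) * (C * (1 / 2 ^ f)) = 78643200 * (F * C * (1 / 2 ^ f)) := by ring
    rw [h3] at h2
    have h4 : (78643200 : ℝ) * (F * C * (1 / 2 ^ f)) ≤ 78643200 * (1 / 10 ^ 40) := by gcongr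
    have h5 : (78643200 : ℝ) * (1 / 10 ^ 40) ≤ 1 / 1000000 := by norm_num
    linarith
  · rw [← hFf, hMr]
    unfold th0
    have h2 : 2 * (15728640000000000 * F * Real.log 2) * ((2 / (1 / 10 ^ 12)) * (C * (1 / 2 ^ f))) ≤
        2 * (15728640000000000 * F * 1) * ((2 / (1 / 10 ^ 12)) * (C * (1 / 2 ^ f))) := by gcongr
    have h3 : 2 * (15728640000000000 * F * 1) * ((2 / (1 / 10 ^ 12)) * (C * (1 / 2 ^ f))) = (4 * 15728640000000000 * 10 ^ 12) * (F * C * (1 / 2 ^ f)) := by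
      ring
    rw [h3] at h2
    have h4 : (4 * 15728640000000000 * 10 ^ 12 : ℝ) * (F * C * (1 / 2 ^ f)) ≤ (4 * 15728640000000000 * 10 ^ 12) * (1 / 10 ^ 40) := by gcongr
    have h5 : (4 * 15728640000000000 * 10 ^ 12 : ℝ) * (1 / 10 ^ 40) ≤ 1 := by norm_num
    linarith
  · have h1 := pq_bd (f := f) (by omega) (Mx := M) (Nat.cast_nonneg _) (by rw [hMr, ← hFf]; linarith) hlg0.le hlg1
    rw [← hP, ← hFf] at h1
    exact h1
  · have hpc := pc_pos (f := f) (by omega)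
    positivity
  · have h1 := pc_bd (f := f) (by omega) (m := m) (Nat.cast_nonneg _) (by rw [hmr, ← hFf]; linarith) hlg0.le hlg1
    rw [← hP, ← hFf] at h1
    exact h1

theorem ae_exact : ∀ᵐ x : ℝ × ℝ ∂volume, ∀ γ : ℝ × ℝ, ∃ C : ℝ, ∀ N : ℕ, ∃ q : ℕ, N ≤ q ∧
      (q : ℝ) * Real.log (q : ℝ)
        * |(q : ℝ) * x.1 - γ.1 - ((round ((q : ℝ) * x.1 - γ.1) : ℤ) : ℝ)|
        * |(q : ℝ) * x.2 - γ.2 - ((round ((q : ℝ) * x.2 - γ.2) : ℤ) : ℝ)| ≤ C := by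
  have hall : ∀ᵐ x : ℝ × ℝ ∂volume, ∀ N : ℕ, x ∉ BadSet (fun q => Real.log q) (10 ^ 101) N := by
    rw [ae_all_iff]; intro N
    have h0 : volume (BadSet (fun q => Real.log q) (10 ^ 101) N) = 0 :=
      BadSet_null (fun c hc E hE hv g hg1 hg2 => core_baseD N c hc E hE hv g hg1 hg2)
    exact measure_eq_zero_iff_ae_notMem.mp h0
  filter_upwards [hall] with x hx γ
  refine ⟨10 ^ 101, ?_⟩
  intro N
  by_contra hcon
  push Not at hcon
  apply hx N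
  refine ⟨γ, fun q hq => ?_⟩
  have h1 := hcon q hq
  unfold prd
  rw [UnitAddCircle.norm_eq, UnitAddCircle.norm_eq]
  have : (q : ℝ) * Real.log q * (|(q : ℝ) * x.1 - γ.1 - ((round ((q : ℝ) * x.1 - γ.1) : ℤ) : ℝ)| *
    |(q : ℝ) * x.2 - γ.2 - ((round ((q : ℝ) * x.2 - γ.2) : ℤ) : ℝ)|) = (q : ℝ) * Real.log q *
    |(q : ℝ) * x.1 - γ.1 - ((round ((q : ℝ) * x.1 - γ.1) : ℤ) : ℝ)| *
    |(q : ℝ) * x.2 - γ.2 - ((round ((q : ℝ) * x.2 - γ.2) : ℤ) : ℝ)| := by ring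
  rw [this]
  exact h1.le

end Run7.h297
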