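import Pool.Agent.Run7.h297.Orth

set_option autoImplicit false

/-! Parameters of the mixing estimate and the counting of pairs of modes with nearly equal slopes. -/

noncomputable section

namespace Run7.h297

open Real Finset MeasureTheory

/-- exponents -/
structure AP where
  w : ℕ
  k : ℕ
  l : ℕ
  σ : ℕ
  g : ℕ
  f : ℕ

/-- admissible exponents -/
structure AP.Ok (a : AP) : Prop where
  hw : 40 ≤ a.w
  hkl : a.k ≤ a.l + a.w
  hlk : a.l ≤ a.k + a.w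
  he0 : a.σ ≤ a.g + a.f
  he1 : a.g + a.f ≤ a.σ + a.w
  hk : 4200 * a.w ≤ a.k
  hσ : a.k + 12 * a.w ≤ a.σ
  hg : 2 * a.k ≤ a.g
  hf : 2 * a.k ≤ a.f
  hlg : a.g + a.f + 2 * a.k ≤ 2 ^ a.w

/-- half widths of the box -/
def AP.Y1 (a : AP) : ℕ := 2 ^ (a.g + 5 * a.w)
/-- half widths of the box -/
def AP.Y2 (a : AP) : ℕ := 2 ^ (a.f + 5 * a.w)
/-- threshold -/
def AP.ρ (a : AP) : ℝ := 2 ^ (a.k + 7 * a.w) / 2 ^ a.σ

/-- annulus -/
def AP.box (a : AP) : Finset (ℤ × ℤ) :=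
  (Finset.Icc (-(a.Y1 : ℤ)) a.Y1 ×ˢ Finset.Icc (-(a.Y2 : ℤ)) a.Y2).filter
    (fun m => 2 ^ a.g ≤ m.1.natAbs * 2 ^ (5 * a.w) ∧ 2 ^ a.f ≤ m.2.natAbs * 2 ^ (5 * a.w))

/-- resonant modes -/
def AP.M (a : AP) (x : TT × TT) : Finset (ℤ × ℤ) := a.box.filter (fun m => ‖dm m x‖ ≤ a.ρ)

theorem AP.mem_box {a : AP} {m : ℤ × ℤ} : m ∈ a.box ↔ m.1.natAbs ≤ a.Y1 ∧ m.2.natAbs ≤ a.Y2 ∧
    2 ^ a.g ≤ m.1.natAbs * 2 ^ (5 * a.w) ∧ 2 ^ a.f ≤ m.2.natAbs * 2 ^ (5 * a.w) := by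
  unfold AP.box
  rw [Finset.mem_filter, Finset.mem_product, Finset.mem_Icc, Finset.mem_Icc]
  constructor
  · rintro ⟨⟨h1, h2⟩, h3, h4⟩
    exact ⟨by omega, by omega, h3, h4⟩
  · rintro ⟨h1, h2, h3, h4⟩
    exact ⟨⟨by omega, by omega⟩, h3, h4⟩

theorem AP.ne_zero_of_mem {a : AP} {m : ℤ × ℤ} (h : m ∈ a.box) : m.1 ≠ 0 ∧ m.2 ≠ 0 := by
  rw [AP.mem_box] at h
  obtain ⟨_, _, h3, h4⟩ := h
  have g0 : 0 < 2 ^ a.g := by positivity
  have f0 : 0 < 2 ^ a.f := by positivity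
  constructor
  · intro h; rw [h] at h3; simp at h3
  · intro h; rw [h] at h4; simp at h4

/-- logarithm of the slope -/
def psi (m : ℤ × ℤ) : ℝ := Real.log |(m.2 : ℝ)| - Real.log |(m.1 : ℝ)|

theorem meas1 {m : ℤ × ℤ} (hm : m ≠ 0) {ρ : ℝ} : volume {x : TT × TT | ‖dm m x‖ ≤ ρ} ≤ ENNReal.ofReal (2 * ρ) := by
  have h := (measurePreserving_dm hm).measure_preimage (Metric.isClosed_closedBall (x := (0 : TT)) (ε := ρ)).measurableSet.nullMeasurableSet
  have e : {x : TT × TT | ‖dm m x‖ ≤ ρ} = dm m ⁻¹' Metric.closedBall (0 : TT) ρ := by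
    ext x; rw [Set.mem_preimage, mem_closedBall_zero_iff]; rfl
  rw [e, h, AddCircle.volume_closedBall]
  exact ENNReal.ofReal_le_ofReal (min_le_right _ _)

theorem AP.Ok.W1 {a : AP} (h : a.Ok) : (1 : ℝ) ≤ 2 ^ a.w := one_le_pow₀ (by norm_num)

theorem AP.Ok.W40 {a : AP} (h : a.Ok) : (2 : ℝ) ^ 40 ≤ 2 ^ a.w := pow_le_pow_right₀ (by norm_num) h.hw

/-- product of the box dimensions -/
theorem AP.Ok.vol {a : AP} (h : a.Ok) : (a.Y1 : ℝ) * a.Y2 * a.ρ ≤ 2 ^ a.k * (2 ^ a.w) ^ 18 := by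
  have e : (a.Y1 : ℝ) * a.Y2 * a.ρ = 2 ^ (a.g + 5 * a.w + (a.f + 5 * a.w) + (a.k + 7 * a.w)) / 2 ^ a.σ := by
    unfold AP.Y1 AP.Y2 AP.ρ
    push_cast
    rw [pow_add 2 (a.g + 5 * a.w + (a.f + 5 * a.w)), pow_add 2 (a.g + 5 * a.w)]
    ring
  rw [e, div_le_iff₀ (by positivity), ← pow_mul, ← pow_add, ← pow_add]
  apply pow_le_pow_right₀ (by norm_num)
  have := h.he1
  omega

theorem AP.Ok.ρ_pos {a : AP} (h : a.Ok) : 0 < a.ρ := by unfold AP.ρ; positivity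

theorem AP.Ok.Y1_pos {a : AP} (h : a.Ok) : (1 : ℝ) ≤ a.Y1 := by
  unfold AP.Y1; push_cast; exact one_le_pow₀ (by norm_num)

theorem AP.Ok.Y2_pos {a : AP} (h : a.Ok) : (1 : ℝ) ≤ a.Y2 := by
  unfold AP.Y2; push_cast; exact one_le_pow₀ (by norm_num)

theorem AP.Ok.card_box {a : AP} (h : a.Ok) : (a.box.card : ℝ) ≤ 9 * (a.Y1 * a.Y2) := by
  have h1 : a.box.card ≤ (2 * a.Y1 + 1) * (2 * a.Y2 + 1) := by
    unfold AP.box
    refine (Finset.card_filter_le _ _).trans ?_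
    rw [Finset.card_product, Int.card_Icc, Int.card_Icc]
    apply Nat.mul_le_mul <;> omega
  have h2 : (a.box.card : ℝ) ≤ (2 * a.Y1 + 1) * (2 * a.Y2 + 1) := by exact_mod_cast h1
  have := h.Y1_pos
  have := h.Y2_pos
  calc _ ≤ _ := h2
    _ ≤ (3 * a.Y1) * (3 * a.Y2) := by gcongr <;> linarith
    _ = _ := by ring

open Classical in
/-- the number of resonant modes is controlled off a small set -/
theorem AP.Ok.meas_M {a : AP} (h : a.Ok) :
    volume {x : TT × TT | 2 ^ a.k * (2 ^ a.w) ^ 20 ≤ ((a.M x).card : ℝ)} ≤ ENNReal.ofReal (1 / 2 ^ a.w) := by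
  have hW := h.W40
  have h1 := markov_card a.box (fun m => {x : TT × TT | ‖dm m x‖ ≤ a.ρ})
    (fun m => (measurableSet_le (continuous_dm m).norm.measurable measurable_const))
    (fun _ => 2 * a.ρ) (fun _ _ => by have := h.ρ_pos; positivity)
    (fun m hm => meas1 (fun h0 => (AP.ne_zero_of_mem hm).1 (by rw [h0]; rfl)))
    (t := 2 ^ a.k * (2 ^ a.w) ^ 20) (by positivity)
  refine (measure_mono ?_).trans (h1.trans ?_)
  · intro x hx
    simp only [Set.mem_ofPred_eq] at hx ⊢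
    refine hx.trans ?_
    have : (a.M x).card ≤ (a.box.filter (fun i => ‖dm i x‖ ≤ a.ρ)).card := by
      apply Finset.card_le_card
      intro z hz
      unfold AP.M at hz
      rw [Finset.mem_filter] at hz ⊢
      exact hz
    exact_mod_cast this
  · apply ENNReal.ofReal_le_ofReal
    rw [Finset.sum_const, nsmul_eq_mul]
    have hv := h.vol
    have hc := h.card_box
    have hρ := h.ρ_pos
    rw [div_le_div_iff₀ (by positivity) (by positivity)]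
    set W : ℝ := 2 ^ a.w with hWdef
    have hW1 : (1 : ℝ) ≤ W := h.W1
    have hK0 : (0 : ℝ) < 2 ^ a.k := by positivity
    calc (a.box.card : ℝ) * (2 * a.ρ) * W ≤ (9 * (a.Y1 * a.Y2)) * (2 * a.ρ) * W := by gcongr
      _ = 18 * ((a.Y1 : ℝ) * a.Y2 * a.ρ) * W := by ring
      _ ≤ 18 * (2 ^ a.k * W ^ 18) * W := by gcongr
      _ = 18 * (2 ^ a.k * W ^ 19) := by ring
      _ ≤ W * (2 ^ a.k * W ^ 19) := by
        apply mul_le_mul_of_nonneg_right _ (by positivity)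
        linarith
      _ = _ := by ring

/-! ### parallel pairs -/

theorem card_mult {Y n : ℕ} (hn : 0 < n) (F : Finset ℤ) (hF : ∀ a ∈ F, a ≠ 0 ∧ a.natAbs ≤ Y ∧ (n : ℤ) ∣ a) :
    F.card ≤ 2 * (Y / n) := by
  have h : F.card ≤ ((Finset.Icc (-((Y / n : ℕ) : ℤ)) ((Y / n : ℕ) : ℤ)).erase 0).card := by
    apply Finset.card_le_card_of_injOn (fun a => a / (n : ℤ))
    · intro a ha
      obtain ⟨h0, h1, c, rfl⟩ := hF a ha
      have hnZ : (n : ℤ) ≠ 0 := by exact_mod_cast hn.ne'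
      rw [Finset.mem_coe, Finset.mem_erase, Finset.mem_Icc]
      dsimp only
      rw [Int.mul_ediv_cancel_left _ hnZ]
      have hc0 : c ≠ 0 := by rintro rfl; apply h0; simp
      have h2 : c.natAbs ≤ Y / n := by
        rw [Nat.le_div_iff_mul_le hn]
        rw [Int.natAbs_mul, Int.natAbs_natCast] at h1
        linarith
      refine ⟨hc0, ?_⟩
      generalize Y / n = E at h2 ⊢
      omega
    · intro a ha b hb hab
      obtain ⟨_, _, c, rfl⟩ := hF a ha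
      obtain ⟨_, _, d, rfl⟩ := hF b hb
      have hnZ : (n : ℤ) ≠ 0 := by exact_mod_cast hn.ne'
      dsimp only at hab
      rw [Int.mul_ediv_cancel_left _ hnZ, Int.mul_ediv_cancel_left _ hnZ] at hab
      rw [hab]
  refine h.trans ?_
  generalize Y / n = E
  rw [Finset.card_erase_of_mem (by rw [Finset.mem_Icc]; constructor <;> omega), Int.card_Icc]
  omega

/-- sum of the greatest common divisors -/
theorem sum_gcd (a : AP) (h : a.Ok) :
    ∑ m ∈ a.box, (Int.gcd m.1 m.2 : ℝ) ≤ 4 * (a.Y1 * a.Y2) * 2 ^ a.w := by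
  have hY1 := h.Y1_pos
  have hY2 := h.Y2_pos
  have h1 : ∀ m ∈ a.box, (Int.gcd m.1 m.2 : ℝ) ≤
      ∑ n ∈ range a.Y1, (if ((n + 1 : ℕ) : ℤ) ∣ m.1 ∧ ((n + 1 : ℕ) : ℤ) ∣ m.2 then ((n : ℝ) + 1) else 0) := by
    intro m hm
    have hne := AP.ne_zero_of_mem hm
    rw [AP.mem_box] at hm
    have hg0 : 0 < Int.gcd m.1 m.2 := Int.gcd_pos_of_ne_zero_left _ hne.1
    have hgle : Int.gcd m.1 m.2 ≤ a.Y1 := by
      refine le_trans ?_ hm.1
      exact Nat.le_of_dvd (Int.natAbs_pos.mpr hne.1) (Int.natCast_dvd.mp (Int.gcd_dvd_left _ _))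
    obtain ⟨n, hn⟩ : ∃ n, Int.gcd m.1 m.2 = n + 1 := ⟨Int.gcd m.1 m.2 - 1, by omega⟩
    have hmem : n ∈ range a.Y1 := by rw [Finset.mem_range]; omega
    have hs := Finset.single_le_sum (f := fun n : ℕ => (if ((n + 1 : ℕ) : ℤ) ∣ m.1 ∧ ((n + 1 : ℕ) : ℤ) ∣ m.2 then ((n : ℝ) + 1) else 0))
      (fun n _ => by split_ifs <;> positivity) hmem
    refine le_trans (le_of_eq ?_) hs
    have d1 : (Int.gcd m.1 m.2 : ℤ) ∣ m.1 := Int.gcd_dvd_left _ _
    have d2 : (Int.gcd m.1 m.2 : ℤ) ∣ m.2 := Int.gcd_dvd_right _ _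
    rw [hn] at d1 d2 ⊢
    rw [if_pos ⟨d1, d2⟩]; push_cast; ring
  refine (Finset.sum_le_sum h1).trans ?_
  rw [Finset.sum_comm]
  have h2 : ∀ n ∈ range a.Y1, ∑ m ∈ a.box, (if ((n + 1 : ℕ) : ℤ) ∣ m.1 ∧ ((n + 1 : ℕ) : ℤ) ∣ m.2 then ((n : ℝ) + 1) else 0) ≤
      4 * (a.Y1 * a.Y2) * (1 / ((n : ℝ) + 1)) := by
    intro n _
    rw [← Finset.sum_filter, Finset.sum_const, nsmul_eq_mul]
    set F := a.box.filter (fun m => ((n + 1 : ℕ) : ℤ) ∣ m.1 ∧ ((n + 1 : ℕ) : ℤ) ∣ m.2) with hF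
    have hsub : F ⊆ (F.image Prod.fst) ×ˢ (F.image Prod.snd) := by
      intro m hm
      rw [Finset.mem_product]
      exact ⟨Finset.mem_image_of_mem _ hm, Finset.mem_image_of_mem _ hm⟩
    have hc := Finset.card_le_card hsub
    rw [Finset.card_product] at hc
    have c1 : (F.image Prod.fst).card ≤ 2 * (a.Y1 / (n + 1)) := by
      apply card_mult (Nat.succ_pos n)
      intro z hz
      rw [Finset.mem_image] at hz
      obtain ⟨m, hm, rfl⟩ := hz
      rw [hF, Finset.mem_filter] at hm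
      exact ⟨(AP.ne_zero_of_mem hm.1).1, (AP.mem_box.mp hm.1).1, hm.2.1⟩
    have c2 : (F.image Prod.snd).card ≤ 2 * (a.Y2 / (n + 1)) := by
      apply card_mult (Nat.succ_pos n)
      intro z hz
      rw [Finset.mem_image] at hz
      obtain ⟨m, hm, rfl⟩ := hz
      rw [hF, Finset.mem_filter] at hm
      exact ⟨(AP.ne_zero_of_mem hm.1).2, (AP.mem_box.mp hm.1).2.1, hm.2.2⟩
    have c3 : F.card ≤ (2 * (a.Y1 / (n + 1))) * (2 * (a.Y2 / (n + 1))) := hc.trans (Nat.mul_le_mul c1 c2)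
    have c4 : (F.card : ℝ) ≤ (2 * (a.Y1 / (n + 1))) * (2 * (a.Y2 / (n + 1))) := by
      have : (F.card : ℝ) ≤ (((2 * (a.Y1 / (n + 1))) * (2 * (a.Y2 / (n + 1))) : ℕ) : ℝ) := by exact_mod_cast c3
      refine this.trans ?_
      push_cast
      have d1 : ((a.Y1 / (n + 1) : ℕ) : ℝ) ≤ a.Y1 / (n + 1) := by
        have := @Nat.cast_div_le ℝ _ _ _ a.Y1 (n + 1)
        push_cast at this; exact this
      have d2 : ((a.Y2 / (n + 1) : ℕ) : ℝ) ≤ a.Y2 / (n + 1) := by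
        have := @Nat.cast_div_le ℝ _ _ _ a.Y2 (n + 1)
        push_cast at this; exact this
      gcongr
    have hn1 : (0 : ℝ) < n + 1 := by positivity
    calc (F.card : ℝ) * ((n : ℝ) + 1) ≤ ((2 * (a.Y1 / (n + 1))) * (2 * (a.Y2 / (n + 1)))) * ((n : ℝ) + 1) := by gcongr
      _ = _ := by field_simp; ring
  refine (Finset.sum_le_sum h2).trans ?_
  rw [← Finset.mul_sum]
  apply mul_le_mul_of_nonneg_left _ (by positivity)
  have h3 := harmonic_le_one_add_log a.Y1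
  unfold harmonic at h3
  push_cast at h3
  have e : ∑ n ∈ range a.Y1, 1 / ((n : ℝ) + 1) = ∑ n ∈ range a.Y1, ((n : ℝ) + 1)⁻¹ := by
    apply Finset.sum_congr rfl; intro n _
    rw [one_div]
  rw [e]
  refine h3.trans ?_
  have h4 : Real.log a.Y1 ≤ a.g + 5 * a.w := by
    unfold AP.Y1; push_cast
    rw [Real.log_pow]
    have hl : Real.log 2 ≤ 1 := by have := Real.log_two_lt_d9; linarith
    have : (0 : ℝ) ≤ ((a.g + 5 * a.w : ℕ) : ℝ) := Nat.cast_nonneg _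
    push_cast at this ⊢
    nlinarith
  have h5 : (a.g : ℝ) + a.f + 2 * a.k ≤ 2 ^ a.w := by exact_mod_cast h.hlg
  have h6 : (4200 * a.w : ℝ) ≤ a.k := by exact_mod_cast h.hk
  have h7 : (40 : ℝ) ≤ a.w := by exact_mod_cast h.hw
  have h8 : (0 : ℝ) ≤ a.f := Nat.cast_nonneg _
  linarith

theorem card_par_aux (a : AP) (h : a.Ok) {m : ℤ × ℤ} (hm : m ∈ a.box) :
    ((a.box.filter (fun m' => m.1 * m'.2 - m.2 * m'.1 = 0)).card : ℝ) ≤ 3 * (2 ^ a.w) ^ 10 * Int.gcd m.1 m.2 := by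
  have hne := AP.ne_zero_of_mem hm
  have hb := AP.mem_box.mp hm
  set G : ℕ := Int.gcd m.1 m.2 with hG
  have hG0 : 0 < G := Int.gcd_pos_of_ne_zero_left _ hne.1
  have hGZ : (G : ℤ) ≠ 0 := by exact_mod_cast hG0.ne'
  obtain ⟨p1, hp1⟩ : (G : ℤ) ∣ m.1 := Int.gcd_dvd_left _ _
  obtain ⟨p2, hp2⟩ : (G : ℤ) ∣ m.2 := Int.gcd_dvd_right _ _
  have hcop : IsCoprime p1 p2 := by
    rw [Int.isCoprime_iff_gcd_eq_one]
    have hh := Int.gcd_div_gcd_div_gcd (i := m.1) (j := m.2) hG0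
    rw [← hG] at hh
    have e1 : m.1 / (G : ℤ) = p1 := by rw [hp1, Int.mul_ediv_cancel_left _ hGZ]
    have e2 : m.2 / (G : ℤ) = p2 := by rw [hp2, Int.mul_ediv_cancel_left _ hGZ]
    rwa [e1, e2] at hh
  have hp10 : p1 ≠ 0 := by rintro rfl; apply hne.1; rw [hp1]; simp
  set F := a.box.filter (fun m' => m.1 * m'.2 - m.2 * m'.1 = 0) with hF
  have hdv : ∀ m' ∈ F, p1 ∣ m'.1 ∧ p1 * m'.2 = p2 * m'.1 := by
    intro m' hm'
    rw [hF, Finset.mem_filter] at hm'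
    have h1 := hm'.2
    rw [hp1, hp2] at h1
    have h2 : (G : ℤ) * (p1 * m'.2) = G * (p2 * m'.1) := by linarith
    have h3 := mul_left_cancel₀ hGZ h2
    refine ⟨hcop.dvd_of_dvd_mul_left (Dvd.intro _ h3), h3⟩
  have hcard : F.card = (F.image Prod.fst).card := by
    rw [Finset.card_image_of_injOn]
    intro x hx y hy hxy
    have h1 := (hdv x hx).2
    have h2 := (hdv y hy).2
    rw [hxy] at h1
    have h3 : p1 * x.2 = p1 * y.2 := h1.trans h2.symm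
    exact Prod.ext hxy (mul_left_cancel₀ hp10 h3)
  have hp1n : 0 < p1.natAbs := Int.natAbs_pos.mpr hp10
  have h4 : (F.image Prod.fst).card ≤ 2 * (a.Y1 / p1.natAbs) := by
    apply card_mult hp1n
    intro z hz
    rw [Finset.mem_image] at hz
    obtain ⟨m', hm', rfl⟩ := hz
    have h5 := (Finset.mem_filter.mp hm').1
    refine ⟨(AP.ne_zero_of_mem h5).1, (AP.mem_box.mp h5).1, ?_⟩
    rw [Int.natAbs_dvd]; exact (hdv m' hm').1
  rw [hcard]
  have h5 : ((F.image Prod.fst).card : ℝ) ≤ 2 * (a.Y1 / p1.natAbs) := by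
    have : ((F.image Prod.fst).card : ℝ) ≤ ((2 * (a.Y1 / p1.natAbs) : ℕ) : ℝ) := by exact_mod_cast h4
    refine this.trans ?_
    push_cast
    have d1 : ((a.Y1 / p1.natAbs : ℕ) : ℝ) ≤ a.Y1 / p1.natAbs := Nat.cast_div_le
    gcongr
  refine h5.trans ?_
  have h6 : (2 : ℝ) ^ a.g ≤ (m.1.natAbs : ℝ) * 2 ^ (5 * a.w) := by exact_mod_cast hb.2.2.1
  have h7 : (m.1.natAbs : ℝ) = G * p1.natAbs := by
    rw [hp1, Int.natAbs_mul, Int.natAbs_natCast]; push_cast; rfl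
  have h8 : (0 : ℝ) < p1.natAbs := by exact_mod_cast hp1n
  have h9 : (a.Y1 : ℝ) = 2 ^ a.g * (2 ^ a.w) ^ 5 := by
    unfold AP.Y1; push_cast; rw [pow_add, mul_comm 5 a.w, pow_mul]
  have h10 : (2 : ℝ) ^ (5 * a.w) = (2 ^ a.w) ^ 5 := by rw [mul_comm 5 a.w, pow_mul]
  rw [h9, mul_div_assoc', div_le_iff₀ h8]
  rw [h7, h10] at h6
  have hW0 : (0 : ℝ) < 2 ^ a.w := by positivity
  calc 2 * ((2 : ℝ) ^ a.g * (2 ^ a.w) ^ 5) ≤ 2 * (((G : ℝ) * p1.natAbs * (2 ^ a.w) ^ 5) * (2 ^ a.w) ^ 5) := by gcongr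
    _ = 2 * ((2 ^ a.w) ^ 10 * (G : ℝ) * p1.natAbs) := by ring
    _ ≤ 3 * ((2 ^ a.w) ^ 10 * (G : ℝ) * p1.natAbs) := by
      have : 0 ≤ (2 ^ a.w : ℝ) ^ 10 * G * p1.natAbs := by positivity
      linarith
    _ = _ := by ring

/-- parallel pairs in the box -/
def AP.Par (a : AP) : Finset ((ℤ × ℤ) × (ℤ × ℤ)) :=
  (a.box ×ˢ a.box).filter (fun z => z.1.1 * z.2.2 - z.1.2 * z.2.1 = 0)

theorem card_Par (a : AP) (h : a.Ok) : (a.Par.card : ℝ) ≤ 12 * (a.Y1 * a.Y2) * (2 ^ a.w) ^ 11 := by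
  have h1 : a.Par.card = ∑ m ∈ a.box, (a.box.filter (fun m' => m.1 * m'.2 - m.2 * m'.1 = 0)).card := by
    unfold AP.Par
    rw [Finset.card_filter, Finset.sum_product]
    apply Finset.sum_congr rfl; intro m _
    rw [Finset.card_filter]
  have h2 : (a.Par.card : ℝ) = ∑ m ∈ a.box, ((a.box.filter (fun m' => m.1 * m'.2 - m.2 * m'.1 = 0)).card : ℝ) := by
    rw [h1]; push_cast; rfl
  rw [h2]
  calc _ ≤ ∑ m ∈ a.box, 3 * (2 ^ a.w : ℝ) ^ 10 * Int.gcd m.1 m.2 := Finset.sum_le_sum (fun m hm => card_par_aux a h hm)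
    _ = 3 * (2 ^ a.w : ℝ) ^ 10 * ∑ m ∈ a.box, (Int.gcd m.1 m.2 : ℝ) := by rw [Finset.mul_sum]
    _ ≤ 3 * (2 ^ a.w : ℝ) ^ 10 * (4 * (a.Y1 * a.Y2) * 2 ^ a.w) := by
      have := sum_gcd a h
      gcongr
    _ = _ := by ring

open Classical in
theorem meas_Par (a : AP) (h : a.Ok) :
    volume {x : TT × TT | 2 ^ a.k * (2 ^ a.w) ^ 32 ≤ ((a.Par.filter (fun z => z.1 ∈ a.M x ∧ z.2 ∈ a.M x)).card : ℝ)} ≤
      ENNReal.ofReal (1 / 2 ^ a.w) := by
  have hW := h.W40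
  have h1 := markov_card a.Par (fun z => {x : TT × TT | ‖dm z.1 x‖ ≤ a.ρ})
    (fun z => (measurableSet_le (continuous_dm z.1).norm.measurable measurable_const))
    (fun _ => 2 * a.ρ) (fun _ _ => by have := h.ρ_pos; positivity)
    (fun z hz => meas1 (fun h0 => by
      unfold AP.Par at hz
      rw [Finset.mem_filter, Finset.mem_product] at hz
      exact (AP.ne_zero_of_mem hz.1.1).1 (by rw [h0]; rfl)))
    (t := 2 ^ a.k * (2 ^ a.w) ^ 32) (by positivity)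
  refine (measure_mono ?_).trans (h1.trans ?_)
  · intro x hx
    simp only [Set.mem_ofPred_eq] at hx ⊢
    refine hx.trans ?_
    have : (a.Par.filter (fun z => z.1 ∈ a.M x ∧ z.2 ∈ a.M x)).card ≤ (a.Par.filter (fun z => ‖dm z.1 x‖ ≤ a.ρ)).card := by
      apply Finset.card_le_card
      intro z hz
      rw [Finset.mem_filter] at hz ⊢
      refine ⟨hz.1, ?_⟩
      have := hz.2.1
      unfold AP.M at this
      exact (Finset.mem_filter.mp this).2
    exact_mod_cast this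
  · apply ENNReal.ofReal_le_ofReal
    rw [Finset.sum_const, nsmul_eq_mul]
    have hv := h.vol
    have hc := card_Par a h
    have hρ := h.ρ_pos
    rw [div_le_div_iff₀ (by positivity) (by positivity)]
    set W : ℝ := 2 ^ a.w with hWdef
    have hW1 : (1 : ℝ) ≤ W := h.W1
    have hK0 : (0 : ℝ) < 2 ^ a.k := by positivity
    have hW24 : 24 ≤ W ^ 2 := by nlinarith
    calc (a.Par.card : ℝ) * (2 * a.ρ) * W ≤ (12 * (a.Y1 * a.Y2) * W ^ 11) * (2 * a.ρ) * W := by gcongr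
      _ = 24 * ((a.Y1 : ℝ) * a.Y2 * a.ρ) * W ^ 12 := by ring
      _ ≤ 24 * (2 ^ a.k * W ^ 18) * W ^ 12 := by gcongr
      _ = 24 * (2 ^ a.k * W ^ 30) := by ring
      _ ≤ W ^ 2 * (2 ^ a.k * W ^ 30) := by
        apply mul_le_mul_of_nonneg_right hW24 (by positivity)
      _ = _ := by ring

/-! ### pairs with nearly equal slopes -/

theorem card_window {Y : ℕ} {ℓ : ℝ} (hℓ : 0 ≤ ℓ) (F : Finset ℤ) (hF : ∀ a ∈ F, 0 < a ∧ a ≤ Y)
    (hd : ∀ a ∈ F, ∀ b ∈ F, |Real.log a - Real.log b| ≤ 2 * ℓ) : (F.card : ℝ) ≤ 2 * ℓ * Y + 1 := by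
  rcases F.eq_empty_or_nonempty with h | h
  · rw [h]; simp only [Finset.card_empty, Nat.cast_zero]; positivity
  · have hsub : F ⊆ Finset.Icc (F.min' h) (F.max' h) := by
      intro y hy
      rw [Finset.mem_Icc]; exact ⟨F.min'_le y hy, F.le_max' y hy⟩
    have hcard := Finset.card_le_card hsub
    rw [Int.card_Icc] at hcard
    have hle := F.min'_le _ (F.max'_mem h)
    have h1 : (F.card : ℝ) ≤ (F.max' h : ℝ) - F.min' h + 1 := by
      have : (F.card : ℤ) ≤ F.max' h + 1 - F.min' h := by omega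
      have h2 : ((F.card : ℤ) : ℝ) ≤ ((F.max' h + 1 - F.min' h : ℤ) : ℝ) := by exact_mod_cast this
      push_cast at h2; linarith
    obtain ⟨a1, a2⟩ := hF _ (F.max'_mem h)
    obtain ⟨b1, b2⟩ := hF _ (F.min'_mem h)
    have hA : (0 : ℝ) < F.max' h := by exact_mod_cast a1
    have hB : (0 : ℝ) < F.min' h := by exact_mod_cast b1
    have hAY : (F.max' h : ℝ) ≤ Y := by exact_mod_cast a2
    have h3 := (abs_le.mp (hd _ (F.max'_mem h) _ (F.min'_mem h))).2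
    have h4 : 1 - (F.min' h : ℝ) / F.max' h ≤ 2 * ℓ := by
      have h5 := Real.one_sub_inv_le_log_of_pos (show 0 < (F.max' h : ℝ) / F.min' h by positivity)
      rw [inv_div, Real.log_div hA.ne' hB.ne'] at h5
      linarith
    have h6 : (F.max' h : ℝ) - F.min' h ≤ 2 * ℓ * F.max' h := by
      have h7 := mul_le_mul_of_nonneg_right h4 hA.le
      have e : (1 - (F.min' h : ℝ) / F.max' h) * F.max' h = F.max' h - F.min' h := by field_simp
      rw [e] at h7; exact h7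
    have h8 : 2 * ℓ * (F.max' h : ℝ) ≤ 2 * ℓ * Y := by gcongr
    linarith

/-- near pairs in the box -/
def AP.NP (a : AP) (ℓ : ℝ) : Finset ((ℤ × ℤ) × (ℤ × ℤ)) := by
  classical exact (a.box ×ˢ a.box).filter (fun z => |psi z.1 - psi z.2| ≤ ℓ)

theorem card_NP (a : AP) (h : a.Ok) {ℓ : ℝ} (hℓ : 0 ≤ ℓ) (hℓY : 1 ≤ ℓ * a.Y2) :
    ((a.NP ℓ).card : ℝ) ≤ 108 * ℓ * (a.Y1 * a.Y2) ^ 2 := by
  classical
  have hY1 := h.Y1_pos
  have hY2 := h.Y2_pos
  have h1 : ∀ m ∈ a.box, ((a.box.filter (fun m' => |psi m - psi m'| ≤ ℓ)).card : ℝ) ≤ 12 * ℓ * (a.Y1 * a.Y2) := by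
    intro m _
    set F := a.box.filter (fun m' => |psi m - psi m'| ≤ ℓ) with hF
    -- fibres over the first coordinate and the sign
    set G : Finset (ℤ × Bool) := ((Finset.Icc (-(a.Y1 : ℤ)) a.Y1).erase 0) ×ˢ Finset.univ with hG
    have hmaps : ∀ m' ∈ F, (m'.1, decide (0 < m'.2)) ∈ G := by
      intro m' hm'
      have hb := (Finset.mem_filter.mp hm').1
      have h0 := (AP.ne_zero_of_mem hb).1
      have h1 := (AP.mem_box.mp hb).1
      rw [hG, Finset.mem_product, Finset.mem_erase, Finset.mem_Icc]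
      exact ⟨⟨h0, by omega⟩, Finset.mem_univ _⟩
    have hc : F.card = ∑ z ∈ G, (F.filter (fun m' => (m'.1, decide (0 < m'.2)) = z)).card :=
      Finset.card_eq_sum_card_fiberwise hmaps
    have hfib : ∀ z ∈ G, ((F.filter (fun m' => (m'.1, decide (0 < m'.2)) = z)).card : ℝ) ≤ 2 * ℓ * a.Y2 + 1 := by
      intro z _
      have e : (F.filter (fun m' => (m'.1, decide (0 < m'.2)) = z)).card =
          ((F.filter (fun m' => (m'.1, decide (0 < m'.2)) = z)).image (fun m' => |m'.2|)).card := by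
        rw [Finset.card_image_of_injOn]
        intro x hx y hy hxy
        rw [Finset.mem_coe, Finset.mem_filter] at hx hy
        have h2 := hx.2.trans hy.2.symm
        rw [Prod.mk.injEq] at h2
        have h3 := (AP.ne_zero_of_mem (Finset.mem_filter.mp hx.1).1).2
        have h4 := (AP.ne_zero_of_mem (Finset.mem_filter.mp hy.1).1).2
        have h5 : (0 < x.2) ↔ (0 < y.2) := by
          have := h2.2
          rwa [decide_eq_decide] at this
        dsimp only at hxy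
        apply Prod.ext h2.1
        rcases abs_cases x.2 with ⟨p1, p2⟩ | ⟨p1, p2⟩ <;> rcases abs_cases y.2 with ⟨q1, q2⟩ | ⟨q1, q2⟩ <;> omega
      rw [e]
      apply card_window hℓ
      · intro b hb
        rw [Finset.mem_image] at hb
        obtain ⟨m', hm', rfl⟩ := hb
        have hm2 := (Finset.mem_filter.mp (Finset.mem_filter.mp hm').1).1
        refine ⟨abs_pos.mpr (AP.ne_zero_of_mem hm2).2, ?_⟩
        have := (AP.mem_box.mp hm2).2.1
        rw [Int.abs_eq_natAbs]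
        exact_mod_cast this
      · intro b hb c hc
        rw [Finset.mem_image] at hb hc
        obtain ⟨m', hm', rfl⟩ := hb
        obtain ⟨m'', hm'', rfl⟩ := hc
        rw [Finset.mem_filter] at hm' hm''
        have p1 := (Finset.mem_filter.mp hm'.1).2
        have p2 := (Finset.mem_filter.mp hm''.1).2
        have p3 : m'.1 = m''.1 := by
          have := hm'.2.trans hm''.2.symm
          rw [Prod.mk.injEq] at this; exact this.1
        have e1 : Real.log ((|m'.2| : ℤ) : ℝ) - Real.log ((|m''.2| : ℤ) : ℝ) = (psi m - psi m'') - (psi m - psi m') := by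
          unfold psi
          rw [p3]; push_cast; ring
        rw [e1]
        refine (abs_sub _ _).trans ?_
        linarith
    have h2 : (F.card : ℝ) = ∑ z ∈ G, ((F.filter (fun m' => (m'.1, decide (0 < m'.2)) = z)).card : ℝ) := by
      rw [hc]; push_cast; rfl
    rw [h2]
    calc _ ≤ ∑ z ∈ G, (2 * ℓ * (a.Y2 : ℝ) + 1) := Finset.sum_le_sum hfib
      _ = G.card * (2 * ℓ * (a.Y2 : ℝ) + 1) := by rw [Finset.sum_const, nsmul_eq_mul]
      _ = (4 * a.Y1) * (2 * ℓ * (a.Y2 : ℝ) + 1) := by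
        congr 1
        have : G.card = 4 * a.Y1 := by
          rw [hG, Finset.card_product, Finset.card_erase_of_mem (by rw [Finset.mem_Icc]; omega), Int.card_Icc,
            Finset.card_univ, Fintype.card_bool]
          omega
        rw [this]; push_cast; ring
      _ ≤ (4 * a.Y1) * (3 * (ℓ * a.Y2)) := by
        apply mul_le_mul_of_nonneg_left _ (by positivity); linarith
      _ = _ := by ring
  have h3 : (a.NP ℓ).card = ∑ m ∈ a.box, (a.box.filter (fun m' => |psi m - psi m'| ≤ ℓ)).card := by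
    unfold AP.NP
    rw [Finset.card_filter, Finset.sum_product]
    apply Finset.sum_congr rfl; intro m _
    rw [Finset.card_filter]
  have h4 : ((a.NP ℓ).card : ℝ) = ∑ m ∈ a.box, ((a.box.filter (fun m' => |psi m - psi m'| ≤ ℓ)).card : ℝ) := by
    rw [h3]; push_cast; rfl
  rw [h4]
  calc _ ≤ ∑ m ∈ a.box, 12 * ℓ * ((a.Y1 : ℝ) * a.Y2) := Finset.sum_le_sum h1
    _ = a.box.card * (12 * ℓ * ((a.Y1 : ℝ) * a.Y2)) := by rw [Finset.sum_const, nsmul_eq_mul]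
    _ ≤ (9 * (a.Y1 * a.Y2)) * (12 * ℓ * ((a.Y1 : ℝ) * a.Y2)) := by
      have := h.card_box
      gcongr
    _ = _ := by ring

/-- largest admissible kernel length -/
def AP.Kk (a : AP) : ℕ := 2 ^ (a.σ - a.k - 7 * a.w - 4)

theorem AP.Ok.Kk_eq {a : AP} (h : a.Ok) : a.ρ = 1 / (16 * (a.Kk : ℝ)) := by
  unfold AP.ρ AP.Kk
  push_cast
  have hs := h.hσ
  have hw := h.hw
  have e : (2 : ℝ) ^ a.σ = 2 ^ (a.σ - a.k - 7 * a.w - 4) * 2 ^ (a.k + 7 * a.w) * 16 := by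
    rw [← pow_add]
    have : (16 : ℝ) = 2 ^ 4 := by norm_num
    rw [this, ← pow_add]
    congr 1; omega
  rw [e, div_eq_div_iff (by positivity) (by positivity)]
  ring

open Classical in
theorem meas_NP (a : AP) (h : a.Ok) {ℓ : ℝ} (hℓ : 0 < ℓ) (hℓY : 1 ≤ ℓ * a.Y2) :
    volume {x : TT × TT | 2 ^ (2 * a.k) * (2 ^ a.w) ^ 39 * ℓ ≤
      (((a.NP ℓ).filter (fun z => (z.1.1 * z.2.2 - z.1.2 * z.2.1 ≠ 0) ∧ z.1 ∈ a.M x ∧ z.2 ∈ a.M x)).card : ℝ)} ≤
      ENNReal.ofReal (1 / (2 ^ a.w) ^ 2) := by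
  have hW := h.W40
  have hρ := h.ρ_pos
  have hKk := h.Kk_eq
  have hKk0 : 0 < a.Kk := by unfold AP.Kk; positivity
  have hKk0' : (0 : ℝ) < a.Kk := by exact_mod_cast hKk0
  have h1 := markov_card ((a.NP ℓ).filter (fun z => z.1.1 * z.2.2 - z.1.2 * z.2.1 ≠ 0))
    (fun z => {x : TT × TT | ‖dm z.1 x‖ ≤ a.ρ ∧ ‖dm z.2 x‖ ≤ a.ρ})
    (fun z => (measurableSet_le (continuous_dm z.1).norm.measurable measurable_const).inter
      (measurableSet_le (continuous_dm z.2).norm.measurable measurable_const))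
    (fun _ => 64 / (a.Kk * a.Kk)) (fun _ _ => by positivity)
    (fun z hz => by
      rw [Finset.mem_filter] at hz
      exact meas2 hKk0 hKk0 hz.2 hKk.le hKk.le)
    (t := 2 ^ (2 * a.k) * (2 ^ a.w) ^ 39 * ℓ) (by positivity)
  refine (measure_mono ?_).trans (h1.trans ?_)
  · intro x hx
    simp only [Set.mem_ofPred_eq] at hx ⊢
    refine hx.trans ?_
    have : ((a.NP ℓ).filter (fun z => (z.1.1 * z.2.2 - z.1.2 * z.2.1 ≠ 0) ∧ z.1 ∈ a.M x ∧ z.2 ∈ a.M x)).card ≤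
        (((a.NP ℓ).filter (fun z => z.1.1 * z.2.2 - z.1.2 * z.2.1 ≠ 0)).filter (fun z => ‖dm z.1 x‖ ≤ a.ρ ∧ ‖dm z.2 x‖ ≤ a.ρ)).card := by
      apply Finset.card_le_card
      intro z hz
      rw [Finset.mem_filter] at hz
      rw [Finset.mem_filter, Finset.mem_filter]
      obtain ⟨z1, z2, z3, z4⟩ := hz
      unfold AP.M at z3 z4
      exact ⟨⟨z1, z2⟩, (Finset.mem_filter.mp z3).2, (Finset.mem_filter.mp z4).2⟩
    exact_mod_cast this
  · apply ENNReal.ofReal_le_ofReal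
    rw [Finset.sum_const, nsmul_eq_mul]
    have hv := h.vol
    have hc := card_NP a h hℓ.le hℓY
    have hc' : ((((a.NP ℓ).filter (fun z => z.1.1 * z.2.2 - z.1.2 * z.2.1 ≠ 0)).card : ℕ) : ℝ) ≤ 108 * ℓ * (a.Y1 * a.Y2) ^ 2 := by
      refine le_trans ?_ hc
      exact_mod_cast Finset.card_filter_le _ _
    have eK : 64 / ((a.Kk : ℝ) * a.Kk) = 16384 * a.ρ ^ 2 := by
      rw [hKk]; field_simp; norm_num
    rw [eK]
    rw [div_le_div_iff₀ (by positivity) (by positivity)]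
    set W : ℝ := 2 ^ a.w with hWdef
    have hW1 : (1 : ℝ) ≤ W := h.W1
    have hK0 : (0 : ℝ) < 2 ^ a.k := by positivity
    have e2 : (2 : ℝ) ^ (2 * a.k) = (2 ^ a.k) ^ 2 := by rw [mul_comm, pow_mul]
    have hW24 : 1769472 ≤ W := by linarith [show (1769472 : ℝ) ≤ 2 ^ 40 by norm_num]
    have hv0 : 0 ≤ (a.Y1 : ℝ) * a.Y2 * a.ρ := by positivity
    calc ((((a.NP ℓ).filter (fun z => z.1.1 * z.2.2 - z.1.2 * z.2.1 ≠ 0)).card : ℕ) : ℝ) * (16384 * a.ρ ^ 2) * W ^ 2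
        ≤ (108 * ℓ * (a.Y1 * a.Y2) ^ 2) * (16384 * a.ρ ^ 2) * W ^ 2 := by gcongr
      _ = 1769472 * ℓ * ((a.Y1 : ℝ) * a.Y2 * a.ρ) ^ 2 * W ^ 2 := by ring
      _ ≤ 1769472 * ℓ * (2 ^ a.k * W ^ 18) ^ 2 * W ^ 2 := by gcongr
      _ = 1769472 * (ℓ * (2 ^ a.k) ^ 2 * W ^ 38) := by ring
      _ ≤ W * (ℓ * (2 ^ a.k) ^ 2 * W ^ 38) := by
        apply mul_le_mul_of_nonneg_right hW24 (by positivity)
      _ = _ := by rw [e2]; ring

end Run7.h297
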