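import Pool.Agent.Run7.h297.Types

set_option autoImplicit false

/-! The modes away from the resonant set. -/

noncomputable section

namespace Run7.h297

open Real Finset MeasureTheory

theorem lint_avg {N1 N2 : ℕ} (h1 : 0 < N1) (h2 : 0 < N2) (F : ℕ → ℕ → TT × TT → ℝ) (hF0 : ∀ u v x, 0 ≤ F u v x)
    (hm : ∀ u v, Measurable (F u v)) {b : ℝ} (hb : ∀ u ∈ range N1, ∀ v ∈ range N2, ∫⁻ x, ENNReal.ofReal (F u v x) ≤ ENNReal.ofReal b) :
    ∫⁻ x, ENNReal.ofReal ((1 / ((N1 : ℝ) * N2)) * ∑ u ∈ range N1, ∑ v ∈ range N2, F u v x) ≤ ENNReal.ofReal b := by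
  have h1' : (0 : ℝ) < N1 := by exact_mod_cast h1
  have h2' : (0 : ℝ) < N2 := by exact_mod_cast h2
  have e : ∀ x, ENNReal.ofReal ((1 / ((N1 : ℝ) * N2)) * ∑ u ∈ range N1, ∑ v ∈ range N2, F u v x) =
      ENNReal.ofReal (1 / ((N1 : ℝ) * N2)) * ∑ u ∈ range N1, ∑ v ∈ range N2, ENNReal.ofReal (F u v x) := by
    intro x
    rw [ENNReal.ofReal_mul (by positivity), ENNReal.ofReal_sum_of_nonneg (fun u _ => Finset.sum_nonneg (fun v _ => hF0 u v x))]
    congr 1
    apply Finset.sum_congr rfl; intro u _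
    rw [ENNReal.ofReal_sum_of_nonneg (fun v _ => hF0 u v x)]
  simp_rw [e]
  rw [lintegral_const_mul' _ _ ENNReal.ofReal_ne_top, lintegral_finset_sum]
  · calc ENNReal.ofReal (1 / ((N1 : ℝ) * N2)) * ∑ u ∈ range N1, ∫⁻ x, ∑ v ∈ range N2, ENNReal.ofReal (F u v x)
        ≤ ENNReal.ofReal (1 / ((N1 : ℝ) * N2)) * ∑ u ∈ range N1, ∑ v ∈ range N2, ENNReal.ofReal b := by
          gcongr with u hu
          rw [lintegral_finset_sum]
          · exact Finset.sum_le_sum (fun v hv => hb u hu v hv)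
          · intro v _; exact (hm u v).ennreal_ofReal
      _ = ENNReal.ofReal (1 / ((N1 : ℝ) * N2)) * (ENNReal.ofReal ((N1 : ℝ) * N2) * ENNReal.ofReal b) := by
          rw [Finset.sum_const, Finset.sum_const, card_range, card_range, nsmul_eq_mul, nsmul_eq_mul, ← mul_assoc,
            ENNReal.ofReal_mul (Nat.cast_nonneg _), ENNReal.ofReal_natCast, ENNReal.ofReal_natCast]
          ring
      _ = ENNReal.ofReal b := by
          rw [← mul_assoc, ← ENNReal.ofReal_mul (by positivity)]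
          have : 1 / ((N1 : ℝ) * N2) * ((N1 : ℝ) * N2) = 1 := by field_simp
          rw [this, ENNReal.ofReal_one, one_mul]
  · intro u _
    exact Finset.measurable_sum _ (fun v _ => (hm u v).ennreal_ofReal)

theorem lint_shift (g : TT × TT) (f : TT × TT → ENNReal) : ∫⁻ x, f (x + g) = ∫⁻ x, f x := by
  have : (volume : Measure (TT × TT)).IsAddRightInvariant := by
    rw [Measure.volume_eq_prod]; infer_instance
  exact lintegral_add_right_eq_self f g

/-- box width -/
def AP.d1 (a : AP) : ℝ := 1 / 2 ^ a.g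
/-- box width -/
def AP.d2 (a : AP) : ℝ := 1 / 2 ^ a.f
/-- volume -/
def AP.V (a : AP) : ℝ := 2 ^ a.σ * (a.d1 * a.d2)

/-- grid translations -/
def AP.gp (a : AP) (u v : ℕ) : TT × TT := (((a.st / 2 ^ a.g * u : ℝ) : TT), ((a.st / 2 ^ a.f * v : ℝ) : TT))

theorem dm_add_pt (m : ℤ × ℤ) (x y : TT × TT) : dm m (x + y) = dm m x + dm m y := by
  unfold dm
  simp only [Prod.fst_add, Prod.snd_add, smul_add]
  abel

theorem dm_gp (a : AP) (m : ℤ × ℤ) (u v : ℕ) :
    dm m (a.gp u v) = ((a.na m * a.st * u + a.nb m * a.st * v : ℝ) : TT) := by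
  have := dm_pt m (a.st / 2 ^ a.g * u, a.st / 2 ^ a.f * v)
  unfold pt lin at this
  unfold AP.gp
  rw [this]
  congr 1
  unfold AP.na AP.nb
  ring

/-- average over the grid -/
def AP.av (a : AP) (m : ℤ × ℤ) (x : TT × TT) : ℝ :=
  (1 / ((a.N1 : ℝ) * a.N2)) * ∑ u ∈ range a.N1, ∑ v ∈ range a.N2, cf a.d1 a.d2 m * FQ (2 ^ a.σ) (dm m (x + a.gp u v))

open Classical in
/-- contribution of the remaining modes -/
def AP.Far (a : AP) (x : TT × TT) : ℝ := ∑' m : ℤ × ℤ, if m ≠ 0 ∧ m ∉ a.M x then a.av m x else 0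

section

variable {a : AP} (h : a.Ok)

theorem d1_pos : 0 < a.d1 := by unfold AP.d1; positivity
theorem d2_pos : 0 < a.d2 := by unfold AP.d2; positivity

include h

theorem d1_le : a.d1 ≤ 1 / 2 := by
  unfold AP.d1
  apply one_div_le_one_div_of_le (by norm_num)
  have : (2 : ℝ) ^ 1 ≤ 2 ^ a.g := by
    apply pow_le_pow_right₀ (by norm_num)
    have := h.hg; have := h.hk; have := h.hw; omega
  rw [pow_one] at this; exact this

theorem d2_le : a.d2 ≤ 1 / 2 := by
  unfold AP.d2
  apply one_div_le_one_div_of_le (by norm_num)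
  have : (2 : ℝ) ^ 1 ≤ 2 ^ a.f := by
    apply pow_le_pow_right₀ (by norm_num)
    have := h.hf; have := h.hk; have := h.hw; omega
  rw [pow_one] at this; exact this

omit h in
theorem av_nonneg (m : ℤ × ℤ) (x : TT × TT) : 0 ≤ a.av m x := by
  unfold AP.av
  apply mul_nonneg (by positivity)
  apply Finset.sum_nonneg; intro u _
  apply Finset.sum_nonneg; intro v _
  exact mul_nonneg (cf_nonneg d1_pos d2_pos m) (FQ_nonneg _ _)

omit h in
theorem av_le (m : ℤ × ℤ) (x : TT × TT) : a.av m x ≤ cf a.d1 a.d2 m * 2 ^ a.σ := by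
  have n1' : (0 : ℝ) < a.N1 := by unfold AP.N1; positivity
  have n2' : (0 : ℝ) < a.N2 := by unfold AP.N2; positivity
  have h0 := cf_nonneg (d1_pos (a := a)) (d2_pos (a := a)) m
  unfold AP.av
  calc _ ≤ (1 / ((a.N1 : ℝ) * a.N2)) * ∑ u ∈ range a.N1, ∑ v ∈ range a.N2, cf a.d1 a.d2 m * 2 ^ a.σ := by
        gcongr with u _ v _
        refine (FQ_le _ _).trans ?_
        push_cast; exact le_rfl
    _ = _ := by
        rw [Finset.sum_const, Finset.sum_const, card_range, card_range, nsmul_eq_mul, nsmul_eq_mul]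
        field_simp

omit h in
theorem continuous_av (m : ℤ × ℤ) : Continuous (a.av m) := by
  unfold AP.av
  apply Continuous.mul continuous_const
  apply continuous_finset_sum; intro u _
  apply continuous_finset_sum; intro v _
  exact continuous_const.mul ((continuous_FQ _).comp ((continuous_dm m).comp (continuous_id.add continuous_const)))

open Classical in
theorem far_summable (x : TT × TT) : Summable (fun m : ℤ × ℤ => if m ≠ 0 ∧ m ∉ a.M x then a.av m x else 0) := by
  have hs := (hasSum_cf (d1_pos (a := a)) (d1_le h) (d2_pos (a := a)) (d2_le h)).summable.mul_right ((2 : ℝ) ^ a.σ)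
  refine Summable.of_nonneg_of_le ?_ ?_ hs
  · intro m
    split_ifs
    · exact av_nonneg m x
    · exact le_rfl
  · intro m
    split_ifs
    · exact av_le m x
    · exact mul_nonneg (cf_nonneg d1_pos d2_pos m) (by positivity)

theorem norm_dm_gp {m : ℤ × ℤ} (hm : m ∈ a.box) {u v : ℕ} (hu : u ∈ range a.N1) (hv : v ∈ range a.N2) :
    ‖dm m (a.gp u v)‖ ≤ a.ρ / 2 := by
  rw [dm_gp]
  refine (norm_coe_le_abs _).trans ?_
  have h1 := (box_na hm).1
  have h2 := (box_nb hm).1
  have hst := st_pos (a := a)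
  have hW := h.W40
  have hW1 := h.W1
  have hN1 := h.N1_eq
  have hN2 := h.N2_le
  have hu' : (u : ℝ) ≤ 2 ^ a.k * (2 ^ a.w) ^ 6 := by
    rw [Finset.mem_range] at hu
    rw [← hN1]; exact_mod_cast hu.le
  have hv' : (v : ℝ) ≤ 2 ^ a.k * (2 ^ a.w) ^ 7 := by
    rw [Finset.mem_range] at hv
    refine le_trans ?_ hN2
    exact_mod_cast hv.le
  have eρ : a.ρ = 2 ^ a.k * (2 ^ a.w) ^ 7 / 2 ^ a.σ := by
    unfold AP.ρ; rw [pow_add, mul_comm 7 a.w, pow_mul]
  rw [eρ]
  set W : ℝ := 2 ^ a.w with hWdef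
  have hW0 : 0 < W := by positivity
  have hQ : (0 : ℝ) < 2 ^ a.σ := by positivity
  have hK : (0 : ℝ) < 2 ^ a.k := by positivity
  have b1 : |a.na m * a.st * u| ≤ 2 ^ a.k * W ^ 6 / 2 ^ a.σ := by
    rw [abs_mul, abs_mul, abs_of_pos hst, Nat.abs_cast]
    calc |a.na m| * a.st * (u : ℝ) ≤ W ^ 5 * a.st * (2 ^ a.k * W ^ 6) := by gcongr
      _ = 2 ^ a.k * W ^ 5 / 2 ^ a.σ := by unfold AP.st; rw [← hWdef]; field_simp
      _ ≤ _ := by
        have : W ^ 5 ≤ W ^ 6 := pow_le_pow_right₀ hW1 (by norm_num)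
        gcongr
  have b2 : |a.nb m * a.st * v| ≤ 2 ^ a.k * W ^ 6 / 2 ^ a.σ := by
    rw [abs_mul, abs_mul, abs_of_pos hst, Nat.abs_cast]
    calc |a.nb m| * a.st * (v : ℝ) ≤ W ^ 5 * a.st * (2 ^ a.k * W ^ 7) := by gcongr
      _ = _ := by unfold AP.st; rw [← hWdef]; field_simp
  refine (abs_add_le _ _).trans ?_
  have : 2 ^ a.k * W ^ 6 / 2 ^ a.σ + 2 ^ a.k * W ^ 6 / 2 ^ a.σ ≤ 2 ^ a.k * W ^ 7 / 2 ^ a.σ / 2 := by
    rw [← add_div, div_div, div_le_div_iff₀ hQ (by positivity)]
    have e : 2 ^ a.k * W ^ 7 = W * (2 ^ a.k * W ^ 6) := by ring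
    have h4 : 4 * (2 ^ a.k * W ^ 6) ≤ W * (2 ^ a.k * W ^ 6) := by
      apply mul_le_mul_of_nonneg_right _ (by positivity); linarith
    rw [e]
    nlinarith
  linarith

open Classical in
theorem meas_Far {t : ℝ} (ht : 0 < t) : volume {x : TT × TT | t ≤ a.Far x} ≤ ENNReal.ofReal ((9 / (2 ^ a.w) ^ 5) / t) := by
  have hd1 := d1_pos (a := a)
  have hd2 := d2_pos (a := a)
  have hd1' := d1_le h
  have hd2' := d2_le h
  have hW := h.W40
  have hW1 := h.W1
  have hρ := h.ρ_pos
  have n1pos : 0 < a.N1 := by unfold AP.N1; positivity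
  have n2pos : 0 < a.N2 := by unfold AP.N2; positivity
  have hg5 : 5 * a.w ≤ a.g := by have := h.hg; have := h.hk; omega
  have hf5 : 5 * a.w ≤ a.f := by have := h.hf; have := h.hk; omega
  have b1 := tsum_cf_fst hd1 hd1' hd2 hd2' (fun m => m.natAbs < 2 ^ (a.g - 5 * a.w))
  have b2 := tsum_cf_fst hd1 hd1' hd2 hd2' (fun m => a.Y1 < m.natAbs)
  have b3 := tsum_cf_snd hd1 hd1' hd2 hd2' (fun m => m.natAbs < 2 ^ (a.f - 5 * a.w))
  have b4 := tsum_cf_snd hd1 hd1' hd2 hd2' (fun m => a.Y2 < m.natAbs)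
  have b5 := (hasSum_cf hd1 hd1' hd2 hd2').mul_right (2 / ((((2 ^ a.σ : ℕ)) : ℝ) * (a.ρ / 2)))
  have b := (((b1.add b2).add b3).add b4).add b5
  have c1 := sum_th_low hd1 (2 ^ (a.g - 5 * a.w))
  have c2 := sum_th_high hd1 hd1' (R := a.Y1) (by unfold AP.Y1; positivity)
  have c3 := sum_th_low hd2 (2 ^ (a.f - 5 * a.w))
  have c4 := sum_th_high hd2 hd2' (R := a.Y2) (by unfold AP.Y2; positivity)
  have hQr : (0 : ℝ) ≤ 2 / ((((2 ^ a.σ : ℕ)) : ℝ) * (a.ρ / 2)) := by positivity
  refine markov_tsum (fun m x => if m ≠ 0 ∧ m ∉ a.M x then a.av m x else 0)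
    (fun m x => by
      split_ifs
      · exact av_nonneg m x
      · exact le_rfl)
    (fun m => by
      apply Measurable.ite
      · by_cases hm : m = 0
        · simp [hm]
        · by_cases hb : m ∈ a.box
          · have : {x : TT × TT | m ≠ 0 ∧ m ∉ a.M x} = {x | a.ρ < ‖dm m x‖} := by
              ext x
              simp only [Set.mem_setOf_eq]
              unfold AP.M
              rw [Finset.mem_filter]
              constructor
              · rintro ⟨_, h2⟩
                by_contra hc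
                exact h2 ⟨hb, not_lt.mp hc⟩
              · intro h2
                exact ⟨hm, fun h3 => absurd h3.2 (not_le.mpr h2)⟩
            rw [this]
            exact measurableSet_lt measurable_const (continuous_dm m).norm.measurable
          · have : {x : TT × TT | m ≠ 0 ∧ m ∉ a.M x} = Set.univ := by
              ext x
              simp only [Set.mem_setOf_eq, Set.mem_univ, iff_true]
              exact ⟨hm, fun h3 => hb (Finset.mem_filter.mp h3).1⟩
            rw [this]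
            exact MeasurableSet.univ
      · exact (continuous_av m).measurable
      · exact measurable_const)
    (fun x => far_summable h x)
    _ (fun m => by
      have h0 := cf_nonneg hd1 hd2 m
      split_ifs <;> positivity)
    (fun m => ?_) b.summable ?_ ht
  · have h0 := cf_nonneg hd1 hd2 m
    have h0' : 0 ≤ cf a.d1 a.d2 m * (2 / ((((2 ^ a.σ : ℕ)) : ℝ) * (a.ρ / 2))) := by positivity
    by_cases hm : m = 0
    · simp [hm]
    have hmeas : ∀ u v : ℕ, Measurable (fun x : TT × TT => cf a.d1 a.d2 m * FQ (2 ^ a.σ) (dm m (x + a.gp u v))) := by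
      intro u v
      exact (continuous_const.mul ((continuous_FQ _).comp ((continuous_dm m).comp (continuous_id.add continuous_const)))).measurable
    by_cases hb : m ∈ a.box
    · have key : ∫⁻ x, ENNReal.ofReal (if m ≠ 0 ∧ m ∉ a.M x then a.av m x else 0) ≤
          ENNReal.ofReal (cf a.d1 a.d2 m * (2 / ((((2 ^ a.σ : ℕ)) : ℝ) * (a.ρ / 2)))) := by
        have hmeas2 : Measurable (fun x : TT × TT => if a.ρ / 2 < ‖dm m x‖ then cf a.d1 a.d2 m * FQ (2 ^ a.σ) (dm m x) else 0) := by
          apply Measurable.ite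
          · exact measurableSet_lt measurable_const (continuous_dm m).norm.measurable
          · exact (continuous_const.mul ((continuous_FQ _).comp (continuous_dm m))).measurable
          · exact measurable_const
        have hl := lint_avg n1pos n2pos (fun u v x => if a.ρ / 2 < ‖dm m (x + a.gp u v)‖ then
            cf a.d1 a.d2 m * FQ (2 ^ a.σ) (dm m (x + a.gp u v)) else 0)
          (fun u v x => by
            split_ifs
            · exact mul_nonneg h0 (FQ_nonneg _ _)
            · exact le_rfl)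
          (fun u v => hmeas2.comp (measurable_id.add measurable_const))
          (b := cf a.d1 a.d2 m * (2 / ((((2 ^ a.σ : ℕ)) : ℝ) * (a.ρ / 2))))
          (fun u _ v _ => by
            have := lint_shift (a.gp u v) (fun x => ENNReal.ofReal (if a.ρ / 2 < ‖dm m x‖ then
              cf a.d1 a.d2 m * FQ (2 ^ a.σ) (dm m x) else 0))
            rw [this]
            exact lintegral_FQ_dm_far hm (by positivity) h0 (by positivity))
        refine le_trans (lintegral_mono (fun x => ?_)) hl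
        apply ENNReal.ofReal_le_ofReal
        split_ifs with hc
        · unfold AP.av
          gcongr with u hu v hv
          have hfar : a.ρ < ‖dm m x‖ := by
            by_contra hc2
            apply hc.2
            unfold AP.M
            rw [Finset.mem_filter]; exact ⟨hb, not_lt.mp hc2⟩
          have hn := norm_dm_gp h hb hu hv
          have : a.ρ / 2 < ‖dm m (x + a.gp u v)‖ := by
            rw [dm_add_pt]
            have h3 : ‖dm m x‖ ≤ ‖dm m x + dm m (a.gp u v)‖ + ‖dm m (a.gp u v)‖ := by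
              have h4 := norm_sub_le (dm m x + dm m (a.gp u v)) (dm m (a.gp u v))
              rw [add_sub_cancel_right] at h4
              exact h4
            linarith
          rw [if_pos this]
        · apply mul_nonneg (by positivity)
          apply Finset.sum_nonneg; intro u _
          apply Finset.sum_nonneg; intro v _
          split_ifs
          · exact mul_nonneg h0 (FQ_nonneg _ _)
          · exact le_rfl
      refine key.trans (ENNReal.ofReal_le_ofReal ?_)
      split_ifs <;> linarith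
    · have key : ∫⁻ x, ENNReal.ofReal (if m ≠ 0 ∧ m ∉ a.M x then a.av m x else 0) ≤ ENNReal.ofReal (cf a.d1 a.d2 m) := by
        have hl := lint_avg n1pos n2pos (fun u v x => cf a.d1 a.d2 m * FQ (2 ^ a.σ) (dm m (x + a.gp u v)))
          (fun u v x => mul_nonneg h0 (FQ_nonneg _ _)) hmeas (b := cf a.d1 a.d2 m)
          (fun u _ v _ => by
            have := lint_shift (a.gp u v) (fun x => ENNReal.ofReal (cf a.d1 a.d2 m * FQ (2 ^ a.σ) (dm m x)))
            rw [this]
            exact lintegral_FQ_dm hm (by positivity) h0)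
        refine le_trans (lintegral_mono (fun x => ?_)) hl
        apply ENNReal.ofReal_le_ofReal
        split_ifs with hc
        · exact le_rfl
        · exact av_nonneg m x
      refine key.trans (ENNReal.ofReal_le_ofReal ?_)
      have hcase : m.1.natAbs < 2 ^ (a.g - 5 * a.w) ∨ a.Y1 < m.1.natAbs ∨ m.2.natAbs < 2 ^ (a.f - 5 * a.w) ∨ a.Y2 < m.2.natAbs := by
        by_contra hc
        push Not at hc
        obtain ⟨k1, k2, k3, k4⟩ := hc
        apply hb
        rw [AP.mem_box]
        refine ⟨k2, k4, ?_, ?_⟩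
        · calc 2 ^ a.g = 2 ^ (a.g - 5 * a.w) * 2 ^ (5 * a.w) := by rw [← pow_add]; congr 1; omega
            _ ≤ _ := Nat.mul_le_mul_right _ k1
        · calc 2 ^ a.f = 2 ^ (a.f - 5 * a.w) * 2 ^ (5 * a.w) := by rw [← pow_add]; congr 1; omega
            _ ≤ _ := Nat.mul_le_mul_right _ k3
      rcases hcase with hc | hc | hc | hc
      · rw [if_pos hc]; split_ifs <;> linarith
      · rw [if_pos hc]; split_ifs <;> linarith
      · rw [if_pos hc]; split_ifs <;> linarith
      · rw [if_pos hc]; split_ifs <;> linarith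
  · rw [b.tsum_eq]
    have eρ : a.ρ = 2 ^ a.k * (2 ^ a.w) ^ 7 / 2 ^ a.σ := by
      unfold AP.ρ; rw [pow_add, mul_comm 7 a.w, pow_mul]
    have eG : (2 : ℝ) ^ a.g = 2 ^ (a.g - 5 * a.w) * (2 ^ a.w) ^ 5 := by
      rw [← pow_mul, ← pow_add]; congr 1; omega
    have eF : (2 : ℝ) ^ a.f = 2 ^ (a.f - 5 * a.w) * (2 ^ a.w) ^ 5 := by
      rw [← pow_mul, ← pow_add]; congr 1; omega
    have hk1 : (1 : ℝ) ≤ 2 ^ a.k := one_le_pow₀ (by norm_num)
    push_cast at c1 c3
    set W : ℝ := 2 ^ a.w with hWdef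
    have hW0 : 0 < W := by positivity
    have r1 : (2 * 2 ^ (a.g - 5 * a.w) + 1) * a.d1 ≤ 3 / W ^ 5 := by
      unfold AP.d1
      rw [eG, mul_one_div, div_le_div_iff₀ (by positivity) (by positivity)]
      have : (1 : ℝ) ≤ 2 ^ (a.g - 5 * a.w) := one_le_pow₀ (by norm_num)
      have h2 : (2 * (2 : ℝ) ^ (a.g - 5 * a.w) + 1) * W ^ 5 ≤ (3 * 2 ^ (a.g - 5 * a.w)) * W ^ 5 := by
        apply mul_le_mul_of_nonneg_right _ (by positivity); linarith
      linarith
    have r3 : (2 * 2 ^ (a.f - 5 * a.w) + 1) * a.d2 ≤ 3 / W ^ 5 := by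
      unfold AP.d2
      rw [eF, mul_one_div, div_le_div_iff₀ (by positivity) (by positivity)]
      have : (1 : ℝ) ≤ 2 ^ (a.f - 5 * a.w) := one_le_pow₀ (by norm_num)
      have h2 : (2 * (2 : ℝ) ^ (a.f - 5 * a.w) + 1) * W ^ 5 ≤ (3 * 2 ^ (a.f - 5 * a.w)) * W ^ 5 := by
        apply mul_le_mul_of_nonneg_right _ (by positivity); linarith
      linarith
    have r2 : 1 / (a.d1 * (a.Y1 : ℝ)) = 1 / W ^ 5 := by
      unfold AP.d1 AP.Y1; push_cast
      rw [pow_add, mul_comm 5 a.w, pow_mul, ← hWdef]; field_simp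
    have r4 : 1 / (a.d2 * (a.Y2 : ℝ)) = 1 / W ^ 5 := by
      unfold AP.d2 AP.Y2; push_cast
      rw [pow_add, mul_comm 5 a.w, pow_mul, ← hWdef]; field_simp
    have r5 : 1 * (2 / ((((2 ^ a.σ : ℕ)) : ℝ) * (a.ρ / 2))) ≤ 1 / W ^ 5 := by
      rw [eρ]; push_cast
      have e : 1 * (2 / ((2 : ℝ) ^ a.σ * (2 ^ a.k * W ^ 7 / 2 ^ a.σ / 2))) = 4 / (2 ^ a.k * W ^ 7) := by field_simp; norm_num
      rw [e, div_le_div_iff₀ (by positivity) (by positivity), one_mul]
      have h4 : 4 ≤ W ^ 2 := by nlinarith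
      calc 4 * W ^ 5 ≤ W ^ 2 * W ^ 5 := by gcongr
        _ = 1 * W ^ 7 := by ring
        _ ≤ 2 ^ a.k * W ^ 7 := by gcongr
    rw [r2] at c2
    rw [r4] at c4
    have e9 : 9 / W ^ 5 = 3 / W ^ 5 + 1 / W ^ 5 + 3 / W ^ 5 + 1 / W ^ 5 + 1 / W ^ 5 := by ring
    rw [e9]
    linarith

end

end Run7.h297
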