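import Pool.Agent.Run7.h297.Basic

set_option autoImplicit false

/-! The Fejer kernel, its bounds and its integrals, and the Fourier expansion of averaged products of
tents along multiples of a point of the two dimensional torus. -/

noncomputable section

namespace Run7.h297

open Real Finset MeasureTheory

/-- one dimensional torus -/
abbrev TT := UnitAddCircle

/-- the Fejer kernel -/
def FQ (Q : ℕ) (θ : TT) : ℝ := ‖∑ j ∈ range Q, ch (j • θ)‖ ^ 2 / Q

theorem FQ_nonneg (Q : ℕ) (θ : TT) : 0 ≤ FQ Q θ := by unfold FQ; positivity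

theorem norm_dir_le (Q : ℕ) (θ : TT) : ‖∑ j ∈ range Q, ch (j • θ)‖ ≤ Q := by
  calc _ ≤ ∑ j ∈ range Q, ‖ch (j • θ)‖ := norm_sum_le _ _
    _ = Q := by simp [norm_ch]

theorem FQ_le (Q : ℕ) (θ : TT) : FQ Q θ ≤ Q := by
  unfold FQ
  rcases Nat.eq_zero_or_pos Q with rfl | hQ
  · simp
  have hQ' : (0 : ℝ) < Q := by exact_mod_cast hQ
  rw [div_le_iff₀ hQ']
  have := norm_dir_le Q θ
  have h0 := norm_nonneg (∑ j ∈ range Q, ch (j • θ))
  nlinarith

theorem FQ_zero (Q : ℕ) : FQ Q 0 = Q := by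
  unfold FQ
  rcases Nat.eq_zero_or_pos Q with rfl | hQ
  · simp
  have hQ' : (0 : ℝ) < Q := by exact_mod_cast hQ
  simp [ch_zero]
  field_simp

theorem norm_dir_le' (Q : ℕ) (θ : TT) : 2 * ‖θ‖ * ‖∑ j ∈ range Q, ch (j • θ)‖ ≤ 1 := by
  have h1 : (∑ j ∈ range Q, ch (j • θ)) * (ch θ - 1) = ch (Q • θ) - 1 := by
    have : ∑ j ∈ range Q, ch (j • θ) = ∑ j ∈ range Q, ch θ ^ j := by
      apply Finset.sum_congr rfl; intro j _; rw [ch_nsmul]
    rw [this, ch_nsmul, geom_sum_mul]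
  have h2 : ‖∑ j ∈ range Q, ch (j • θ)‖ * ‖ch θ - 1‖ ≤ 2 := by
    rw [← norm_mul, h1]
    calc _ ≤ ‖ch (Q • θ)‖ + ‖(1 : ℂ)‖ := norm_sub_le _ _
      _ = 2 := by rw [norm_ch]; norm_num
  have h3 := norm_ch_sub_one θ
  have h0 := norm_nonneg (∑ j ∈ range Q, ch (j • θ))
  nlinarith [norm_nonneg θ]

theorem FQ_le' {Q : ℕ} (hQ : 0 < Q) {θ : TT} (hθ : 0 < ‖θ‖) : FQ Q θ ≤ 1 / (4 * Q * ‖θ‖ ^ 2) := by
  have hQ' : (0 : ℝ) < Q := by exact_mod_cast hQ
  unfold FQ
  have h := norm_dir_le' Q θ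
  have h0 := norm_nonneg (∑ j ∈ range Q, ch (j • θ))
  rw [div_le_div_iff₀ hQ' (by positivity)]
  have : (2 * ‖θ‖ * ‖∑ j ∈ range Q, ch (j • θ)‖) ^ 2 ≤ 1 := by
    apply pow_le_one₀ (by positivity) h
  nlinarith

theorem continuous_FQ (Q : ℕ) : Continuous (FQ Q) := by
  unfold FQ
  apply Continuous.div_const
  apply Continuous.pow
  apply Continuous.norm
  apply continuous_finsetSum
  intro j _
  exact continuous_ch.comp (continuous_nsmul j)

theorem FQ_expand (Q : ℕ) (θ : TT) :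
    ∑ j ∈ range Q, ∑ j' ∈ range Q, ch (((j : ℤ) - (j' : ℤ)) • θ) = ((Q * FQ Q θ : ℝ) : ℂ) := by
  rcases Nat.eq_zero_or_pos Q with rfl | hQ
  · simp
  have hQ' : (Q : ℝ) ≠ 0 := by positivity
  have h1 : (Q * FQ Q θ : ℝ) = ‖∑ j ∈ range Q, ch (j • θ)‖ ^ 2 := by
    unfold FQ; field_simp
  rw [h1, Complex.ofReal_pow, ← Complex.mul_conj', map_sum, Finset.sum_mul_sum]
  apply Finset.sum_congr rfl; intro j _
  apply Finset.sum_congr rfl; intro j' _
  rw [star_ch, ← ch_add]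
  congr 1
  rw [sub_smul, natCast_zsmul, natCast_zsmul, sub_eq_add_neg]

/-- orthogonality -/
theorem integral_ch (n : ℤ) : ∫ θ : TT, ch (n • θ) = if n = 0 then 1 else 0 := by
  have h := congrFun (fourierCoeff_fourier (T := 1) n) 0
  unfold fourierCoeff at h
  rw [AddCircle.integral_haarAddCircle] at h
  simp only [neg_zero, fourier_zero, one_smul, inv_one] at h
  have e : ∀ θ : TT, (fourier n : C(TT, ℂ)) θ = ch (n • θ) := by
    intro θ; rw [fourier_apply]; rfl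
  simp only [e] at h
  rw [h]
  by_cases hn : n = 0
  · subst hn; simp
  · rw [if_neg hn, Pi.single_eq_of_ne (by omega)]

theorem integrable_ch (n : ℤ) : Integrable (fun θ : TT => ch (n • θ)) := by
  apply Continuous.integrable_of_hasCompactSupport
  · exact continuous_ch.comp (continuous_zsmul n)
  · exact HasCompactSupport.of_compactSpace _

theorem integrable_FQ (Q : ℕ) : Integrable (FQ Q) := by
  apply Continuous.integrable_of_hasCompactSupport
  · exact continuous_FQ Q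
  · exact HasCompactSupport.of_compactSpace _

theorem integral_FQ {Q : ℕ} (hQ : 0 < Q) : ∫ θ : TT, FQ Q θ = 1 := by
  have hQ' : (Q : ℝ) ≠ 0 := by positivity
  have h1 : ∫ θ : TT, ((Q * FQ Q θ : ℝ) : ℂ) = Q := by
    simp_rw [← FQ_expand]
    rw [integral_finsetSum]
    · have : ∀ j ∈ range Q, ∫ θ : TT, ∑ j' ∈ range Q, ch (((j : ℤ) - (j' : ℤ)) • θ) = 1 := by
        intro j hj
        rw [integral_finsetSum]
        · simp_rw [integral_ch]
          rw [Finset.sum_eq_single j]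
          · simp
          · intro b _ hb
            rw [if_neg]; omega
          · intro h; exact absurd hj h
        · intro j' _; exact integrable_ch _
      rw [Finset.sum_congr rfl this]; simp
    · intro j _
      apply integrable_finsetSum
      intro j' _; exact integrable_ch _
  rw [integral_complex_ofReal, integral_const_mul] at h1
  have h2 : (Q * ∫ θ : TT, FQ Q θ : ℝ) = Q := by exact_mod_cast h1
  field_simp at h2
  linarith

theorem lintegral_FQ {Q : ℕ} (hQ : 0 < Q) : ∫⁻ θ : TT, ENNReal.ofReal (FQ Q θ) = 1 := by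
  rw [← ofReal_integral_eq_lintegral_ofReal (integrable_FQ Q) (Filter.Eventually.of_forall (FQ_nonneg Q)),
    integral_FQ hQ, ENNReal.ofReal_one]

theorem lintegral_FQ_far {Q : ℕ} (hQ : 0 < Q) {r : ℝ} (hr : 0 < r) :
    ∫⁻ θ : TT, ENNReal.ofReal (if r < ‖θ‖ then FQ Q θ else 0) ≤ ENNReal.ofReal (2 / (Q * r)) := by
  have hQ' : (0 : ℝ) < Q := by exact_mod_cast hQ
  have hpt : ∀ θ : TT, ENNReal.ofReal (if r < ‖θ‖ then FQ Q θ else 0) ≤
      ∑' k : ℕ, (Metric.closedBall (0 : TT) (2 ^ (k + 1) * r)).indicator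
        (fun _ => ENNReal.ofReal (1 / (4 * Q * (2 ^ k * r) ^ 2))) θ := by
    intro θ
    split_ifs with h
    · obtain ⟨k, hk1, hk2⟩ := exists_nat_pow_near (x := ‖θ‖ / r) (y := 2)
        (by rw [one_le_div hr]; exact h.le) (by norm_num)
      rw [le_div_iff₀ hr] at hk1
      rw [div_lt_iff₀ hr] at hk2
      refine le_trans ?_ (ENNReal.le_tsum k)
      rw [Set.indicator_of_mem]
      · apply ENNReal.ofReal_le_ofReal
        have hθ : 0 < ‖θ‖ := hr.trans h
        refine (FQ_le' hQ hθ).trans ?_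
        apply one_div_le_one_div_of_le (by positivity)
        gcongr
      · rw [mem_closedBall_zero_iff]; exact hk2.le
    · simp
  refine (lintegral_mono hpt).trans ?_
  rw [lintegral_tsum]
  · have hk : ∀ k : ℕ, ∫⁻ θ : TT, (Metric.closedBall (0 : TT) (2 ^ (k + 1) * r)).indicator
        (fun _ => ENNReal.ofReal (1 / (4 * Q * (2 ^ k * r) ^ 2))) θ ≤
          ENNReal.ofReal ((1 / (Q * r)) * (1 / 2) ^ k) := by
      intro k
      rw [lintegral_indicator_const (Metric.isClosed_closedBall.measurableSet)]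
      have h1 : volume (Metric.closedBall (0 : TT) (2 ^ (k + 1) * r)) ≤ ENNReal.ofReal (2 * (2 ^ (k + 1) * r)) := by
        rw [AddCircle.volume_closedBall]
        exact ENNReal.ofReal_le_ofReal (min_le_right _ _)
      calc _ ≤ ENNReal.ofReal (1 / (4 * Q * (2 ^ k * r) ^ 2)) * ENNReal.ofReal (2 * (2 ^ (k + 1) * r)) := by
            gcongr
        _ = ENNReal.ofReal ((1 / (Q * r)) * (1 / 2) ^ k) := by
            rw [← ENNReal.ofReal_mul (by positivity)]
            congr 1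
            rw [one_div_pow]
            field_simp
            ring
    refine (ENNReal.tsum_le_tsum hk).trans ?_
    rw [← ENNReal.ofReal_tsum_of_nonneg]
    · rw [tsum_mul_left, tsum_geometric_two]
      apply ENNReal.ofReal_le_ofReal
      rw [div_mul_eq_mul_div]; norm_num
    · intro k; positivity
    · exact Summable.mul_left _ summable_geometric_two
  · intro k
    exact (aemeasurable_const.indicator Metric.isClosed_closedBall.measurableSet)

/-! ### the two dimensional torus -/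

/-- pairing -/
def dm (m : ℤ × ℤ) (x : TT × TT) : TT := m.1 • x.1 + m.2 • x.2

theorem continuous_dm (m : ℤ × ℤ) : Continuous (dm m) := by
  unfold dm
  exact ((continuous_zsmul m.1).comp continuous_fst).add ((continuous_zsmul m.2).comp continuous_snd)

theorem dm_sub_left (m m' : ℤ × ℤ) (x : TT × TT) : dm (m - m') x = dm m x - dm m' x := by
  unfold dm
  simp only [Prod.fst_sub, Prod.snd_sub, sub_smul]
  abel

theorem dm_sub_right (m : ℤ × ℤ) (x y : TT × TT) : dm m (x - y) = dm m x - dm m y := by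
  unfold dm
  simp only [Prod.fst_sub, Prod.snd_sub, smul_sub]
  abel

theorem dm_zero (x : TT × TT) : dm 0 x = 0 := by
  unfold dm; simp

theorem zsmul_surj {n : ℤ} (hn : n ≠ 0) (y : TT) : ∃ x : TT, n • x = y := by
  obtain ⟨y, rfl⟩ := QuotientAddGroup.mk_surjective y
  refine ⟨((y / n : ℝ) : TT), ?_⟩
  have hn' : (n : ℝ) ≠ 0 := by exact_mod_cast hn
  have : n • ((y / n : ℝ) : TT) = ((n • (y / n) : ℝ) : TT) := rfl
  rw [this]
  have : n • (y / n : ℝ) = y := by rw [zsmul_eq_mul]; field_simp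
  rw [this]

theorem measurePreserving_dm {m : ℤ × ℤ} (hm : m ≠ 0) :
    MeasurePreserving (dm m) (volume : Measure (TT × TT)) (volume : Measure TT) := by
  have hs : Function.Surjective (dm m) := by
    intro y
    by_cases h1 : m.1 = 0
    · have h2 : m.2 ≠ 0 := by
        intro h2; exact hm (Prod.ext h1 h2)
      obtain ⟨x, hx⟩ := zsmul_surj h2 y
      exact ⟨(0, x), by simp [dm, hx]⟩
    · obtain ⟨x, hx⟩ := zsmul_surj h1 y
      exact ⟨(x, 0), by simp [dm, hx]⟩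
  let f : TT × TT →+ TT :=
    { toFun := dm m
      map_zero' := by simp [dm]
      map_add' := by intro x y; simp only [dm, Prod.fst_add, Prod.snd_add, smul_add]; abel }
  have hf : ⇑f = dm m := rfl
  rw [← hf]
  haveI : (volume : Measure (TT × TT)).IsAddHaarMeasure := by
    rw [Measure.volume_eq_prod]; infer_instance
  apply AddMonoidHom.measurePreserving (continuous_dm m) hs
  rw [Measure.volume_eq_prod, ← Set.univ_prod_univ, Measure.prod_prod]
  simp

/-- Fourier coefficients of the product of two tents -/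
def cf (δ₁ δ₂ : ℝ) (m : ℤ × ℤ) : ℝ := th δ₁ m.1 * th δ₂ m.2

theorem cf_nonneg {δ₁ δ₂ : ℝ} (h₁ : 0 < δ₁) (h₂ : 0 < δ₂) (m : ℤ × ℤ) : 0 ≤ cf δ₁ δ₂ m :=
  mul_nonneg (th_nonneg h₁ _) (th_nonneg h₂ _)

theorem hasSum_th {δ : ℝ} (h : 0 < δ) (h' : δ ≤ 1 / 2) : HasSum (th δ) 1 := by
  have := hasSum_tent h h' 0
  simp only [smul_zero, ch_zero, mul_one, tent_zero] at this
  exact_mod_cast this

theorem hasSum_cf {δ₁ δ₂ : ℝ} (h₁ : 0 < δ₁) (h₁' : δ₁ ≤ 1 / 2) (h₂ : 0 < δ₂) (h₂' : δ₂ ≤ 1 / 2) :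
    HasSum (cf δ₁ δ₂) 1 := by
  have a := hasSum_th h₁ h₁'
  have b := hasSum_th h₂ h₂'
  have := a.mul b (a.summable.mul_of_nonneg b.summable (fun m => th_nonneg h₁ m) (fun m => th_nonneg h₂ m))
  rw [mul_one] at this
  exact this

/-- averaged product of tents along multiples -/
def SS (Q : ℕ) (δ₁ δ₂ : ℝ) (s : ℤ) (x γ : TT × TT) : ℝ :=
  (1 / Q) * ∑ j ∈ range Q, ∑ j' ∈ range Q,
    tent δ₁ ((s + ((j : ℤ) - (j' : ℤ))) • x.1 - γ.1) * tent δ₂ ((s + ((j : ℤ) - (j' : ℤ))) • x.2 - γ.2)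

theorem hasSum_tent2 {δ₁ δ₂ : ℝ} (h₁ : 0 < δ₁) (h₁' : δ₁ ≤ 1 / 2) (h₂ : 0 < δ₂) (h₂' : δ₂ ≤ 1 / 2)
    (z : TT × TT) :
    HasSum (fun m : ℤ × ℤ => (cf δ₁ δ₂ m : ℂ) * ch (dm m z)) ((tent δ₁ z.1 * tent δ₂ z.2 : ℝ) : ℂ) := by
  have a := hasSum_tent h₁ h₁' z.1
  have b := hasSum_tent h₂ h₂' z.2
  have hs : Summable (fun m : ℤ × ℤ => ((th δ₁ m.1 : ℂ) * ch (m.1 • z.1)) * ((th δ₂ m.2 : ℂ) * ch (m.2 • z.2))) := by
    apply summable_mul_of_summable_norm (f := fun m : ℤ => (th δ₁ m : ℂ) * ch (m • z.1))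
      (g := fun m : ℤ => (th δ₂ m : ℂ) * ch (m • z.2))
    · refine (hasSum_th h₁ h₁').summable.congr ?_
      intro m
      rw [norm_mul, norm_ch, mul_one, Complex.norm_real, Real.norm_eq_abs, abs_of_nonneg (th_nonneg h₁ m)]
    · refine (hasSum_th h₂ h₂').summable.congr ?_
      intro m
      rw [norm_mul, norm_ch, mul_one, Complex.norm_real, Real.norm_eq_abs, abs_of_nonneg (th_nonneg h₂ m)]
  have := a.mul b hs
  rw [← Complex.ofReal_mul] at this
  refine this.congr_fun ?_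
  intro m
  unfold cf dm
  rw [ch_add]; push_cast; ring

theorem dm_smul (m : ℤ × ℤ) (n : ℤ) (x : TT × TT) : dm m (n • x) = n • dm m x := by
  unfold dm
  simp only [Prod.smul_fst, Prod.smul_snd, smul_add]
  rw [smul_comm, smul_comm m.2 n]

theorem hasSum_SS {Q : ℕ} (hQ : 0 < Q) {δ₁ δ₂ : ℝ} (h₁ : 0 < δ₁) (h₁' : δ₁ ≤ 1 / 2) (h₂ : 0 < δ₂)
    (h₂' : δ₂ ≤ 1 / 2) (s : ℤ) (x γ : TT × TT) :
    HasSum (fun m : ℤ × ℤ => ((cf δ₁ δ₂ m * FQ Q (dm m x) : ℝ) : ℂ) * (ch (s • dm m x) * ch (-dm m γ)))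
      (SS Q δ₁ δ₂ s x γ : ℂ) := by
  have hQ' : (Q : ℂ) ≠ 0 := by exact_mod_cast hQ.ne'
  have h : HasSum (fun m : ℤ × ℤ => (1 / (Q : ℂ)) * ∑ j ∈ range Q, ∑ j' ∈ range Q,
      (cf δ₁ δ₂ m : ℂ) * ch (dm m ((s + ((j : ℤ) - (j' : ℤ))) • x - γ))) (SS Q δ₁ δ₂ s x γ : ℂ) := by
    unfold SS
    push_cast
    apply HasSum.mul_left
    apply hasSum_sum; intro j _
    apply hasSum_sum; intro j' _
    have := hasSum_tent2 h₁ h₁' h₂ h₂' ((s + ((j : ℤ) - (j' : ℤ))) • x - γ)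
    simp only [Prod.fst_sub, Prod.snd_sub, Prod.smul_fst, Prod.smul_snd] at this
    push_cast at this
    exact this
  refine h.congr_fun ?_
  intro m
  have e : ∀ j j' : ℕ, (cf δ₁ δ₂ m : ℂ) * ch (dm m ((s + ((j : ℤ) - (j' : ℤ))) • x - γ)) =
      (cf δ₁ δ₂ m : ℂ) * (ch (s • dm m x) * ch (-dm m γ)) * ch (((j : ℤ) - (j' : ℤ)) • dm m x) := by
    intro j j'
    rw [dm_sub_right, dm_smul, add_smul, sub_eq_add_neg, ch_add, ch_add]
    ring
  simp_rw [e, ← Finset.mul_sum]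
  rw [FQ_expand]
  push_cast
  field_simp

end Run7.h297
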