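import Pool.Agent.Run7.h297.NTmB

set_option autoImplicit false

/-! Measure of the generic set of a shape. -/

noncomputable section

namespace Run7.h297

open Real Finset MeasureTheory

theorem meas_GF {a : AP} (h : a.Ok) : volume ({x : TT × TT | Gen3 a x}ᶜ ∪ {x | 1 / (4 * (2 ^ a.w) ^ 3) ≤ a.Far x}) ≤ ENNReal.ofReal (6 / 2 ^ a.w) := by
  refine (measure_union_le _ _).trans ?_
  refine (add_le_add (meas_Gen3 a h) (meas_Far h (by positivity))).trans ?_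
  rw [← ENNReal.ofReal_add (by positivity) (by positivity)]
  apply ENNReal.ofReal_le_ofReal
  have e : (9 : ℝ) / (2 ^ a.w) ^ 5 / (1 / (4 * (2 ^ a.w) ^ 3)) = 36 / (2 ^ a.w) ^ 2 := by field_simp; norm_num
  rw [e]
  have h1 := h.W40
  have h2 : (36 : ℝ) / (2 ^ a.w) ^ 2 ≤ 1 / 2 ^ a.w := by
    rw [div_le_div_iff₀ (by positivity) (by positivity)]
    have : (36 : ℝ) ≤ 2 ^ a.w := le_trans (by norm_num) h1
    nlinarith
  have h3 : (6 : ℝ) / 2 ^ a.w = 5 / 2 ^ a.w + 1 / 2 ^ a.w := by ring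
  linarith

/-- index set of the window grids -/
def Wt (f : ℕ) : Finset ((ℕ × ℕ) × (ℕ × ℕ)) := (range (192 * f + 1) ×ˢ range (192 * f + 1)) ×ˢ (range (192 * f + 2) ×ˢ range (1024 * f + 1))

/-- window grid -/
def Aw (a : AP) (k : (ℕ × ℕ) × (ℕ × ℕ)) : AP := a.sh k.1.1 k.1.2 (13 + k.2.1) k.2.2

theorem mem_Wt {f : ℕ} {k : (ℕ × ℕ) × (ℕ × ℕ)} : k ∈ Wt f ↔ (k.1.1 < 192 * f + 1 ∧ k.1.2 < 192 * f + 1) ∧ (k.2.1 < 192 * f + 2 ∧ k.2.2 < 1024 * f + 1) := by
  unfold Wt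
  rw [Finset.mem_product, Finset.mem_product, Finset.mem_product, Finset.mem_range, Finset.mem_range, Finset.mem_range, Finset.mem_range]

theorem nat_lt_two_pow (f : ℕ) : (f : ℝ) ≤ 2 ^ f := by exact_mod_cast Nat.lt_two_pow_self.le

theorem card_Wt {f : ℕ} (hf : 1 ≤ f) : ((Wt f).card : ℝ) ≤ 2 ^ (40 + 4 * f) := by
  unfold Wt
  rw [Finset.card_product, Finset.card_product, Finset.card_product, card_range, card_range, card_range]
  push_cast
  have h1 : (1 : ℝ) ≤ f := by exact_mod_cast hf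
  have h2 := nat_lt_two_pow f
  set y : ℝ := 2 ^ f with hy
  have hy1 : 1 ≤ y := h1.trans h2
  have e : (2 : ℝ) ^ (40 + 4 * f) = 2 ^ 40 * y ^ 4 := by rw [pow_add, mul_comm 4 f, pow_mul]
  rw [e]
  have a1 : (192 * (f : ℝ) + 1) ≤ 200 * y := by linarith
  have a2 : (192 * (f : ℝ) + 2) ≤ 200 * y := by linarith
  have a3 : (1024 * (f : ℝ) + 1) ≤ 1100 * y := by linarith
  calc (192 * (f : ℝ) + 1) * (192 * f + 1) * ((192 * f + 2) * (1024 * f + 1)) ≤ (200 * y) * (200 * y) * ((200 * y) * (1100 * y)) := by gcongr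
    _ = 8800000000 * y ^ 4 := by ring
    _ ≤ 2 ^ 40 * y ^ 4 := by
      apply mul_le_mul_of_nonneg_right (by norm_num) (by positivity)

theorem meas_GS {a : AP} {f i j m : ℕ} (hs : ShOk a f i j m) (hf : 30 ≤ f) : volume {x : TT × TT | GS a f x}ᶜ ≤ ENNReal.ofReal (1 / 2 ^ (100 * f)) := by
  have hok := hs.ok
  have hV := hs.V
  have hV0 : 0 < a.V := by rw [hV]; positivity
  have hw := hs.w
  have hs1 := hs.s1
  have hsub : {x : TT × TT | GS a f x}ᶜ ⊆ (({x : TT × TT | Gen3 a x}ᶜ ∪ {x | 1 / (4 * (2 ^ a.w) ^ 3) ≤ a.Far x}) ∪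
      {x | a.V / 2 ^ (2 * f + 6) ≤ (1 / ((a.N1 : ℝ) * a.N2)) * ∑ u ∈ range a.N1, ∑ v ∈ range a.N2, Phi a f (x + a.gp u v)}) ∪
      ⋃ k ∈ Wt f, ({x : TT × TT | Gen3 (Aw a k) x}ᶜ ∪ {x | 1 / (4 * (2 ^ (Aw a k).w) ^ 3) ≤ (Aw a k).Far x}) := by
    intro x hx
    by_contra hcon
    simp only [Set.mem_union, Set.mem_ofPred_eq, Set.mem_compl_iff, Set.mem_iUnion, not_or, not_le, not_not, not_exists] at hcon
    obtain ⟨⟨⟨c1, c2⟩, c3⟩, c4⟩ := hcon
    apply hx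
    refine ⟨c1, c2, c3, ?_⟩
    intro r t jj i' hr ht hj1 hj2 hi
    have hmem : ((r, t), (jj - 13, i')) ∈ Wt f := by
      rw [mem_Wt]
      exact ⟨⟨by show r < _; omega, by show t < _; omega⟩, by show jj - 13 < _; omega, by show i' < _; omega⟩
    have h5 := c4 ((r, t), (jj - 13, i')) hmem
    have e : Aw a ((r, t), (jj - 13, i')) = a.sh r t jj i' := by
      unfold Aw
      show a.sh r t (13 + (jj - 13)) i' = _
      congr 1; omega
    rw [e] at h5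
    exact h5
  refine (measure_mono hsub).trans ((measure_union_le _ _).trans ?_)
  have m1 := meas_GF hok
  have m2 := meas_Phi hok (f := f) (by omega) hV hs.gs hs.fs (by omega) (t := a.V / 2 ^ (2 * f + 6)) (by positivity)
  have m3 : volume (⋃ k ∈ Wt f, ({x : TT × TT | Gen3 (Aw a k) x}ᶜ ∪ {x | 1 / (4 * (2 ^ (Aw a k).w) ^ 3) ≤ (Aw a k).Far x})) ≤
      ENNReal.ofReal (2 ^ (40 + 4 * f) * (6 / 2 ^ a.w)) := by
    refine (measure_biUnion_finset_le _ _).trans ?_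
    calc _ ≤ ∑ k ∈ Wt f, ENNReal.ofReal (6 / 2 ^ a.w) := by
          apply Finset.sum_le_sum; intro k hk
          rw [mem_Wt] at hk
          exact meas_GF (hs.sh_ok (by omega) (by omega) (by omega) (by omega) (by omega))
      _ = ENNReal.ofReal ((Wt f).card * (6 / 2 ^ a.w)) := by
          rw [Finset.sum_const, nsmul_eq_mul, ENNReal.ofReal_mul (Nat.cast_nonneg _), ENNReal.ofReal_natCast]
      _ ≤ _ := by
          apply ENNReal.ofReal_le_ofReal
          apply mul_le_mul_of_nonneg_right (card_Wt (by omega)) (by positivity)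
  refine (add_le_add ((measure_union_le _ _).trans (add_le_add m1 m2)) m3).trans ?_
  rw [← ENNReal.ofReal_add (by positivity) (by positivity), ← ENNReal.ofReal_add (by positivity) (by positivity)]
  apply ENNReal.ofReal_le_ofReal
  have e1 : a.V * (2 ^ 42 / 2 ^ (128 * f)) / (a.V / 2 ^ (2 * f + 6)) = 2 ^ 48 * 2 ^ (2 * f) / 2 ^ (128 * f) := by
    rw [pow_add 2 (2 * f) 6]; field_simp
  rw [e1, hw]
  have e2 : (1 : ℝ) / 2 ^ (100 * f) = (1 / 4) / 2 ^ (100 * f) + (1 / 4) / 2 ^ (100 * f) + (1 / 4) / 2 ^ (100 * f) + (1 / 4) / 2 ^ (100 * f) := by ring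
  have b1 : (6 : ℝ) / 2 ^ (8192 * f) ≤ (1 / 4) / 2 ^ (100 * f) := by
    rw [div_le_div_iff₀ (by positivity) (by positivity)]
    have h := (pow_le_pow_right₀ (by norm_num) (by omega) : (2 : ℝ) ^ (100 * f + 5) ≤ 2 ^ (8192 * f))
    rw [pow_add] at h
    have hp : (0 : ℝ) ≤ 2 ^ (100 * f) := by positivity
    have h5 : (2 : ℝ) ^ 5 = 32 := by norm_num
    rw [h5] at h
    linarith
  have b2 : (2 : ℝ) ^ 48 * 2 ^ (2 * f) / 2 ^ (128 * f) ≤ (1 / 4) / 2 ^ (100 * f) := by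
    rw [div_le_div_iff₀ (by positivity) (by positivity), ← pow_add, ← pow_add]
    have : (2 : ℝ) ^ (48 + 2 * f + 100 * f + 2) ≤ 2 ^ (128 * f) := pow_le_pow_right₀ (by norm_num) (by omega)
    rw [pow_add 2 (48 + 2 * f + 100 * f) 2] at this
    linarith
  have b3 : (2 : ℝ) ^ (40 + 4 * f) * (6 / 2 ^ (8192 * f)) ≤ (1 / 4) / 2 ^ (100 * f) := by
    rw [mul_div_assoc', div_le_div_iff₀ (by positivity) (by positivity)]
    have : (2 : ℝ) ^ (40 + 4 * f + 100 * f + 5) ≤ 2 ^ (8192 * f) := pow_le_pow_right₀ (by norm_num) (by omega)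
    rw [pow_add 2 (40 + 4 * f + 100 * f) 5, pow_add 2 (40 + 4 * f) (100 * f)] at this
    have hp : (0 : ℝ) ≤ 2 ^ (40 + 4 * f) * 2 ^ (100 * f) := by positivity
    have h5 : (2 : ℝ) ^ 5 = 32 := by norm_num
    rw [h5] at this
    linarith
  have b4 : (0 : ℝ) ≤ (1 / 4) / 2 ^ (100 * f) := by positivity
  linarith

end Run7.h297
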