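import Pool.Agent.Run7.h297.Fejer

set_option autoImplicit false

/-! First moment bounds for generic points of the two dimensional torus. -/

noncomputable section

namespace Run7.h297

open Real Finset MeasureTheory

instance : IsProbabilityMeasure (volume : Measure (TT × TT)) := by
  refine ⟨?_⟩
  rw [Measure.volume_eq_prod, ← Set.univ_prod_univ, Measure.prod_prod]
  simp

theorem markov_tsum (w : ℤ × ℤ → TT × TT → ℝ) (hw0 : ∀ m x, 0 ≤ w m x)
    (hmeas : ∀ m, Measurable (w m)) (hsum : ∀ x, Summable (fun m => w m x))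
    (b : ℤ × ℤ → ℝ) (hb0 : ∀ m, 0 ≤ b m) (hb : ∀ m, ∫⁻ x, ENNReal.ofReal (w m x) ≤ ENNReal.ofReal (b m))
    (hbs : Summable b) {B t : ℝ} (hB : ∑' m, b m ≤ B) (ht : 0 < t) :
    volume {x : TT × TT | t ≤ ∑' m, w m x} ≤ ENNReal.ofReal (B / t) := by
  have h1 : {x : TT × TT | t ≤ ∑' m, w m x} ⊆ {x | ENNReal.ofReal t ≤ ∑' m, ENNReal.ofReal (w m x)} := by
    intro x hx
    simp only [Set.mem_ofPred_eq] at hx ⊢
    rw [← ENNReal.ofReal_tsum_of_nonneg (fun m => hw0 m x) (hsum x)]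
    exact ENNReal.ofReal_le_ofReal hx
  refine (measure_mono h1).trans ?_
  have h2 : ∫⁻ x, ∑' m, ENNReal.ofReal (w m x) ≤ ENNReal.ofReal B := by
    rw [lintegral_tsum (fun m => ((hmeas m).ennreal_ofReal).aemeasurable)]
    refine (ENNReal.tsum_le_tsum hb).trans ?_
    rw [← ENNReal.ofReal_tsum_of_nonneg hb0 hbs]
    exact ENNReal.ofReal_le_ofReal hB
  have h3 := meas_ge_le_lintegral_div (μ := (volume : Measure (TT × TT)))
    (f := fun x => ∑' m, ENNReal.ofReal (w m x)) (ε := ENNReal.ofReal t)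
    (Measurable.tsum (fun m => (hmeas m).ennreal_ofReal)).aemeasurable
    (by simpa using ht) ENNReal.ofReal_ne_top
  refine h3.trans ?_
  rw [ENNReal.ofReal_div_of_pos ht]
  gcongr

theorem lintegral_comp_dm {m : ℤ × ℤ} (hm : m ≠ 0) {f : TT → ENNReal} (hf : Measurable f) :
    ∫⁻ x : TT × TT, f (dm m x) = ∫⁻ θ, f θ :=
  (measurePreserving_dm hm).lintegral_comp hf

theorem lintegral_FQ_dm {m : ℤ × ℤ} (hm : m ≠ 0) {Q : ℕ} (hQ : 0 < Q) {c : ℝ} (hc : 0 ≤ c) :
    ∫⁻ x : TT × TT, ENNReal.ofReal (c * FQ Q (dm m x)) ≤ ENNReal.ofReal c := by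
  have := lintegral_comp_dm hm (f := fun θ => ENNReal.ofReal (c * FQ Q θ))
    ((continuous_FQ Q).measurable.const_mul c).ennreal_ofReal
  rw [this]
  simp_rw [ENNReal.ofReal_mul hc]
  rw [lintegral_const_mul _ (continuous_FQ Q).measurable.ennreal_ofReal, lintegral_FQ hQ, mul_one]

theorem lintegral_FQ_dm_far {m : ℤ × ℤ} (hm : m ≠ 0) {Q : ℕ} (hQ : 0 < Q) {c r : ℝ} (hc : 0 ≤ c)
    (hr : 0 < r) :
    ∫⁻ x : TT × TT, ENNReal.ofReal (if r < ‖dm m x‖ then c * FQ Q (dm m x) else 0) ≤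
      ENNReal.ofReal (c * (2 / (Q * r))) := by
  have hmeas : Measurable (fun θ : TT => if r < ‖θ‖ then FQ Q θ else 0) := by
    apply Measurable.ite
    · exact measurableSet_lt measurable_const measurable_norm
    · exact (continuous_FQ Q).measurable
    · exact measurable_const
  have := lintegral_comp_dm hm (f := fun θ => ENNReal.ofReal (c * (if r < ‖θ‖ then FQ Q θ else 0)))
    (hmeas.const_mul c).ennreal_ofReal
  have e : ∀ x : TT × TT, ENNReal.ofReal (if r < ‖dm m x‖ then c * FQ Q (dm m x) else 0) =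
      ENNReal.ofReal (c * (if r < ‖dm m x‖ then FQ Q (dm m x) else 0)) := by
    intro x; split_ifs <;> simp
  simp_rw [e]
  rw [this]
  simp_rw [ENNReal.ofReal_mul hc]
  rw [lintegral_const_mul _ hmeas.ennreal_ofReal]
  gcongr
  exact lintegral_FQ_far hQ hr

/-- the value at the origin shift -/
theorem hasSum_Sp {Q : ℕ} (hQ : 0 < Q) {δ₁ δ₂ : ℝ} (h₁ : 0 < δ₁) (h₁' : δ₁ ≤ 1 / 2) (h₂ : 0 < δ₂)
    (h₂' : δ₂ ≤ 1 / 2) (x : TT × TT) :
    HasSum (fun m : ℤ × ℤ => cf δ₁ δ₂ m * FQ Q (dm m x)) (SS Q δ₁ δ₂ 0 x 0) := by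
  have := hasSum_SS hQ h₁ h₁' h₂ h₂' 0 x 0
  have e : ∀ m : ℤ × ℤ, ((cf δ₁ δ₂ m * FQ Q (dm m x) : ℝ) : ℂ) * (ch ((0 : ℤ) • dm m x) * ch (-dm m 0)) =
      ((cf δ₁ δ₂ m * FQ Q (dm m x) : ℝ) : ℂ) := by
    intro m
    have : dm m (0 : TT × TT) = 0 := by simp [dm]
    rw [this, zero_smul, neg_zero, ch_zero]; ring
  simp_rw [e] at this
  exact_mod_cast this

theorem summable_w {Q : ℕ} {δ₁ δ₂ : ℝ} (h₁ : 0 < δ₁) (h₁' : δ₁ ≤ 1 / 2) (h₂ : 0 < δ₂)
    (h₂' : δ₂ ≤ 1 / 2) (x : TT × TT) (P : ℤ × ℤ → Prop) [DecidablePred P] :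
    Summable (fun m : ℤ × ℤ => if P m then cf δ₁ δ₂ m * FQ Q (dm m x) else 0) := by
  refine Summable.of_nonneg_of_le ?_ ?_ ((hasSum_cf h₁ h₁' h₂ h₂').summable.mul_right (Q : ℝ))
  · intro m
    split_ifs
    · exact mul_nonneg (cf_nonneg h₁ h₂ m) (FQ_nonneg _ _)
    · exact le_rfl
  · intro m
    have h0 := cf_nonneg h₁ h₂ m
    split_ifs
    · exact mul_le_mul_of_nonneg_left (FQ_le _ _) h0
    · positivity

theorem cf_zero (δ₁ δ₂ : ℝ) : cf δ₁ δ₂ 0 = δ₁ * δ₂ := by simp [cf, th]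

/-- measure of the set where the full sum is large -/
theorem meas_Sp {Q : ℕ} (hQ : 0 < Q) {δ₁ δ₂ : ℝ} (h₁ : 0 < δ₁) (h₁' : δ₁ ≤ 1 / 2) (h₂ : 0 < δ₂)
    (h₂' : δ₂ ≤ 1 / 2) {K : ℝ} (hK : 0 < K) :
    volume {x : TT × TT | K ≤ SS Q δ₁ δ₂ 0 x 0} ≤ ENNReal.ofReal ((1 + Q * (δ₁ * δ₂)) / K) := by
  have hcs := hasSum_cf h₁ h₁' h₂ h₂'
  have h := markov_tsum (fun m x => cf δ₁ δ₂ m * FQ Q (dm m x))
    (fun m x => mul_nonneg (cf_nonneg h₁ h₂ m) (FQ_nonneg _ _))
    (fun m => (((continuous_FQ Q).comp (continuous_dm m)).measurable.const_mul _))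
    (fun x => (hasSum_Sp hQ h₁ h₁' h₂ h₂' x).summable)
    (fun m => cf δ₁ δ₂ m + if m = 0 then Q * (δ₁ * δ₂) else 0)
    (fun m => by have := cf_nonneg h₁ h₂ m; split_ifs <;> positivity)
    (fun m => by
      by_cases hm : m = 0
      · subst hm
        rw [if_pos rfl]
        simp only [dm_zero, FQ_zero, cf_zero]
        rw [lintegral_const, measure_univ, mul_one]
        apply ENNReal.ofReal_le_ofReal
        nlinarith [mul_pos h₁ h₂]
      · rw [if_neg hm, add_zero]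
        exact lintegral_FQ_dm hm hQ (cf_nonneg h₁ h₂ m))
    (hcs.add (hasSum_ite_eq (0 : ℤ × ℤ) ((Q : ℝ) * (δ₁ * δ₂)))).summable
    (B := 1 + Q * (δ₁ * δ₂)) (t := K)
    (hcs.add (hasSum_ite_eq (0 : ℤ × ℤ) ((Q : ℝ) * (δ₁ * δ₂)))).tsum_eq.le hK
  refine le_trans (le_of_eq ?_) h
  congr 1; ext x
  simp only [Set.mem_ofPred_eq]
  rw [(hasSum_Sp hQ h₁ h₁' h₂ h₂' x).tsum_eq]

/-- measure of the set where all nontrivial modes together are large -/
theorem meas_nontriv {Q : ℕ} (hQ : 0 < Q) {δ₁ δ₂ : ℝ} (h₁ : 0 < δ₁) (h₁' : δ₁ ≤ 1 / 2) (h₂ : 0 < δ₂)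
    (h₂' : δ₂ ≤ 1 / 2) {t : ℝ} (ht : 0 < t) :
    volume {x : TT × TT | t ≤ SS Q δ₁ δ₂ 0 x 0 - Q * (δ₁ * δ₂)} ≤ ENNReal.ofReal (1 / t) := by
  have hcs := hasSum_cf h₁ h₁' h₂ h₂'
  have h := markov_tsum (fun m x => if m ≠ 0 then cf δ₁ δ₂ m * FQ Q (dm m x) else 0)
    (fun m x => by
      split_ifs
      · exact mul_nonneg (cf_nonneg h₁ h₂ m) (FQ_nonneg _ _)
      · exact le_rfl)
    (fun m => by
      by_cases hm : m = 0
      · simp [hm]
      · simp only [ne_eq, hm, not_false_eq_true, if_true]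
        exact (((continuous_FQ Q).comp (continuous_dm m)).measurable.const_mul _))
    (fun x => summable_w h₁ h₁' h₂ h₂' x (fun m => m ≠ 0))
    (fun m => cf δ₁ δ₂ m)
    (fun m => cf_nonneg h₁ h₂ m)
    (fun m => by
      by_cases hm : m = 0
      · simp [hm]
      · simp only [ne_eq, hm, not_false_eq_true, if_true]
        exact lintegral_FQ_dm hm hQ (cf_nonneg h₁ h₂ m))
    hcs.summable
    (B := 1) (t := t) hcs.tsum_eq.le ht
  refine le_trans (le_of_eq ?_) h
  congr 1; ext x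
  simp only [Set.mem_ofPred_eq]
  have e : SS Q δ₁ δ₂ 0 x 0 - Q * (δ₁ * δ₂) = ∑' m : ℤ × ℤ, if m ≠ 0 then cf δ₁ δ₂ m * FQ Q (dm m x) else 0 := by
    have a := (hasSum_Sp hQ h₁ h₁' h₂ h₂' x).sub (hasSum_ite_eq (0 : ℤ × ℤ) ((Q : ℝ) * (δ₁ * δ₂)))
    rw [← a.tsum_eq]
    congr 1; ext m
    by_cases hm : m = 0
    · subst hm; simp [cf_zero, dm_zero, FQ_zero]; ring
    · simp [hm]
  rw [e]

/-- measure of the set where many short vectors nearly annihilate the point -/
theorem meas_count (W : Finset (ℤ × ℤ)) (hW : ∀ m ∈ W, m ≠ 0) {ρ t : ℝ} (hρ : 0 ≤ ρ) (ht : 0 < t) :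
    volume {x : TT × TT | t ≤ ((W.filter (fun m => ‖dm m x‖ ≤ ρ)).card : ℝ)} ≤
      ENNReal.ofReal (W.card * (2 * ρ) / t) := by
  have h := markov_tsum (fun m x => if m ∈ W ∧ ‖dm m x‖ ≤ ρ then 1 else 0)
    (fun m x => by split_ifs <;> norm_num)
    (fun m => by
      apply Measurable.ite
      · by_cases hm : m ∈ W
        · simp only [hm, true_and]
          exact measurableSet_le (continuous_dm m).norm.measurable measurable_const
        · simp [hm]
      · exact measurable_const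
      · exact measurable_const)
    (fun x => by
      apply summable_of_ne_finset_zero (s := W)
      intro m hm; simp [hm])
    (fun m => if m ∈ W then 2 * ρ else 0)
    (fun m => by split_ifs <;> positivity)
    (fun m => by
      by_cases hm : m ∈ W
      · simp only [hm, true_and, if_true]
        have h1 := lintegral_comp_dm (hW m hm)
          (f := (Metric.closedBall (0 : TT) ρ).indicator (fun _ => 1))
          (measurable_const.indicator Metric.isClosed_closedBall.measurableSet)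
        have e : ∀ x : TT × TT, ENNReal.ofReal (if ‖dm m x‖ ≤ ρ then 1 else 0) =
            (Metric.closedBall (0 : TT) ρ).indicator (fun _ => 1) (dm m x) := by
          intro x
          by_cases hx : ‖dm m x‖ ≤ ρ
          · rw [if_pos hx, Set.indicator_of_mem (by rw [mem_closedBall_zero_iff]; exact hx)]; simp
          · rw [if_neg hx, Set.indicator_of_notMem (by rw [mem_closedBall_zero_iff]; exact hx)]; simp
        simp_rw [e]
        rw [h1, lintegral_indicator_const Metric.isClosed_closedBall.measurableSet, one_mul,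
          AddCircle.volume_closedBall]
        exact ENNReal.ofReal_le_ofReal (min_le_right _ _)
      · simp [hm])
    (by
      apply summable_of_ne_finset_zero (s := W)
      intro m hm; simp [hm])
    (B := W.card * (2 * ρ)) (t := t)
    (by
      rw [tsum_eq_sum (s := W) (by intro m hm; simp [hm])]
      rw [Finset.sum_ite_mem, Finset.inter_self]; simp)
    ht
  refine le_trans (le_of_eq ?_) h
  congr 1; ext x
  simp only [Set.mem_ofPred_eq]
  have e : ((W.filter (fun m => ‖dm m x‖ ≤ ρ)).card : ℝ) = ∑' m : ℤ × ℤ, if m ∈ W ∧ ‖dm m x‖ ≤ ρ then (1 : ℝ) else 0 := by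
    rw [tsum_eq_sum (s := W) (by intro m hm; simp [hm])]
    rw [Finset.card_filter]
    push_cast
    apply Finset.sum_congr rfl
    intro m hm; simp [hm]
  rw [e]

/-! ### tails of the coefficients -/

theorem sum_th_low {δ : ℝ} (h : 0 < δ) (R : ℕ) :
    ∑' m : ℤ, (if m.natAbs < R then th δ m else 0) ≤ (2 * R + 1) * δ := by
  have hs : ∀ m ∉ Finset.Icc (-(R : ℤ)) R, (if m.natAbs < R then th δ m else 0) = 0 := by
    intro m hm
    rw [Finset.mem_Icc, not_and_or] at hm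
    rw [if_neg]; omega
  rw [tsum_eq_sum hs]
  calc ∑ m ∈ Finset.Icc (-(R : ℤ)) R, (if m.natAbs < R then th δ m else 0)
      ≤ ∑ m ∈ Finset.Icc (-(R : ℤ)) R, δ := by
        apply Finset.sum_le_sum
        intro m _
        split_ifs
        · exact th_le h m
        · exact h.le
    _ = (2 * R + 1) * δ := by
        rw [Finset.sum_const, Int.card_Icc, nsmul_eq_mul]
        have : ((R : ℤ) + 1 - -(R : ℤ)).toNat = 2 * R + 1 := by omega
        rw [this]; push_cast; ring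

theorem summable_th_if {δ : ℝ} (h : 0 < δ) (h' : δ ≤ 1 / 2) (P : ℤ → Prop) [DecidablePred P] :
    Summable (fun m : ℤ => if P m then th δ m else 0) := by
  refine Summable.of_nonneg_of_le ?_ ?_ (hasSum_th h h').summable
  · intro m; split_ifs
    · exact th_nonneg h m
    · exact le_rfl
  · intro m; split_ifs
    · exact le_rfl
    · exact th_nonneg h m

theorem tail_nat {R : ℕ} (hR : 0 < R) (F : Finset ℕ) :
    ∑ n ∈ F, (if R < n then 1 / (n : ℝ) ^ 2 else 0 : ℝ) ≤ 1 / (R : ℝ) := by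
  have key : ∀ N : ℕ, ∑ n ∈ range N, (if R < n then 1 / (n : ℝ) ^ 2 else 0 : ℝ) ≤ 1 / (R : ℝ) - (if R < N then 1 / ((N : ℝ) - 1) else 1 / (R : ℝ) : ℝ) := by
    intro N
    induction N with
    | zero => simp
    | succ N ih =>
      rw [Finset.sum_range_succ]
      have hR' : (0 : ℝ) < R := by exact_mod_cast hR
      rcases lt_trichotomy R N with h | h | h
      · rw [if_pos h] at ih ⊢
        rw [if_pos (by omega)]
        have hN : (1 : ℝ) < N := by exact_mod_cast (by omega : 1 < N)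
        have : 1 / (N : ℝ) ^ 2 ≤ 1 / ((N : ℝ) - 1) - 1 / N := by
          rw [div_sub_div _ _ (by linarith) (by linarith), div_le_div_iff₀ (by positivity) (by nlinarith)]
          nlinarith
        push_cast
        have e : (N : ℝ) + 1 - 1 = N := by ring
        rw [e]; linarith
      · subst h
        rw [if_neg (lt_irrefl _)] at ih ⊢
        rw [if_pos (by omega)]
        push_cast
        have e : (R : ℝ) + 1 - 1 = R := by ring
        rw [e]; linarith
      · rw [if_neg (by omega)] at ih ⊢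
        rw [if_neg (by omega)]
        linarith
  obtain ⟨N, hN⟩ := F.exists_nat_subset_range
  have h1 : ∑ n ∈ F, (if R < n then 1 / (n : ℝ) ^ 2 else 0 : ℝ) ≤ ∑ n ∈ range N, (if R < n then 1 / (n : ℝ) ^ 2 else 0 : ℝ) := by
    apply Finset.sum_le_sum_of_subset_of_nonneg hN
    intro n _ _; split_ifs <;> positivity
  refine h1.trans ((key N).trans ?_)
  split_ifs with h
  · have hN : (1 : ℝ) < N := by exact_mod_cast (by omega : 1 < N)
    have : 0 ≤ 1 / ((N : ℝ) - 1) := by apply one_div_nonneg.mpr; linarith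
    linarith
  · have : (0 : ℝ) ≤ 1 / R := by positivity
    linarith

theorem sum_th_high {δ : ℝ} (h : 0 < δ) (h' : δ ≤ 1 / 2) {R : ℕ} (hR : 0 < R) :
    ∑' m : ℤ, (if R < m.natAbs then th δ m else 0) ≤ 1 / (δ * R) := by
  have hR' : (0 : ℝ) < R := by exact_mod_cast hR
  apply (summable_th_if h h' (fun m => R < m.natAbs)).tsum_le_of_sum_le
  intro s
  have hpi : 9 ≤ π ^ 2 := by nlinarith [Real.pi_gt_three]
  have hpt : ∀ m : ℤ, (if R < m.natAbs then th δ m else 0) ≤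
      (1 / (9 * δ)) * (if R < m.natAbs then 1 / (m.natAbs : ℝ) ^ 2 else 0 : ℝ) := by
    intro m
    split_ifs with hm
    · have hm0 : m ≠ 0 := by omega
      refine (th_le' h hm0).trans ?_
      have e : ((m.natAbs : ℕ) : ℝ) ^ 2 = (m : ℝ) ^ 2 := by
        rw [Nat.cast_natAbs, Int.cast_abs, sq_abs]
      rw [e, ← one_div_mul_one_div_rev, ← one_div_mul_one_div_rev]
      have hm2 : 0 < (m : ℝ) ^ 2 := by positivity
      calc _ = (1 / π ^ 2) * (1 / (m : ℝ) ^ 2 * (1 / δ)) := by ring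
        _ ≤ (1 / 9) * (1 / (m : ℝ) ^ 2 * (1 / δ)) := by
          gcongr
        _ = _ := by ring
    · simp
  refine (Finset.sum_le_sum (fun m _ => hpt m)).trans ?_
  rw [← Finset.mul_sum]
  have h2 : ∑ m ∈ s, (if R < m.natAbs then 1 / (m.natAbs : ℝ) ^ 2 else 0 : ℝ) ≤ 2 * (1 / (R : ℝ)) := by
    have hsub : s ⊆ (s.filter (fun m => 0 ≤ m)) ∪ (s.filter (fun m => m < 0)) := by
      intro m hm
      rw [Finset.mem_union, Finset.mem_filter, Finset.mem_filter]
      rcases le_or_gt 0 m with h | h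
      · left; exact ⟨hm, h⟩
      · right; exact ⟨hm, h⟩
    have hnn : ∀ m : ℤ, 0 ≤ (if R < m.natAbs then 1 / (m.natAbs : ℝ) ^ 2 else 0 : ℝ) := by
      intro m; split_ifs <;> positivity
    have h3 := Finset.sum_le_sum_of_subset_of_nonneg hsub (fun m _ _ => hnn m)
    have h4 := Finset.sum_union_inter (s₁ := s.filter (fun m => 0 ≤ m)) (s₂ := s.filter (fun m => m < 0))
      (f := fun m : ℤ => (if R < m.natAbs then 1 / (m.natAbs : ℝ) ^ 2 else 0 : ℝ))
    have h5 : 0 ≤ ∑ m ∈ (s.filter (fun m => 0 ≤ m)) ∩ (s.filter (fun m => m < 0)), (if R < m.natAbs then 1 / (m.natAbs : ℝ) ^ 2 else 0 : ℝ) :=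
      Finset.sum_nonneg (fun m _ => hnn m)
    have h6 : ∑ m ∈ s.filter (fun m => 0 ≤ m), (if R < m.natAbs then 1 / (m.natAbs : ℝ) ^ 2 else 0 : ℝ) ≤ 1 / (R : ℝ) := by
      refine le_trans (le_of_eq ?_) (tail_nat hR ((s.filter (fun m => 0 ≤ m)).image Int.natAbs))
      rw [Finset.sum_image]
      intro a ha b hb hab
      rw [Finset.mem_coe, Finset.mem_filter] at ha hb
      omega
    have h7 : ∑ m ∈ s.filter (fun m => m < 0), (if R < m.natAbs then 1 / (m.natAbs : ℝ) ^ 2 else 0 : ℝ) ≤ 1 / (R : ℝ) := by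
      refine le_trans (le_of_eq ?_) (tail_nat hR ((s.filter (fun m => m < 0)).image Int.natAbs))
      rw [Finset.sum_image]
      intro a ha b hb hab
      rw [Finset.mem_coe, Finset.mem_filter] at ha hb
      omega
    linarith
  calc _ ≤ (1 / (9 * δ)) * (2 * (1 / R)) := by gcongr
    _ ≤ 1 / (δ * R) := by
      have : 0 < 1 / (R : ℝ) * (1 / δ) := by positivity
      have e : 1 / (δ * R) = 1 / (R : ℝ) * (1 / δ) := by field_simp
      rw [e]
      calc _ = (2 / 9) * (1 / (R : ℝ) * (1 / δ)) := by field_simp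
        _ ≤ _ := by linarith

/-! ### the part of the spectrum away from the resonant box -/

/-- the resonant modes at `x` -/
def Near (Rl Rh R2 : ℕ) (r : ℝ) (x : TT × TT) (m : ℤ × ℤ) : Prop :=
  Rl ≤ m.1.natAbs ∧ m.1.natAbs ≤ Rh ∧ m.2.natAbs ≤ R2 ∧ ‖dm m x‖ ≤ r

instance (Rl Rh R2 : ℕ) (r : ℝ) (x : TT × TT) : DecidablePred (Near Rl Rh R2 r x) := by
  intro m; unfold Near; infer_instance

/-- total weight of nonzero modes that are not resonant -/
def Rest (Q : ℕ) (δ₁ δ₂ : ℝ) (Rl Rh R2 : ℕ) (r : ℝ) (x : TT × TT) : ℝ :=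
  ∑' m : ℤ × ℤ, if m ≠ 0 ∧ ¬ Near Rl Rh R2 r x m then cf δ₁ δ₂ m * FQ Q (dm m x) else 0

theorem tsum_cf_fst {δ₁ δ₂ : ℝ} (h₁ : 0 < δ₁) (h₁' : δ₁ ≤ 1 / 2) (h₂ : 0 < δ₂) (h₂' : δ₂ ≤ 1 / 2)
    (P : ℤ → Prop) [DecidablePred P] :
    HasSum (fun m : ℤ × ℤ => if P m.1 then cf δ₁ δ₂ m else 0) (∑' m : ℤ, if P m then th δ₁ m else 0) := by
  have a := (summable_th_if h₁ h₁' P).hasSum
  have b := hasSum_th h₂ h₂'
  have := a.mul b (a.summable.mul_of_nonneg b.summable
    (fun m => by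
      show 0 ≤ (if P m then th δ₁ m else 0)
      split_ifs
      · exact th_nonneg h₁ m
      · exact le_rfl)
    (fun m => th_nonneg h₂ m))
  rw [mul_one] at this
  refine this.congr_fun ?_
  intro m
  unfold cf
  split_ifs <;> simp

theorem tsum_cf_snd {δ₁ δ₂ : ℝ} (h₁ : 0 < δ₁) (h₁' : δ₁ ≤ 1 / 2) (h₂ : 0 < δ₂) (h₂' : δ₂ ≤ 1 / 2)
    (P : ℤ → Prop) [DecidablePred P] :
    HasSum (fun m : ℤ × ℤ => if P m.2 then cf δ₁ δ₂ m else 0) (∑' m : ℤ, if P m then th δ₂ m else 0) := by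
  have a := hasSum_th h₁ h₁'
  have b := (summable_th_if h₂ h₂' P).hasSum
  have := a.mul b (a.summable.mul_of_nonneg b.summable
    (fun m => th_nonneg h₁ m)
    (fun m => by
      show 0 ≤ (if P m then th δ₂ m else 0)
      split_ifs
      · exact th_nonneg h₂ m
      · exact le_rfl))
  rw [one_mul] at this
  refine this.congr_fun ?_
  intro m
  unfold cf
  split_ifs <;> simp

theorem meas_Rest {Q : ℕ} (hQ : 0 < Q) {δ₁ δ₂ : ℝ} (h₁ : 0 < δ₁) (h₁' : δ₁ ≤ 1 / 2) (h₂ : 0 < δ₂)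
    (h₂' : δ₂ ≤ 1 / 2) {Rl Rh R2 : ℕ} (hRh : 0 < Rh) (hR2 : 0 < R2) {r : ℝ} (hr : 0 < r) {t : ℝ} (ht : 0 < t) :
    volume {x : TT × TT | t ≤ Rest Q δ₁ δ₂ Rl Rh R2 r x} ≤
      ENNReal.ofReal (((2 * Rl + 1) * δ₁ + 1 / (δ₁ * Rh) + 1 / (δ₂ * R2) + 2 / (Q * r)) / t) := by
  have b1 := tsum_cf_fst h₁ h₁' h₂ h₂' (fun m => m.natAbs < Rl)
  have b2 := tsum_cf_fst h₁ h₁' h₂ h₂' (fun m => Rh < m.natAbs)
  have b3 := tsum_cf_snd h₁ h₁' h₂ h₂' (fun m => R2 < m.natAbs)
  have b4 := (hasSum_cf h₁ h₁' h₂ h₂').mul_right (2 / (Q * r))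
  have b := ((b1.add b2).add b3).add b4
  have c1 := sum_th_low h₁ Rl
  have c2 := sum_th_high h₁ h₁' hRh
  have c3 := sum_th_high h₂ h₂' hR2
  have hQr : (0 : ℝ) ≤ 2 / (Q * r) := by positivity
  refine markov_tsum (fun m x => if m ≠ 0 ∧ ¬ Near Rl Rh R2 r x m then cf δ₁ δ₂ m * FQ Q (dm m x) else 0)
    (fun m x => by
      split_ifs
      · exact mul_nonneg (cf_nonneg h₁ h₂ m) (FQ_nonneg _ _)
      · exact le_rfl)
    (fun m => by
      apply Measurable.ite
      · by_cases hm : m = 0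
        · simp [hm]
        · simp only [ne_eq, hm, not_false_eq_true, true_and]
          unfold Near
          by_cases h1 : Rl ≤ m.1.natAbs ∧ m.1.natAbs ≤ Rh ∧ m.2.natAbs ≤ R2
          · simp only [h1, true_and, not_le]
            exact measurableSet_lt measurable_const (continuous_dm m).norm.measurable
          · have : ∀ x : TT × TT, (Rl ≤ m.1.natAbs ∧ m.1.natAbs ≤ Rh ∧ m.2.natAbs ≤ R2 ∧ ‖dm m x‖ ≤ r) ↔ False := by
              intro x; simp only [iff_false]; intro h; exact h1 ⟨h.1, h.2.1, h.2.2.1⟩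
            simp [this]
      · exact (((continuous_FQ Q).comp (continuous_dm m)).measurable.const_mul _)
      · exact measurable_const)
    (fun x => summable_w h₁ h₁' h₂ h₂' x (fun m => m ≠ 0 ∧ ¬ Near Rl Rh R2 r x m))
    _ (fun m => by
      have h0 := cf_nonneg h₁ h₂ m
      split_ifs <;> positivity)
    (fun m => ?_) b.summable (by rw [b.tsum_eq]; linarith) ht
  have h0 := cf_nonneg h₁ h₂ m
  have h0' : 0 ≤ cf δ₁ δ₂ m * (2 / (Q * r)) := by positivity
  by_cases hm : m = 0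
  · simp [hm]
  by_cases h1 : m.1.natAbs < Rl
  · calc _ ≤ ∫⁻ x : TT × TT, ENNReal.ofReal (cf δ₁ δ₂ m * FQ Q (dm m x)) := by
          apply lintegral_mono; intro x
          apply ENNReal.ofReal_le_ofReal
          split_ifs
          · exact le_rfl
          · exact mul_nonneg h0 (FQ_nonneg _ _)
      _ ≤ ENNReal.ofReal (cf δ₁ δ₂ m) := lintegral_FQ_dm hm hQ h0
      _ ≤ _ := by
          apply ENNReal.ofReal_le_ofReal
          rw [if_pos h1]
          split_ifs <;> linarith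
  by_cases h2 : Rh < m.1.natAbs
  · calc _ ≤ ∫⁻ x : TT × TT, ENNReal.ofReal (cf δ₁ δ₂ m * FQ Q (dm m x)) := by
          apply lintegral_mono; intro x
          apply ENNReal.ofReal_le_ofReal
          split_ifs
          · exact le_rfl
          · exact mul_nonneg h0 (FQ_nonneg _ _)
      _ ≤ ENNReal.ofReal (cf δ₁ δ₂ m) := lintegral_FQ_dm hm hQ h0
      _ ≤ _ := by
          apply ENNReal.ofReal_le_ofReal
          rw [if_pos h2]
          split_ifs <;> linarith
  by_cases h3 : R2 < m.2.natAbs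
  · calc _ ≤ ∫⁻ x : TT × TT, ENNReal.ofReal (cf δ₁ δ₂ m * FQ Q (dm m x)) := by
          apply lintegral_mono; intro x
          apply ENNReal.ofReal_le_ofReal
          split_ifs
          · exact le_rfl
          · exact mul_nonneg h0 (FQ_nonneg _ _)
      _ ≤ ENNReal.ofReal (cf δ₁ δ₂ m) := lintegral_FQ_dm hm hQ h0
      _ ≤ _ := by
          apply ENNReal.ofReal_le_ofReal
          rw [if_pos h3]
          split_ifs <;> linarith
  · rw [if_neg h1, if_neg h2, if_neg h3]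
    simp only [zero_add]
    refine le_trans (lintegral_mono ?_) (lintegral_FQ_dm_far hm hQ h0 hr)
    intro x
    apply ENNReal.ofReal_le_ofReal
    by_cases hx : r < ‖dm m x‖
    · rw [if_pos hx]
      split_ifs
      · exact le_rfl
      · exact mul_nonneg h0 (FQ_nonneg _ _)
    · rw [if_neg hx, if_neg]
      intro h
      apply h.2
      exact ⟨by omega, by omega, by omega, not_lt.mp hx⟩

end Run7.h297
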