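import Pool.Agent.Run7.h297.Orth

set_option autoImplicit false

/-! A second moment bound for the number of small return times. -/

noncomputable section

namespace Run7.h297

open Real Finset MeasureTheory

/-- counting solutions of a linear equation in differences -/
theorem count_pairs {K d d' : ℕ} (hd : 0 < d) (hle : d' ≤ d) :
    (((PP K ×ˢ PP K).filter (fun z => df z.1 * (d : ℤ) + df z.2 * (d' : ℤ) = 0)).card : ℝ) ≤
      (K : ℝ) ^ 2 * (1 + 2 * K * (Nat.gcd d d' : ℝ) / d) := by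
  classical
  set g := Nat.gcd d d' with hg
  have hg0 : 0 < g := Nat.gcd_pos_of_pos_left _ hd
  obtain ⟨D, hD⟩ : g ∣ d := Nat.gcd_dvd_left _ _
  obtain ⟨D', hD'⟩ : g ∣ d' := Nat.gcd_dvd_right _ _
  have hD0 : 0 < D := by
    rcases Nat.eq_zero_or_pos D with h | h
    · rw [h, mul_zero] at hD; omega
    · exact h
  have hcop : Nat.Coprime D D' := by
    have := Nat.coprime_div_gcd_div_gcd (m := d) (n := d') hg0
    rw [← hg] at this
    have e1 : d / g = D := by rw [hD, Nat.mul_div_cancel_left _ hg0]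
    have e2 : d' / g = D' := by rw [hD', Nat.mul_div_cancel_left _ hg0]
    rwa [e1, e2] at this
  have hcopZ : IsCoprime (D : ℤ) (D' : ℤ) := Nat.isCoprime_iff_coprime.mpr hcop
  have hgZ : (g : ℤ) ≠ 0 := by exact_mod_cast hg0.ne'
  have hDZ : (D : ℤ) ≠ 0 := by exact_mod_cast hD0.ne'
  set F := (PP K ×ˢ PP K).filter (fun z => df z.1 * (d : ℤ) + df z.2 * (d' : ℤ) = 0) with hF
  have hdv : ∀ z ∈ F, ∃ t : ℤ, df z.1 = D' * t ∧ df z.2 = - (D * t) := by
    intro z hz
    rw [hF, Finset.mem_filter] at hz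
    have h1 := hz.2
    rw [hD, hD'] at h1
    push_cast at h1
    have h2 : (g : ℤ) * (df z.1 * D + df z.2 * D') = 0 := by linarith
    have h3 := (mul_eq_zero.mp h2).resolve_left hgZ
    have h4 : (D : ℤ) ∣ df z.2 * D' := ⟨-df z.1, by linarith⟩
    have h5 : (D : ℤ) ∣ df z.2 := hcopZ.dvd_of_dvd_mul_right h4
    obtain ⟨t, ht⟩ := h5
    refine ⟨-t, ?_, ?_⟩
    · rw [ht] at h3
      have h6 : (D : ℤ) * (df z.1 + t * D') = 0 := by linarith
      have h7 := (mul_eq_zero.mp h6).resolve_left hDZ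
      linarith
    · rw [ht]; ring
  set T : Finset ℤ := Finset.Icc (-((K / D : ℕ) : ℤ)) ((K / D : ℕ) : ℤ) with hT
  have hinj : F.card ≤ (T ×ˢ (range K ×ˢ range K)).card := by
    apply Finset.card_le_card_of_injOn (fun z => (df z.2 / (D : ℤ), (z.1.2, z.2.2)))
    · intro z hz
      rw [Finset.mem_coe] at hz
      obtain ⟨t, ht1, ht2⟩ := hdv z hz
      rw [hF, Finset.mem_filter, Finset.mem_product] at hz
      obtain ⟨⟨z1, z2⟩, _⟩ := hz
      have a2 := abs_df_lt z2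
      unfold PP at z1 z2
      rw [Finset.mem_product, Finset.mem_range, Finset.mem_range] at z1 z2
      rw [Finset.mem_coe, Finset.mem_product, Finset.mem_product, Finset.mem_range, Finset.mem_range]
      refine ⟨?_, z1.2, z2.2⟩
      dsimp only
      have e : df z.2 / (D : ℤ) = -t := by
        rw [ht2]
        have : -((D : ℤ) * t) = D * (-t) := by ring
        rw [this, Int.mul_ediv_cancel_left _ hDZ]
      rw [e, hT, Finset.mem_Icc]
      rw [ht2, abs_neg, abs_mul, Nat.abs_cast] at a2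
      have h5 : t.natAbs ≤ K / D := by
        rw [Nat.le_div_iff_mul_le hD0]
        have h6 : ((t.natAbs * D : ℕ) : ℤ) < K := by
          push_cast; linarith
        have h7 : t.natAbs * D < K := by exact_mod_cast h6
        exact h7.le
      generalize K / D = E at h5 ⊢
      omega
    · intro x hx y hy hxy
      rw [Finset.mem_coe] at hx hy
      obtain ⟨t, ht1, ht2⟩ := hdv x hx
      obtain ⟨s, hs1, hs2⟩ := hdv y hy
      simp only [Prod.mk.injEq] at hxy
      obtain ⟨e1, e2, e3⟩ := hxy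
      have f1 : -((D : ℤ) * t) = D * (-t) := by ring
      have f2 : -((D : ℤ) * s) = D * (-s) := by ring
      rw [ht2, hs2, f1, f2, Int.mul_ediv_cancel_left _ hDZ, Int.mul_ediv_cancel_left _ hDZ] at e1
      have ets : t = s := by omega
      subst ets
      have g1 : df x.1 = df y.1 := by rw [ht1, hs1]
      have g2 : df x.2 = df y.2 := by rw [ht2, hs2]
      unfold df at g1 g2
      exact Prod.ext (Prod.ext (by omega) e2) (Prod.ext (by omega) e3)
  rw [Finset.card_product, Finset.card_product, card_range] at hinj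
  have hTc : T.card = 2 * (K / D) + 1 := by
    rw [hT, Int.card_Icc]; omega
  rw [hTc] at hinj
  have hinj' : (F.card : ℝ) ≤ (2 * ((K / D : ℕ) : ℝ) + 1) * (K * K) := by exact_mod_cast hinj
  refine hinj'.trans ?_
  have hd' : (0 : ℝ) < d := by exact_mod_cast hd
  have hD0' : (0 : ℝ) < D := by exact_mod_cast hD0
  have hg0' : (0 : ℝ) < g := by exact_mod_cast hg0
  have e1 : ((K / D : ℕ) : ℝ) ≤ K * g / d := by
    have h1 : ((K / D : ℕ) : ℝ) ≤ (K : ℝ) / D := Nat.cast_div_le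
    refine h1.trans (le_of_eq ?_)
    rw [hD]; push_cast; field_simp
  have e2 : 2 * (K : ℝ) * g / d = 2 * (K * g / d) := by ring
  rw [e2]
  have hK0 : (0 : ℝ) ≤ (K : ℝ) * K := by positivity
  nlinarith

/-- the basic correlation bound on the circle -/
theorem meas_pair {K : ℕ} (hK : 0 < K) {r : ℝ} (hr : r ≤ 1 / (16 * K)) {d d' : ℕ} (hd : 0 < d) (hle : d' ≤ d) :
    volume {θ : TT | ‖d • θ‖ ≤ r ∧ ‖d' • θ‖ ≤ r} ≤ ENNReal.ofReal (16 / (K : ℝ) ^ 2 + 32 * (Nat.gcd d d' : ℝ) / (K * d)) := by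
  have hK' : (0 : ℝ) < K := by exact_mod_cast hK
  have hd0' : (0 : ℝ) < d := by exact_mod_cast hd
  set f : TT → ℝ := fun θ => (K * FQ K (d • θ)) * (K * FQ K (d' • θ)) with hf
  have hfc : Continuous f := by
    rw [hf]
    exact (continuous_const.mul ((continuous_FQ K).comp (continuous_const_smul d))).mul
      (continuous_const.mul ((continuous_FQ K).comp (continuous_const_smul d')))
  have hf0 : ∀ θ, 0 ≤ f θ := fun θ => mul_nonneg (mul_nonneg hK'.le (FQ_nonneg _ _)) (mul_nonneg hK'.le (FQ_nonneg _ _))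
  have hint : Integrable f := by
    apply Continuous.integrable_of_hasCompactSupport hfc
    exact HasCompactSupport.of_compactSpace _
  have hI : ∫ θ, f θ ≤ (K : ℝ) ^ 2 * (1 + 2 * K * (Nat.gcd d d' : ℝ) / d) := by
    have e : ∀ θ, ((f θ : ℝ) : ℂ) = ∑ z ∈ PP K ×ˢ PP K, ch ((df z.1 * (d : ℤ) + df z.2 * (d' : ℤ)) • θ) := by
      intro θ
      rw [hf]; dsimp only
      rw [Complex.ofReal_mul, ← FQ_expand', ← FQ_expand', Finset.sum_mul_sum, Finset.sum_product]
      apply Finset.sum_congr rfl; intro p _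
      apply Finset.sum_congr rfl; intro q _
      rw [← ch_add, add_smul, mul_smul, mul_smul, natCast_zsmul, natCast_zsmul]
    have e2 : ((∫ θ, f θ : ℝ) : ℂ) = (((PP K ×ˢ PP K).filter (fun z => df z.1 * (d : ℤ) + df z.2 * (d' : ℤ) = 0)).card : ℂ) := by
      rw [← integral_complex_ofReal]
      simp_rw [e]
      rw [integral_finset_sum _ (fun z _ => integrable_ch _)]
      simp_rw [integral_ch]
      rw [← Finset.sum_filter, Finset.sum_const, nsmul_eq_mul, mul_one]
    have e3 : ∫ θ, f θ = (((PP K ×ˢ PP K).filter (fun z => df z.1 * (d : ℤ) + df z.2 * (d' : ℤ) = 0)).card : ℝ) := by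
      exact_mod_cast e2
    rw [e3]
    exact count_pairs hd hle
  have hsub : {θ : TT | ‖d • θ‖ ≤ r ∧ ‖d' • θ‖ ≤ r} ⊆ {θ | (K : ℝ) ^ 4 / 16 ≤ f θ} := by
    intro θ hθ
    have h1 := FQ_lower hK (hθ.1.trans hr)
    have h2 := FQ_lower hK (hθ.2.trans hr)
    simp only [Set.mem_setOf_eq]
    rw [hf]; dsimp only
    have h3 : (K : ℝ) * (K / 4) ≤ K * FQ K (d • θ) := mul_le_mul_of_nonneg_left h1 hK'.le
    have h4 : (K : ℝ) * (K / 4) ≤ K * FQ K (d' • θ) := mul_le_mul_of_nonneg_left h2 hK'.le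
    calc (K : ℝ) ^ 4 / 16 = (K * (K / 4)) * (K * (K / 4)) := by ring
      _ ≤ _ := mul_le_mul h3 h4 (by positivity) (mul_nonneg hK'.le (FQ_nonneg _ _))
  refine (measure_mono hsub).trans ?_
  have hmk := mul_meas_ge_le_integral_of_nonneg (Filter.Eventually.of_forall hf0) hint ((K : ℝ) ^ 4 / 16)
  have hK4 : (0 : ℝ) < (K : ℝ) ^ 4 / 16 := by positivity
  have hfinm : volume {θ : TT | (K : ℝ) ^ 4 / 16 ≤ f θ} ≠ ⊤ := measure_ne_top _ _
  rw [← ENNReal.ofReal_toReal hfinm]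
  apply ENNReal.ofReal_le_ofReal
  have h3 : (K : ℝ) ^ 4 / 16 * (volume {θ : TT | (K : ℝ) ^ 4 / 16 ≤ f θ}).toReal ≤ (K : ℝ) ^ 2 * (1 + 2 * K * (Nat.gcd d d' : ℝ) / d) :=
    hmk.trans hI
  have h4 : (volume {θ : TT | (K : ℝ) ^ 4 / 16 ≤ f θ}).toReal ≤ ((K : ℝ) ^ 2 * (1 + 2 * K * (Nat.gcd d d' : ℝ) / d)) / ((K : ℝ) ^ 4 / 16) := by
    rw [le_div_iff₀ hK4]; linarith
  refine h4.trans (le_of_eq ?_)
  field_simp
  ring

/-! ### sums of greatest common divisors -/

theorem gcd_sum1 (d : ℕ) (hd : 0 < d) : ∑ d' ∈ Finset.Icc 1 d, (Nat.gcd d d' : ℝ) / d ≤ ∑ f ∈ Nat.divisors d, (1 : ℝ) := by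
  have hd' : (0 : ℝ) < d := by exact_mod_cast hd
  have h1 : ∀ d' ∈ Finset.Icc 1 d, (Nat.gcd d d' : ℝ) ≤ ∑ e ∈ Nat.divisors d, (if e ∣ d' then (e : ℝ) else 0) := by
    intro d' _
    have hg : Nat.gcd d d' ∈ Nat.divisors d := Nat.mem_divisors.mpr ⟨Nat.gcd_dvd_left _ _, hd.ne'⟩
    have := Finset.single_le_sum (f := fun e : ℕ => if e ∣ d' then (e : ℝ) else 0) (fun e _ => by split_ifs <;> positivity) hg
    rw [if_pos (Nat.gcd_dvd_right _ _)] at this
    exact this
  rw [← Finset.sum_div, div_le_iff₀ hd']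
  refine (Finset.sum_le_sum h1).trans ?_
  rw [Finset.sum_comm, Finset.sum_mul]
  apply Finset.sum_le_sum; intro e he
  rw [Nat.mem_divisors] at he
  have he0 : 0 < e := Nat.pos_of_dvd_of_pos he.1 hd
  have he0' : (0 : ℝ) < e := by exact_mod_cast he0
  rw [← Finset.sum_filter, Finset.sum_const, nsmul_eq_mul, one_mul]
  have hc : ((Finset.Icc 1 d).filter (fun d' => e ∣ d')).card = d / e := by
    have := Nat.Ioc_filter_dvd_card_eq_div d e
    rw [← this]; congr 1
  rw [hc]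
  calc ((d / e : ℕ) : ℝ) * e ≤ (d / e : ℝ) * e := by
        apply mul_le_mul_of_nonneg_right _ he0'.le
        exact Nat.cast_div_le
    _ = d := by field_simp

theorem gcd_sum2 (d : ℕ) (hd : 0 < d) : ∑ d' ∈ Finset.Icc 1 d, ((Nat.gcd d d' : ℝ) / d) ^ 2 ≤ ∑ f ∈ Nat.divisors d, (1 : ℝ) / f := by
  have hd' : (0 : ℝ) < d := by exact_mod_cast hd
  have h1 : ∀ d' ∈ Finset.Icc 1 d, ((Nat.gcd d d' : ℝ) / d) ^ 2 ≤ ∑ e ∈ Nat.divisors d, (if e ∣ d' then ((e : ℝ) / d) ^ 2 else 0) := by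
    intro d' _
    have hg : Nat.gcd d d' ∈ Nat.divisors d := Nat.mem_divisors.mpr ⟨Nat.gcd_dvd_left _ _, hd.ne'⟩
    have := Finset.single_le_sum (f := fun e : ℕ => if e ∣ d' then ((e : ℝ) / d) ^ 2 else 0) (fun e _ => by split_ifs <;> positivity) hg
    rw [if_pos (Nat.gcd_dvd_right _ _)] at this
    exact this
  refine (Finset.sum_le_sum h1).trans ?_
  rw [Finset.sum_comm]
  have h2 : ∑ e ∈ Nat.divisors d, ∑ d' ∈ Finset.Icc 1 d, (if e ∣ d' then ((e : ℝ) / d) ^ 2 else 0) ≤ ∑ e ∈ Nat.divisors d, ((e : ℝ) / d) := by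
    apply Finset.sum_le_sum; intro e he
    rw [Nat.mem_divisors] at he
    have he0 : 0 < e := Nat.pos_of_dvd_of_pos he.1 hd
    have he0' : (0 : ℝ) < e := by exact_mod_cast he0
    rw [← Finset.sum_filter, Finset.sum_const, nsmul_eq_mul]
    have hc : ((Finset.Icc 1 d).filter (fun d' => e ∣ d')).card = d / e := by
      have := Nat.Ioc_filter_dvd_card_eq_div d e
      rw [← this]; congr 1
    rw [hc]
    calc ((d / e : ℕ) : ℝ) * ((e : ℝ) / d) ^ 2 ≤ (d / e : ℝ) * ((e : ℝ) / d) ^ 2 := by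
          apply mul_le_mul_of_nonneg_right _ (by positivity)
          exact Nat.cast_div_le
      _ = (e : ℝ) / d := by field_simp
  refine h2.trans (le_of_eq ?_)
  have h3 := Nat.sum_div_divisors d (fun e : ℕ => (1 : ℝ) / e)
  rw [← h3]
  apply Finset.sum_congr rfl; intro e he
  rw [Nat.mem_divisors] at he
  have he0 : 0 < e := Nat.pos_of_dvd_of_pos he.1 hd
  have he0' : (0 : ℝ) < e := by exact_mod_cast he0
  rw [Nat.cast_div he.1 he0'.ne']
  field_simp

theorem div_sum (N : ℕ) (w : ℕ → ℝ) (hw : ∀ f, 0 ≤ w f) :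
    ∑ d ∈ Finset.Icc 1 N, ∑ f ∈ Nat.divisors d, w f ≤ ∑ f ∈ Finset.Icc 1 N, w f * (N / f) := by
  have h1 : ∀ d ∈ Finset.Icc 1 N, ∑ f ∈ Nat.divisors d, w f ≤ ∑ f ∈ Finset.Icc 1 N, (if f ∣ d then w f else 0) := by
    intro d hd
    rw [Finset.mem_Icc] at hd
    rw [← Finset.sum_filter]
    apply Finset.sum_le_sum_of_subset_of_nonneg
    · intro f hf
      rw [Nat.mem_divisors] at hf
      rw [Finset.mem_filter, Finset.mem_Icc]
      have := Nat.le_of_dvd (by omega) hf.1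
      have h0 := Nat.pos_of_dvd_of_pos hf.1 (by omega)
      exact ⟨⟨h0, by omega⟩, hf.1⟩
    · intro f _ _; exact hw f
  refine (Finset.sum_le_sum h1).trans ?_
  rw [Finset.sum_comm]
  apply Finset.sum_le_sum; intro f hf
  rw [Finset.mem_Icc] at hf
  have hf' : (0 : ℝ) < f := by exact_mod_cast hf.1
  rw [← Finset.sum_filter, Finset.sum_const, nsmul_eq_mul]
  have hc : ((Finset.Icc 1 N).filter (fun d' => f ∣ d')).card = N / f := by
    have := Nat.Ioc_filter_dvd_card_eq_div N f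
    rw [← this]; congr 1
  rw [hc, mul_comm]
  apply mul_le_mul_of_nonneg_left _ (hw f)
  exact Nat.cast_div_le

theorem tot2 (N : ℕ) : ∑ d ∈ Finset.Icc 1 N, ∑ d' ∈ Finset.Icc 1 d, ((Nat.gcd d d' : ℝ) / d) ^ 2 ≤ 2 * N := by
  calc _ ≤ ∑ d ∈ Finset.Icc 1 N, ∑ f ∈ Nat.divisors d, (1 : ℝ) / f := by
        apply Finset.sum_le_sum; intro d hd
        rw [Finset.mem_Icc] at hd
        exact gcd_sum2 d (by omega)
    _ ≤ ∑ f ∈ Finset.Icc 1 N, (1 : ℝ) / f * (N / f) := div_sum N (fun f => (1 : ℝ) / f) (fun f => by positivity)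
    _ = N * ∑ f ∈ Finset.Icc 1 N, 1 / (f : ℝ) ^ 2 := by
        rw [Finset.mul_sum]
        apply Finset.sum_congr rfl; intro f _
        ring
    _ ≤ N * 2 := by
        apply mul_le_mul_of_nonneg_left _ (Nat.cast_nonneg _)
        have e : ∑ f ∈ Finset.Icc 1 N, 1 / (f : ℝ) ^ 2 = 1 * (if 1 ≤ N then 1 else 0) + ∑ f ∈ Finset.Icc 1 N, (if 1 < f then 1 / (f : ℝ) ^ 2 else 0) := by
          by_cases hN : 1 ≤ N
          · rw [if_pos hN]
            have hmem : 1 ∈ Finset.Icc 1 N := Finset.mem_Icc.mpr ⟨le_rfl, hN⟩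
            rw [← Finset.add_sum_erase _ _ hmem, ← Finset.add_sum_erase (Finset.Icc 1 N) (fun f : ℕ => if 1 < f then 1 / (f : ℝ) ^ 2 else 0) hmem]
            rw [if_neg (lt_irrefl _)]
            have : ∑ f ∈ (Finset.Icc 1 N).erase 1, 1 / (f : ℝ) ^ 2 = ∑ f ∈ (Finset.Icc 1 N).erase 1, (if 1 < f then 1 / (f : ℝ) ^ 2 else 0) := by
              apply Finset.sum_congr rfl; intro f hf
              rw [Finset.mem_erase, Finset.mem_Icc] at hf
              rw [if_pos (by omega)]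
            rw [this]; norm_num
          · rw [if_neg hN, Finset.Icc_eq_empty (by omega)]; simp
        rw [e]
        have := tail_nat (R := 1) one_pos (Finset.Icc 1 N)
        have h2 : (1 : ℝ) * (if 1 ≤ N then 1 else 0) ≤ 1 := by split_ifs <;> norm_num
        norm_num at this ⊢
        norm_num at h2
        linarith
    _ = 2 * N := by ring

theorem tot1 (N : ℕ) : ∑ d ∈ Finset.Icc 1 N, ∑ d' ∈ Finset.Icc 1 d, ((Nat.gcd d d' : ℝ) / d) ≤ N * (1 + Real.log N) := by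
  calc _ ≤ ∑ d ∈ Finset.Icc 1 N, ∑ f ∈ Nat.divisors d, (1 : ℝ) := by
        apply Finset.sum_le_sum; intro d hd
        rw [Finset.mem_Icc] at hd
        exact gcd_sum1 d (by omega)
    _ ≤ ∑ f ∈ Finset.Icc 1 N, (1 : ℝ) * (N / f) := div_sum N (fun _ => (1 : ℝ)) (fun f => by positivity)
    _ = N * ∑ f ∈ Finset.Icc 1 N, ((f : ℝ))⁻¹ := by
        rw [Finset.mul_sum]
        apply Finset.sum_congr rfl; intro f _
        rw [one_mul, div_eq_mul_inv]
    _ ≤ _ := by
        apply mul_le_mul_of_nonneg_left _ (Nat.cast_nonneg _)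
        have h3 := harmonic_le_one_add_log N
        rw [harmonic_eq_sum_Icc] at h3
        push_cast at h3
        exact h3

end Run7.h297
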