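import Pool.Agent.Run7.h297.Mix
import Pool.Agent.Run7.h297.Tame

set_option autoImplicit false

/-! The second moment on the grid. -/

noncomputable section

namespace Run7.h297

open Real Finset MeasureTheory

/-- simultaneous return -/
def RetS (r1 r2 : ℝ) (d : ℕ) : Set (TT × TT) := {x | ‖d • x.1‖ ≤ r1 ∧ ‖d • x.2‖ ≤ r2}

theorem measurable_RetS (r1 r2 : ℝ) (d : ℕ) : MeasurableSet (RetS r1 r2 d) := by
  apply MeasurableSet.inter
  · exact measurableSet_le ((continuous_const_smul d).comp continuous_fst).norm.measurable measurable_const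
  · exact measurableSet_le ((continuous_const_smul d).comp continuous_snd).norm.measurable measurable_const

open Classical in
/-- number of returns -/
def nret (r1 r2 : ℝ) (N : ℕ) (x : TT × TT) : ℝ := ∑ d ∈ Finset.Icc 1 N, if x ∈ RetS r1 r2 d then 1 else 0

theorem nret_nonneg (r1 r2 : ℝ) (N : ℕ) (x : TT × TT) : 0 ≤ nret r1 r2 N x := by
  unfold nret
  apply Finset.sum_nonneg; intro d _; split_ifs <;> norm_num

open Classical in
theorem measurable_nret (r1 r2 : ℝ) (N : ℕ) : Measurable (nret r1 r2 N) := by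
  unfold nret
  apply Finset.measurable_sum; intro d _
  exact Measurable.ite (measurable_RetS r1 r2 d) measurable_const measurable_const

theorem meas_two {K1 K2 : ℕ} (hK1 : 0 < K1) (hK2 : 0 < K2) {r1 r2 : ℝ} (h1 : r1 ≤ 1 / (16 * K1)) (h2 : r2 ≤ 1 / (16 * K2))
    {d d' : ℕ} (hd : 0 < d) (hle : d' ≤ d) :
    volume (RetS r1 r2 d ∩ RetS r1 r2 d') ≤ ENNReal.ofReal ((16 / (K1 : ℝ) ^ 2 + 32 * (Nat.gcd d d' : ℝ) / (K1 * d)) *
      (16 / (K2 : ℝ) ^ 2 + 32 * (Nat.gcd d d' : ℝ) / (K2 * d))) := by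
  have e : RetS r1 r2 d ∩ RetS r1 r2 d' = {θ : TT | ‖d • θ‖ ≤ r1 ∧ ‖d' • θ‖ ≤ r1} ×ˢ {θ : TT | ‖d • θ‖ ≤ r2 ∧ ‖d' • θ‖ ≤ r2} := by
    ext x
    unfold RetS
    simp only [Set.mem_inter_iff, Set.mem_setOf_eq, Set.mem_prod]
    tauto
  rw [e, Measure.volume_eq_prod, Measure.prod_prod, ENNReal.ofReal_mul (by positivity)]
  exact mul_le_mul' (meas_pair hK1 h1 hd hle) (meas_pair hK2 h2 hd hle)

open Classical in
theorem lint_nret {K1 K2 : ℕ} (hK1 : 0 < K1) (hK2 : 0 < K2) {r1 r2 : ℝ} (h1 : r1 ≤ 1 / (16 * K1)) (h2 : r2 ≤ 1 / (16 * K2)) (N : ℕ) :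
    ∫⁻ x, ENNReal.ofReal (nret r1 r2 N x ^ 2) ≤ ENNReal.ofReal (2 * (256 * ((N : ℝ) / (K1 * K2)) ^ 2 +
      512 * ((N : ℝ) / (K1 * K2)) * ((1 + Real.log N) * (1 / K1 + 1 / K2)) + 2048 * ((N : ℝ) / (K1 * K2)))) := by
  have hK1' : (0 : ℝ) < K1 := by exact_mod_cast hK1
  have hK2' : (0 : ℝ) < K2 := by exact_mod_cast hK2
  have hpt : ∀ x, ENNReal.ofReal (nret r1 r2 N x ^ 2) ≤ 2 * ∑ d ∈ Finset.Icc 1 N, ∑ d' ∈ Finset.Icc 1 d,
      (RetS r1 r2 d ∩ RetS r1 r2 d').indicator (fun _ => (1 : ENNReal)) x := by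
    intro x
    obtain ⟨b, hb⟩ : ∃ b : ℕ → ℝ, b = fun d => if x ∈ RetS r1 r2 d then 1 else 0 := ⟨_, rfl⟩
    have hb0 : ∀ d, 0 ≤ b d := by intro d; rw [hb]; dsimp only; split_ifs <;> norm_num
    have h3 : nret r1 r2 N x ^ 2 ≤ 2 * ∑ d ∈ Finset.Icc 1 N, ∑ d' ∈ Finset.Icc 1 d, b d * b d' := by
      have e1 : nret r1 r2 N x = ∑ d ∈ Finset.Icc 1 N, b d := by rw [hb]; rfl
      rw [e1, sq, Finset.sum_mul_sum]
      have e2 : ∑ d ∈ Finset.Icc 1 N, ∑ d' ∈ Finset.Icc 1 N, b d * b d' ≤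
          ∑ d ∈ Finset.Icc 1 N, ∑ d' ∈ Finset.Icc 1 N, ((if d' ≤ d then b d * b d' else 0) + (if d ≤ d' then b d * b d' else 0)) := by
        apply Finset.sum_le_sum; intro d _
        apply Finset.sum_le_sum; intro d' _
        have := mul_nonneg (hb0 d) (hb0 d')
        rcases le_total d d' with h | h
        · rw [if_pos h]; split_ifs <;> linarith
        · rw [if_pos h]; split_ifs <;> linarith
      refine e2.trans ?_
      simp_rw [Finset.sum_add_distrib]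
      have e3 : ∑ d ∈ Finset.Icc 1 N, ∑ d' ∈ Finset.Icc 1 N, (if d' ≤ d then b d * b d' else 0) ≤
          ∑ d ∈ Finset.Icc 1 N, ∑ d' ∈ Finset.Icc 1 d, b d * b d' := by
        apply Finset.sum_le_sum; intro d _
        rw [← Finset.sum_filter]
        apply Finset.sum_le_sum_of_subset_of_nonneg
        · intro d' hd'
          rw [Finset.mem_filter, Finset.mem_Icc] at hd'
          rw [Finset.mem_Icc]; exact ⟨hd'.1.1, hd'.2⟩
        · intro d' _ _; exact mul_nonneg (hb0 _) (hb0 _)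
      have e4 : ∑ d ∈ Finset.Icc 1 N, ∑ d' ∈ Finset.Icc 1 N, (if d ≤ d' then b d * b d' else 0) =
          ∑ d ∈ Finset.Icc 1 N, ∑ d' ∈ Finset.Icc 1 N, (if d' ≤ d then b d * b d' else 0) := by
        rw [Finset.sum_comm]
        apply Finset.sum_congr rfl; intro d _
        apply Finset.sum_congr rfl; intro d' _
        rw [mul_comm]
      rw [e4]
      linarith
    have h4 : (2 : ENNReal) * ∑ d ∈ Finset.Icc 1 N, ∑ d' ∈ Finset.Icc 1 d,
        (RetS r1 r2 d ∩ RetS r1 r2 d').indicator (fun _ => (1 : ENNReal)) x =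
        ENNReal.ofReal (2 * ∑ d ∈ Finset.Icc 1 N, ∑ d' ∈ Finset.Icc 1 d, b d * b d') := by
      rw [ENNReal.ofReal_mul (by norm_num), ENNReal.ofReal_sum_of_nonneg
        (fun d _ => Finset.sum_nonneg (fun d' _ => mul_nonneg (hb0 _) (hb0 _)))]
      have : ENNReal.ofReal 2 = 2 := by simp
      rw [this]
      congr 1
      apply Finset.sum_congr rfl; intro d _
      rw [ENNReal.ofReal_sum_of_nonneg (fun d' _ => mul_nonneg (hb0 _) (hb0 _))]
      apply Finset.sum_congr rfl; intro d' _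
      rw [Set.indicator_apply, hb]
      dsimp only
      by_cases c1 : x ∈ RetS r1 r2 d
      · by_cases c2 : x ∈ RetS r1 r2 d'
        · rw [if_pos ⟨c1, c2⟩, if_pos c1, if_pos c2]; simp
        · rw [if_neg (fun hh => c2 hh.2), if_neg c2]; simp
      · rw [if_neg (fun hh => c1 hh.1), if_neg c1]; simp
    rw [h4]
    exact ENNReal.ofReal_le_ofReal h3
  refine (lintegral_mono hpt).trans ?_
  have hms : ∀ d d' : ℕ, Measurable ((RetS r1 r2 d ∩ RetS r1 r2 d').indicator (fun _ : TT × TT => (1 : ENNReal))) :=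
    fun d d' => measurable_const.indicator ((measurable_RetS r1 r2 d).inter (measurable_RetS r1 r2 d'))
  rw [lintegral_const_mul' _ _ (by simp), lintegral_finset_sum _ (fun d _ => Finset.measurable_sum _ (fun d' _ => hms d d'))]
  have h5 : ∑ d ∈ Finset.Icc 1 N, ∫⁻ x, ∑ d' ∈ Finset.Icc 1 d, (RetS r1 r2 d ∩ RetS r1 r2 d').indicator (fun _ => (1 : ENNReal)) x ≤
      ENNReal.ofReal (∑ d ∈ Finset.Icc 1 N, ∑ d' ∈ Finset.Icc 1 d, ((16 / (K1 : ℝ) ^ 2 + 32 * (Nat.gcd d d' : ℝ) / (K1 * d)) *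
      (16 / (K2 : ℝ) ^ 2 + 32 * (Nat.gcd d d' : ℝ) / (K2 * d)))) := by
    rw [ENNReal.ofReal_sum_of_nonneg (fun d _ => Finset.sum_nonneg (fun d' _ => by positivity))]
    apply Finset.sum_le_sum; intro d hd
    rw [Finset.mem_Icc] at hd
    rw [lintegral_finset_sum _ (fun d' _ => hms d d'), ENNReal.ofReal_sum_of_nonneg (fun d' _ => by positivity)]
    apply Finset.sum_le_sum; intro d' hd'
    rw [Finset.mem_Icc] at hd'
    rw [lintegral_indicator ((measurable_RetS r1 r2 d).inter (measurable_RetS r1 r2 d')), setLIntegral_one]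
    exact meas_two hK1 hK2 h1 h2 (by omega) hd'.2
  have h6 : ∑ d ∈ Finset.Icc 1 N, ∑ d' ∈ Finset.Icc 1 d, ((16 / (K1 : ℝ) ^ 2 + 32 * (Nat.gcd d d' : ℝ) / (K1 * d)) *
      (16 / (K2 : ℝ) ^ 2 + 32 * (Nat.gcd d d' : ℝ) / (K2 * d))) ≤ 256 * ((N : ℝ) / (K1 * K2)) ^ 2 +
      512 * ((N : ℝ) / (K1 * K2)) * ((1 + Real.log N) * (1 / K1 + 1 / K2)) + 2048 * ((N : ℝ) / (K1 * K2)) := by
    have e1 : ∀ d ∈ Finset.Icc 1 N, ∀ d' ∈ Finset.Icc 1 d, ((16 / (K1 : ℝ) ^ 2 + 32 * (Nat.gcd d d' : ℝ) / (K1 * d)) *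
      (16 / (K2 : ℝ) ^ 2 + 32 * (Nat.gcd d d' : ℝ) / (K2 * d))) = 256 / ((K1 : ℝ) * K2) ^ 2 +
      (512 * ((1 / ((K1 : ℝ) * K2)) * (1 / K1 + 1 / K2))) * ((Nat.gcd d d' : ℝ) / d) +
      (1024 / ((K1 : ℝ) * K2)) * ((Nat.gcd d d' : ℝ) / d) ^ 2 := by
      intro d hd d' _
      rw [Finset.mem_Icc] at hd
      have : (0 : ℝ) < d := by exact_mod_cast hd.1
      field_simp
      ring
    rw [Finset.sum_congr rfl (fun d hd => Finset.sum_congr rfl (fun d' hd' => e1 d hd d' hd'))]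
    simp_rw [Finset.sum_add_distrib, ← Finset.mul_sum]
    have t1 := tot1 N
    have t2 := tot2 N
    have t0 : ∑ d ∈ Finset.Icc 1 N, ∑ d' ∈ Finset.Icc 1 d, 256 / ((K1 : ℝ) * K2) ^ 2 ≤ 256 * ((N : ℝ) / (K1 * K2)) ^ 2 := by
      have : ∀ d ∈ Finset.Icc 1 N, ∑ d' ∈ Finset.Icc 1 d, 256 / ((K1 : ℝ) * K2) ^ 2 ≤ N * (256 / ((K1 : ℝ) * K2) ^ 2) := by
        intro d hd
        rw [Finset.mem_Icc] at hd
        rw [Finset.sum_const, nsmul_eq_mul, Nat.card_Icc]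
        have : ((d + 1 - 1 : ℕ) : ℝ) ≤ N := by
          have : d + 1 - 1 ≤ N := by omega
          exact_mod_cast this
        gcongr
      refine (Finset.sum_le_sum this).trans (le_of_eq ?_)
      rw [Finset.sum_const, nsmul_eq_mul, Nat.card_Icc]
      have : ((N + 1 - 1 : ℕ) : ℝ) = N := by norm_num
      rw [this]
      field_simp
    have c1 : 0 ≤ 512 * ((1 / ((K1 : ℝ) * K2)) * (1 / K1 + 1 / K2)) := by positivity
    have c2 : 0 ≤ (1024 / ((K1 : ℝ) * K2)) := by positivity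
    have u1 := mul_le_mul_of_nonneg_left t1 c1
    have u2 := mul_le_mul_of_nonneg_left t2 c2
    have v1 : 512 * ((1 / ((K1 : ℝ) * K2)) * (1 / K1 + 1 / K2)) * (N * (1 + Real.log N)) =
        512 * ((N : ℝ) / (K1 * K2)) * ((1 + Real.log N) * (1 / K1 + 1 / K2)) := by ring
    have v2 : (1024 / ((K1 : ℝ) * K2)) * (2 * N) = 2048 * ((N : ℝ) / (K1 * K2)) := by ring
    rw [v1] at u1
    rw [v2] at u2
    linarith
  have e2 : (2 : ENNReal) = ENNReal.ofReal 2 := by simp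
  rw [e2, ENNReal.ofReal_mul (by norm_num)]
  gcongr
  exact h5.trans (ENNReal.ofReal_le_ofReal h6)

section

variable {a : AP} (h : a.Ok)

include h

/-- the constant of the second moment -/
theorem lint_h : ∫⁻ x, ENNReal.ofReal (nret (2 * a.d1) (2 * a.d2) (2 * 2 ^ a.σ) x ^ 2) ≤ ENNReal.ofReal (2 ^ 32 * a.V) := by
  have hg5 : a.w + 10 ≤ a.g := by have := h.hg; have := h.hk; have := h.hw; omega
  have hf5 : a.w + 10 ≤ a.f := by have := h.hf; have := h.hk; have := h.hw; omega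
  have hb := lint_nret (K1 := 2 ^ (a.g - 5)) (K2 := 2 ^ (a.f - 5)) (by positivity) (by positivity) (r1 := 2 * a.d1) (r2 := 2 * a.d2)
    (by
      unfold AP.d1; push_cast
      have : (2 : ℝ) ^ a.g = 2 ^ (a.g - 5) * 32 := by
        rw [show (32 : ℝ) = 2 ^ 5 by norm_num, ← pow_add]; congr 1; omega
      rw [this, mul_one_div, div_le_div_iff₀ (by positivity) (by positivity)]
      have : (0 : ℝ) < 2 ^ (a.g - 5) := by positivity
      linarith)
    (by
      unfold AP.d2; push_cast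
      have : (2 : ℝ) ^ a.f = 2 ^ (a.f - 5) * 32 := by
        rw [show (32 : ℝ) = 2 ^ 5 by norm_num, ← pow_add]; congr 1; omega
      rw [this, mul_one_div, div_le_div_iff₀ (by positivity) (by positivity)]
      have : (0 : ℝ) < 2 ^ (a.f - 5) := by positivity
      linarith) (2 * 2 ^ a.σ)
  refine hb.trans (ENNReal.ofReal_le_ofReal ?_)
  obtain ⟨hV1, hV2⟩ := V_bd h
  have hV0 : 0 < a.V := lt_of_lt_of_le (by positivity) hV1
  have e1 : (((2 * 2 ^ a.σ : ℕ)) : ℝ) / ((((2 ^ (a.g - 5) : ℕ)) : ℝ) * ((2 ^ (a.f - 5) : ℕ) : ℝ)) = 2048 * a.V := by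
    push_cast
    unfold AP.V AP.d1 AP.d2
    have h1 : (2 : ℝ) ^ a.g = 2 ^ (a.g - 5) * 32 := by
      rw [show (32 : ℝ) = 2 ^ 5 by norm_num, ← pow_add]; congr 1; omega
    have h2 : (2 : ℝ) ^ a.f = 2 ^ (a.f - 5) * 32 := by
      rw [show (32 : ℝ) = 2 ^ 5 by norm_num, ← pow_add]; congr 1; omega
    rw [h1, h2]
    field_simp
    ring
  rw [e1]
  have hlog : (1 + Real.log (((2 * 2 ^ a.σ : ℕ)) : ℝ)) * (1 / (((2 ^ (a.g - 5) : ℕ)) : ℝ) + 1 / (((2 ^ (a.f - 5) : ℕ)) : ℝ)) ≤ 1 := by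
    push_cast
    have hl : Real.log 2 ≤ 1 := by have := Real.log_two_lt_d9; linarith
    have h1 : 1 + Real.log (2 * 2 ^ a.σ) ≤ 2 ^ (a.w + 1) := by
      rw [← pow_succ', Real.log_pow]
      have h2 : (((a.σ + 1 : ℕ)) : ℝ) * Real.log 2 ≤ ((a.σ + 1 : ℕ) : ℝ) * 1 := by gcongr
      have h3 : a.σ + 1 + 1 ≤ 2 ^ a.w := by
        have := h.hlg; have := h.he0; have := h.hk; have := h.hw; omega
      have h4 : (((a.σ + 1 + 1 : ℕ)) : ℝ) ≤ 2 ^ a.w := by exact_mod_cast h3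
      have h5 : (2 : ℝ) ^ (a.w + 1) = 2 ^ a.w * 2 := by rw [pow_succ]
      have h6 : (0 : ℝ) < 2 ^ a.w := by positivity
      push_cast at h2 h4 ⊢
      rw [h5]
      linarith
    have h0 : 0 ≤ 1 + Real.log (2 * 2 ^ a.σ) := by
      have : 0 ≤ Real.log (2 * 2 ^ a.σ) := by
        apply Real.log_nonneg
        have : (1 : ℝ) ≤ 2 ^ a.σ := one_le_pow₀ (by norm_num)
        linarith
      linarith
    have h2 : 1 / (2 : ℝ) ^ (a.g - 5) ≤ 1 / 2 ^ (a.w + 2) := by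
      apply one_div_le_one_div_of_le (by positivity)
      exact pow_le_pow_right₀ (by norm_num) (by omega)
    have h3 : 1 / (2 : ℝ) ^ (a.f - 5) ≤ 1 / 2 ^ (a.w + 2) := by
      apply one_div_le_one_div_of_le (by positivity)
      exact pow_le_pow_right₀ (by norm_num) (by omega)
    calc (1 + Real.log (2 * 2 ^ a.σ)) * (1 / 2 ^ (a.g - 5) + 1 / 2 ^ (a.f - 5)) ≤
        2 ^ (a.w + 1) * (1 / 2 ^ (a.w + 2) + 1 / 2 ^ (a.w + 2)) := by gcongr
      _ = 1 := by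
        rw [pow_succ 2 (a.w + 1)]; field_simp; norm_num
  have hcomb : 512 * (2048 * a.V) * ((1 + Real.log (((2 * 2 ^ a.σ : ℕ)) : ℝ)) * (1 / (((2 ^ (a.g - 5) : ℕ)) : ℝ) + 1 / (((2 ^ (a.f - 5) : ℕ)) : ℝ))) ≤
      512 * (2048 * a.V) * 1 := by
    apply mul_le_mul_of_nonneg_left hlog (by positivity)
  have hsq : (2048 * a.V) ^ 2 ≤ 4194304 * a.V := by nlinarith
  have e32 : (2 : ℝ) ^ 32 = 4294967296 := by norm_num
  rw [e32]
  linarith

/-- average of the squares over the grid -/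
theorem meas_grid {t : ℝ} (ht : 0 < t) :
    volume {x : TT × TT | t ≤ (1 / ((a.N1 : ℝ) * a.N2)) * ∑ u ∈ range a.N1, ∑ v ∈ range a.N2,
      nret (2 * a.d1) (2 * a.d2) (2 * 2 ^ a.σ) (x + a.gp u v) ^ 2} ≤ ENNReal.ofReal (2 ^ 32 * a.V / t) := by
  have n1pos : 0 < a.N1 := by unfold AP.N1; positivity
  have n2pos : 0 < a.N2 := by unfold AP.N2; positivity
  have hm : ∀ u v : ℕ, Measurable (fun x : TT × TT => nret (2 * a.d1) (2 * a.d2) (2 * 2 ^ a.σ) (x + a.gp u v) ^ 2) := by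
    intro u v
    exact ((measurable_nret _ _ _).comp (measurable_id.add measurable_const)).pow_const 2
  have hl := lint_avg n1pos n2pos (fun u v x => nret (2 * a.d1) (2 * a.d2) (2 * 2 ^ a.σ) (x + a.gp u v) ^ 2)
    (fun u v x => sq_nonneg _) hm (b := 2 ^ 32 * a.V) (by
      intro u _ v _
      have := lint_shift (a.gp u v) (fun x => ENNReal.ofReal (nret (2 * a.d1) (2 * a.d2) (2 * 2 ^ a.σ) x ^ 2))
      rw [this]
      exact lint_h h)
  have hmk := meas_ge_le_lintegral_div (μ := (volume : Measure (TT × TT))) (f := fun x => ENNReal.ofReal ((1 / ((a.N1 : ℝ) * a.N2)) * ∑ u ∈ range a.N1, ∑ v ∈ range a.N2,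
      nret (2 * a.d1) (2 * a.d2) (2 * 2 ^ a.σ) (x + a.gp u v) ^ 2)) (ε := ENNReal.ofReal t)
    ((Measurable.const_mul (Finset.measurable_sum _ (fun u _ => Finset.measurable_sum _ (fun v _ => hm u v))) _).ennreal_ofReal.aemeasurable)
    (by rw [ne_eq, ENNReal.ofReal_eq_zero, not_le]; exact ht) ENNReal.ofReal_ne_top
  refine (measure_mono ?_).trans (hmk.trans ?_)
  · intro x hx
    simp only [Set.mem_setOf_eq] at hx ⊢
    exact ENNReal.ofReal_le_ofReal hx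
  · rw [ENNReal.ofReal_div_of_pos ht]
    exact ENNReal.div_le_div_right hl _

end

end Run7.h297
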