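import Pool.Agent.Run7.h297.CaseTwo
import Pool.Agent.Run7.h297.TameB

set_option autoImplicit false

/-! Many returns produce either a short relation or a return of higher quality. -/

noncomputable section

namespace Run7.h297

open Real Finset MeasureTheory

theorem norm_nsmul_coe (d : ℕ) (a : ℝ) : ‖d • ((a : ℝ) : TT)‖ = |d * a - round (d * a)| := by
  have e : d • ((a : ℝ) : TT) = ((d * a : ℝ) : TT) := by
    rw [← nsmul_eq_mul]; rfl
  rw [e]; exact UnitAddCircle.norm_eq (x := d * a)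

theorem cross_bound {d D p1 p2 q1 q2 a1 a2 N r1 r2 : ℝ} (hd0 : 0 ≤ d) (hd : d ≤ N) (hD0 : 0 ≤ D) (hD : D ≤ N)
    (h1 : |d * a1 - p1| ≤ r1) (h2 : |d * a2 - p2| ≤ r2) (g1 : |D * a1 - q1| ≤ r1) (g2 : |D * a2 - q2| ≤ r2) :
    |p2 * D - d * q2| ≤ 2 * N * r2 ∧ |d * q1 - p1 * D| ≤ 2 * N * r1 ∧
    |(p1 * q2 - p2 * q1) + (p2 * D - d * q2) * a1 + (d * q1 - p1 * D) * a2| ≤ 2 * r1 * r2 := by
  have r10 : 0 ≤ r1 := (abs_nonneg _).trans h1
  have r20 : 0 ≤ r2 := (abs_nonneg _).trans h2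
  refine ⟨?_, ?_, ?_⟩
  · have e : p2 * D - d * q2 = d * (D * a2 - q2) - D * (d * a2 - p2) := by ring
    rw [e]
    refine (abs_sub _ _).trans ?_
    rw [abs_mul, abs_mul, abs_of_nonneg hd0, abs_of_nonneg hD0]
    have u1 : d * |D * a2 - q2| ≤ N * r2 := mul_le_mul hd g2 (abs_nonneg _) (hd0.trans hd)
    have u2 : D * |d * a2 - p2| ≤ N * r2 := mul_le_mul hD h2 (abs_nonneg _) (hd0.trans hd)
    linarith
  · have e : d * q1 - p1 * D = D * (d * a1 - p1) - d * (D * a1 - q1) := by ring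
    rw [e]
    refine (abs_sub _ _).trans ?_
    rw [abs_mul, abs_mul, abs_of_nonneg hd0, abs_of_nonneg hD0]
    have u1 : d * |D * a1 - q1| ≤ N * r1 := mul_le_mul hd g1 (abs_nonneg _) (hd0.trans hd)
    have u2 : D * |d * a1 - p1| ≤ N * r1 := mul_le_mul hD h1 (abs_nonneg _) (hd0.trans hd)
    linarith
  · have e : (p1 * q2 - p2 * q1) + (p2 * D - d * q2) * a1 + (d * q1 - p1 * D) * a2 =
        (d * a1 - p1) * (D * a2 - q2) - (d * a2 - p2) * (D * a1 - q1) := by ring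
    rw [e]
    refine (abs_sub _ _).trans ?_
    rw [abs_mul, abs_mul]
    have u1 : |d * a1 - p1| * |D * a2 - q2| ≤ r1 * r2 := mul_le_mul h1 g2 (abs_nonneg _) r10
    have u2 : |d * a2 - p2| * |D * a1 - q1| ≤ r2 * r1 := mul_le_mul h2 g1 (abs_nonneg _) r20
    linarith

theorem geo {x : TT × TT} {r1 r2 : ℝ} {N J : ℕ} (hJ : 1 ≤ J) (hn : (J : ℝ) < nret r1 r2 N x) :
    (∃ m : ℤ × ℤ, m ≠ 0 ∧ |(m.1 : ℝ)| ≤ 2 * N * r2 ∧ |(m.2 : ℝ)| ≤ 2 * N * r1 ∧ ‖dm m x‖ ≤ 2 * r1 * r2) ∨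
    (∃ d : ℕ, 1 ≤ d ∧ d * J < N ∧ x ∈ RetS (r1 / J) (r2 / J) d) := by
  classical
  obtain ⟨a1, ha1⟩ := QuotientAddGroup.mk_surjective x.1
  obtain ⟨a2, ha2⟩ := QuotientAddGroup.mk_surjective x.2
  have hx : x = (((a1 : ℝ) : TT), ((a2 : ℝ) : TT)) := Prod.ext ha1.symm ha2.symm
  by_cases hA : ∃ m : ℤ × ℤ, m ≠ 0 ∧ |(m.1 : ℝ)| ≤ 2 * N * r2 ∧ |(m.2 : ℝ)| ≤ 2 * N * r1 ∧ ‖dm m x‖ ≤ 2 * r1 * r2
  · left; exact hA
  right
  set R : Finset ℕ := (Finset.Icc 1 N).filter (fun d => x ∈ RetS r1 r2 d) with hR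
  have hcard : J + 1 ≤ R.card := by
    have e : nret r1 r2 N x = (R.card : ℝ) := by unfold nret; rw [Finset.sum_boole]
    rw [e] at hn
    have : J < R.card := by exact_mod_cast hn
    omega
  have hne : R.Nonempty := Finset.card_pos.mp (by omega)
  obtain ⟨D, hDR, hmax⟩ := R.exists_max_image (fun d => d) hne
  have hret : ∀ d ∈ R, (1 ≤ d ∧ d ≤ N) ∧ |(d : ℝ) * a1 - round ((d : ℝ) * a1)| ≤ r1 ∧ |(d : ℝ) * a2 - round ((d : ℝ) * a2)| ≤ r2 := by
    intro d hd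
    rw [hR, Finset.mem_filter, Finset.mem_Icc] at hd
    refine ⟨hd.1, ?_, ?_⟩
    · have := hd.2.1
      rw [hx] at this
      rwa [← norm_nsmul_coe]
    · have := hd.2.2
      rw [hx] at this
      rwa [← norm_nsmul_coe]
  obtain ⟨⟨hD1, hDN⟩, hDe1, hDe2⟩ := hret D hDR
  have hDpos : (0 : ℝ) < D := by exact_mod_cast hD1
  have hprop : ∀ d ∈ R, (round ((d : ℝ) * a1)) * (D : ℤ) = d * round ((D : ℝ) * a1) ∧
      (round ((d : ℝ) * a2)) * (D : ℤ) = d * round ((D : ℝ) * a2) := by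
    intro d hd
    obtain ⟨⟨hd1, hdN⟩, he1, he2⟩ := hret d hd
    obtain ⟨c1, c2, c3⟩ := cross_bound (N := (N : ℝ)) (Nat.cast_nonneg d) (by exact_mod_cast hdN) (Nat.cast_nonneg D) (by exact_mod_cast hDN) he1 he2 hDe1 hDe2
    set P1 := round ((d : ℝ) * a1)
    set P2 := round ((d : ℝ) * a2)
    set Q1 := round ((D : ℝ) * a1)
    set Q2 := round ((D : ℝ) * a2)
    by_contra hcon
    apply hA
    refine ⟨(P2 * D - d * Q2, d * Q1 - P1 * D), ?_, ?_, ?_, ?_⟩
    · intro h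
      rw [Prod.mk_eq_zero] at h
      apply hcon
      constructor <;> omega
    · push_cast; exact c1
    · push_cast; exact c2
    · rw [hx, dm_coe]
      have h5 := norm_coe_le (((P2 * D - d * Q2 : ℤ) : ℝ) * a1 + ((d * Q1 - P1 * D : ℤ) : ℝ) * a2) (-(P1 * Q2 - P2 * Q1))
      refine h5.trans ?_
      push_cast
      refine le_trans (le_of_eq ?_) c3
      congr 1; ring
  set U : Finset ℕ := insert 0 (R.erase D) with hU
  have h0R : 0 ∉ R.erase D := by
    intro h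
    have := (hret 0 (Finset.mem_of_mem_erase h)).1.1
    omega
  have hUcard : J < U.card := by
    rw [hU, Finset.card_insert_of_notMem h0R, Finset.card_erase_of_mem hDR]; omega
  have hUlt : ∀ e ∈ U, e < D := by
    intro e he
    rw [hU, Finset.mem_insert, Finset.mem_erase] at he
    rcases he with he | ⟨h1, h2⟩
    · omega
    · have := hmax e h2; omega
  have hUp : ∀ e ∈ U, (round ((e : ℝ) * a1)) * (D : ℤ) = e * round ((D : ℝ) * a1) ∧
      (round ((e : ℝ) * a2)) * (D : ℤ) = e * round ((D : ℝ) * a2) := by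
    intro e he
    rw [hU, Finset.mem_insert] at he
    rcases he with he | he
    · rw [he]; simp
    · exact hprop e (Finset.mem_of_mem_erase he)
  have hpig : ∃ e ∈ U, ∃ e' ∈ U, e ≠ e' ∧ e * J / D = e' * J / D := by
    apply Finset.exists_ne_map_eq_of_card_lt_of_maps_to (t := range J) (by rw [card_range]; exact hUcard)
    intro e he
    rw [Finset.mem_coe] at he
    rw [Finset.mem_coe, Finset.mem_range]
    rw [Nat.div_lt_iff_lt_mul (by omega)]
    have := hUlt e he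
    have hJ0 : 0 < J := by omega
    rw [Nat.mul_comm]
    exact Nat.mul_lt_mul_of_pos_left this hJ0
  have hkey : ∀ e ∈ U, ∀ e' ∈ U, e < e' → e * J / D = e' * J / D → ∃ d : ℕ, 1 ≤ d ∧ d * J < N ∧ x ∈ RetS (r1 / J) (r2 / J) d := by
    intro e he e' he' hlt heq
    have hdJ : (e' - e) * J < D := by
      have a1 := Nat.div_mul_le_self (e * J) D
      have a2 := Nat.lt_div_mul_add (a := e' * J) (b := D) (by omega)
      rw [← heq] at a2
      rw [Nat.sub_mul]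
      omega
    refine ⟨e' - e, by omega, by omega, ?_⟩
    obtain ⟨p1, p2⟩ := hUp e he
    obtain ⟨q1, q2⟩ := hUp e' he'
    have hJ' : (0 : ℝ) < J := by exact_mod_cast (by omega : 0 < J)
    have hdr : ((e' - e : ℕ) : ℝ) = (e' : ℝ) - e := by rw [Nat.cast_sub hlt.le]
    have hdJr : ((e' : ℝ) - e) * J ≤ D := by
      have : (((e' - e) * J : ℕ) : ℝ) ≤ D := by exact_mod_cast hdJ.le
      rw [Nat.cast_mul, hdr] at this; exact this
    have hde : (0 : ℝ) ≤ (e' : ℝ) - e := by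
      have : (e : ℝ) ≤ e' := by exact_mod_cast hlt.le
      linarith
    have hgen : ∀ (a r : ℝ), (round ((e : ℝ) * a)) * (D : ℤ) = e * round ((D : ℝ) * a) → (round ((e' : ℝ) * a)) * (D : ℤ) = e' * round ((D : ℝ) * a) →
        |(D : ℝ) * a - round ((D : ℝ) * a)| ≤ r → ‖(e' - e : ℕ) • ((a : ℝ) : TT)‖ ≤ r / J := by
      intro a r g1 g2 g3
      have g1' : ((round ((e : ℝ) * a) : ℤ) : ℝ) * D = e * ((round ((D : ℝ) * a) : ℤ) : ℝ) := by exact_mod_cast g1
      have g2' : ((round ((e' : ℝ) * a) : ℤ) : ℝ) * D = e' * ((round ((D : ℝ) * a) : ℤ) : ℝ) := by exact_mod_cast g2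
      have r0 : 0 ≤ r := (abs_nonneg _).trans g3
      have es : (e' - e : ℕ) • ((a : ℝ) : TT) = ((((e' - e : ℕ) : ℝ) * a : ℝ) : TT) := by
        rw [← nsmul_eq_mul]; rfl
      rw [es]
      refine (norm_coe_le _ (round ((e' : ℝ) * a) - round ((e : ℝ) * a))).trans ?_
      push_cast
      rw [hdr]
      have e5 : ((e' : ℝ) - e) * a - (((round ((e' : ℝ) * a) : ℤ) : ℝ) - ((round ((e : ℝ) * a) : ℤ) : ℝ)) =
          (((e' : ℝ) - e) / D) * ((D : ℝ) * a - round ((D : ℝ) * a)) := by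
        have h6 : ((round ((e' : ℝ) * a) : ℤ) : ℝ) = e' * ((round ((D : ℝ) * a) : ℤ) : ℝ) / D := by
          rw [eq_div_iff hDpos.ne']; exact g2'
        have h7 : ((round ((e : ℝ) * a) : ℤ) : ℝ) = e * ((round ((D : ℝ) * a) : ℤ) : ℝ) / D := by
          rw [eq_div_iff hDpos.ne']; exact g1'
        rw [h6, h7]; field_simp
      rw [e5, abs_mul, abs_of_nonneg (div_nonneg hde hDpos.le)]
      calc ((e' : ℝ) - e) / D * |(D : ℝ) * a - round ((D : ℝ) * a)| ≤ ((e' : ℝ) - e) / D * r := by gcongr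
        _ ≤ (1 / J) * r := by
          apply mul_le_mul_of_nonneg_right _ r0
          rw [div_le_div_iff₀ hDpos hJ']; linarith
        _ = r / J := by ring
    constructor
    · have := hgen a1 r1 p1 q1 hDe1
      rw [hx]; exact this
    · have := hgen a2 r2 p2 q2 hDe2
      rw [hx]; exact this
  obtain ⟨e, he, e', he', hne', heq⟩ := hpig
  rcases lt_or_gt_of_ne hne' with h | h
  · exact hkey e he e' he' h heq
  · exact hkey e' he' e he h heq.symm

end Run7.h297
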