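import Pool.Agent.Run7.h297.Generic

set_option autoImplicit false

/-! Sums of Fejer kernels along progressions and a bound for sums over four cycles. -/

noncomputable section

namespace Run7.h297

open Real Finset MeasureTheory

theorem norm_coe_eq_abs2 {v : ℝ} (h : |v| ≤ 1 / 2) : ‖(v : TT)‖ = |v| := by
  rw [AddCircle.norm_coe_eq_abs_iff 1 one_ne_zero]
  rw [abs_one]; exact h

/-- profile of the sum along a progression -/
def prof (Q : ℕ) (A : ℝ) (n₀ t : ℕ) : ℝ :=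
  (if t ≤ n₀ then (Q : ℝ) else 0) + (1 / (Q * A ^ 2)) * (if n₀ < t then 1 / (t : ℝ) ^ 2 else 0)

theorem prof_nonneg (Q : ℕ) (A : ℝ) (n₀ t : ℕ) : 0 ≤ prof Q A n₀ t := by
  unfold prof
  have h1 : (0 : ℝ) ≤ if t ≤ n₀ then (Q : ℝ) else 0 := by split_ifs <;> positivity
  have h2 : (0 : ℝ) ≤ if n₀ < t then 1 / (t : ℝ) ^ 2 else 0 := by split_ifs <;> positivity
  positivity

theorem sum_prof {Q : ℕ} (hQ : 0 < Q) {A : ℝ} (hA : 0 < A) {n₀ : ℕ} (h0 : 0 < n₀) (h1 : 1 / (Q * A) ≤ n₀)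
    (h2 : (n₀ : ℝ) ≤ 1 / (Q * A) + 1) (F : Finset ℕ) :
    ∑ t ∈ F, prof Q A n₀ t ≤ 2 * Q + 2 / A := by
  have hQ' : (0 : ℝ) < Q := by exact_mod_cast hQ
  have hn : (0 : ℝ) < n₀ := by exact_mod_cast h0
  unfold prof
  rw [Finset.sum_add_distrib, ← Finset.mul_sum]
  have a1 : ∑ t ∈ F, (if t ≤ n₀ then (Q : ℝ) else 0) ≤ (n₀ + 1) * Q := by
    rw [← Finset.sum_filter, Finset.sum_const, nsmul_eq_mul]
    apply mul_le_mul_of_nonneg_right _ hQ'.le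
    have : (F.filter (fun t => t ≤ n₀)).card ≤ (range (n₀ + 1)).card := by
      apply Finset.card_le_card
      intro t ht
      rw [Finset.mem_filter] at ht
      rw [Finset.mem_range]; omega
    rw [card_range] at this
    exact_mod_cast this
  have a2 := tail_nat h0 F
  have a3 : 1 / (Q * A ^ 2) * ∑ t ∈ F, (if n₀ < t then 1 / (t : ℝ) ^ 2 else 0) ≤ 1 / A := by
    calc _ ≤ 1 / (Q * A ^ 2) * (1 / n₀) := by gcongr
      _ ≤ 1 / (Q * A ^ 2) * (Q * A) := by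
        gcongr
        rw [div_le_iff₀ hn]
        rw [div_le_iff₀ (by positivity)] at h1
        linarith
      _ = 1 / A := by field_simp
  have a4 : ((n₀ : ℝ) + 1) * Q ≤ 2 * Q + 1 / A := by
    have : (n₀ : ℝ) * Q ≤ (1 / (Q * A) + 1) * Q := by gcongr
    have e : (1 / (Q * A) + 1) * Q = 1 / A + Q := by field_simp
    rw [e] at this
    linarith
  have e2 : 2 / A = 1 / A + 1 / A := by ring
  linarith

theorem sum_fejer_ap {Q : ℕ} (hQ : 0 < Q) {a : ℝ} (ha : a ≠ 0) (x : ℝ) (I : Finset ℤ)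
    (hI : ∀ u ∈ I, |x + a * u| ≤ 1 / 2) :
    ∑ u ∈ I, FQ Q ((x + a * u : ℝ) : TT) ≤ 4 * Q + 4 / |a| := by
  have hQ' : (0 : ℝ) < Q := by exact_mod_cast hQ
  have hA : 0 < |a| := abs_pos.mpr ha
  rcases I.eq_empty_or_nonempty with h | h
  · rw [h]; simp only [Finset.sum_empty]; positivity
  obtain ⟨u₀, hu₀, hmin⟩ := Finset.exists_min_image I (fun u : ℤ => |x + a * u|) h
  set A := |a| with hAdef
  obtain ⟨n₀, hn1, hn2⟩ : ∃ n₀ : ℕ, 1 / (Q * A) ≤ n₀ ∧ (n₀ : ℝ) ≤ 1 / (Q * A) + 1 :=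
    ⟨⌈1 / (Q * A)⌉₊, Nat.le_ceil _, (Nat.ceil_lt_add_one (by positivity)).le⟩
  have hn0 : 0 < n₀ := by
    rcases Nat.eq_zero_or_pos n₀ with h0 | h0
    · exfalso
      rw [h0] at hn1
      have : 0 < 1 / (Q * A) := by positivity
      norm_num at hn1
      have h3 : 0 < A⁻¹ * (Q : ℝ)⁻¹ := by positivity
      linarith
    · exact h0
  have hpt : ∀ u ∈ I, FQ Q ((x + a * u : ℝ) : TT) ≤ prof Q A n₀ (u - u₀).natAbs := by
    intro u hu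
    unfold prof
    by_cases hc : (u - u₀).natAbs ≤ n₀
    · rw [if_pos hc, if_neg (by omega), mul_zero, add_zero]
      exact FQ_le _ _
    · rw [if_neg hc, if_pos (by omega), zero_add]
      have hd : 0 < (((u - u₀).natAbs : ℕ) : ℝ) := by
        have : 0 < (u - u₀).natAbs := by omega
        exact_mod_cast this
      have e1 : (((u - u₀).natAbs : ℕ) : ℝ) = |(u : ℝ) - u₀| := by
        rw [Nat.cast_natAbs, Int.cast_abs]; push_cast; rfl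
      have h1 : A * (((u - u₀).natAbs : ℕ) : ℝ) ≤ 2 * |x + a * u| := by
        rw [e1, hAdef, ← abs_mul]
        have e2 : a * ((u : ℝ) - u₀) = (x + a * u) - (x + a * u₀) := by ring
        rw [e2]
        refine (abs_sub _ _).trans ?_
        have := hmin u hu
        linarith
      have hpos : 0 < |x + a * u| := by
        have : 0 < A * (((u - u₀).natAbs : ℕ) : ℝ) := by positivity
        linarith
      have hnorm := norm_coe_eq_abs2 (hI u hu)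
      refine (FQ_le' hQ (by rw [hnorm]; exact hpos)).trans ?_
      rw [hnorm, one_div_mul_one_div]
      apply one_div_le_one_div_of_le (by positivity)
      have h2 : (A * (((u - u₀).natAbs : ℕ) : ℝ)) ^ 2 ≤ (2 * |x + a * u|) ^ 2 := by gcongr
      calc Q * A ^ 2 * (((u - u₀).natAbs : ℕ) : ℝ) ^ 2 = Q * (A * (((u - u₀).natAbs : ℕ) : ℝ)) ^ 2 := by ring
        _ ≤ Q * (2 * |x + a * u|) ^ 2 := by gcongr
        _ = 4 * Q * |x + a * u| ^ 2 := by ring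
  refine (Finset.sum_le_sum hpt).trans ?_
  rw [← Finset.sum_filter_add_sum_filter_not I (fun u => u₀ ≤ u)]
  have s1 : ∑ u ∈ I.filter (fun u => u₀ ≤ u), prof Q A n₀ (u - u₀).natAbs ≤ 2 * Q + 2 / A := by
    refine le_trans (le_of_eq ?_) (sum_prof hQ hA hn0 hn1 hn2 ((I.filter (fun u => u₀ ≤ u)).image (fun u => (u - u₀).natAbs)))
    rw [Finset.sum_image]
    intro u hu v hv huv
    rw [Finset.mem_coe, Finset.mem_filter] at hu hv
    dsimp only at huv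
    omega
  have s2 : ∑ u ∈ I.filter (fun u => ¬ u₀ ≤ u), prof Q A n₀ (u - u₀).natAbs ≤ 2 * Q + 2 / A := by
    refine le_trans (le_of_eq ?_) (sum_prof hQ hA hn0 hn1 hn2 ((I.filter (fun u => ¬ u₀ ≤ u)).image (fun u => (u - u₀).natAbs)))
    rw [Finset.sum_image]
    intro u hu v hv huv
    rw [Finset.mem_coe, Finset.mem_filter] at hu hv
    dsimp only at huv
    omega
  have e3 : 4 / A = 2 / A + 2 / A := by ring
  linarith

/-- sums over differences -/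
theorem double_le (N : ℕ) (F : ℤ → ℝ) (hF : ∀ u, 0 ≤ F u) :
    ∑ p ∈ range N ×ˢ range N, F ((p.1 : ℤ) - (p.2 : ℤ)) ≤ N * ∑ u ∈ Finset.Ioo (-(N : ℤ)) N, F u := by
  rw [Finset.sum_product_right, Finset.mul_sum]
  have h : ∀ j' ∈ range N, ∑ j ∈ range N, F ((j : ℤ) - (j' : ℤ)) ≤ ∑ u ∈ Finset.Ioo (-(N : ℤ)) N, F u := by
    intro j' hj'
    rw [Finset.mem_range] at hj'
    have e : ∑ j ∈ range N, F ((j : ℤ) - (j' : ℤ)) = ∑ u ∈ (range N).image (fun j : ℕ => (j : ℤ) - (j' : ℤ)), F u := by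
      rw [Finset.sum_image]
      intro a _ b _ hab
      dsimp only at hab
      omega
    rw [e]
    apply Finset.sum_le_sum_of_subset_of_nonneg
    · intro u hu
      rw [Finset.mem_image] at hu
      obtain ⟨j, hj, rfl⟩ := hu
      rw [Finset.mem_range] at hj
      rw [Finset.mem_Ioo]
      constructor <;> omega
    · intro u _ _; exact hF u
  calc _ ≤ ∑ j' ∈ range N, ∑ u ∈ Finset.Ioo (-(N : ℤ)) N, F u := Finset.sum_le_sum h
    _ = _ := by rw [Finset.sum_const, card_range, nsmul_eq_mul, ← Finset.mul_sum]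

section cycle

variable {α β γ δ : Type*} (U : Finset α) (V : Finset β) (U' : Finset γ) (V' : Finset δ)
  (f1 : α → β → ℝ) (f2 : α → δ → ℝ) (f3 : γ → β → ℝ) (f4 : γ → δ → ℝ)

theorem path_bound {S n : ℝ} (hS : 0 ≤ S) (h1 : ∀ u v, 0 ≤ f1 u v) (h2 : ∀ u v, 0 ≤ f2 u v) (h3 : ∀ u v, 0 ≤ f3 u v)
    (hn : (V.card : ℝ) ≤ n) (r1 : ∀ v ∈ V, ∑ u ∈ U, f1 u v ≤ S) (r2 : ∀ u ∈ U, ∑ v' ∈ V', f2 u v' ≤ S)
    (r3 : ∀ v ∈ V, ∑ u' ∈ U', f3 u' v ≤ S) :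
    ∑ v ∈ V, ∑ u ∈ U, ∑ u' ∈ U', ∑ v' ∈ V', f1 u v * f2 u v' * f3 u' v ≤ n * S ^ 3 := by
  have hb : ∀ v ∈ V, ∑ u ∈ U, ∑ u' ∈ U', ∑ v' ∈ V', f1 u v * f2 u v' * f3 u' v ≤ S ^ 3 := by
    intro v hv
    calc ∑ u ∈ U, ∑ u' ∈ U', ∑ v' ∈ V', f1 u v * f2 u v' * f3 u' v
        = ∑ u ∈ U, f1 u v * ((∑ v' ∈ V', f2 u v') * ∑ u' ∈ U', f3 u' v) := by
          apply Finset.sum_congr rfl; intro u _
          rw [Finset.sum_mul_sum, Finset.sum_comm, Finset.mul_sum]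
          apply Finset.sum_congr rfl; intro v' _
          rw [Finset.mul_sum]
          apply Finset.sum_congr rfl; intro u' _
          ring
      _ ≤ ∑ u ∈ U, f1 u v * (S * S) := by
          apply Finset.sum_le_sum; intro u hu
          apply mul_le_mul_of_nonneg_left _ (h1 u v)
          apply mul_le_mul (r2 u hu) (r3 v hv) (Finset.sum_nonneg (fun _ _ => h3 _ _)) hS
      _ = (∑ u ∈ U, f1 u v) * (S * S) := by rw [Finset.sum_mul]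
      _ ≤ S * (S * S) := mul_le_mul_of_nonneg_right (r1 v hv) (by positivity)
      _ = S ^ 3 := by ring
  calc _ ≤ ∑ v ∈ V, S ^ 3 := Finset.sum_le_sum hb
    _ = V.card * S ^ 3 := by rw [Finset.sum_const, nsmul_eq_mul]
    _ ≤ n * S ^ 3 := by gcongr

theorem cycle_bound {S n τ : ℝ} (hS : 0 ≤ S) (hτ : 0 ≤ τ) (h1 : ∀ u v, 0 ≤ f1 u v) (h2 : ∀ u v, 0 ≤ f2 u v)
    (h3 : ∀ u v, 0 ≤ f3 u v) (h4 : ∀ u v, 0 ≤ f4 u v)
    (nU : (U.card : ℝ) ≤ n) (nV : (V.card : ℝ) ≤ n) (nU' : (U'.card : ℝ) ≤ n) (nV' : (V'.card : ℝ) ≤ n)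
    (r1 : ∀ v ∈ V, ∑ u ∈ U, f1 u v ≤ S) (c1 : ∀ u ∈ U, ∑ v ∈ V, f1 u v ≤ S)
    (r2 : ∀ v ∈ V', ∑ u ∈ U, f2 u v ≤ S) (c2 : ∀ u ∈ U, ∑ v ∈ V', f2 u v ≤ S)
    (r3 : ∀ v ∈ V, ∑ u ∈ U', f3 u v ≤ S) (c3 : ∀ u ∈ U', ∑ v ∈ V, f3 u v ≤ S)
    (r4 : ∀ v ∈ V', ∑ u ∈ U', f4 u v ≤ S) (c4 : ∀ u ∈ U', ∑ v ∈ V', f4 u v ≤ S)
    (hsm : ∀ u ∈ U, ∀ v ∈ V, ∀ u' ∈ U', ∀ v' ∈ V', f1 u v ≤ τ ∨ f2 u v' ≤ τ ∨ f3 u' v ≤ τ ∨ f4 u' v' ≤ τ) :
    ∑ u ∈ U, ∑ v ∈ V, ∑ u' ∈ U', ∑ v' ∈ V', f1 u v * f2 u v' * f3 u' v * f4 u' v' ≤ 4 * (n * S ^ 3) * τ := by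
  have hpt : ∀ u ∈ U, ∀ v ∈ V, ∀ u' ∈ U', ∀ v' ∈ V', f1 u v * f2 u v' * f3 u' v * f4 u' v' ≤
      τ * (f1 u v * f2 u v' * f3 u' v) + τ * (f3 u' v * f4 u' v' * f1 u v) + τ * (f2 u v' * f1 u v * f4 u' v') +
        τ * (f4 u' v' * f3 u' v * f2 u v') := by
    intro u hu v hv u' hu' v' hv'
    have a1 := h1 u v
    have a2 := h2 u v'
    have a3 := h3 u' v
    have a4 := h4 u' v'
    have p1 : 0 ≤ τ * (f1 u v * f2 u v' * f3 u' v) := by positivity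
    have p2 : 0 ≤ τ * (f3 u' v * f4 u' v' * f1 u v) := by positivity
    have p3 : 0 ≤ τ * (f2 u v' * f1 u v * f4 u' v') := by positivity
    have p4 : 0 ≤ τ * (f4 u' v' * f3 u' v * f2 u v') := by positivity
    rcases hsm u hu v hv u' hu' v' hv' with h | h | h | h
    · have : f1 u v * (f4 u' v' * f3 u' v * f2 u v') ≤ τ * (f4 u' v' * f3 u' v * f2 u v') := by gcongr
      nlinarith
    · have : f2 u v' * (f3 u' v * f4 u' v' * f1 u v) ≤ τ * (f3 u' v * f4 u' v' * f1 u v) := by gcongr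
      nlinarith
    · have : f3 u' v * (f2 u v' * f1 u v * f4 u' v') ≤ τ * (f2 u v' * f1 u v * f4 u' v') := by gcongr
      nlinarith
    · have : f4 u' v' * (f1 u v * f2 u v' * f3 u' v) ≤ τ * (f1 u v * f2 u v' * f3 u' v) := by gcongr
      nlinarith
  have hsum : ∑ u ∈ U, ∑ v ∈ V, ∑ u' ∈ U', ∑ v' ∈ V', f1 u v * f2 u v' * f3 u' v * f4 u' v' ≤
      ∑ u ∈ U, ∑ v ∈ V, ∑ u' ∈ U', ∑ v' ∈ V', (τ * (f1 u v * f2 u v' * f3 u' v) + τ * (f3 u' v * f4 u' v' * f1 u v) +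
        τ * (f2 u v' * f1 u v * f4 u' v') + τ * (f4 u' v' * f3 u' v * f2 u v')) := by
    apply Finset.sum_le_sum; intro u hu
    apply Finset.sum_le_sum; intro v hv
    apply Finset.sum_le_sum; intro u' hu'
    apply Finset.sum_le_sum; intro v' hv'
    exact hpt u hu v hv u' hu' v' hv'
  refine hsum.trans ?_
  simp_rw [Finset.sum_add_distrib, ← Finset.mul_sum]
  -- path 1: centre edge f1, ends v' from u, u' from v
  have P1 := path_bound U V U' V' f1 f2 f3 hS h1 h2 h3 nV r1 c2 r3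
  -- path 2: f3 centre, f4 from u', f1 from v
  have P2 := path_bound U' V U V' f3 f4 f1 hS h3 h4 h1 nV r3 c4 r1
  -- path 3: f2 centre, f1 from u, f4 from v'
  have P3 := path_bound U V' U' V f2 f1 f4 hS h2 h1 h4 nV' r2 c1 r4
  -- path 4: f4 centre, f3 from u', f2 from v'
  have P4 := path_bound U' V' U V f4 f3 f2 hS h4 h3 h2 nV' r4 c3 r2
  have e1 : ∑ u ∈ U, ∑ v ∈ V, ∑ u' ∈ U', ∑ v' ∈ V', f1 u v * f2 u v' * f3 u' v =
      ∑ v ∈ V, ∑ u ∈ U, ∑ u' ∈ U', ∑ v' ∈ V', f1 u v * f2 u v' * f3 u' v := Finset.sum_comm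
  have e2 : ∑ u ∈ U, ∑ v ∈ V, ∑ u' ∈ U', ∑ v' ∈ V', f3 u' v * f4 u' v' * f1 u v =
      ∑ v ∈ V, ∑ u' ∈ U', ∑ u ∈ U, ∑ v' ∈ V', f3 u' v * f4 u' v' * f1 u v := by
    rw [Finset.sum_comm]
    apply Finset.sum_congr rfl; intro v _
    rw [Finset.sum_comm]
  have e3 : ∑ u ∈ U, ∑ v ∈ V, ∑ u' ∈ U', ∑ v' ∈ V', f2 u v' * f1 u v * f4 u' v' =
      ∑ v' ∈ V', ∑ u ∈ U, ∑ u' ∈ U', ∑ v ∈ V, f2 u v' * f1 u v * f4 u' v' := by
    have a1 : ∀ u ∈ U, ∑ v ∈ V, ∑ u' ∈ U', ∑ v' ∈ V', f2 u v' * f1 u v * f4 u' v' =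
        ∑ v' ∈ V', ∑ u' ∈ U', ∑ v ∈ V, f2 u v' * f1 u v * f4 u' v' := by
      intro u _
      rw [Finset.sum_comm]
      have a2 : ∀ u' ∈ U', ∑ v ∈ V, ∑ v' ∈ V', f2 u v' * f1 u v * f4 u' v' =
          ∑ v' ∈ V', ∑ v ∈ V, f2 u v' * f1 u v * f4 u' v' := fun u' _ => Finset.sum_comm
      rw [Finset.sum_congr rfl a2, Finset.sum_comm]
    rw [Finset.sum_congr rfl a1, Finset.sum_comm]
  have e4 : ∑ u ∈ U, ∑ v ∈ V, ∑ u' ∈ U', ∑ v' ∈ V', f4 u' v' * f3 u' v * f2 u v' =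
      ∑ v' ∈ V', ∑ u' ∈ U', ∑ u ∈ U, ∑ v ∈ V, f4 u' v' * f3 u' v * f2 u v' := by
    have a1 : ∀ u ∈ U, ∑ v ∈ V, ∑ u' ∈ U', ∑ v' ∈ V', f4 u' v' * f3 u' v * f2 u v' =
        ∑ v' ∈ V', ∑ u' ∈ U', ∑ v ∈ V, f4 u' v' * f3 u' v * f2 u v' := by
      intro u _
      rw [Finset.sum_comm]
      have a2 : ∀ u' ∈ U', ∑ v ∈ V, ∑ v' ∈ V', f4 u' v' * f3 u' v * f2 u v' =
          ∑ v' ∈ V', ∑ v ∈ V, f4 u' v' * f3 u' v * f2 u v' := fun u' _ => Finset.sum_comm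
      rw [Finset.sum_congr rfl a2, Finset.sum_comm]
    rw [Finset.sum_congr rfl a1, Finset.sum_comm]
    apply Finset.sum_congr rfl; intro v' _
    rw [Finset.sum_comm]
  rw [e1, e2, e3, e4]
  have q1 := mul_le_mul_of_nonneg_left P1 hτ
  have q2 := mul_le_mul_of_nonneg_left P2 hτ
  have q3 := mul_le_mul_of_nonneg_left P3 hτ
  have q4 := mul_le_mul_of_nonneg_left P4 hτ
  linarith

end cycle

end Run7.h297
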