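import Pool.Agent.Run7.h297.Kspace

set_option autoImplicit false

/-! Counting quadruples of integer vectors. -/

noncomputable section

namespace Run7.h297

open Real Finset

/-- a primitive vector parallel to the given one -/
def pv (q : V3) : V3 := if h : q ≠ 0 then Classical.choose (exists_prim h) else 0

theorem pv_spec {q : V3} (h : q ≠ 0) : ∃ g : ℤ, g ≠ 0 ∧ Prim (pv q) ∧ pv q ≠ 0 ∧
    q = (g * (pv q).1, g * (pv q).2.1, g * (pv q).2.2) ∧ nm (pv q) ≤ nm q := by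
  unfold pv
  rw [dif_pos h]
  exact Classical.choose_spec (exists_prim h)

theorem dot_pv {q : V3} (h : q ≠ 0) (k : V3) : dot k q = 0 ↔ dot k (pv q) = 0 := by
  obtain ⟨g, hg, _, _, he, _⟩ := pv_spec h
  have : dot k q = g * dot k (pv q) := by
    conv_lhs => rw [he]
    exact dot_smul k (pv q) g
  rw [this, mul_eq_zero]
  tauto

theorem dot_crs_left (k l : V3) : dot k (crs k l) = 0 := by
  unfold dot crs; ring

theorem dot_crs_right (k l : V3) : dot l (crs k l) = 0 := by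
  unfold dot crs; ring

/-- number of points in a plane -/
def Zp (S : ℕ) (q : V3) : ℝ := (((bx S).filter (fun k => dot k q = 0)).card : ℝ)

theorem Zp_nonneg (S : ℕ) (q : V3) : 0 ≤ Zp S q := Nat.cast_nonneg _

theorem Zp_pv {S : ℕ} {q : V3} (h : q ≠ 0) : Zp S q = Zp S (pv q) := by
  unfold Zp
  congr 2
  apply Finset.filter_congr
  intro k _
  exact dot_pv h k

theorem Zp_le {S : ℕ} {q : V3} (h : q ≠ 0) : Zp S q ≤ 1 + 4 * S + 4 * S ^ 2 / (nm (pv q) : ℝ) := by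
  rw [Zp_pv h]
  obtain ⟨g, _, hp, h0, _, _⟩ := pv_spec h
  exact card_plane' h0 hp

/-- sum of the cubes -/
theorem sum_cube (X : ℕ) : ∑ ν ∈ (bx X).filter (fun ν => ν ≠ 0), 1 / (nm ν : ℝ) ^ 3 ≤ (4 * (1 + Real.log (X + 1))) ^ 3 := by
  have h1 : ∀ ν ∈ (bx X).filter (fun ν => ν ≠ 0), 1 / (nm ν : ℝ) ^ 3 ≤
      (2 / (1 + |(ν.1 : ℝ)|)) * ((2 / (1 + |(ν.2.1 : ℝ)|)) * (2 / (1 + |(ν.2.2 : ℝ)|))) := by
    intro ν hν
    rw [Finset.mem_filter] at hν
    have hn : nm ν ≠ 0 := fun h => hν.2 (nm_eq_zero.mp h)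
    have hn1 : (1 : ℝ) ≤ nm ν := by
      have : 1 ≤ nm ν := Nat.one_le_iff_ne_zero.mpr hn
      exact_mod_cast this
    have hb : ∀ x : ℤ, x.natAbs ≤ nm ν → 1 / (nm ν : ℝ) ≤ 2 / (1 + |(x : ℝ)|) := by
      intro x hx
      have hx' : |(x : ℝ)| ≤ nm ν := by
        rw [← Int.cast_abs, ← Nat.cast_natAbs]; exact_mod_cast hx
      rw [div_le_div_iff₀ (by linarith) (by positivity)]
      linarith
    have b1 := hb ν.1 (by unfold nm; omega)
    have b2 := hb ν.2.1 (by unfold nm; omega)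
    have b3 := hb ν.2.2 (by unfold nm; omega)
    calc 1 / (nm ν : ℝ) ^ 3 = (1 / (nm ν : ℝ)) * ((1 / (nm ν : ℝ)) * (1 / (nm ν : ℝ))) := by
          field_simp
      _ ≤ _ := by gcongr
  refine (Finset.sum_le_sum h1).trans ?_
  have h2 : ∑ ν ∈ (bx X).filter (fun ν => ν ≠ 0), (2 / (1 + |(ν.1 : ℝ)|)) * ((2 / (1 + |(ν.2.1 : ℝ)|)) * (2 / (1 + |(ν.2.2 : ℝ)|))) ≤
      ∑ ν ∈ bx X, (2 / (1 + |(ν.1 : ℝ)|)) * ((2 / (1 + |(ν.2.1 : ℝ)|)) * (2 / (1 + |(ν.2.2 : ℝ)|))) := by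
    apply Finset.sum_le_sum_of_subset_of_nonneg (Finset.filter_subset _ _)
    intro ν _ _; positivity
  refine h2.trans ?_
  unfold bx
  rw [Finset.sum_product]
  simp_rw [Finset.sum_product, ← Finset.mul_sum, ← Finset.sum_mul]
  have h3 := sum_harm X
  have h4 : ∑ t ∈ Finset.Icc (-(X : ℤ)) X, (2 : ℝ) / (1 + |(t : ℝ)|) ≤ 4 * (1 + Real.log (X + 1)) := by
    have e : ∑ t ∈ Finset.Icc (-(X : ℤ)) X, (2 : ℝ) / (1 + |(t : ℝ)|) = 2 * ∑ t ∈ Finset.Icc (-(X : ℤ)) X, (1 : ℝ) / (1 + |(t : ℝ)|) := by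
      rw [Finset.mul_sum]
      apply Finset.sum_congr rfl; intro t _
      ring
    rw [e]; linarith
  have h0 : 0 ≤ ∑ t ∈ Finset.Icc (-(X : ℤ)) X, (2 : ℝ) / (1 + |(t : ℝ)|) := Finset.sum_nonneg (fun _ _ => by positivity)
  calc _ = (∑ t ∈ Finset.Icc (-(X : ℤ)) X, (2 : ℝ) / (1 + |(t : ℝ)|)) ^ 3 := by ring
    _ ≤ _ := by gcongr

theorem sum_Z {P : ℕ} (hP : 1 ≤ P) {L : ℝ} (hL : 1 + Real.log (6 * P ^ 3 + 1) ≤ L) :
    ∑ z ∈ (bx P ×ˢ bx P).filter (fun z => crs z.1 z.2 ≠ 0), Zp (2 * P) (crs z.1 z.2) ^ 2 ≤ 4500000 * L ^ 3 * P ^ 8 := by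
  classical
  have hP' : (1 : ℝ) ≤ P := by exact_mod_cast hP
  have hP0 : (0 : ℝ) < P := by linarith
  have hlog0 : 0 ≤ Real.log (6 * P ^ 3 + 1) := Real.log_nonneg (by have : 0 ≤ (P : ℝ) ^ 3 := by positivity
                                                                   linarith)
  have hL1 : 1 ≤ L := by linarith
  set Zs := (bx P ×ˢ bx P).filter (fun z => crs z.1 z.2 ≠ 0) with hZs
  have hmemz : ∀ z ∈ Zs, nm z.1 ≤ P ∧ nm z.2 ≤ P ∧ crs z.1 z.2 ≠ 0 := by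
    intro z hz
    rw [hZs, Finset.mem_filter, Finset.mem_product, mem_bx, mem_bx] at hz
    exact ⟨hz.1.1, hz.1.2, hz.2⟩
  -- pointwise bound
  have hpt : ∀ z ∈ Zs, Zp (2 * P) (crs z.1 z.2) ^ 2 ≤ 162 * (P : ℝ) ^ 2 + 512 * P ^ 4 * (1 / (nm (pv (crs z.1 z.2)) : ℝ) ^ 2) := by
    intro z hz
    obtain ⟨_, _, h3⟩ := hmemz z hz
    have h := Zp_le (S := 2 * P) h3
    have h0 := Zp_nonneg (2 * P) (crs z.1 z.2)
    set n : ℝ := (nm (pv (crs z.1 z.2)) : ℝ) with hn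
    have hn0 : 0 < n := by
      obtain ⟨_, _, _, h0', _, _⟩ := pv_spec h3
      have : 0 < nm (pv (crs z.1 z.2)) := Nat.pos_of_ne_zero (fun h => h0' (nm_eq_zero.mp h))
      rw [hn]; exact_mod_cast this
    push_cast at h
    have h5 : Zp (2 * P) (crs z.1 z.2) ≤ 9 * P + 16 * P ^ 2 / n := by
      have e : 4 * (2 * (P : ℝ)) ^ 2 / n = 16 * P ^ 2 / n := by ring
      rw [e] at h
      linarith
    have h6 : Zp (2 * P) (crs z.1 z.2) ^ 2 ≤ (9 * P + 16 * P ^ 2 / n) ^ 2 := by gcongr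
    have h7 : (9 * (P : ℝ) + 16 * P ^ 2 / n) ^ 2 ≤ 2 * (9 * P) ^ 2 + 2 * (16 * P ^ 2 / n) ^ 2 := by
      nlinarith [sq_nonneg (9 * (P : ℝ) - 16 * P ^ 2 / n)]
    have h8 : 2 * (9 * (P : ℝ)) ^ 2 + 2 * (16 * P ^ 2 / n) ^ 2 = 162 * (P : ℝ) ^ 2 + 512 * P ^ 4 * (1 / n ^ 2) := by
      field_simp; ring
    linarith
  refine (Finset.sum_le_sum hpt).trans ?_
  rw [Finset.sum_add_distrib, Finset.sum_const, nsmul_eq_mul, ← Finset.mul_sum]
  -- first part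
  have hcard : (Zs.card : ℝ) ≤ 729 * P ^ 6 := by
    have h1 : Zs.card ≤ (2 * P + 1) ^ 3 * (2 * P + 1) ^ 3 := by
      refine (Finset.card_filter_le _ _).trans ?_
      rw [Finset.card_product, card_bx]
    have h2 : (Zs.card : ℝ) ≤ (2 * P + 1) ^ 3 * (2 * P + 1) ^ 3 := by exact_mod_cast h1
    refine h2.trans ?_
    have h3 : (2 * (P : ℝ) + 1) ≤ 3 * P := by linarith
    calc (2 * (P : ℝ) + 1) ^ 3 * (2 * P + 1) ^ 3 ≤ (3 * P) ^ 3 * (3 * P) ^ 3 := by gcongr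
      _ = _ := by ring
  -- second part: grouping
  set X : ℕ := 2 * P ^ 2 with hX
  have hmaps : ∀ z ∈ Zs, pv (crs z.1 z.2) ∈ (bx X).filter (fun ν => ν ≠ 0) := by
    intro z hz
    obtain ⟨h1, h2, h3⟩ := hmemz z hz
    obtain ⟨_, _, _, h0', _, hle⟩ := pv_spec h3
    rw [Finset.mem_filter, mem_bx]
    refine ⟨hle.trans ((nm_crs_le _ _).trans ?_), h0'⟩
    have := Nat.mul_le_mul h1 h2
    rw [hX, sq]; omega
  have hgroup : ∑ z ∈ Zs, 1 / (nm (pv (crs z.1 z.2)) : ℝ) ^ 2 ≤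
      ∑ ν ∈ (bx X).filter (fun ν => ν ≠ 0), (50 * (P : ℝ) ^ 2 + 32 * P ^ 4 / (nm ν : ℝ) ^ 2) * (1 / (nm ν : ℝ) ^ 2) := by
    rw [← Finset.sum_fiberwise_of_maps_to hmaps]
    apply Finset.sum_le_sum; intro ν hν
    rw [Finset.mem_filter] at hν
    have e : ∑ z ∈ Zs.filter (fun z => pv (crs z.1 z.2) = ν), 1 / (nm (pv (crs z.1 z.2)) : ℝ) ^ 2 =
        ((Zs.filter (fun z => pv (crs z.1 z.2) = ν)).card : ℝ) * (1 / (nm ν : ℝ) ^ 2) := by
      rw [← nsmul_eq_mul, ← Finset.sum_const]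
      apply Finset.sum_congr rfl; intro z hz
      rw [(Finset.mem_filter.mp hz).2]
    rw [e]
    apply mul_le_mul_of_nonneg_right _ (by positivity)
    rcases (Zs.filter (fun z => pv (crs z.1 z.2) = ν)).eq_empty_or_nonempty with hem | ⟨z₀, hz₀⟩
    · rw [hem]; simp only [Finset.card_empty, Nat.cast_zero]; positivity
    · rw [Finset.mem_filter] at hz₀
      obtain ⟨_, _, h3₀⟩ := hmemz z₀ hz₀.1
      obtain ⟨g, _, hprim, hν0, _, _⟩ := pv_spec h3₀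
      rw [hz₀.2] at hprim hν0
      have hsub : Zs.filter (fun z => pv (crs z.1 z.2) = ν) ⊆
          ((bx P).filter (fun k => dot k ν = 0)) ×ˢ ((bx P).filter (fun k => dot k ν = 0)) := by
        intro z hz
        rw [Finset.mem_filter] at hz
        obtain ⟨h1, h2, h3⟩ := hmemz z hz.1
        rw [Finset.mem_product, Finset.mem_filter, Finset.mem_filter, mem_bx, mem_bx]
        rw [← hz.2]
        exact ⟨⟨h1, (dot_pv h3 _).mp (dot_crs_left _ _)⟩, h2, (dot_pv h3 _).mp (dot_crs_right _ _)⟩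
      have hc := Finset.card_le_card hsub
      rw [Finset.card_product] at hc
      have hc' : ((Zs.filter (fun z => pv (crs z.1 z.2) = ν)).card : ℝ) ≤
          (((bx P).filter (fun k => dot k ν = 0)).card : ℝ) ^ 2 := by
        rw [sq]; exact_mod_cast hc
      refine hc'.trans ?_
      have hb := card_plane' (S := P) hν0 hprim
      set n : ℝ := (nm ν : ℝ) with hn
      have hn0 : 0 < n := by
        have : 0 < nm ν := Nat.pos_of_ne_zero (fun h => hν0 (nm_eq_zero.mp h))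
        rw [hn]; exact_mod_cast this
      have hb2 : (((bx P).filter (fun k => dot k ν = 0)).card : ℝ) ≤ 5 * P + 4 * P ^ 2 / n := by linarith
      have hb3 : (((bx P).filter (fun k => dot k ν = 0)).card : ℝ) ^ 2 ≤ (5 * P + 4 * P ^ 2 / n) ^ 2 :=
        pow_le_pow_left₀ (Nat.cast_nonneg _) hb2 2
      have h7 : (5 * (P : ℝ) + 4 * P ^ 2 / n) ^ 2 ≤ 2 * (5 * P) ^ 2 + 2 * (4 * P ^ 2 / n) ^ 2 := by
        nlinarith [sq_nonneg (5 * (P : ℝ) - 4 * P ^ 2 / n)]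
      have h8 : 2 * (5 * (P : ℝ)) ^ 2 + 2 * (4 * P ^ 2 / n) ^ 2 = 50 * (P : ℝ) ^ 2 + 32 * P ^ 4 / n ^ 2 := by
        field_simp; ring
      linarith
  have hsecond : ∑ ν ∈ (bx X).filter (fun ν => ν ≠ 0), (50 * (P : ℝ) ^ 2 + 32 * P ^ 4 / (nm ν : ℝ) ^ 2) * (1 / (nm ν : ℝ) ^ 2) ≤
      (132 * (P : ℝ) ^ 4) * ∑ ν ∈ (bx X).filter (fun ν => ν ≠ 0), 1 / (nm ν : ℝ) ^ 3 := by
    rw [Finset.mul_sum]
    apply Finset.sum_le_sum; intro ν hν
    rw [Finset.mem_filter, mem_bx] at hν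
    have hn1 : 1 ≤ nm ν := Nat.one_le_iff_ne_zero.mpr (fun h => hν.2 (nm_eq_zero.mp h))
    set n : ℝ := (nm ν : ℝ) with hn
    have hn1' : 1 ≤ n := by rw [hn]; exact_mod_cast hn1
    have hnX : n ≤ 2 * P ^ 2 := by
      rw [hn]
      have : ((nm ν : ℕ) : ℝ) ≤ ((2 * P ^ 2 : ℕ) : ℝ) := by exact_mod_cast hν.1
      push_cast at this; exact this
    have hn0 : 0 < n := by linarith
    have e : (50 * (P : ℝ) ^ 2 + 32 * P ^ 4 / n ^ 2) * (1 / n ^ 2) = (50 * P ^ 2 * n ^ 2 + 32 * P ^ 4) / n ^ 4 := by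
      field_simp
    have e2 : 132 * (P : ℝ) ^ 4 * (1 / n ^ 3) = (132 * P ^ 4 * n) / n ^ 4 := by
      field_simp
    rw [e, e2]
    apply div_le_div_of_nonneg_right _ (by positivity)
    have t1 : 50 * (P : ℝ) ^ 2 * n ^ 2 ≤ 100 * P ^ 4 * n := by
      calc 50 * (P : ℝ) ^ 2 * n ^ 2 = (50 * P ^ 2 * n) * n := by ring
        _ ≤ (50 * P ^ 2 * n) * (2 * P ^ 2) := by gcongr
        _ = _ := by ring
    have t2 : 32 * (P : ℝ) ^ 4 * 1 ≤ 32 * P ^ 4 * n := by gcongr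
    linarith
  have hX2 : ∑ ν ∈ (bx X).filter (fun ν => ν ≠ 0), 1 / (nm ν : ℝ) ^ 3 ≤ 64 * L ^ 3 := by
    refine (sum_cube X).trans ?_
    have hXle : ((X : ℕ) : ℝ) + 1 ≤ 6 * P ^ 3 + 1 := by
      rw [hX]; push_cast
      have : (P : ℝ) ^ 2 * 1 ≤ P ^ 2 * P := by gcongr
      nlinarith
    have hlogle : Real.log (((X : ℕ) : ℝ) + 1) ≤ Real.log (6 * P ^ 3 + 1) := Real.log_le_log (by positivity) hXle
    have hlogX : 0 ≤ Real.log (((X : ℕ) : ℝ) + 1) := Real.log_nonneg (by linarith [Nat.cast_nonneg (α := ℝ) X])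
    calc (4 * (1 + Real.log (((X : ℕ) : ℝ) + 1))) ^ 3 ≤ (4 * L) ^ 3 := by gcongr; linarith
      _ = _ := by ring
  have hL3 : 1 ≤ L ^ 3 := one_le_pow₀ hL1
  have hP8 : 0 ≤ (P : ℝ) ^ 8 := by positivity
  calc (Zs.card : ℝ) * (162 * P ^ 2) + 512 * P ^ 4 * ∑ z ∈ Zs, 1 / (nm (pv (crs z.1 z.2)) : ℝ) ^ 2
      ≤ (729 * P ^ 6) * (162 * P ^ 2) + 512 * P ^ 4 * (132 * P ^ 4 * (64 * L ^ 3)) := by
        have h1 : ∑ z ∈ Zs, 1 / (nm (pv (crs z.1 z.2)) : ℝ) ^ 2 ≤ 132 * P ^ 4 * (64 * L ^ 3) := by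
          refine (hgroup.trans hsecond).trans ?_
          gcongr
        gcongr
    _ = 118098 * (1 * P ^ 8) + 4325376 * (L ^ 3 * P ^ 8) := by ring
    _ ≤ 118098 * (L ^ 3 * P ^ 8) + 4325376 * (L ^ 3 * P ^ 8) := by gcongr
    _ ≤ _ := by
        have : 0 ≤ L ^ 3 * (P : ℝ) ^ 8 := by positivity
        linarith

theorem T0_bound {P : ℕ} (hP : 1 ≤ P) {L : ℝ} (hL : 1 + Real.log (6 * P ^ 3 + 1) ≤ L) :
    ∑ z ∈ (bx P ×ˢ bx P).filter (fun z => crs z.1 z.2 ≠ 0),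
      (∑ k ∈ bx P, (1 : ℝ) / (1 + |((dot k (crs z.1 z.2) : ℤ) : ℝ)|)) ^ 2 ≤ 2 ^ 25 * L ^ 5 * P ^ 8 := by
  have hP' : (1 : ℝ) ≤ P := by exact_mod_cast hP
  have hlog0 : 0 ≤ Real.log (6 * P ^ 3 + 1) := Real.log_nonneg (by have : 0 ≤ (P : ℝ) ^ 3 := by positivity
                                                                   linarith)
  have hL1 : 1 ≤ L := by linarith
  have h : ∀ z ∈ (bx P ×ˢ bx P).filter (fun z => crs z.1 z.2 ≠ 0),
      (∑ k ∈ bx P, (1 : ℝ) / (1 + |((dot k (crs z.1 z.2) : ℤ) : ℝ)|)) ^ 2 ≤ 4 * L ^ 2 * Zp (2 * P) (crs z.1 z.2) ^ 2 := by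
    intro z hz
    rw [Finset.mem_filter, Finset.mem_product, mem_bx, mem_bx] at hz
    have hT : 3 * (P * nm (crs z.1 z.2)) ≤ 6 * P ^ 3 := by
      have h1 := nm_crs_le z.1 z.2
      have h2 := Nat.mul_le_mul hz.1.1 hz.1.2
      have h3 : nm (crs z.1 z.2) ≤ 2 * (P * P) := by omega
      have h4 := Nat.mul_le_mul_left P h3
      calc 3 * (P * nm (crs z.1 z.2)) ≤ 3 * (P * (2 * (P * P))) := by omega
        _ = 6 * P ^ 3 := by ring
    have h1 := inner_sum (P := P) (crs z.1 z.2) (6 * P ^ 3) hT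
    push_cast at h1
    have h2 : ∑ k ∈ bx P, (1 : ℝ) / (1 + |((dot k (crs z.1 z.2) : ℤ) : ℝ)|) ≤ Zp (2 * P) (crs z.1 z.2) * (2 * L) := by
      refine h1.trans ?_
      have := Zp_nonneg (2 * P) (crs z.1 z.2)
      unfold Zp at this ⊢
      gcongr
    have h0 : 0 ≤ ∑ k ∈ bx P, (1 : ℝ) / (1 + |((dot k (crs z.1 z.2) : ℤ) : ℝ)|) :=
      Finset.sum_nonneg (fun _ _ => by positivity)
    calc _ ≤ (Zp (2 * P) (crs z.1 z.2) * (2 * L)) ^ 2 := pow_le_pow_left₀ h0 h2 2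
      _ = _ := by ring
  refine (Finset.sum_le_sum h).trans ?_
  rw [← Finset.mul_sum]
  have hs := sum_Z hP hL
  calc _ ≤ 4 * L ^ 2 * (4500000 * L ^ 3 * P ^ 8) := by gcongr
    _ = 18000000 * (L ^ 5 * P ^ 8) := by ring
    _ ≤ 2 ^ 25 * (L ^ 5 * P ^ 8) := by
      have : 0 ≤ L ^ 5 * (P : ℝ) ^ 8 := by positivity
      nlinarith
    _ = _ := by ring

/-! ### dual counting -/

theorem card_near {c : ℤ} (hc : c ≠ 0) {α Z : ℝ} (hZ : 0 ≤ Z) (F : Finset ℤ) (hF : ∀ y ∈ F, |(c : ℝ) * y - α| ≤ Z) :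
    (F.card : ℝ) ≤ 2 * Z / |(c : ℝ)| + 1 := by
  have hc' : 0 < |(c : ℝ)| := abs_pos.mpr (by exact_mod_cast hc)
  rcases F.eq_empty_or_nonempty with h | h
  · rw [h]; simp only [Finset.card_empty, Nat.cast_zero]; positivity
  · have hsub : F ⊆ Finset.Icc (F.min' h) (F.max' h) := by
      intro y hy
      rw [Finset.mem_Icc]; exact ⟨F.min'_le y hy, F.le_max' y hy⟩
    have hcard := Finset.card_le_card hsub
    rw [Int.card_Icc] at hcard
    have hle := F.min'_le _ (F.max'_mem h)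
    have h1 : (F.card : ℝ) ≤ (F.max' h : ℝ) - F.min' h + 1 := by
      have : (F.card : ℤ) ≤ F.max' h + 1 - F.min' h := by omega
      have h2 : ((F.card : ℤ) : ℝ) ≤ ((F.max' h + 1 - F.min' h : ℤ) : ℝ) := by exact_mod_cast this
      push_cast at h2; linarith
    have h2 : |(c : ℝ)| * ((F.max' h : ℝ) - F.min' h) ≤ 2 * Z := by
      have a1 := hF _ (F.max'_mem h)
      have a2 := hF _ (F.min'_mem h)
      have e : |(c : ℝ)| * ((F.max' h : ℝ) - F.min' h) = |(c * F.max' h - α) - (c * F.min' h - α)| := by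
        have hnn : (0 : ℝ) ≤ (F.max' h : ℝ) - F.min' h := by
          have : (F.min' h : ℝ) ≤ F.max' h := by exact_mod_cast hle
          linarith
        have : (c * F.max' h - α) - (c * F.min' h - α) = (c : ℝ) * ((F.max' h : ℝ) - F.min' h) := by ring
        rw [this, abs_mul, abs_of_nonneg hnn]
      rw [e]
      refine (abs_sub _ _).trans ?_
      linarith
    have h3 : (F.max' h : ℝ) - F.min' h ≤ 2 * Z / |(c : ℝ)| := by
      rw [le_div_iff₀ hc']; linarith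
    linarith

/-- the number of vectors with small scalar product, last coordinate of the fixed vector nonzero -/
theorem card_strip_aux {E : ℕ} {a b c : ℤ} (hc : c ≠ 0) {H : ℝ} (hH : 0 ≤ H) (F : Finset (ℤ × ℤ × ℤ))
    (hF : ∀ e ∈ F, (-(E : ℤ) ≤ e.1 ∧ e.1 ≤ E) ∧ (-(E : ℤ) ≤ e.2.1 ∧ e.2.1 ≤ E) ∧
      |((a * e.1 + b * e.2.1 + c * e.2.2 : ℤ) : ℝ)| ≤ H) :
    (F.card : ℝ) ≤ (2 * E + 1) ^ 2 * (2 * H / (c.natAbs : ℝ) + 1) := by
  classical
  set G : Finset (ℤ × ℤ) := Finset.Icc (-(E : ℤ)) E ×ˢ Finset.Icc (-(E : ℤ)) E with hG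
  have hmaps : ∀ e ∈ F, (e.1, e.2.1) ∈ G := by
    intro e he
    obtain ⟨h1, h2, _⟩ := hF e he
    rw [hG, Finset.mem_product, Finset.mem_Icc, Finset.mem_Icc]
    exact ⟨h1, h2⟩
  have h1 : F.card = ∑ g ∈ G, (F.filter (fun e => (e.1, e.2.1) = g)).card :=
    Finset.card_eq_sum_card_fiberwise hmaps
  have hfib : ∀ g ∈ G, ((F.filter (fun e => (e.1, e.2.1) = g)).card : ℝ) ≤ 2 * H / (c.natAbs : ℝ) + 1 := by
    intro g _
    have e : (F.filter (fun e => (e.1, e.2.1) = g)).card = ((F.filter (fun e => (e.1, e.2.1) = g)).image (fun e => e.2.2)).card := by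
      rw [Finset.card_image_of_injOn]
      intro x hx y hy hxy
      rw [Finset.mem_coe, Finset.mem_filter] at hx hy
      have := hx.2.trans hy.2.symm
      rw [Prod.mk.injEq] at this
      exact Prod.ext this.1 (Prod.ext this.2 hxy)
    rw [e]
    have hcn : (c.natAbs : ℝ) = |(c : ℝ)| := by rw [Nat.cast_natAbs, Int.cast_abs]
    rw [hcn]
    apply card_near hc (α := -(a * g.1 + b * g.2 : ℝ)) hH
    intro y hy
    rw [Finset.mem_image] at hy
    obtain ⟨x, hx, rfl⟩ := hy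
    rw [Finset.mem_filter] at hx
    have h2 := (hF x hx.1).2.2
    have e1 : x.1 = g.1 := congrArg Prod.fst hx.2
    have e2 : x.2.1 = g.2 := congrArg Prod.snd hx.2
    rw [e1, e2] at h2
    push_cast at h2
    have e3 : (c : ℝ) * x.2.2 - -(a * g.1 + b * g.2) = a * g.1 + b * g.2 + c * x.2.2 := by ring
    rw [e3]; exact h2
  have h2 : (F.card : ℝ) = ∑ g ∈ G, ((F.filter (fun e => (e.1, e.2.1) = g)).card : ℝ) := by
    rw [h1]; push_cast; rfl
  rw [h2]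
  calc _ ≤ ∑ g ∈ G, (2 * H / (c.natAbs : ℝ) + 1) := Finset.sum_le_sum hfib
    _ = G.card * (2 * H / (c.natAbs : ℝ) + 1) := by rw [Finset.sum_const, nsmul_eq_mul]
    _ = _ := by
      rw [hG, Finset.card_product, card_Icc_sym]; push_cast; ring

theorem card_strip {E : ℕ} {K : V3} (hK : K ≠ 0) {H : ℝ} (hH : 0 ≤ H) :
    (((bx E).filter (fun e => |((dot e K : ℤ) : ℝ)| ≤ H)).card : ℝ) ≤ (2 * E + 1) ^ 2 * (2 * H / (nm K : ℝ) + 1) := by
  have hn : nm K ≠ 0 := fun h => hK (nm_eq_zero.mp h)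
  have hcase : nm K = K.2.2.natAbs ∨ nm K = K.2.1.natAbs ∨ nm K = K.1.natAbs := by
    unfold nm; omega
  rcases hcase with h | h | h
  · rw [h]
    apply card_strip_aux (a := K.1) (b := K.2.1) (c := K.2.2) _ hH
    · intro k hk
      rw [Finset.mem_filter, bx, Finset.mem_product, Finset.mem_product, Finset.mem_Icc, Finset.mem_Icc,
        Finset.mem_Icc] at hk
      refine ⟨hk.1.1, hk.1.2.1, ?_⟩
      have h2 := hk.2
      have e : K.1 * k.1 + K.2.1 * k.2.1 + K.2.2 * k.2.2 = dot k K := by unfold dot; ring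
      rw [e]; exact h2
    · intro h0; rw [h, h0] at hn; simp at hn
  · rw [h]
    have e : ((bx E).filter (fun e => |((dot e K : ℤ) : ℝ)| ≤ H)).card = (((bx E).filter (fun e => |((dot e K : ℤ) : ℝ)| ≤ H)).image (fun k : V3 => (k.1, k.2.2, k.2.1))).card := by
      rw [Finset.card_image_of_injective]
      intro k k' hk
      simp only [Prod.mk.injEq] at hk
      exact Prod.ext hk.1 (Prod.ext hk.2.2 hk.2.1)
    rw [e]
    apply card_strip_aux (a := K.1) (b := K.2.2) (c := K.2.1) _ hH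
    · intro k hk
      rw [Finset.mem_image] at hk
      obtain ⟨k', hk', rfl⟩ := hk
      rw [Finset.mem_filter, bx, Finset.mem_product, Finset.mem_product, Finset.mem_Icc, Finset.mem_Icc,
        Finset.mem_Icc] at hk'
      refine ⟨hk'.1.1, hk'.1.2.2, ?_⟩
      have h2 := hk'.2
      have e : K.1 * k'.1 + K.2.2 * k'.2.2 + K.2.1 * k'.2.1 = dot k' K := by unfold dot; ring
      dsimp only
      rw [e]; exact h2
    · intro h0; rw [h, h0] at hn; simp at hn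
  · rw [h]
    have e : ((bx E).filter (fun e => |((dot e K : ℤ) : ℝ)| ≤ H)).card = (((bx E).filter (fun e => |((dot e K : ℤ) : ℝ)| ≤ H)).image (fun k : V3 => (k.2.2, k.2.1, k.1))).card := by
      rw [Finset.card_image_of_injective]
      intro k k' hk
      simp only [Prod.mk.injEq] at hk
      exact Prod.ext hk.2.2 (Prod.ext hk.2.1 hk.1)
    rw [e]
    apply card_strip_aux (a := K.2.2) (b := K.2.1) (c := K.1) _ hH
    · intro k hk
      rw [Finset.mem_image] at hk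
      obtain ⟨k', hk', rfl⟩ := hk
      rw [Finset.mem_filter, bx, Finset.mem_product, Finset.mem_product, Finset.mem_Icc, Finset.mem_Icc,
        Finset.mem_Icc] at hk'
      refine ⟨hk'.1.2.2, hk'.1.2.1, ?_⟩
      have h2 := hk'.2
      have e : K.2.2 * k'.2.2 + K.2.1 * k'.2.1 + K.1 * k'.1 = dot k' K := by unfold dot; ring
      dsimp only
      rw [e]; exact h2
    · intro h0; rw [h, h0] at hn; simp at hn

theorem card_strip_triv {E : ℕ} (K : V3) (H : ℝ) :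
    (((bx E).filter (fun e => |((dot e K : ℤ) : ℝ)| ≤ H)).card : ℝ) ≤ (2 * E + 1) ^ 3 := by
  have h1 := Finset.card_filter_le (bx E) (fun e => |((dot e K : ℤ) : ℝ)| ≤ H)
  rw [card_bx] at h1
  exact_mod_cast h1

/-- first double product -/
def K12 (k1 k2 k3 k4 : V3) : V3 := crs (crs k1 k2) (crs k3 k4)

/-- second double product -/
def K13 (k1 k2 k3 k4 : V3) : V3 := crs (crs k1 k3) (crs k2 k4)

theorem nm_smul (g : ℤ) (v : V3) : nm (g * v.1, g * v.2.1, g * v.2.2) = g.natAbs * nm v := by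
  unfold nm
  dsimp only
  rw [Int.natAbs_mul, Int.natAbs_mul, Int.natAbs_mul, Nat.mul_max_mul_left, Nat.mul_max_mul_left]

theorem crs_K12_1 (k1 k2 k3 k4 : V3) : crs (K12 k1 k2 k3 k4) k1 =
    (-(dot k1 (crs k3 k4)) * (crs k1 k2).1, -(dot k1 (crs k3 k4)) * (crs k1 k2).2.1, -(dot k1 (crs k3 k4)) * (crs k1 k2).2.2) := by
  unfold K12 crs dot
  refine Prod.ext ?_ (Prod.ext ?_ ?_)
  · dsimp only; ring
  · dsimp only; ring
  · dsimp only; ring

theorem crs_K12_2 (k1 k2 k3 k4 : V3) : crs (K12 k1 k2 k3 k4) k2 =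
    (-(dot k2 (crs k3 k4)) * (crs k1 k2).1, -(dot k2 (crs k3 k4)) * (crs k1 k2).2.1, -(dot k2 (crs k3 k4)) * (crs k1 k2).2.2) := by
  unfold K12 crs dot
  refine Prod.ext ?_ (Prod.ext ?_ ?_)
  · dsimp only; ring
  · dsimp only; ring
  · dsimp only; ring

theorem crs_K13_4 (k1 k2 k3 k4 : V3) : crs (K13 k1 k2 k3 k4) k4 =
    ((dot k1 (crs k3 k4)) * (crs k2 k4).1, (dot k1 (crs k3 k4)) * (crs k2 k4).2.1, (dot k1 (crs k3 k4)) * (crs k2 k4).2.2) := by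
  unfold K13 crs dot
  refine Prod.ext ?_ (Prod.ext ?_ ?_)
  · dsimp only; ring
  · dsimp only; ring
  · dsimp only; ring

theorem crs_K13_3 (k1 k2 k3 k4 : V3) : crs (K13 k1 k2 k3 k4) k3 =
    ((dot k2 (crs k3 k4)) * (crs k1 k3).1, (dot k2 (crs k3 k4)) * (crs k1 k3).2.1, (dot k2 (crs k3 k4)) * (crs k1 k3).2.2) := by
  unfold K13 crs dot
  refine Prod.ext ?_ (Prod.ext ?_ ?_)
  · dsimp only; ring
  · dsimp only; ring
  · dsimp only; ring

theorem nm_lower {K k v : V3} {D : ℤ} {P Zc : ℕ} (h : crs K k = (D * v.1, D * v.2.1, D * v.2.2)) (hk : nm k ≤ P)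
    (hv : Zc ≤ nm v) : D.natAbs * Zc ≤ 2 * P * nm K := by
  have h1 := nm_crs_le K k
  rw [h, nm_smul] at h1
  have h2 := Nat.mul_le_mul_left D.natAbs hv
  have h3 := Nat.mul_le_mul_left (nm K) hk
  calc D.natAbs * Zc ≤ D.natAbs * nm v := h2
    _ ≤ 2 * (nm K * nm k) := h1
    _ ≤ 2 * (nm K * P) := by omega
    _ = 2 * P * nm K := by ring

end Run7.h297
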