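import Pool.Agent.Run7.h297.KspaceB

set_option autoImplicit false

/-! The dual count of quadruples and the count of nearly parallel pairs. -/

noncomputable section

namespace Run7.h297

open Real Finset

/-- nondegenerate quadruples; the first component is the pair of the third and fourth vectors -/
def QD (P Zc : ℕ) : Finset ((V3 × V3) × (V3 × V3)) :=
  ((bx P ×ˢ bx P) ×ˢ (bx P ×ˢ bx P)).filter (fun q =>
    Zc ≤ nm (crs q.2.1 q.2.2) ∧ Zc ≤ nm (crs q.1.1 q.1.2) ∧ Zc ≤ nm (crs q.2.1 q.1.1) ∧ Zc ≤ nm (crs q.2.2 q.1.2))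

theorem nm_K_le {P : ℕ} {a b c d : V3} (ha : nm a ≤ P) (hb : nm b ≤ P) (hc : nm c ≤ P) (hd : nm d ≤ P) :
    nm (crs (crs a b) (crs c d)) ≤ 8 * P ^ 4 := by
  have h1 := nm_crs_le a b
  have h2 := nm_crs_le c d
  have h3 := nm_crs_le (crs a b) (crs c d)
  have e1 := Nat.mul_le_mul ha hb
  have e2 := Nat.mul_le_mul hc hd
  have e3 : nm (crs a b) * nm (crs c d) ≤ (2 * (P * P)) * (2 * (P * P)) := Nat.mul_le_mul (by omega) (by omega)
  calc _ ≤ 2 * ((2 * (P * P)) * (2 * (P * P))) := by omega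
    _ = _ := by ring

theorem quad_sum {P E1 E2 Zc : ℕ} (hP : 1 ≤ P) (hZ : 1 ≤ Zc) {H1 H2 L : ℝ}
    (hL : 1 + Real.log (6 * P ^ 3 + 1) ≤ L) (h1 : 8 * (P : ℝ) ^ 4 ≤ H1) (h2 : 8 * (P : ℝ) ^ 4 ≤ H2) :
    ∑ e ∈ bx E1 ×ˢ bx E2, (((QD P Zc).filter (fun q => |((dot e.1 (K12 q.2.1 q.2.2 q.1.1 q.1.2) : ℤ) : ℝ)| ≤ H1 ∧
        |((dot e.2 (K13 q.2.1 q.2.2 q.1.1 q.1.2) : ℤ) : ℝ)| ≤ H2)).card : ℝ) ≤
      ((2 * E1 + 1) ^ 3 * (2 * E2 + 1) ^ 3 + 144 * P ^ 2 * H1 * H2 * ((2 * E1 + 1) ^ 2 * (2 * E2 + 1) ^ 2) / Zc ^ 2) *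
        (2 ^ 25 * L ^ 5 * P ^ 8) := by
  classical
  have hP' : (1 : ℝ) ≤ P := by exact_mod_cast hP
  have hZ' : (1 : ℝ) ≤ Zc := by exact_mod_cast hZ
  have hP4 : (1 : ℝ) ≤ (P : ℝ) ^ 4 := one_le_pow₀ hP'
  have hH1 : 0 < H1 := by linarith
  have hH2 : 0 < H2 := by linarith
  set Cst : ℝ := (2 * E1 + 1) ^ 3 * (2 * E2 + 1) ^ 3 + 144 * P ^ 2 * H1 * H2 * ((2 * E1 + 1) ^ 2 * (2 * E2 + 1) ^ 2) / Zc ^ 2 with hCst
  have hC1 : 0 ≤ 144 * P ^ 2 * H1 * H2 * ((2 * E1 + 1) ^ 2 * (2 * E2 + 1) ^ 2) / (Zc : ℝ) ^ 2 := by positivity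
  have hC2 : 0 ≤ (2 * (E1 : ℝ) + 1) ^ 3 * (2 * E2 + 1) ^ 3 := by positivity
  have hC0 : 0 ≤ Cst := by rw [hCst]; positivity
  -- swap the sums
  have hswap : ∑ e ∈ bx E1 ×ˢ bx E2, (((QD P Zc).filter (fun q => |((dot e.1 (K12 q.2.1 q.2.2 q.1.1 q.1.2) : ℤ) : ℝ)| ≤ H1 ∧
        |((dot e.2 (K13 q.2.1 q.2.2 q.1.1 q.1.2) : ℤ) : ℝ)| ≤ H2)).card : ℝ) =
      ∑ q ∈ QD P Zc, (((bx E1).filter (fun e => |((dot e (K12 q.2.1 q.2.2 q.1.1 q.1.2) : ℤ) : ℝ)| ≤ H1)).card : ℝ) *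
        (((bx E2).filter (fun e => |((dot e (K13 q.2.1 q.2.2 q.1.1 q.1.2) : ℤ) : ℝ)| ≤ H2)).card : ℝ) := by
    simp_rw [Finset.card_filter]
    push_cast
    rw [Finset.sum_comm]
    apply Finset.sum_congr rfl; intro q _
    rw [Finset.sum_mul_sum, ← Finset.sum_product']
    apply Finset.sum_congr rfl; intro e _
    by_cases ha : |((dot e.1 (K12 q.2.1 q.2.2 q.1.1 q.1.2) : ℤ) : ℝ)| ≤ H1
    · by_cases hb : |((dot e.2 (K13 q.2.1 q.2.2 q.1.1 q.1.2) : ℤ) : ℝ)| ≤ H2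
      · rw [if_pos ⟨ha, hb⟩, if_pos ha, if_pos hb, mul_one]
      · rw [if_neg (fun h => hb h.2), if_neg hb, mul_zero]
    · rw [if_neg (fun h => ha h.1), if_neg ha, zero_mul]
  rw [hswap]
  -- pointwise bound
  have hpt : ∀ q ∈ QD P Zc, (((bx E1).filter (fun e => |((dot e (K12 q.2.1 q.2.2 q.1.1 q.1.2) : ℤ) : ℝ)| ≤ H1)).card : ℝ) *
        (((bx E2).filter (fun e => |((dot e (K13 q.2.1 q.2.2 q.1.1 q.1.2) : ℤ) : ℝ)| ≤ H2)).card : ℝ) ≤
      Cst * ((1 / (1 + |((dot q.2.1 (crs q.1.1 q.1.2) : ℤ) : ℝ)|)) * (1 / (1 + |((dot q.2.2 (crs q.1.1 q.1.2) : ℤ) : ℝ)|))) := by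
    intro q hq
    obtain ⟨⟨k3, k4⟩, ⟨k1, k2⟩⟩ := q
    unfold QD at hq
    rw [Finset.mem_filter, Finset.mem_product, Finset.mem_product, Finset.mem_product, mem_bx, mem_bx, mem_bx, mem_bx] at hq
    dsimp only at hq ⊢
    obtain ⟨⟨⟨b3, b4⟩, b1, b2⟩, c12, c34, c13, c24⟩ := hq
    set D2 : ℤ := dot k1 (crs k3 k4) with hD2
    set D1 : ℤ := dot k2 (crs k3 k4) with hD1
    have n12a := nm_lower (crs_K12_1 k1 k2 k3 k4) b1 c12
    have n12b := nm_lower (crs_K12_2 k1 k2 k3 k4) b2 c12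
    have n13a := nm_lower (crs_K13_4 k1 k2 k3 k4) b4 c24
    have n13b := nm_lower (crs_K13_3 k1 k2 k3 k4) b3 c13
    rw [Int.natAbs_neg] at n12a n12b
    rw [← hD2] at n12a n13a
    rw [← hD1] at n12b n13b
    set μ : ℕ := max D1.natAbs D2.natAbs with hμ
    have m12 : μ * Zc ≤ 2 * P * nm (K12 k1 k2 k3 k4) := by
      rcases max_choice D1.natAbs D2.natAbs with h | h
      · rw [hμ, h]; exact n12b
      · rw [hμ, h]; exact n12a
    have m13 : μ * Zc ≤ 2 * P * nm (K13 k1 k2 k3 k4) := by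
      rcases max_choice D1.natAbs D2.natAbs with h | h
      · rw [hμ, h]; exact n13b
      · rw [hμ, h]; exact n13a
    rcases Nat.eq_zero_or_pos μ with h0 | h0
    · have z1 : D1 = 0 := by
        have : D1.natAbs = 0 := by omega
        simpa using this
      have z2 : D2 = 0 := by
        have : D2.natAbs = 0 := by omega
        simpa using this
      rw [z1, z2]
      simp only [Int.cast_zero, abs_zero, add_zero, div_one, mul_one]
      have t1 := card_strip_triv (E := E1) (K12 k1 k2 k3 k4) H1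
      have t2 := card_strip_triv (E := E2) (K13 k1 k2 k3 k4) H2
      calc _ ≤ (2 * (E1 : ℝ) + 1) ^ 3 * (2 * E2 + 1) ^ 3 := by gcongr
        _ ≤ Cst := by rw [hCst]; linarith
    · have hμ' : (1 : ℝ) ≤ μ := by exact_mod_cast h0
      have key : ∀ (E : ℕ) (K : V3) (H : ℝ), 0 < H → 8 * (P : ℝ) ^ 4 ≤ H → nm K ≤ 8 * P ^ 4 → μ * Zc ≤ 2 * P * nm K →
          (((bx E).filter (fun e => |((dot e K : ℤ) : ℝ)| ≤ H)).card : ℝ) ≤ (2 * E + 1) ^ 2 * (6 * P * H / (μ * Zc)) := by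
        intro E K H hH0 hH hK hm
        have hKn : 0 < nm K := by
          rcases Nat.eq_zero_or_pos (nm K) with hk | hk
          · rw [hk, mul_zero] at hm
            have : 0 < μ * Zc := Nat.mul_pos h0 (by omega)
            omega
          · exact hk
        have hK0 : K ≠ 0 := fun h => by rw [nm_eq_zero.mpr h] at hKn; exact lt_irrefl _ hKn
        have hKn' : (0 : ℝ) < nm K := by exact_mod_cast hKn
        refine (card_strip hK0 hH0.le).trans ?_
        apply mul_le_mul_of_nonneg_left _ (by positivity)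
        have hK' : (nm K : ℝ) ≤ 8 * (P : ℝ) ^ 4 := by exact_mod_cast hK
        have hm' : (μ : ℝ) * Zc ≤ 2 * P * nm K := by exact_mod_cast hm
        have a1 : 1 ≤ H / nm K := by rw [le_div_iff₀ hKn']; linarith
        have a2 : 2 * H / (nm K : ℝ) + 1 ≤ 3 * (H / nm K) := by
          have : 2 * H / (nm K : ℝ) = 2 * (H / nm K) := by ring
          rw [this]; linarith
        refine a2.trans ?_
        rw [mul_div_assoc', div_le_div_iff₀ hKn' (by positivity)]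
        calc 3 * H * (μ * Zc) ≤ 3 * H * (2 * P * nm K) := by gcongr
          _ = 6 * P * H * nm K := by ring
      have t1 := key E1 _ H1 hH1 h1 (nm_K_le b1 b2 b3 b4) m12
      have t2 := key E2 _ H2 hH2 h2 (nm_K_le b1 b3 b2 b4) m13
      have d1 : |(D1 : ℝ)| ≤ μ := by
        rw [← Int.cast_abs, ← Nat.cast_natAbs]
        have : D1.natAbs ≤ μ := le_max_left _ _
        exact_mod_cast this
      have d2 : |(D2 : ℝ)| ≤ μ := by
        rw [← Int.cast_abs, ← Nat.cast_natAbs]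
        have : D2.natAbs ≤ μ := le_max_right _ _
        exact_mod_cast this
      calc _ ≤ ((2 * (E1 : ℝ) + 1) ^ 2 * (6 * P * H1 / (μ * Zc))) * ((2 * E2 + 1) ^ 2 * (6 * P * H2 / (μ * Zc))) :=
            mul_le_mul t1 t2 (Nat.cast_nonneg _) (by positivity)
        _ = (144 * P ^ 2 * H1 * H2 * ((2 * E1 + 1) ^ 2 * (2 * E2 + 1) ^ 2) / (Zc : ℝ) ^ 2) * ((1 / (2 * μ)) * (1 / (2 * μ))) := by
            field_simp; ring
        _ ≤ Cst * ((1 / (2 * μ)) * (1 / (2 * μ))) := by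
            apply mul_le_mul_of_nonneg_right _ (by positivity)
            rw [hCst]; linarith
        _ ≤ _ := by
            apply mul_le_mul_of_nonneg_left _ hC0
            apply mul_le_mul
            · apply one_div_le_one_div_of_le (by positivity); linarith
            · apply one_div_le_one_div_of_le (by positivity); linarith
            · positivity
            · positivity
  refine (Finset.sum_le_sum hpt).trans ?_
  rw [← Finset.mul_sum]
  apply mul_le_mul_of_nonneg_left _ hC0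
  refine le_trans ?_ (T0_bound hP hL)
  have hsub : QD P Zc ⊆ ((bx P ×ˢ bx P).filter (fun z => crs z.1 z.2 ≠ 0)) ×ˢ (bx P ×ˢ bx P) := by
    intro q hq
    unfold QD at hq
    rw [Finset.mem_filter, Finset.mem_product] at hq
    rw [Finset.mem_product, Finset.mem_filter]
    refine ⟨⟨hq.1.1, ?_⟩, hq.1.2⟩
    intro h0
    have := hq.2.2.1
    rw [nm_eq_zero.mpr h0] at this
    omega
  refine (Finset.sum_le_sum_of_subset_of_nonneg hsub (fun q _ _ => by positivity)).trans (le_of_eq ?_)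
  rw [Finset.sum_product]
  apply Finset.sum_congr rfl; intro z _
  rw [Finset.sum_product, sq, Finset.sum_mul_sum]

theorem tube_aux {P : ℕ} {a b c : ℤ} (hc : c ≠ 0) {Z : ℝ} (hZ : 0 ≤ Z) (F : Finset (ℤ × ℤ × ℤ))
    (hF : ∀ e ∈ F, (-(P : ℤ) ≤ e.2.2 ∧ e.2.2 ≤ P) ∧ |((c * e.1 - a * e.2.2 : ℤ) : ℝ)| ≤ Z ∧
      |((c * e.2.1 - b * e.2.2 : ℤ) : ℝ)| ≤ Z) :
    (F.card : ℝ) ≤ (2 * P + 1) * (2 * Z / (c.natAbs : ℝ) + 1) ^ 2 := by
  classical
  have hcn : (c.natAbs : ℝ) = |(c : ℝ)| := by rw [Nat.cast_natAbs, Int.cast_abs]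
  have hc0 : 0 < |(c : ℝ)| := abs_pos.mpr (by exact_mod_cast hc)
  set G : Finset ℤ := Finset.Icc (-(P : ℤ)) P with hG
  have hmaps : ∀ e ∈ F, e.2.2 ∈ G := by
    intro e he
    rw [hG, Finset.mem_Icc]; exact (hF e he).1
  have h1 : F.card = ∑ g ∈ G, (F.filter (fun e => e.2.2 = g)).card :=
    Finset.card_eq_sum_card_fiberwise hmaps
  have hfib : ∀ g ∈ G, ((F.filter (fun e => e.2.2 = g)).card : ℝ) ≤ (2 * Z / (c.natAbs : ℝ) + 1) ^ 2 := by
    intro g _
    set Fg := F.filter (fun e => e.2.2 = g) with hFg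
    have hsub : Fg ⊆ (Fg.image (fun e => e.1)) ×ˢ ((Fg.image (fun e => e.2.1)) ×ˢ {g}) := by
      intro e he
      rw [Finset.mem_product, Finset.mem_product]
      refine ⟨Finset.mem_image_of_mem _ he, Finset.mem_image_of_mem _ he, ?_⟩
      rw [Finset.mem_singleton]; exact (Finset.mem_filter.mp he).2
    have hcard := Finset.card_le_card hsub
    rw [Finset.card_product, Finset.card_product, Finset.card_singleton, mul_one] at hcard
    have c1 : ((Fg.image (fun e => e.1)).card : ℝ) ≤ 2 * Z / (c.natAbs : ℝ) + 1 := by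
      rw [hcn]
      apply card_near hc (α := (a : ℝ) * g) hZ
      intro y hy
      rw [Finset.mem_image] at hy
      obtain ⟨x, hx, rfl⟩ := hy
      rw [hFg, Finset.mem_filter] at hx
      have := (hF x hx.1).2.1
      rw [hx.2] at this
      push_cast at this; exact this
    have c2 : ((Fg.image (fun e => e.2.1)).card : ℝ) ≤ 2 * Z / (c.natAbs : ℝ) + 1 := by
      rw [hcn]
      apply card_near hc (α := (b : ℝ) * g) hZ
      intro y hy
      rw [Finset.mem_image] at hy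
      obtain ⟨x, hx, rfl⟩ := hy
      rw [hFg, Finset.mem_filter] at hx
      have := (hF x hx.1).2.2
      rw [hx.2] at this
      push_cast at this; exact this
    have h2 : (Fg.card : ℝ) ≤ ((Fg.image (fun e => e.1)).card : ℝ) * ((Fg.image (fun e => e.2.1)).card : ℝ) := by
      exact_mod_cast hcard
    refine h2.trans ?_
    rw [sq]
    gcongr
  have h2 : (F.card : ℝ) = ∑ g ∈ G, ((F.filter (fun e => e.2.2 = g)).card : ℝ) := by
    rw [h1]; push_cast; rfl
  rw [h2]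
  calc _ ≤ ∑ g ∈ G, (2 * Z / (c.natAbs : ℝ) + 1) ^ 2 := Finset.sum_le_sum hfib
    _ = G.card * (2 * Z / (c.natAbs : ℝ) + 1) ^ 2 := by rw [Finset.sum_const, nsmul_eq_mul]
    _ = _ := by
      rw [hG, card_Icc_sym]; push_cast; ring

theorem abs_le_of_natAbs_lt {z : ℤ} {Z : ℕ} (h : z.natAbs < Z) : |(z : ℝ)| ≤ Z := by
  rw [← Int.cast_abs, ← Nat.cast_natAbs]
  exact_mod_cast h.le

theorem card_tube {P Zc : ℕ} {k : V3} (hk : k ≠ 0) :
    (((bx P).filter (fun k' => nm (crs k k') < Zc)).card : ℝ) ≤ (2 * P + 1) * (2 * Zc / (nm k : ℝ) + 1) ^ 2 := by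
  have hn : nm k ≠ 0 := fun h => hk (nm_eq_zero.mp h)
  have hmem : ∀ k' ∈ (bx P).filter (fun k' => nm (crs k k') < Zc),
      (k'.1.natAbs ≤ P ∧ k'.2.1.natAbs ≤ P ∧ k'.2.2.natAbs ≤ P) ∧ (k.2.1 * k'.2.2 - k.2.2 * k'.2.1).natAbs < Zc ∧
      (k.2.2 * k'.1 - k.1 * k'.2.2).natAbs < Zc ∧ (k.1 * k'.2.1 - k.2.1 * k'.1).natAbs < Zc := by
    intro k' hk'
    rw [Finset.mem_filter, mem_bx] at hk'
    obtain ⟨h1, h2⟩ := hk'
    have e : nm (crs k k') = max (k.2.1 * k'.2.2 - k.2.2 * k'.2.1).natAbs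
      (max (k.2.2 * k'.1 - k.1 * k'.2.2).natAbs (k.1 * k'.2.1 - k.2.1 * k'.1).natAbs) := rfl
    rw [e] at h2
    refine ⟨?_, ?_⟩
    · unfold nm at h1; omega
    · omega
  have hcase : nm k = k.2.2.natAbs ∨ nm k = k.2.1.natAbs ∨ nm k = k.1.natAbs := by
    unfold nm; omega
  rcases hcase with h | h | h
  · rw [h]
    apply tube_aux (a := k.1) (b := k.2.1) (c := k.2.2) _ (Nat.cast_nonneg _)
    · intro k' hk'
      obtain ⟨⟨h1, h2, h3⟩, h4, h5, h6⟩ := hmem k' hk'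
      refine ⟨by omega, ?_, ?_⟩
      · exact abs_le_of_natAbs_lt h5
      · apply abs_le_of_natAbs_lt
        rw [← Int.natAbs_neg, neg_sub]; exact h4
    · intro h0; rw [h, h0] at hn; simp at hn
  · rw [h]
    have e : ((bx P).filter (fun k' => nm (crs k k') < Zc)).card = (((bx P).filter (fun k' => nm (crs k k') < Zc)).image (fun k : V3 => (k.1, k.2.2, k.2.1))).card := by
      rw [Finset.card_image_of_injective]
      intro k k' hk
      simp only [Prod.mk.injEq] at hk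
      exact Prod.ext hk.1 (Prod.ext hk.2.2 hk.2.1)
    rw [e]
    apply tube_aux (a := k.1) (b := k.2.2) (c := k.2.1) _ (Nat.cast_nonneg _)
    · intro x hx
      rw [Finset.mem_image] at hx
      obtain ⟨k', hk', rfl⟩ := hx
      obtain ⟨⟨h1, h2, h3⟩, h4, h5, h6⟩ := hmem k' hk'
      dsimp only
      refine ⟨by omega, ?_, ?_⟩
      · apply abs_le_of_natAbs_lt
        rw [← Int.natAbs_neg, neg_sub]; exact h6
      · exact abs_le_of_natAbs_lt h4
    · intro h0; rw [h, h0] at hn; simp at hn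
  · rw [h]
    have e : ((bx P).filter (fun k' => nm (crs k k') < Zc)).card = (((bx P).filter (fun k' => nm (crs k k') < Zc)).image (fun k : V3 => (k.2.2, k.2.1, k.1))).card := by
      rw [Finset.card_image_of_injective]
      intro k k' hk
      simp only [Prod.mk.injEq] at hk
      exact Prod.ext hk.2.2 (Prod.ext hk.2.1 hk.1)
    rw [e]
    apply tube_aux (a := k.2.2) (b := k.2.1) (c := k.1) _ (Nat.cast_nonneg _)
    · intro x hx
      rw [Finset.mem_image] at hx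
      obtain ⟨k', hk', rfl⟩ := hx
      obtain ⟨⟨h1, h2, h3⟩, h4, h5, h6⟩ := hmem k' hk'
      dsimp only
      refine ⟨by omega, ?_, ?_⟩
      · apply abs_le_of_natAbs_lt
        rw [← Int.natAbs_neg, neg_sub]; exact h5
      · exact abs_le_of_natAbs_lt h6
    · intro h0; rw [h, h0] at hn; simp at hn

theorem deg_pairs {P Zc κ : ℕ} (hκ : 1 ≤ κ) :
    (((bx P ×ˢ bx P).filter (fun z => nm (crs z.1 z.2) < Zc)).card : ℝ) ≤
      (2 * κ + 1) ^ 3 * (2 * P + 1) ^ 3 + (2 * P + 1) ^ 4 * (2 * Zc / κ + 1) ^ 2 := by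
  classical
  have hκ' : (1 : ℝ) ≤ κ := by exact_mod_cast hκ
  have h1 : ((bx P ×ˢ bx P).filter (fun z => nm (crs z.1 z.2) < Zc)).card =
      ∑ k ∈ bx P, ((bx P).filter (fun k' => nm (crs k k') < Zc)).card := by
    rw [Finset.card_filter, Finset.sum_product]
    apply Finset.sum_congr rfl; intro k _
    rw [Finset.card_filter]
  have h2 : (((bx P ×ˢ bx P).filter (fun z => nm (crs z.1 z.2) < Zc)).card : ℝ) =
      ∑ k ∈ bx P, (((bx P).filter (fun k' => nm (crs k k') < Zc)).card : ℝ) := by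
    rw [h1]; push_cast; rfl
  rw [h2]
  have h3 : ∀ k ∈ bx P, (((bx P).filter (fun k' => nm (crs k k') < Zc)).card : ℝ) ≤
      (if nm k ≤ κ then (2 * (P : ℝ) + 1) ^ 3 else 0) + (2 * P + 1) * (2 * Zc / κ + 1) ^ 2 := by
    intro k _
    by_cases hk : nm k ≤ κ
    · rw [if_pos hk]
      have := Finset.card_filter_le (bx P) (fun k' => nm (crs k k') < Zc)
      rw [card_bx] at this
      have h' : (((bx P).filter (fun k' => nm (crs k k') < Zc)).card : ℝ) ≤ (2 * P + 1) ^ 3 := by exact_mod_cast this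
      have : 0 ≤ (2 * (P : ℝ) + 1) * (2 * Zc / κ + 1) ^ 2 := by positivity
      linarith
    · rw [if_neg hk, zero_add]
      push Not at hk
      have hk0 : k ≠ 0 := by
        intro h; rw [nm_eq_zero.mpr h] at hk; omega
      refine (card_tube hk0).trans ?_
      have : (κ : ℝ) ≤ nm k := by exact_mod_cast hk.le
      gcongr
  refine (Finset.sum_le_sum h3).trans ?_
  rw [Finset.sum_add_distrib, Finset.sum_const, nsmul_eq_mul, card_bx, ← Finset.sum_filter, Finset.sum_const, nsmul_eq_mul]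
  have h4 : (((bx P).filter (fun k => nm k ≤ κ)).card : ℝ) ≤ (2 * κ + 1) ^ 3 := by
    have : ((bx P).filter (fun k => nm k ≤ κ)).card ≤ (bx κ).card := by
      apply Finset.card_le_card
      intro k hk
      rw [Finset.mem_filter] at hk
      rw [mem_bx]; exact hk.2
    rw [card_bx] at this
    exact_mod_cast this
  have h5 : (((2 * P + 1) ^ 3 : ℕ) : ℝ) * ((2 * P + 1) * (2 * Zc / κ + 1) ^ 2) = (2 * P + 1) ^ 4 * (2 * Zc / κ + 1) ^ 2 := by
    push_cast; ring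
  rw [h5]
  gcongr

end Run7.h297
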