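import Mathlib

set_option autoImplicit false

/-! Digits of a law: levels, entropy of the levels, heavy digits and regular levels. -/

noncomputable section

namespace Run7.h297

open Real Finset

/-- mass of a cell of level `k` -/
def lev (m : ℕ) (μ : ℕ → ℝ) (k c : ℕ) : ℝ := ∑ x ∈ range (2 ^ m), if x / 2 ^ (m - k) = c then μ x else 0

section

variable {m : ℕ} {μ : ℕ → ℝ} (h0 : ∀ x, 0 ≤ μ x)

include h0 in
theorem lev_nonneg (k c : ℕ) : 0 ≤ lev m μ k c := by
  unfold lev
  apply Finset.sum_nonneg; intro x _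
  split_ifs
  · exact h0 x
  · exact le_rfl

theorem div_split {m k x : ℕ} (hk : k < m) : x / 2 ^ (m - k) = (x / 2 ^ (m - (k + 1))) / 2 := by
  rw [Nat.div_div_eq_div_mul, ← pow_succ]
  congr 2; omega

theorem lev_split {k c : ℕ} (hk : k < m) : lev m μ k c = lev m μ (k + 1) (2 * c) + lev m μ (k + 1) (2 * c + 1) := by
  unfold lev
  rw [← Finset.sum_add_distrib]
  apply Finset.sum_congr rfl; intro x _
  rw [div_split hk]
  generalize x / 2 ^ (m - (k + 1)) = z
  by_cases h1 : z = 2 * c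
  · rw [if_pos (by omega), if_pos h1, if_neg (by omega), add_zero]
  · by_cases h2 : z = 2 * c + 1
    · rw [if_pos (by omega), if_neg h1, if_pos h2, zero_add]
    · rw [if_neg (by omega), if_neg h1, if_neg h2, add_zero]

theorem lev_top {x : ℕ} (hx : x < 2 ^ m) : lev m μ m x = μ x := by
  unfold lev
  rw [Nat.sub_self, pow_zero]
  simp only [Nat.div_one]
  rw [Finset.sum_ite_eq', if_pos (Finset.mem_range.mpr hx)]

theorem div_lt_of_lt {m k x : ℕ} (hk : k ≤ m) (hx : x < 2 ^ m) : x / 2 ^ (m - k) < 2 ^ k := by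
  rw [Nat.div_lt_iff_lt_mul (by positivity), ← pow_add]
  have : k + (m - k) = m := by omega
  rw [this]; exact hx

theorem sum_lev {k : ℕ} (hk : k ≤ m) (f : ℕ → ℝ) :
    ∑ c ∈ range (2 ^ k), lev m μ k c * f c = ∑ x ∈ range (2 ^ m), μ x * f (x / 2 ^ (m - k)) := by
  unfold lev
  simp_rw [Finset.sum_mul]
  rw [Finset.sum_comm]
  apply Finset.sum_congr rfl; intro x hx
  rw [Finset.mem_range] at hx
  simp_rw [ite_mul, zero_mul]
  rw [Finset.sum_ite_eq, if_pos (Finset.mem_range.mpr (div_lt_of_lt hk hx))]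

/-- entropy of the levels -/
def Ent (m : ℕ) (μ : ℕ → ℝ) (k : ℕ) : ℝ := ∑ c ∈ range (2 ^ k), negMulLog (lev m μ k c)

theorem Ent_top : Ent m μ m = ∑ x ∈ range (2 ^ m), negMulLog (μ x) := by
  unfold Ent
  apply Finset.sum_congr rfl; intro x hx
  rw [lev_top (Finset.mem_range.mp hx)]

theorem Ent_zero (h1 : ∑ x ∈ range (2 ^ m), μ x = 1) : Ent m μ 0 = 0 := by
  unfold Ent
  rw [pow_zero, Finset.sum_range_one]
  have : lev m μ 0 0 = 1 := by
    unfold lev
    rw [← h1]
    apply Finset.sum_congr rfl; intro x hx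
    rw [if_pos]
    rw [Nat.sub_zero]
    exact Nat.div_eq_of_lt (Finset.mem_range.mp hx)
  rw [this, negMulLog_one]

/-- a heavy digit -/
def hvy (m : ℕ) (μ : ℕ → ℝ) (k c : ℕ) : Prop := 9 / 16 * lev m μ (k - 1) (c / 2) < lev m μ k c

/-- the basic entropy inequality for two children -/
theorem two_child {a b : ℝ} (ha : 0 ≤ a) (hb : 0 ≤ b) :
    negMulLog a + negMulLog b - negMulLog (a + b) ≤
      (a + b) * Real.log 2 - (a - Real.sqrt (a * ((a + b) / 2))) * 2 - (b - Real.sqrt (b * ((a + b) / 2))) * 2 := by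
  rcases eq_or_lt_of_le (show 0 ≤ a + b by linarith) with hs | hs
  · have ha' : a = 0 := by linarith
    have hb' : b = 0 := by linarith
    rw [ha', hb']; simp
  · set s := a + b with hsd
    have key : ∀ c : ℝ, 0 ≤ c → negMulLog c + c * Real.log s ≤ c * Real.log 2 - (c - Real.sqrt (c * (s / 2))) * 2 := by
      intro c hc
      rcases eq_or_lt_of_le hc with h | h
      · rw [← h]; simp
      · have hz : 0 < Real.sqrt (s / 2 / c) := Real.sqrt_pos.mpr (by positivity)
        have h1 := Real.log_le_sub_one_of_pos hz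
        have h2 : Real.log (Real.sqrt (s / 2 / c)) = (Real.log s - Real.log 2 - Real.log c) / 2 := by
          rw [Real.log_sqrt (by positivity), Real.log_div (by positivity) h.ne', Real.log_div hs.ne' (by norm_num)]
        have h3 : c * Real.sqrt (s / 2 / c) = Real.sqrt (c * (s / 2)) := by
          have h4 : c = Real.sqrt (c ^ 2) := (Real.sqrt_sq hc).symm
          nth_rewrite 1 [h4]
          rw [← Real.sqrt_mul (sq_nonneg c)]
          congr 1
          field_simp
        have h5 : c * ((Real.log s - Real.log 2 - Real.log c) / 2) ≤ c * (Real.sqrt (s / 2 / c) - 1) := by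
          rw [← h2]; exact mul_le_mul_of_nonneg_left h1 hc
        rw [mul_sub, h3] at h5
        rw [negMulLog]
        linarith
    have k1 := key a ha
    have k2 := key b hb
    have e : negMulLog s = - ((a + b) * Real.log s) := by rw [negMulLog, ← hsd]; ring
    rw [e, hsd]
    rw [hsd] at k1 k2
    linarith

theorem two_child0 {a b : ℝ} (ha : 0 ≤ a) (hb : 0 ≤ b) :
    negMulLog a + negMulLog b - negMulLog (a + b) ≤ (a + b) * Real.log 2 := by
  have h := two_child ha hb
  have h1 : Real.sqrt (a * ((a + b) / 2)) ≤ (a + (a + b) / 2) / 2 := by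
    rw [Real.sqrt_le_left (by positivity)]
    nlinarith [sq_nonneg (a - (a + b) / 2)]
  have h2 : Real.sqrt (b * ((a + b) / 2)) ≤ (b + (a + b) / 2) / 2 := by
    rw [Real.sqrt_le_left (by positivity)]
    nlinarith [sq_nonneg (b - (a + b) / 2)]
  linarith

theorem two_child1 {a b : ℝ} (ha : 0 ≤ a) (hb : 0 ≤ b) (h : 9 / 16 * (a + b) < a) :
    negMulLog a + negMulLog b - negMulLog (a + b) ≤ (a + b) * Real.log 2 - (a + b) / 600 := by
  have h0 := two_child ha hb
  set x := Real.sqrt a with hx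
  set y := Real.sqrt b with hy
  set z := Real.sqrt ((a + b) / 2) with hz
  have hs : 0 ≤ (a + b) / 2 := by linarith
  have e1 : Real.sqrt (a * ((a + b) / 2)) = x * z := Real.sqrt_mul ha _
  have e2 : Real.sqrt (b * ((a + b) / 2)) = y * z := Real.sqrt_mul hb _
  rw [e1, e2] at h0
  have x0 : 0 ≤ x := Real.sqrt_nonneg _
  have y0 : 0 ≤ y := Real.sqrt_nonneg _
  have z0 : 0 ≤ z := Real.sqrt_nonneg _
  have xs : x ^ 2 = a := Real.sq_sqrt ha
  have ys : y ^ 2 = b := Real.sq_sqrt hb
  have zs : z ^ 2 = (a + b) / 2 := Real.sq_sqrt hs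
  have hyx : y ≤ 0.882 * x := by
    apply le_of_sq_le_sq _ (by positivity)
    rw [mul_pow, xs, ys]
    norm_num
    linarith
  have h3 : (x + y) ≤ 2 * z * (1 - 1 / 1200) := by
    apply le_of_sq_le_sq _ (by positivity)
    have e3 : (2 * z * (1 - 1 / 1200)) ^ 2 = 4 * z ^ 2 * (1 - 1 / 1200) ^ 2 := by ring
    rw [e3, zs, ← xs, ← ys]
    have h4 : (0.118 * x) ^ 2 ≤ (x - y) ^ 2 := by
      apply pow_le_pow_left₀ (by positivity)
      linarith
    have h5 : y ^ 2 ≤ (0.882 * x) ^ 2 := pow_le_pow_left₀ y0 hyx 2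
    nlinarith [sq_nonneg x]
  have h6 : z * (x + y) ≤ z * (2 * z * (1 - 1 / 1200)) := mul_le_mul_of_nonneg_left h3 z0
  have h7 : z * (2 * z * (1 - 1 / 1200)) = (a + b) * (1 - 1 / 1200) := by
    have : z * (2 * z * (1 - 1 / 1200)) = 2 * z ^ 2 * (1 - 1 / 1200) := by ring
    rw [this, zs]; ring
  linarith

open Classical in
/-- mass of the heavy digits of level `k` -/
def hvm (m : ℕ) (μ : ℕ → ℝ) (k : ℕ) : ℝ := ∑ x ∈ range (2 ^ m), if hvy m μ k (x / 2 ^ (m - k)) then μ x else 0

open Classical in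
include h0 in
theorem hvm_le {k : ℕ} (hk : k < m) (h1 : ∑ x ∈ range (2 ^ m), μ x = 1) :
    hvm m μ (k + 1) / 600 ≤ Real.log 2 - (Ent m μ (k + 1) - Ent m μ k) := by
  have hlg : 0 < Real.log 2 := Real.log_pos (by norm_num)
  have e1 : hvm m μ (k + 1) = ∑ c ∈ range (2 ^ (k + 1)), lev m μ (k + 1) c * (if hvy m μ (k + 1) c then 1 else 0) := by
    rw [sum_lev (by omega)]
    unfold hvm
    apply Finset.sum_congr rfl; intro x _
    split_ifs <;> ring
  have esum : ∀ f : ℕ → ℝ, ∑ c ∈ range (2 ^ (k + 1)), f c = ∑ c ∈ range (2 ^ k), (f (2 * c) + f (2 * c + 1)) := by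
    intro f
    rw [pow_succ]
    generalize 2 ^ k = n
    induction n with
    | zero => simp
    | succ n ih =>
      rw [show (n + 1) * 2 = n * 2 + 1 + 1 by ring, Finset.sum_range_succ, Finset.sum_range_succ, ih, Finset.sum_range_succ]
      rw [show n * 2 = 2 * n by ring]; ring
  have e2 : Real.log 2 = ∑ c ∈ range (2 ^ k), lev m μ k c * Real.log 2 := by
    rw [← Finset.sum_mul]
    have := sum_lev (m := m) (μ := μ) (k := k) (by omega) (fun _ => 1)
    simp only [mul_one] at this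
    rw [this, h1, one_mul]
  rw [e1, esum, e2]
  unfold Ent
  rw [esum, ← Finset.sum_sub_distrib, ← Finset.sum_sub_distrib, Finset.sum_div]
  apply Finset.sum_le_sum; intro c _
  have hsp := lev_split (m := m) (μ := μ) (k := k) (c := c) hk
  have n1 := lev_nonneg (m := m) (μ := μ) h0 (k + 1) (2 * c)
  have n2 := lev_nonneg (m := m) (μ := μ) h0 (k + 1) (2 * c + 1)
  have ev1 : hvy m μ (k + 1) (2 * c) ↔ 9 / 16 * lev m μ k c < lev m μ (k + 1) (2 * c) := by
    unfold hvy
    rw [Nat.add_sub_cancel, show 2 * c / 2 = c by omega]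
  have ev2 : hvy m μ (k + 1) (2 * c + 1) ↔ 9 / 16 * lev m μ k c < lev m μ (k + 1) (2 * c + 1) := by
    unfold hvy
    rw [Nat.add_sub_cancel, show (2 * c + 1) / 2 = c by omega]
  rw [hsp] at ev1 ev2 ⊢
  set a := lev m μ (k + 1) (2 * c) with ha
  set b := lev m μ (k + 1) (2 * c + 1) with hb
  have t0 := two_child0 n1 n2
  by_cases c1 : hvy m μ (k + 1) (2 * c)
  · have c1' := ev1.mp c1
    have t1 := two_child1 n1 n2 c1'
    rw [if_pos c1]
    split_ifs
    · linarith
    · linarith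
  · rw [if_neg c1]
    by_cases c2 : hvy m μ (k + 1) (2 * c + 1)
    · have c2' := ev2.mp c2
      have t1 := two_child1 n2 n1 (by rw [add_comm b a]; exact c2')
      rw [if_pos c2]
      rw [add_comm b a] at t1
      linarith
    · rw [if_neg c2]
      linarith

include h0 in
theorem sum_hvm (h1 : ∑ x ∈ range (2 ^ m), μ x = 1) :
    ∑ k ∈ range m, hvm m μ (k + 1) ≤ 600 * (m * Real.log 2 - ∑ x ∈ range (2 ^ m), negMulLog (μ x)) := by
  have h := Finset.sum_le_sum (fun k (hk : k ∈ range m) => hvm_le h0 (Finset.mem_range.mp hk) h1)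
  rw [← Finset.sum_div, Finset.sum_sub_distrib, Finset.sum_range_sub (fun k => Ent m μ k), Finset.sum_const, card_range,
    nsmul_eq_mul, Ent_top, Ent_zero h1] at h
  linarith

open Classical in
/-- the excess of heavy digits -/
def dd (m : ℕ) (μ : ℕ → ℝ) : ℕ → ℕ → ℕ
  | 0, _ => 0
  | k + 1, c => if hvy m μ (k + 1) c then dd m μ k (c / 2) + 7 else dd m μ k (c / 2) - 1

include h0 in
theorem dd_step (k c : ℕ) (hk : k < m) :
    lev m μ (k + 1) c ≤ lev m μ k (c / 2) * (61 / 100) * (108 / 100) ^ (dd m μ (k + 1) c) / (108 / 100) ^ (dd m μ k (c / 2)) := by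
  have n1 := lev_nonneg (m := m) (μ := μ) h0 (k + 1) c
  have n2 := lev_nonneg (m := m) (μ := μ) h0 k (c / 2)
  have hle : lev m μ (k + 1) c ≤ lev m μ k (c / 2) := by
    rw [lev_split hk]
    have n3 := lev_nonneg (m := m) (μ := μ) h0 (k + 1) (2 * (c / 2))
    have n4 := lev_nonneg (m := m) (μ := μ) h0 (k + 1) (2 * (c / 2) + 1)
    rcases Nat.even_or_odd' c with ⟨d, hd | hd⟩
    · have h5 : lev m μ (k + 1) (2 * (c / 2)) = lev m μ (k + 1) c := by congr 1; omega
      rw [h5] at n3 ⊢; linarith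
    · have h5 : lev m μ (k + 1) (2 * (c / 2) + 1) = lev m μ (k + 1) c := by congr 1; omega
      rw [h5] at n4 ⊢; linarith
  rw [le_div_iff₀ (by positivity)]
  by_cases hc : hvy m μ (k + 1) c
  · have e : dd m μ (k + 1) c = dd m μ k (c / 2) + 7 := by
      rw [dd]; rw [if_pos hc]
    rw [e, pow_add]
    have hp : (0 : ℝ) < (108 / 100) ^ (dd m μ k (c / 2)) := by positivity
    have : (1 : ℝ) ≤ (61 / 100) * (108 / 100) ^ 7 := by norm_num
    calc lev m μ (k + 1) c * (108 / 100) ^ dd m μ k (c / 2) ≤ lev m μ k (c / 2) * (108 / 100) ^ dd m μ k (c / 2) * 1 := by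
          rw [mul_one]; gcongr
      _ ≤ lev m μ k (c / 2) * (108 / 100) ^ dd m μ k (c / 2) * ((61 / 100) * (108 / 100) ^ 7) := by gcongr
      _ = _ := by ring
  · have e : dd m μ (k + 1) c = dd m μ k (c / 2) - 1 := by
      rw [dd]; rw [if_neg hc]
    have hc' : lev m μ (k + 1) c ≤ 9 / 16 * lev m μ k (c / 2) := by
      unfold hvy at hc
      rw [Nat.add_sub_cancel] at hc
      push Not at hc; exact hc
    rw [e]
    rcases Nat.eq_zero_or_pos (dd m μ k (c / 2)) with h | h
    · rw [h]; simp only [Nat.zero_sub, pow_zero, mul_one]; linarith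
    · obtain ⟨d, hd⟩ := Nat.exists_eq_succ_of_ne_zero h.ne'
      rw [hd, Nat.succ_eq_add_one, Nat.add_sub_cancel, pow_succ]
      have hp : (0 : ℝ) < (108 / 100) ^ d := by positivity
      calc lev m μ (k + 1) c * ((108 / 100) ^ d * (108 / 100)) ≤ (9 / 16 * lev m μ k (c / 2)) * ((108 / 100) ^ d * (108 / 100)) := by
            gcongr
        _ = (9 / 16 * (108 / 100)) * (lev m μ k (c / 2) * (108 / 100) ^ d) := by ring
        _ ≤ (61 / 100) * (lev m μ k (c / 2) * (108 / 100) ^ d) := by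
            apply mul_le_mul_of_nonneg_right (by norm_num) (by positivity)
        _ = _ := by ring

include h0 in
theorem dd_multi (k j c : ℕ) (hk : k + j ≤ m) :
    lev m μ (k + j) c * (108 / 100) ^ (dd m μ k (c / 2 ^ j)) ≤
      lev m μ k (c / 2 ^ j) * (61 / 100) ^ j * (108 / 100) ^ (dd m μ (k + j) c) := by
  induction j generalizing c with
  | zero => simp
  | succ j ih =>
    have h1 := ih (c / 2) (by omega)
    rw [Nat.div_div_eq_div_mul, ← pow_succ'] at h1
    have h2 := dd_step (m := m) h0 (k + j) c (by omega)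
    have n5 := lev_nonneg (m := m) (μ := μ) h0 (k + j) (c / 2)
    rw [le_div_iff₀ (by positivity)] at h2
    rw [← add_assoc]
    have hp1 : (0 : ℝ) < (108 / 100) ^ dd m μ (k + j) (c / 2) := by positivity
    have hp2 : (0 : ℝ) < (108 / 100) ^ dd m μ k (c / 2 ^ (j + 1)) := by positivity
    have hp3 : (0 : ℝ) < (108 / 100) ^ dd m μ (k + j + 1) c := by positivity
    have h3 : (lev m μ (k + j + 1) c * (108 / 100) ^ dd m μ k (c / 2 ^ (j + 1))) * (108 / 100) ^ dd m μ (k + j) (c / 2) ≤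
        (lev m μ k (c / 2 ^ (j + 1)) * (61 / 100) ^ (j + 1) * (108 / 100) ^ dd m μ (k + j + 1) c) * (108 / 100) ^ dd m μ (k + j) (c / 2) := by
      calc _ = (lev m μ (k + j + 1) c * (108 / 100) ^ dd m μ (k + j) (c / 2)) * (108 / 100) ^ dd m μ k (c / 2 ^ (j + 1)) := by ring
        _ ≤ (lev m μ (k + j) (c / 2) * (61 / 100) * (108 / 100) ^ dd m μ (k + j + 1) c) * (108 / 100) ^ dd m μ k (c / 2 ^ (j + 1)) := by
            gcongr
        _ = (lev m μ (k + j) (c / 2) * (108 / 100) ^ dd m μ k (c / 2 ^ (j + 1))) * ((61 / 100) * (108 / 100) ^ dd m μ (k + j + 1) c) := by ring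
        _ ≤ (lev m μ k (c / 2 ^ (j + 1)) * (61 / 100) ^ j * (108 / 100) ^ (dd m μ (k + j) (c / 2))) * ((61 / 100) * (108 / 100) ^ dd m μ (k + j + 1) c) := by
            gcongr
        _ = _ := by rw [pow_succ]; ring
    exact le_of_mul_le_mul_right h3 hp1

include h0 in
/-- regularity of the levels without excess -/
theorem reg_le {k j c : ℕ} (hk : k + j ≤ m) (hd : dd m μ (k + j) c = 0) :
    lev m μ (k + j) c ≤ lev m μ k (c / 2 ^ j) * (61 / 100) ^ j := by
  have h := dd_multi h0 k j c hk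
  rw [hd, pow_zero, mul_one] at h
  have h1 : (1 : ℝ) ≤ (108 / 100) ^ (dd m μ k (c / 2 ^ j)) := one_le_pow₀ (by norm_num)
  have n1 := lev_nonneg (m := m) (μ := μ) h0 (k + j) c
  calc lev m μ (k + j) c ≤ lev m μ (k + j) c * (108 / 100) ^ (dd m μ k (c / 2 ^ j)) := le_mul_of_one_le_right n1 h1
    _ ≤ _ := h

open Classical in
theorem count_irr (x K : ℕ) (hK : K ≤ m) :
    (∑ k ∈ range K, if dd m μ (k + 1) (x / 2 ^ (m - (k + 1))) = 0 then 0 else 1) + dd m μ K (x / 2 ^ (m - K)) ≤
      8 * ∑ k ∈ range K, if hvy m μ (k + 1) (x / 2 ^ (m - (k + 1))) then 1 else 0 := by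
  induction K with
  | zero => simp [dd]
  | succ K ih =>
    have h1 := ih (by omega)
    rw [Finset.sum_range_succ, Finset.sum_range_succ]
    have e : dd m μ (K + 1) (x / 2 ^ (m - (K + 1))) =
        if hvy m μ (K + 1) (x / 2 ^ (m - (K + 1))) then dd m μ K (x / 2 ^ (m - K)) + 7 else dd m μ K (x / 2 ^ (m - K)) - 1 := by
      rw [dd, ← div_split (by omega)]
    rw [e]
    generalize dd m μ K (x / 2 ^ (m - K)) = d at *
    by_cases hc : hvy m μ (K + 1) (x / 2 ^ (m - (K + 1)))
    · rw [if_pos hc, if_pos hc]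
      split_ifs <;> omega
    · rw [if_neg hc, if_neg hc]
      split_ifs <;> omega

open Classical in
/-- mass of the irregular cells -/
def irm (m : ℕ) (μ : ℕ → ℝ) (k : ℕ) : ℝ :=
  ∑ x ∈ range (2 ^ m), if dd m μ k (x / 2 ^ (m - k)) = 0 then 0 else μ x

include h0 in
open Classical in
theorem sum_irm (h1 : ∑ x ∈ range (2 ^ m), μ x = 1) :
    ∑ k ∈ range m, irm m μ (k + 1) ≤ 4800 * (m * Real.log 2 - ∑ x ∈ range (2 ^ m), negMulLog (μ x)) := by
  have hb : ∑ k ∈ range m, irm m μ (k + 1) ≤ 8 * ∑ k ∈ range m, hvm m μ (k + 1) := by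
    unfold irm hvm
    rw [Finset.sum_comm, Finset.sum_comm (s := range m) (t := range (2 ^ m)), Finset.mul_sum]
    apply Finset.sum_le_sum; intro x _
    have h2 := count_irr (m := m) (μ := μ) x m le_rfl
    have h3 : (∑ k ∈ range m, if dd m μ (k + 1) (x / 2 ^ (m - (k + 1))) = 0 then 0 else 1) ≤
        8 * ∑ k ∈ range m, if hvy m μ (k + 1) (x / 2 ^ (m - (k + 1))) then 1 else 0 := by omega
    have h4 : ((∑ k ∈ range m, if dd m μ (k + 1) (x / 2 ^ (m - (k + 1))) = 0 then 0 else 1 : ℕ) : ℝ) ≤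
        ((8 * ∑ k ∈ range m, if hvy m μ (k + 1) (x / 2 ^ (m - (k + 1))) then 1 else 0 : ℕ) : ℝ) := by exact_mod_cast h3
    push_cast at h4
    have e1 : ∑ k ∈ range m, (if dd m μ (k + 1) (x / 2 ^ (m - (k + 1))) = 0 then 0 else μ x) =
        μ x * ∑ k ∈ range m, (if dd m μ (k + 1) (x / 2 ^ (m - (k + 1))) = 0 then (0 : ℝ) else 1) := by
      rw [Finset.mul_sum]
      apply Finset.sum_congr rfl; intro k _
      split_ifs <;> ring
    have e2 : ∑ k ∈ range m, (if hvy m μ (k + 1) (x / 2 ^ (m - (k + 1))) then μ x else 0) =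
        μ x * ∑ k ∈ range m, (if hvy m μ (k + 1) (x / 2 ^ (m - (k + 1))) then (1 : ℝ) else 0) := by
      rw [Finset.mul_sum]
      apply Finset.sum_congr rfl; intro k _
      split_ifs <;> ring
    rw [e1, e2]
    have := mul_le_mul_of_nonneg_left h4 (h0 x)
    linarith
  have := sum_hvm h0 h1
  linarith

end

end Run7.h297
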