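import Pool.Agent.Run7.h297.Basis

set_option autoImplicit false

/-! Bounds for the sums attached to four modes. -/

noncomputable section

namespace Run7.h297

open Real Finset MeasureTheory

theorem coe_aff (c A B : ℝ) (u v : ℤ) :
    ((c : ℝ) : TT) + (u • ((A : ℝ) : TT) + v • ((B : ℝ) : TT)) = ((c + A * u + B * v : ℝ) : TT) := by
  have e1 : u • ((A : ℝ) : TT) = ((u * A : ℝ) : TT) := by rw [← zsmul_eq_mul]; rfl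
  have e2 : v • ((B : ℝ) : TT) = ((v * B : ℝ) : TT) := by rw [← zsmul_eq_mul]; rfl
  rw [e1, e2]
  have : (c + A * u + B * v : ℝ) = c + (u * A + v * B) := by ring
  rw [this]; rfl

theorem coe_lc (A B : ℝ) (n n' : ℤ) : n • ((A : ℝ) : TT) - n' • ((B : ℝ) : TT) = ((n * A - n' * B : ℝ) : TT) := by
  have e1 : n • ((A : ℝ) : TT) = ((n * A : ℝ) : TT) := by rw [← zsmul_eq_mul]; rfl
  have e2 : n' • ((B : ℝ) : TT) = ((n' * B : ℝ) : TT) := by rw [← zsmul_eq_mul]; rfl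
  rw [e1, e2]; rfl

/-- step of the grid in normalised coordinates -/
def AP.st (a : AP) : ℝ := 1 / (2 ^ a.σ * (2 ^ a.w) ^ 6)
/-- normalised first coordinate -/
def AP.na (a : AP) (m : ℤ × ℤ) : ℝ := m.1 / 2 ^ a.g
/-- normalised second coordinate -/
def AP.nb (a : AP) (m : ℤ × ℤ) : ℝ := m.2 / 2 ^ a.f
/-- number of grid points -/
def AP.N1 (a : AP) : ℕ := 2 ^ (a.k + 6 * a.w)
/-- number of grid points -/
def AP.N2 (a : AP) : ℕ := 2 ^ (a.l + 6 * a.w)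
/-- defect -/
def AP.de (a : AP) (m1 m2 m3 m4 : ℤ × ℤ) : ℝ :=
  a.na m1 * a.na m4 * a.nb m2 * a.nb m3 - a.na m2 * a.na m3 * a.nb m1 * a.nb m4
/-- second defect -/
def AP.DL (a : AP) (X : ℝ × ℝ) (m1 m2 m3 m4 : ℤ × ℤ) : ℝ :=
  a.na m4 * a.nb m3 * (a.na m2 * cz m1 X - a.na m1 * cz m2 X) - a.na m2 * a.nb m1 * (a.na m4 * cz m3 X - a.na m3 * cz m4 X)

/-- kernel of a mode on the grid -/
def AP.kp (a : AP) (X : ℝ × ℝ) (m : ℤ × ℤ) (u v : ℤ) : ℂ :=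
  kap (2 ^ a.σ) (2 * 2 ^ a.σ) ((cz m X : ℝ) : TT) ((a.na m * a.st : ℝ) : TT) ((a.nb m * a.st : ℝ) : TT) u v

/-- direction sums -/
def AP.Sd (a : AP) : ℝ := 8 * (2 ^ a.σ * (2 ^ a.w) ^ 11)

/-- trivial bound -/
def AP.Wt (a : AP) : ℝ := 256 * (a.N1 : ℝ) ^ 2 * (a.N2 : ℝ) ^ 2 * (2 ^ a.k * (2 ^ a.w) ^ 7) * a.Sd ^ 3 * 2 ^ a.σ

theorem box_na {a : AP} {m : ℤ × ℤ} (h : m ∈ a.box) : |a.na m| ≤ (2 ^ a.w) ^ 5 ∧ 1 ≤ |a.na m| * (2 ^ a.w) ^ 5 := by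
  obtain ⟨h1, _, h3, _⟩ := AP.mem_box.mp h
  have hG : (0 : ℝ) < 2 ^ a.g := by positivity
  have e1 : (m.1.natAbs : ℝ) = |(m.1 : ℝ)| := by rw [Nat.cast_natAbs, Int.cast_abs]
  have e2 : |a.na m| = |(m.1 : ℝ)| / 2 ^ a.g := by unfold AP.na; rw [abs_div, abs_of_pos hG]
  have e3 : (2 : ℝ) ^ (5 * a.w) = (2 ^ a.w) ^ 5 := by rw [mul_comm 5 a.w, pow_mul]
  have h1' : |(m.1 : ℝ)| ≤ 2 ^ a.g * (2 ^ a.w) ^ 5 := by
    rw [← e1, ← e3, ← pow_add]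
    have : (m.1.natAbs : ℝ) ≤ ((2 ^ (a.g + 5 * a.w) : ℕ) : ℝ) := by exact_mod_cast h1
    push_cast at this; exact this
  have h3' : (2 : ℝ) ^ a.g ≤ |(m.1 : ℝ)| * (2 ^ a.w) ^ 5 := by
    rw [← e1, ← e3]; exact_mod_cast h3
  rw [e2]
  constructor
  · rw [div_le_iff₀ hG]; linarith
  · rw [div_mul_eq_mul_div, le_div_iff₀ hG]; linarith

theorem box_nb {a : AP} {m : ℤ × ℤ} (h : m ∈ a.box) : |a.nb m| ≤ (2 ^ a.w) ^ 5 ∧ 1 ≤ |a.nb m| * (2 ^ a.w) ^ 5 := by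
  obtain ⟨_, h1, _, h3⟩ := AP.mem_box.mp h
  have hG : (0 : ℝ) < 2 ^ a.f := by positivity
  have e1 : (m.2.natAbs : ℝ) = |(m.2 : ℝ)| := by rw [Nat.cast_natAbs, Int.cast_abs]
  have e2 : |a.nb m| = |(m.2 : ℝ)| / 2 ^ a.f := by unfold AP.nb; rw [abs_div, abs_of_pos hG]
  have e3 : (2 : ℝ) ^ (5 * a.w) = (2 ^ a.w) ^ 5 := by rw [mul_comm 5 a.w, pow_mul]
  have h1' : |(m.2 : ℝ)| ≤ 2 ^ a.f * (2 ^ a.w) ^ 5 := by
    rw [← e1, ← e3, ← pow_add]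
    have : (m.2.natAbs : ℝ) ≤ ((2 ^ (a.f + 5 * a.w) : ℕ) : ℝ) := by exact_mod_cast h1
    push_cast at this; exact this
  have h3' : (2 : ℝ) ^ a.f ≤ |(m.2 : ℝ)| * (2 ^ a.w) ^ 5 := by
    rw [← e1, ← e3]; exact_mod_cast h3
  rw [e2]
  constructor
  · rw [div_le_iff₀ hG]; linarith
  · rw [div_mul_eq_mul_div, le_div_iff₀ hG]; linarith

theorem mem_M {a : AP} {X : ℝ × ℝ} {m : ℤ × ℤ} : m ∈ a.M (pt X) ↔ m ∈ a.box ∧ |cz m X| ≤ a.ρ := by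
  unfold AP.M
  rw [Finset.mem_filter, abs_cz]

section

variable {a : AP} (h : a.Ok) {X : ℝ × ℝ}

include h

theorem AP.Ok.kW12 : (2 : ℝ) ^ a.k * (2 ^ a.w) ^ 12 ≤ 2 ^ a.σ := by
  rw [← pow_mul, ← pow_add]
  apply pow_le_pow_right₀ (by norm_num)
  have := h.hσ
  omega

theorem AP.Ok.lW : (2 : ℝ) ^ a.l ≤ 2 ^ a.k * 2 ^ a.w := by
  rw [← pow_add]; exact pow_le_pow_right₀ (by norm_num) h.hlk

theorem AP.Ok.kW : (2 : ℝ) ^ a.k ≤ 2 ^ a.l * 2 ^ a.w := by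
  rw [← pow_add]; exact pow_le_pow_right₀ (by norm_num) h.hkl

theorem AP.Ok.N1_eq : (a.N1 : ℝ) = 2 ^ a.k * (2 ^ a.w) ^ 6 := by
  unfold AP.N1; push_cast; rw [pow_add, mul_comm 6 a.w, pow_mul]

theorem AP.Ok.N2_eq : (a.N2 : ℝ) = 2 ^ a.l * (2 ^ a.w) ^ 6 := by
  unfold AP.N2; push_cast; rw [pow_add, mul_comm 6 a.w, pow_mul]

theorem AP.Ok.N2_le : (a.N2 : ℝ) ≤ 2 ^ a.k * (2 ^ a.w) ^ 7 := by
  rw [h.N2_eq]
  have := h.lW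
  calc (2 : ℝ) ^ a.l * (2 ^ a.w) ^ 6 ≤ (2 ^ a.k * 2 ^ a.w) * (2 ^ a.w) ^ 6 := by gcongr
    _ = _ := by ring

theorem AP.Ok.N1_le : (a.N1 : ℝ) ≤ 2 ^ a.k * (2 ^ a.w) ^ 7 := by
  rw [h.N1_eq]
  have := h.W1
  have h2 : (2 ^ a.w : ℝ) ^ 6 ≤ (2 ^ a.w) ^ 7 := pow_le_pow_right₀ this (by norm_num)
  gcongr

theorem AP.Ok.N1_ge : 2 ^ a.k * (2 ^ a.w) ^ 5 ≤ (a.N1 : ℝ) := by
  rw [h.N1_eq]
  have := h.W1
  have h2 : (2 ^ a.w : ℝ) ^ 5 ≤ (2 ^ a.w) ^ 6 := pow_le_pow_right₀ this (by norm_num)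
  gcongr

theorem AP.Ok.N2_ge : 2 ^ a.k * (2 ^ a.w) ^ 5 ≤ (a.N2 : ℝ) := by
  rw [h.N2_eq]
  have := h.kW
  calc (2 : ℝ) ^ a.k * (2 ^ a.w) ^ 5 ≤ (2 ^ a.l * 2 ^ a.w) * (2 ^ a.w) ^ 5 := by gcongr
    _ = _ := by ring

omit h in
theorem st_pos : 0 < a.st := by unfold AP.st; positivity

omit h in
theorem na_st_ne {m : ℤ × ℤ} (hm : m ∈ a.box) : a.na m * a.st ≠ 0 := by
  have := (box_na hm).2
  have hst := st_pos (a := a)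
  intro h0
  rcases mul_eq_zero.mp h0 with h1 | h1
  · rw [h1] at this; simp at this; linarith
  · linarith

omit h in
theorem nb_st_ne {m : ℤ × ℤ} (hm : m ∈ a.box) : a.nb m * a.st ≠ 0 := by
  have := (box_nb hm).2
  have hst := st_pos (a := a)
  intro h0
  rcases mul_eq_zero.mp h0 with h1 | h1
  · rw [h1] at this; simp at this; linarith
  · linarith

omit h in
theorem inv_st {z : ℝ} (hz : 1 ≤ |z| * (2 ^ a.w) ^ 5) : 4 / |z * a.st| ≤ 4 * (2 ^ a.σ * (2 ^ a.w) ^ 11) := by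
  have hst := st_pos (a := a)
  have hz0 : 0 < |z| := by
    by_contra hc
    have : |z| = 0 := le_antisymm (not_lt.mp hc) (abs_nonneg _)
    rw [this] at hz; simp at hz; linarith
  rw [abs_mul, abs_of_pos hst, div_le_iff₀ (by positivity)]
  unfold AP.st
  have e : 4 * (2 ^ a.σ * (2 ^ a.w : ℝ) ^ 11) * (|z| * (1 / (2 ^ a.σ * (2 ^ a.w) ^ 6))) = 4 * (|z| * (2 ^ a.w) ^ 5) := by
    field_simp
  rw [e]; linarith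

theorem aff_le {m : ℤ × ℤ} (hm : m ∈ a.M (pt X)) {u v : ℤ} (hu : |(u : ℝ)| ≤ 2 * a.N1) (hv : |(v : ℝ)| ≤ 2 * a.N2) :
    |cz m X + a.na m * a.st * u + a.nb m * a.st * v| ≤ 1 / 2 := by
  obtain ⟨hb, hc⟩ := mem_M.mp hm
  have h1 := (box_na hb).1
  have h2 := (box_nb hb).1
  have hst := st_pos (a := a)
  have hW := h.W40
  have hW1 := h.W1
  have hk12 := h.kW12
  have hN1 := h.N1_le
  have hN2 := h.N2_le
  set W : ℝ := 2 ^ a.w with hWdef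
  have hQ : (0 : ℝ) < 2 ^ a.σ := by positivity
  have hK : (0 : ℝ) < 2 ^ a.k := by positivity
  have b1 : |a.na m * a.st * u| ≤ 2 * (2 ^ a.k * W ^ 6 / 2 ^ a.σ) := by
    rw [abs_mul, abs_mul, abs_of_pos hst]
    calc |a.na m| * a.st * |(u : ℝ)| ≤ W ^ 5 * a.st * (2 * (2 ^ a.k * W ^ 7)) := by
          have : |(u : ℝ)| ≤ 2 * (2 ^ a.k * W ^ 7) := by linarith
          gcongr
      _ = _ := by unfold AP.st; rw [← hWdef]; field_simp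
  have b2 : |a.nb m * a.st * v| ≤ 2 * (2 ^ a.k * W ^ 6 / 2 ^ a.σ) := by
    rw [abs_mul, abs_mul, abs_of_pos hst]
    calc |a.nb m| * a.st * |(v : ℝ)| ≤ W ^ 5 * a.st * (2 * (2 ^ a.k * W ^ 7)) := by
          have : |(v : ℝ)| ≤ 2 * (2 ^ a.k * W ^ 7) := by linarith
          gcongr
      _ = _ := by unfold AP.st; rw [← hWdef]; field_simp
  have b0 : |cz m X| ≤ 2 ^ a.k * W ^ 7 / 2 ^ a.σ := by
    refine hc.trans (le_of_eq ?_)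
    unfold AP.ρ
    rw [pow_add, mul_comm 7 a.w, pow_mul]
  have b3 : 2 ^ a.k * W ^ 7 / 2 ^ a.σ ≤ 1 / 10 := by
    rw [div_le_div_iff₀ hQ (by norm_num)]
    have : 2 ^ a.k * W ^ 7 * 10 ≤ 2 ^ a.k * W ^ 12 := by
      have e : (2 : ℝ) ^ a.k * W ^ 12 = 2 ^ a.k * W ^ 7 * W ^ 5 := by ring
      rw [e]
      apply mul_le_mul_of_nonneg_left _ (by positivity)
      have : W ^ 1 ≤ W ^ 5 := pow_le_pow_right₀ hW1 (by norm_num)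
      rw [pow_one] at this; linarith
    linarith
  have b4 : 2 ^ a.k * W ^ 6 / 2 ^ a.σ ≤ 1 / 10 := by
    refine le_trans ?_ b3
    have : W ^ 6 ≤ W ^ 7 := pow_le_pow_right₀ hW1 (by norm_num)
    gcongr
  calc _ ≤ |cz m X| + |a.na m * a.st * u| + |a.nb m * a.st * v| := abs_add_three _ _ _
    _ ≤ 1 / 2 := by linarith

omit h in
theorem kp_norm (m : ℤ × ℤ) (u v : ℤ) :
    ‖a.kp X m u v‖ = FQ (2 ^ a.σ) ((cz m X + a.na m * a.st * u + a.nb m * a.st * v : ℝ) : TT) := by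
  unfold AP.kp
  rw [norm_kap (by positivity), coe_aff]

omit h in
theorem abs_of_Ioo {N : ℕ} {u : ℤ} (hu : u ∈ Finset.Ioo (-((2 * N : ℕ) : ℤ)) (2 * N : ℕ)) : |(u : ℝ)| ≤ 2 * N := by
  rw [Finset.mem_Ioo] at hu
  have h1 : |u| ≤ (2 * N : ℕ) := abs_le.mpr ⟨hu.1.le, hu.2.le⟩
  have h2 : ((|u| : ℤ) : ℝ) ≤ (((2 * N : ℕ) : ℤ) : ℝ) := by exact_mod_cast h1
  push_cast at h2; exact h2

theorem Sd_le : 4 * ((2 ^ a.σ : ℕ) : ℝ) + 4 * (2 ^ a.σ * (2 ^ a.w) ^ 11) ≤ a.Sd := by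
  have hW11 : (1 : ℝ) ≤ (2 ^ a.w) ^ 11 := one_le_pow₀ h.W1
  have hQ : (0 : ℝ) < 2 ^ a.σ := by positivity
  unfold AP.Sd
  push_cast
  nlinarith

theorem rowU {m : ℤ × ℤ} (hm : m ∈ a.M (pt X)) {v : ℤ} (hv : v ∈ Finset.Ioo (-((2 * a.N2 : ℕ) : ℤ)) (2 * a.N2 : ℕ)) :
    ∑ u ∈ Finset.Ioo (-((2 * a.N1 : ℕ) : ℤ)) (2 * a.N1 : ℕ), ‖a.kp X m u v‖ ≤ a.Sd := by
  have hb := (mem_M.mp hm).1
  have e : ∀ u ∈ Finset.Ioo (-((2 * a.N1 : ℕ) : ℤ)) (2 * a.N1 : ℕ), ‖a.kp X m u v‖ =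
      FQ (2 ^ a.σ) ((((cz m X + a.nb m * a.st * v) + (a.na m * a.st) * u : ℝ)) : TT) := by
    intro u _
    rw [kp_norm]; congr 2; ring
  rw [Finset.sum_congr rfl e]
  refine (sum_fejer_ap (by positivity) (na_st_ne hb) _ _ ?_).trans ?_
  · intro u hu
    have := aff_le h hm (abs_of_Ioo hu) (abs_of_Ioo hv)
    have e2 : cz m X + a.nb m * a.st * v + a.na m * a.st * u = cz m X + a.na m * a.st * u + a.nb m * a.st * v := by ring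
    rw [e2]; exact this
  · refine le_trans ?_ (Sd_le h)
    have := inv_st (a := a) (box_na hb).2
    linarith

theorem rowV {m : ℤ × ℤ} (hm : m ∈ a.M (pt X)) {u : ℤ} (hu : u ∈ Finset.Ioo (-((2 * a.N1 : ℕ) : ℤ)) (2 * a.N1 : ℕ)) :
    ∑ v ∈ Finset.Ioo (-((2 * a.N2 : ℕ) : ℤ)) (2 * a.N2 : ℕ), ‖a.kp X m u v‖ ≤ a.Sd := by
  have hb := (mem_M.mp hm).1
  have e : ∀ v ∈ Finset.Ioo (-((2 * a.N2 : ℕ) : ℤ)) (2 * a.N2 : ℕ), ‖a.kp X m u v‖ =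
      FQ (2 ^ a.σ) ((((cz m X + a.na m * a.st * u) + (a.nb m * a.st) * v : ℝ)) : TT) := by
    intro v _
    rw [kp_norm]
  rw [Finset.sum_congr rfl e]
  refine (sum_fejer_ap (by positivity) (nb_st_ne hb) _ _ ?_).trans ?_
  · intro v hv
    exact aff_le h hm (abs_of_Ioo hu) (abs_of_Ioo hv)
  · refine le_trans ?_ (Sd_le h)
    have := inv_st (a := a) (box_nb hb).2
    linarith

theorem phys_bound {m1 m2 m3 m4 : ℤ × ℤ} (h1 : m1 ∈ a.M (pt X)) (h2 : m2 ∈ a.M (pt X)) (h3 : m3 ∈ a.M (pt X))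
    (h4 : m4 ∈ a.M (pt X)) {τ : ℝ} (hτ : 0 ≤ τ)
    (hsm : ∀ u ∈ Finset.Ioo (-((2 * a.N1 : ℕ) : ℤ)) (2 * a.N1 : ℕ), ∀ v ∈ Finset.Ioo (-((2 * a.N2 : ℕ) : ℤ)) (2 * a.N2 : ℕ),
      ∀ u' ∈ Finset.Ioo (-((2 * a.N1 : ℕ) : ℤ)) (2 * a.N1 : ℕ), ∀ v' ∈ Finset.Ioo (-((2 * a.N2 : ℕ) : ℤ)) (2 * a.N2 : ℕ),
      ‖a.kp X m1 u v‖ ≤ τ ∨ ‖a.kp X m2 u v'‖ ≤ τ ∨ ‖a.kp X m3 u' v‖ ≤ τ ∨ ‖a.kp X m4 u' v'‖ ≤ τ) :
    ‖IQ a.N1 a.N2 (a.kp X m1) (a.kp X m2) (a.kp X m3) (a.kp X m4)‖ ≤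
      256 * (a.N1 : ℝ) ^ 2 * (a.N2 : ℝ) ^ 2 * (2 ^ a.k * (2 ^ a.w) ^ 7) * a.Sd ^ 3 * τ := by
  refine (IQ_phys _ _ _ _ _ _).trans ?_
  have hS0 : 0 ≤ a.Sd := by unfold AP.Sd; positivity
  have cU : ∀ N : ℕ, ((Finset.Ioo (-((2 * N : ℕ) : ℤ)) (2 * N : ℕ)).card : ℝ) ≤ 4 * N := by
    intro N
    rw [Int.card_Ioo]
    have : (((2 * N : ℕ) : ℤ) - -((2 * N : ℕ) : ℤ) - 1).toNat ≤ 4 * N := by omega
    exact_mod_cast this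
  have n1 := h.N1_le
  have n2 := h.N2_le
  have := cycle_bound (Finset.Ioo (-((2 * a.N1 : ℕ) : ℤ)) (2 * a.N1 : ℕ)) (Finset.Ioo (-((2 * a.N2 : ℕ) : ℤ)) (2 * a.N2 : ℕ))
    (Finset.Ioo (-((2 * a.N1 : ℕ) : ℤ)) (2 * a.N1 : ℕ)) (Finset.Ioo (-((2 * a.N2 : ℕ) : ℤ)) (2 * a.N2 : ℕ))
    (fun u v => ‖a.kp X m1 u v‖) (fun u v => ‖a.kp X m2 u v‖) (fun u v => ‖a.kp X m3 u v‖) (fun u v => ‖a.kp X m4 u v‖)
    (S := a.Sd) (n := 4 * (2 ^ a.k * (2 ^ a.w) ^ 7)) (τ := τ) hS0 hτ (fun _ _ => norm_nonneg _) (fun _ _ => norm_nonneg _)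
    (fun _ _ => norm_nonneg _) (fun _ _ => norm_nonneg _)
    ((cU _).trans (by linarith)) ((cU _).trans (by linarith)) ((cU _).trans (by linarith)) ((cU _).trans (by linarith))
    (fun v hv => rowU h h1 hv) (fun u hu => rowV h h1 hu) (fun v hv => rowU h h2 hv) (fun u hu => rowV h h2 hu)
    (fun v hv => rowU h h3 hv) (fun u hu => rowV h h3 hu) (fun v hv => rowU h h4 hv) (fun u hu => rowV h h4 hu) hsm
  calc _ ≤ ((2 * a.N1 : ℕ) : ℝ) ^ 2 * ((2 * a.N2 : ℕ) : ℝ) ^ 2 * (4 * (4 * (2 ^ a.k * (2 ^ a.w) ^ 7) * a.Sd ^ 3) * τ) :=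
        mul_le_mul_of_nonneg_left this (by positivity)
    _ = _ := by push_cast; ring

theorem type0 {m1 m2 m3 m4 : ℤ × ℤ} (h1 : m1 ∈ a.M (pt X)) (h2 : m2 ∈ a.M (pt X)) (h3 : m3 ∈ a.M (pt X))
    (h4 : m4 ∈ a.M (pt X)) :
    ‖IQ a.N1 a.N2 (a.kp X m1) (a.kp X m2) (a.kp X m3) (a.kp X m4)‖ ≤ a.Wt := by
  unfold AP.Wt
  apply phys_bound h h1 h2 h3 h4 (by positivity)
  intro u _ v _ u' _ v' _
  left
  rw [kp_norm]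
  refine (FQ_le _ _).trans ?_
  push_cast; exact le_rfl

end

end Run7.h297
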