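import Pool.Agent.Run7.h297.Sieve
import Pool.Agent.Run7.h297.Types

set_option autoImplicit false

/-! Bounds for the sums attached to four modes, off the diagonal. -/

noncomputable section

namespace Run7.h297

open Real Finset MeasureTheory

theorem quad_double (N : ℕ) (F : ℤ → ℤ → ℤ → ℤ → ℝ) (hF : ∀ a b c d, 0 ≤ F a b c d) :
    ∑ t1 ∈ PP N, ∑ t2 ∈ PP N, ∑ t3 ∈ PP N, ∑ t4 ∈ PP N, F (df t1) (df t2) (df t3) (df t4) ≤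
      (N : ℝ) ^ 4 * ∑ u1 ∈ Finset.Ioo (-(N : ℤ)) N, ∑ u2 ∈ Finset.Ioo (-(N : ℤ)) N, ∑ u3 ∈ Finset.Ioo (-(N : ℤ)) N,
        ∑ u4 ∈ Finset.Ioo (-(N : ℤ)) N, F u1 u2 u3 u4 := by
  set U := Finset.Ioo (-(N : ℤ)) N with hU
  have hN : (0 : ℝ) ≤ N := Nat.cast_nonneg _
  have d1 : ∀ G : ℤ → ℝ, (∀ u, 0 ≤ G u) → ∑ p ∈ PP N, G (df p) ≤ N * ∑ u ∈ U, G u :=
    fun G hG => double_le N G hG
  have a4 : ∀ x y z, ∑ t4 ∈ PP N, F x y z (df t4) ≤ N * ∑ u4 ∈ U, F x y z u4 := fun x y z => d1 _ (fun _ => hF _ _ _ _)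
  have a3 : ∀ x y, ∑ t3 ∈ PP N, ∑ t4 ∈ PP N, F x y (df t3) (df t4) ≤ N * (N * ∑ u3 ∈ U, ∑ u4 ∈ U, F x y u3 u4) := by
    intro x y
    calc _ ≤ ∑ t3 ∈ PP N, N * ∑ u4 ∈ U, F x y (df t3) u4 := Finset.sum_le_sum (fun _ _ => a4 _ _ _)
      _ = N * ∑ t3 ∈ PP N, ∑ u4 ∈ U, F x y (df t3) u4 := by rw [Finset.mul_sum]
      _ ≤ _ := by
        apply mul_le_mul_of_nonneg_left _ hN
        exact d1 (fun u3 => ∑ u4 ∈ U, F x y u3 u4) (fun _ => Finset.sum_nonneg (fun _ _ => hF _ _ _ _))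
  have a2 : ∀ x, ∑ t2 ∈ PP N, ∑ t3 ∈ PP N, ∑ t4 ∈ PP N, F x (df t2) (df t3) (df t4) ≤
      N * (N * (N * ∑ u2 ∈ U, ∑ u3 ∈ U, ∑ u4 ∈ U, F x u2 u3 u4)) := by
    intro x
    calc _ ≤ ∑ t2 ∈ PP N, N * (N * ∑ u3 ∈ U, ∑ u4 ∈ U, F x (df t2) u3 u4) := Finset.sum_le_sum (fun _ _ => a3 _ _)
      _ = N * (N * ∑ t2 ∈ PP N, ∑ u3 ∈ U, ∑ u4 ∈ U, F x (df t2) u3 u4) := by rw [Finset.mul_sum, Finset.mul_sum]
      _ ≤ _ := by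
        apply mul_le_mul_of_nonneg_left _ hN
        apply mul_le_mul_of_nonneg_left _ hN
        exact d1 (fun u2 => ∑ u3 ∈ U, ∑ u4 ∈ U, F x u2 u3 u4)
          (fun _ => Finset.sum_nonneg (fun _ _ => Finset.sum_nonneg (fun _ _ => hF _ _ _ _)))
  calc _ ≤ ∑ t1 ∈ PP N, N * (N * (N * ∑ u2 ∈ U, ∑ u3 ∈ U, ∑ u4 ∈ U, F (df t1) u2 u3 u4)) :=
        Finset.sum_le_sum (fun _ _ => a2 _)
    _ = N * (N * (N * ∑ t1 ∈ PP N, ∑ u2 ∈ U, ∑ u3 ∈ U, ∑ u4 ∈ U, F (df t1) u2 u3 u4)) := by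
        rw [Finset.mul_sum, Finset.mul_sum, Finset.mul_sum]
    _ ≤ N * (N * (N * (N * ∑ u1 ∈ U, ∑ u2 ∈ U, ∑ u3 ∈ U, ∑ u4 ∈ U, F u1 u2 u3 u4))) := by
        apply mul_le_mul_of_nonneg_left _ hN
        apply mul_le_mul_of_nonneg_left _ hN
        apply mul_le_mul_of_nonneg_left _ hN
        exact d1 (fun u1 => ∑ u2 ∈ U, ∑ u3 ∈ U, ∑ u4 ∈ U, F u1 u2 u3 u4)
          (fun _ => Finset.sum_nonneg (fun _ _ => Finset.sum_nonneg (fun _ _ => Finset.sum_nonneg (fun _ _ => hF _ _ _ _))))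
    _ = _ := by ring

theorem FQ_small {N : ℕ} (hN : 0 < N) {x lam : ℝ} (hx : |x| ≤ 1 / 2) (hl : 0 < lam) (h : lam ≤ |x|) :
    FQ N ((x : ℝ) : TT) ≤ 1 / (4 * N * lam ^ 2) := by
  have hN' : (0 : ℝ) < N := by exact_mod_cast hN
  have hn := norm_coe_eq_abs2 hx
  refine (FQ_le' hN (by rw [hn]; linarith)).trans ?_
  rw [hn]
  gcongr

theorem abs_mul3 {x y z W : ℝ} (hx : |x| ≤ W) (hy : |y| ≤ W) (hz : |z| ≤ W) : |x * y * z| ≤ W ^ 3 := by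
  rw [abs_mul, abs_mul]
  have h0 := (abs_nonneg x).trans hx
  calc |x| * |y| * |z| ≤ W * W * W := by gcongr
    _ = _ := by ring

section

variable {a : AP} (h : a.Ok) {X : ℝ × ℝ}

include h

theorem type2 {m1 m2 m3 m4 : ℤ × ℤ} (h1 : m1 ∈ a.M (pt X)) (h2 : m2 ∈ a.M (pt X)) (h3 : m3 ∈ a.M (pt X))
    (h4 : m4 ∈ a.M (pt X)) (hde : |a.de m1 m2 m3 m4| ≤ (2 ^ a.w) ^ 170 / 2 ^ a.k)
    (hDL : (2 ^ a.w) ^ 172 / 2 ^ a.σ ≤ |a.DL X m1 m2 m3 m4|) :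
    ‖IQ a.N1 a.N2 (a.kp X m1) (a.kp X m2) (a.kp X m3) (a.kp X m4)‖ ≤ a.Wt * (16 / (2 ^ a.w) ^ 314) := by
  have hW := h.W40
  have hW1 := h.W1
  have hN2 := h.N2_le
  have e0 : a.Wt * (16 / (2 ^ a.w) ^ 314) = 256 * (a.N1 : ℝ) ^ 2 * (a.N2 : ℝ) ^ 2 * (2 ^ a.k * (2 ^ a.w) ^ 7) * a.Sd ^ 3 *
      (16 * 2 ^ a.σ / (2 ^ a.w) ^ 314) := by unfold AP.Wt; ring
  rw [e0]
  set W : ℝ := 2 ^ a.w with hWdef
  have hW0 : 0 < W := by positivity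
  have hQ : (0 : ℝ) < 2 ^ a.σ := by positivity
  have hK : (0 : ℝ) < 2 ^ a.k := by positivity
  apply phys_bound h h1 h2 h3 h4 (by positivity)
  intro u hu v hv u' hu' v' hv'
  have u1 := abs_of_Ioo hu
  have v1 := abs_of_Ioo hv
  have u1' := abs_of_Ioo hu'
  have v1' := abs_of_Ioo hv'
  have L1 := aff_le h h1 u1 v1
  have L2 := aff_le h h2 u1 v1'
  have L3 := aff_le h h3 u1' v1
  have L4 := aff_le h h4 u1' v1'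
  rw [kp_norm, kp_norm, kp_norm, kp_norm]
  obtain ⟨x1, hx1⟩ : ∃ z, z = cz m1 X + a.na m1 * a.st * u + a.nb m1 * a.st * v := ⟨_, rfl⟩
  obtain ⟨x2, hx2⟩ : ∃ z, z = cz m2 X + a.na m2 * a.st * u + a.nb m2 * a.st * v' := ⟨_, rfl⟩
  obtain ⟨x3, hx3⟩ : ∃ z, z = cz m3 X + a.na m3 * a.st * u' + a.nb m3 * a.st * v := ⟨_, rfl⟩
  obtain ⟨x4, hx4⟩ : ∃ z, z = cz m4 X + a.na m4 * a.st * u' + a.nb m4 * a.st * v' := ⟨_, rfl⟩
  rw [← hx1] at L1 ⊢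
  rw [← hx2] at L2 ⊢
  rw [← hx3] at L3 ⊢
  rw [← hx4] at L4 ⊢
  set lam : ℝ := W ^ 157 / (8 * 2 ^ a.σ) with hlam
  have hl0 : 0 < lam := by positivity
  have key : ∀ x : ℝ, |x| ≤ 1 / 2 → lam ≤ |x| → FQ (2 ^ a.σ) ((x : ℝ) : TT) ≤ 16 * 2 ^ a.σ / W ^ 314 := by
    intro x hx hlx
    refine (FQ_small (by positivity) hx hl0 hlx).trans (le_of_eq ?_)
    rw [hlam]; push_cast; field_simp; norm_num
  by_contra hcon
  push Not at hcon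
  obtain ⟨n1, n2, n3, n4⟩ := hcon
  have q1 : |x1| < lam := by by_contra hc; exact absurd (key x1 L1 (not_lt.mp hc)) (not_le.mpr n1)
  have q2 : |x2| < lam := by by_contra hc; exact absurd (key x2 L2 (not_lt.mp hc)) (not_le.mpr n2)
  have q3 : |x3| < lam := by by_contra hc; exact absurd (key x3 L3 (not_lt.mp hc)) (not_le.mpr n3)
  have q4 : |x4| < lam := by by_contra hc; exact absurd (key x4 L4 (not_lt.mp hc)) (not_le.mpr n4)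
  obtain ⟨a1, ha1⟩ : ∃ z, z = a.na m1 := ⟨_, rfl⟩
  obtain ⟨a2, ha2⟩ : ∃ z, z = a.na m2 := ⟨_, rfl⟩
  obtain ⟨a3, ha3⟩ : ∃ z, z = a.na m3 := ⟨_, rfl⟩
  obtain ⟨a4, ha4⟩ : ∃ z, z = a.na m4 := ⟨_, rfl⟩
  obtain ⟨b1, hb1⟩ : ∃ z, z = a.nb m1 := ⟨_, rfl⟩
  obtain ⟨b2, hb2⟩ : ∃ z, z = a.nb m2 := ⟨_, rfl⟩
  obtain ⟨b3, hb3⟩ : ∃ z, z = a.nb m3 := ⟨_, rfl⟩
  obtain ⟨b4, hb4⟩ : ∃ z, z = a.nb m4 := ⟨_, rfl⟩
  have A1 := (box_na (mem_M.mp h1).1).1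
  have A2 := (box_na (mem_M.mp h2).1).1
  have A3 := (box_na (mem_M.mp h3).1).1
  have A4 := (box_na (mem_M.mp h4).1).1
  have B1 := (box_nb (mem_M.mp h1).1).1
  have B3 := (box_nb (mem_M.mp h3).1).1
  rw [← ha1] at A1 hx1
  rw [← ha2] at A2 hx2
  rw [← ha3] at A3 hx3
  rw [← ha4] at A4 hx4
  rw [← hb1] at B1 hx1
  rw [← hb2] at hx2
  rw [← hb3] at B3 hx3
  rw [← hb4] at hx4
  have edl : a.DL X m1 m2 m3 m4 = a4 * b3 * a2 * x1 - a4 * b3 * a1 * x2 - a2 * b1 * a4 * x3 + a2 * b1 * a3 * x4 +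
      a.st * v' * a.de m1 m2 m3 m4 := by
    unfold AP.DL AP.de
    rw [← ha1, ← ha2, ← ha3, ← ha4, ← hb1, ← hb2, ← hb3, ← hb4, hx1, hx2, hx3, hx4]
    ring
  have hst := st_pos (a := a)
  have t0 : |a.st * v' * a.de m1 m2 m3 m4| ≤ 2 * W ^ 171 / 2 ^ a.σ := by
    rw [abs_mul, abs_mul, abs_of_pos hst]
    calc a.st * |(v' : ℝ)| * |a.de m1 m2 m3 m4| ≤ a.st * (2 * (2 ^ a.k * W ^ 7)) * (W ^ 170 / 2 ^ a.k) := by
          have : |(v' : ℝ)| ≤ 2 * (2 ^ a.k * W ^ 7) := by linarith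
          gcongr
      _ = _ := by unfold AP.st; rw [← hWdef]; field_simp
  have t : ∀ p q r x : ℝ, |p| ≤ W ^ 5 → |q| ≤ W ^ 5 → |r| ≤ W ^ 5 → |x| < lam → |p * q * r * x| ≤ W ^ 15 * lam := by
    intro p q r x hp hq hr hx
    rw [abs_mul]
    have := abs_mul3 hp hq hr
    have e : (W ^ 5) ^ 3 = W ^ 15 := by rw [← pow_mul]
    rw [e] at this
    gcongr
  have t1 := t a4 b3 a2 x1 A4 B3 A2 q1
  have t2 := t a4 b3 a1 x2 A4 B3 A1 q2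
  have t3 := t a2 b1 a4 x3 A2 B1 A4 q3
  have t4 := t a2 b1 a3 x4 A2 B1 A3 q4
  have tot : |a.DL X m1 m2 m3 m4| ≤ 4 * (W ^ 15 * lam) + 2 * W ^ 171 / 2 ^ a.σ := by
    rw [edl]
    rw [abs_le] at t0 t1 t2 t3 t4 ⊢
    constructor <;> linarith [t0.1, t0.2, t1.1, t1.2, t2.1, t2.2, t3.1, t3.2, t4.1, t4.2]
  have f1 : 4 * (W ^ 15 * lam) = W ^ 172 / 2 ^ a.σ / 2 := by rw [hlam]; field_simp; norm_num
  have f2 : 2 * W ^ 171 / 2 ^ a.σ ≤ W ^ 172 / 2 ^ a.σ / 4 := by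
    rw [div_div, div_le_div_iff₀ hQ (by positivity)]
    have : 8 * W ^ 171 ≤ W ^ 172 := by
      have e : W ^ 172 = W * W ^ 171 := by ring
      rw [e]; gcongr; linarith
    have h9 := mul_le_mul_of_nonneg_right this hQ.le
    linarith
  have f3 : 0 < W ^ 172 / 2 ^ a.σ := by positivity
  linarith

theorem rowF {N : ℕ} (hN0 : 0 < N) (hN : (N : ℝ) ≤ 2 ^ a.k * (2 ^ a.w) ^ 7) {z x0 : ℝ} (hz : 1 ≤ |z| * (2 ^ a.w) ^ 5)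
    (hr : ∀ u ∈ Finset.Ioo (-((2 ^ a.σ : ℕ) : ℤ)) (2 ^ a.σ : ℕ), |x0 + z * a.st * u| ≤ 1 / 2) :
    ∑ u ∈ Finset.Ioo (-((2 ^ a.σ : ℕ) : ℤ)) (2 ^ a.σ : ℕ), FQ (2 * N) ((x0 + z * a.st * u : ℝ) : TT) ≤ a.Sd := by
  have hst := st_pos (a := a)
  have hz0 : z ≠ 0 := by rintro rfl; simp at hz; linarith
  refine (sum_fejer_ap (by omega) (mul_ne_zero hz0 hst.ne') _ _ hr).trans ?_
  have i1 := inv_st (a := a) hz
  have k1 := h.kW12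
  have hW1 := h.W1
  have hW := h.W40
  set W : ℝ := 2 ^ a.w with hWdef
  have hQ : (0 : ℝ) < 2 ^ a.σ := by positivity
  have hK : (0 : ℝ) < 2 ^ a.k := by positivity
  have c1 : 8 * (2 ^ a.k * W ^ 7) ≤ 2 ^ a.σ := by
    have : 8 * (2 ^ a.k * W ^ 7) ≤ 2 ^ a.k * W ^ 12 := by
      have e : (2 : ℝ) ^ a.k * W ^ 12 = W ^ 5 * (2 ^ a.k * W ^ 7) := by ring
      rw [e]
      apply mul_le_mul_of_nonneg_right _ (by positivity)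
      have : W ^ 1 ≤ W ^ 5 := pow_le_pow_right₀ hW1 (by norm_num)
      rw [pow_one] at this; linarith
    linarith
  have c2 : (2 : ℝ) ^ a.σ ≤ 2 ^ a.σ * W ^ 11 := by
    exact le_mul_of_one_le_right hQ.le (one_le_pow₀ hW1)
  unfold AP.Sd
  rw [← hWdef]
  push_cast
  linarith

theorem type1 {m1 m2 m3 m4 : ℤ × ℤ} (h1 : m1 ∈ a.M (pt X)) (h2 : m2 ∈ a.M (pt X)) (h3 : m3 ∈ a.M (pt X))
    (h4 : m4 ∈ a.M (pt X)) (hde : 0 < |a.de m1 m2 m3 m4|) :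
    ‖IQ a.N1 a.N2 (a.kp X m1) (a.kp X m2) (a.kp X m3) (a.kp X m4)‖ ≤
      a.Wt * ((2 ^ a.w) ^ 30 / (2 ^ a.k * |a.de m1 m2 m3 m4|) ^ 2) := by
  have hW := h.W40
  have hW1 := h.W1
  obtain ⟨a1, ha1⟩ : ∃ z, z = a.na m1 := ⟨_, rfl⟩
  obtain ⟨a2, ha2⟩ : ∃ z, z = a.na m2 := ⟨_, rfl⟩
  obtain ⟨a3, ha3⟩ : ∃ z, z = a.na m3 := ⟨_, rfl⟩
  obtain ⟨a4, ha4⟩ : ∃ z, z = a.na m4 := ⟨_, rfl⟩
  obtain ⟨b1, hb1⟩ : ∃ z, z = a.nb m1 := ⟨_, rfl⟩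
  obtain ⟨b2, hb2⟩ : ∃ z, z = a.nb m2 := ⟨_, rfl⟩
  obtain ⟨b3, hb3⟩ : ∃ z, z = a.nb m3 := ⟨_, rfl⟩
  obtain ⟨b4, hb4⟩ : ∃ z, z = a.nb m4 := ⟨_, rfl⟩
  obtain ⟨A1, A1'⟩ := box_na (mem_M.mp h1).1
  obtain ⟨A2, A2'⟩ := box_na (mem_M.mp h2).1
  obtain ⟨A3, A3'⟩ := box_na (mem_M.mp h3).1
  obtain ⟨A4, A4'⟩ := box_na (mem_M.mp h4).1
  obtain ⟨B1, B1'⟩ := box_nb (mem_M.mp h1).1
  obtain ⟨B2, B2'⟩ := box_nb (mem_M.mp h2).1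
  obtain ⟨B3, B3'⟩ := box_nb (mem_M.mp h3).1
  obtain ⟨B4, B4'⟩ := box_nb (mem_M.mp h4).1
  rw [← ha1] at A1 A1'
  rw [← ha2] at A2 A2'
  rw [← ha3] at A3 A3'
  rw [← ha4] at A4 A4'
  rw [← hb1] at B1 B1'
  rw [← hb2] at B2 B2'
  rw [← hb3] at B3 B3'
  rw [← hb4] at B4 B4'
  obtain ⟨de, hde'⟩ : ∃ z, z = a.de m1 m2 m3 m4 := ⟨_, rfl⟩
  have ede : de = a1 * a4 * b2 * b3 - a2 * a3 * b1 * b4 := by
    rw [hde']; unfold AP.de; rw [← ha1, ← ha2, ← ha3, ← ha4, ← hb1, ← hb2, ← hb3, ← hb4]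
  rw [← hde'] at hde ⊢
  have hst := st_pos (a := a)
  have n1ge := h.N1_ge
  have n2ge := h.N2_ge
  have n1le := h.N1_le
  have n2le := h.N2_le
  have e6 : a.st = 1 / (2 ^ a.σ * (2 ^ a.w) ^ 6) := rfl
  have hsd : 0 ≤ a.Sd := by unfold AP.Sd; positivity
  have hrow : ∀ {N : ℕ}, 0 < N → (N : ℝ) ≤ 2 ^ a.k * (2 ^ a.w) ^ 7 → ∀ {z x0 : ℝ}, 1 ≤ |z| * (2 ^ a.w) ^ 5 →
    (∀ u ∈ Finset.Ioo (-((2 ^ a.σ : ℕ) : ℤ)) (2 ^ a.σ : ℕ), |x0 + z * a.st * u| ≤ 1 / 2) →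
    ∑ u ∈ Finset.Ioo (-((2 ^ a.σ : ℕ) : ℤ)) (2 ^ a.σ : ℕ), FQ (2 * N) ((x0 + z * a.st * u : ℝ) : TT) ≤ a.Sd :=
    fun h0 hN _ _ hz hr => rowF h h0 hN hz hr
  set W : ℝ := 2 ^ a.w with hWdef
  have hW0 : 0 < W := by positivity
  have hQ : (0 : ℝ) < 2 ^ a.σ := by positivity
  have hK : (0 : ℝ) < 2 ^ a.k := by positivity
  obtain ⟨s, hs⟩ : ∃ z : ℤ, z = 2 * 2 ^ a.σ := ⟨_, rfl⟩
  have hsr : (s : ℝ) = 2 * 2 ^ a.σ := by rw [hs]; push_cast; ring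
  unfold AP.kp
  rw [← hs]
  refine (IQ_freq (by positivity) _ _ _ _ _ _ _ _ _ _ _ _ _ _ _).trans ?_
  rw [← ha1, ← ha2, ← ha3, ← ha4, ← hb1, ← hb2, ← hb3, ← hb4]
  set F : ℤ → ℤ → ℤ → ℤ → ℝ := fun t1 t2 t3 t4 =>
    FQ (2 * a.N1) ((s + t1) • ((a1 * a.st : ℝ) : TT) - (s + t2) • ((a2 * a.st : ℝ) : TT)) *
    FQ (2 * a.N2) ((s + t1) • ((b1 * a.st : ℝ) : TT) - (s + t3) • ((b3 * a.st : ℝ) : TT)) *
    FQ (2 * a.N2) ((s + t4) • ((b4 * a.st : ℝ) : TT) - (s + t2) • ((b2 * a.st : ℝ) : TT)) *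
    FQ (2 * a.N1) ((s + t3) • ((a3 * a.st : ℝ) : TT) - (s + t4) • ((a4 * a.st : ℝ) : TT)) with hF
  have hF0 : ∀ a b c d, 0 ≤ F a b c d := by
    intro x y z t
    rw [hF]
    exact mul_nonneg (mul_nonneg (mul_nonneg (FQ_nonneg _ _) (FQ_nonneg _ _)) (FQ_nonneg _ _)) (FQ_nonneg _ _)
  have s1 := quad_double (2 ^ a.σ) F hF0
  obtain ⟨U, hU⟩ : ∃ z, z = Finset.Ioo (-((2 ^ a.σ : ℕ) : ℤ)) ((2 ^ a.σ : ℕ) : ℤ) := ⟨_, rfl⟩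
  rw [← hU] at s1
  have hUabs : ∀ t ∈ U, |(t : ℝ)| ≤ 2 ^ a.σ := by
    intro t ht
    rw [hU, Finset.mem_Ioo] at ht
    have h1 : |t| ≤ ((2 ^ a.σ : ℕ) : ℤ) := abs_le.mpr ⟨ht.1.le, ht.2.le⟩
    have h2 : ((|t| : ℤ) : ℝ) ≤ ((((2 ^ a.σ : ℕ) : ℤ)) : ℝ) := by exact_mod_cast h1
    push_cast at h2; exact h2
  have hUc : (U.card : ℝ) ≤ 2 * 2 ^ a.σ := by
    rw [hU, Int.card_Ioo]
    have : ((((2 ^ a.σ : ℕ) : ℤ)) - -(((2 ^ a.σ : ℕ) : ℤ)) - 1).toNat ≤ 2 * 2 ^ a.σ := by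
      have : (((2 ^ a.σ : ℕ) : ℤ)) = 2 ^ a.σ := by push_cast; rfl
      omega
    exact_mod_cast this
  -- bound for one term
  have small : ∀ z : ℝ, |z| ≤ W ^ 5 → ∀ t ∈ U, |((s + t : ℤ) : ℝ) * (z * a.st)| ≤ 3 / W := by
    intro z hz t ht
    have h1 := hUabs t ht
    have h2 : |((s + t : ℤ) : ℝ)| ≤ 3 * 2 ^ a.σ := by
      push_cast; rw [hsr]
      rw [abs_le] at h1 ⊢
      constructor <;> linarith [h1.1, h1.2]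
    rw [abs_mul, abs_mul, abs_of_pos hst]
    calc |((s + t : ℤ) : ℝ)| * (|z| * a.st) ≤ (3 * 2 ^ a.σ) * (W ^ 5 * a.st) := by gcongr
      _ = 3 / W := by rw [e6]; field_simp
  have hW6 : 6 / W ≤ 1 / 2 := by rw [div_le_div_iff₀ hW0 (by norm_num)]; linarith
  have hW3 : 3 / W + 3 / W = 6 / W := by ring
  have diff : ∀ z z' : ℝ, |z| ≤ W ^ 5 → |z'| ≤ W ^ 5 → ∀ t ∈ U, ∀ t' ∈ U,
      |((s + t : ℤ) : ℝ) * (z * a.st) - ((s + t' : ℤ) : ℝ) * (z' * a.st)| ≤ 1 / 2 := by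
    intro z z' hz hz' t ht t' ht'
    refine (abs_sub _ _).trans ?_
    have := small z hz t ht
    have := small z' hz' t' ht'
    linarith
  -- row sums
  have rowA : ∀ {N : ℕ}, 0 < N → (N : ℝ) ≤ 2 ^ a.k * W ^ 7 → ∀ z z' : ℝ, |z| ≤ W ^ 5 → |z'| ≤ W ^ 5 → 1 ≤ |z| * W ^ 5 → ∀ t' ∈ U,
      ∑ t ∈ U, FQ (2 * N) ((s + t) • ((z * a.st : ℝ) : TT) - (s + t') • ((z' * a.st : ℝ) : TT)) ≤ a.Sd := by
    intro N hN0 hN z z' hz hz' hz1 t' ht'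
    have e : ∀ t ∈ U, FQ (2 * N) ((s + t) • ((z * a.st : ℝ) : TT) - (s + t') • ((z' * a.st : ℝ) : TT)) =
        FQ (2 * N) ((((s * (z * a.st) - ((s + t' : ℤ) : ℝ) * (z' * a.st)) + z * a.st * t : ℝ)) : TT) := by
      intro t _
      rw [coe_lc]; congr 2; push_cast; ring
    rw [Finset.sum_congr rfl e, hU]
    apply hrow hN0 hN hz1
    intro t ht
    rw [← hU] at ht
    have := diff z z' hz hz' t ht t' ht'
    have e2 : s * (z * a.st) - ((s + t' : ℤ) : ℝ) * (z' * a.st) + z * a.st * t = ((s + t : ℤ) : ℝ) * (z * a.st) - ((s + t' : ℤ) : ℝ) * (z' * a.st) := by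
      push_cast; ring
    rw [e2]; exact this
  have rowB : ∀ {N : ℕ}, 0 < N → (N : ℝ) ≤ 2 ^ a.k * W ^ 7 → ∀ z z' : ℝ, |z| ≤ W ^ 5 → |z'| ≤ W ^ 5 → 1 ≤ |z'| * W ^ 5 → ∀ t ∈ U,
      ∑ t' ∈ U, FQ (2 * N) ((s + t) • ((z * a.st : ℝ) : TT) - (s + t') • ((z' * a.st : ℝ) : TT)) ≤ a.Sd := by
    intro N hN0 hN z z' hz hz' hz1 t ht
    have e : ∀ t' ∈ U, FQ (2 * N) ((s + t) • ((z * a.st : ℝ) : TT) - (s + t') • ((z' * a.st : ℝ) : TT)) =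
        FQ (2 * N) ((s + t') • ((z' * a.st : ℝ) : TT) - (s + t) • ((z * a.st : ℝ) : TT)) := by
      intro t' _
      rw [← FQ_neg]; congr 1; abel
    rw [Finset.sum_congr rfl e]
    exact rowA hN0 hN z' z hz' hz hz1 t ht
  have N1pos : 0 < a.N1 := by unfold AP.N1; positivity
  have N2pos : 0 < a.N2 := by unfold AP.N2; positivity
  have hτ0 : 0 ≤ 2 * W ^ 37 / (2 ^ a.k * de ^ 2) := by positivity
  have habs : |de| ^ 2 = de ^ 2 := sq_abs de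
  have hde2 : 0 < de ^ 2 := by rw [← habs]; positivity
  have cyc := cycle_bound U U U U
    (fun t1 t2 => FQ (2 * a.N1) ((s + t1) • ((a1 * a.st : ℝ) : TT) - (s + t2) • ((a2 * a.st : ℝ) : TT)))
    (fun t1 t3 => FQ (2 * a.N2) ((s + t1) • ((b1 * a.st : ℝ) : TT) - (s + t3) • ((b3 * a.st : ℝ) : TT)))
    (fun t4 t2 => FQ (2 * a.N2) ((s + t4) • ((b4 * a.st : ℝ) : TT) - (s + t2) • ((b2 * a.st : ℝ) : TT)))
    (fun t4 t3 => FQ (2 * a.N1) ((s + t3) • ((a3 * a.st : ℝ) : TT) - (s + t4) • ((a4 * a.st : ℝ) : TT)))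
    (S := a.Sd) (n := 2 * 2 ^ a.σ) (τ := 2 * W ^ 37 / (2 ^ a.k * de ^ 2)) hsd hτ0
    (fun _ _ => FQ_nonneg _ _) (fun _ _ => FQ_nonneg _ _) (fun _ _ => FQ_nonneg _ _) (fun _ _ => FQ_nonneg _ _)
    hUc hUc hUc hUc
    (fun v hv => rowA N1pos n1le a1 a2 A1 A2 A1' v hv) (fun u hu => rowB N1pos n1le a1 a2 A1 A2 A2' u hu)
    (fun v hv => rowA N2pos n2le b1 b3 B1 B3 B1' v hv) (fun u hu => rowB N2pos n2le b1 b3 B1 B3 B3' u hu)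
    (fun v hv => rowA N2pos n2le b4 b2 B4 B2 B4' v hv) (fun u hu => rowB N2pos n2le b4 b2 B4 B2 B2' u hu)
    (fun v hv => rowB N1pos n1le a3 a4 A3 A4 A4' v hv) (fun u hu => rowA N1pos n1le a3 a4 A3 A4 A3' u hu)
    (by
      intro t1 ht1 t2 ht2 t4 ht4 t3 ht3
      rw [coe_lc, coe_lc, coe_lc, coe_lc]
      have D1 := diff a1 a2 A1 A2 t1 ht1 t2 ht2
      have D2 := diff b1 b3 B1 B3 t1 ht1 t3 ht3
      have D3 := diff b4 b2 B4 B2 t4 ht4 t2 ht2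
      have D4 := diff a3 a4 A3 A4 t3 ht3 t4 ht4
      obtain ⟨r1, hr1⟩ : ∃ z : ℝ, z = ((s + t1 : ℤ) : ℝ) := ⟨_, rfl⟩
      obtain ⟨r2, hr2⟩ : ∃ z : ℝ, z = ((s + t2 : ℤ) : ℝ) := ⟨_, rfl⟩
      obtain ⟨r3, hr3⟩ : ∃ z : ℝ, z = ((s + t3 : ℤ) : ℝ) := ⟨_, rfl⟩
      obtain ⟨r4, hr4⟩ : ∃ z : ℝ, z = ((s + t4 : ℤ) : ℝ) := ⟨_, rfl⟩
      rw [← hr1, ← hr2] at D1 ⊢
      rw [← hr1, ← hr3] at D2
      rw [← hr4, ← hr2] at D3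
      rw [← hr3, ← hr4] at D4
      rw [← hr3, ← hr4]
      have hr1Q : 2 ^ a.σ ≤ r1 := by
        rw [hr1]; push_cast; rw [hsr]
        have := (abs_le.mp (hUabs t1 ht1)).1
        linarith
      set lam : ℝ := |de| / (4 * W ^ 21) with hlam
      have hl0 : 0 < lam := by positivity
      have key : ∀ {N : ℕ}, 0 < N → 2 ^ a.k * W ^ 5 ≤ (N : ℝ) → ∀ x : ℝ, |x| ≤ 1 / 2 → lam ≤ |x| →
          FQ (2 * N) ((x : ℝ) : TT) ≤ 2 * W ^ 37 / (2 ^ a.k * de ^ 2) := by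
        intro N hN0 hN x hx hlx
        have hN' : (0 : ℝ) < N := by exact_mod_cast hN0
        refine (FQ_small (by omega) hx hl0 hlx).trans ?_
        push_cast
        calc 1 / (4 * (2 * (N : ℝ)) * lam ^ 2) ≤ 1 / (4 * (2 * (2 ^ a.k * W ^ 5)) * lam ^ 2) := by gcongr
          _ = _ := by
            rw [hlam, div_pow, habs]; field_simp; norm_num
      by_contra hcon
      push Not at hcon
      obtain ⟨c1, c2, c3, c4⟩ := hcon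
      have q1 : |r1 * (a1 * a.st) - r2 * (a2 * a.st)| < lam := by
        by_contra hc; exact absurd (key N1pos n1ge _ D1 (not_lt.mp hc)) (not_le.mpr c1)
      have q2 : |r1 * (b1 * a.st) - r3 * (b3 * a.st)| < lam := by
        by_contra hc; exact absurd (key N2pos n2ge _ D2 (not_lt.mp hc)) (not_le.mpr c2)
      have q3 : |r4 * (b4 * a.st) - r2 * (b2 * a.st)| < lam := by
        by_contra hc; exact absurd (key N2pos n2ge _ D3 (not_lt.mp hc)) (not_le.mpr c3)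
      have q4 : |r3 * (a3 * a.st) - r4 * (a4 * a.st)| < lam := by
        by_contra hc; exact absurd (key N1pos n1ge _ D4 (not_lt.mp hc)) (not_le.mpr c4)
      have iden : a.st * r1 * de = a4 * b2 * b3 * (r1 * (a1 * a.st) - r2 * (a2 * a.st)) -
          a2 * a4 * b3 * (r4 * (b4 * a.st) - r2 * (b2 * a.st)) - a2 * b3 * b4 * (r3 * (a3 * a.st) - r4 * (a4 * a.st)) -
          a2 * a3 * b4 * (r1 * (b1 * a.st) - r3 * (b3 * a.st)) := by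
        rw [ede]; ring
      have t : ∀ p q r x : ℝ, |p| ≤ W ^ 5 → |q| ≤ W ^ 5 → |r| ≤ W ^ 5 → |x| < lam → |p * q * r * x| < 2 * (W ^ 15 * lam) := by
        intro p q r x hp hq hr hx
        rw [abs_mul]
        have := abs_mul3 hp hq hr
        have e : (W ^ 5) ^ 3 = W ^ 15 := by rw [← pow_mul]
        rw [e] at this
        have h5 : |p * q * r| * |x| ≤ W ^ 15 * lam := by gcongr
        have h6 : 0 < W ^ 15 * lam := by positivity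
        linarith
      have t' : ∀ p q r x : ℝ, |p| ≤ W ^ 5 → |q| ≤ W ^ 5 → |r| ≤ W ^ 5 → |x| < lam → |p * q * r * x| ≤ W ^ 15 * |x| := by
        intro p q r x hp hq hr hx
        rw [abs_mul]
        have := abs_mul3 hp hq hr
        have e : (W ^ 5) ^ 3 = W ^ 15 := by rw [← pow_mul]
        rw [e] at this
        gcongr
      have t1 := t' a4 b2 b3 _ A4 B2 B3 q1
      have t2 := t' a2 a4 b3 _ A2 A4 B3 q3
      have t3 := t' a2 b3 b4 _ A2 B3 B4 q4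
      have t4 := t' a2 a3 b4 _ A2 A3 B4 q2
      have W15 : 0 < W ^ 15 := by positivity
      have u1 := mul_lt_mul_of_pos_left q1 W15
      have u2 := mul_lt_mul_of_pos_left q3 W15
      have u3 := mul_lt_mul_of_pos_left q4 W15
      have u4 := mul_lt_mul_of_pos_left q2 W15
      have tot : |a.st * r1 * de| < 4 * (W ^ 15 * lam) := by
        rw [iden]
        have p1 := abs_sub (a4 * b2 * b3 * (r1 * (a1 * a.st) - r2 * (a2 * a.st)) -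
          a2 * a4 * b3 * (r4 * (b4 * a.st) - r2 * (b2 * a.st)) - a2 * b3 * b4 * (r3 * (a3 * a.st) - r4 * (a4 * a.st)))
          (a2 * a3 * b4 * (r1 * (b1 * a.st) - r3 * (b3 * a.st)))
        have p2 := abs_sub (a4 * b2 * b3 * (r1 * (a1 * a.st) - r2 * (a2 * a.st)) -
          a2 * a4 * b3 * (r4 * (b4 * a.st) - r2 * (b2 * a.st))) (a2 * b3 * b4 * (r3 * (a3 * a.st) - r4 * (a4 * a.st)))
        have p3 := abs_sub (a4 * b2 * b3 * (r1 * (a1 * a.st) - r2 * (a2 * a.st)))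
          (a2 * a4 * b3 * (r4 * (b4 * a.st) - r2 * (b2 * a.st)))
        linarith
      have low : |de| / W ^ 6 ≤ |a.st * r1 * de| := by
        have hr10 : 0 < r1 := by linarith
        rw [abs_mul, abs_mul, abs_of_pos hst, abs_of_pos hr10]
        calc |de| / W ^ 6 = (1 / (2 ^ a.σ * W ^ 6)) * 2 ^ a.σ * |de| := by field_simp
          _ ≤ a.st * r1 * |de| := by rw [e6]; gcongr
      have f1 : 4 * (W ^ 15 * lam) = |de| / W ^ 6 := by rw [hlam]; field_simp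
      linarith)
  have s2 : ∑ u1 ∈ U, ∑ u2 ∈ U, ∑ u3 ∈ U, ∑ u4 ∈ U, F u1 u2 u3 u4 ≤
      4 * (2 * 2 ^ a.σ * a.Sd ^ 3) * (2 * W ^ 37 / (2 ^ a.k * de ^ 2)) := by
    refine le_trans (le_of_eq ?_) cyc
    apply Finset.sum_congr rfl; intro t1 _
    apply Finset.sum_congr rfl; intro t2 _
    exact Finset.sum_comm
  have s3 := s1.trans (mul_le_mul_of_nonneg_left s2 (by positivity))
  calc _ ≤ (((2 * a.N1 : ℕ) : ℝ) ^ 2 * ((2 * a.N2 : ℕ) : ℝ) ^ 2 / (((2 ^ a.σ : ℕ) : ℝ)) ^ 4) *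
        ((((2 ^ a.σ : ℕ) : ℝ)) ^ 4 * (4 * (2 * 2 ^ a.σ * a.Sd ^ 3) * (2 * W ^ 37 / (2 ^ a.k * de ^ 2)))) :=
        mul_le_mul_of_nonneg_left s3 (by positivity)
    _ = _ := by
      unfold AP.Wt
      rw [mul_pow (2 ^ a.k : ℝ) |de| 2, habs, ← hWdef]
      push_cast
      field_simp
      ring

end

end Run7.h297
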