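import Pool.Agent.Run7.h297.NBadD
import Pool.Agent.Run7.h297.TypesB

set_option autoImplicit false

/-! The bilinear estimate for the resonant modes. -/

noncomputable section

namespace Run7.h297

open Real Finset MeasureTheory

section

variable {a : AP} (h : a.Ok) {X : ℝ × ℝ}

include h

theorem de_le {m1 m2 m3 m4 : ℤ × ℤ} (h1 : m1 ∈ a.box) (h2 : m2 ∈ a.box) (h3 : m3 ∈ a.box) (h4 : m4 ∈ a.box) :
    |a.de m1 m2 m3 m4| ≤ 2 * (2 ^ a.w) ^ 20 := by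
  have A1 := (box_na h1).1
  have A2 := (box_na h2).1
  have A3 := (box_na h3).1
  have A4 := (box_na h4).1
  have B1 := (box_nb h1).1
  have B2 := (box_nb h2).1
  have B3 := (box_nb h3).1
  have B4 := (box_nb h4).1
  have k : ∀ p q r s W : ℝ, |p| ≤ W → |q| ≤ W → |r| ≤ W → |s| ≤ W → |p * q * r * s| ≤ W ^ 4 := by
    intro p q r s W hp hq hr hs
    rw [abs_mul, abs_mul, abs_mul]
    have h0 := (abs_nonneg p).trans hp
    calc |p| * |q| * |r| * |s| ≤ W * W * W * W := by gcongr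
      _ = _ := by ring
  have k1 := k _ _ _ _ _ A1 A4 B2 B3
  have k2 := k _ _ _ _ _ A2 A3 B1 B4
  have e : ((2 ^ a.w : ℝ) ^ 5) ^ 4 = (2 ^ a.w) ^ 20 := by rw [← pow_mul]
  rw [e] at k1 k2
  unfold AP.de
  refine (abs_sub _ _).trans ?_
  linarith

open Classical in
theorem IQ_pt (hX : Gen3 a (pt X)) {q : ((ℤ × ℤ) × (ℤ × ℤ)) × ((ℤ × ℤ) × (ℤ × ℤ))} (hq : q ∈ Q4 (a.M (pt X))) :
    ‖IQ a.N1 a.N2 (a.kp X q.1.1) (a.kp X q.1.2) (a.kp X q.2.1) (a.kp X q.2.2)‖ ≤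
      a.Wt * ((if |a.de q.1.1 q.1.2 q.2.1 q.2.2| ≤ a.Dj 0 ∧
          |a.DL X q.1.1 q.1.2 q.2.1 q.2.2| ≤ (2 ^ a.w) ^ 172 / 2 ^ a.σ then 1 else 0) +
        (if |a.de q.1.1 q.1.2 q.2.1 q.2.2| ≤ a.Dj 0 then 16 / (2 ^ a.w) ^ 314 else 0) +
        ∑ j ∈ range (a.k + 1), (if |a.de q.1.1 q.1.2 q.2.1 q.2.2| ≤ a.Dj (j + 1) then (2 ^ a.w) ^ 30 / (2 ^ a.k * a.Dj j) ^ 2 else 0)) := by
  have hW1 := h.W1
  have hW := h.W40
  rw [mem_Q4] at hq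
  obtain ⟨q1, q2, q3, q4⟩ := hq
  have hWt : 0 ≤ a.Wt := by unfold AP.Wt AP.Sd; positivity
  have hDj : ∀ j, 0 < a.Dj j := fun j => by unfold AP.Dj; positivity
  have t3 : ∀ j ∈ range (a.k + 1), 0 ≤ (if |a.de q.1.1 q.1.2 q.2.1 q.2.2| ≤ a.Dj (j + 1) then (2 ^ a.w : ℝ) ^ 30 / (2 ^ a.k * a.Dj j) ^ 2 else 0) := by
    intro j _; split_ifs <;> positivity
  by_cases c1 : |a.de q.1.1 q.1.2 q.2.1 q.2.2| ≤ a.Dj 0
  · rw [if_pos c1]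
    have hs := Finset.sum_nonneg t3
    by_cases c2 : |a.DL X q.1.1 q.1.2 q.2.1 q.2.2| ≤ (2 ^ a.w) ^ 172 / 2 ^ a.σ
    · rw [if_pos ⟨c1, c2⟩]
      refine (type0 h q1 q2 q3 q4).trans ?_
      have : 0 ≤ (16 : ℝ) / (2 ^ a.w) ^ 314 := by positivity
      calc a.Wt = a.Wt * 1 := (mul_one _).symm
        _ ≤ _ := by
          apply mul_le_mul_of_nonneg_left _ hWt
          linarith
    · push Not at c2
      have c1' : |a.de q.1.1 q.1.2 q.2.1 q.2.2| ≤ (2 ^ a.w) ^ 170 / 2 ^ a.k := by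
        refine c1.trans ?_
        unfold AP.Dj
        rw [pow_zero, one_mul]
        apply div_le_div_of_nonneg_left (by positivity) (by positivity)
        have : (0 : ℝ) < 2 ^ a.k := by positivity
        linarith
      refine (type2 h q1 q2 q3 q4 c1' c2.le).trans ?_
      apply mul_le_mul_of_nonneg_left _ hWt
      have : (0 : ℝ) ≤ (if |a.de q.1.1 q.1.2 q.2.1 q.2.2| ≤ a.Dj 0 ∧ |a.DL X q.1.1 q.1.2 q.2.1 q.2.2| ≤ (2 ^ a.w) ^ 172 / 2 ^ a.σ then 1 else 0) := by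
        split_ifs <;> norm_num
      linarith
  · push Not at c1
    have hex : ∃ j, |a.de q.1.1 q.1.2 q.2.1 q.2.2| ≤ a.Dj j := by
      refine ⟨a.k + 1, (de_le h (mem_M.mp q1).1 (mem_M.mp q2).1 (mem_M.mp q3).1 (mem_M.mp q4).1).trans ?_⟩
      unfold AP.Dj
      have e : (2 : ℝ) ^ (a.k + 1) * (2 ^ a.w) ^ 170 / (2 * 2 ^ a.k) = (2 ^ a.w) ^ 170 := by
        rw [pow_succ]; field_simp
      rw [e]
      have e2 : (2 ^ a.w : ℝ) ^ 170 = (2 ^ a.w) ^ 150 * (2 ^ a.w) ^ 20 := by rw [← pow_add]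
      rw [e2]
      apply mul_le_mul_of_nonneg_right _ (by positivity)
      have : (2 ^ a.w : ℝ) ^ 1 ≤ (2 ^ a.w) ^ 150 := pow_le_pow_right₀ hW1 (by norm_num)
      rw [pow_one] at this; linarith
    have hmin := Nat.find_spec hex
    have hle : Nat.find hex ≤ a.k + 1 := by
      apply Nat.find_min'
      refine (de_le h (mem_M.mp q1).1 (mem_M.mp q2).1 (mem_M.mp q3).1 (mem_M.mp q4).1).trans ?_
      unfold AP.Dj
      have e : (2 : ℝ) ^ (a.k + 1) * (2 ^ a.w) ^ 170 / (2 * 2 ^ a.k) = (2 ^ a.w) ^ 170 := by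
        rw [pow_succ]; field_simp
      rw [e]
      have e2 : (2 ^ a.w : ℝ) ^ 170 = (2 ^ a.w) ^ 150 * (2 ^ a.w) ^ 20 := by rw [← pow_add]
      rw [e2]
      apply mul_le_mul_of_nonneg_right _ (by positivity)
      have : (2 ^ a.w : ℝ) ^ 1 ≤ (2 ^ a.w) ^ 150 := pow_le_pow_right₀ hW1 (by norm_num)
      rw [pow_one] at this; linarith
    have hne : Nat.find hex ≠ 0 := by
      intro h0
      rw [h0] at hmin
      linarith
    obtain ⟨j, hj⟩ : ∃ j, Nat.find hex = j + 1 := ⟨Nat.find hex - 1, by omega⟩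
    rw [hj] at hmin
    have hlow : a.Dj j < |a.de q.1.1 q.1.2 q.2.1 q.2.2| := by
      have := Nat.find_min hex (m := j) (by omega)
      exact not_le.mp this
    have hde0 : 0 < |a.de q.1.1 q.1.2 q.2.1 q.2.2| := (hDj j).trans hlow
    refine (type1 h q1 q2 q3 q4 hde0).trans ?_
    apply mul_le_mul_of_nonneg_left _ hWt
    have hjmem : j ∈ range (a.k + 1) := by rw [Finset.mem_range]; omega
    have hsingle := Finset.single_le_sum t3 hjmem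
    rw [if_pos hmin] at hsingle
    have hDj0 := hDj j
    have hb : (2 ^ a.w : ℝ) ^ 30 / (2 ^ a.k * |a.de q.1.1 q.1.2 q.2.1 q.2.2|) ^ 2 ≤ (2 ^ a.w) ^ 30 / (2 ^ a.k * a.Dj j) ^ 2 := by
      gcongr
    have z1 : (0 : ℝ) ≤ (if |a.de q.1.1 q.1.2 q.2.1 q.2.2| ≤ a.Dj 0 ∧ |a.DL X q.1.1 q.1.2 q.2.1 q.2.2| ≤ (2 ^ a.w) ^ 172 / 2 ^ a.σ then 1 else 0) := by
        split_ifs <;> norm_num
    have z2 : (0 : ℝ) ≤ (if |a.de q.1.1 q.1.2 q.2.1 q.2.2| ≤ a.Dj 0 then 16 / (2 ^ a.w) ^ 314 else 0) := by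
        split_ifs <;> positivity
    linarith

omit h in
theorem geo_half (n : ℕ) : ∑ j ∈ range n, (1 : ℝ) / 2 ^ j ≤ 2 := by
  have h1 : ∑ j ∈ range n, (1 : ℝ) / 2 ^ j = 2 - 2 / 2 ^ n := by
    induction n with
    | zero => norm_num
    | succ n ih =>
      rw [Finset.sum_range_succ, ih, pow_succ]
      field_simp
      ring
  rw [h1]
  have : (0 : ℝ) ≤ 2 / 2 ^ n := by positivity
  linarith

open Classical in
theorem sum_IQ (hX : Gen3 a (pt X)) :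
    ∑ m1 ∈ a.M (pt X), ∑ m2 ∈ a.M (pt X), ∑ m3 ∈ a.M (pt X), ∑ m4 ∈ a.M (pt X),
      ‖IQ a.N1 a.N2 (a.kp X m1) (a.kp X m2) (a.kp X m3) (a.kp X m4)‖ ≤ a.Wt * ((2 ^ a.k) ^ 3 / (2 ^ a.w) ^ 28) := by
  have hW1 := h.W1
  have hW := h.W40
  have hk := h.hk
  have e0 : ∑ m1 ∈ a.M (pt X), ∑ m2 ∈ a.M (pt X), ∑ m3 ∈ a.M (pt X), ∑ m4 ∈ a.M (pt X),
      ‖IQ a.N1 a.N2 (a.kp X m1) (a.kp X m2) (a.kp X m3) (a.kp X m4)‖ = ∑ q ∈ Q4 (a.M (pt X)),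
      ‖IQ a.N1 a.N2 (a.kp X q.1.1) (a.kp X q.1.2) (a.kp X q.2.1) (a.kp X q.2.2)‖ := by
    unfold Q4
    rw [Finset.sum_product, Finset.sum_product]
    apply Finset.sum_congr rfl; intro m1 _
    apply Finset.sum_congr rfl; intro m2 _
    rw [Finset.sum_product]
  rw [e0]
  have hWt : 0 ≤ a.Wt := by unfold AP.Wt AP.Sd; positivity
  have c3 := count3 h hX
  have cj : ∀ j, j ≤ a.k + 1 → _ := fun j hj => count_de h hX (j := j) hj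
  have e3 : (2 : ℝ) ^ (3 * a.k - 29 * a.w) = (2 ^ a.k) ^ 3 / (2 ^ a.w) ^ 29 := by
    rw [eq_div_iff (by positivity), ← pow_mul, ← pow_mul, ← pow_add]
    congr 1; omega
  rw [e3] at c3
  refine (Finset.sum_le_sum (fun q hq => IQ_pt h hX hq)).trans ?_
  rw [← Finset.mul_sum]
  apply mul_le_mul_of_nonneg_left _ hWt
  rw [Finset.sum_add_distrib, Finset.sum_add_distrib]
  set s := a.M (pt X) with hs
  have p1 : ∑ q ∈ Q4 s, (if |a.de q.1.1 q.1.2 q.2.1 q.2.2| ≤ a.Dj 0 ∧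
          |a.DL X q.1.1 q.1.2 q.2.1 q.2.2| ≤ (2 ^ a.w) ^ 172 / 2 ^ a.σ then (1 : ℝ) else 0) ≤ (2 ^ a.k) ^ 3 / (2 ^ a.w) ^ 29 := by
    rw [← Finset.sum_filter, Finset.sum_const, nsmul_eq_mul, mul_one]; exact c3
  have p2 : ∑ q ∈ Q4 s, (if |a.de q.1.1 q.1.2 q.2.1 q.2.2| ≤ a.Dj 0 then (16 : ℝ) / (2 ^ a.w) ^ 314 else 0) ≤
      16 * ((2 ^ a.k) ^ 3 / (2 ^ a.w) ^ 44) := by
    rw [← Finset.sum_filter, Finset.sum_const, nsmul_eq_mul]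
    calc _ ≤ ((2 ^ a.k) ^ 4 * (2 ^ a.w) ^ 80 * a.el 0) * (16 / (2 ^ a.w) ^ 314) :=
          mul_le_mul_of_nonneg_right (cj 0 (by omega)) (by positivity)
      _ = _ := by unfold AP.el; field_simp
  have p3 : ∑ q ∈ Q4 s, ∑ j ∈ range (a.k + 1), (if |a.de q.1.1 q.1.2 q.2.1 q.2.2| ≤ a.Dj (j + 1) then (2 ^ a.w : ℝ) ^ 30 / (2 ^ a.k * a.Dj j) ^ 2 else 0) ≤
      16 * ((2 ^ a.k) ^ 3 / (2 ^ a.w) ^ 40) := by
    rw [Finset.sum_comm]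
    calc _ ≤ ∑ j ∈ range (a.k + 1), (8 * ((2 ^ a.k) ^ 3 / (2 ^ a.w) ^ 40)) * (1 / 2 ^ j) := by
          apply Finset.sum_le_sum; intro j hj
          rw [Finset.mem_range] at hj
          rw [← Finset.sum_filter, Finset.sum_const, nsmul_eq_mul]
          calc _ ≤ ((2 ^ a.k) ^ 4 * (2 ^ a.w) ^ 80 * a.el (j + 1)) * ((2 ^ a.w : ℝ) ^ 30 / (2 ^ a.k * a.Dj j) ^ 2) :=
                mul_le_mul_of_nonneg_right (cj (j + 1) (by omega)) (by positivity)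
            _ = _ := by
              unfold AP.el AP.Dj
              rw [pow_succ 2 j]
              field_simp
              norm_num
      _ = (8 * ((2 ^ a.k) ^ 3 / (2 ^ a.w) ^ 40)) * ∑ j ∈ range (a.k + 1), (1 : ℝ) / 2 ^ j := by rw [Finset.mul_sum]
      _ ≤ (8 * ((2 ^ a.k) ^ 3 / (2 ^ a.w) ^ 40)) * 2 := by
          apply mul_le_mul_of_nonneg_left (geo_half _) (by positivity)
      _ = _ := by ring
  set W : ℝ := 2 ^ a.w with hWdef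
  have hW0 : 0 < W := by positivity
  have hK3 : (0 : ℝ) ≤ (2 ^ a.k) ^ 3 := by positivity
  have q1 : ((2 : ℝ) ^ a.k) ^ 3 / W ^ 29 ≤ (1 / 4) * ((2 ^ a.k) ^ 3 / W ^ 28) := by
    rw [div_le_iff₀ (by positivity)]
    have e : (1 / 4) * (((2 : ℝ) ^ a.k) ^ 3 / W ^ 28) * W ^ 29 = ((2 ^ a.k) ^ 3) * (W / 4) := by field_simp
    rw [e]
    nlinarith
  have q2 : 16 * (((2 : ℝ) ^ a.k) ^ 3 / W ^ 44) ≤ (1 / 4) * ((2 ^ a.k) ^ 3 / W ^ 28) := by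
    have h16 : 64 ≤ W ^ 16 := by
      have : W ^ 1 ≤ W ^ 16 := pow_le_pow_right₀ hW1 (by norm_num)
      rw [pow_one] at this; linarith
    rw [mul_div_assoc', div_le_iff₀ (by positivity)]
    have e : (1 / 4) * (((2 : ℝ) ^ a.k) ^ 3 / W ^ 28) * W ^ 44 = ((2 ^ a.k) ^ 3) * (W ^ 16 / 4) := by field_simp
    rw [e]
    nlinarith
  have q3 : 16 * (((2 : ℝ) ^ a.k) ^ 3 / W ^ 40) ≤ (1 / 4) * ((2 ^ a.k) ^ 3 / W ^ 28) := by
    have h16 : 64 ≤ W ^ 12 := by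
      have : W ^ 1 ≤ W ^ 12 := pow_le_pow_right₀ hW1 (by norm_num)
      rw [pow_one] at this; linarith
    rw [mul_div_assoc', div_le_iff₀ (by positivity)]
    have e : (1 / 4) * (((2 : ℝ) ^ a.k) ^ 3 / W ^ 28) * W ^ 40 = ((2 ^ a.k) ^ 3) * (W ^ 12 / 4) := by field_simp
    rw [e]
    nlinarith
  have q0 : (0 : ℝ) ≤ (2 ^ a.k) ^ 3 / W ^ 28 := by positivity
  linarith

open Classical in
/-- the bilinear estimate -/
theorem near_sum (hX : Gen3 a (pt X)) (μ ν : ℕ → ℝ) (hμ0 : ∀ u, 0 ≤ μ u) (hν0 : ∀ v, 0 ≤ ν v)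
    (hμ : ∀ u ∈ range a.N1, μ u ≤ 2 ^ a.w / a.N1) (hν : ∀ v ∈ range a.N2, ν v ≤ 2 ^ a.w / a.N2)
    (hμ1 : ∑ u ∈ range a.N1, μ u ≤ 1) (hν1 : ∑ v ∈ range a.N2, ν v ≤ 1) (w : ℤ × ℤ → ℂ) {b : ℝ} (hb0 : 0 ≤ b)
    (hb : ∀ m ∈ a.M (pt X), ‖w m‖ ≤ b) :
    ‖∑ u ∈ range a.N1, ∑ v ∈ range a.N2, ((μ u * ν v : ℝ) : ℂ) * ∑ m ∈ a.M (pt X), w m * a.kp X m u v‖ ≤
      b * 2 ^ a.σ / 2 ^ a.w := by
  have hW1 := h.W1
  have hW := h.W40
  have n1pos : 0 < a.N1 := by unfold AP.N1; positivity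
  have n2pos : 0 < a.N2 := by unfold AP.N2; positivity
  have n1' : (0 : ℝ) < a.N1 := by exact_mod_cast n1pos
  have n2' : (0 : ℝ) < a.N2 := by exact_mod_cast n2pos
  have A1 : ∑ u ∈ range a.N1, μ u ^ 2 ≤ 2 ^ a.w / a.N1 := by
    calc ∑ u ∈ range a.N1, μ u ^ 2 ≤ ∑ u ∈ range a.N1, (2 ^ a.w / a.N1) * μ u := by
          apply Finset.sum_le_sum; intro u hu
          rw [sq]
          exact mul_le_mul_of_nonneg_right (hμ u hu) (hμ0 u)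
      _ = (2 ^ a.w / a.N1) * ∑ u ∈ range a.N1, μ u := by rw [Finset.mul_sum]
      _ ≤ (2 ^ a.w / a.N1) * 1 := by gcongr
      _ = _ := mul_one _
  have A2 : ∑ u ∈ range a.N2, ν u ^ 2 ≤ 2 ^ a.w / a.N2 := by
    calc ∑ u ∈ range a.N2, ν u ^ 2 ≤ ∑ u ∈ range a.N2, (2 ^ a.w / a.N2) * ν u := by
          apply Finset.sum_le_sum; intro u hu
          rw [sq]
          exact mul_le_mul_of_nonneg_right (hν u hu) (hν0 u)
      _ = (2 ^ a.w / a.N2) * ∑ u ∈ range a.N2, ν u := by rw [Finset.mul_sum]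
      _ ≤ (2 ^ a.w / a.N2) * 1 := by gcongr
      _ = _ := mul_one _
  have s1 := cs_cycle n1pos n2pos (fun u v => ∑ m ∈ a.M (pt X), w m * a.kp X m u v) μ ν hν0 A1 A2
  have s2 := quad_expand a.N1 a.N2 (a.M (pt X)) w (fun m => a.kp X m) hb
  have s3 := sum_IQ h hX
  have s4 : ‖∑ u ∈ range a.N1, ∑ v ∈ range a.N2, ((μ u * ν v : ℝ) : ℂ) * ∑ m ∈ a.M (pt X), w m * a.kp X m u v‖ ^ 4 ≤
      (2 ^ a.w / a.N1 * (2 ^ a.w / a.N2) / (a.N1 * a.N2)) ^ 2 * (b ^ 4 * (a.Wt * ((2 ^ a.k) ^ 3 / (2 ^ a.w) ^ 28))) := by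
    refine s1.trans ?_
    apply mul_le_mul_of_nonneg_left _ (by positivity)
    refine s2.trans ?_
    apply mul_le_mul_of_nonneg_left s3 (by positivity)
  have s5 : (2 ^ a.w / a.N1 * (2 ^ a.w / a.N2) / (a.N1 * a.N2)) ^ 2 * (b ^ 4 * (a.Wt * ((2 ^ a.k) ^ 3 / (2 ^ a.w) ^ 28))) ≤
      (b * 2 ^ a.σ / 2 ^ a.w) ^ 4 := by
    have hkl := h.kW
    have e1 := h.N1_eq
    have e2 := h.N2_eq
    have e : (2 ^ a.w / a.N1 * (2 ^ a.w / a.N2) / (a.N1 * a.N2)) ^ 2 * (b ^ 4 * (a.Wt * ((2 ^ a.k) ^ 3 / (2 ^ a.w) ^ 28))) =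
        (b ^ 4 * (2 ^ a.σ) ^ 4 / (2 ^ a.w) ^ 6) * (2 ^ 17 / (2 ^ a.w) ^ 2) * ((2 ^ a.k) / 2 ^ a.l) ^ 2 := by
      unfold AP.Wt AP.Sd
      rw [e1, e2]
      field_simp
      ring
    rw [e]
    have f1 : (2 : ℝ) ^ a.k / 2 ^ a.l ≤ 2 ^ a.w := by
      rw [div_le_iff₀ (by positivity)]; linarith
    set W : ℝ := 2 ^ a.w with hWdef
    have hW0 : 0 < W := by positivity
    calc (b ^ 4 * (2 ^ a.σ) ^ 4 / W ^ 6) * (2 ^ 17 / W ^ 2) * ((2 ^ a.k) / 2 ^ a.l) ^ 2 ≤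
        (b ^ 4 * (2 ^ a.σ) ^ 4 / W ^ 6) * (2 ^ 17 / W ^ 2) * W ^ 2 := by gcongr
      _ = (b ^ 4 * (2 ^ a.σ) ^ 4 / W ^ 4) * (2 ^ 17 / W ^ 2) := by field_simp
      _ ≤ (b ^ 4 * (2 ^ a.σ) ^ 4 / W ^ 4) * 1 := by
        apply mul_le_mul_of_nonneg_left _ (by positivity)
        rw [div_le_one (by positivity)]
        nlinarith
      _ = _ := by rw [div_pow, mul_pow, mul_one]
  have hR0 : 0 ≤ b * 2 ^ a.σ / 2 ^ a.w := by positivity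
  exact le_of_pow_le_pow_left₀ (by norm_num) hR0 (s4.trans s5)

end

end Run7.h297
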