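import Pool.Agent.Run7.h297.Mix

set_option autoImplicit false

/-! The two sided mixing estimate on the grid. -/

noncomputable section

namespace Run7.h297

open Real Finset MeasureTheory

section

variable {a : AP} (h : a.Ok) {X : ℝ × ℝ}

include h

open Classical in
theorem mix2 (hX : Gen3 a (pt X)) (hF : a.Far (pt X) < 1 / (4 * (2 ^ a.w) ^ 3)) (γ : TT × TT) (μ ν : ℕ → ℝ)
    (hμ0 : ∀ u, 0 ≤ μ u) (hν0 : ∀ v, 0 ≤ ν v)
    (hμ : ∀ u ∈ range a.N1, μ u ≤ 2 ^ a.w / a.N1) (hν : ∀ v ∈ range a.N2, ν v ≤ 2 ^ a.w / a.N2)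
    (hμ1 : ∑ u ∈ range a.N1, μ u = 1) (hν1 : ∑ v ∈ range a.N2, ν v = 1) :
    |(∑ u ∈ range a.N1, ∑ v ∈ range a.N2, μ u * ν v * SS (2 ^ a.σ) a.d1 a.d2 (2 * 2 ^ a.σ) (pt X + a.gp u v) γ) - a.V| ≤ a.V / 2 := by
  have hd1 := d1_pos (a := a)
  have hd2 := d2_pos (a := a)
  have hd1' := d1_le h
  have hd2' := d2_le h
  have hW := h.W40
  have hW1 := h.W1
  obtain ⟨hV1, hV2⟩ := V_bd h
  have n1' : (0 : ℝ) < a.N1 := by unfold AP.N1; positivity
  have n2' : (0 : ℝ) < a.N2 := by unfold AP.N2; positivity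
  set S : ℝ := ∑ u ∈ range a.N1, ∑ v ∈ range a.N2, μ u * ν v * SS (2 ^ a.σ) a.d1 a.d2 (2 * 2 ^ a.σ) (pt X + a.gp u v) γ with hS
  set T : ℤ × ℤ → ℂ := fun m => ∑ u ∈ range a.N1, ∑ v ∈ range a.N2, ((μ u * ν v : ℝ) : ℂ) *
    (((cf a.d1 a.d2 m * FQ (2 ^ a.σ) (dm m (pt X + a.gp u v)) : ℝ) : ℂ) *
      (ch ((2 * 2 ^ a.σ : ℤ) • dm m (pt X + a.gp u v)) * ch (-dm m γ))) with hT
  have hsum : HasSum T (S : ℂ) := by
    rw [hS]
    push_cast
    apply hasSum_sum; intro u _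
    apply hasSum_sum; intro v _
    have := (hasSum_SS (Q := 2 ^ a.σ) (by positivity) hd1 hd1' hd2 hd2' (2 * 2 ^ a.σ) (pt X + a.gp u v) γ).mul_left ((μ u * ν v : ℝ) : ℂ)
    push_cast at this ⊢
    exact this
  set F0 : Finset (ℤ × ℤ) := insert 0 (a.M (pt X)) with hF0
  have h0M : (0 : ℤ × ℤ) ∉ a.M (pt X) := by
    intro h0
    exact (AP.ne_zero_of_mem (mem_M.mp h0).1).1 rfl
  have hfin : HasSum (fun m => if m ∈ F0 then T m else 0) (∑ m ∈ F0, T m) := by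
    have : HasSum (fun m => if m ∈ F0 then T m else 0) (∑ m ∈ F0, if m ∈ F0 then T m else 0) :=
      hasSum_sum_of_ne_finset_zero (fun m hm => by rw [if_neg hm])
    rw [Finset.sum_congr rfl (fun m hm => if_pos hm)] at this
    exact this
  have hdiff := hsum.sub hfin
  have hg := (far_summable h (pt X)).hasSum.mul_left ((2 ^ a.w : ℝ) ^ 2)
  have hbound := hdiff.norm_le_of_bounded hg (by
    intro m
    by_cases hm : m ∈ F0
    · rw [if_pos hm, sub_self, norm_zero]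
      split_ifs
      · exact mul_nonneg (by positivity) (av_nonneg _ _)
      · simp
    · rw [if_neg hm, sub_zero]
      rw [hF0, Finset.mem_insert, not_or] at hm
      rw [if_pos hm]
      rw [hT]
      dsimp only
      have h0 := cf_nonneg hd1 hd2 m
      calc ‖∑ u ∈ range a.N1, ∑ v ∈ range a.N2, ((μ u * ν v : ℝ) : ℂ) *
            (((cf a.d1 a.d2 m * FQ (2 ^ a.σ) (dm m (pt X + a.gp u v)) : ℝ) : ℂ) *
            (ch ((2 * 2 ^ a.σ : ℤ) • dm m (pt X + a.gp u v)) * ch (-dm m γ)))‖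
          ≤ ∑ u ∈ range a.N1, ∑ v ∈ range a.N2, (2 ^ a.w / a.N1) * (2 ^ a.w / a.N2) * (cf a.d1 a.d2 m * FQ (2 ^ a.σ) (dm m (pt X + a.gp u v))) := by
            refine (norm_sum_le _ _).trans ?_
            apply Finset.sum_le_sum; intro u hu
            refine (norm_sum_le _ _).trans ?_
            apply Finset.sum_le_sum; intro v hv
            have hfq := FQ_nonneg (2 ^ a.σ) (dm m (pt X + a.gp u v))
            rw [norm_mul, norm_mul, norm_mul, norm_ch, norm_ch, mul_one, mul_one, Complex.norm_real, Complex.norm_real,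
              Real.norm_eq_abs, Real.norm_eq_abs, abs_of_nonneg (mul_nonneg (hμ0 u) (hν0 v)), abs_of_nonneg (mul_nonneg h0 hfq)]
            have h1 := hμ u hu
            have h2 := hν v hv
            have h3 := hμ0 u
            have h4 := hν0 v
            gcongr
        _ = (2 ^ a.w : ℝ) ^ 2 * a.av m (pt X) := by
            unfold AP.av
            simp_rw [← Finset.mul_sum]
            field_simp)
  have hFar : (∑' m : ℤ × ℤ, if m ≠ 0 ∧ m ∉ a.M (pt X) then a.av m (pt X) else 0) = a.Far (pt X) := rfl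
  rw [hFar] at hbound
  -- the finite part
  have e0 : T 0 = ((a.V : ℝ) : ℂ) := by
    rw [hT]; dsimp only
    have e1 : ∀ u ∈ range a.N1, ∀ v ∈ range a.N2, ((μ u * ν v : ℝ) : ℂ) *
      (((cf a.d1 a.d2 0 * FQ (2 ^ a.σ) (dm 0 (pt X + a.gp u v)) : ℝ) : ℂ) *
      (ch ((2 * 2 ^ a.σ : ℤ) • dm 0 (pt X + a.gp u v)) * ch (-dm 0 γ))) = ((μ u * ν v : ℝ) : ℂ) * ((a.V : ℝ) : ℂ) := by
      intro u _ v _
      rw [dm_zero, dm_zero, smul_zero, neg_zero, ch_zero, mul_one, mul_one, FQ_zero, cf_zero]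
      congr 2
      unfold AP.V; push_cast; ring
    rw [Finset.sum_congr rfl (fun u hu => Finset.sum_congr rfl (fun v hv => e1 u hu v hv))]
    simp_rw [← Finset.sum_mul]
    have e2 : ∑ u ∈ range a.N1, ∑ v ∈ range a.N2, ((μ u * ν v : ℝ) : ℂ) = 1 := by
      have : ∑ u ∈ range a.N1, ∑ v ∈ range a.N2, (μ u * ν v : ℝ) = 1 := by
        rw [← Finset.sum_mul_sum, hμ1, hν1, mul_one]
      exact_mod_cast this
    rw [e2, one_mul]
  have eM : ∑ m ∈ a.M (pt X), T m = ∑ u ∈ range a.N1, ∑ v ∈ range a.N2, ((μ u * ν v : ℝ) : ℂ) *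
      ∑ m ∈ a.M (pt X), ((cf a.d1 a.d2 m : ℝ) * ch (-dm m γ)) * a.kp X m u v := by
    rw [hT]; dsimp only
    rw [Finset.sum_comm]
    apply Finset.sum_congr rfl; intro u _
    rw [Finset.sum_comm]
    apply Finset.sum_congr rfl; intro v _
    rw [Finset.mul_sum]
    apply Finset.sum_congr rfl; intro m _
    rw [kp_eq]; push_cast; ring
  have hnear := near_sum h hX μ ν hμ0 hν0 hμ hν hμ1.le hν1.le (fun m => (cf a.d1 a.d2 m : ℝ) * ch (-dm m γ))
    (b := a.d1 * a.d2) (by positivity) (by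
      intro m _
      have h0 := cf_nonneg hd1 hd2 m
      rw [norm_mul, norm_ch, mul_one, Complex.norm_real, Real.norm_eq_abs, abs_of_nonneg h0]
      unfold cf
      exact mul_le_mul (th_le hd1 _) (th_le hd2 _) (th_nonneg hd2 _) hd1.le)
  rw [← eM] at hnear
  have hVe : a.d1 * a.d2 * 2 ^ a.σ / 2 ^ a.w = a.V / 2 ^ a.w := by unfold AP.V; ring
  rw [hVe] at hnear
  have eF0 : ∑ m ∈ F0, T m = ((a.V : ℝ) : ℂ) + ∑ m ∈ a.M (pt X), T m := by
    rw [hF0, Finset.sum_insert h0M, e0]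
  have hW2 : (2 ^ a.w : ℝ) ^ 2 * a.Far (pt X) ≤ a.V / 4 := by
    calc (2 ^ a.w : ℝ) ^ 2 * a.Far (pt X) ≤ (2 ^ a.w) ^ 2 * (1 / (4 * (2 ^ a.w) ^ 3)) := by gcongr
      _ = (1 / 2 ^ a.w) / 4 := by field_simp
      _ ≤ a.V / 4 := by gcongr
  have hV4 : a.V / 2 ^ a.w ≤ a.V / 4 := by
    have : 0 < a.V := lt_of_lt_of_le (by positivity) hV1
    apply div_le_div_of_nonneg_left this.le (by norm_num)
    linarith
  have hre : |S - a.V| ≤ a.V / 4 + a.V / 4 := by
    have e : ((S - a.V : ℝ) : ℂ) = ((S : ℂ) - ∑ m ∈ F0, T m) + ∑ m ∈ a.M (pt X), T m := by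
      rw [eF0]; push_cast; ring
    have : |S - a.V| = ‖((S - a.V : ℝ) : ℂ)‖ := by rw [Complex.norm_real, Real.norm_eq_abs]
    rw [this, e]
    refine (norm_add_le _ _).trans ?_
    linarith
  linarith

end

end Run7.h297
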