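import Pool.Agent.Run7.h297.KspaceB
import Pool.Agent.Run7.h297.Types

set_option autoImplicit false

/-! Coordinates with respect to a reduced basis. -/

noncomputable section

namespace Run7.h297

open Real Finset MeasureTheory

/-- coordinates of a vector times the determinant -/
def kk (A B C M : V3) : V3 := (dot M (crs B C), dot A (crs M C), dot A (crs B M))

/-- the vector of a mode -/
def MV (X : ℝ × ℝ) (m : ℤ × ℤ) : V3 := (m.1, m.2, pz m X)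

theorem cV_MV (X : ℝ × ℝ) (m : ℤ × ℤ) : cV X (MV X m) = cz m X := rfl

theorem kk_e1 (A B C M : V3) : dot (kk A B C M) (A.1, B.1, C.1) = dot A (crs B C) * M.1 := by
  unfold kk dot crs; ring

theorem kk_e2 (A B C M : V3) : dot (kk A B C M) (A.2.1, B.2.1, C.2.1) = dot A (crs B C) * M.2.1 := by
  unfold kk dot crs; ring

theorem kk_inj {A B C : V3} (hd : dot A (crs B C) ≠ 0) {X : ℝ × ℝ} {m m' : ℤ × ℤ}
    (h : kk A B C (MV X m) = kk A B C (MV X m')) : m = m' := by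
  have h1 := kk_e1 A B C (MV X m)
  have h2 := kk_e2 A B C (MV X m)
  rw [h, kk_e1] at h1
  rw [h, kk_e2] at h2
  have e1 := mul_left_cancel₀ hd h1
  have e2 := mul_left_cancel₀ hd h2
  exact Prod.ext e1.symm e2.symm

/-- real determinant with a free first row -/
def kr (X : ℝ × ℝ) (e1 e2 e3 : ℝ) (B C : V3) : ℝ :=
  e1 * (B.2.1 * cV X C - cV X B * C.2.1) - e2 * (B.1 * cV X C - cV X B * C.1) + e3 * (B.1 * C.2.1 - B.2.1 * C.1)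

theorem kk_real (X : ℝ × ℝ) (A B C M : V3) :
    (((kk A B C M).1 : ℤ) : ℝ) = - kr X M.1 M.2.1 (cV X M) B C ∧
    (((kk A B C M).2.1 : ℤ) : ℝ) = kr X M.1 M.2.1 (cV X M) A C ∧
    (((kk A B C M).2.2 : ℤ) : ℝ) = - kr X M.1 M.2.1 (cV X M) A B := by
  unfold kk dot crs kr cV
  refine ⟨?_, ?_, ?_⟩
  · push_cast; ring
  · push_cast; ring
  · push_cast; ring

theorem kr_le {a : AP} {X : ℝ × ℝ} {α β : ℝ} {e1 e2 e3 : ℝ} {B C : V3} (h1 : |e1| ≤ α * a.s1) (h2 : |e2| ≤ α * a.s2)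
    (h3 : |e3| ≤ α * a.s3) (hB : Sz a X β B) (hC : Sz a X β C) :
    |kr X e1 e2 e3 B C| ≤ 6 * (α * β * β) * (a.s1 * a.s2 * a.s3) := by
  obtain ⟨b1, b2, b3⟩ := hB
  obtain ⟨c1, c2, c3⟩ := hC
  have key : ∀ x y z p q t : ℝ, |x| ≤ p → |y| ≤ q → |z| ≤ t → |x * y * z| ≤ p * q * t := by
    intro x y z p q t h1 h2 h3
    rw [abs_mul, abs_mul]
    have hp := (abs_nonneg x).trans h1
    have hq := (abs_nonneg y).trans h2
    gcongr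
  have k1 := key _ _ _ _ _ _ h1 b2 c3
  have k2 := key _ _ _ _ _ _ h1 b3 c2
  have k3 := key _ _ _ _ _ _ h2 b1 c3
  have k4 := key _ _ _ _ _ _ h2 b3 c1
  have k5 := key _ _ _ _ _ _ h3 b1 c2
  have k6 := key _ _ _ _ _ _ h3 b2 c1
  have e : kr X e1 e2 e3 B C = e1 * B.2.1 * cV X C - e1 * cV X B * C.2.1 - e2 * B.1 * cV X C + e2 * cV X B * C.1 +
      e3 * B.1 * C.2.1 - e3 * B.2.1 * C.1 := by unfold kr; ring
  rw [e]
  have g1 : α * a.s1 * (β * a.s2) * (β * a.s3) = (α * β * β) * (a.s1 * a.s2 * a.s3) := by ring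
  have g2 : α * a.s1 * (β * a.s3) * (β * a.s2) = (α * β * β) * (a.s1 * a.s2 * a.s3) := by ring
  have g3 : α * a.s2 * (β * a.s1) * (β * a.s3) = (α * β * β) * (a.s1 * a.s2 * a.s3) := by ring
  have g4 : α * a.s2 * (β * a.s3) * (β * a.s1) = (α * β * β) * (a.s1 * a.s2 * a.s3) := by ring
  have g5 : α * a.s3 * (β * a.s1) * (β * a.s2) = (α * β * β) * (a.s1 * a.s2 * a.s3) := by ring
  have g6 : α * a.s3 * (β * a.s2) * (β * a.s1) = (α * β * β) * (a.s1 * a.s2 * a.s3) := by ring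
  rw [g1] at k1
  rw [g2] at k2
  rw [g3] at k3
  rw [g4] at k4
  rw [g5] at k5
  rw [g6] at k6
  have e6 : 6 * (α * β * β) * (a.s1 * a.s2 * a.s3) = 6 * ((α * β * β) * (a.s1 * a.s2 * a.s3)) := by ring
  rw [e6]
  generalize (α * β * β) * (a.s1 * a.s2 * a.s3) = Z at k1 k2 k3 k4 k5 k6 ⊢
  rw [abs_le] at k1 k2 k3 k4 k5 k6 ⊢
  constructor <;> linarith [k1.1, k1.2, k2.1, k2.2, k3.1, k3.2, k4.1, k4.2, k5.1, k5.2, k6.1, k6.2]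

section

variable {a : AP} (h : a.Ok) {X : ℝ × ℝ} {A B C : V3} (hB : Bas a X A B C)

include h hB

omit hB in
/-- combined bound -/
theorem kr_le' {α : ℝ} (hα : 0 ≤ α) {e1 e2 e3 : ℝ} (h1 : |e1| ≤ α * a.s1) (h2 : |e2| ≤ α * a.s2)
    (h3 : |e3| ≤ α * a.s3) {B' C' : V3} (hB' : Sz a X (2 * (2 ^ a.w) ^ 5) B') (hC' : Sz a X (2 * (2 ^ a.w) ^ 5) C') :
    |kr X e1 e2 e3 B' C'| ≤ 96 * α * (2 ^ a.w) ^ 7 := by
  have := kr_le h1 h2 h3 hB' hC'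
  have hv := h.s_vol
  refine this.trans ?_
  have e : 6 * (α * (2 * (2 ^ a.w : ℝ) ^ 5) * (2 * (2 ^ a.w) ^ 5)) * (a.s1 * a.s2 * a.s3) =
      24 * α * (2 ^ a.w) ^ 7 * (a.s1 * a.s2 * a.s3 * (2 ^ a.w) ^ 3) := by ring
  rw [e]
  calc _ ≤ 24 * α * (2 ^ a.w : ℝ) ^ 7 * 4 := by gcongr
    _ = _ := by ring

theorem nm_kk {m : ℤ × ℤ} (hm : m ∈ a.M (pt X)) : nm (kk A B C (MV X m)) ≤ 2 ^ (a.r + 9 * a.w) := by
  obtain ⟨hb, hc⟩ := mem_M.mp hm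
  obtain ⟨b1, b2, _, _⟩ := AP.mem_box.mp hb
  obtain ⟨r1, r2, r3, r4, r5⟩ := h.r_facts
  have hg := h.hg
  have hf := h.hf
  have hW := h.W40
  have hW1 := h.W1
  have nn : ∀ z : ℤ, (z.natAbs : ℝ) = |(z : ℝ)| := fun z => by rw [Nat.cast_natAbs, Int.cast_abs]
  have c1 : |(((MV X m).1 : ℤ) : ℝ)| ≤ (2 ^ a.r * 2 ^ a.w) * a.s1 := by
    have : |(m.1 : ℝ)| ≤ 2 ^ (a.g + 5 * a.w) := by rw [← nn]; exact_mod_cast b1
    refine this.trans (le_of_eq ?_)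
    unfold AP.s1; rw [← pow_add, ← pow_add]; congr 1; omega
  have c2 : |(((MV X m).2.1 : ℤ) : ℝ)| ≤ (2 ^ a.r * 2 ^ a.w) * a.s2 := by
    have : |(m.2 : ℝ)| ≤ 2 ^ (a.f + 5 * a.w) := by rw [← nn]; exact_mod_cast b2
    refine this.trans (le_of_eq ?_)
    unfold AP.s2; rw [← pow_add, ← pow_add]; congr 1; omega
  have c3 : |cV X (MV X m)| ≤ (2 ^ a.r * 2 ^ a.w) * a.s3 := by
    rw [cV_MV]
    refine hc.trans (le_of_eq ?_)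
    unfold AP.ρ AP.s3
    rw [mul_div_assoc', div_eq_div_iff (by positivity) (by positivity), ← pow_add, ← pow_add, ← pow_add, ← pow_add]
    congr 1; omega
  obtain ⟨q1, q2, q3⟩ := kk_real X A B C (MV X m)
  have hα : (0 : ℝ) ≤ 2 ^ a.r * 2 ^ a.w := by positivity
  have fin : ∀ z : ℝ, |z| ≤ 96 * (2 ^ a.r * 2 ^ a.w) * (2 ^ a.w) ^ 7 → |z| ≤ 2 ^ (a.r + 9 * a.w) := by
    intro z hz
    refine hz.trans ?_
    have e : (2 : ℝ) ^ (a.r + 9 * a.w) = 2 ^ a.w * (2 ^ a.r * (2 ^ a.w) ^ 8) := by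
      rw [pow_add, mul_comm 9 a.w, pow_mul]; ring
    rw [e]
    have e2 : 96 * ((2 : ℝ) ^ a.r * 2 ^ a.w) * (2 ^ a.w) ^ 7 = 96 * (2 ^ a.r * (2 ^ a.w) ^ 8) := by ring
    rw [e2]
    apply mul_le_mul_of_nonneg_right _ (by positivity)
    linarith
  have k1 : |(((kk A B C (MV X m)).1 : ℤ) : ℝ)| ≤ 2 ^ (a.r + 9 * a.w) :=
    fin _ (by rw [q1, abs_neg]; exact kr_le' h hα c1 c2 c3 hB.hB hB.hC)
  have k2 : |(((kk A B C (MV X m)).2.1 : ℤ) : ℝ)| ≤ 2 ^ (a.r + 9 * a.w) :=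
    fin _ (by rw [q2]; exact kr_le' h hα c1 c2 c3 hB.hA hB.hC)
  have k3 : |(((kk A B C (MV X m)).2.2 : ℤ) : ℝ)| ≤ 2 ^ (a.r + 9 * a.w) :=
    fin _ (by rw [q3, abs_neg]; exact kr_le' h hα c1 c2 c3 hB.hA hB.hB)
  rw [← nn] at k1 k2 k3
  have k1' : (kk A B C (MV X m)).1.natAbs ≤ 2 ^ (a.r + 9 * a.w) := by exact_mod_cast k1
  have k2' : (kk A B C (MV X m)).2.1.natAbs ≤ 2 ^ (a.r + 9 * a.w) := by exact_mod_cast k2
  have k3' : (kk A B C (MV X m)).2.2.natAbs ≤ 2 ^ (a.r + 9 * a.w) := by exact_mod_cast k3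
  unfold nm
  exact max_le k1' (max_le k2' k3')

end

theorem dot_K12 (k1 k2 k3 k4 e : V3) : dot e (K12 k1 k2 k3 k4) =
    dot k2 e * dot k1 (crs k3 k4) - dot k1 e * dot k2 (crs k3 k4) := by
  unfold K12 dot crs; ring

theorem dot_K13 (k1 k2 k3 k4 e : V3) : dot e (K13 k1 k2 k3 k4) =
    dot k3 e * dot k1 (crs k2 k4) - dot k1 e * dot k3 (crs k2 k4) := by
  unfold K13 dot crs; ring

/-- real combination of the first kind -/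
theorem comb_id {D G x y z1 z2 z3 z4 : ℝ} {k1 k2 k3 k4 e : V3} (h1 : ((dot k1 e : ℤ) : ℝ) = D * G * z1)
    (h2 : ((dot k2 e : ℤ) : ℝ) = D * G * z2) :
    x * ((dot e (K12 k1 k2 k3 k4) : ℤ) : ℝ) = D * G *
      ((x * (z2 * k1.1 - z1 * k2.1) - y * (z4 * k3.1 - z3 * k4.1)) * (crs k3 k4).1 +
       (x * (z2 * k1.2.1 - z1 * k2.2.1) - y * (z4 * k3.2.1 - z3 * k4.2.1)) * (crs k3 k4).2.1 +
       (x * (z2 * k1.2.2 - z1 * k2.2.2) - y * (z4 * k3.2.2 - z3 * k4.2.2)) * (crs k3 k4).2.2) := by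
  rw [dot_K12]
  push_cast
  rw [h1, h2]
  unfold dot crs
  push_cast
  ring

theorem dot3_le {x y z : ℝ} {n : V3} {t : ℝ} {N : ℕ} (hx : |x| ≤ t) (hy : |y| ≤ t) (hz : |z| ≤ t) (hn : nm n ≤ N) :
    |x * n.1 + y * n.2.1 + z * n.2.2| ≤ 3 * (t * N) := by
  have nn : ∀ z : ℤ, |(z : ℝ)| = (z.natAbs : ℝ) := fun z => by rw [Nat.cast_natAbs, Int.cast_abs]
  have t0 : 0 ≤ t := (abs_nonneg _).trans hx
  have a1 : |(n.1 : ℝ)| ≤ N := by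
    rw [nn]; have : n.1.natAbs ≤ N := le_trans (by unfold nm; omega) hn
    exact_mod_cast this
  have a2 : |(n.2.1 : ℝ)| ≤ N := by
    rw [nn]; have : n.2.1.natAbs ≤ N := le_trans (by unfold nm; omega) hn
    exact_mod_cast this
  have a3 : |(n.2.2 : ℝ)| ≤ N := by
    rw [nn]; have : n.2.2.natAbs ≤ N := le_trans (by unfold nm; omega) hn
    exact_mod_cast this
  refine (abs_add_three _ _ _).trans ?_
  rw [abs_mul, abs_mul, abs_mul]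
  have b1 : |x| * |(n.1 : ℝ)| ≤ t * N := by gcongr
  have b2 : |y| * |(n.2.1 : ℝ)| ≤ t * N := by gcongr
  have b3 : |z| * |(n.2.2 : ℝ)| ≤ t * N := by gcongr
  linarith

section

variable {a : AP} (h : a.Ok) {X : ℝ × ℝ} {A B C : V3} (hB : Bas a X A B C)

include h hB

theorem claim_gen {m1 m2 m3 m4 : ℤ × ℤ} (h3 : m3 ∈ a.M (pt X)) (h4 : m4 ∈ a.M (pt X)) {x y z1 z2 z3 z4 α G : ℝ} {e : V3}
    (hα : 0 ≤ α) (hG : 0 < G) (hx : 1 ≤ |x| * (2 ^ a.w) ^ 10)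
    (hz1 : ((dot (kk A B C (MV X m1)) e : ℤ) : ℝ) = ((dot A (crs B C) : ℤ) : ℝ) * G * z1)
    (hz2 : ((dot (kk A B C (MV X m2)) e : ℤ) : ℝ) = ((dot A (crs B C) : ℤ) : ℝ) * G * z2)
    (E1 : |x * (z2 * m1.1 - z1 * m2.1) - y * (z4 * m3.1 - z3 * m4.1)| ≤ α * a.s1)
    (E2 : |x * (z2 * m1.2 - z1 * m2.2) - y * (z4 * m3.2 - z3 * m4.2)| ≤ α * a.s2)
    (E3 : |x * (z2 * cz m1 X - z1 * cz m2 X) - y * (z4 * cz m3 X - z3 * cz m4 X)| ≤ α * a.s3) :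
    |((dot e (K12 (kk A B C (MV X m1)) (kk A B C (MV X m2)) (kk A B C (MV X m3)) (kk A B C (MV X m4))) : ℤ) : ℝ)| ≤
      576 * G * α * (2 ^ a.r) ^ 2 * (2 ^ a.w) ^ 48 := by
  have hW1 := h.W1
  have id := comb_id (x := x) (y := y) (z3 := z3) (z4 := z4) (k3 := kk A B C (MV X m3)) (k4 := kk A B C (MV X m4)) hz1 hz2
  obtain ⟨p1, q1, t1⟩ := kk_real X A B C (MV X m1)
  obtain ⟨p2, q2, t2⟩ := kk_real X A B C (MV X m2)
  obtain ⟨p3, q3, t3⟩ := kk_real X A B C (MV X m3)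
  obtain ⟨p4, q4, t4⟩ := kk_real X A B C (MV X m4)
  rw [cV_MV] at p1 q1 t1 p2 q2 t2 p3 q3 t3 p4 q4 t4
  obtain ⟨E1', hE1⟩ : ∃ z, z = x * (z2 * m1.1 - z1 * m2.1) - y * (z4 * m3.1 - z3 * m4.1) := ⟨_, rfl⟩
  obtain ⟨E2', hE2⟩ : ∃ z, z = x * (z2 * m1.2 - z1 * m2.2) - y * (z4 * m3.2 - z3 * m4.2) := ⟨_, rfl⟩
  obtain ⟨E3', hE3⟩ : ∃ z, z = x * (z2 * cz m1 X - z1 * cz m2 X) - y * (z4 * cz m3 X - z3 * cz m4 X) := ⟨_, rfl⟩
  rw [← hE1] at E1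
  rw [← hE2] at E2
  rw [← hE3] at E3
  have c1 : x * (z2 * (kk A B C (MV X m1)).1 - z1 * (kk A B C (MV X m2)).1) -
      y * (z4 * (kk A B C (MV X m3)).1 - z3 * (kk A B C (MV X m4)).1) = - kr X E1' E2' E3' B C := by
    rw [p1, p2, p3, p4, hE1, hE2, hE3]
    unfold MV kr; dsimp only; ring
  have c2 : x * (z2 * (kk A B C (MV X m1)).2.1 - z1 * (kk A B C (MV X m2)).2.1) -
      y * (z4 * (kk A B C (MV X m3)).2.1 - z3 * (kk A B C (MV X m4)).2.1) = kr X E1' E2' E3' A C := by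
    rw [q1, q2, q3, q4, hE1, hE2, hE3]
    unfold MV kr; dsimp only; ring
  have c3 : x * (z2 * (kk A B C (MV X m1)).2.2 - z1 * (kk A B C (MV X m2)).2.2) -
      y * (z4 * (kk A B C (MV X m3)).2.2 - z3 * (kk A B C (MV X m4)).2.2) = - kr X E1' E2' E3' A B := by
    rw [t1, t2, t3, t4, hE1, hE2, hE3]
    unfold MV kr; dsimp only; ring
  rw [c1, c2, c3] at id
  have b1 : |(- kr X E1' E2' E3' B C)| ≤ 96 * α * (2 ^ a.w) ^ 7 := by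
    rw [abs_neg]; exact kr_le' h hα E1 E2 E3 hB.hB hB.hC
  have b2 : |kr X E1' E2' E3' A C| ≤ 96 * α * (2 ^ a.w) ^ 7 := kr_le' h hα E1 E2 E3 hB.hA hB.hC
  have b3 : |(- kr X E1' E2' E3' A B)| ≤ 96 * α * (2 ^ a.w) ^ 7 := by
    rw [abs_neg]; exact kr_le' h hα E1 E2 E3 hB.hA hB.hB
  have n3 := nm_kk h hB h3
  have n4 := nm_kk h hB h4
  have n34 : nm (crs (kk A B C (MV X m3)) (kk A B C (MV X m4))) ≤ 2 * (2 ^ (a.r + 9 * a.w) * 2 ^ (a.r + 9 * a.w)) := by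
    refine (nm_crs_le _ _).trans ?_
    exact Nat.mul_le_mul_left _ (Nat.mul_le_mul n3 n4)
  have d3 := dot3_le b1 b2 b3 n34
  have hd := hB.dle
  have hx0 : 0 < |x| := by
    by_contra hc
    have : |x| = 0 := le_antisymm (not_lt.mp hc) (abs_nonneg _)
    rw [this] at hx; simp at hx; linarith
  obtain ⟨Y, hY⟩ : ∃ z : ℝ, z = ((dot e (K12 (kk A B C (MV X m1)) (kk A B C (MV X m2)) (kk A B C (MV X m3)) (kk A B C (MV X m4))) : ℤ) : ℝ) := ⟨_, rfl⟩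
  rw [← hY] at id ⊢
  have hab := congrArg abs id
  rw [abs_mul, abs_mul, abs_mul, abs_of_pos hG] at hab
  have e9 : (((2 * (2 ^ (a.r + 9 * a.w) * 2 ^ (a.r + 9 * a.w)) : ℕ)) : ℝ) = 2 * ((2 ^ a.r) ^ 2 * (2 ^ a.w) ^ 18) := by
    push_cast
    have : (2 : ℝ) ^ (a.r + 9 * a.w) = 2 ^ a.r * (2 ^ a.w) ^ 9 := by rw [pow_add, mul_comm 9 a.w, pow_mul]
    rw [this]; ring
  rw [e9] at d3
  set W : ℝ := 2 ^ a.w with hWdef
  have hW0 : 0 < W := by positivity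
  have s1 : |x| * |Y| ≤ W ^ 13 * G * (3 * (96 * α * W ^ 7 * (2 * ((2 ^ a.r) ^ 2 * W ^ 18)))) := by
    rw [hab]
    gcongr
  have s2 : |Y| ≤ |x| * |Y| * W ^ 10 := by
    have : |Y| * 1 ≤ |Y| * (|x| * W ^ 10) := by gcongr
    linarith
  calc |Y| ≤ |x| * |Y| * W ^ 10 := s2
    _ ≤ (W ^ 13 * G * (3 * (96 * α * W ^ 7 * (2 * ((2 ^ a.r) ^ 2 * W ^ 18))))) * W ^ 10 := by gcongr
    _ = _ := by ring

omit hB in
theorem s_rel : a.s1 * 2 ^ a.r = 2 ^ a.g * (2 ^ a.w) ^ 4 ∧ a.s2 * 2 ^ a.r = 2 ^ a.f * (2 ^ a.w) ^ 4 ∧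
    a.s3 * (2 ^ a.σ * 2 ^ a.r) = 2 ^ a.k * (2 ^ a.w) ^ 6 ∧ ((2 : ℝ) ^ a.r) ^ 3 ≤ 2 ^ a.k * (2 ^ a.w) ^ 18 := by
  obtain ⟨r1, r2, r3, r4, r5⟩ := h.r_facts
  have hg := h.hg
  have hf := h.hf
  refine ⟨?_, ?_, ?_, ?_⟩
  · unfold AP.s1; rw [← pow_mul, ← pow_add, ← pow_add]; congr 1; omega
  · unfold AP.s2; rw [← pow_mul, ← pow_add, ← pow_add]; congr 1; omega
  · unfold AP.s3
    rw [← pow_add, div_mul_cancel₀ _ (by positivity), ← pow_mul, ← pow_add]; congr 1; omega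
  · rw [← pow_mul, ← pow_mul, ← pow_add]
    apply pow_le_pow_right₀ (by norm_num); omega

theorem claim1 {m1 m2 m3 m4 : ℤ × ℤ} (h1 : m1 ∈ a.M (pt X)) (h2 : m2 ∈ a.M (pt X)) (h3 : m3 ∈ a.M (pt X))
    (h4 : m4 ∈ a.M (pt X)) (hde : |a.de m1 m2 m3 m4| ≤ (2 ^ a.w) ^ 170 / 2 ^ a.k)
    (hDL : |a.DL X m1 m2 m3 m4| ≤ (2 ^ a.w) ^ 172 / 2 ^ a.σ) :
    |((dot (A.1, B.1, C.1) (K12 (kk A B C (MV X m1)) (kk A B C (MV X m2)) (kk A B C (MV X m3)) (kk A B C (MV X m4))) : ℤ) : ℝ)| ≤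
      2 ^ a.g * (2 ^ a.w) ^ 233 := by
  have hW := h.W40
  have hW1 := h.W1
  obtain ⟨g1, g2, g3, g4⟩ := s_rel h
  have A4' := (box_na (mem_M.mp h4).1).2
  have B3' := (box_nb (mem_M.mp h3).1).2
  have hG : (0 : ℝ) < 2 ^ a.g := by positivity
  have hF : (0 : ℝ) < 2 ^ a.f := by positivity
  have hK : (0 : ℝ) < 2 ^ a.k := by positivity
  have hQ : (0 : ℝ) < 2 ^ a.σ := by positivity
  have hR : (0 : ℝ) < 2 ^ a.r := by positivity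
  have f1 : ∀ m : ℤ × ℤ, (m.1 : ℝ) = 2 ^ a.g * a.na m := by intro m; unfold AP.na; field_simp
  have f2 : ∀ m : ℤ × ℤ, (m.2 : ℝ) = 2 ^ a.f * a.nb m := by intro m; unfold AP.nb; field_simp
  set W : ℝ := 2 ^ a.w with hWdef
  have hW0 : 0 < W := by positivity
  set α : ℝ := W ^ 166 * 2 ^ a.r / 2 ^ a.k with hα
  have hα0 : 0 ≤ α := by positivity
  have u2 : 2 ^ a.f * (W ^ 170 / 2 ^ a.k) = α * a.s2 := by
    rw [hα]
    have : W ^ 166 * 2 ^ a.r / 2 ^ a.k * a.s2 = W ^ 166 * (a.s2 * 2 ^ a.r) / 2 ^ a.k := by ring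
    rw [this, g2]; ring
  have u3 : W ^ 172 / 2 ^ a.σ = α * a.s3 := by
    rw [hα]
    have : W ^ 166 * 2 ^ a.r / 2 ^ a.k * a.s3 = W ^ 166 * (a.s3 * (2 ^ a.σ * 2 ^ a.r)) / (2 ^ a.k * 2 ^ a.σ) := by
      field_simp
    rw [this, g3]; field_simp
  have hx : 1 ≤ |a.na m4 * a.nb m3| * W ^ 10 := by
    rw [abs_mul]
    have e : |a.na m4| * |a.nb m3| * W ^ 10 = (|a.na m4| * W ^ 5) * (|a.nb m3| * W ^ 5) := by ring
    rw [e]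
    nlinarith
  have hz : ∀ m : ℤ × ℤ, ((dot (kk A B C (MV X m)) (A.1, B.1, C.1) : ℤ) : ℝ) = ((dot A (crs B C) : ℤ) : ℝ) * 2 ^ a.g * a.na m := by
    intro m
    rw [kk_e1]
    push_cast
    have : (((MV X m).1 : ℤ) : ℝ) = 2 ^ a.g * a.na m := f1 m
    rw [this]; ring
  have key := claim_gen h hB h3 h4 (m1 := m1) (m2 := m2) (x := a.na m4 * a.nb m3) (y := a.na m2 * a.nb m1) (z1 := a.na m1) (z2 := a.na m2)
    (z3 := a.na m3) (z4 := a.na m4) (α := α) (G := 2 ^ a.g) (e := (A.1, B.1, C.1)) hα0 hG hx (hz m1) (hz m2)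
    (by
      rw [f1 m1, f1 m2, f1 m3, f1 m4]
      have e : a.na m4 * a.nb m3 * (a.na m2 * (2 ^ a.g * a.na m1) - a.na m1 * (2 ^ a.g * a.na m2)) -
        a.na m2 * a.nb m1 * (a.na m4 * (2 ^ a.g * a.na m3) - a.na m3 * (2 ^ a.g * a.na m4)) = 0 := by ring
      rw [e, abs_zero]
      have : 0 < a.s1 := by unfold AP.s1; positivity
      positivity)
    (by
      rw [f2 m1, f2 m2, f2 m3, f2 m4]
      have e : a.na m4 * a.nb m3 * (a.na m2 * (2 ^ a.f * a.nb m1) - a.na m1 * (2 ^ a.f * a.nb m2)) -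
        a.na m2 * a.nb m1 * (a.na m4 * (2 ^ a.f * a.nb m3) - a.na m3 * (2 ^ a.f * a.nb m4)) = - (2 ^ a.f * a.de m1 m2 m3 m4) := by
        unfold AP.de; ring
      rw [e, abs_neg, abs_mul, abs_of_pos hF, ← u2]
      gcongr)
    (by
      rw [← u3]
      exact hDL)
  refine key.trans ?_
  calc 576 * 2 ^ a.g * α * (2 ^ a.r) ^ 2 * W ^ 48 = 576 * 2 ^ a.g * W ^ 214 * ((2 ^ a.r) ^ 3 / 2 ^ a.k) := by rw [hα]; ring
    _ ≤ 576 * 2 ^ a.g * W ^ 214 * W ^ 18 := by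
      have : ((2 : ℝ) ^ a.r) ^ 3 / 2 ^ a.k ≤ W ^ 18 := by rw [div_le_iff₀ hK]; linarith
      gcongr
    _ = 576 * (2 ^ a.g * W ^ 232) := by ring
    _ ≤ W * (2 ^ a.g * W ^ 232) := by
      apply mul_le_mul_of_nonneg_right _ (by positivity)
      linarith
    _ = _ := by ring

theorem claim2 {m1 m2 m3 m4 : ℤ × ℤ} (h1 : m1 ∈ a.M (pt X)) (h2 : m2 ∈ a.M (pt X)) (h3 : m3 ∈ a.M (pt X))
    (h4 : m4 ∈ a.M (pt X)) (hde : |a.de m1 m2 m3 m4| ≤ (2 ^ a.w) ^ 170 / 2 ^ a.k)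
    (hDL : |a.DL X m1 m2 m3 m4| ≤ (2 ^ a.w) ^ 172 / 2 ^ a.σ) :
    |((dot (A.2.1, B.2.1, C.2.1) (K13 (kk A B C (MV X m1)) (kk A B C (MV X m2)) (kk A B C (MV X m3)) (kk A B C (MV X m4))) : ℤ) : ℝ)| ≤
      2 ^ a.f * (2 ^ a.w) ^ 243 := by
  have hW := h.W40
  have hW1 := h.W1
  obtain ⟨g1, g2, g3, g4⟩ := s_rel h
  obtain ⟨A2, A2'⟩ := box_na (mem_M.mp h2).1
  obtain ⟨A4, A4'⟩ := box_na (mem_M.mp h4).1
  obtain ⟨B4, B4'⟩ := box_nb (mem_M.mp h4).1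
  have hc4 := (mem_M.mp h4).2
  have hρ : a.ρ = 2 ^ a.k * (2 ^ a.w) ^ 7 / 2 ^ a.σ := by
    unfold AP.ρ; rw [pow_add, mul_comm 7 a.w, pow_mul]
  rw [hρ] at hc4
  have hG : (0 : ℝ) < 2 ^ a.g := by positivity
  have hF : (0 : ℝ) < 2 ^ a.f := by positivity
  have hK : (0 : ℝ) < 2 ^ a.k := by positivity
  have hQ : (0 : ℝ) < 2 ^ a.σ := by positivity
  have hR : (0 : ℝ) < 2 ^ a.r := by positivity
  have f1 : ∀ m : ℤ × ℤ, (m.1 : ℝ) = 2 ^ a.g * a.na m := by intro m; unfold AP.na; field_simp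
  have f2 : ∀ m : ℤ × ℤ, (m.2 : ℝ) = 2 ^ a.f * a.nb m := by intro m; unfold AP.nb; field_simp
  set W : ℝ := 2 ^ a.w with hWdef
  have hW0 : 0 < W := by positivity
  set α : ℝ := 2 * W ^ 176 * 2 ^ a.r / 2 ^ a.k with hα
  have hα0 : 0 ≤ α := by positivity
  have u1 : 2 ^ a.g * (W ^ 170 / 2 ^ a.k) ≤ α * a.s1 := by
    rw [hα]
    have : 2 * W ^ 176 * 2 ^ a.r / 2 ^ a.k * a.s1 = 2 * W ^ 176 * (a.s1 * 2 ^ a.r) / 2 ^ a.k := by ring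
    rw [this, g1]
    have e : 2 * W ^ 176 * (2 ^ a.g * W ^ 4) / 2 ^ a.k = (2 * W ^ 10) * (2 ^ a.g * (W ^ 170 / 2 ^ a.k)) := by ring
    rw [e]
    have h10 : (1 : ℝ) ≤ W ^ 10 := one_le_pow₀ hW1
    have h0 : 0 ≤ 2 ^ a.g * (W ^ 170 / 2 ^ a.k) := by positivity
    nlinarith
  have u3 : 2 * W ^ 182 / 2 ^ a.σ = α * a.s3 := by
    rw [hα]
    have : 2 * W ^ 176 * 2 ^ a.r / 2 ^ a.k * a.s3 = 2 * W ^ 176 * (a.s3 * (2 ^ a.σ * 2 ^ a.r)) / (2 ^ a.k * 2 ^ a.σ) := by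
      field_simp
    rw [this, g3]; field_simp
  have hx : 1 ≤ |a.na m2 * a.nb m4| * W ^ 10 := by
    rw [abs_mul]
    have e : |a.na m2| * |a.nb m4| * W ^ 10 = (|a.na m2| * W ^ 5) * (|a.nb m4| * W ^ 5) := by ring
    rw [e]
    nlinarith
  have hz : ∀ m : ℤ × ℤ, ((dot (kk A B C (MV X m)) (A.2.1, B.2.1, C.2.1) : ℤ) : ℝ) = ((dot A (crs B C) : ℤ) : ℝ) * 2 ^ a.f * a.nb m := by
    intro m
    rw [kk_e2]
    push_cast
    have : (((MV X m).2.1 : ℤ) : ℝ) = 2 ^ a.f * a.nb m := f2 m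
    rw [this]; ring
  have e3 : |a.na m2 * a.nb m4 * (a.nb m3 * cz m1 X - a.nb m1 * cz m3 X) -
      a.na m1 * a.nb m3 * (a.nb m4 * cz m2 X - a.nb m2 * cz m4 X)| ≤ 2 * W ^ 182 / 2 ^ a.σ := by
    obtain ⟨Z, hZ⟩ : ∃ z, z = a.na m2 * a.nb m4 * (a.nb m3 * cz m1 X - a.nb m1 * cz m3 X) -
      a.na m1 * a.nb m3 * (a.nb m4 * cz m2 X - a.nb m2 * cz m4 X) := ⟨_, rfl⟩
    rw [← hZ]
    have rel : a.na m4 * Z = a.nb m4 * a.DL X m1 m2 m3 m4 + cz m4 X * a.de m1 m2 m3 m4 := by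
      rw [hZ]; unfold AP.DL AP.de; ring
    have hab := congrArg abs rel
    rw [abs_mul] at hab
    have t1 : |a.nb m4 * a.DL X m1 m2 m3 m4 + cz m4 X * a.de m1 m2 m3 m4| ≤ 2 * (W ^ 177 / 2 ^ a.σ) := by
      refine (abs_add_le _ _).trans ?_
      rw [abs_mul, abs_mul]
      have p1 : |a.nb m4| * |a.DL X m1 m2 m3 m4| ≤ W ^ 5 * (W ^ 172 / 2 ^ a.σ) := by gcongr
      have p2 : |cz m4 X| * |a.de m1 m2 m3 m4| ≤ (2 ^ a.k * W ^ 7 / 2 ^ a.σ) * (W ^ 170 / 2 ^ a.k) := by gcongr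
      have p3 : W ^ 5 * (W ^ 172 / 2 ^ a.σ) = W ^ 177 / 2 ^ a.σ := by ring
      have p4 : (2 ^ a.k * W ^ 7 / 2 ^ a.σ) * (W ^ 170 / 2 ^ a.k) = W ^ 177 / 2 ^ a.σ := by field_simp
      linarith
    rw [← hab] at t1
    have t2 : |Z| ≤ |a.na m4| * |Z| * W ^ 5 := by
      have : |Z| * 1 ≤ |Z| * (|a.na m4| * W ^ 5) := by gcongr
      linarith
    calc |Z| ≤ |a.na m4| * |Z| * W ^ 5 := t2
      _ ≤ 2 * (W ^ 177 / 2 ^ a.σ) * W ^ 5 := by gcongr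
      _ = _ := by ring
  have key := claim_gen h hB (m3 := m2) (m4 := m4) h2 h4 (m1 := m1) (m2 := m3) (x := a.na m2 * a.nb m4) (y := a.na m1 * a.nb m3) (z1 := a.nb m1) (z2 := a.nb m3)
    (z3 := a.nb m2) (z4 := a.nb m4) (α := α) (G := 2 ^ a.f) (e := (A.2.1, B.2.1, C.2.1)) hα0 hF hx (hz m1) (hz m3)
    (by
      rw [f1 m1, f1 m2, f1 m3, f1 m4]
      have e : a.na m2 * a.nb m4 * (a.nb m3 * (2 ^ a.g * a.na m1) - a.nb m1 * (2 ^ a.g * a.na m3)) -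
        a.na m1 * a.nb m3 * (a.nb m4 * (2 ^ a.g * a.na m2) - a.nb m2 * (2 ^ a.g * a.na m4)) = 2 ^ a.g * a.de m1 m2 m3 m4 := by
        unfold AP.de; ring
      rw [e, abs_mul, abs_of_pos hG]
      refine le_trans ?_ u1
      gcongr)
    (by
      rw [f2 m1, f2 m2, f2 m3, f2 m4]
      have e : a.na m2 * a.nb m4 * (a.nb m3 * (2 ^ a.f * a.nb m1) - a.nb m1 * (2 ^ a.f * a.nb m3)) -
        a.na m1 * a.nb m3 * (a.nb m4 * (2 ^ a.f * a.nb m2) - a.nb m2 * (2 ^ a.f * a.nb m4)) = 0 := by ring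
      rw [e, abs_zero]
      have : 0 < a.s2 := by unfold AP.s2; positivity
      positivity)
    (by
      rw [← u3]
      exact e3)
  refine le_trans key ?_
  calc 576 * 2 ^ a.f * α * (2 ^ a.r) ^ 2 * W ^ 48 = 1152 * 2 ^ a.f * W ^ 224 * ((2 ^ a.r) ^ 3 / 2 ^ a.k) := by rw [hα]; ring
    _ ≤ 1152 * 2 ^ a.f * W ^ 224 * W ^ 18 := by
      have : ((2 : ℝ) ^ a.r) ^ 3 / 2 ^ a.k ≤ W ^ 18 := by rw [div_le_iff₀ hK]; linarith
      gcongr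
    _ = 1152 * (2 ^ a.f * W ^ 242) := by ring
    _ ≤ W * (2 ^ a.f * W ^ 242) := by
      apply mul_le_mul_of_nonneg_right _ (by positivity)
      linarith
    _ = _ := by ring

end

end Run7.h297
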