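import Pool.Agent.Run7.h297.Basis
import Pool.Agent.Run7.h297.KspaceC

set_option autoImplicit false

/-! Exceptional bases. -/

noncomputable section

namespace Run7.h297

open Real Finset MeasureTheory

/-- box size for coordinates -/
def AP.P (a : AP) : ℕ := 2 ^ (a.r + 9 * a.w)
/-- box size for first rows -/
def AP.E1 (a : AP) : ℕ := 2 ^ (a.g + 9 * a.w + 1 - a.r)
/-- box size for second rows -/
def AP.E2 (a : AP) : ℕ := 2 ^ (a.f + 9 * a.w + 1 - a.r)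
/-- threshold for cross products -/
def AP.Zc (a : AP) : ℕ := 2 ^ (2 * a.r - 334 * a.w)
/-- threshold for short vectors -/
def AP.kp0 (a : AP) : ℕ := 2 ^ (a.r - 167 * a.w)
/-- kernel length -/
def AP.K3 (a : AP) : ℕ := 2 ^ (a.σ + a.r - a.k - 11 * a.w - 4)
/-- threshold for the count -/
def AP.t3 (a : AP) : ℕ := 2 ^ (3 * a.k - 30 * a.w)

open Classical in
/-- number of quadruples compatible with given rows -/
def cnt3 (a : AP) (e : V3 × V3) : ℕ :=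
  ((QD a.P a.Zc).filter (fun q => |((dot e.1 (K12 q.2.1 q.2.2 q.1.1 q.1.2) : ℤ) : ℝ)| ≤ 2 ^ a.g * (2 ^ a.w) ^ 233 ∧
    |((dot e.2 (K13 q.2.1 q.2.2 q.1.1 q.1.2) : ℤ) : ℝ)| ≤ 2 ^ a.f * (2 ^ a.w) ^ 243)).card

/-- rows of a basis -/
def rows (A B C : V3) : V3 × V3 := ((A.1, B.1, C.1), (A.2.1, B.2.1, C.2.1))

/-- exceptional points -/
def Bad3 (a : AP) : Set (TT × TT) :=
  {x | ∃ X A B C, pt X = x ∧ Bas a X A B C ∧ a.t3 ≤ cnt3 a (rows A B C)}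

theorem AP.Ok.r_low {a : AP} (h : a.Ok) : 1405 * a.w ≤ a.r ∧ 3 * a.σ + 4216 * a.w ≤ 3 * (a.g + a.f) + 3 * a.r := by
  obtain ⟨r1, r2, r3, r4, r5⟩ := h.r_facts
  have h1 := h.he0
  have h2 := h.hk
  have h3 := h.hw
  constructor <;> omega

theorem AP.Ok.K3_eq {a : AP} (h : a.Ok) : (2 ^ a.w) ^ 5 * a.s3 = 1 / (16 * (a.K3 : ℝ)) := by
  obtain ⟨r1, r2, r3, r4, r5⟩ := h.r_facts
  unfold AP.s3 AP.K3
  push_cast
  have e16 : (16 : ℝ) = 2 ^ 4 := by norm_num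
  rw [mul_div_assoc', div_eq_div_iff (by positivity) (by positivity), e16, ← pow_mul, ← pow_add, ← pow_add, ← pow_add, one_mul]
  congr 1; omega

theorem noRel {a : AP} (h : a.Ok) {X : ℝ × ℝ} {A B C : V3} (hB : Bas a X A B C) :
    NoRel a.K3 a.K3 a.K3 (A.1, A.2.1) (B.1, B.2.1) (C.1, C.2.1) := by
  intro n1 n2 n3 h1 h2 h3 hrel
  have e1 := congrArg Prod.fst hrel
  have e2 := congrArg Prod.snd hrel
  simp only [Prod.fst_add, Prod.snd_add, Prod.smul_fst, Prod.smul_snd, smul_eq_mul, Prod.fst_zero, Prod.snd_zero] at e1 e2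
  have hK := h.K3_eq
  have hK0 : 0 < a.K3 := by unfold AP.K3; positivity
  have hK0' : (0 : ℝ) < a.K3 := by exact_mod_cast hK0
  have cA := hB.cA
  have cB := hB.cB
  have cC := hB.cC
  rw [hK] at cA cB cC
  obtain ⟨s, hs⟩ : ∃ z : ℤ, z = n1 * A.2.2 + n2 * B.2.2 + n3 * C.2.2 := ⟨_, rfl⟩
  have er : (n1 : ℝ) * cV X A + n2 * cV X B + n3 * cV X C = - (s : ℝ) := by
    have f1 : (n1 : ℝ) * A.1 + n2 * B.1 + n3 * C.1 = 0 := by exact_mod_cast e1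
    have f2 : (n1 : ℝ) * A.2.1 + n2 * B.2.1 + n3 * C.2.1 = 0 := by exact_mod_cast e2
    rw [hs]; push_cast; unfold cV
    linear_combination X.1 * f1 + X.2 * f2
  have hb : ∀ (n : ℤ) (c : ℝ), |n| < (a.K3 : ℤ) → |c| ≤ 1 / (16 * (a.K3 : ℝ)) → |(n : ℝ) * c| ≤ 1 / 16 := by
    intro n c hn hc
    have hn' : |(n : ℝ)| ≤ a.K3 := by
      rw [← Int.cast_abs]; exact_mod_cast hn.le
    rw [abs_mul]
    calc |(n : ℝ)| * |c| ≤ a.K3 * (1 / (16 * (a.K3 : ℝ))) := by gcongr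
      _ = 1 / 16 := by field_simp
  have b1 := hb n1 _ h1 cA
  have b2 := hb n2 _ h2 cB
  have b3 := hb n3 _ h3 cC
  have hs0 : s = 0 := by
    have : |(s : ℝ)| < 1 := by
      rw [← abs_neg, ← er]
      refine (abs_add_three _ _ _).trans_lt ?_
      linarith
    have h5 : |s| < 1 := by exact_mod_cast this
    rw [abs_lt] at h5; omega
  rw [hs0] at hs
  have d1 : n1 * dot A (crs B C) = 0 := by
    unfold dot crs
    linear_combination (B.2.1 * C.2.2 - B.2.2 * C.2.1) * e1 + (B.2.2 * C.1 - B.1 * C.2.2) * e2 -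
      (B.1 * C.2.1 - B.2.1 * C.1) * hs
  have d2 : n2 * dot A (crs B C) = 0 := by
    unfold dot crs
    linear_combination (C.2.1 * A.2.2 - C.2.2 * A.2.1) * e1 + (C.2.2 * A.1 - C.1 * A.2.2) * e2 -
      (C.1 * A.2.1 - C.2.1 * A.1) * hs
  have d3 : n3 * dot A (crs B C) = 0 := by
    unfold dot crs
    linear_combination (A.2.1 * B.2.2 - A.2.2 * B.2.1) * e1 + (A.2.2 * B.1 - A.1 * B.2.2) * e2 -
      (A.1 * B.2.1 - A.2.1 * B.1) * hs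
  have hd := hB.nd
  refine ⟨?_, ?_, ?_⟩
  · exact (mul_eq_zero.mp d1).resolve_right hd
  · exact (mul_eq_zero.mp d2).resolve_right hd
  · exact (mul_eq_zero.mp d3).resolve_right hd

theorem rows_mem {a : AP} (h : a.Ok) {X : ℝ × ℝ} {A B C : V3} (hB : Bas a X A B C) :
    rows A B C ∈ bx a.E1 ×ˢ bx a.E2 := by
  obtain ⟨r1, r2, r3, r4, r5⟩ := h.r_facts
  have hg := h.hg
  have hf := h.hf
  have nn : ∀ z : ℤ, |(z : ℝ)| = (z.natAbs : ℝ) := fun z => by rw [Nat.cast_natAbs, Int.cast_abs]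
  have e1 : 2 * (2 ^ a.w : ℝ) ^ 5 * a.s1 = ((a.E1 : ℕ) : ℝ) := by
    unfold AP.s1 AP.E1; push_cast
    rw [← pow_mul, ← pow_succ', ← pow_add]; congr 1; omega
  have e2 : 2 * (2 ^ a.w : ℝ) ^ 5 * a.s2 = ((a.E2 : ℕ) : ℝ) := by
    unfold AP.s2 AP.E2; push_cast
    rw [← pow_mul, ← pow_succ', ← pow_add]; congr 1; omega
  obtain ⟨a1, a2, _⟩ := hB.hA
  obtain ⟨b1, b2, _⟩ := hB.hB
  obtain ⟨c1, c2, _⟩ := hB.hC
  rw [e1, nn] at a1 b1 c1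
  rw [e2, nn] at a2 b2 c2
  have a1' : A.1.natAbs ≤ a.E1 := by exact_mod_cast a1
  have b1' : B.1.natAbs ≤ a.E1 := by exact_mod_cast b1
  have c1' : C.1.natAbs ≤ a.E1 := by exact_mod_cast c1
  have a2' : A.2.1.natAbs ≤ a.E2 := by exact_mod_cast a2
  have b2' : B.2.1.natAbs ≤ a.E2 := by exact_mod_cast b2
  have c2' : C.2.1.natAbs ≤ a.E2 := by exact_mod_cast c2
  unfold rows
  rw [Finset.mem_product, mem_bx, mem_bx]
  unfold nm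
  exact ⟨max_le a1' (max_le b1' c1'), max_le a2' (max_le b2' c2')⟩

open Classical in
theorem sum_cnt3 (a : AP) (h : a.Ok) :
    ∑ e ∈ bx a.E1 ×ˢ bx a.E2, (cnt3 a e : ℝ) ≤
      2 ^ (3 * a.g + 3 * a.f + 1198 * a.w + 25 + 25 + 5 * a.w + 8 * (a.r + 9 * a.w) - 6 * a.r) := by
  obtain ⟨r1, r2, r3, r4, r5⟩ := h.r_facts
  obtain ⟨r6, r7⟩ := h.r_low
  have hg := h.hg
  have hf := h.hf
  have hk := h.hk
  have hw := h.hw
  have p2 : ∀ i j : ℕ, i ≤ j → (2 : ℝ) ^ i ≤ 2 ^ j := fun i j hij => pow_le_pow_right₀ (by norm_num) hij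
  have hP1 : 1 ≤ a.P := by unfold AP.P; exact Nat.one_le_two_pow
  have hZ1 : 1 ≤ a.Zc := by unfold AP.Zc; exact Nat.one_le_two_pow
  have eP : (a.P : ℝ) = 2 ^ (a.r + 9 * a.w) := by unfold AP.P; push_cast; rfl
  have eZ : (a.Zc : ℝ) = 2 ^ (2 * a.r - 334 * a.w) := by unfold AP.Zc; push_cast; rfl
  have eE1 : (a.E1 : ℝ) = 2 ^ (a.g + 9 * a.w + 1 - a.r) := by unfold AP.E1; push_cast; rfl
  have eE2 : (a.E2 : ℝ) = 2 ^ (a.f + 9 * a.w + 1 - a.r) := by unfold AP.E2; push_cast; rfl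
  have hL : 1 + Real.log (6 * (a.P : ℝ) ^ 3 + 1) ≤ 2 ^ a.w := by
    have h1 : 6 * (a.P : ℝ) ^ 3 + 1 ≤ 2 ^ (3 * (a.r + 9 * a.w) + 3) := by
      have h2 : (1 : ℝ) ≤ (a.P : ℝ) ^ 3 := one_le_pow₀ (by exact_mod_cast hP1)
      have h3 : (2 : ℝ) ^ (3 * (a.r + 9 * a.w) + 3) = 8 * (a.P : ℝ) ^ 3 := by
        rw [eP, pow_add, ← pow_mul, mul_comm 3 (a.r + 9 * a.w)]; ring
      rw [h3]; linarith
    have h4 := Real.log_le_log (by positivity) h1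
    rw [Real.log_pow] at h4
    have hl : Real.log 2 ≤ 1 := by have := Real.log_two_lt_d9; linarith
    have h5 : (((3 * (a.r + 9 * a.w) + 3 : ℕ)) : ℝ) * Real.log 2 ≤ ((3 * (a.r + 9 * a.w) + 3 : ℕ) : ℝ) * 1 := by
      gcongr
    have h6 : 3 * (a.r + 9 * a.w) + 3 + 1 ≤ a.g + a.f + 2 * a.k := by omega
    have h7 : (((3 * (a.r + 9 * a.w) + 3 + 1 : ℕ)) : ℝ) ≤ ((a.g + a.f + 2 * a.k : ℕ) : ℝ) := by exact_mod_cast h6
    have h8 : ((a.g + a.f + 2 * a.k : ℕ) : ℝ) ≤ 2 ^ a.w := by exact_mod_cast h.hlg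
    push_cast at h5 h7 h8 h4 ⊢
    linarith
  have hH1 : 8 * (a.P : ℝ) ^ 4 ≤ 2 ^ a.g * (2 ^ a.w) ^ 233 := by
    have e8 : (8 : ℝ) = 2 ^ 3 := by norm_num
    rw [eP, e8, ← pow_mul, ← pow_mul, ← pow_add, ← pow_add]
    apply p2; omega
  have hH2 : 8 * (a.P : ℝ) ^ 4 ≤ 2 ^ a.f * (2 ^ a.w) ^ 243 := by
    have e8 : (8 : ℝ) = 2 ^ 3 := by norm_num
    rw [eP, e8, ← pow_mul, ← pow_mul, ← pow_add, ← pow_add]
    apply p2; omega
  have main := quad_sum (E1 := a.E1) (E2 := a.E2) hP1 hZ1 hL hH1 hH2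
  unfold cnt3
  refine main.trans ?_
  have f1 : 2 * (a.E1 : ℝ) + 1 ≤ 2 ^ (a.g + 9 * a.w + 3 - a.r) := by
    have h1 : (1 : ℝ) ≤ a.E1 := by rw [eE1]; exact one_le_pow₀ (by norm_num)
    have h2 : (2 : ℝ) ^ (a.g + 9 * a.w + 3 - a.r) = 4 * a.E1 := by
      rw [eE1]
      have e4 : (4 : ℝ) = 2 ^ 2 := by norm_num
      rw [e4, ← pow_add]; congr 1; omega
    rw [h2]; linarith
  have f2 : 2 * (a.E2 : ℝ) + 1 ≤ 2 ^ (a.f + 9 * a.w + 3 - a.r) := by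
    have h1 : (1 : ℝ) ≤ a.E2 := by rw [eE2]; exact one_le_pow₀ (by norm_num)
    have h2 : (2 : ℝ) ^ (a.f + 9 * a.w + 3 - a.r) = 4 * a.E2 := by
      rw [eE2]
      have e4 : (4 : ℝ) = 2 ^ 2 := by norm_num
      rw [e4, ← pow_add]; congr 1; omega
    rw [h2]; linarith
  have X1 : (2 * (a.E1 : ℝ) + 1) ^ 3 * (2 * (a.E2 : ℝ) + 1) ^ 3 ≤ 2 ^ (3 * a.g + 3 * a.f + 1198 * a.w + 24 - 6 * a.r) := by
    calc (2 * (a.E1 : ℝ) + 1) ^ 3 * (2 * (a.E2 : ℝ) + 1) ^ 3 ≤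
        (2 ^ (a.g + 9 * a.w + 3 - a.r)) ^ 3 * (2 ^ (a.f + 9 * a.w + 3 - a.r)) ^ 3 := by gcongr
      _ ≤ _ := by
        rw [← pow_mul, ← pow_mul, ← pow_add]
        apply p2; omega
  have X2 : 144 * (a.P : ℝ) ^ 2 * (2 ^ a.g * (2 ^ a.w) ^ 233) * (2 ^ a.f * (2 ^ a.w) ^ 243) *
      ((2 * (a.E1 : ℝ) + 1) ^ 2 * (2 * (a.E2 : ℝ) + 1) ^ 2) / (a.Zc : ℝ) ^ 2 ≤ 2 ^ (3 * a.g + 3 * a.f + 1198 * a.w + 24 - 6 * a.r) := by
    rw [div_le_iff₀ (by rw [eZ]; positivity)]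
    calc 144 * (a.P : ℝ) ^ 2 * (2 ^ a.g * (2 ^ a.w) ^ 233) * (2 ^ a.f * (2 ^ a.w) ^ 243) *
          ((2 * (a.E1 : ℝ) + 1) ^ 2 * (2 * (a.E2 : ℝ) + 1) ^ 2) ≤
        2 ^ 8 * (a.P : ℝ) ^ 2 * (2 ^ a.g * (2 ^ a.w) ^ 233) * (2 ^ a.f * (2 ^ a.w) ^ 243) *
          ((2 ^ (a.g + 9 * a.w + 3 - a.r)) ^ 2 * (2 ^ (a.f + 9 * a.w + 3 - a.r)) ^ 2) := by
          gcongr; norm_num
      _ ≤ _ := by
        rw [eP, eZ]
        simp only [← pow_mul, ← pow_add]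
        apply p2; omega
  calc _ ≤ (2 ^ (3 * a.g + 3 * a.f + 1198 * a.w + 24 - 6 * a.r) + 2 ^ (3 * a.g + 3 * a.f + 1198 * a.w + 24 - 6 * a.r)) *
        (2 ^ 25 * (2 ^ a.w) ^ 5 * (a.P : ℝ) ^ 8) := by
        apply mul_le_mul_of_nonneg_right _ (by positivity)
        linarith
    _ ≤ _ := by
      rw [← two_mul, ← pow_succ', eP, ← pow_mul, ← pow_mul, ← pow_add, ← pow_add, ← pow_add]
      apply p2; omega

open Classical in
theorem meas_Bad3 (a : AP) (h : a.Ok) : volume (Bad3 a) ≤ ENNReal.ofReal (1 / 2 ^ a.w) := by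
  obtain ⟨r1, r2, r3, r4, r5⟩ := h.r_facts
  obtain ⟨r6, r7⟩ := h.r_low
  have hw := h.hw
  have hk := h.hk
  have he1 := h.he1
  have hK0 : 0 < a.K3 := by unfold AP.K3; positivity
  have hK0' : (0 : ℝ) < a.K3 := by exact_mod_cast hK0
  set F : Finset (V3 × V3) := (bx a.E1 ×ˢ bx a.E2).filter (fun e => a.t3 ≤ cnt3 a e ∧
    NoRel a.K3 a.K3 a.K3 (e.1.1, e.2.1) (e.1.2.1, e.2.2.1) (e.1.2.2, e.2.2.2)) with hF
  set G : V3 × V3 → Set (TT × TT) := fun e => {x | ‖dm (e.1.1, e.2.1) x‖ ≤ 1 / (16 * (a.K3 : ℝ)) ∧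
    ‖dm (e.1.2.1, e.2.2.1) x‖ ≤ 1 / (16 * (a.K3 : ℝ)) ∧ ‖dm (e.1.2.2, e.2.2.2) x‖ ≤ 1 / (16 * (a.K3 : ℝ))} with hG
  have hsub : Bad3 a ⊆ ⋃ e ∈ F, G e := by
    intro x hx
    obtain ⟨X, A, B, C, hpt, hB, ht⟩ := hx
    rw [Set.mem_iUnion₂]
    refine ⟨rows A B C, ?_, ?_⟩
    · rw [hF, Finset.mem_filter]
      exact ⟨rows_mem h hB, ht, noRel h hB⟩
    · have hV : ∀ V : V3, |cV X V| ≤ (2 ^ a.w) ^ 5 * a.s3 → ‖dm (V.1, V.2.1) x‖ ≤ 1 / (16 * (a.K3 : ℝ)) := by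
        intro V hV
        rw [← h.K3_eq]
        refine le_trans ?_ hV
        rw [← hpt, dm_pt]
        unfold lin cV
        exact norm_coe_le _ V.2.2
      exact ⟨hV A hB.cA, hV B hB.cB, hV C hB.cC⟩
  refine (measure_mono hsub).trans ((measure_biUnion_finset_le _ _).trans ?_)
  have h1 : ∀ e ∈ F, volume (G e) ≤ ENNReal.ofReal (64 / (a.K3 * a.K3 * a.K3)) := by
    intro e he
    rw [hF, Finset.mem_filter] at he
    exact meas3 hK0 hK0 hK0 he.2.2 le_rfl le_rfl le_rfl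
  refine (Finset.sum_le_sum h1).trans ?_
  rw [Finset.sum_const, nsmul_eq_mul, ← ENNReal.ofReal_natCast, ← ENNReal.ofReal_mul (Nat.cast_nonneg _)]
  apply ENNReal.ofReal_le_ofReal
  have h2 : (F.card : ℝ) * a.t3 ≤ ∑ e ∈ bx a.E1 ×ˢ bx a.E2, (cnt3 a e : ℝ) := by
    calc (F.card : ℝ) * a.t3 = ∑ e ∈ F, (a.t3 : ℝ) := by rw [Finset.sum_const, nsmul_eq_mul]
      _ ≤ ∑ e ∈ F, (cnt3 a e : ℝ) := by
        apply Finset.sum_le_sum; intro e he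
        rw [hF, Finset.mem_filter] at he
        exact_mod_cast he.2.1
      _ ≤ _ := Finset.sum_le_sum_of_subset_of_nonneg (Finset.filter_subset _ _) (fun _ _ _ => Nat.cast_nonneg _)
  have h3 := h2.trans (sum_cnt3 a h)
  have et : (a.t3 : ℝ) = 2 ^ (3 * a.k - 30 * a.w) := by unfold AP.t3; push_cast; rfl
  have ht0 : (0 : ℝ) < a.t3 := by rw [et]; positivity
  have h4 : (F.card : ℝ) ≤ 2 ^ (3 * a.g + 3 * a.f + 1198 * a.w + 25 + 25 + 5 * a.w + 8 * (a.r + 9 * a.w) - 6 * a.r) / a.t3 := by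
    rw [le_div_iff₀ ht0]; exact h3
  calc (F.card : ℝ) * (64 / (a.K3 * a.K3 * a.K3)) ≤
      (2 ^ (3 * a.g + 3 * a.f + 1198 * a.w + 25 + 25 + 5 * a.w + 8 * (a.r + 9 * a.w) - 6 * a.r) / a.t3) * (64 / (a.K3 * a.K3 * a.K3)) := by
        gcongr
    _ ≤ _ := by
      rw [div_mul_div_comm, div_le_div_iff₀ (by positivity) (by positivity), one_mul, et]
      unfold AP.K3
      push_cast
      have e64 : (64 : ℝ) = 2 ^ 6 := by norm_num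
      rw [e64, ← pow_add, ← pow_add, ← pow_add, ← pow_add, ← pow_add]
      apply pow_le_pow_right₀ (by norm_num)
      omega

end Run7.h297
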