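import Pool.Agent.Run7.h297.NBadB
import Pool.Agent.Run7.h297.Types

set_option autoImplicit false

/-! Counting quadruples with small defects. -/

noncomputable section

namespace Run7.h297

open Real Finset MeasureTheory

theorem log_near {y t : ℝ} (hy : |y - 1| ≤ t) (ht : t ≤ 1 / 2) : |Real.log y| ≤ 2 * t := by
  have ht0 : 0 ≤ t := (abs_nonneg _).trans hy
  rw [abs_le] at hy
  have hy0 : 0 < y := by linarith [hy.1]
  have h1 := Real.log_le_sub_one_of_pos hy0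
  have h2 := Real.one_sub_inv_le_log_of_pos hy0
  have h3 : y⁻¹ ≤ 1 + 2 * t := by
    rw [inv_eq_one_div, div_le_iff₀ hy0]
    have h4 : (1 + 2 * t) * (1 - t) ≤ (1 + 2 * t) * y := by
      apply mul_le_mul_of_nonneg_left _ (by linarith)
      linarith [hy.1]
    nlinarith
  rw [abs_le]; constructor <;> linarith [hy.2]

theorem psi_eq {a : AP} {m : ℤ × ℤ} (hm : m ∈ a.box) :
    psi m = Real.log |a.nb m| - Real.log |a.na m| + (Real.log (2 ^ a.f) - Real.log (2 ^ a.g)) := by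
  have hG : (0 : ℝ) < 2 ^ a.g := by positivity
  have hF : (0 : ℝ) < 2 ^ a.f := by positivity
  have h0 := AP.ne_zero_of_mem hm
  have h1 : (|(m.1 : ℝ)|) ≠ 0 := abs_ne_zero.mpr (by exact_mod_cast h0.1)
  have h2 : (|(m.2 : ℝ)|) ≠ 0 := abs_ne_zero.mpr (by exact_mod_cast h0.2)
  unfold psi AP.na AP.nb
  rw [abs_div, abs_div, abs_of_pos hG, abs_of_pos hF, Real.log_div h1 hG.ne', Real.log_div h2 hF.ne']
  ring

theorem psi_close {a : AP} {m1 m2 m3 m4 : ℤ × ℤ} (h1 : m1 ∈ a.box) (h2 : m2 ∈ a.box) (h3 : m3 ∈ a.box) (h4 : m4 ∈ a.box)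
    {ℓ : ℝ} (hde : |a.de m1 m2 m3 m4| * (2 * (2 ^ a.w) ^ 20) ≤ ℓ) (hℓ : ℓ ≤ 1) :
    |psi m1 + psi m4 - psi m2 - psi m3| ≤ ℓ := by
  rw [psi_eq h1, psi_eq h2, psi_eq h3, psi_eq h4]
  obtain ⟨A1, A1'⟩ := box_na h1
  obtain ⟨A2, A2'⟩ := box_na h2
  obtain ⟨A3, A3'⟩ := box_na h3
  obtain ⟨A4, A4'⟩ := box_na h4
  obtain ⟨B1, B1'⟩ := box_nb h1
  obtain ⟨B2, B2'⟩ := box_nb h2
  obtain ⟨B3, B3'⟩ := box_nb h3
  obtain ⟨B4, B4'⟩ := box_nb h4
  have hde' : |a.na m1 * a.na m4 * a.nb m2 * a.nb m3 - a.na m2 * a.na m3 * a.nb m1 * a.nb m4| * (2 * (2 ^ a.w) ^ 20) ≤ ℓ := hde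
  generalize a.na m1 = a1 at *
  generalize a.na m2 = a2 at *
  generalize a.na m3 = a3 at *
  generalize a.na m4 = a4 at *
  generalize a.nb m1 = b1 at *
  generalize a.nb m2 = b2 at *
  generalize a.nb m3 = b3 at *
  generalize a.nb m4 = b4 at *
  set W : ℝ := 2 ^ a.w with hWdef
  have hW0 : 0 < W := by positivity
  have pos : ∀ z : ℝ, 1 ≤ |z| * W ^ 5 → 0 < |z| := by
    intro z hz
    by_contra hc
    have : |z| = 0 := le_antisymm (not_lt.mp hc) (abs_nonneg _)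
    rw [this] at hz; simp at hz; linarith
  have pa1 := pos _ A1'
  have pa2 := pos _ A2'
  have pa3 := pos _ A3'
  have pa4 := pos _ A4'
  have pb1 := pos _ B1'
  have pb2 := pos _ B2'
  have pb3 := pos _ B3'
  have pb4 := pos _ B4'
  have ha1 : a1 ≠ 0 := abs_pos.mp pa1
  have ha4 : a4 ≠ 0 := abs_pos.mp pa4
  have hb2 : b2 ≠ 0 := abs_pos.mp pb2
  have hb3 : b3 ≠ 0 := abs_pos.mp pb3
  have hP : 1 ≤ |a1 * a4 * b2 * b3| * W ^ 20 := by
    rw [abs_mul, abs_mul, abs_mul]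
    have e : |a1| * |a4| * |b2| * |b3| * W ^ 20 = (|a1| * W ^ 5) * (|a4| * W ^ 5) * ((|b2| * W ^ 5) * (|b3| * W ^ 5)) := by ring
    rw [e]
    have p1 : 1 ≤ (|a1| * W ^ 5) * (|a4| * W ^ 5) := by nlinarith
    have p2 : 1 ≤ (|b2| * W ^ 5) * (|b3| * W ^ 5) := by nlinarith
    nlinarith
  have hPpos : 0 < |a1 * a4 * b2 * b3| := by
    rw [abs_mul, abs_mul, abs_mul]; positivity
  have hP0 : a1 * a4 * b2 * b3 ≠ 0 := abs_pos.mp hPpos
  have key : |(a2 * a3 * b1 * b4) / (a1 * a4 * b2 * b3) - 1| ≤ ℓ / 2 := by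
    have e : (a2 * a3 * b1 * b4) / (a1 * a4 * b2 * b3) - 1 = -((a1 * a4 * b2 * b3 - a2 * a3 * b1 * b4) / (a1 * a4 * b2 * b3)) := by
      field_simp; ring
    rw [e, abs_neg, abs_div, div_le_iff₀ hPpos]
    have h5 : 0 ≤ |a1 * a4 * b2 * b3 - a2 * a3 * b1 * b4| := abs_nonneg _
    have hℓ0 : 0 ≤ ℓ := le_trans (by positivity) hde'
    have h6 : |a1 * a4 * b2 * b3 - a2 * a3 * b1 * b4| * 1 ≤ |a1 * a4 * b2 * b3 - a2 * a3 * b1 * b4| * (|a1 * a4 * b2 * b3| * W ^ 20) := by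
      gcongr
    have h7 : |a1 * a4 * b2 * b3 - a2 * a3 * b1 * b4| * (|a1 * a4 * b2 * b3| * W ^ 20) =
      (|a1 * a4 * b2 * b3 - a2 * a3 * b1 * b4| * (2 * W ^ 20)) * |a1 * a4 * b2 * b3| / 2 := by ring
    have h8 : (|a1 * a4 * b2 * b3 - a2 * a3 * b1 * b4| * (2 * W ^ 20)) * |a1 * a4 * b2 * b3| ≤ ℓ * |a1 * a4 * b2 * b3| := by
      gcongr
    linarith
  have h9 := log_near key (by linarith)
  have e10 : Real.log ((a2 * a3 * b1 * b4) / (a1 * a4 * b2 * b3)) =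
      Real.log |a2| + Real.log |a3| + Real.log |b1| + Real.log |b4| - (Real.log |a1| + Real.log |a4| + Real.log |b2| + Real.log |b3|) := by
    rw [← Real.log_abs, abs_div, abs_mul, abs_mul, abs_mul, abs_mul, abs_mul, abs_mul]
    rw [Real.log_div (by positivity) (by positivity), Real.log_mul (by positivity) (by positivity),
      Real.log_mul (by positivity) (by positivity), Real.log_mul (by positivity) (by positivity),
      Real.log_mul (by positivity) (by positivity), Real.log_mul (by positivity) (by positivity),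
      Real.log_mul (by positivity) (by positivity)]
  rw [e10] at h9
  have e11 : (Real.log |b1| - Real.log |a1| + (Real.log (2 ^ a.f) - Real.log (2 ^ a.g)) +
    (Real.log |b4| - Real.log |a4| + (Real.log (2 ^ a.f) - Real.log (2 ^ a.g))) -
    (Real.log |b2| - Real.log |a2| + (Real.log (2 ^ a.f) - Real.log (2 ^ a.g))) -
    (Real.log |b3| - Real.log |a3| + (Real.log (2 ^ a.f) - Real.log (2 ^ a.g)))) =
    Real.log |a2| + Real.log |a3| + Real.log |b1| + Real.log |b4| - (Real.log |a1| + Real.log |a4| + Real.log |b2| + Real.log |b3|) := by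
    ring
  rw [e11]
  linarith

/-- dyadic scale for slopes -/
def AP.el (a : AP) (j : ℕ) : ℝ := 2 ^ j * (2 ^ a.w) ^ 190 / 2 ^ a.k
/-- dyadic scale for the defect -/
def AP.Dj (a : AP) (j : ℕ) : ℝ := 2 ^ j * (2 ^ a.w) ^ 170 / (2 * 2 ^ a.k)

open Classical in
/-- generic points -/
structure Gen3 (a : AP) (x : TT × TT) : Prop where
  g1 : Gen1 a x
  cM : ((a.M x).card : ℝ) < 2 ^ a.k * (2 ^ a.w) ^ 20
  cP : ((a.Par.filter (fun z => z.1 ∈ a.M x ∧ z.2 ∈ a.M x)).card : ℝ) < 2 ^ a.k * (2 ^ a.w) ^ 32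
  cN : ∀ j, j ≤ a.k + 1 → (((a.NP (a.el j)).filter (fun z => (z.1.1 * z.2.2 - z.1.2 * z.2.1 ≠ 0) ∧ z.1 ∈ a.M x ∧ z.2 ∈ a.M x)).card : ℝ) <
    2 ^ (2 * a.k) * (2 ^ a.w) ^ 39 * a.el j
  c3 : x ∉ Bad3 a

open Classical in
theorem meas_Gen3 (a : AP) (h : a.Ok) : volume {x : TT × TT | Gen3 a x}ᶜ ≤ ENNReal.ofReal (5 / 2 ^ a.w) := by
  have hW1 := h.W1
  have hsub : {x : TT × TT | Gen3 a x}ᶜ ⊆ {x | ¬ Gen1 a x} ∪ ({x | 2 ^ a.k * (2 ^ a.w) ^ 20 ≤ ((a.M x).card : ℝ)} ∪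
      ({x | 2 ^ a.k * (2 ^ a.w) ^ 32 ≤ ((a.Par.filter (fun z => z.1 ∈ a.M x ∧ z.2 ∈ a.M x)).card : ℝ)} ∪
      ((⋃ j ∈ range (a.k + 2), {x | 2 ^ (2 * a.k) * (2 ^ a.w) ^ 39 * a.el j ≤
        (((a.NP (a.el j)).filter (fun z => (z.1.1 * z.2.2 - z.1.2 * z.2.1 ≠ 0) ∧ z.1 ∈ a.M x ∧ z.2 ∈ a.M x)).card : ℝ)}) ∪ Bad3 a))) := by
    intro x hx
    rw [Set.mem_compl_iff, Set.mem_setOf_eq] at hx
    simp only [Set.mem_union, Set.mem_setOf_eq, Set.mem_iUnion]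
    by_contra hc
    push Not at hc
    obtain ⟨c1, c2, c3, c4, c5⟩ := hc
    exact hx ⟨c1, c2, c3, fun j hj => c4 j (Finset.mem_range.mpr (by omega)), c5⟩
  refine (measure_mono hsub).trans ?_
  have hN : volume (⋃ j ∈ range (a.k + 2), {x : TT × TT | 2 ^ (2 * a.k) * (2 ^ a.w) ^ 39 * a.el j ≤
        (((a.NP (a.el j)).filter (fun z => (z.1.1 * z.2.2 - z.1.2 * z.2.1 ≠ 0) ∧ z.1 ∈ a.M x ∧ z.2 ∈ a.M x)).card : ℝ)}) ≤
      ENNReal.ofReal (1 / 2 ^ a.w) := by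
    refine (measure_biUnion_finset_le _ _).trans ?_
    have h1 : ∀ j ∈ range (a.k + 2), volume {x : TT × TT | 2 ^ (2 * a.k) * (2 ^ a.w) ^ 39 * a.el j ≤
        (((a.NP (a.el j)).filter (fun z => (z.1.1 * z.2.2 - z.1.2 * z.2.1 ≠ 0) ∧ z.1 ∈ a.M x ∧ z.2 ∈ a.M x)).card : ℝ)} ≤
        ENNReal.ofReal (1 / (2 ^ a.w) ^ 2) := by
      intro j _
      apply meas_NP a h
      · unfold AP.el; positivity
      · unfold AP.el AP.Y2
        push_cast
        have h2 : (1 : ℝ) ≤ 2 ^ j := one_le_pow₀ (by norm_num)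
        have h3 : (1 : ℝ) ≤ (2 ^ a.w) ^ 190 := one_le_pow₀ hW1
        have h4 : (2 : ℝ) ^ a.k ≤ 2 ^ (a.f + 5 * a.w) := by
          apply pow_le_pow_right₀ (by norm_num)
          have := h.hf; omega
        rw [div_mul_eq_mul_div, le_div_iff₀ (by positivity), one_mul]
        calc (2 : ℝ) ^ a.k ≤ 2 ^ (a.f + 5 * a.w) := h4
          _ = 1 * 1 * 2 ^ (a.f + 5 * a.w) := by ring
          _ ≤ _ := by gcongr
    refine (Finset.sum_le_sum h1).trans ?_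
    rw [Finset.sum_const, nsmul_eq_mul, card_range, ← ENNReal.ofReal_natCast, ← ENNReal.ofReal_mul (Nat.cast_nonneg _)]
    apply ENNReal.ofReal_le_ofReal
    have hk : ((a.k + 2 : ℕ) : ℝ) ≤ 2 ^ a.w := by
      have h5 : a.k + 2 ≤ a.g + a.f + 2 * a.k := by
        have := h.hk; have := h.hw; omega
      have h6 := h5.trans h.hlg
      exact_mod_cast h6
    rw [mul_one_div, div_le_div_iff₀ (by positivity) (by positivity), one_mul]
    calc ((a.k + 2 : ℕ) : ℝ) * 2 ^ a.w ≤ 2 ^ a.w * 2 ^ a.w := by gcongr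
      _ = _ := by ring
  have e5 : ENNReal.ofReal (5 / 2 ^ a.w) = ENNReal.ofReal (1 / 2 ^ a.w) + (ENNReal.ofReal (1 / 2 ^ a.w) +
      (ENNReal.ofReal (1 / 2 ^ a.w) + (ENNReal.ofReal (1 / 2 ^ a.w) + ENNReal.ofReal (1 / 2 ^ a.w)))) := by
    have p : (0 : ℝ) ≤ 1 / 2 ^ a.w := by positivity
    rw [← ENNReal.ofReal_add p p, ← ENNReal.ofReal_add p (by positivity), ← ENNReal.ofReal_add p (by positivity),
      ← ENNReal.ofReal_add p (by positivity)]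
    congr 1; ring
  rw [e5]
  refine (measure_union_le _ _).trans (add_le_add (meas_Gen1 a h) ?_)
  refine (measure_union_le _ _).trans (add_le_add h.meas_M ?_)
  refine (measure_union_le _ _).trans (add_le_add (meas_Par a h) ?_)
  exact (measure_union_le _ _).trans (add_le_add hN (meas_Bad3 a h))

end Run7.h297
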