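import Pool.Agent.Run7.h297.Comb
import Pool.Agent.Run7.h297.NBad
import Pool.Agent.Run7.h297.NBadC

set_option autoImplicit false

/-! The number of quadruples with small defects. -/

noncomputable section

namespace Run7.h297

open Real Finset MeasureTheory

/-- all quadruples -/
def Q4 (s : Finset (ℤ × ℤ)) : Finset (((ℤ × ℤ) × (ℤ × ℤ)) × ((ℤ × ℤ) × (ℤ × ℤ))) := (s ×ˢ s) ×ˢ (s ×ˢ s)

theorem mem_Q4 {s : Finset (ℤ × ℤ)} {q : ((ℤ × ℤ) × (ℤ × ℤ)) × ((ℤ × ℤ) × (ℤ × ℤ))} :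
    q ∈ Q4 s ↔ q.1.1 ∈ s ∧ q.1.2 ∈ s ∧ q.2.1 ∈ s ∧ q.2.2 ∈ s := by
  unfold Q4
  rw [Finset.mem_product, Finset.mem_product, Finset.mem_product]
  tauto

section

variable {a : AP} (h : a.Ok) {X : ℝ × ℝ} (hX : Gen3 a (pt X))

include h hX

open Classical in
theorem En_le {j : ℕ} (hj : j ≤ a.k + 1) :
    ((En (a.M (pt X)) psi (a.el j) : ℕ) : ℝ) ≤ 2 * (2 ^ (2 * a.k) * (2 ^ a.w) ^ 39 * a.el j) := by
  have h1 : En (a.M (pt X)) psi (a.el j) ≤ (a.Par.filter (fun z => z.1 ∈ a.M (pt X) ∧ z.2 ∈ a.M (pt X))).card +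
      ((a.NP (a.el j)).filter (fun z => (z.1.1 * z.2.2 - z.1.2 * z.2.1 ≠ 0) ∧ z.1 ∈ a.M (pt X) ∧ z.2 ∈ a.M (pt X))).card := by
    unfold En
    rw [← Finset.card_union_add_card_inter]
    refine le_trans ?_ (Nat.le_add_right _ _)
    apply Finset.card_le_card
    intro z hz
    rw [Finset.mem_filter, Finset.mem_product] at hz
    obtain ⟨⟨z1, z2⟩, z3⟩ := hz
    have b1 : z.1 ∈ a.box := (Finset.mem_filter.mp z1).1
    have b2 : z.2 ∈ a.box := (Finset.mem_filter.mp z2).1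
    rw [Finset.mem_union]
    by_cases hp : z.1.1 * z.2.2 - z.1.2 * z.2.1 = 0
    · left
      rw [Finset.mem_filter]
      refine ⟨?_, z1, z2⟩
      unfold AP.Par
      rw [Finset.mem_filter, Finset.mem_product]
      exact ⟨⟨b1, b2⟩, hp⟩
    · right
      rw [Finset.mem_filter]
      refine ⟨?_, hp, z1, z2⟩
      unfold AP.NP
      rw [Finset.mem_filter, Finset.mem_product]
      exact ⟨⟨b1, b2⟩, z3⟩
  have h1' : ((En (a.M (pt X)) psi (a.el j) : ℕ) : ℝ) ≤ ((a.Par.filter (fun z => z.1 ∈ a.M (pt X) ∧ z.2 ∈ a.M (pt X))).card : ℝ) +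
      (((a.NP (a.el j)).filter (fun z => (z.1.1 * z.2.2 - z.1.2 * z.2.1 ≠ 0) ∧ z.1 ∈ a.M (pt X) ∧ z.2 ∈ a.M (pt X))).card : ℝ) := by
    exact_mod_cast h1
  have h2 := hX.cP
  have h3 := hX.cN j hj
  have hW1 := h.W1
  have h4 : (2 : ℝ) ^ a.k * (2 ^ a.w) ^ 32 ≤ 2 ^ (2 * a.k) * (2 ^ a.w) ^ 39 * a.el j := by
    unfold AP.el
    have e : (2 : ℝ) ^ (2 * a.k) * (2 ^ a.w) ^ 39 * (2 ^ j * (2 ^ a.w) ^ 190 / 2 ^ a.k) = 2 ^ j * (2 ^ a.k * (2 ^ a.w) ^ 229) := by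
      rw [mul_comm 2 a.k, pow_mul]; field_simp
    rw [e]
    have h5 : (1 : ℝ) ≤ 2 ^ j := one_le_pow₀ (by norm_num)
    have h6 : (2 : ℝ) ^ a.k * (2 ^ a.w) ^ 32 ≤ 2 ^ a.k * (2 ^ a.w) ^ 229 := by
      apply mul_le_mul_of_nonneg_left _ (by positivity)
      exact pow_le_pow_right₀ hW1 (by norm_num)
    have h7 : (0 : ℝ) ≤ 2 ^ a.k * (2 ^ a.w) ^ 229 := by positivity
    nlinarith
  linarith

open Classical in
theorem count_de {j : ℕ} (hj : j ≤ a.k + 1) :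
    (((Q4 (a.M (pt X))).filter (fun q => |a.de q.1.1 q.1.2 q.2.1 q.2.2| ≤ a.Dj j)).card : ℝ) ≤
      (2 ^ a.k) ^ 4 * (2 ^ a.w) ^ 80 * a.el j := by
  have hW1 := h.W1
  have hW := h.W40
  have cM := hX.cM
  set s := a.M (pt X) with hs
  have hsb : ∀ m ∈ s, m ∈ a.box := fun m hm => (mem_M.mp hm).1
  have hel : 0 < a.el j := by unfold AP.el; positivity
  have c0 : (0 : ℝ) ≤ (s.card : ℝ) := Nat.cast_nonneg _
  by_cases hc : a.el j ≤ 1
  · have h1 : ((Q4 s).filter (fun q => |a.de q.1.1 q.1.2 q.2.1 q.2.2| ≤ a.Dj j)).card ≤ (s ×ˢ s).card * (4 * En s psi (a.el j)) := by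
      apply fixpair s psi hel _ (fun q => (q.1.1, q.2.1)) (fun q => (q.1.2, q.2.2)) (s ×ˢ s) (fun z => psi z.1 - psi z.2)
      · intro x _ y _ e1 e2
        simp only [Prod.mk.injEq] at e1 e2
        exact Prod.ext (Prod.ext e1.1 e2.1) (Prod.ext e1.2 e2.2)
      · intro q hq
        rw [Finset.mem_filter, mem_Q4] at hq
        rw [Finset.mem_product]; exact ⟨hq.1.1, hq.1.2.2.1⟩
      · intro q hq
        rw [Finset.mem_filter, mem_Q4] at hq
        obtain ⟨⟨q1, q2, q3, q4⟩, q5⟩ := hq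
        refine ⟨q2, q4, ?_⟩
        have := psi_close (hsb _ q1) (hsb _ q2) (hsb _ q3) (hsb _ q4) (ℓ := a.el j) (by
          calc |a.de q.1.1 q.1.2 q.2.1 q.2.2| * (2 * (2 ^ a.w) ^ 20) ≤ a.Dj j * (2 * (2 ^ a.w) ^ 20) := by gcongr
            _ = a.el j := by unfold AP.Dj AP.el; field_simp) hc
        have e : psi q.1.2 - psi q.2.2 - (psi q.1.1 - psi q.2.1) = -(psi q.1.1 + psi q.2.2 - psi q.1.2 - psi q.2.1) := by ring
        dsimp only
        rw [e, abs_neg]; exact this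
    rw [Finset.card_product] at h1
    have h2 : (((Q4 s).filter (fun q => |a.de q.1.1 q.1.2 q.2.1 q.2.2| ≤ a.Dj j)).card : ℝ) ≤
        ((s.card : ℝ) * s.card) * (4 * (En s psi (a.el j) : ℝ)) := by exact_mod_cast h1
    have h3 := En_le h hX hj
    refine h2.trans ?_
    calc ((s.card : ℝ) * s.card) * (4 * (En s psi (a.el j) : ℝ)) ≤
        ((2 ^ a.k * (2 ^ a.w) ^ 20) * (2 ^ a.k * (2 ^ a.w) ^ 20)) * (4 * (2 * (2 ^ (2 * a.k) * (2 ^ a.w) ^ 39 * a.el j))) := by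
          gcongr
      _ = 8 * ((2 ^ a.k) ^ 4 * (2 ^ a.w) ^ 79 * a.el j) := by rw [mul_comm 2 a.k, pow_mul]; ring
      _ ≤ 2 ^ a.w * ((2 ^ a.k) ^ 4 * (2 ^ a.w) ^ 79 * a.el j) := by
        apply mul_le_mul_of_nonneg_right _ (by positivity)
        linarith
      _ = _ := by ring
  · push Not at hc
    have h1 : ((Q4 s).filter (fun q => |a.de q.1.1 q.1.2 q.2.1 q.2.2| ≤ a.Dj j)).card ≤ (s.card * s.card) * (s.card * s.card) := by
      refine (Finset.card_filter_le _ _).trans ?_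
      unfold Q4
      rw [Finset.card_product, Finset.card_product]
    have h2 : (((Q4 s).filter (fun q => |a.de q.1.1 q.1.2 q.2.1 q.2.2| ≤ a.Dj j)).card : ℝ) ≤
        ((s.card : ℝ) * s.card) * (s.card * s.card) := by exact_mod_cast h1
    refine h2.trans ?_
    calc ((s.card : ℝ) * s.card) * (s.card * s.card) ≤ ((2 ^ a.k * (2 ^ a.w) ^ 20) * (2 ^ a.k * (2 ^ a.w) ^ 20)) *
        ((2 ^ a.k * (2 ^ a.w) ^ 20) * (2 ^ a.k * (2 ^ a.w) ^ 20)) := by gcongr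
      _ = (2 ^ a.k) ^ 4 * (2 ^ a.w) ^ 80 * 1 := by ring
      _ ≤ _ := by gcongr

open Classical in
theorem card_deg {A B C : V3} (hB : Bas a X A B C) :
    ((((a.M (pt X)) ×ˢ (a.M (pt X))).filter (fun z => nm (crs (kk A B C (MV X z.1)) (kk A B C (MV X z.2))) < a.Zc)).card : ℝ) ≤
      2 ^ (13 + 6 * a.r - 298 * a.w) := by
  obtain ⟨r6, r7⟩ := h.r_low
  have hw := h.hw
  have h1 : ((((a.M (pt X)) ×ˢ (a.M (pt X))).filter (fun z => nm (crs (kk A B C (MV X z.1)) (kk A B C (MV X z.2))) < a.Zc)).card) ≤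
      ((bx a.P ×ˢ bx a.P).filter (fun z => nm (crs z.1 z.2) < a.Zc)).card := by
    apply Finset.card_le_card_of_injOn (fun z => (kk A B C (MV X z.1), kk A B C (MV X z.2)))
    · intro z hz
      rw [Finset.mem_coe, Finset.mem_filter, Finset.mem_product] at hz
      rw [Finset.mem_coe, Finset.mem_filter, Finset.mem_product, mem_bx, mem_bx]
      exact ⟨⟨nm_kk h hB hz.1.1, nm_kk h hB hz.1.2⟩, hz.2⟩
    · intro x _ y _ hxy
      simp only [Prod.mk.injEq] at hxy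
      exact Prod.ext (kk_inj hB.nd hxy.1) (kk_inj hB.nd hxy.2)
  have h2 := deg_pairs (P := a.P) (Zc := a.Zc) (κ := a.kp0) (by unfold AP.kp0; exact Nat.one_le_two_pow)
  have h1' : (((((a.M (pt X)) ×ˢ (a.M (pt X))).filter (fun z => nm (crs (kk A B C (MV X z.1)) (kk A B C (MV X z.2))) < a.Zc)).card : ℕ) : ℝ) ≤
      ((((bx a.P ×ˢ bx a.P).filter (fun z => nm (crs z.1 z.2) < a.Zc)).card : ℕ) : ℝ) := by exact_mod_cast h1
  refine h1'.trans (h2.trans ?_)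
  have p2 : ∀ i j : ℕ, i ≤ j → (2 : ℝ) ^ i ≤ 2 ^ j := fun i j hij => pow_le_pow_right₀ (by norm_num) hij
  have four : ∀ n : ℕ, 2 * (2 : ℝ) ^ n + 1 ≤ 2 ^ (n + 2) := by
    intro n
    have : (1 : ℝ) ≤ 2 ^ n := one_le_pow₀ (by norm_num)
    rw [pow_add]; linarith
  have eP : (a.P : ℝ) = 2 ^ (a.r + 9 * a.w) := by unfold AP.P; push_cast; rfl
  have eZ : (a.Zc : ℝ) = 2 ^ (2 * a.r - 334 * a.w) := by unfold AP.Zc; push_cast; rfl
  have ek : (a.kp0 : ℝ) = 2 ^ (a.r - 167 * a.w) := by unfold AP.kp0; push_cast; rfl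
  have e3 : 2 * (a.Zc : ℝ) / a.kp0 = 2 * 2 ^ (a.r - 167 * a.w) := by
    rw [eZ, ek, div_eq_iff (by positivity), mul_assoc, ← pow_add]
    congr 2; omega
  rw [e3, eP, ek]
  calc (2 * (2 : ℝ) ^ (a.r - 167 * a.w) + 1) ^ 3 * (2 * 2 ^ (a.r + 9 * a.w) + 1) ^ 3 +
        (2 * 2 ^ (a.r + 9 * a.w) + 1) ^ 4 * (2 * 2 ^ (a.r - 167 * a.w) + 1) ^ 2
      ≤ (2 ^ (a.r - 167 * a.w + 2)) ^ 3 * (2 ^ (a.r + 9 * a.w + 2)) ^ 3 +
        (2 ^ (a.r + 9 * a.w + 2)) ^ 4 * (2 ^ (a.r - 167 * a.w + 2)) ^ 2 := by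
        gcongr <;> exact four _
    _ ≤ 2 ^ (12 + 6 * a.r - 298 * a.w) + 2 ^ (12 + 6 * a.r - 298 * a.w) := by
        simp only [← pow_mul, ← pow_add]
        apply add_le_add <;> (apply p2; omega)
    _ = _ := by
        rw [← two_mul, ← pow_succ']; congr 1; omega

open Classical in
theorem count3 : (((Q4 (a.M (pt X))).filter (fun q => |a.de q.1.1 q.1.2 q.2.1 q.2.2| ≤ a.Dj 0 ∧
    |a.DL X q.1.1 q.1.2 q.2.1 q.2.2| ≤ (2 ^ a.w) ^ 172 / 2 ^ a.σ)).card : ℝ) ≤ 2 ^ (3 * a.k - 29 * a.w) := by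
  obtain ⟨A, B, C, hB⟩ := exists_bas h hX.g1
  obtain ⟨r1, r2, r3, r4, r5⟩ := h.r_facts
  obtain ⟨r6, r7⟩ := h.r_low
  have hw := h.hw
  have hk := h.hk
  have hW1 := h.W1
  have p2 : ∀ i j : ℕ, i ≤ j → (2 : ℝ) ^ i ≤ 2 ^ j := fun i j hij => pow_le_pow_right₀ (by norm_num) hij
  have hdeg := card_deg h hX hB
  have hEn := En_le h hX (Nat.zero_le (a.k + 1))
  set s := a.M (pt X) with hs
  have hsb : ∀ m ∈ s, m ∈ a.box := fun m hm => (mem_M.mp hm).1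
  have hel : 0 < a.el 0 := by unfold AP.el; positivity
  have hel1 : a.el 0 ≤ 1 := by
    unfold AP.el
    rw [pow_zero, one_mul, div_le_one (by positivity), ← pow_mul]
    apply p2; omega
  have eEn : 2 * (2 ^ (2 * a.k) * (2 ^ a.w : ℝ) ^ 39 * a.el 0) = 2 ^ (1 + a.k + 229 * a.w) := by
    unfold AP.el
    have : (2 : ℝ) ^ (2 * a.k) = 2 ^ a.k * 2 ^ a.k := by rw [two_mul, pow_add]
    rw [this, pow_zero, one_mul]
    have e2 : 2 * ((2 : ℝ) ^ a.k * 2 ^ a.k * (2 ^ a.w) ^ 39 * ((2 ^ a.w) ^ 190 / 2 ^ a.k)) = 2 * (2 ^ a.k * (2 ^ a.w) ^ 229) := by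
      field_simp
    rw [e2, ← pow_mul, ← pow_add, ← pow_succ']
    congr 1; omega
  rw [eEn] at hEn
  set Dg := (s ×ˢ s).filter (fun z => nm (crs (kk A B C (MV X z.1)) (kk A B C (MV X z.2))) < a.Zc) with hDg
  set Q := (Q4 s).filter (fun q => |a.de q.1.1 q.1.2 q.2.1 q.2.2| ≤ a.Dj 0 ∧
    |a.DL X q.1.1 q.1.2 q.2.1 q.2.2| ≤ (2 ^ a.w) ^ 172 / 2 ^ a.σ) with hQ
  have hmem : ∀ q ∈ Q, (q.1.1 ∈ s ∧ q.1.2 ∈ s ∧ q.2.1 ∈ s ∧ q.2.2 ∈ s) ∧ |a.de q.1.1 q.1.2 q.2.1 q.2.2| ≤ a.Dj 0 ∧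
      |a.DL X q.1.1 q.1.2 q.2.1 q.2.2| ≤ (2 ^ a.w) ^ 172 / 2 ^ a.σ := by
    intro q hq
    rw [hQ, Finset.mem_filter, mem_Q4] at hq; exact hq
  have hpsi : ∀ q ∈ Q, |psi q.1.1 + psi q.2.2 - psi q.1.2 - psi q.2.1| ≤ a.el 0 := by
    intro q hq
    obtain ⟨⟨q1, q2, q3, q4⟩, q5, _⟩ := hmem q hq
    exact psi_close (hsb _ q1) (hsb _ q2) (hsb _ q3) (hsb _ q4) (ℓ := a.el 0) (by
          calc |a.de q.1.1 q.1.2 q.2.1 q.2.2| * (2 * (2 ^ a.w) ^ 20) ≤ a.Dj 0 * (2 * (2 ^ a.w) ^ 20) := by gcongr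
            _ = a.el 0 := by unfold AP.Dj AP.el; field_simp) hel1
  -- the pieces
  set N0 := Q.filter (fun q => a.Zc ≤ nm (crs (kk A B C (MV X q.1.1)) (kk A B C (MV X q.1.2))) ∧
    a.Zc ≤ nm (crs (kk A B C (MV X q.2.1)) (kk A B C (MV X q.2.2))) ∧
    a.Zc ≤ nm (crs (kk A B C (MV X q.1.1)) (kk A B C (MV X q.2.1))) ∧
    a.Zc ≤ nm (crs (kk A B C (MV X q.1.2)) (kk A B C (MV X q.2.2)))) with hN0
  set N1 := Q.filter (fun q => (q.1.1, q.1.2) ∈ Dg) with hN1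
  set N2 := Q.filter (fun q => (q.2.1, q.2.2) ∈ Dg) with hN2
  set N3 := Q.filter (fun q => (q.1.1, q.2.1) ∈ Dg) with hN3
  set N4 := Q.filter (fun q => (q.1.2, q.2.2) ∈ Dg) with hN4
  have hcov : Q ⊆ N0 ∪ (N1 ∪ (N2 ∪ (N3 ∪ N4))) := by
    intro q hq
    obtain ⟨⟨q1, q2, q3, q4⟩, _⟩ := hmem q hq
    rw [Finset.mem_union, Finset.mem_union, Finset.mem_union, Finset.mem_union, hN0, hN1, hN2, hN3, hN4]
    simp only [Finset.mem_filter, hDg, Finset.mem_product]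
    by_cases c1 : nm (crs (kk A B C (MV X q.1.1)) (kk A B C (MV X q.1.2))) < a.Zc
    · right; left; exact ⟨hq, ⟨q1, q2⟩, c1⟩
    by_cases c2 : nm (crs (kk A B C (MV X q.2.1)) (kk A B C (MV X q.2.2))) < a.Zc
    · right; right; left; exact ⟨hq, ⟨q3, q4⟩, c2⟩
    by_cases c3 : nm (crs (kk A B C (MV X q.1.1)) (kk A B C (MV X q.2.1))) < a.Zc
    · right; right; right; left; exact ⟨hq, ⟨q1, q3⟩, c3⟩
    by_cases c4 : nm (crs (kk A B C (MV X q.1.2)) (kk A B C (MV X q.2.2))) < a.Zc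
    · right; right; right; right; exact ⟨hq, ⟨q2, q4⟩, c4⟩
    left
    exact ⟨hq, not_lt.mp c1, not_lt.mp c2, not_lt.mp c3, not_lt.mp c4⟩
  have k0 : (N0.card : ℝ) ≤ 2 ^ (3 * a.k - 30 * a.w) := by
    have h1 : N0.card ≤ cnt3 a (rows A B C) := by
      unfold cnt3
      apply Finset.card_le_card_of_injOn (fun q => ((kk A B C (MV X q.2.1), kk A B C (MV X q.2.2)),
        (kk A B C (MV X q.1.1), kk A B C (MV X q.1.2))))
      · intro q hq
        rw [Finset.mem_coe, hN0, Finset.mem_filter] at hq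
        obtain ⟨hq1, c1, c2, c3, c4⟩ := hq
        obtain ⟨⟨q1, q2, q3, q4⟩, q5, q6⟩ := hmem q hq1
        have q5' : |a.de q.1.1 q.1.2 q.2.1 q.2.2| ≤ (2 ^ a.w) ^ 170 / 2 ^ a.k := by
          refine q5.trans ?_
          unfold AP.Dj
          rw [pow_zero, one_mul]
          apply div_le_div_of_nonneg_left (by positivity) (by positivity)
          have : (0 : ℝ) < 2 ^ a.k := by positivity
          linarith
        rw [Finset.mem_coe, Finset.mem_filter]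
        unfold QD
        rw [Finset.mem_filter, Finset.mem_product, Finset.mem_product, Finset.mem_product, mem_bx, mem_bx, mem_bx, mem_bx]
        refine ⟨⟨⟨⟨?_, ?_⟩, ?_, ?_⟩, c1, c2, c3, c4⟩, ?_, ?_⟩
        · exact nm_kk h hB q3
        · exact nm_kk h hB q4
        · exact nm_kk h hB q1
        · exact nm_kk h hB q2
        · exact claim1 h hB q1 q2 q3 q4 q5' q6
        · exact claim2 h hB q1 q2 q3 q4 q5' q6
      · intro x _ y _ hxy
        simp only [Prod.mk.injEq] at hxy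
        obtain ⟨⟨e1, e2⟩, e3, e4⟩ := hxy
        exact Prod.ext (Prod.ext (kk_inj hB.nd e3) (kk_inj hB.nd e4)) (Prod.ext (kk_inj hB.nd e1) (kk_inj hB.nd e2))
    have h2 : cnt3 a (rows A B C) < a.t3 := by
      by_contra hc
      exact hX.c3 ⟨X, A, B, C, rfl, hB, not_lt.mp hc⟩
    have h3 : (N0.card : ℝ) ≤ (a.t3 : ℝ) := by exact_mod_cast h1.trans h2.le
    refine h3.trans (le_of_eq ?_)
    unfold AP.t3; push_cast; rfl
  have fin : ∀ (n : ℕ), n ≤ Dg.card * (4 * En s psi (a.el 0)) → (n : ℝ) ≤ 2 ^ (3 * a.k - 32 * a.w) := by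
    intro n hn
    have h1 : (n : ℝ) ≤ (Dg.card : ℝ) * (4 * (En s psi (a.el 0) : ℝ)) := by exact_mod_cast hn
    refine h1.trans ?_
    have e4 : (4 : ℝ) = 2 ^ 2 := by norm_num
    calc (Dg.card : ℝ) * (4 * (En s psi (a.el 0) : ℝ)) ≤ 2 ^ (13 + 6 * a.r - 298 * a.w) * (4 * 2 ^ (1 + a.k + 229 * a.w)) := by gcongr
      _ ≤ _ := by
        rw [e4, ← pow_add, ← pow_add]
        apply p2; omega
  have k1 : (N1.card : ℝ) ≤ 2 ^ (3 * a.k - 32 * a.w) := by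
    apply fin
    apply fixpair s psi hel _ (fun q => (q.1.1, q.1.2)) (fun q => (q.2.1, q.2.2)) Dg (fun z => psi z.1 - psi z.2)
    · intro x _ y _ e1 e2
      simp only [Prod.mk.injEq] at e1 e2
      exact Prod.ext (Prod.ext e1.1 e1.2) (Prod.ext e2.1 e2.2)
    · intro q hq; rw [hN1, Finset.mem_filter] at hq; exact hq.2
    · intro q hq
      rw [hN1, Finset.mem_filter] at hq
      obtain ⟨⟨q1, q2, q3, q4⟩, _⟩ := hmem q hq.1
      refine ⟨q3, q4, ?_⟩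
      have := hpsi q hq.1
      have e : psi q.2.1 - psi q.2.2 - (psi q.1.1 - psi q.1.2) = -(psi q.1.1 + psi q.2.2 - psi q.1.2 - psi q.2.1) := by ring
      dsimp only
      rw [e, abs_neg]; exact this
  have k2 : (N2.card : ℝ) ≤ 2 ^ (3 * a.k - 32 * a.w) := by
    apply fin
    apply fixpair s psi hel _ (fun q => (q.2.1, q.2.2)) (fun q => (q.1.1, q.1.2)) Dg (fun z => psi z.1 - psi z.2)
    · intro x _ y _ e1 e2
      simp only [Prod.mk.injEq] at e1 e2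
      exact Prod.ext (Prod.ext e2.1 e2.2) (Prod.ext e1.1 e1.2)
    · intro q hq; rw [hN2, Finset.mem_filter] at hq; exact hq.2
    · intro q hq
      rw [hN2, Finset.mem_filter] at hq
      obtain ⟨⟨q1, q2, q3, q4⟩, _⟩ := hmem q hq.1
      refine ⟨q1, q2, ?_⟩
      have := hpsi q hq.1
      have e : psi q.1.1 - psi q.1.2 - (psi q.2.1 - psi q.2.2) = (psi q.1.1 + psi q.2.2 - psi q.1.2 - psi q.2.1) := by ring
      dsimp only
      rw [e]; exact this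
  have k3 : (N3.card : ℝ) ≤ 2 ^ (3 * a.k - 32 * a.w) := by
    apply fin
    apply fixpair s psi hel _ (fun q => (q.1.1, q.2.1)) (fun q => (q.1.2, q.2.2)) Dg (fun z => psi z.1 - psi z.2)
    · intro x _ y _ e1 e2
      simp only [Prod.mk.injEq] at e1 e2
      exact Prod.ext (Prod.ext e1.1 e2.1) (Prod.ext e1.2 e2.2)
    · intro q hq; rw [hN3, Finset.mem_filter] at hq; exact hq.2
    · intro q hq
      rw [hN3, Finset.mem_filter] at hq
      obtain ⟨⟨q1, q2, q3, q4⟩, _⟩ := hmem q hq.1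
      refine ⟨q2, q4, ?_⟩
      have := hpsi q hq.1
      have e : psi q.1.2 - psi q.2.2 - (psi q.1.1 - psi q.2.1) = -(psi q.1.1 + psi q.2.2 - psi q.1.2 - psi q.2.1) := by ring
      dsimp only
      rw [e, abs_neg]; exact this
  have k4 : (N4.card : ℝ) ≤ 2 ^ (3 * a.k - 32 * a.w) := by
    apply fin
    apply fixpair s psi hel _ (fun q => (q.1.2, q.2.2)) (fun q => (q.1.1, q.2.1)) Dg (fun z => psi z.1 - psi z.2)
    · intro x _ y _ e1 e2
      simp only [Prod.mk.injEq] at e1 e2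
      exact Prod.ext (Prod.ext e2.1 e1.1) (Prod.ext e2.2 e1.2)
    · intro q hq; rw [hN4, Finset.mem_filter] at hq; exact hq.2
    · intro q hq
      rw [hN4, Finset.mem_filter] at hq
      obtain ⟨⟨q1, q2, q3, q4⟩, _⟩ := hmem q hq.1
      refine ⟨q1, q3, ?_⟩
      have := hpsi q hq.1
      have e : psi q.1.1 - psi q.2.1 - (psi q.1.2 - psi q.2.2) = (psi q.1.1 + psi q.2.2 - psi q.1.2 - psi q.2.1) := by ring
      dsimp only
      rw [e]; exact this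
  have tot : Q.card ≤ N0.card + (N1.card + (N2.card + (N3.card + N4.card))) := by
    refine (Finset.card_le_card hcov).trans ((Finset.card_union_le _ _).trans ?_)
    apply Nat.add_le_add_left
    refine (Finset.card_union_le _ _).trans ?_
    apply Nat.add_le_add_left
    refine (Finset.card_union_le _ _).trans ?_
    apply Nat.add_le_add_left
    exact Finset.card_union_le _ _
  have tot' : (Q.card : ℝ) ≤ (N0.card : ℝ) + (N1.card + (N2.card + (N3.card + N4.card))) := by exact_mod_cast tot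
  have l1 : (2 : ℝ) ^ (3 * a.k - 32 * a.w) * 4 ≤ 2 ^ (3 * a.k - 30 * a.w) := by
    have e4 : (4 : ℝ) = 2 ^ 2 := by norm_num
    rw [e4, ← pow_add]; apply p2; omega
  have l2 : (2 : ℝ) ^ (3 * a.k - 30 * a.w) * 2 ≤ 2 ^ (3 * a.k - 29 * a.w) := by
    rw [← pow_succ]; apply p2; omega
  linarith

end

end Run7.h297
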