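import Pool.Agent.Run7.h297.TameB

set_option autoImplicit false

/-! Averages of the exceptional counts on the grid. -/

noncomputable section

namespace Run7.h297

open Real Finset MeasureTheory

theorem meas_one {d : ℕ} (hd : 1 ≤ d) (r : ℝ) : volume {θ : TT | ‖d • θ‖ ≤ r} ≤ ENNReal.ofReal (2 * r) := by
  have hm : (((d : ℤ), (0 : ℤ)) : ℤ × ℤ) ≠ 0 := by
    intro h
    rw [Prod.mk_eq_zero] at h
    have := h.1
    omega
  have h := meas1 hm (ρ := r)
  have e : {x : TT × TT | ‖dm ((d : ℤ), (0 : ℤ)) x‖ ≤ r} = {θ : TT | ‖d • θ‖ ≤ r} ×ˢ (Set.univ : Set TT) := by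
    ext x
    simp only [Set.mem_setOf_eq, Set.mem_prod, Set.mem_univ, and_true]
    unfold dm
    simp only [zero_smul, add_zero, natCast_zsmul]
  rw [e, Measure.volume_eq_prod, Measure.prod_prod] at h
  have e2 : (volume : Measure TT) Set.univ = 1 := by
    exact UnitAddCircle.measure_univ
  rw [e2, mul_one] at h
  exact h

theorem meas_RetS {d : ℕ} (hd : 1 ≤ d) {r1 r2 : ℝ} (h1 : 0 ≤ r1) : volume (RetS r1 r2 d) ≤ ENNReal.ofReal (4 * r1 * r2) := by
  have e : RetS r1 r2 d = {θ : TT | ‖d • θ‖ ≤ r1} ×ˢ {θ : TT | ‖d • θ‖ ≤ r2} := by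
    ext x
    unfold RetS
    simp only [Set.mem_setOf_eq, Set.mem_prod]
  rw [e, Measure.volume_eq_prod, Measure.prod_prod, show 4 * r1 * r2 = (2 * r1) * (2 * r2) by ring, ENNReal.ofReal_mul (by linarith)]
  exact mul_le_mul' (meas_one hd r1) (meas_one hd r2)

open Classical in
theorem lint_nret1 {r1 r2 : ℝ} (h1 : 0 ≤ r1) (N : ℕ) :
    ∫⁻ x, ENNReal.ofReal (nret r1 r2 N x) ≤ ENNReal.ofReal (N * (4 * r1 * r2)) := by
  have hpt : ∀ x, ENNReal.ofReal (nret r1 r2 N x) = ∑ d ∈ Finset.Icc 1 N, (RetS r1 r2 d).indicator (fun _ => (1 : ENNReal)) x := by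
    intro x
    unfold nret
    rw [ENNReal.ofReal_sum_of_nonneg (fun d _ => by split_ifs <;> norm_num)]
    apply Finset.sum_congr rfl; intro d _
    rw [Set.indicator_apply]
    split_ifs <;> simp
  simp_rw [hpt]
  rw [lintegral_finset_sum _ (fun d _ => measurable_const.indicator (measurable_RetS r1 r2 d))]
  calc _ ≤ ∑ d ∈ Finset.Icc 1 N, ENNReal.ofReal (4 * r1 * r2) := by
        apply Finset.sum_le_sum; intro d hd
        rw [Finset.mem_Icc] at hd
        rw [lintegral_indicator (measurable_RetS r1 r2 d), setLIntegral_one]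
        exact meas_RetS hd.1 h1
    _ = _ := by
        rw [Finset.sum_const, Nat.card_Icc, Nat.add_sub_cancel, nsmul_eq_mul, ENNReal.ofReal_mul (Nat.cast_nonneg _), ENNReal.ofReal_natCast]

/-- the box of the short relations -/
def mbox (B1 B2 : ℕ) : Finset (ℤ × ℤ) := ((Finset.Icc (-(B1 : ℤ)) B1) ×ˢ (Finset.Icc (-(B2 : ℤ)) B2)).filter (fun m => m ≠ 0)

open Classical in
/-- number of short relations -/
def nrel (B1 B2 : ℕ) (τ : ℝ) (x : TT × TT) : ℝ := ∑ m ∈ mbox B1 B2, if ‖dm m x‖ ≤ τ then 1 else 0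

theorem nrel_nonneg (B1 B2 : ℕ) (τ : ℝ) (x : TT × TT) : 0 ≤ nrel B1 B2 τ x := by
  unfold nrel
  apply Finset.sum_nonneg; intro m _; split_ifs <;> norm_num

theorem measurable_rel (m : ℤ × ℤ) (τ : ℝ) : MeasurableSet {x : TT × TT | ‖dm m x‖ ≤ τ} :=
  measurableSet_le (continuous_dm m).norm.measurable measurable_const

open Classical in
theorem measurable_nrel (B1 B2 : ℕ) (τ : ℝ) : Measurable (nrel B1 B2 τ) := by
  unfold nrel
  apply Finset.measurable_sum; intro m _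
  exact Measurable.ite (measurable_rel m τ) measurable_const measurable_const

open Classical in
theorem lint_nrel {B1 B2 : ℕ} (hB1 : 1 ≤ B1) (hB2 : 1 ≤ B2) {τ : ℝ} (hτ : 0 ≤ τ) :
    ∫⁻ x, ENNReal.ofReal (nrel B1 B2 τ x) ≤ ENNReal.ofReal (9 * B1 * B2 * (2 * τ)) := by
  have hpt : ∀ x, ENNReal.ofReal (nrel B1 B2 τ x) = ∑ m ∈ mbox B1 B2, {x : TT × TT | ‖dm m x‖ ≤ τ}.indicator (fun _ => (1 : ENNReal)) x := by
    intro x
    unfold nrel
    rw [ENNReal.ofReal_sum_of_nonneg (fun d _ => by split_ifs <;> norm_num)]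
    apply Finset.sum_congr rfl; intro d _
    rw [Set.indicator_apply]
    simp only [Set.mem_setOf_eq]
    split_ifs <;> simp
  simp_rw [hpt]
  rw [lintegral_finset_sum _ (fun m _ => measurable_const.indicator (measurable_rel m τ))]
  calc _ ≤ ∑ m ∈ mbox B1 B2, ENNReal.ofReal (2 * τ) := by
        apply Finset.sum_le_sum; intro m hm
        rw [lintegral_indicator (measurable_rel m τ), setLIntegral_one]
        exact meas1 (Finset.mem_filter.mp hm).2
    _ = ENNReal.ofReal ((mbox B1 B2).card * (2 * τ)) := by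
        rw [Finset.sum_const, nsmul_eq_mul, ENNReal.ofReal_mul (Nat.cast_nonneg _), ENNReal.ofReal_natCast]
    _ ≤ _ := by
        apply ENNReal.ofReal_le_ofReal
        apply mul_le_mul_of_nonneg_right _ (by linarith)
        have h1 : (mbox B1 B2).card ≤ (2 * B1 + 1) * (2 * B2 + 1) := by
          unfold mbox
          refine (Finset.card_filter_le _ _).trans ?_
          rw [Finset.card_product, Int.card_Icc, Int.card_Icc]
          apply Nat.mul_le_mul <;> omega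
        have h2 : ((mbox B1 B2).card : ℝ) ≤ (2 * B1 + 1) * (2 * B2 + 1) := by exact_mod_cast h1
        have h3 : (1 : ℝ) ≤ B1 := by exact_mod_cast hB1
        have h4 : (1 : ℝ) ≤ B2 := by exact_mod_cast hB2
        calc _ ≤ ((2 * B1 + 1) * (2 * B2 + 1) : ℝ) := h2
          _ ≤ (3 * B1) * (3 * B2) := by
            apply mul_le_mul <;> linarith
          _ = _ := by ring

section

variable {a : AP} (h : a.Ok)

include h

theorem lint_h5 : ∫⁻ x, ENNReal.ofReal (nret (5 * a.d1) (5 * a.d2) (2 * 2 ^ a.σ) x ^ 2) ≤ ENNReal.ofReal (2 ^ 40 * a.V) := by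
  have hg5 : a.w + 12 ≤ a.g := by have := h.hg; have := h.hk; have := h.hw; omega
  have hf5 : a.w + 12 ≤ a.f := by have := h.hf; have := h.hk; have := h.hw; omega
  have hb := lint_nret (K1 := 2 ^ (a.g - 7)) (K2 := 2 ^ (a.f - 7)) (by positivity) (by positivity) (r1 := 5 * a.d1) (r2 := 5 * a.d2)
    (by
      unfold AP.d1; push_cast
      have : (2 : ℝ) ^ a.g = 2 ^ (a.g - 7) * 128 := by
        rw [show (128 : ℝ) = 2 ^ 7 by norm_num, ← pow_add]; congr 1; omega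
      rw [this, mul_one_div, div_le_div_iff₀ (by positivity) (by positivity)]
      have : (0 : ℝ) < 2 ^ (a.g - 7) := by positivity
      linarith)
    (by
      unfold AP.d2; push_cast
      have : (2 : ℝ) ^ a.f = 2 ^ (a.f - 7) * 128 := by
        rw [show (128 : ℝ) = 2 ^ 7 by norm_num, ← pow_add]; congr 1; omega
      rw [this, mul_one_div, div_le_div_iff₀ (by positivity) (by positivity)]
      have : (0 : ℝ) < 2 ^ (a.f - 7) := by positivity
      linarith) (2 * 2 ^ a.σ)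
  refine hb.trans (ENNReal.ofReal_le_ofReal ?_)
  obtain ⟨hV1, hV2⟩ := V_bd h
  have hV0 : 0 < a.V := lt_of_lt_of_le (by positivity) hV1
  have e1 : (((2 * 2 ^ a.σ : ℕ)) : ℝ) / ((((2 ^ (a.g - 7) : ℕ)) : ℝ) * ((2 ^ (a.f - 7) : ℕ) : ℝ)) = 32768 * a.V := by
    push_cast
    unfold AP.V AP.d1 AP.d2
    have h1 : (2 : ℝ) ^ a.g = 2 ^ (a.g - 7) * 128 := by
      rw [show (128 : ℝ) = 2 ^ 7 by norm_num, ← pow_add]; congr 1; omega
    have h2 : (2 : ℝ) ^ a.f = 2 ^ (a.f - 7) * 128 := by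
      rw [show (128 : ℝ) = 2 ^ 7 by norm_num, ← pow_add]; congr 1; omega
    rw [h1, h2]
    field_simp
    ring
  rw [e1]
  have hlog : (1 + Real.log (((2 * 2 ^ a.σ : ℕ)) : ℝ)) * (1 / (((2 ^ (a.g - 7) : ℕ)) : ℝ) + 1 / (((2 ^ (a.f - 7) : ℕ)) : ℝ)) ≤ 1 := by
    push_cast
    have hl : Real.log 2 ≤ 1 := by have := Real.log_two_lt_d9; linarith
    have h1 : 1 + Real.log (2 * 2 ^ a.σ) ≤ 2 ^ (a.w + 1) := by
      rw [← pow_succ', Real.log_pow]
      have h2 : (((a.σ + 1 : ℕ)) : ℝ) * Real.log 2 ≤ ((a.σ + 1 : ℕ) : ℝ) * 1 := by gcongr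
      have h3 : a.σ + 1 + 1 ≤ 2 ^ a.w := by
        have := h.hlg; have := h.he0; have := h.hk; have := h.hw; omega
      have h4 : (((a.σ + 1 + 1 : ℕ)) : ℝ) ≤ 2 ^ a.w := by exact_mod_cast h3
      have h5 : (2 : ℝ) ^ (a.w + 1) = 2 ^ a.w * 2 := by rw [pow_succ]
      have h6 : (0 : ℝ) < 2 ^ a.w := by positivity
      push_cast at h2 h4 ⊢
      rw [h5]
      linarith
    have h0 : 0 ≤ 1 + Real.log (2 * 2 ^ a.σ) := by
      have : 0 ≤ Real.log (2 * 2 ^ a.σ) := by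
        apply Real.log_nonneg
        have : (1 : ℝ) ≤ 2 ^ a.σ := one_le_pow₀ (by norm_num)
        linarith
      linarith
    have h2 : 1 / (2 : ℝ) ^ (a.g - 7) ≤ 1 / 2 ^ (a.w + 2) := by
      apply one_div_le_one_div_of_le (by positivity)
      exact pow_le_pow_right₀ (by norm_num) (by omega)
    have h3 : 1 / (2 : ℝ) ^ (a.f - 7) ≤ 1 / 2 ^ (a.w + 2) := by
      apply one_div_le_one_div_of_le (by positivity)
      exact pow_le_pow_right₀ (by norm_num) (by omega)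
    calc (1 + Real.log (2 * 2 ^ a.σ)) * (1 / 2 ^ (a.g - 7) + 1 / 2 ^ (a.f - 7)) ≤
        2 ^ (a.w + 1) * (1 / 2 ^ (a.w + 2) + 1 / 2 ^ (a.w + 2)) := by gcongr
      _ = 1 := by
        rw [pow_succ 2 (a.w + 1)]; field_simp; norm_num
  have hcomb : 512 * (32768 * a.V) * ((1 + Real.log (((2 * 2 ^ a.σ : ℕ)) : ℝ)) * (1 / (((2 ^ (a.g - 7) : ℕ)) : ℝ) + 1 / (((2 ^ (a.f - 7) : ℕ)) : ℝ))) ≤
      512 * (32768 * a.V) * 1 := by
    apply mul_le_mul_of_nonneg_left hlog (by positivity)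
  have hsq : (32768 * a.V) ^ 2 ≤ 1073741824 * a.V := by nlinarith
  have e32 : (2 : ℝ) ^ 40 = 1099511627776 := by norm_num
  rw [e32]
  linarith

end

/-- the function controlling the rare events -/
def Phi (a : AP) (f : ℕ) (x : TT × TT) : ℝ :=
  nret (5 * a.d1) (5 * a.d2) (2 * 2 ^ a.σ) x ^ 2 / 2 ^ (128 * f) +
    2 ^ (128 * f + 2) * (nrel (20 * 2 ^ (a.σ + 192 * f - a.f)) (20 * 2 ^ (a.σ + 192 * f - a.g)) (2 * (5 * 2 ^ (192 * f) * a.d1) * (5 * 2 ^ (192 * f) * a.d2)) x +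
      nret (5 * 2 ^ (192 * f) * a.d1) (5 * 2 ^ (192 * f) * a.d2) (2 ^ (a.σ - 1024 * f)) x)

theorem Phi_nonneg (a : AP) (f : ℕ) (x : TT × TT) : 0 ≤ Phi a f x := by
  unfold Phi
  have h1 := nrel_nonneg (20 * 2 ^ (a.σ + 192 * f - a.f)) (20 * 2 ^ (a.σ + 192 * f - a.g)) (2 * (5 * 2 ^ (192 * f) * a.d1) * (5 * 2 ^ (192 * f) * a.d2)) x
  have h2 := nret_nonneg (5 * 2 ^ (192 * f) * a.d1) (5 * 2 ^ (192 * f) * a.d2) (2 ^ (a.σ - 1024 * f)) x
  positivity

theorem measurable_Phi (a : AP) (f : ℕ) : Measurable (Phi a f) := by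
  unfold Phi
  exact (((measurable_nret _ _ _).pow_const 2).div_const _).add (((measurable_nrel _ _ _).add (measurable_nret _ _ _)).const_mul _)

theorem lint_Phi {a : AP} (h : a.Ok) {f : ℕ} (hf : 1 ≤ f) (hV : a.V = 1 / 2 ^ (4096 * f + 7)) (h1 : a.g ≤ a.σ) (h2 : a.f ≤ a.σ)
    (h3 : 1024 * f ≤ a.σ) : ∫⁻ x, ENNReal.ofReal (Phi a f x) ≤ ENNReal.ofReal (a.V * (2 ^ 42 / 2 ^ (128 * f))) := by
  have hd1 := d1_pos (a := a)
  have hd2 := d2_pos (a := a)
  have hV0 : 0 < a.V := by rw [hV]; positivity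
  have hB1 : 1 ≤ 20 * 2 ^ (a.σ + 192 * f - a.f) := by
    have : 0 < 2 ^ (a.σ + 192 * f - a.f) := by positivity
    omega
  have hB2 : 1 ≤ 20 * 2 ^ (a.σ + 192 * f - a.g) := by
    have : 0 < 2 ^ (a.σ + 192 * f - a.g) := by positivity
    omega
  have m1 := lint_h5 h
  have m2 := lint_nrel hB1 hB2 (τ := 2 * (5 * 2 ^ (192 * f) * a.d1) * (5 * 2 ^ (192 * f) * a.d2)) (by positivity)
  have m3 := lint_nret1 (r1 := 5 * 2 ^ (192 * f) * a.d1) (r2 := 5 * 2 ^ (192 * f) * a.d2) (by positivity) (2 ^ (a.σ - 1024 * f))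
  have e : ∀ x, ENNReal.ofReal (Phi a f x) = ENNReal.ofReal (1 / 2 ^ (128 * f)) * ENNReal.ofReal (nret (5 * a.d1) (5 * a.d2) (2 * 2 ^ a.σ) x ^ 2) +
      ENNReal.ofReal (2 ^ (128 * f + 2)) * (ENNReal.ofReal (nrel (20 * 2 ^ (a.σ + 192 * f - a.f)) (20 * 2 ^ (a.σ + 192 * f - a.g)) (2 * (5 * 2 ^ (192 * f) * a.d1) * (5 * 2 ^ (192 * f) * a.d2)) x) +
      ENNReal.ofReal (nret (5 * 2 ^ (192 * f) * a.d1) (5 * 2 ^ (192 * f) * a.d2) (2 ^ (a.σ - 1024 * f)) x)) := by
    intro x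
    have h4 := nrel_nonneg (20 * 2 ^ (a.σ + 192 * f - a.f)) (20 * 2 ^ (a.σ + 192 * f - a.g)) (2 * (5 * 2 ^ (192 * f) * a.d1) * (5 * 2 ^ (192 * f) * a.d2)) x
    have h5 := nret_nonneg (5 * 2 ^ (192 * f) * a.d1) (5 * 2 ^ (192 * f) * a.d2) (2 ^ (a.σ - 1024 * f)) x
    unfold Phi
    rw [← ENNReal.ofReal_add h4 h5, ← ENNReal.ofReal_mul (by positivity), ← ENNReal.ofReal_mul (by positivity),
      ← ENNReal.ofReal_add (by positivity) (by positivity)]
    congr 1; ring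
  simp_rw [e]
  have c1 : Measurable (fun x => ENNReal.ofReal (1 / 2 ^ (128 * f)) * ENNReal.ofReal (nret (5 * a.d1) (5 * a.d2) (2 * 2 ^ a.σ) x ^ 2)) :=
    (((measurable_nret _ _ _).pow_const 2).ennreal_ofReal).const_mul _
  have c2 : Measurable (fun x => ENNReal.ofReal (nrel (20 * 2 ^ (a.σ + 192 * f - a.f)) (20 * 2 ^ (a.σ + 192 * f - a.g)) (2 * (5 * 2 ^ (192 * f) * a.d1) * (5 * 2 ^ (192 * f) * a.d2)) x)) :=
    (measurable_nrel _ _ _).ennreal_ofReal
  rw [lintegral_add_left c1, lintegral_const_mul' _ _ ENNReal.ofReal_ne_top, lintegral_const_mul' _ _ ENNReal.ofReal_ne_top, lintegral_add_left c2]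
  calc _ ≤ ENNReal.ofReal (1 / 2 ^ (128 * f)) * ENNReal.ofReal (2 ^ 40 * a.V) + ENNReal.ofReal (2 ^ (128 * f + 2)) *
        (ENNReal.ofReal (9 * ((20 * 2 ^ (a.σ + 192 * f - a.f) : ℕ) : ℝ) * ((20 * 2 ^ (a.σ + 192 * f - a.g) : ℕ) : ℝ) * (2 * (2 * (5 * 2 ^ (192 * f) * a.d1) * (5 * 2 ^ (192 * f) * a.d2)))) +
        ENNReal.ofReal (((2 ^ (a.σ - 1024 * f) : ℕ) : ℝ) * (4 * (5 * 2 ^ (192 * f) * a.d1) * (5 * 2 ^ (192 * f) * a.d2)))) := by
        gcongr
    _ ≤ _ := by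
        rw [← ENNReal.ofReal_add (by positivity) (by positivity), ← ENNReal.ofReal_mul (by positivity), ← ENNReal.ofReal_mul (by positivity),
          ← ENNReal.ofReal_add (by positivity) (by positivity)]
        apply ENNReal.ofReal_le_ofReal
        push_cast
        have q1 : (2 : ℝ) ^ (a.σ + 192 * f - a.f) = 2 ^ a.σ * 2 ^ (192 * f) * a.d2 := by
          have : (2 : ℝ) ^ (a.σ + 192 * f - a.f) * 2 ^ a.f = 2 ^ a.σ * 2 ^ (192 * f) := by
            rw [← pow_add, ← pow_add]; congr 1; omega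
          unfold AP.d2
          rw [mul_one_div, eq_div_iff (by positivity)]; exact this
        have q2 : (2 : ℝ) ^ (a.σ + 192 * f - a.g) = 2 ^ a.σ * 2 ^ (192 * f) * a.d1 := by
          have : (2 : ℝ) ^ (a.σ + 192 * f - a.g) * 2 ^ a.g = 2 ^ a.σ * 2 ^ (192 * f) := by
            rw [← pow_add, ← pow_add]; congr 1; omega
          unfold AP.d1
          rw [mul_one_div, eq_div_iff (by positivity)]; exact this
        have q3 : (2 : ℝ) ^ (a.σ - 1024 * f) = 2 ^ a.σ / 2 ^ (1024 * f) := by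
          rw [eq_div_iff (by positivity), ← pow_add]; congr 1; omega
        rw [q1, q2, q3]
        have hVe : (2 : ℝ) ^ a.σ * (a.d1 * a.d2) = a.V := rfl
        have t2 : 2 ^ (128 * f + 2) * (9 * (20 * (2 ^ a.σ * 2 ^ (192 * f) * a.d2)) * (20 * (2 ^ a.σ * 2 ^ (192 * f) * a.d1)) *
            (2 * (2 * (5 * 2 ^ (192 * f) * a.d1) * (5 * 2 ^ (192 * f) * a.d2))) +
            2 ^ a.σ / 2 ^ (1024 * f) * (4 * (5 * 2 ^ (192 * f) * a.d1) * (5 * 2 ^ (192 * f) * a.d2))) =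
            a.V * ((1440000 * 2 ^ (128 * f) * (2 ^ (192 * f)) ^ 4 * a.V) + 400 * 2 ^ (128 * f) * (2 ^ (192 * f)) ^ 2 / 2 ^ (1024 * f)) := by
          rw [← hVe, pow_add]
          field_simp
          ring
        rw [t2]
        have t1 : 1 / 2 ^ (128 * f) * (2 ^ 40 * a.V) = a.V * (2 ^ 40 / 2 ^ (128 * f)) := by field_simp
        rw [t1, ← mul_add]
        apply mul_le_mul_of_nonneg_left _ hV0.le
        have s1 : 1440000 * 2 ^ (128 * f) * (2 ^ (192 * f)) ^ 4 * a.V ≤ 2 ^ 40 / 2 ^ (128 * f) := by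
          rw [hV, le_div_iff₀ (by positivity), mul_one_div, div_mul_eq_mul_div, div_le_iff₀ (by positivity)]
          have e5 : (1440000 : ℝ) * 2 ^ (128 * f) * (2 ^ (192 * f)) ^ 4 * 2 ^ (128 * f) = 1440000 * 2 ^ (1024 * f) := by
            rw [← pow_mul, mul_assoc, mul_assoc, ← pow_add, ← pow_add]; congr 2; ring
          rw [e5]
          have e6 : (2 : ℝ) ^ (1024 * f) ≤ 2 ^ (4096 * f + 7) := pow_le_pow_right₀ (by norm_num) (by omega)
          exact mul_le_mul (by norm_num) e6 (by positivity) (by positivity)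
        have s2 : 400 * 2 ^ (128 * f) * (2 ^ (192 * f)) ^ 2 / 2 ^ (1024 * f) ≤ (2 : ℝ) ^ 40 / 2 ^ (128 * f) := by
          rw [div_le_div_iff₀ (by positivity) (by positivity)]
          have e5 : (400 : ℝ) * 2 ^ (128 * f) * (2 ^ (192 * f)) ^ 2 * 2 ^ (128 * f) = 400 * 2 ^ (640 * f) := by
            rw [← pow_mul, mul_assoc, mul_assoc, ← pow_add, ← pow_add]; congr 2; ring
          rw [e5]
          have e6 : (2 : ℝ) ^ (640 * f) ≤ 2 ^ (1024 * f) := pow_le_pow_right₀ (by norm_num) (by omega)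
          exact mul_le_mul (by norm_num) e6 (by positivity) (by positivity)
        have s3 : (2 : ℝ) ^ 42 / 2 ^ (128 * f) = 2 ^ 40 / 2 ^ (128 * f) + 2 ^ 40 / 2 ^ (128 * f) + 2 ^ 40 / 2 ^ (128 * f) + 2 ^ 40 / 2 ^ (128 * f) := by
          ring
        have s4 : 0 ≤ (2 : ℝ) ^ 40 / 2 ^ (128 * f) := by positivity
        linarith

/-- average of the rare events over the grid -/
theorem meas_Phi {a : AP} (h : a.Ok) {f : ℕ} (hf : 1 ≤ f) (hV : a.V = 1 / 2 ^ (4096 * f + 7)) (h1 : a.g ≤ a.σ) (h2 : a.f ≤ a.σ)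
    (h3 : 1024 * f ≤ a.σ) {t : ℝ} (ht : 0 < t) :
    volume {x : TT × TT | t ≤ (1 / ((a.N1 : ℝ) * a.N2)) * ∑ u ∈ range a.N1, ∑ v ∈ range a.N2, Phi a f (x + a.gp u v)} ≤
      ENNReal.ofReal (a.V * (2 ^ 42 / 2 ^ (128 * f)) / t) := by
  have n1pos : 0 < a.N1 := by unfold AP.N1; positivity
  have n2pos : 0 < a.N2 := by unfold AP.N2; positivity
  have hm : ∀ u v : ℕ, Measurable (fun x : TT × TT => Phi a f (x + a.gp u v)) := by
    intro u v
    exact (measurable_Phi a f).comp (measurable_id.add measurable_const)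
  have hl := lint_avg n1pos n2pos (fun u v x => Phi a f (x + a.gp u v))
    (fun u v x => Phi_nonneg _ _ _) hm (b := a.V * (2 ^ 42 / 2 ^ (128 * f))) (by
      intro u _ v _
      have := lint_shift (a.gp u v) (fun x => ENNReal.ofReal (Phi a f x))
      rw [this]
      exact lint_Phi h hf hV h1 h2 h3)
  have hmk := meas_ge_le_lintegral_div (μ := (volume : Measure (TT × TT))) (f := fun x => ENNReal.ofReal ((1 / ((a.N1 : ℝ) * a.N2)) * ∑ u ∈ range a.N1, ∑ v ∈ range a.N2,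
      Phi a f (x + a.gp u v))) (ε := ENNReal.ofReal t)
    ((Measurable.const_mul (Finset.measurable_sum _ (fun u _ => Finset.measurable_sum _ (fun v _ => hm u v))) _).ennreal_ofReal.aemeasurable)
    (by rw [ne_eq, ENNReal.ofReal_eq_zero, not_le]; exact ht) ENNReal.ofReal_ne_top
  refine (measure_mono ?_).trans (hmk.trans ?_)
  · intro x hx
    simp only [Set.mem_setOf_eq] at hx ⊢
    exact ENNReal.ofReal_le_ofReal hx
  · rw [ENNReal.ofReal_div_of_pos ht]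
    exact ENNReal.div_le_div_right hl _

end Run7.h297
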