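import Pool.Agent.Run7.h297.Cell
import Pool.Agent.Run7.h297.MixB

set_option autoImplicit false

/-! Aligned grids and the upper bound for return windows. -/

noncomputable section

namespace Run7.h297

open Real Finset MeasureTheory

/-- alignment of a grid with a coarse cell -/
structure Al (a : AP) (i j m : ℕ) : Prop where
  h1 : a.σ + a.g + 1 = i + a.k
  h2 : a.σ + a.f + 1 = j + a.l
  h3 : m + 1 ≤ a.k + 6 * a.w
  h4 : m + 1 ≤ a.l + 6 * a.w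

/-- a base point near a coarse cell -/
structure Nd (i j : ℕ) (X : ℝ × ℝ) (c1 c2 : ℕ) : Prop where
  x1 : X.1 ≤ c1 / 2 ^ i
  x2 : (c1 : ℝ) / 2 ^ i ≤ X.1 + 1 / 2 ^ i
  y1 : X.2 ≤ c2 / 2 ^ j
  y2 : (c2 : ℝ) / 2 ^ j ≤ X.2 + 1 / 2 ^ j

/-- block exponent -/
def AP.W1 (a : AP) (m : ℕ) : ℕ := a.k + 6 * a.w - (m + 1)
/-- block exponent -/
def AP.W2 (a : AP) (m : ℕ) : ℕ := a.l + 6 * a.w - (m + 1)

/-- grid point in the plane -/
def AP.gx (a : AP) (X : ℝ × ℝ) (u v : ℕ) : ℝ × ℝ :=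
  (X.1 + (u : ℝ) / 2 ^ (a.σ + a.g + 6 * a.w), X.2 + (v : ℝ) / 2 ^ (a.σ + a.f + 6 * a.w))

theorem pt_gx (a : AP) (X : ℝ × ℝ) (u v : ℕ) : pt (a.gx X u v) = pt X + a.gp u v := by
  unfold pt AP.gx AP.gp AP.st
  have e1 : 1 / (2 ^ a.σ * (2 ^ a.w) ^ 6) / 2 ^ a.g * (u : ℝ) = (u : ℝ) / 2 ^ (a.σ + a.g + 6 * a.w) := by
    rw [pow_add, pow_add, mul_comm 6 a.w, pow_mul]; field_simp
  have e2 : 1 / (2 ^ a.σ * (2 ^ a.w) ^ 6) / 2 ^ a.f * (v : ℝ) = (v : ℝ) / 2 ^ (a.σ + a.f + 6 * a.w) := by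
    rw [pow_add, pow_add, mul_comm 6 a.w, pow_mul]; field_simp
  rw [e1, e2]; rfl

/-- position of the blocks -/
structure Blk (a : AP) (i j m : ℕ) (X : ℝ × ℝ) (c1 c2 u0 v0 : ℕ) : Prop where
  hu : u0 + 2 ^ m * 2 ^ (a.W1 m) ≤ a.N1
  hv : v0 + 2 ^ m * 2 ^ (a.W2 m) ≤ a.N2
  hx : ∀ u v, u0 ≤ u → u < u0 + 2 ^ m * 2 ^ (a.W1 m) →
    dig (i + m) (a.gx X u v).1 = c1 * 2 ^ m + (u - u0) / 2 ^ (a.W1 m) ∧ 0 ≤ (a.gx X u v).1
  hy : ∀ u v, v0 ≤ v → v < v0 + 2 ^ m * 2 ^ (a.W2 m) →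
    dig (j + m) (a.gx X u v).2 = c2 * 2 ^ m + (v - v0) / 2 ^ (a.W2 m) ∧ 0 ≤ (a.gx X u v).2

theorem grid_dig' {i m W c : ℕ} {X : ℝ} (h1 : X ≤ c / 2 ^ i) (h2 : (c : ℝ) / 2 ^ i ≤ X + 1 / 2 ^ i) :
    ∃ u0 : ℕ, u0 ≤ 2 ^ (m + W) ∧ ∀ u : ℕ, u0 ≤ u → u < u0 + 2 ^ m * 2 ^ W →
      dig (i + m) (X + (u : ℝ) / 2 ^ (i + m + W)) = c * 2 ^ m + (u - u0) / 2 ^ W ∧
      0 ≤ X + (u : ℝ) / 2 ^ (i + m + W) := by
  obtain ⟨u0, h3, h4⟩ := grid_dig (i := i) (k := m) (W := W) (c := c) h1 h2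
  refine ⟨u0, h3, ?_⟩
  intro u hu1 hu2
  have hp : 0 < 2 ^ W := by positivity
  have h5 := h4 ((u - u0) / 2 ^ W) ((u - u0) % 2 ^ W) (Nat.mod_lt _ hp)
  have h6 : u0 + (u - u0) / 2 ^ W * 2 ^ W + (u - u0) % 2 ^ W = u := by
    have := Nat.div_add_mod (u - u0) (2 ^ W)
    rw [mul_comm] at this
    omega
  rw [h6] at h5
  exact h5

theorem Al.blk {a : AP} {i j m : ℕ} (hal : Al a i j m) {X : ℝ × ℝ} {c1 c2 : ℕ} (hnd : Nd i j X c1 c2) :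
    ∃ u0 v0, Blk a i j m X c1 c2 u0 v0 := by
  obtain ⟨u0, hu0, hu⟩ := grid_dig' (m := m) (W := a.W1 m) hnd.x1 hnd.x2
  obtain ⟨v0, hv0, hv⟩ := grid_dig' (m := m) (W := a.W2 m) hnd.y1 hnd.y2
  have k1 := hal.h1
  have k2 := hal.h2
  have k3 := hal.h3
  have k4 := hal.h4
  have w1 : a.W1 m = a.k + 6 * a.w - (m + 1) := rfl
  have w2 : a.W2 m = a.l + 6 * a.w - (m + 1) := rfl
  have e1 : i + m + a.W1 m = a.σ + a.g + 6 * a.w := by omega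
  have e2 : j + m + a.W2 m = a.σ + a.f + 6 * a.w := by omega
  refine ⟨u0, v0, ?_, ?_, ?_, ?_⟩
  · have : a.N1 = 2 ^ (m + a.W1 m) + 2 ^ m * 2 ^ a.W1 m := by
      unfold AP.N1
      rw [← pow_add, ← two_mul, ← pow_succ']; congr 1; omega
    rw [this]; omega
  · have : a.N2 = 2 ^ (m + a.W2 m) + 2 ^ m * 2 ^ a.W2 m := by
      unfold AP.N2
      rw [← pow_add, ← two_mul, ← pow_succ']; congr 1; omega
    rw [this]; omega
  · intro u v h1 h2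
    have := hu u h1 h2
    rw [e1] at this
    exact this
  · intro u v h1 h2
    have := hv v h1 h2
    rw [e2] at this
    exact this

theorem AP.N1_eq {a : AP} {i j m : ℕ} (hal : Al a i j m) : (a.N1 : ℝ) = 2 * (2 ^ m * 2 ^ a.W1 m) := by
  have k3 := hal.h3
  have w1 : a.W1 m = a.k + 6 * a.w - (m + 1) := rfl
  unfold AP.N1
  push_cast
  rw [← pow_add, ← pow_succ']; congr 1; omega

theorem AP.N2_eq {a : AP} {i j m : ℕ} (hal : Al a i j m) : (a.N2 : ℝ) = 2 * (2 ^ m * 2 ^ a.W2 m) := by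
  have k3 := hal.h4
  have w1 : a.W2 m = a.l + 6 * a.w - (m + 1) := rfl
  unfold AP.N2
  push_cast
  rw [← pow_add, ← pow_succ']; congr 1; omega

/-- a law on digit strings with bounded density -/
structure Lw (m : ℕ) (T : ℝ) (μ : ℕ → ℝ) : Prop where
  h0 : ∀ x, 0 ≤ μ x
  h1 : ∑ x ∈ range (2 ^ m), μ x = 1
  hT : ∀ x, μ x ≤ T / 2 ^ m

section

variable {a : AP} (h : a.Ok) {i j m : ℕ} (hal : Al a i j m) {X : ℝ × ℝ} {c1 c2 u0 v0 : ℕ} (hb : Blk a i j m X c1 c2 u0 v0)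
  {T : ℝ} {μ ν : ℕ → ℝ} (hμ : Lw m T μ) (hν : Lw m T ν)

include hal hμ in
theorem spread1_le (u : ℕ) : spread (2 ^ m) (2 ^ a.W1 m) u0 μ u ≤ 2 * T / a.N1 := by
  have hT0 : 0 ≤ T / 2 ^ m := (hμ.h0 0).trans (hμ.hT 0)
  have := spread_le (A := 2 ^ m) (B := 2 ^ a.W1 m) (u0 := u0) (by positivity) hT0 (fun x _ => hμ.hT x) u
  refine this.trans (le_of_eq ?_)
  rw [AP.N1_eq hal]; push_cast; field_simp

include hal hν in
theorem spread2_le (u : ℕ) : spread (2 ^ m) (2 ^ a.W2 m) v0 ν u ≤ 2 * T / a.N2 := by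
  have hT0 : 0 ≤ T / 2 ^ m := (hν.h0 0).trans (hν.hT 0)
  have := spread_le (A := 2 ^ m) (B := 2 ^ a.W2 m) (u0 := v0) (by positivity) hT0 (fun x _ => hν.hT x) u
  refine this.trans (le_of_eq ?_)
  rw [AP.N2_eq hal]; push_cast; field_simp

include h hal hb hμ hν in
theorem law_mix (hG : Gen3 a (pt X)) (hF : a.Far (pt X) < 1 / (4 * (2 ^ a.w) ^ 3)) (hTw : 2 * T ≤ 2 ^ a.w) (γ : TT × TT) :
    |(∑ u ∈ range a.N1, ∑ v ∈ range a.N2, spread (2 ^ m) (2 ^ a.W1 m) u0 μ u * spread (2 ^ m) (2 ^ a.W2 m) v0 ν v *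
      SS (2 ^ a.σ) a.d1 a.d2 (2 * 2 ^ a.σ) (pt X + a.gp u v) γ) - a.V| ≤ a.V / 2 := by
  have n1' : (0 : ℝ) < a.N1 := by unfold AP.N1; positivity
  have n2' : (0 : ℝ) < a.N2 := by unfold AP.N2; positivity
  apply mix2 h hG hF γ _ _ (fun u => spread_nonneg hμ.h0 u) (fun u => spread_nonneg hν.h0 u)
  · intro u _
    refine (spread1_le hal hμ u).trans ?_
    gcongr
  · intro u _
    refine (spread2_le hal hν u).trans ?_
    gcongr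
  · have := sum_spread (A := 2 ^ m) (B := 2 ^ a.W1 m) (by positivity) hb.hu μ (fun _ => 1)
    simp only [mul_one] at this
    rw [this, hμ.h1]
  · have := sum_spread (A := 2 ^ m) (B := 2 ^ a.W2 m) (by positivity) hb.hv ν (fun _ => 1)
    simp only [mul_one] at this
    rw [this, hν.h1]

/-- two fold sums over blocks -/
theorem sum_spread2 {N1 N2 A B1 B2 w0 z0 : ℕ} (hB1 : 0 < B1) (hB2 : 0 < B2) (hu : w0 + A * B1 ≤ N1) (hv : z0 + A * B2 ≤ N2) (μ ν : ℕ → ℝ)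
    (F : ℕ → ℕ → ℝ) :
    ∑ u ∈ range N1, ∑ v ∈ range N2, spread A B1 w0 μ u * spread A B2 z0 ν v * F ((u - w0) / B1) ((v - z0) / B2) =
      ∑ x ∈ range A, ∑ y ∈ range A, μ x * ν y * F x y := by
  have e1 : ∀ u ∈ range N1, ∑ v ∈ range N2, spread A B1 w0 μ u * spread A B2 z0 ν v * F ((u - w0) / B1) ((v - z0) / B2) =
      spread A B1 w0 μ u * (fun x => ∑ y ∈ range A, ν y * F x y) ((u - w0) / B1) := by
    intro u _
    have := sum_spread hB2 hv ν (fun y => F ((u - w0) / B1) y)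
    dsimp only
    rw [← this, Finset.mul_sum]
    apply Finset.sum_congr rfl; intro v _
    ring
  rw [Finset.sum_congr rfl e1, sum_spread hB1 hu μ (fun x => ∑ y ∈ range A, ν y * F x y)]
  apply Finset.sum_congr rfl; intro x _
  rw [Finset.mul_sum]
  apply Finset.sum_congr rfl; intro y _
  ring

end

/-- a hit in the middle of the window gives a lower bound -/
theorem SS_lower {Q d : ℕ} (hQ : 0 < Q) (hd1 : 5 * Q ≤ 4 * d) (hd2 : 4 * d ≤ 11 * Q) {δ₁ δ₂ : ℝ} (h₁ : 0 < δ₁) (h₂ : 0 < δ₂) {x : TT × TT}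
    (hx1 : ‖(d : ℤ) • x.1‖ ≤ δ₁ / 4) (hx2 : ‖(d : ℤ) • x.2‖ ≤ δ₂ / 4) : 1 / 8 ≤ SS Q δ₁ δ₂ (2 * Q : ℤ) x 0 := by
  have hQ' : (0 : ℝ) < Q := by exact_mod_cast hQ
  have ht : ∀ (δ : ℝ) (θ : TT), 0 < δ → ‖θ‖ ≤ δ / 4 → 3 / 4 ≤ tent δ θ := by
    intro δ θ hδ hθ
    unfold tent
    apply le_max_of_le_right
    have : ‖θ‖ / δ ≤ 1 / 4 := by rw [div_le_iff₀ hδ]; linarith
    linarith
  set T : ℤ → ℝ := fun n => tent δ₁ (n • x.1 - (0 : TT × TT).1) * tent δ₂ (n • x.2 - (0 : TT × TT).2) with hT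
  have hT0 : ∀ n, 0 ≤ T n := fun n => mul_nonneg (tent_nonneg _ _) (tent_nonneg _ _)
  have hTd : 1 / 2 ≤ T d := by
    have a1 := ht δ₁ _ h₁ hx1
    have a2 := ht δ₂ _ h₂ hx2
    rw [hT]; dsimp only
    simp only [Prod.fst_zero, Prod.snd_zero, sub_zero]
    calc (1 / 2 : ℝ) ≤ (3 / 4) * (3 / 4) := by norm_num
      _ ≤ _ := mul_le_mul a1 a2 (by norm_num) (tent_nonneg _ _)
  have hSS : SS Q δ₁ δ₂ (2 * Q : ℤ) x 0 = (1 / Q) * ∑ j ∈ range Q, ∑ j' ∈ range Q, T (2 * Q + ((j : ℤ) - (j' : ℤ))) := rfl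
  rw [hSS]
  have key : ((Q : ℝ) / 4) * (1 / 2) ≤ ∑ j ∈ range Q, ∑ j' ∈ range Q, T (2 * Q + ((j : ℤ) - (j' : ℤ))) := by
    rcases le_total (2 * Q) d with hc | hc
    · obtain ⟨t, rfl⟩ := Nat.exists_eq_add_of_le hc
      rw [Finset.sum_comm]
      have h3 : ∑ s ∈ range (Q - t), (1 / 2 : ℝ) ≤ ∑ j' ∈ range (Q - t), ∑ j ∈ range Q, T (2 * Q + ((j : ℤ) - (j' : ℤ))) := by
        apply Finset.sum_le_sum; intro s hs
        rw [Finset.mem_range] at hs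
        have hmem : s + t ∈ range Q := by rw [Finset.mem_range]; omega
        have h4 := Finset.single_le_sum (f := fun j : ℕ => T (2 * Q + ((j : ℤ) - (s : ℤ)))) (fun j _ => hT0 _) hmem
        refine le_trans ?_ h4
        have e : (2 * Q + (((s + t : ℕ) : ℤ) - (s : ℤ)) : ℤ) = ((2 * Q + t : ℕ) : ℤ) := by push_cast; ring
        rw [e]; exact hTd
      have h5 : ∑ j' ∈ range (Q - t), ∑ j ∈ range Q, T (2 * Q + ((j : ℤ) - (j' : ℤ))) ≤ ∑ j' ∈ range Q, ∑ j ∈ range Q, T (2 * Q + ((j : ℤ) - (j' : ℤ))) := by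
        apply Finset.sum_le_sum_of_subset_of_nonneg
        · intro s hs
          rw [Finset.mem_range] at hs ⊢; omega
        · intro s _ _
          exact Finset.sum_nonneg (fun j _ => hT0 _)
      rw [Finset.sum_const, card_range, nsmul_eq_mul] at h3
      have h6 : (Q : ℝ) / 4 ≤ ((Q - t : ℕ) : ℝ) := by
        have : Q ≤ 4 * (Q - t) := by omega
        have h7 : (Q : ℝ) ≤ 4 * ((Q - t : ℕ) : ℝ) := by exact_mod_cast this
        linarith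
      linarith
    · obtain ⟨t, ht'⟩ := Nat.exists_eq_add_of_le hc
      have h3 : ∑ s ∈ range (Q - t), (1 / 2 : ℝ) ≤ ∑ j ∈ range (Q - t), ∑ j' ∈ range Q, T (2 * Q + ((j : ℤ) - (j' : ℤ))) := by
        apply Finset.sum_le_sum; intro s hs
        rw [Finset.mem_range] at hs
        have hmem : s + t ∈ range Q := by rw [Finset.mem_range]; omega
        have h4 := Finset.single_le_sum (f := fun j' : ℕ => T (2 * Q + ((s : ℤ) - (j' : ℤ)))) (fun j _ => hT0 _) hmem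
        refine le_trans ?_ h4
        have e : (2 * Q + ((s : ℤ) - ((s + t : ℕ) : ℤ)) : ℤ) = (d : ℤ) := by
          have : ((2 * Q : ℕ) : ℤ) = d + t := by exact_mod_cast ht'
          push_cast at this ⊢; linarith
        rw [e]; exact hTd
      have h5 : ∑ j ∈ range (Q - t), ∑ j' ∈ range Q, T (2 * Q + ((j : ℤ) - (j' : ℤ))) ≤ ∑ j ∈ range Q, ∑ j' ∈ range Q, T (2 * Q + ((j : ℤ) - (j' : ℤ))) := by
        apply Finset.sum_le_sum_of_subset_of_nonneg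
        · intro s hs
          rw [Finset.mem_range] at hs ⊢; omega
        · intro s _ _
          exact Finset.sum_nonneg (fun j _ => hT0 _)
      rw [Finset.sum_const, card_range, nsmul_eq_mul] at h3
      have h6 : (Q : ℝ) / 4 ≤ ((Q - t : ℕ) : ℝ) := by
        have : Q ≤ 4 * (Q - t) := by omega
        have h7 : (Q : ℝ) ≤ 4 * ((Q - t : ℕ) : ℝ) := by exact_mod_cast this
        linarith
      linarith
  calc (1 / 8 : ℝ) = (1 / Q) * ((Q / 4) * (1 / 2)) := by field_simp; norm_num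
    _ ≤ _ := by gcongr

/-- return window -/
def win (a : AP) (z : ℝ × ℝ) : Prop :=
  ∃ d : ℕ, 5 * 2 ^ a.σ ≤ 4 * d ∧ 4 * d ≤ 11 * 2 ^ a.σ ∧ pt z ∈ RetS (5 / 32 * a.d1) (5 / 32 * a.d2) d

theorem ret_move {d σ g i : ℕ} {z z' : ℝ} (hd : 4 * d ≤ 11 * 2 ^ σ) (hi : σ + g + 5 ≤ i) (hz : |z - z'| ≤ 1 / 2 ^ i)
    (hr : ‖d • ((z : ℝ) : TT)‖ ≤ 5 / 32 * (1 / 2 ^ g)) : ‖(d : ℤ) • ((z' : ℝ) : TT)‖ ≤ (1 / 2 ^ g) / 4 := by
  have e : (d : ℤ) • ((z' : ℝ) : TT) = d • ((z : ℝ) : TT) - ((d * (z - z') : ℝ) : TT) := by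
    rw [natCast_zsmul]
    have e1 : d • ((z' : ℝ) : TT) = ((d * z' : ℝ) : TT) := by rw [← nsmul_eq_mul]; rfl
    have e2 : d • ((z : ℝ) : TT) = ((d * z : ℝ) : TT) := by rw [← nsmul_eq_mul]; rfl
    rw [e1, e2]
    have : (d * z' : ℝ) = d * z - d * (z - z') := by ring
    rw [this]; rfl
  rw [e]
  refine (norm_sub_le _ _).trans ?_
  have h1 := norm_coe_le_abs (d * (z - z'))
  rw [abs_mul, Nat.abs_cast] at h1
  have h2 : (d : ℝ) ≤ 11 / 4 * 2 ^ σ := by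
    have : ((4 * d : ℕ) : ℝ) ≤ ((11 * 2 ^ σ : ℕ) : ℝ) := by exact_mod_cast hd
    push_cast at this; linarith
  have h3 : (2 : ℝ) ^ σ / 2 ^ i ≤ (1 / 2 ^ g) / 32 := by
    have : (2 : ℝ) ^ (σ + g + 5) ≤ 2 ^ i := pow_le_pow_right₀ (by norm_num) hi
    rw [pow_add, pow_add] at this
    rw [div_div, div_le_div_iff₀ (by positivity) (by positivity)]
    norm_num at this
    linarith
  have h4 : (d : ℝ) * |z - z'| ≤ 11 / 4 * ((1 / 2 ^ g) / 32) := by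
    calc (d : ℝ) * |z - z'| ≤ (11 / 4 * 2 ^ σ) * (1 / 2 ^ i) := by gcongr
      _ = 11 / 4 * (2 ^ σ / 2 ^ i) := by ring
      _ ≤ _ := by gcongr
  have h5 : (0 : ℝ) < 1 / 2 ^ g := by positivity
  linarith

section

variable {a : AP} (h : a.Ok) {i j m : ℕ} (hal : Al a i j m) {X : ℝ × ℝ} {c1 c2 : ℕ} (hnd : Nd i j X c1 c2)
  {T : ℝ} {μ ν : ℕ → ℝ} (hμ : Lw m T μ) (hν : Lw m T ν)

include h hal hnd hμ hν in
open Classical in
/-- the probability of a return window is at most a constant times the volume -/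
theorem win_ub (hG : Gen3 a (pt X)) (hF : a.Far (pt X) < 1 / (4 * (2 ^ a.w) ^ 3)) (hTw : 2 * T ≤ 2 ^ a.w)
    (hf1 : a.σ + a.g + 5 ≤ i + m) (hf2 : a.σ + a.f + 5 ≤ j + m) :
    ∑ x ∈ range (2 ^ m), ∑ y ∈ range (2 ^ m), μ x * ν y *
      (if ∃ z : ℝ × ℝ, (0 ≤ z.1 ∧ 0 ≤ z.2) ∧ (dig (i + m) z.1 = c1 * 2 ^ m + x ∧ dig (j + m) z.2 = c2 * 2 ^ m + y) ∧ win a z then 1 else 0) ≤
      12 * a.V := by
  obtain ⟨u0, v0, hb⟩ := hal.blk hnd
  have hmix := law_mix h hal hb hμ hν hG hF hTw 0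
  have h1 := (abs_le.mp hmix).2
  have h2 := sum_spread2 (A := 2 ^ m) (B1 := 2 ^ a.W1 m) (B2 := 2 ^ a.W2 m) (by positivity) (by positivity) hb.hu hb.hv μ ν
    (fun x y => if ∃ z : ℝ × ℝ, (0 ≤ z.1 ∧ 0 ≤ z.2) ∧ (dig (i + m) z.1 = c1 * 2 ^ m + x ∧ dig (j + m) z.2 = c2 * 2 ^ m + y) ∧ win a z then 1 else 0)
  rw [← h2]
  have hle : ∑ u ∈ range a.N1, ∑ v ∈ range a.N2, spread (2 ^ m) (2 ^ a.W1 m) u0 μ u * spread (2 ^ m) (2 ^ a.W2 m) v0 ν v *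
      (if ∃ z : ℝ × ℝ, (0 ≤ z.1 ∧ 0 ≤ z.2) ∧ (dig (i + m) z.1 = c1 * 2 ^ m + (u - u0) / 2 ^ a.W1 m ∧ dig (j + m) z.2 = c2 * 2 ^ m + (v - v0) / 2 ^ a.W2 m) ∧ win a z then 1 else 0) ≤
      8 * (∑ u ∈ range a.N1, ∑ v ∈ range a.N2, spread (2 ^ m) (2 ^ a.W1 m) u0 μ u * spread (2 ^ m) (2 ^ a.W2 m) v0 ν v *
      SS (2 ^ a.σ) a.d1 a.d2 (2 * 2 ^ a.σ) (pt X + a.gp u v) 0) := by
    rw [Finset.mul_sum]
    apply Finset.sum_le_sum; intro u _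
    rw [Finset.mul_sum]
    apply Finset.sum_le_sum; intro v _
    have s1 := spread_nonneg (A := 2 ^ m) (B := 2 ^ a.W1 m) (u0 := u0) hμ.h0 u
    have s2 := spread_nonneg (A := 2 ^ m) (B := 2 ^ a.W2 m) (u0 := v0) hν.h0 v
    have s3 := SS_nonneg' (2 ^ a.σ) a.d1 a.d2 (2 * 2 ^ a.σ) (pt X + a.gp u v) 0
    by_cases cu : u0 ≤ u ∧ u < u0 + 2 ^ m * 2 ^ a.W1 m
    · by_cases cv : v0 ≤ v ∧ v < v0 + 2 ^ m * 2 ^ a.W2 m
      · split_ifs with hc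
        · obtain ⟨z, ⟨z1, z2⟩, ⟨d1, d2⟩, d, hd1, hd2, hr⟩ := hc
          obtain ⟨p1, p2⟩ := hb.hx u v cu.1 cu.2
          obtain ⟨q1, q2⟩ := hb.hy u v cv.1 cv.2
          have b1 := dig_close z1 p2 (d1.trans p1.symm)
          have b2 := dig_close z2 q2 (d2.trans q1.symm)
          have r1 := ret_move hd2 hf1 b1 hr.1
          have r2 := ret_move hd2 hf2 b2 hr.2
          have hlow := SS_lower (Q := 2 ^ a.σ) (d := d) (by positivity) hd1 hd2 (d1_pos (a := a)) (d2_pos (a := a)) (x := pt (a.gx X u v)) r1 r2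
          rw [pt_gx] at hlow
          push_cast at hlow
          have : 0 ≤ spread (2 ^ m) (2 ^ a.W1 m) u0 μ u * spread (2 ^ m) (2 ^ a.W2 m) v0 ν v := mul_nonneg s1 s2
          nlinarith
        · rw [mul_zero]
          positivity
      · have : spread (2 ^ m) (2 ^ a.W2 m) v0 ν v = 0 := by unfold spread; rw [if_neg cv]
        rw [this]; simp
    · have : spread (2 ^ m) (2 ^ a.W1 m) u0 μ u = 0 := by unfold spread; rw [if_neg cu]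
      rw [this]; simp
  linarith

end

end Run7.h297
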