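import Pool.Agent.Run7.h297.Geo
import Pool.Agent.Run7.h297.Ret
import Pool.Agent.Run7.h297.Win

set_option autoImplicit false

/-! Mixing towards tame points. -/

noncomputable section

namespace Run7.h297

open Real Finset MeasureTheory

/-- the grids of the return windows -/
def AP.sh (a : AP) (r t jj i' : ℕ) : AP :=
  ⟨a.w, a.k - i' - r - 5, a.l - i' - t - 5, a.σ - jj - i', a.g + jj - r - 5, a.f + jj - t - 5⟩

/-- admissible shapes -/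
structure ShOk (a : AP) (f i j m : ℕ) : Prop where
  f1 : 1 ≤ f
  w : a.w = 8192 * f
  gf : a.g + a.f = a.σ + 4096 * f + 7
  k1 : 4200 * (8192 * f) + 3000 * f + 5 ≤ a.k
  l1 : 4200 * (8192 * f) + 3000 * f + 5 ≤ a.l
  k2 : a.k ≤ a.l + 1000 * f
  l2 : a.l ≤ a.k + 1000 * f
  s1 : a.k + 12 * (8192 * f) + 4000 * f ≤ a.σ
  g1 : 2 * a.k + 400 * f ≤ a.g
  g2 : 2 * a.k + 400 * f ≤ a.f
  gs : a.g ≤ a.σ
  fs : a.f ≤ a.σ
  lg : a.g + a.f + 2 * a.k + 1000 * f ≤ 2 ^ (8192 * f)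
  al : Al a i j m
  km : a.k + 1 ≤ m
  lm : a.l + 1 ≤ m
  q1 : m ≤ a.k + 6000 * f
  q2 : m ≤ a.l + 6000 * f

section

variable {a : AP} {f i j m : ℕ} (hs : ShOk a f i j m)

include hs

theorem ShOk.ok : a.Ok := by
  obtain ⟨h1, h2, h3, h4, h5, h6, h7, h8, h9, h10, h11, h12, h13, h14, h15, h16, h17, h18⟩ := hs
  refine ⟨?_, ?_, ?_, ?_, ?_, ?_, ?_, ?_, ?_, ?_⟩
  · omega
  · omega
  · omega
  · omega
  · omega
  · rw [h2]; omega
  · rw [h2]; omega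
  · omega
  · omega
  · rw [h2]; omega

theorem ShOk.sh_ok {r t jj i' : ℕ} (hr : r ≤ 192 * f) (ht : t ≤ 192 * f) (hj1 : 13 ≤ jj) (hj2 : jj ≤ 192 * f + 14) (hi : i' ≤ 1024 * f) :
    (a.sh r t jj i').Ok := by
  obtain ⟨h1, h2, h3, h4, h5, h6, h7, h8, h9, h10, h11, h12, h13, h14, h15, h16, h17, h18⟩ := hs
  refine ⟨?_, ?_, ?_, ?_, ?_, ?_, ?_, ?_, ?_, ?_⟩
  · show 40 ≤ a.w; omega
  · show a.k - i' - r - 5 ≤ a.l - i' - t - 5 + a.w; omega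
  · show a.l - i' - t - 5 ≤ a.k - i' - r - 5 + a.w; omega
  · show a.σ - jj - i' ≤ (a.g + jj - r - 5) + (a.f + jj - t - 5); omega
  · show (a.g + jj - r - 5) + (a.f + jj - t - 5) ≤ a.σ - jj - i' + a.w; omega
  · show 4200 * a.w ≤ a.k - i' - r - 5
    rw [h2]; omega
  · show a.k - i' - r - 5 + 12 * a.w ≤ a.σ - jj - i'
    rw [h2]; omega
  · show 2 * (a.k - i' - r - 5) ≤ a.g + jj - r - 5; omega
  · show 2 * (a.k - i' - r - 5) ≤ a.f + jj - t - 5; omega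
  · show (a.g + jj - r - 5) + (a.f + jj - t - 5) + 2 * (a.k - i' - r - 5) ≤ 2 ^ a.w
    rw [h2]; omega

theorem ShOk.sh_al {r t jj i' : ℕ} (hr : r ≤ 192 * f) (ht : t ≤ 192 * f) (hj1 : 13 ≤ jj) (hj2 : jj ≤ 192 * f + 14) (hi : i' ≤ 1024 * f) :
    Al (a.sh r t jj i') i j m := by
  obtain ⟨h1, h2, h3, h4, h5, h6, h7, h8, h9, h10, h11, h12, h13, h14, h15, h16, h17, h18⟩ := hs
  obtain ⟨b1, b2, b3, b4⟩ := h14
  refine ⟨?_, ?_, ?_, ?_⟩
  · show a.σ - jj - i' + (a.g + jj - r - 5) + 1 = i + (a.k - i' - r - 5); omega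
  · show a.σ - jj - i' + (a.f + jj - t - 5) + 1 = j + (a.l - i' - t - 5); omega
  · show m + 1 ≤ a.k - i' - r - 5 + 6 * a.w; omega
  · show m + 1 ≤ a.l - i' - t - 5 + 6 * a.w; omega

theorem ShOk.sh_f1 {r t jj i' : ℕ} (hr : r ≤ 192 * f) (hj2 : jj ≤ 192 * f + 14) (hi : i' ≤ 1024 * f) :
    (a.sh r t jj i').σ + (a.sh r t jj i').g + 5 ≤ i + m := by
  obtain ⟨h1, h2, h3, h4, h5, h6, h7, h8, h9, h10, h11, h12, h13, h14, h15, h16, h17, h18⟩ := hs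
  obtain ⟨b1, b2, b3, b4⟩ := h14
  show a.σ - jj - i' + (a.g + jj - r - 5) + 5 ≤ i + m
  omega

theorem ShOk.sh_f2 {r t jj i' : ℕ} (ht : t ≤ 192 * f) (hj2 : jj ≤ 192 * f + 14) (hi : i' ≤ 1024 * f) :
    (a.sh r t jj i').σ + (a.sh r t jj i').f + 5 ≤ j + m := by
  obtain ⟨h1, h2, h3, h4, h5, h6, h7, h8, h9, h10, h11, h12, h13, h14, h15, h16, h17, h18⟩ := hs
  obtain ⟨b1, b2, b3, b4⟩ := h14
  show a.σ - jj - i' + (a.f + jj - t - 5) + 5 ≤ j + m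
  omega

theorem ShOk.V : a.V = 1 / 2 ^ (4096 * f + 7) := by
  have h3 := hs.gf
  unfold AP.V AP.d1 AP.d2
  have : (2 : ℝ) ^ a.g * 2 ^ a.f = 2 ^ a.σ * 2 ^ (4096 * f + 7) := by
    rw [← pow_add, ← pow_add, h3]; congr 1
  rw [one_div_mul_one_div, this]; field_simp

theorem ShOk.sh_d1 {r t jj i' : ℕ} (hr : r ≤ 192 * f) : (a.sh r t jj i').d1 = 32 * 2 ^ r * a.d1 / 2 ^ jj := by
  have h := hs.g1
  have h' := hs.k1
  show (1 : ℝ) / 2 ^ (a.g + jj - r - 5) = _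
  unfold AP.d1
  have e : (2 : ℝ) ^ (a.g + jj - r - 5) * (32 * 2 ^ r) = 2 ^ a.g * 2 ^ jj := by
    rw [show (32 : ℝ) = 2 ^ 5 by norm_num, ← pow_add, ← pow_add, ← pow_add]; congr 1; omega
  rw [div_eq_div_iff (by positivity) (by positivity), one_mul]
  field_simp
  linarith

theorem ShOk.sh_d2 {r t jj i' : ℕ} (ht : t ≤ 192 * f) : (a.sh r t jj i').d2 = 32 * 2 ^ t * a.d2 / 2 ^ jj := by
  have h := hs.g2
  have h' := hs.k1
  show (1 : ℝ) / 2 ^ (a.f + jj - t - 5) = _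
  unfold AP.d2
  have e : (2 : ℝ) ^ (a.f + jj - t - 5) * (32 * 2 ^ t) = 2 ^ a.f * 2 ^ jj := by
    rw [show (32 : ℝ) = 2 ^ 5 by norm_num, ← pow_add, ← pow_add, ← pow_add]; congr 1; omega
  rw [div_eq_div_iff (by positivity) (by positivity), one_mul]
  field_simp
  linarith

theorem ShOk.sh_V {r t jj i' : ℕ} (hr : r ≤ 192 * f) (ht : t ≤ 192 * f) (hj2 : jj ≤ 192 * f + 14) (hi : i' ≤ 1024 * f) :
    (a.sh r t jj i').V = a.V * (1024 * 2 ^ (r + t) / 2 ^ (3 * jj)) * (1 / 2 ^ i') := by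
  have h := hs.s1
  have h' := hs.k1
  have h'' := hs.f1
  have e1 : (a.sh r t jj i').V = 2 ^ (a.sh r t jj i').σ * ((a.sh r t jj i').d1 * (a.sh r t jj i').d2) := rfl
  have e2 : (2 : ℝ) ^ (a.sh r t jj i').σ = 2 ^ a.σ / (2 ^ jj * 2 ^ i') := by
    show (2 : ℝ) ^ (a.σ - jj - i') = _
    rw [eq_div_iff (by positivity), ← pow_add, ← pow_add]; congr 1; omega
  rw [e1, e2, hs.sh_d1 hr, hs.sh_d2 ht]
  unfold AP.V
  rw [pow_add, mul_comm 3 jj, pow_mul]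
  field_simp
  ring

end

open Classical in
theorem nret_mono {r1 r2 s1 s2 : ℝ} (h1 : r1 ≤ s1) (h2 : r2 ≤ s2) {N N' : ℕ} (hN : N ≤ N') (x : TT × TT) : nret r1 r2 N x ≤ nret s1 s2 N' x := by
  unfold nret
  calc ∑ d ∈ Finset.Icc 1 N, (if x ∈ RetS r1 r2 d then (1 : ℝ) else 0) ≤ ∑ d ∈ Finset.Icc 1 N, (if x ∈ RetS s1 s2 d then (1 : ℝ) else 0) := by
        apply Finset.sum_le_sum; intro d _
        by_cases hc : x ∈ RetS r1 r2 d
        · have : x ∈ RetS s1 s2 d := ⟨hc.1.trans h1, hc.2.trans h2⟩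
          rw [if_pos hc, if_pos this]
        · rw [if_neg hc]; split_ifs <;> norm_num
    _ ≤ _ := by
        apply Finset.sum_le_sum_of_subset_of_nonneg (Finset.Icc_subset_Icc le_rfl hN)
        intro d _ _; split_ifs <;> norm_num

open Classical in
theorem one_le_nret {r1 r2 : ℝ} {N d : ℕ} (hd : 1 ≤ d) (hN : d ≤ N) {x : TT × TT} (hx : x ∈ RetS r1 r2 d) : 1 ≤ nret r1 r2 N x := by
  unfold nret
  have := Finset.single_le_sum (f := fun d => if x ∈ RetS r1 r2 d then (1 : ℝ) else 0) (fun d _ => by split_ifs <;> norm_num)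
    (Finset.mem_Icc.mpr ⟨hd, hN⟩)
  rw [if_pos hx] at this
  exact this

open Classical in
theorem one_le_nrel {B1 B2 : ℕ} {τ : ℝ} {m : ℤ × ℤ} (hm : m ∈ mbox B1 B2) {x : TT × TT} (hx : ‖dm m x‖ ≤ τ) : 1 ≤ nrel B1 B2 τ x := by
  unfold nrel
  have := Finset.single_le_sum (f := fun m => if ‖dm m x‖ ≤ τ then (1 : ℝ) else 0) (fun d _ => by split_ifs <;> norm_num) hm
  rw [if_pos hx] at this
  exact this

theorem nt_cases {a : AP} {f i j m : ℕ} (hs : ShOk a f i j m) {r t jj : ℕ} (hr : r ≤ 192 * f) (ht : t ≤ 192 * f) (hj1 : 13 ≤ jj)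
    {z : ℝ × ℝ} (hn : (2 : ℝ) ^ jj < nret (5 * 2 ^ r * a.d1) (5 * 2 ^ t * a.d2) (2 * 2 ^ a.σ) (pt z)) (hj2 : jj ≤ 192 * f + 14) :
    (2 : ℝ) ^ (128 * f + 2) ≤ Phi a f (pt z) ∨ ∃ i', i' ≤ 1024 * f ∧ win (a.sh r t jj i') z := by
  have hd1 := d1_pos (a := a)
  have hd2 := d2_pos (a := a)
  have hrr : (2 : ℝ) ^ r ≤ 2 ^ (192 * f) := pow_le_pow_right₀ (by norm_num) hr
  have htt : (2 : ℝ) ^ t ≤ 2 ^ (192 * f) := pow_le_pow_right₀ (by norm_num) ht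
  have hk1 := hs.k1
  have hs1 := hs.s1
  have hf1 := hs.f1
  have hphi : ∀ c : ℝ, 1 ≤ nrel (20 * 2 ^ (a.σ + 192 * f - a.f)) (20 * 2 ^ (a.σ + 192 * f - a.g)) (2 * (5 * 2 ^ (192 * f) * a.d1) * (5 * 2 ^ (192 * f) * a.d2)) (pt z) +
      nret (5 * 2 ^ (192 * f) * a.d1) (5 * 2 ^ (192 * f) * a.d2) (2 ^ (a.σ - 1024 * f)) (pt z) → (2 : ℝ) ^ (128 * f + 2) ≤ Phi a f (pt z) := by
    intro _ h1
    unfold Phi
    have h2 : 0 ≤ nret (5 * a.d1) (5 * a.d2) (2 * 2 ^ a.σ) (pt z) ^ 2 / 2 ^ (128 * f) := by positivity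
    have h3 : (2 : ℝ) ^ (128 * f + 2) * 1 ≤ 2 ^ (128 * f + 2) * (nrel (20 * 2 ^ (a.σ + 192 * f - a.f)) (20 * 2 ^ (a.σ + 192 * f - a.g)) (2 * (5 * 2 ^ (192 * f) * a.d1) * (5 * 2 ^ (192 * f) * a.d2)) (pt z) +
      nret (5 * 2 ^ (192 * f) * a.d1) (5 * 2 ^ (192 * f) * a.d2) (2 ^ (a.σ - 1024 * f)) (pt z)) := by gcongr
    linarith
  have hg := geo (x := pt z) (r1 := 5 * 2 ^ r * a.d1) (r2 := 5 * 2 ^ t * a.d2) (N := 2 * 2 ^ a.σ) (J := 2 ^ jj) Nat.one_le_two_pow (by push_cast; exact hn)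
  rcases hg with ⟨M, hM0, hM1, hM2, hM3⟩ | ⟨d, hd, hdJ, hret⟩
  · left
    apply hphi 0
    have h5 := nret_nonneg (5 * 2 ^ (192 * f) * a.d1) (5 * 2 ^ (192 * f) * a.d2) (2 ^ (a.σ - 1024 * f)) (pt z)
    have q1 : (20 : ℝ) * 2 ^ (a.σ + 192 * f - a.f) = 20 * (2 ^ a.σ * 2 ^ (192 * f) * a.d2) := by
      have h6 := hs.fs
      have : (2 : ℝ) ^ (a.σ + 192 * f - a.f) * 2 ^ a.f = 2 ^ a.σ * 2 ^ (192 * f) := by
        rw [← pow_add, ← pow_add]; congr 1; omega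
      unfold AP.d2
      rw [mul_one_div, ← this]; field_simp
    have q2 : (20 : ℝ) * 2 ^ (a.σ + 192 * f - a.g) = 20 * (2 ^ a.σ * 2 ^ (192 * f) * a.d1) := by
      have h6 := hs.gs
      have : (2 : ℝ) ^ (a.σ + 192 * f - a.g) * 2 ^ a.g = 2 ^ a.σ * 2 ^ (192 * f) := by
        rw [← pow_add, ← pow_add]; congr 1; omega
      unfold AP.d1
      rw [mul_one_div, ← this]; field_simp
    have b1 : |(M.1 : ℝ)| ≤ ((20 * 2 ^ (a.σ + 192 * f - a.f) : ℕ) : ℝ) := by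
      push_cast
      rw [q1]
      push_cast at hM1
      calc |(M.1 : ℝ)| ≤ 2 * (2 * 2 ^ a.σ) * (5 * 2 ^ t * a.d2) := hM1
        _ = 20 * (2 ^ a.σ * 2 ^ t * a.d2) := by ring
        _ ≤ _ := by gcongr
    have b2 : |(M.2 : ℝ)| ≤ ((20 * 2 ^ (a.σ + 192 * f - a.g) : ℕ) : ℝ) := by
      push_cast
      rw [q2]
      push_cast at hM2
      calc |(M.2 : ℝ)| ≤ 2 * (2 * 2 ^ a.σ) * (5 * 2 ^ r * a.d1) := hM2
        _ = 20 * (2 ^ a.σ * 2 ^ r * a.d1) := by ring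
        _ ≤ _ := by gcongr
    have b1' : |M.1| ≤ ((20 * 2 ^ (a.σ + 192 * f - a.f) : ℕ) : ℤ) := by
      have : ((|M.1| : ℤ) : ℝ) ≤ (((20 * 2 ^ (a.σ + 192 * f - a.f) : ℕ) : ℤ) : ℝ) := by rw [Int.cast_abs]; exact_mod_cast b1
      exact_mod_cast this
    have b2' : |M.2| ≤ ((20 * 2 ^ (a.σ + 192 * f - a.g) : ℕ) : ℤ) := by
      have : ((|M.2| : ℤ) : ℝ) ≤ (((20 * 2 ^ (a.σ + 192 * f - a.g) : ℕ) : ℤ) : ℝ) := by rw [Int.cast_abs]; exact_mod_cast b2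
      exact_mod_cast this
    have hmem : M ∈ mbox (20 * 2 ^ (a.σ + 192 * f - a.f)) (20 * 2 ^ (a.σ + 192 * f - a.g)) := by
      unfold mbox
      rw [Finset.mem_filter, Finset.mem_product, Finset.mem_Icc, Finset.mem_Icc]
      rw [abs_le] at b1' b2'
      exact ⟨⟨b1', b2'⟩, hM0⟩
    have hτ : ‖dm M (pt z)‖ ≤ 2 * (5 * 2 ^ (192 * f) * a.d1) * (5 * 2 ^ (192 * f) * a.d2) := by
      refine hM3.trans ?_
      gcongr
    have := one_le_nrel hmem hτ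
    linarith
  · by_cases hsm : d ≤ 2 ^ (a.σ - 1024 * f)
    · left
      apply hphi 0
      have h5 := nrel_nonneg (20 * 2 ^ (a.σ + 192 * f - a.f)) (20 * 2 ^ (a.σ + 192 * f - a.g)) (2 * (5 * 2 ^ (192 * f) * a.d1) * (5 * 2 ^ (192 * f) * a.d2)) (pt z)
      have hJ1 : (1 : ℝ) ≤ ((2 ^ jj : ℕ) : ℝ) := by push_cast; exact one_le_pow₀ (by norm_num)
      have hret' : pt z ∈ RetS (5 * 2 ^ (192 * f) * a.d1) (5 * 2 ^ (192 * f) * a.d2) d := by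
        obtain ⟨p1, p2⟩ := hret
        constructor
        · refine p1.trans ?_
          calc 5 * 2 ^ r * a.d1 / ((2 ^ jj : ℕ) : ℝ) ≤ 5 * 2 ^ r * a.d1 := div_le_self (by positivity) hJ1
            _ ≤ _ := by gcongr
        · refine p2.trans ?_
          calc 5 * 2 ^ t * a.d2 / ((2 ^ jj : ℕ) : ℝ) ≤ 5 * 2 ^ t * a.d2 := div_le_self (by positivity) hJ1
            _ ≤ _ := by gcongr
      have := one_le_nret hd hsm hret'
      linarith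
    · right
      push Not at hsm
      have hex : ∃ i', 5 * 2 ^ (a.σ - jj - i') ≤ 4 * d := by
        refine ⟨1024 * f, ?_⟩
        have e : 2 ^ (a.σ - 1024 * f) = 2 ^ (a.σ - jj - 1024 * f) * 2 ^ jj := by
          rw [← pow_add]; congr 1; omega
        have e2 : 2 ^ 13 ≤ 2 ^ jj := Nat.pow_le_pow_right (by norm_num) hj1
        rw [e] at hsm
        have : 2 ^ (a.σ - jj - 1024 * f) * 2 ^ 13 ≤ 2 ^ (a.σ - jj - 1024 * f) * 2 ^ jj := Nat.mul_le_mul_left _ e2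
        omega
      classical
      obtain ⟨i0, hi0, hmin⟩ : ∃ i0, 5 * 2 ^ (a.σ - jj - i0) ≤ 4 * d ∧ ∀ i1, i1 < i0 → ¬ 5 * 2 ^ (a.σ - jj - i1) ≤ 4 * d :=
        ⟨Nat.find hex, Nat.find_spec hex, fun i1 hi1 => Nat.find_min hex hi1⟩
      have hi0f : i0 ≤ 1024 * f := by
        by_contra hc
        push Not at hc
        apply hmin (1024 * f) hc
        have e : 2 ^ (a.σ - 1024 * f) = 2 ^ (a.σ - jj - 1024 * f) * 2 ^ jj := by
          rw [← pow_add]; congr 1; omega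
        have e2 : 2 ^ 13 ≤ 2 ^ jj := Nat.pow_le_pow_right (by norm_num) hj1
        rw [e] at hsm
        have : 2 ^ (a.σ - jj - 1024 * f) * 2 ^ 13 ≤ 2 ^ (a.σ - jj - 1024 * f) * 2 ^ jj := Nat.mul_le_mul_left _ e2
        omega
      refine ⟨i0, hi0f, d, hi0, ?_, ?_⟩
      · show 4 * d ≤ 11 * 2 ^ (a.σ - jj - i0)
        rcases Nat.eq_zero_or_pos i0 with h0 | h0
        · rw [h0, Nat.sub_zero]
          have e : 2 * 2 ^ a.σ = 2 * 2 ^ (a.σ - jj) * 2 ^ jj := by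
            rw [mul_assoc, ← pow_add]; congr 2; omega
          rw [e] at hdJ
          have := Nat.lt_of_mul_lt_mul_right hdJ
          omega
        · have h1 := hmin (i0 - 1) (by omega)
          have e : 2 ^ (a.σ - jj - (i0 - 1)) = 2 * 2 ^ (a.σ - jj - i0) := by
            rw [← pow_succ']; congr 1; omega
          rw [e] at h1
          omega
      · obtain ⟨p1, p2⟩ := hret
        constructor
        · refine p1.trans (le_of_eq ?_)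
          rw [hs.sh_d1 hr]; push_cast; ring
        · refine p2.trans (le_of_eq ?_)
          rw [hs.sh_d2 ht]; push_cast; ring

end Run7.h297
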