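import Pool.Agent.Run7.h297.NTm

set_option autoImplicit false

/-! Mixing towards tame points: the final estimate. -/

noncomputable section

namespace Run7.h297

open Real Finset MeasureTheory

/-- tame points -/
def tame (a : AP) (f : ℕ) (p : TT × TT) : Prop :=
  ∀ r t, r ≤ 192 * f → t ≤ 192 * f → nret (5 * 2 ^ r * a.d1) (5 * 2 ^ t * a.d2) (2 * 2 ^ a.σ) p ≤ 2 ^ (13 + (r + t + 1) / 2)

/-- generic points for a shape -/
structure GS (a : AP) (f : ℕ) (p : TT × TT) : Prop where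
  g : Gen3 a p
  F : a.Far p < 1 / (4 * (2 ^ a.w) ^ 3)
  P : (1 / ((a.N1 : ℝ) * a.N2)) * ∑ u ∈ range a.N1, ∑ v ∈ range a.N2, Phi a f (p + a.gp u v) < a.V / 2 ^ (2 * f + 6)
  W : ∀ r t jj i', r ≤ 192 * f → t ≤ 192 * f → 13 ≤ jj → jj ≤ 192 * f + 14 → i' ≤ 1024 * f →
    Gen3 (a.sh r t jj i') p ∧ (a.sh r t jj i').Far p < 1 / (4 * (2 ^ a.w) ^ 3)

open Classical in
/-- indicator of a return window over an atom -/
def wi (b : AP) (i j m c1 c2 x y : ℕ) : ℝ :=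
  if ∃ z : ℝ × ℝ, (0 ≤ z.1 ∧ 0 ≤ z.2) ∧ (dig (i + m) z.1 = c1 * 2 ^ m + x ∧ dig (j + m) z.2 = c2 * 2 ^ m + y) ∧ win b z then 1 else 0

theorem wi_nonneg (b : AP) (i j m c1 c2 x y : ℕ) : 0 ≤ wi b i j m c1 c2 x y := by
  unfold wi; split_ifs <;> norm_num

/-- index set of the windows of the first kind -/
def K1 (f : ℕ) : Finset ((ℕ × ℕ) × ℕ) := (range (192 * f + 1) ×ˢ range (192 * f + 1)) ×ˢ range (1024 * f + 1)

/-- index set of the windows of the second kind -/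
def K2 (f : ℕ) : Finset (ℕ × ℕ) := Finset.Ico 13 (128 * f) ×ˢ range (1024 * f + 1)

/-- windows of the first kind -/
def A1 (a : AP) (k : (ℕ × ℕ) × ℕ) : AP := a.sh k.1.1 k.1.2 (13 + (k.1.1 + k.1.2 + 1) / 2) k.2

/-- windows of the second kind -/
def A2 (a : AP) (k : ℕ × ℕ) : AP := a.sh 0 0 k.1 k.2

section

variable {a : AP} {f i j m : ℕ} (hs : ShOk a f i j m) {c1 c2 x y : ℕ} {z : ℝ × ℝ} (z0 : 0 ≤ z.1 ∧ 0 ≤ z.2)
  (zd : dig (i + m) z.1 = c1 * 2 ^ m + x ∧ dig (j + m) z.2 = c2 * 2 ^ m + y)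

include hs z0 zd in
theorem pointwise (hnt : ¬ tame a f (pt z)) (γ : TT × TT) :
    SS (2 ^ a.σ) a.d1 a.d2 (2 * 2 ^ a.σ) (pt z) γ ≤ Phi a f (pt z) + (1 + 2 ^ 13) * ∑ k ∈ K1 f, wi (A1 a k) i j m c1 c2 x y +
      ∑ k ∈ K2 f, 2 ^ (k.1 + 1) * wi (A2 a k) i j m c1 c2 x y := by
  have hf := hs.f1
  have hd1 := d1_pos (a := a)
  have hd2 := d2_pos (a := a)
  have hwin : ∀ b : AP, win b z → wi b i j m c1 c2 x y = 1 := by
    intro b hb
    unfold wi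
    rw [if_pos ⟨z, z0, zd, hb⟩]
  set n0 := nret (5 * a.d1) (5 * a.d2) (2 * 2 ^ a.σ) (pt z) with hn0
  have hn00 : 0 ≤ n0 := nret_nonneg _ _ _ _
  have hSS : SS (2 ^ a.σ) a.d1 a.d2 (2 * 2 ^ a.σ) (pt z) γ ≤ 1 + n0 := by
    have h1 := SS_le_nret (Q := 2 ^ a.σ) (N := 2 * 2 ^ a.σ) (by positivity) (Nat.le_mul_of_pos_left _ (by norm_num)) hd1 hd2 (2 * 2 ^ a.σ) (pt z) γ
    have h2 := nret_mono (show 2 * a.d1 ≤ 5 * a.d1 by linarith) (show 2 * a.d2 ≤ 5 * a.d2 by linarith) (le_refl (2 * 2 ^ a.σ)) (pt z)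
    linarith
  set S1 := ∑ k ∈ K1 f, wi (A1 a k) i j m c1 c2 x y with hS1
  set S2 := ∑ k ∈ K2 f, 2 ^ (k.1 + 1) * wi (A2 a k) i j m c1 c2 x y with hS2
  have hS10 : 0 ≤ S1 := Finset.sum_nonneg (fun k _ => wi_nonneg _ _ _ _ _ _ _ _)
  have hS20 : 0 ≤ S2 := Finset.sum_nonneg (fun k _ => mul_nonneg (by positivity) (wi_nonneg _ _ _ _ _ _ _ _))
  have hPhi0 := Phi_nonneg a f (pt z)
  have hPhi1 : n0 ^ 2 / 2 ^ (128 * f) ≤ Phi a f (pt z) := by
    unfold Phi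
    rw [← hn0]
    have h1 := nrel_nonneg (20 * 2 ^ (a.σ + 192 * f - a.f)) (20 * 2 ^ (a.σ + 192 * f - a.g)) (2 * (5 * 2 ^ (192 * f) * a.d1) * (5 * 2 ^ (192 * f) * a.d2)) (pt z)
    have h2 := nret_nonneg (5 * 2 ^ (192 * f) * a.d1) (5 * 2 ^ (192 * f) * a.d2) (2 ^ (a.σ - 1024 * f)) (pt z)
    have h3 : 0 ≤ (2 : ℝ) ^ (128 * f + 2) * (nrel (20 * 2 ^ (a.σ + 192 * f - a.f)) (20 * 2 ^ (a.σ + 192 * f - a.g)) (2 * (5 * 2 ^ (192 * f) * a.d1) * (5 * 2 ^ (192 * f) * a.d2)) (pt z) +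
      nret (5 * 2 ^ (192 * f) * a.d1) (5 * 2 ^ (192 * f) * a.d2) (2 ^ (a.σ - 1024 * f)) (pt z)) := by positivity
    linarith
  obtain ⟨B, hB⟩ : ∃ B : ℝ, B = 2 ^ (128 * f) := ⟨_, rfl⟩
  have hB1 : 1 ≤ B := by rw [hB]; exact one_le_pow₀ (by norm_num)
  have hB0 : 0 < B := by linarith
  have hB4 : (2 : ℝ) ^ (128 * f + 2) = 4 * B := by rw [hB, pow_add]; ring
  by_cases hP : (2 : ℝ) ^ (128 * f + 2) ≤ Phi a f (pt z)
  · have h13 : 0 ≤ (1 + 2 ^ 13 : ℝ) * S1 := by positivity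
    rcases le_total n0 (2 * B) with hc | hc
    · rw [hB4] at hP; linarith
    · rw [← hB] at hPhi1
      have h5 : 2 * n0 ≤ n0 ^ 2 / B := by
        rw [le_div_iff₀ hB0]; nlinarith
      linarith
  · -- windows
    have hw1 : ∀ r t, r ≤ 192 * f → t ≤ 192 * f → (2 : ℝ) ^ (13 + (r + t + 1) / 2) < nret (5 * 2 ^ r * a.d1) (5 * 2 ^ t * a.d2) (2 * 2 ^ a.σ) (pt z) → 1 ≤ S1 := by
      intro r t hr ht hn
      rcases nt_cases hs hr ht (by omega) hn (by omega) with h1 | ⟨i', hi', h1⟩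
      · exact absurd h1 hP
      · have hmem : ((r, t), i') ∈ K1 f := by
          unfold K1
          rw [Finset.mem_product, Finset.mem_product, Finset.mem_range, Finset.mem_range, Finset.mem_range]
          exact ⟨⟨by show r < _; omega, by show t < _; omega⟩, by show i' < _; omega⟩
        have h2 := Finset.single_le_sum (f := fun k => wi (A1 a k) i j m c1 c2 x y) (fun k _ => wi_nonneg _ _ _ _ _ _ _ _) hmem
        have h3 := hwin (A1 a ((r, t), i')) h1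
        rw [h3] at h2
        exact h2
    have hw2 : ∀ jj, 13 ≤ jj → jj < 128 * f → (2 : ℝ) ^ jj < n0 → 2 ^ (jj + 1) ≤ S2 := by
      intro jj hj1 hj2 hn
      rcases nt_cases hs (r := 0) (t := 0) (z := z) (Nat.zero_le _) (Nat.zero_le _) hj1 (by simp only [pow_zero, mul_one]; exact hn) (by omega) with h1 | ⟨i', hi', h1⟩
      · exact absurd h1 hP
      · have hmem : (jj, i') ∈ K2 f := by
          unfold K2
          rw [Finset.mem_product, Finset.mem_Ico, Finset.mem_range]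
          exact ⟨⟨hj1, hj2⟩, by show i' < _; omega⟩
        have h2 := Finset.single_le_sum (f := fun k : ℕ × ℕ => (2 : ℝ) ^ (k.1 + 1) * wi (A2 a k) i j m c1 c2 x y)
          (fun k _ => mul_nonneg (by positivity) (wi_nonneg _ _ _ _ _ _ _ _)) hmem
        have h3 := hwin (A2 a (jj, i')) h1
        dsimp only at h2
        rw [h3, mul_one] at h2
        exact h2
    by_cases hc1 : n0 ≤ 2 ^ 13
    · have h1 : 1 ≤ S1 := by
        unfold tame at hnt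
        push Not at hnt
        obtain ⟨r, t, hr, ht, hn⟩ := hnt
        exact hw1 r t hr ht hn
      have : (1 + 2 ^ 13 : ℝ) * 1 ≤ (1 + 2 ^ 13) * S1 := by gcongr
      linarith
    · push Not at hc1
      have h1 : 1 ≤ S1 := by
        apply hw1 0 0 (Nat.zero_le _) (Nat.zero_le _)
        have h13 : 13 + (0 + 0 + 1) / 2 = 13 := rfl
        rw [h13]
        simp only [pow_zero, mul_one]
        exact hc1
      have h11 : (1 + 2 ^ 13 : ℝ) * 1 ≤ (1 + 2 ^ 13) * S1 := by gcongr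
      by_cases hc2 : n0 ≤ B
      · classical
        have hex : ∃ q : ℕ, n0 ≤ 2 ^ q := ⟨128 * f, by rw [← hB]; exact hc2⟩
        have hspec := Nat.find_spec hex
        have hle : Nat.find hex ≤ 128 * f := Nat.find_min' hex (by rw [← hB]; exact hc2)
        have hgt : 13 < Nat.find hex := by
          by_contra hcon
          push Not at hcon
          have : (2 : ℝ) ^ (Nat.find hex) ≤ 2 ^ 13 := pow_le_pow_right₀ (by norm_num) hcon
          linarith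
        have hmin : ¬ n0 ≤ 2 ^ (Nat.find hex - 1) := Nat.find_min hex (by omega)
        push Not at hmin
        have h6 := hw2 (Nat.find hex - 1) (by omega) (by omega) hmin
        have h7 : Nat.find hex - 1 + 1 = Nat.find hex := by omega
        rw [h7] at h6
        linarith
      · push Not at hc2
        rw [← hB] at hPhi1
        have h5 : n0 ≤ n0 ^ 2 / B := by
          rw [le_div_iff₀ hB0]; nlinarith
        linarith

end

open Classical in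
/-- atoms with a tame hit -/
def Hs (a : AP) (f i j m c1 c2 : ℕ) (γ : TT × TT) (x y : ℕ) : Prop :=
  ∃ z : ℝ × ℝ, (0 ≤ z.1 ∧ 0 ≤ z.2) ∧ (dig (i + m) z.1 = c1 * 2 ^ m + x ∧ dig (j + m) z.2 = c2 * 2 ^ m + y) ∧
    SS (2 ^ a.σ) a.d1 a.d2 (2 * 2 ^ a.σ) (pt z) γ ≠ 0 ∧ tame a f (pt z)

theorem geo_34 (n : ℕ) : ∑ r ∈ range n, (3 / 4 : ℝ) ^ r ≤ 4 := by
  have h := geom_sum_eq (show (3 / 4 : ℝ) ≠ 1 by norm_num) n
  rw [h]
  have : (0 : ℝ) < (3 / 4) ^ n := by positivity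
  rw [div_le_iff_of_neg (by norm_num)]
  linarith

theorem two_34 (n : ℕ) : (2 : ℝ) ^ n / 2 ^ (3 * ((n + 1) / 2)) ≤ (3 / 4) ^ n := by
  obtain ⟨c, hc⟩ : ∃ c, c = (n + 1) / 2 := ⟨_, rfl⟩
  rw [← hc]
  have hn : n ≤ 2 * c := by omega
  calc (2 : ℝ) ^ n / 2 ^ (3 * c) ≤ 2 ^ (2 * c) / 2 ^ (3 * c) := by
        gcongr; norm_num
    _ = (1 / 2) ^ c := by
        rw [div_pow, one_pow, div_eq_div_iff (by positivity) (by positivity), ← pow_add, one_mul]; congr 1; ring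
    _ ≤ ((3 / 4) ^ 2) ^ c := by
        apply pow_le_pow_left₀ (by norm_num); norm_num
    _ = (3 / 4) ^ (2 * c) := by rw [← pow_mul]
    _ ≤ (3 / 4) ^ n := pow_le_pow_of_le_one (by norm_num) (by norm_num) hn

theorem sum_quarter (n : ℕ) : ∑ jj ∈ Finset.Ico 13 n, (2 : ℝ) ^ (jj + 1) / 2 ^ (3 * jj) ≤ 1 / 2 ^ 24 := by
  have h1 : ∀ n : ℕ, ∑ jj ∈ Finset.Ico 13 (13 + n), (2 : ℝ) ^ (jj + 1) / 2 ^ (3 * jj) ≤ 1 / 2 ^ 24 - (1 / 2 ^ 24) * (1 / 4) ^ n := by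
    intro n
    induction n with
    | zero => simp
    | succ n ih =>
      rw [← add_assoc, Finset.sum_Ico_succ_top (by omega)]
      have e : (2 : ℝ) ^ (13 + n + 1) / 2 ^ (3 * (13 + n)) = (1 / 2 ^ 25) * (1 / 4) ^ n := by
        rw [show 13 + n + 1 = 14 + n by ring, show 3 * (13 + n) = 39 + (n + 2 * n) by ring, pow_add, pow_add, pow_add, pow_mul 2 2 n, div_pow, one_pow]
        field_simp; norm_num
      rw [e, pow_succ (1 / 4 : ℝ) n]
      have : (0 : ℝ) < (1 / 4) ^ n := by positivity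
      linarith
  rcases le_total 13 n with h | h
  · obtain ⟨k, rfl⟩ := Nat.exists_eq_add_of_le h
    have := h1 k
    have h2 : (0 : ℝ) ≤ (1 / 2 ^ 24) * (1 / 4) ^ k := by positivity
    linarith
  · rw [Finset.Ico_eq_empty (by omega), Finset.sum_empty]; positivity

section

variable {a : AP} {f i j m : ℕ} (hs : ShOk a f i j m) {X : ℝ × ℝ} {c1 c2 : ℕ} (hnd : Nd i j X c1 c2)
  {T : ℝ} {μ ν : ℕ → ℝ} (hμ : Lw m T μ) (hν : Lw m T ν)

theorem swap1 {ι : Type*} (K : Finset ι) (A : ℕ) (μ ν : ℕ → ℝ) (c : ι → ℝ) (G : ι → ℕ → ℕ → ℝ) :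
    ∑ x ∈ range A, ∑ y ∈ range A, μ x * ν y * (∑ k ∈ K, c k * G k x y) = ∑ k ∈ K, c k * ∑ x ∈ range A, ∑ y ∈ range A, μ x * ν y * G k x y := by
  simp_rw [Finset.mul_sum]
  rw [Finset.sum_comm' (s := K) (t := fun _ => range A) (t' := range A) (s' := fun _ => K) (by intro x y; tauto)]
  apply Finset.sum_congr rfl; intro x _
  rw [Finset.sum_comm]
  apply Finset.sum_congr rfl; intro k _
  apply Finset.sum_congr rfl; intro y _
  ring

include hs hnd hμ hν in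
open Classical in
theorem mix_tame (hG : GS a f (pt X)) (hT0 : 0 ≤ T) (hT : T ≤ 2 ^ f) (γ : TT × TT) :
    a.V / (4 * (1 + 2 ^ 13)) ≤ ∑ x ∈ range (2 ^ m), ∑ y ∈ range (2 ^ m), μ x * ν y * (if Hs a f i j m c1 c2 γ x y then 1 else 0) := by
  have hf := hs.f1
  have hok := hs.ok
  have hal := hs.al
  have hVe := hs.V
  have hV0 : 0 < a.V := by rw [hVe]; positivity
  have hTw : 2 * T ≤ 2 ^ a.w := by
    rw [hs.w]
    have : (2 : ℝ) ^ (f + 1) ≤ 2 ^ (8192 * f) := pow_le_pow_right₀ (by norm_num) (by omega)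
    rw [pow_succ] at this
    linarith
  obtain ⟨u0, v0, hb⟩ := hal.blk hnd
  have hmix := law_mix hok hal hb hμ hν hG.g hG.F hTw γ
  have h1 := (abs_le.mp hmix).1
  set s1 := spread (2 ^ m) (2 ^ a.W1 m) u0 μ with hs1
  set s2 := spread (2 ^ m) (2 ^ a.W2 m) v0 ν with hs2
  have p1 : ∀ u, 0 ≤ s1 u := fun u => spread_nonneg hμ.h0 u
  have p2 : ∀ u, 0 ≤ s2 u := fun u => spread_nonneg hν.h0 u
  have n1' : (0 : ℝ) < a.N1 := by unfold AP.N1; positivity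
  have n2' : (0 : ℝ) < a.N2 := by unfold AP.N2; positivity
  obtain ⟨Fc, hFc⟩ : ∃ Fc : ℕ → ℕ → ℝ, Fc = fun x y => (1 + 2 ^ 13) * (if Hs a f i j m c1 c2 γ x y then 1 else 0) +
      ∑ k ∈ K1 f, (1 + 2 ^ 13) * wi (A1 a k) i j m c1 c2 x y + ∑ k ∈ K2 f, 2 ^ (k.1 + 1) * wi (A2 a k) i j m c1 c2 x y := ⟨_, rfl⟩
  have hpt : ∀ u ∈ range a.N1, ∀ v ∈ range a.N2, s1 u * s2 v * SS (2 ^ a.σ) a.d1 a.d2 (2 * 2 ^ a.σ) (pt X + a.gp u v) γ ≤
      s1 u * s2 v * Fc ((u - u0) / 2 ^ a.W1 m) ((v - v0) / 2 ^ a.W2 m) + (2 * T / a.N1) * (2 * T / a.N2) * Phi a f (pt X + a.gp u v) := by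
    intro u _ v _
    have hPhi := Phi_nonneg a f (pt X + a.gp u v)
    have q1 : s1 u ≤ 2 * T / a.N1 := spread1_le hal hμ u
    have q2 : s2 v ≤ 2 * T / a.N2 := spread2_le hal hν v
    have q3 : s1 u * s2 v ≤ (2 * T / a.N1) * (2 * T / a.N2) := mul_le_mul q1 q2 (p2 v) (by positivity)
    have q4 : s1 u * s2 v * Phi a f (pt X + a.gp u v) ≤ (2 * T / a.N1) * (2 * T / a.N2) * Phi a f (pt X + a.gp u v) :=
      mul_le_mul_of_nonneg_right q3 hPhi
    have q5 : 0 ≤ (2 * T / a.N1) * (2 * T / a.N2) * Phi a f (pt X + a.gp u v) := by positivity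
    by_cases cu : u0 ≤ u ∧ u < u0 + 2 ^ m * 2 ^ a.W1 m
    · by_cases cv : v0 ≤ v ∧ v < v0 + 2 ^ m * 2 ^ a.W2 m
      · obtain ⟨g1, g2⟩ := hb.hx u v cu.1 cu.2
        obtain ⟨g3, g4⟩ := hb.hy u v cv.1 cv.2
        have hs0 : 0 ≤ s1 u * s2 v := mul_nonneg (p1 u) (p2 v)
        have key : SS (2 ^ a.σ) a.d1 a.d2 (2 * 2 ^ a.σ) (pt X + a.gp u v) γ ≤ Fc ((u - u0) / 2 ^ a.W1 m) ((v - v0) / 2 ^ a.W2 m) + Phi a f (pt X + a.gp u v) := by
          rw [← pt_gx, hFc]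
          have r1 : 0 ≤ ∑ k ∈ K1 f, (1 + 2 ^ 13) * wi (A1 a k) i j m c1 c2 ((u - u0) / 2 ^ a.W1 m) ((v - v0) / 2 ^ a.W2 m) :=
            Finset.sum_nonneg (fun k _ => mul_nonneg (by norm_num) (wi_nonneg _ _ _ _ _ _ _ _))
          have r2 : 0 ≤ ∑ k ∈ K2 f, 2 ^ (k.1 + 1) * wi (A2 a k) i j m c1 c2 ((u - u0) / 2 ^ a.W1 m) ((v - v0) / 2 ^ a.W2 m) :=
            Finset.sum_nonneg (fun k _ => mul_nonneg (by positivity) (wi_nonneg _ _ _ _ _ _ _ _))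
          have r3 := Phi_nonneg a f (pt (a.gx X u v))
          dsimp only
          by_cases ht : tame a f (pt (a.gx X u v))
          · by_cases hz : SS (2 ^ a.σ) a.d1 a.d2 (2 * 2 ^ a.σ) (pt (a.gx X u v)) γ = 0
            · rw [hz]
              have r4 : (0 : ℝ) ≤ (1 + 2 ^ 13) * (if Hs a f i j m c1 c2 γ ((u - u0) / 2 ^ a.W1 m) ((v - v0) / 2 ^ a.W2 m) then 1 else 0) := by
                split_ifs <;> norm_num
              linarith
            · have hH : Hs a f i j m c1 c2 γ ((u - u0) / 2 ^ a.W1 m) ((v - v0) / 2 ^ a.W2 m) :=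
                ⟨a.gx X u v, ⟨g2, g4⟩, ⟨g1, g3⟩, hz, ht⟩
              rw [if_pos hH, mul_one]
              have hd1 := d1_pos (a := a)
              have hd2 := d2_pos (a := a)
              have t1 := SS_le_nret (Q := 2 ^ a.σ) (N := 2 * 2 ^ a.σ) (by positivity) (Nat.le_mul_of_pos_left _ (by norm_num)) hd1 hd2 (2 * 2 ^ a.σ) (pt (a.gx X u v)) γ
              have t2 := nret_mono (show 2 * a.d1 ≤ 5 * a.d1 by linarith) (show 2 * a.d2 ≤ 5 * a.d2 by linarith) (le_refl (2 * 2 ^ a.σ)) (pt (a.gx X u v))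
              have t3 := ht 0 0 (Nat.zero_le _) (Nat.zero_le _)
              simp only [pow_zero, mul_one] at t3
              have t4 : (2 : ℝ) ^ (13 + (0 + 0 + 1) / 2) = 2 ^ 13 := by norm_num
              rw [t4] at t3
              linarith
          · have t5 := pointwise hs ⟨g2, g4⟩ ⟨g1, g3⟩ ht γ
            rw [Finset.mul_sum] at t5
            have r4 : (0 : ℝ) ≤ (1 + 2 ^ 13) * (if Hs a f i j m c1 c2 γ ((u - u0) / 2 ^ a.W1 m) ((v - v0) / 2 ^ a.W2 m) then 1 else 0) := by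
              split_ifs <;> norm_num
            linarith
        have := mul_le_mul_of_nonneg_left key hs0
        rw [mul_add] at this
        linarith
      · have : s2 v = 0 := by rw [hs2]; unfold spread; rw [if_neg cv]
        rw [this]; simp only [mul_zero, zero_mul, zero_add]; exact q5
    · have : s1 u = 0 := by rw [hs1]; unfold spread; rw [if_neg cu]
      rw [this]; simp only [zero_mul, zero_add]; exact q5
  have hsum := Finset.sum_le_sum (fun u hu => Finset.sum_le_sum (fun v hv => hpt u hu v hv))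
  simp_rw [Finset.sum_add_distrib, ← Finset.mul_sum] at hsum
  have hPhi : (2 * T / a.N1) * (2 * T / a.N2) * ∑ u ∈ range a.N1, ∑ v ∈ range a.N2, Phi a f (pt X + a.gp u v) ≤ a.V / 16 := by
    have h2 := hG.P
    have e : (2 * T / a.N1) * (2 * T / a.N2) * ∑ u ∈ range a.N1, ∑ v ∈ range a.N2, Phi a f (pt X + a.gp u v) =
        4 * T ^ 2 * ((1 / ((a.N1 : ℝ) * a.N2)) * ∑ u ∈ range a.N1, ∑ v ∈ range a.N2, Phi a f (pt X + a.gp u v)) := by
      field_simp; ring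
    rw [e]
    have hT2 : T ^ 2 ≤ 2 ^ (2 * f) := by
      rw [mul_comm 2 f, pow_mul]; exact pow_le_pow_left₀ hT0 hT 2
    calc 4 * T ^ 2 * ((1 / ((a.N1 : ℝ) * a.N2)) * ∑ u ∈ range a.N1, ∑ v ∈ range a.N2, Phi a f (pt X + a.gp u v))
        ≤ 4 * 2 ^ (2 * f) * (a.V / 2 ^ (2 * f + 6)) := by
          apply mul_le_mul _ h2.le _ (by positivity)
          · gcongr
          · apply mul_nonneg (by positivity)
            exact Finset.sum_nonneg (fun u _ => Finset.sum_nonneg (fun v _ => Phi_nonneg _ _ _))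
      _ = a.V / 16 := by rw [pow_add]; field_simp; norm_num
  have hFs := sum_spread2 (A := 2 ^ m) (B1 := 2 ^ a.W1 m) (B2 := 2 ^ a.W2 m) (by positivity) (by positivity) hb.hu hb.hv μ ν Fc
  rw [← hs1, ← hs2] at hFs
  rw [hFs] at hsum
  have hFe : ∑ x ∈ range (2 ^ m), ∑ y ∈ range (2 ^ m), μ x * ν y * Fc x y =
      (1 + 2 ^ 13) * (∑ x ∈ range (2 ^ m), ∑ y ∈ range (2 ^ m), μ x * ν y * (if Hs a f i j m c1 c2 γ x y then 1 else 0)) +
      ∑ k ∈ K1 f, (1 + 2 ^ 13) * (∑ x ∈ range (2 ^ m), ∑ y ∈ range (2 ^ m), μ x * ν y * wi (A1 a k) i j m c1 c2 x y) +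
      ∑ k ∈ K2 f, 2 ^ (k.1 + 1) * (∑ x ∈ range (2 ^ m), ∑ y ∈ range (2 ^ m), μ x * ν y * wi (A2 a k) i j m c1 c2 x y) := by
    rw [← swap1 (K1 f) (2 ^ m) μ ν (fun _ => 1 + 2 ^ 13) (fun k x y => wi (A1 a k) i j m c1 c2 x y),
      ← swap1 (K2 f) (2 ^ m) μ ν (fun k => 2 ^ (k.1 + 1)) (fun k x y => wi (A2 a k) i j m c1 c2 x y), hFc, Finset.mul_sum,
      ← Finset.sum_add_distrib, ← Finset.sum_add_distrib]
    apply Finset.sum_congr rfl; intro x _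
    rw [Finset.mul_sum, ← Finset.sum_add_distrib, ← Finset.sum_add_distrib]
    apply Finset.sum_congr rfl; intro y _
    ring
  have hub : ∀ r t jj i', r ≤ 192 * f → t ≤ 192 * f → 13 ≤ jj → jj ≤ 192 * f + 14 → i' ≤ 1024 * f →
      ∑ x ∈ range (2 ^ m), ∑ y ∈ range (2 ^ m), μ x * ν y * wi (a.sh r t jj i') i j m c1 c2 x y ≤
      12 * (a.V * (1024 * 2 ^ (r + t) / 2 ^ (3 * jj)) * (1 / 2 ^ i')) := by
    intro r t jj i' hr ht hj1 hj2 hi
    obtain ⟨w1, w2⟩ := hG.W r t jj i' hr ht hj1 hj2 hi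
    have := win_ub (hs.sh_ok hr ht hj1 hj2 hi) (hs.sh_al hr ht hj1 hj2 hi) hnd hμ hν w1 w2 hTw (hs.sh_f1 hr hj2 hi) (hs.sh_f2 ht hj2 hi)
    rw [hs.sh_V hr ht hj2 hi] at this
    exact this
  have hK1 : ∑ k ∈ K1 f, (1 + 2 ^ 13) * (∑ x ∈ range (2 ^ m), ∑ y ∈ range (2 ^ m), μ x * ν y * wi (A1 a k) i j m c1 c2 x y) ≤ a.V / 100 := by
    have g1 : ∀ k ∈ K1 f, (1 + 2 ^ 13) * (∑ x ∈ range (2 ^ m), ∑ y ∈ range (2 ^ m), μ x * ν y * wi (A1 a k) i j m c1 c2 x y) ≤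
        ((1 + 2 ^ 13) * 12 * 1024 / 2 ^ 39 * a.V) * (((3 / 4) ^ k.1.1 * (3 / 4) ^ k.1.2) * (1 / 2 ^ k.2)) := by
      intro k hk
      unfold K1 at hk
      rw [Finset.mem_product, Finset.mem_product, Finset.mem_range, Finset.mem_range, Finset.mem_range] at hk
      have g2 := hub k.1.1 k.1.2 (13 + (k.1.1 + k.1.2 + 1) / 2) k.2 (by omega) (by omega) (by omega) (by omega) (by omega)
      have g3 := two_34 (k.1.1 + k.1.2)
      have g4 : (1024 : ℝ) * 2 ^ (k.1.1 + k.1.2) / 2 ^ (3 * (13 + (k.1.1 + k.1.2 + 1) / 2)) ≤ 1024 / 2 ^ 39 * ((3 / 4) ^ k.1.1 * (3 / 4) ^ k.1.2) := by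
        rw [← pow_add, show 3 * (13 + (k.1.1 + k.1.2 + 1) / 2) = 39 + 3 * ((k.1.1 + k.1.2 + 1) / 2) by ring, pow_add 2 39]
        calc (1024 : ℝ) * 2 ^ (k.1.1 + k.1.2) / (2 ^ 39 * 2 ^ (3 * ((k.1.1 + k.1.2 + 1) / 2))) = 1024 / 2 ^ 39 * (2 ^ (k.1.1 + k.1.2) / 2 ^ (3 * ((k.1.1 + k.1.2 + 1) / 2))) := by
              field_simp
          _ ≤ _ := by gcongr
      calc (1 + 2 ^ 13 : ℝ) * (∑ x ∈ range (2 ^ m), ∑ y ∈ range (2 ^ m), μ x * ν y * wi (A1 a k) i j m c1 c2 x y)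
          ≤ (1 + 2 ^ 13) * (12 * (a.V * (1024 / 2 ^ 39 * ((3 / 4) ^ k.1.1 * (3 / 4) ^ k.1.2)) * (1 / 2 ^ k.2))) := by
            apply mul_le_mul_of_nonneg_left _ (by norm_num)
            refine g2.trans ?_
            gcongr
        _ = _ := by ring
    refine (Finset.sum_le_sum g1).trans ?_
    rw [← Finset.mul_sum]
    unfold K1
    rw [Finset.sum_product, Finset.sum_product]
    have g5 : ∑ x ∈ range (192 * f + 1), ∑ y ∈ range (192 * f + 1), ∑ z ∈ range (1024 * f + 1), (((3 / 4 : ℝ) ^ x * (3 / 4) ^ y) * (1 / 2 ^ z)) =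
        ((∑ x ∈ range (192 * f + 1), (3 / 4 : ℝ) ^ x) * ∑ y ∈ range (192 * f + 1), (3 / 4 : ℝ) ^ y) * ∑ z ∈ range (1024 * f + 1), (1 : ℝ) / 2 ^ z := by
      rw [Finset.sum_mul_sum, Finset.sum_mul]
      apply Finset.sum_congr rfl; intro x _
      rw [Finset.sum_mul]
      apply Finset.sum_congr rfl; intro y _
      rw [Finset.mul_sum]
    have g6 : ((∑ x ∈ range (192 * f + 1), (3 / 4 : ℝ) ^ x) * ∑ y ∈ range (192 * f + 1), (3 / 4 : ℝ) ^ y) * ∑ z ∈ range (1024 * f + 1), (1 : ℝ) / 2 ^ z ≤ (4 * 4) * 2 := by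
      have a1 := geo_34 (192 * f + 1)
      have a2 := geo_half (1024 * f + 1)
      have a3 : (0 : ℝ) ≤ ∑ x ∈ range (192 * f + 1), (3 / 4 : ℝ) ^ x := Finset.sum_nonneg (fun _ _ => by positivity)
      have a4 : (0 : ℝ) ≤ ∑ z ∈ range (1024 * f + 1), (1 : ℝ) / 2 ^ z := Finset.sum_nonneg (fun _ _ => by positivity)
      gcongr
    calc (1 + 2 ^ 13 : ℝ) * 12 * 1024 / 2 ^ 39 * a.V * _ ≤ (1 + 2 ^ 13 : ℝ) * 12 * 1024 / 2 ^ 39 * a.V * ((4 * 4) * 2) := by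
          apply mul_le_mul_of_nonneg_left _ (by positivity)
          exact (le_of_eq g5).trans g6
      _ ≤ a.V / 100 := by
          have : (1 + 2 ^ 13 : ℝ) * 12 * 1024 / 2 ^ 39 * a.V * ((4 * 4) * 2) = ((1 + 2 ^ 13 : ℝ) * 12 * 1024 / 2 ^ 39 * ((4 * 4) * 2)) * a.V := by ring
          rw [this]
          have h9 : ((1 + 2 ^ 13 : ℝ) * 12 * 1024 / 2 ^ 39 * ((4 * 4) * 2)) ≤ 1 / 100 := by norm_num
          calc _ ≤ (1 / 100) * a.V := mul_le_mul_of_nonneg_right h9 hV0.le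
            _ = _ := by ring
  have hK2 : ∑ k ∈ K2 f, 2 ^ (k.1 + 1) * (∑ x ∈ range (2 ^ m), ∑ y ∈ range (2 ^ m), μ x * ν y * wi (A2 a k) i j m c1 c2 x y) ≤ a.V / 100 := by
    have g1 : ∀ k ∈ K2 f, 2 ^ (k.1 + 1) * (∑ x ∈ range (2 ^ m), ∑ y ∈ range (2 ^ m), μ x * ν y * wi (A2 a k) i j m c1 c2 x y) ≤
        (12 * 1024 * a.V) * ((2 ^ (k.1 + 1) / 2 ^ (3 * k.1)) * (1 / 2 ^ k.2)) := by
      intro k hk
      unfold K2 at hk
      rw [Finset.mem_product, Finset.mem_Ico, Finset.mem_range] at hk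
      have g2 := hub 0 0 k.1 k.2 (by omega) (by omega) (by omega) (by omega) (by omega)
      rw [add_zero, pow_zero, mul_one] at g2
      calc (2 : ℝ) ^ (k.1 + 1) * (∑ x ∈ range (2 ^ m), ∑ y ∈ range (2 ^ m), μ x * ν y * wi (A2 a k) i j m c1 c2 x y)
          ≤ 2 ^ (k.1 + 1) * (12 * (a.V * (1024 / 2 ^ (3 * k.1)) * (1 / 2 ^ k.2))) := by
            apply mul_le_mul_of_nonneg_left _ (by positivity)
            exact g2
        _ = _ := by ring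
    refine (Finset.sum_le_sum g1).trans ?_
    rw [← Finset.mul_sum]
    unfold K2
    rw [Finset.sum_product]
    have g5 : ∑ x ∈ Finset.Ico 13 (128 * f), ∑ z ∈ range (1024 * f + 1), (((2 : ℝ) ^ (x + 1) / 2 ^ (3 * x)) * (1 / 2 ^ z)) =
        (∑ x ∈ Finset.Ico 13 (128 * f), (2 : ℝ) ^ (x + 1) / 2 ^ (3 * x)) * ∑ z ∈ range (1024 * f + 1), (1 : ℝ) / 2 ^ z := by
      rw [Finset.sum_mul_sum]
    have g6 : (∑ x ∈ Finset.Ico 13 (128 * f), (2 : ℝ) ^ (x + 1) / 2 ^ (3 * x)) * ∑ z ∈ range (1024 * f + 1), (1 : ℝ) / 2 ^ z ≤ (1 / 2 ^ 24) * 2 := by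
      have a1 := sum_quarter (128 * f)
      have a2 := geo_half (1024 * f + 1)
      have a4 : (0 : ℝ) ≤ ∑ z ∈ range (1024 * f + 1), (1 : ℝ) / 2 ^ z := Finset.sum_nonneg (fun _ _ => by positivity)
      gcongr
    calc (12 : ℝ) * 1024 * a.V * _ ≤ (12 : ℝ) * 1024 * a.V * ((1 / 2 ^ 24) * 2) := by
          apply mul_le_mul_of_nonneg_left _ (by positivity)
          exact (le_of_eq g5).trans g6
      _ ≤ a.V / 100 := by
          have : (12 : ℝ) * 1024 * a.V * ((1 / 2 ^ 24) * 2) = (12 * 1024 * ((1 / 2 ^ 24) * 2)) * a.V := by ring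
          rw [this]
          have h9 : ((12 : ℝ) * 1024 * ((1 / 2 ^ 24) * 2)) ≤ 1 / 100 := by norm_num
          calc _ ≤ (1 / 100) * a.V := mul_le_mul_of_nonneg_right h9 hV0.le
            _ = _ := by ring
  rw [hFe] at hsum
  rw [div_le_iff₀ (by positivity)]
  linarith

end

end Run7.h297
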