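import Pool.Agent.Run7.h297.Ent

set_option autoImplicit false

/-! The node inequality: two conditional entropies cannot both be nearly maximal unless the mutual
information is not small. -/

noncomputable section

namespace Run7.h297

open Real Finset

theorem negMulLog_le_half {s : ℝ} (hs : 0 ≤ s) : negMulLog s ≤ 1 / 2 := by
  rcases hs.eq_or_lt with h | h
  · rw [← h, negMulLog_zero]; norm_num
  · set t := Real.sqrt s with ht
    have ht0 : 0 < t := Real.sqrt_pos.mpr h
    have hst : s = t ^ 2 := (Real.sq_sqrt hs).symm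
    have h1 := mul_log_ge (a := 2 * t ^ 2) (by positivity) ht0
    have h2 : 2 * t ^ 2 / t = 2 * t := by field_simp
    rw [h2] at h1
    have h3 : negMulLog s = -(2 * t ^ 2 * Real.log t) := by
      rw [negMulLog, hst, Real.log_pow]; push_cast; ring
    rw [h3]
    nlinarith [sq_nonneg (t - 1 / 2)]

theorem sum_neg_nonneg {σ : Type*} (S : Finset σ) (r : σ → ℝ) (hr : ∀ x ∈ S, 0 ≤ r x)
    (hs : ∑ x ∈ S, r x = 1) : 0 ≤ ∑ x ∈ S, negMulLog (r x) := by
  apply Finset.sum_nonneg; intro x hx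
  apply negMulLog_nonneg (hr x hx)
  rw [← hs]; exact Finset.single_le_sum hr hx

theorem typical {N : ℕ} (hN : 1 ≤ N) (r : ℕ → ℝ) (hr : ∀ x ∈ range N, 0 ≤ r x)
    (hs : ∑ x ∈ range N, r x = 1) :
    1 / (2 * (Real.log N + 1)) ≤
      ∑ x ∈ (range N).filter (fun x => r x ≤ Real.exp (1 - ∑ x ∈ range N, negMulLog (r x))), r x := by
  set h := ∑ x ∈ range N, negMulLog (r x) with hh
  set S' := (range N).filter (fun x => r x ≤ Real.exp (1 - h)) with hS'
  set s := ∑ x ∈ S', r x with hs'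
  have hN' : (1 : ℝ) ≤ N := by exact_mod_cast hN
  have hlog : 0 ≤ Real.log N := Real.log_nonneg hN'
  have hh0 : 0 ≤ h := sum_neg_nonneg _ r hr hs
  have hs0 : 0 ≤ s := Finset.sum_nonneg (fun x hx => hr x (Finset.mem_of_mem_filter x hx))
  have h1 : h = ∑ x ∈ S', negMulLog (r x) + ∑ x ∈ (range N).filter (fun x => ¬ r x ≤ Real.exp (1 - h)), negMulLog (r x) := by
    have := Finset.sum_filter_add_sum_filter_not (range N) (fun x => r x ≤ Real.exp (1 - h))
      (fun x => negMulLog (r x))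
    rw [hh]; exact this.symm
  have h1' : 1 = s + ∑ x ∈ (range N).filter (fun x => ¬ r x ≤ Real.exp (1 - h)), r x := by
    have := Finset.sum_filter_add_sum_filter_not (range N) (fun x => r x ≤ Real.exp (1 - h))
      (fun x => r x)
    exact hs.symm.trans this.symm
  have h2 : ∑ x ∈ S', negMulLog (r x) ≤ negMulLog s + s * Real.log N := by
    apply sum_negMulLog_le S' r (fun x hx => hr x (Finset.mem_of_mem_filter x hx)) s rfl S'
      (fun x hx hx' => absurd hx hx') N (by linarith)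
    rw [Finset.inter_self]
    have : S'.card ≤ N := (Finset.card_filter_le _ _).trans (by rw [card_range])
    exact_mod_cast this
  have h3 : ∑ x ∈ (range N).filter (fun x => ¬ r x ≤ Real.exp (1 - h)), negMulLog (r x) ≤ (h - 1) * (1 - s) := by
    have e : 1 - s = ∑ x ∈ (range N).filter (fun x => ¬ r x ≤ Real.exp (1 - h)), r x := by linarith
    rw [e, Finset.mul_sum]
    apply Finset.sum_le_sum; intro x hx
    rw [Finset.mem_filter, not_le] at hx
    have hpos : 0 < r x := (Real.exp_pos _).trans hx.2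
    have h4 : 1 - h ≤ Real.log (r x) := by
      rw [Real.le_log_iff_exp_le hpos]; exact hx.2.le
    rw [negMulLog]
    nlinarith
  have h5 : 1 ≤ negMulLog s + s * (Real.log N + 1) := by
    have : s * h ≥ 0 := by positivity
    nlinarith
  have h6 := negMulLog_le_half hs0
  by_contra hcon
  push Not at hcon
  have h7 : s * (Real.log N + 1) < 1 / 2 := by
    rw [lt_div_iff₀ (by positivity)] at hcon
    linarith
  linarith

theorem NLcore {N : ℕ} (hN : 1 ≤ N) (a : ℕ → ℕ → ℝ) (ha : ∀ x y, 0 ≤ a x y)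
    (hsum : ∑ x ∈ range N, ∑ y ∈ range N, a x y = 1) (Tg : Finset ℕ) (hTg : Tg ⊆ range N)
    {ρ₀ p₀ : ℝ} (hρ : 0 < ρ₀) (hρ1 : ρ₀ ≤ 1) (hp₀ : 0 < p₀)
    (hyp : ∀ μ ν : ℕ → ℝ, (∀ i, 0 ≤ μ i) → ∑ i ∈ range N, μ i = 1 → (∀ y, 0 ≤ ν y) → ∑ y ∈ Tg, ν y = 1 →
      ∀ l₁ l₂ : ℝ, (∀ i ∈ range N, μ i ≤ l₁) → (∀ y ∈ Tg, ν y ≤ l₂) → 0 ≤ l₂ → l₁ * l₂ * N ≤ ρ₀ →
      p₀ ≤ ∑ y ∈ Tg, ∑ i ∈ range N, if a i y = 0 then μ i * ν y else 0) :
    (∑ x ∈ range N, negMulLog (∑ y ∈ range N, a x y)) + (∑ y ∈ range N, negMulLog (∑ x ∈ range N, a x y)) ≤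
      Real.log N + Real.log (8 * Real.exp 2 * (Real.log N + 1) ^ 2 / ρ₀) +
      2 * Real.log N * (4 * (Real.log N + 1) * (∑ y ∈ range N \ Tg, ∑ x ∈ range N, a x y) +
        (8 * (Real.log N + 1) ^ 2 / p₀) * ((∑ x ∈ range N, negMulLog (∑ y ∈ range N, a x y)) +
          (∑ y ∈ range N, negMulLog (∑ x ∈ range N, a x y)) - ∑ x ∈ range N, ∑ y ∈ range N, negMulLog (a x y))) := by
  set r : ℕ → ℝ := fun x => ∑ y ∈ range N, a x y with hr
  set c : ℕ → ℝ := fun y => ∑ x ∈ range N, a x y with hc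
  set L : ℝ := Real.log N + 1 with hL
  have hN' : (1 : ℝ) ≤ N := by exact_mod_cast hN
  have hlog : 0 ≤ Real.log N := Real.log_nonneg hN'
  have hL1 : 1 ≤ L := by linarith
  have hL0 : 0 < L := by linarith
  set hX := ∑ x ∈ range N, negMulLog (r x) with hhX
  set hY := ∑ y ∈ range N, negMulLog (c y) with hhY
  set b := ∑ y ∈ range N \ Tg, c y with hb
  have hr0 : ∀ x, 0 ≤ r x := fun x => Finset.sum_nonneg (fun y _ => ha x y)
  have hc0 : ∀ y, 0 ≤ c y := fun y => Finset.sum_nonneg (fun x _ => ha x y)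
  have hb0 : 0 ≤ b := Finset.sum_nonneg (fun y _ => hc0 y)
  have hrs : ∑ x ∈ range N, r x = 1 := hsum
  have hcs : ∑ y ∈ range N, c y = 1 := by rw [← hsum, Finset.sum_comm]
  have hcore := core_ineq (range N) (range N) a (fun x _ y _ => ha x y) 1 hsum one_pos
  rw [negMulLog_one, sub_zero, div_one, one_mul] at hcore
  set I := hX + hY - ∑ x ∈ range N, ∑ y ∈ range N, negMulLog (a x y) with hI
  have hZ0 : 0 ≤ ∑ x ∈ range N, ∑ y ∈ range N, if a x y = 0 then r x * c y else 0 := by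
    apply Finset.sum_nonneg; intro x _
    apply Finset.sum_nonneg; intro y _
    split_ifs
    · exact mul_nonneg (hr0 x) (hc0 y)
    · exact le_rfl
  have hI0 : 0 ≤ I := hZ0.trans hcore
  have hXle : hX ≤ Real.log N := by
    have := sum_negMulLog_le (range N) r (fun x _ => hr0 x) 1 hrs (range N) (fun x hx hx' => absurd hx hx') N
      (by linarith) (by rw [Finset.inter_self, card_range])
    rw [negMulLog_one, zero_add, one_mul] at this; exact this
  have hYle : hY ≤ Real.log N := by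
    have := sum_negMulLog_le (range N) c (fun x _ => hc0 x) 1 hcs (range N) (fun x hx hx' => absurd hx hx') N
      (by linarith) (by rw [Finset.inter_self, card_range])
    rw [negMulLog_one, zero_add, one_mul] at this; exact this
  have he2 : 1 ≤ Real.exp 2 := Real.one_le_exp (by norm_num)
  have hlog8 : 0 ≤ Real.log (8 * Real.exp 2 * L ^ 2 / ρ₀) := by
    apply Real.log_nonneg
    rw [le_div_iff₀ hρ]
    have : 1 ≤ L ^ 2 := by nlinarith
    nlinarith
  by_cases hA : hX + hY ≤ Real.log N + Real.log (8 * Real.exp 2 * L ^ 2 / ρ₀)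
  · have : 0 ≤ 2 * Real.log N * (4 * L * b + (8 * L ^ 2 / p₀) * I) := by positivity
    linarith
  by_cases hB : 1 ≤ 4 * L * b
  · have h1 : 0 ≤ (8 * L ^ 2 / p₀) * I := by positivity
    have h2 : 2 * Real.log N * 1 ≤ 2 * Real.log N * (4 * L * b + (8 * L ^ 2 / p₀) * I) := by
      gcongr; linarith
    linarith
  push Not at hA hB
  have hI1 : 1 ≤ (8 * L ^ 2 / p₀) * I := by
    set S' := (range N).filter (fun x => r x ≤ Real.exp (1 - hX)) with hS'
    set T' := Tg.filter (fun y => c y ≤ Real.exp (1 - hY)) with hT'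
    set s₁ := ∑ x ∈ S', r x with hs₁
    set s₂ := ∑ y ∈ T', c y with hs₂
    have k1 : 1 / (2 * L) ≤ s₁ := typical hN r (fun x _ => hr0 x) hrs
    have k2' : 1 / (2 * L) ≤ ∑ y ∈ (range N).filter (fun y => c y ≤ Real.exp (1 - hY)), c y :=
      typical hN c (fun x _ => hc0 x) hcs
    have k2 : 1 / (4 * L) ≤ s₂ := by
      have e : ∑ y ∈ (range N).filter (fun y => c y ≤ Real.exp (1 - hY)), c y ≤ s₂ + b := by
        have hsub : (range N).filter (fun y => c y ≤ Real.exp (1 - hY)) ⊆ T' ∪ (range N \ Tg) := by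
          intro y hy
          rw [Finset.mem_filter] at hy
          rw [Finset.mem_union, hT', Finset.mem_filter, Finset.mem_sdiff]
          by_cases h : y ∈ Tg
          · left; exact ⟨h, hy.2⟩
          · right; exact ⟨hy.1, h⟩
        refine (Finset.sum_le_sum_of_subset_of_nonneg hsub (fun y _ _ => hc0 y)).trans ?_
        have hdisj : Disjoint T' (range N \ Tg) := by
          rw [Finset.disjoint_left]
          intro y hy hy'
          rw [Finset.mem_sdiff] at hy'
          exact hy'.2 (Finset.mem_of_mem_filter y hy)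
        rw [Finset.sum_union hdisj]
      have e2 : b ≤ 1 / (4 * L) := by
        rw [le_div_iff₀ (by positivity)]; linarith
      have e3 : 1 / (2 * L) = 1 / (4 * L) + 1 / (4 * L) := by field_simp; norm_num
      linarith
    have hs₁0 : 0 < s₁ := lt_of_lt_of_le (by positivity) k1
    have hs₂0 : 0 < s₂ := lt_of_lt_of_le (by positivity) k2
    set μ : ℕ → ℝ := fun x => if x ∈ S' then r x / s₁ else 0 with hμ
    set ν : ℕ → ℝ := fun y => if y ∈ T' then c y / s₂ else 0 with hν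
    have hS'sub : S' ⊆ range N := Finset.filter_subset _ _
    have hT'sub : T' ⊆ Tg := Finset.filter_subset _ _
    have m0 : ∀ i, 0 ≤ μ i := by
      intro i; rw [hμ]; dsimp only
      split_ifs
      · exact div_nonneg (hr0 i) hs₁0.le
      · exact le_rfl
    have n0 : ∀ i, 0 ≤ ν i := by
      intro i; rw [hν]; dsimp only
      split_ifs
      · exact div_nonneg (hc0 i) hs₂0.le
      · exact le_rfl
    have m1 : ∑ i ∈ range N, μ i = 1 := by
      rw [hμ]; dsimp only
      rw [Finset.sum_ite_mem, Finset.inter_eq_right.mpr hS'sub, ← Finset.sum_div, ← hs₁]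
      field_simp
    have n1 : ∑ i ∈ Tg, ν i = 1 := by
      rw [hν]; dsimp only
      rw [Finset.sum_ite_mem, Finset.inter_eq_right.mpr hT'sub, ← Finset.sum_div, ← hs₂]
      field_simp
    have hinv1 : 1 / s₁ ≤ 2 * L := by
      rw [div_le_iff₀ hs₁0]; rw [div_le_iff₀ (by positivity)] at k1; linarith
    have hinv2 : 1 / s₂ ≤ 4 * L := by
      rw [div_le_iff₀ hs₂0]; rw [div_le_iff₀ (by positivity)] at k2; linarith
    have m2 : ∀ i ∈ range N, μ i ≤ Real.exp (1 - hX) * (2 * L) := by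
      intro i _; rw [hμ]; dsimp only
      split_ifs with h
      · rw [div_eq_mul_one_div]
        have := (Finset.mem_filter.mp h).2
        gcongr
      · positivity
    have n2 : ∀ i ∈ Tg, ν i ≤ Real.exp (1 - hY) * (4 * L) := by
      intro i _; rw [hν]; dsimp only
      split_ifs with h
      · rw [div_eq_mul_one_div]
        have := (Finset.mem_filter.mp h).2
        gcongr
      · positivity
    have hsm : Real.exp (1 - hX) * (2 * L) * (Real.exp (1 - hY) * (4 * L)) * N ≤ ρ₀ := by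
      have h1 : Real.exp (Real.log N + Real.log (8 * Real.exp 2 * L ^ 2 / ρ₀)) ≤ Real.exp (hX + hY) :=
        Real.exp_le_exp.mpr hA.le
      rw [Real.exp_add, Real.exp_log (by linarith), Real.exp_log (by positivity)] at h1
      have h2 : Real.exp (1 - hX) * Real.exp (1 - hY) = Real.exp 2 / Real.exp (hX + hY) := by
        rw [← Real.exp_add, ← Real.exp_sub]; congr 1; ring
      have h3 : Real.exp (1 - hX) * (2 * L) * (Real.exp (1 - hY) * (4 * L)) * N =
          (Real.exp (1 - hX) * Real.exp (1 - hY)) * (8 * L ^ 2 * N) := by ring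
      rw [h3, h2, div_mul_eq_mul_div, div_le_iff₀ (Real.exp_pos _)]
      have h4 : ρ₀ * ((N : ℝ) * (8 * Real.exp 2 * L ^ 2 / ρ₀)) ≤ ρ₀ * Real.exp (hX + hY) := by gcongr
      have h5 : ρ₀ * ((N : ℝ) * (8 * Real.exp 2 * L ^ 2 / ρ₀)) = Real.exp 2 * (8 * L ^ 2 * N) := by
        field_simp
      linarith
    have key := hyp μ ν m0 m1 n0 n1 _ _ m2 n2 (by positivity) hsm
    have hterm : ∑ y ∈ Tg, ∑ i ∈ range N, (if a i y = 0 then μ i * ν y else 0) ≤
        8 * L ^ 2 * ∑ x ∈ range N, ∑ y ∈ range N, if a x y = 0 then r x * c y else 0 := by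
      rw [Finset.sum_comm (s := range N) (t := range N), Finset.mul_sum]
      have hpt : ∀ i y, (if a i y = 0 then μ i * ν y else 0) ≤ 8 * L ^ 2 * (if a i y = 0 then r i * c y else 0) := by
        intro i y
        split_ifs with h
        · have a1 : μ i ≤ 2 * L * r i := by
            rw [hμ]; dsimp only
            split_ifs
            · rw [div_eq_mul_one_div, mul_comm]
              have := hr0 i
              gcongr
            · have := hr0 i; positivity
          have a2 : ν y ≤ 4 * L * c y := by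
            rw [hν]; dsimp only
            split_ifs
            · rw [div_eq_mul_one_div, mul_comm]
              have := hc0 y
              gcongr
            · have := hc0 y; positivity
          have := hr0 i
          have := hc0 y
          calc μ i * ν y ≤ (2 * L * r i) * (4 * L * c y) := mul_le_mul a1 a2 (n0 y) (by positivity)
            _ = _ := by ring
        · simp
      have hnn : ∀ y, 0 ≤ 8 * L ^ 2 * ∑ x ∈ range N, (if a x y = 0 then r x * c y else 0) := by
        intro y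
        apply mul_nonneg (by positivity)
        apply Finset.sum_nonneg; intro x _
        split_ifs
        · exact mul_nonneg (hr0 x) (hc0 y)
        · exact le_rfl
      calc _ ≤ ∑ y ∈ Tg, 8 * L ^ 2 * ∑ x ∈ range N, (if a x y = 0 then r x * c y else 0) := by
            apply Finset.sum_le_sum; intro y _
            rw [Finset.mul_sum]
            apply Finset.sum_le_sum; intro i _
            exact hpt i y
        _ ≤ _ := Finset.sum_le_sum_of_subset_of_nonneg hTg (fun y _ _ => hnn y)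
    have h1 : p₀ ≤ 8 * L ^ 2 * I := by
      calc p₀ ≤ _ := key
        _ ≤ _ := hterm
        _ ≤ 8 * L ^ 2 * I := by gcongr
    rw [div_mul_eq_mul_div, le_div_iff₀ hp₀, one_mul]; exact h1
  have h2 : 2 * Real.log N * 1 ≤ 2 * Real.log N * (4 * L * b + (8 * L ^ 2 / p₀) * I) := by
    have : 0 ≤ 4 * L * b := by positivity
    gcongr; linarith
  linarith

theorem negMulLog_div {x s : ℝ} (hs : 0 < s) : negMulLog (x / s) = negMulLog x / s + (x / s) * Real.log s := by
  rcases eq_or_ne x 0 with h | h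
  · rw [h]; simp
  · rw [negMulLog, negMulLog, Real.log_div h hs.ne']; ring

theorem NLfiber {N : ℕ} (hN : 1 ≤ N) (a : ℕ → ℕ → ℝ) (ha : ∀ x y, 0 ≤ a x y) (s : ℝ) (hs0 : 0 < s)
    (hsum : ∑ x ∈ range N, ∑ y ∈ range N, a x y = s) (Tg : Finset ℕ) (hTg : Tg ⊆ range N)
    {ρ₀ p₀ : ℝ} (hρ : 0 < ρ₀) (hρ1 : ρ₀ ≤ 1) (hp₀ : 0 < p₀)
    (hyp : ∀ μ ν : ℕ → ℝ, (∀ i, 0 ≤ μ i) → ∑ i ∈ range N, μ i = 1 → (∀ y, 0 ≤ ν y) → ∑ y ∈ Tg, ν y = 1 →
      ∀ l₁ l₂ : ℝ, (∀ i ∈ range N, μ i ≤ l₁) → (∀ y ∈ Tg, ν y ≤ l₂) → 0 ≤ l₂ → l₁ * l₂ * N ≤ ρ₀ →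
      p₀ ≤ ∑ y ∈ Tg, ∑ i ∈ range N, if a i y = 0 then μ i * ν y else 0) :
    (∑ x ∈ range N, negMulLog (∑ y ∈ range N, a x y) - negMulLog s) +
      (∑ y ∈ range N, negMulLog (∑ x ∈ range N, a x y) - negMulLog s) ≤
      s * (Real.log N + Real.log (8 * Real.exp 2 * (Real.log N + 1) ^ 2 / ρ₀)) +
      2 * Real.log N * (4 * (Real.log N + 1) * (∑ y ∈ range N \ Tg, ∑ x ∈ range N, a x y) +
        (8 * (Real.log N + 1) ^ 2 / p₀) * ((∑ x ∈ range N, negMulLog (∑ y ∈ range N, a x y)) +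
          (∑ y ∈ range N, negMulLog (∑ x ∈ range N, a x y)) - (∑ x ∈ range N, ∑ y ∈ range N, negMulLog (a x y)) -
          negMulLog s)) := by
  have h := NLcore hN (fun x y => a x y / s) (fun x y => div_nonneg (ha x y) hs0.le)
    (by simp_rw [← Finset.sum_div]; rw [hsum]; field_simp) Tg hTg hρ hρ1 hp₀
    (by
      intro μ ν m0 m1 n0 n1 l₁ l₂ m2 n2 l0 hl
      have := hyp μ ν m0 m1 n0 n1 l₁ l₂ m2 n2 l0 hl
      refine this.trans (le_of_eq ?_)
      apply Finset.sum_congr rfl; intro y _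
      apply Finset.sum_congr rfl; intro i _
      by_cases h : a i y = 0
      · rw [if_pos h, if_pos (by rw [h, zero_div])]
      · rw [if_neg h, if_neg (div_ne_zero h hs0.ne')])
  simp_rw [← Finset.sum_div, negMulLog_div hs0, Finset.sum_add_distrib, ← Finset.sum_mul, ← Finset.sum_div] at h
  have hcomm : ∑ y ∈ range N, ∑ x ∈ range N, a x y = s := by rw [← hsum, Finset.sum_comm]
  rw [hsum, hcomm] at h
  have hss : s / s = 1 := by field_simp
  rw [hss, one_mul] at h
  have h2 := mul_le_mul_of_nonneg_left h hs0.le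
  have e1 : negMulLog s = - (s * Real.log s) := by rw [negMulLog]; ring
  rw [e1]
  refine le_trans (le_of_eq ?_) (h2.trans (le_of_eq ?_))
  · field_simp; ring
  · field_simp; ring

section total

variable {Ω : Type*} [Fintype Ω] {p : Ω → ℝ}

theorem NL (hp : ∀ ω, 0 ≤ p ω) (hp1 : ∑ ω, p ω = 1) {α : Type*} [DecidableEq α] (ξ : Ω → α) (X Y : Ω → ℕ)
    {N : ℕ} (hN : 1 ≤ N) (hX : ∀ ω, X ω < N) (hY : ∀ ω, Y ω < N) (Tg : α → Finset ℕ)
    (hTg : ∀ v, Tg v ⊆ range N) {ρ₀ p₀ : ℝ} (hρ : 0 < ρ₀) (hρ1 : ρ₀ ≤ 1) (hp₀ : 0 < p₀)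
    (hyp : ∀ v, 0 < pr p ξ v → ∀ μ ν : ℕ → ℝ, (∀ i, 0 ≤ μ i) → ∑ i ∈ range N, μ i = 1 → (∀ y, 0 ≤ ν y) →
      ∑ y ∈ Tg v, ν y = 1 →
      ∀ l₁ l₂ : ℝ, (∀ i ∈ range N, μ i ≤ l₁) → (∀ y ∈ Tg v, ν y ≤ l₂) → 0 ≤ l₂ → l₁ * l₂ * N ≤ ρ₀ →
      p₀ ≤ ∑ y ∈ Tg v, ∑ i ∈ range N, if pr p (fun ω => (ξ ω, (X ω, Y ω))) (v, (i, y)) = 0 then μ i * ν y else 0) :
    (H p (fun ω => (ξ ω, X ω)) - H p ξ) + (H p (fun ω => (ξ ω, Y ω)) - H p ξ) ≤
      Real.log N + Real.log (8 * Real.exp 2 * (Real.log N + 1) ^ 2 / ρ₀) +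
      2 * Real.log N * (4 * (Real.log N + 1) * (∑ ω, if Y ω ∈ Tg (ξ ω) then 0 else p ω) +
        (8 * (Real.log N + 1) ^ 2 / p₀) * (H p (fun ω => (ξ ω, X ω)) + H p (fun ω => (ξ ω, Y ω)) -
          H p (fun ω => (ξ ω, (X ω, Y ω))) - H p ξ)) := by
  have hXi : univ.image X ⊆ range N := by
    intro x hx
    rw [Finset.mem_image] at hx
    obtain ⟨ω, _, rfl⟩ := hx
    rw [Finset.mem_range]; exact hX ω
  have hYi : univ.image Y ⊆ range N := by
    intro x hx
    rw [Finset.mem_image] at hx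
    obtain ⟨ω, _, rfl⟩ := hx
    rw [Finset.mem_range]; exact hY ω
  set a : α → ℕ → ℕ → ℝ := fun v x y => pr p (fun ω => (ξ ω, (X ω, Y ω))) (v, (x, y)) with ha
  set V := univ.image ξ with hV
  have hrow : ∀ v x, ∑ y ∈ range N, a v x y = pr p (fun ω => (ξ ω, X ω)) (v, x) := by
    intro v x
    rw [← sum_pr_pair (p := p) (f := fun ω => (ξ ω, X ω)) (g := Y) hYi (v, x)]
    apply Finset.sum_congr rfl; intro y _
    rw [ha]; dsimp only
    unfold pr
    apply Finset.sum_congr rfl; intro ω _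
    simp only [Prod.mk.injEq, and_assoc]
  have hcol : ∀ v y, ∑ x ∈ range N, a v x y = pr p (fun ω => (ξ ω, Y ω)) (v, y) := by
    intro v y
    rw [← sum_pr_pair (p := p) (f := fun ω => (ξ ω, Y ω)) (g := X) hXi (v, y)]
    apply Finset.sum_congr rfl; intro x _
    rw [ha]; dsimp only
    unfold pr
    apply Finset.sum_congr rfl; intro ω _
    congr 1
    simp only [Prod.mk.injEq, eq_iff_iff]
    tauto
  have htot : ∀ v, ∑ x ∈ range N, ∑ y ∈ range N, a v x y = pr p ξ v := by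
    intro v
    simp_rw [hrow]
    exact sum_pr_pair hXi v
  have ha0 : ∀ v x y, 0 ≤ a v x y := fun v x y => pr_nonneg hp _ _
  have E1 : H p (fun ω => (ξ ω, X ω)) = ∑ v ∈ V, ∑ x ∈ range N, negMulLog (∑ y ∈ range N, a v x y) := by
    simp_rw [hrow]; exact H_pair ξ X (Finset.Subset.refl _) hXi
  have E2 : H p (fun ω => (ξ ω, Y ω)) = ∑ v ∈ V, ∑ y ∈ range N, negMulLog (∑ x ∈ range N, a v x y) := by
    simp_rw [hcol]; exact H_pair ξ Y (Finset.Subset.refl _) hYi
  have E3 : H p (fun ω => (ξ ω, (X ω, Y ω))) = ∑ v ∈ V, ∑ x ∈ range N, ∑ y ∈ range N, negMulLog (a v x y) := by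
    rw [H_pair ξ (fun ω => (X ω, Y ω)) (s := V) (t := range N ×ˢ range N) (Finset.Subset.refl _)
      (image_pair X Y hXi hYi)]
    apply Finset.sum_congr rfl; intro v _
    rw [Finset.sum_product]
  have E4 : H p ξ = ∑ v ∈ V, negMulLog (pr p ξ v) := rfl
  have E5 : (∑ ω, if Y ω ∈ Tg (ξ ω) then 0 else p ω) = ∑ v ∈ V, ∑ y ∈ range N \ Tg v, ∑ x ∈ range N, a v x y := by
    simp_rw [hcol]
    unfold pr
    have e1 : ∀ v ∈ V, ∑ y ∈ range N \ Tg v, ∑ ω, (if (ξ ω, Y ω) = (v, y) then p ω else 0) =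
        ∑ ω, ∑ y ∈ range N \ Tg v, (if (ξ ω, Y ω) = (v, y) then p ω else 0) := by
      intro v _; exact Finset.sum_comm
    rw [Finset.sum_congr rfl e1, Finset.sum_comm]
    apply Finset.sum_congr rfl; intro ω _
    have hmem : ξ ω ∈ V := Finset.mem_image_of_mem _ (Finset.mem_univ ω)
    rw [Finset.sum_eq_single (ξ ω)]
    · simp only [Prod.mk.injEq, true_and]
      rw [Finset.sum_ite_eq]
      by_cases h : Y ω ∈ Tg (ξ ω)
      · rw [if_pos h, if_neg (by rw [Finset.mem_sdiff]; tauto)]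
      · rw [if_neg h, if_pos (by rw [Finset.mem_sdiff, Finset.mem_range]; exact ⟨hY ω, h⟩)]
    · intro v _ hne
      apply Finset.sum_eq_zero; intro y _
      rw [if_neg]
      rw [Prod.mk.injEq]; tauto
    · intro h; exact absurd hmem h
  have E6 : ∑ v ∈ V, pr p ξ v = 1 := by rw [sum_pr (Finset.Subset.refl _), hp1]
  have hfib : ∀ v ∈ V,
      (∑ x ∈ range N, negMulLog (∑ y ∈ range N, a v x y) - negMulLog (pr p ξ v)) +
      (∑ y ∈ range N, negMulLog (∑ x ∈ range N, a v x y) - negMulLog (pr p ξ v)) ≤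
      pr p ξ v * (Real.log N + Real.log (8 * Real.exp 2 * (Real.log N + 1) ^ 2 / ρ₀)) +
      2 * Real.log N * (4 * (Real.log N + 1) * (∑ y ∈ range N \ Tg v, ∑ x ∈ range N, a v x y) +
        (8 * (Real.log N + 1) ^ 2 / p₀) * ((∑ x ∈ range N, negMulLog (∑ y ∈ range N, a v x y)) +
          (∑ y ∈ range N, negMulLog (∑ x ∈ range N, a v x y)) - (∑ x ∈ range N, ∑ y ∈ range N, negMulLog (a v x y)) -
          negMulLog (pr p ξ v))) := by
    intro v _
    rcases (pr_nonneg hp ξ v).eq_or_lt with h | h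
    · have hz : ∀ x ∈ range N, ∀ y ∈ range N, a v x y = 0 := by
        intro x hx y hy
        have h0 := htot v
        rw [← h] at h0
        have h1 := (Finset.sum_eq_zero_iff_of_nonneg (fun x _ => Finset.sum_nonneg (fun y _ => ha0 v x y))).mp h0 x hx
        exact (Finset.sum_eq_zero_iff_of_nonneg (fun y _ => ha0 v x y)).mp h1 y hy
      have z1 : ∀ x ∈ range N, negMulLog (∑ y ∈ range N, a v x y) = 0 := by
        intro x hx; rw [Finset.sum_eq_zero (fun y hy => hz x hx y hy), negMulLog_zero]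
      have z2 : ∀ y ∈ range N, negMulLog (∑ x ∈ range N, a v x y) = 0 := by
        intro y hy; rw [Finset.sum_eq_zero (fun x hx => hz x hx y hy), negMulLog_zero]
      have z3 : ∀ x ∈ range N, ∑ y ∈ range N, negMulLog (a v x y) = 0 := by
        intro x hx
        apply Finset.sum_eq_zero; intro y hy; rw [hz x hx y hy, negMulLog_zero]
      have z4 : ∀ y ∈ range N \ Tg v, ∑ x ∈ range N, a v x y = 0 := by
        intro y hy
        exact Finset.sum_eq_zero (fun x hx => hz x hx y (Finset.mem_sdiff.mp hy).1)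
      rw [← h, Finset.sum_eq_zero z1, Finset.sum_eq_zero z2, Finset.sum_eq_zero z3, Finset.sum_eq_zero z4,
        negMulLog_zero]
      simp
    · exact NLfiber hN (a v) (ha0 v) _ h (htot v) (Tg v) (hTg v) hρ hρ1 hp₀ (hyp v h)
  have hall := Finset.sum_le_sum hfib
  rw [E1, E2, E3, E4, E5]
  simp_rw [Finset.sum_add_distrib, Finset.sum_sub_distrib, ← Finset.sum_mul, ← Finset.mul_sum,
    Finset.sum_add_distrib, ← Finset.mul_sum, Finset.sum_sub_distrib, Finset.sum_add_distrib] at hall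
  rw [E6, one_mul] at hall
  exact hall

end total

end Run7.h297
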