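import Pool.Agent.Run7.h297.Fejer

set_option autoImplicit false

/-! A large sieve inequality with frequencies lying one in each cell. -/

noncomputable section

namespace Run7.h297

open Real Finset

theorem FQ_neg (Q : ℕ) (θ : TT) : FQ Q (-θ) = FQ Q θ := by
  unfold FQ
  congr 2
  have : ∑ j ∈ range Q, ch (j • (-θ)) = (starRingEnd ℂ) (∑ j ∈ range Q, ch (j • θ)) := by
    rw [map_sum]
    apply Finset.sum_congr rfl
    intro j _
    rw [star_ch, smul_neg]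
  rw [this, Complex.norm_conj]

theorem duality {ι : Type*} (N : ℕ) (hN : 0 < N) (s : Finset ι) (θ : ι → TT) (Δ : ℝ) (hΔ0 : 0 ≤ Δ)
    (hΔ : ∀ i ∈ s, ∑ j ∈ s, FQ (2 * N) (θ i - θ j) ≤ Δ) (f : ℕ → ℝ) :
    ∑ i ∈ s, ‖∑ x ∈ range N, (f x : ℂ) * ch (x • θ i)‖ ^ 2 ≤ 2 * Δ * ∑ x ∈ range N, f x ^ 2 := by
  classical
  set F : ι → ℂ := fun i => ∑ x ∈ range N, (f x : ℂ) * ch (x • θ i) with hF
  set c : ι → ℂ := fun i => (starRingEnd ℂ) (F i) with hc
  set g : ℤ → ℂ := fun n => ∑ i ∈ s, c i * ch (n • θ i) with hg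
  set Sg : ℝ := ∑ i ∈ s, ‖F i‖ ^ 2 with hSg
  have hS0 : 0 ≤ Sg := Finset.sum_nonneg (fun i _ => by positivity)
  have hcn : ∀ i, ‖c i‖ = ‖F i‖ := fun i => by rw [hc]; exact Complex.norm_conj _
  -- first identity
  have h1 : (Sg : ℂ) = ∑ x ∈ range N, (f x : ℂ) * g x := by
    rw [hSg]
    push_cast
    have e1 : ∀ i ∈ s, ((‖F i‖ : ℝ) : ℂ) ^ 2 = ∑ x ∈ range N, (f x : ℂ) * (c i * ch (x • θ i)) := by
      intro i _
      rw [← Complex.mul_conj', hc]
      conv_lhs => rw [hF]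
      dsimp only
      rw [Finset.sum_mul]
      apply Finset.sum_congr rfl; intro x _
      rw [hF]; ring
    rw [Finset.sum_congr rfl e1, Finset.sum_comm]
    apply Finset.sum_congr rfl; intro x _
    rw [hg]
    simp only [natCast_zsmul]
    rw [Finset.mul_sum]
  have h2 : Sg ≤ ∑ x ∈ range N, |f x| * ‖g x‖ := by
    have : Sg = ‖(Sg : ℂ)‖ := by rw [Complex.norm_real, Real.norm_eq_abs, abs_of_nonneg hS0]
    rw [this, h1]
    refine (norm_sum_le _ _).trans (le_of_eq ?_)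
    apply Finset.sum_congr rfl; intro x _
    rw [norm_mul, Complex.norm_real, Real.norm_eq_abs]
  have h3 : Sg ^ 2 ≤ (∑ x ∈ range N, f x ^ 2) * ∑ x ∈ range N, ‖g x‖ ^ 2 := by
    have hcs := Finset.sum_mul_sq_le_sq_mul_sq (range N) (fun x => |f x|) (fun x => ‖g x‖)
    simp only [sq_abs] at hcs
    refine le_trans ?_ hcs
    exact pow_le_pow_left₀ hS0 h2 2
  -- second moment
  have h4 : (N : ℝ) * ∑ x ∈ range N, ‖g x‖ ^ 2 ≤
      ∑ j ∈ range (2 * N), ∑ j' ∈ range (2 * N), ‖g ((j : ℤ) - (j' : ℤ))‖ ^ 2 := by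
    rw [Finset.sum_comm]
    calc (N : ℝ) * ∑ x ∈ range N, ‖g x‖ ^ 2 = ∑ j' ∈ range N, ∑ x ∈ range N, ‖g x‖ ^ 2 := by
          rw [Finset.sum_const, card_range, nsmul_eq_mul]
      _ ≤ ∑ j' ∈ range N, ∑ j ∈ range (2 * N), ‖g ((j : ℤ) - (j' : ℤ))‖ ^ 2 := by
          apply Finset.sum_le_sum
          intro j' hj'
          rw [Finset.mem_range] at hj'
          have : ∑ x ∈ range N, ‖g x‖ ^ 2 = ∑ j ∈ Finset.Ico j' (N + j'), ‖g ((j : ℤ) - (j' : ℤ))‖ ^ 2 := by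
            rw [Finset.sum_Ico_eq_sum_range]
            rw [Nat.add_sub_cancel]
            apply Finset.sum_congr rfl
            intro x _
            congr 3
            push_cast; ring
          rw [this]
          apply Finset.sum_le_sum_of_subset_of_nonneg
          · intro j hj
            rw [Finset.mem_Ico] at hj
            rw [Finset.mem_range]; omega
          · intro j _ _; positivity
      _ ≤ _ := by
          apply Finset.sum_le_sum_of_subset_of_nonneg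
          · intro j hj
            rw [Finset.mem_range] at hj ⊢; omega
          · intro j _ _; exact Finset.sum_nonneg (fun i _ => by positivity)
  have h5 : ((∑ j ∈ range (2 * N), ∑ j' ∈ range (2 * N), ‖g ((j : ℤ) - (j' : ℤ))‖ ^ 2 : ℝ) : ℂ) =
      ∑ i ∈ s, ∑ i' ∈ s, c i * (starRingEnd ℂ) (c i') * ((2 * N : ℕ) * FQ (2 * N) (θ i - θ i') : ℝ) := by
    push_cast
    have e1 : ∀ n : ℤ, ((‖g n‖ : ℝ) : ℂ) ^ 2 =
        ∑ i ∈ s, ∑ i' ∈ s, c i * (starRingEnd ℂ) (c i') * ch (n • (θ i - θ i')) := by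
      intro n
      rw [← Complex.mul_conj', hg]
      dsimp only
      rw [map_sum, Finset.sum_mul_sum]
      apply Finset.sum_congr rfl; intro i _
      apply Finset.sum_congr rfl; intro i' _
      rw [map_mul, star_ch, smul_sub, sub_eq_add_neg, ch_add]
      ring
    simp_rw [e1]
    have e2 : ∀ i i' : ι, ∑ j ∈ range (2 * N), ∑ j' ∈ range (2 * N),
        c i * (starRingEnd ℂ) (c i') * ch (((j : ℤ) - (j' : ℤ)) • (θ i - θ i')) =
        c i * (starRingEnd ℂ) (c i') * (((2 * N : ℕ) * FQ (2 * N) (θ i - θ i') : ℝ) : ℂ) := by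
      intro i i'
      rw [← FQ_expand, Finset.mul_sum]
      apply Finset.sum_congr rfl; intro j _
      rw [Finset.mul_sum]
    have e3 : ∑ j ∈ range (2 * N), ∑ j' ∈ range (2 * N), ∑ i ∈ s, ∑ i' ∈ s,
        c i * (starRingEnd ℂ) (c i') * ch (((j : ℤ) - (j' : ℤ)) • (θ i - θ i')) =
        ∑ i ∈ s, ∑ i' ∈ s, ∑ j ∈ range (2 * N), ∑ j' ∈ range (2 * N),
        c i * (starRingEnd ℂ) (c i') * ch (((j : ℤ) - (j' : ℤ)) • (θ i - θ i')) := by
      have a1 : ∀ j ∈ range (2 * N), ∑ j' ∈ range (2 * N), ∑ i ∈ s, ∑ i' ∈ s,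
          c i * (starRingEnd ℂ) (c i') * ch (((j : ℤ) - (j' : ℤ)) • (θ i - θ i')) =
          ∑ i ∈ s, ∑ i' ∈ s, ∑ j' ∈ range (2 * N),
          c i * (starRingEnd ℂ) (c i') * ch (((j : ℤ) - (j' : ℤ)) • (θ i - θ i')) := by
        intro j _
        rw [Finset.sum_comm]
        apply Finset.sum_congr rfl; intro i _
        rw [Finset.sum_comm]
      rw [Finset.sum_congr rfl a1, Finset.sum_comm]
      apply Finset.sum_congr rfl; intro i _
      rw [Finset.sum_comm]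
    rw [e3]
    apply Finset.sum_congr rfl; intro i _
    apply Finset.sum_congr rfl; intro i' _
    rw [e2]; push_cast; ring
  have h6 : ∑ j ∈ range (2 * N), ∑ j' ∈ range (2 * N), ‖g ((j : ℤ) - (j' : ℤ))‖ ^ 2 ≤ 2 * N * (Δ * Sg) := by
    set D : ℝ := ∑ j ∈ range (2 * N), ∑ j' ∈ range (2 * N), ‖g ((j : ℤ) - (j' : ℤ))‖ ^ 2 with hD
    have hD0 : 0 ≤ D := Finset.sum_nonneg (fun j _ => Finset.sum_nonneg (fun j' _ => by positivity))
    have e0 : D = ‖(D : ℂ)‖ := by rw [Complex.norm_real, Real.norm_eq_abs, abs_of_nonneg hD0]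
    rw [e0, h5]
    have e1 : ‖∑ i ∈ s, ∑ i' ∈ s, c i * (starRingEnd ℂ) (c i') * (((2 * N : ℕ) * FQ (2 * N) (θ i - θ i') : ℝ) : ℂ)‖ ≤
        ∑ i ∈ s, ∑ i' ∈ s, (2 * N) * (((‖F i‖ ^ 2 + ‖F i'‖ ^ 2) / 2) * FQ (2 * N) (θ i - θ i')) := by
      refine (norm_sum_le _ _).trans ?_
      apply Finset.sum_le_sum; intro i _
      refine (norm_sum_le _ _).trans ?_
      apply Finset.sum_le_sum; intro i' _
      have hcn' : ‖(starRingEnd ℂ) (c i')‖ = ‖F i'‖ := by rw [Complex.norm_conj, hcn]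
      rw [norm_mul, norm_mul, hcn', hcn, Complex.norm_real, Real.norm_eq_abs, abs_of_nonneg
        (mul_nonneg (Nat.cast_nonneg _) (FQ_nonneg _ _))]
      have hf := FQ_nonneg (2 * N) (θ i - θ i')
      have : ‖F i‖ * ‖F i'‖ ≤ (‖F i‖ ^ 2 + ‖F i'‖ ^ 2) / 2 := by nlinarith [sq_nonneg (‖F i‖ - ‖F i'‖)]
      push_cast
      calc _ = (2 * N) * ((‖F i‖ * ‖F i'‖) * FQ (2 * N) (θ i - θ i')) := by ring
        _ ≤ _ := by gcongr
    refine e1.trans ?_
    have e2 : ∑ i ∈ s, ∑ i' ∈ s, (2 * (N : ℝ)) * (((‖F i‖ ^ 2 + ‖F i'‖ ^ 2) / 2) * FQ (2 * N) (θ i - θ i')) =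
        (2 * N) * ∑ i ∈ s, ‖F i‖ ^ 2 * ∑ i' ∈ s, FQ (2 * N) (θ i - θ i') := by
      have a1 : ∑ i' ∈ s, ‖F i'‖ ^ 2 * ∑ i ∈ s, FQ (2 * N) (θ i' - θ i) =
          ∑ i ∈ s, ∑ i' ∈ s, ‖F i'‖ ^ 2 * FQ (2 * N) (θ i - θ i') := by
        rw [Finset.sum_comm]
        apply Finset.sum_congr rfl; intro i' _
        rw [Finset.mul_sum]
        apply Finset.sum_congr rfl; intro i _
        rw [← FQ_neg, neg_sub]
      have a2 : ∑ i ∈ s, ‖F i‖ ^ 2 * ∑ i' ∈ s, FQ (2 * N) (θ i - θ i') =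
          ∑ i ∈ s, ∑ i' ∈ s, ‖F i‖ ^ 2 * FQ (2 * N) (θ i - θ i') := by
        apply Finset.sum_congr rfl; intro i _
        rw [Finset.mul_sum]
      have a3 : ∑ i ∈ s, ‖F i‖ ^ 2 * ∑ i' ∈ s, FQ (2 * N) (θ i - θ i') =
          (1 / 2) * (∑ i ∈ s, ∑ i' ∈ s, ‖F i‖ ^ 2 * FQ (2 * N) (θ i - θ i')) +
          (1 / 2) * (∑ i ∈ s, ∑ i' ∈ s, ‖F i'‖ ^ 2 * FQ (2 * N) (θ i - θ i')) := by
        rw [← a1, ← a2]; ring
      rw [a3, Finset.mul_sum, Finset.mul_sum, ← Finset.sum_add_distrib, Finset.mul_sum]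
      apply Finset.sum_congr rfl; intro i _
      rw [Finset.mul_sum, Finset.mul_sum, ← Finset.sum_add_distrib, Finset.mul_sum]
      apply Finset.sum_congr rfl; intro i' _
      ring
    rw [e2]
    have e3 : ∑ i ∈ s, ‖F i‖ ^ 2 * ∑ i' ∈ s, FQ (2 * N) (θ i - θ i') ≤ Δ * Sg := by
      rw [hSg, Finset.mul_sum]
      apply Finset.sum_le_sum; intro i hi
      rw [mul_comm Δ]
      exact mul_le_mul_of_nonneg_left (hΔ i hi) (by positivity)
    have hN' : (0 : ℝ) < N := by exact_mod_cast hN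
    gcongr
  have hN' : (0 : ℝ) < N := by exact_mod_cast hN
  have h7 : ∑ x ∈ range N, ‖g x‖ ^ 2 ≤ 2 * Δ * Sg := by
    have := h4.trans h6
    have h8 : (N : ℝ) * ∑ x ∈ range N, ‖g x‖ ^ 2 ≤ N * (2 * Δ * Sg) := by linarith
    exact le_of_mul_le_mul_left h8 hN'
  have hf0 : 0 ≤ ∑ x ∈ range N, f x ^ 2 := Finset.sum_nonneg (fun x _ => by positivity)
  have h9 : Sg ^ 2 ≤ (2 * Δ * ∑ x ∈ range N, f x ^ 2) * Sg := by
    refine h3.trans ?_
    calc _ ≤ (∑ x ∈ range N, f x ^ 2) * (2 * Δ * Sg) := by gcongr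
      _ = _ := by ring
  rcases hS0.lt_or_eq with h | h
  · rw [sq] at h9
    exact le_of_mul_le_mul_right h9 h
  · rw [← h]; positivity

/-- upper bound for the kernel in terms of a residue -/
def GG (N r : ℕ) : ℝ :=
  if r ≤ 1 ∨ N ≤ r + 1 then 2 * N else (N / 8) * (1 / ((r : ℝ) - 1) ^ 2 + 1 / ((N : ℝ) - r - 1) ^ 2)

theorem GG_nonneg (N r : ℕ) : 0 ≤ GG N r := by
  unfold GG; split_ifs <;> positivity

theorem sum_inv_sq (n : ℕ) : ∑ k ∈ range n, 1 / ((k : ℝ) + 1) ^ 2 ≤ 2 := by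
  have key : ∀ n : ℕ, ∑ k ∈ range (n + 1), 1 / ((k : ℝ) + 1) ^ 2 ≤ 2 - 1 / ((n : ℝ) + 1) := by
    intro n
    induction n with
    | zero => norm_num
    | succ n ih =>
      rw [Finset.sum_range_succ]
      have hn : (0 : ℝ) ≤ n := Nat.cast_nonneg n
      push_cast
      have h2 : 1 / ((n : ℝ) + 1 + 1) ^ 2 ≤ 1 / ((n : ℝ) + 1) - 1 / ((n : ℝ) + 1 + 1) := by
        rw [div_sub_div _ _ (by positivity) (by positivity), div_le_div_iff₀ (by positivity) (by positivity)]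
        nlinarith
      linarith
  have h1 : ∑ k ∈ range n, 1 / ((k : ℝ) + 1) ^ 2 ≤ ∑ k ∈ range (n + 1), 1 / ((k : ℝ) + 1) ^ 2 := by
    rw [Finset.sum_range_succ]
    have : (0 : ℝ) ≤ 1 / ((n : ℝ) + 1) ^ 2 := by positivity
    linarith
  have h2 := key n
  have : (0 : ℝ) ≤ 1 / ((n : ℝ) + 1) := by positivity
  linarith

theorem sum_GG {N : ℕ} (hN : 0 < N) : ∑ r ∈ range N, GG N r ≤ 7 * N := by
  have hN' : (0 : ℝ) < N := by exact_mod_cast hN
  have h1 : ∀ r ∈ range N, GG N r ≤ (if r = 0 then 2 * (N : ℝ) else 0) + (if r = 1 then 2 * (N : ℝ) else 0)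
      + (if r = N - 1 then 2 * (N : ℝ) else 0) +
      ((if 2 ≤ r then (N / 8 : ℝ) * (1 / ((r : ℝ) - 1) ^ 2) else 0) +
      (if r + 2 ≤ N then (N / 8 : ℝ) * (1 / ((N : ℝ) - r - 1) ^ 2) else 0)) := by
    intro r hr
    rw [Finset.mem_range] at hr
    have e1 : 0 ≤ (if r = 0 then 2 * (N : ℝ) else 0) := by split_ifs <;> positivity
    have e2 : 0 ≤ (if r = 1 then 2 * (N : ℝ) else 0) := by split_ifs <;> positivity
    have e3 : 0 ≤ (if r = N - 1 then 2 * (N : ℝ) else 0) := by split_ifs <;> positivity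
    have e4 : 0 ≤ (if 2 ≤ r then (N / 8 : ℝ) * (1 / ((r : ℝ) - 1) ^ 2) else 0) := by split_ifs <;> positivity
    have e5 : 0 ≤ (if r + 2 ≤ N then (N / 8 : ℝ) * (1 / ((N : ℝ) - r - 1) ^ 2) else 0) := by
      split_ifs <;> positivity
    unfold GG
    by_cases h : r ≤ 1 ∨ N ≤ r + 1
    · rw [if_pos h]
      rcases h with h | h
      · have : r = 0 ∨ r = 1 := by omega
        rcases this with h | h
        · rw [if_pos h]; linarith
        · rw [if_pos h]; linarith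
      · rw [if_pos (show r = N - 1 by omega)]; linarith
    · rw [if_neg h]
      push Not at h
      have a : 2 ≤ r := by omega
      have b : r + 2 ≤ N := by omega
      rw [if_pos a, if_pos b]
      linarith
  refine (Finset.sum_le_sum h1).trans ?_
  rw [Finset.sum_add_distrib, Finset.sum_add_distrib, Finset.sum_add_distrib, Finset.sum_add_distrib]
  have s1 : ∀ c : ℕ, ∑ r ∈ range N, (if r = c then 2 * (N : ℝ) else 0) ≤ 2 * N := by
    intro c
    rw [Finset.sum_ite_eq']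
    split_ifs
    · exact le_rfl
    · positivity
  have s2 : ∑ r ∈ range N, (if 2 ≤ r then (N / 8 : ℝ) * (1 / ((r : ℝ) - 1) ^ 2) else 0 : ℝ) ≤ ((N : ℝ) / 8) * 2 := by
    have : ∑ r ∈ range N, (if 2 ≤ r then (N / 8 : ℝ) * (1 / ((r : ℝ) - 1) ^ 2) else 0) ≤
        ∑ r ∈ range (N + 2), (if 2 ≤ r then (N / 8 : ℝ) * (1 / ((r : ℝ) - 1) ^ 2) else 0) := by
      apply Finset.sum_le_sum_of_subset_of_nonneg
      · intro j hj
        rw [Finset.mem_range] at hj ⊢; omega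
      · intro j _ _; split_ifs <;> positivity
    refine this.trans ?_
    rw [Finset.sum_range_succ', Finset.sum_range_succ']
    simp only [show ¬ (2 ≤ 0 + 1) by norm_num, show ¬ (2 ≤ 0) by norm_num, if_false, add_zero]
    have e : ∀ k ∈ range N, (if 2 ≤ k + 1 + 1 then (N / 8 : ℝ) * (1 / (((k + 1 + 1 : ℕ) : ℝ) - 1) ^ 2) else 0) =
        (N / 8) * (1 / ((k : ℝ) + 1) ^ 2) := by
      intro k _
      rw [if_pos (by omega)]
      push_cast
      congr 3; ring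
    rw [Finset.sum_congr rfl e, ← Finset.mul_sum]
    have := sum_inv_sq N
    gcongr
  have s3 : ∑ r ∈ range N, (if r + 2 ≤ N then (N / 8 : ℝ) * (1 / ((N : ℝ) - r - 1) ^ 2) else 0 : ℝ) ≤ ((N : ℝ) / 8) * 2 := by
    rw [← Finset.sum_range_reflect]
    have e : ∀ k ∈ range N, (if N - 1 - k + 2 ≤ N then (N / 8 : ℝ) * (1 / ((N : ℝ) - ((N - 1 - k : ℕ) : ℝ) - 1) ^ 2) else 0) ≤
        (if 1 ≤ k then (N / 8) * (1 / ((k : ℝ)) ^ 2) else 0) := by
      intro k hk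
      rw [Finset.mem_range] at hk
      by_cases h : 1 ≤ k
      · rw [if_pos (by omega), if_pos h]
        have : ((N - 1 - k : ℕ) : ℝ) = N - 1 - k := by
          rw [Nat.cast_sub (by omega), Nat.cast_sub (by omega)]; simp
        rw [this]
        apply le_of_eq; congr 3; ring
      · rw [if_neg (by omega), if_neg h]
    refine (Finset.sum_le_sum e).trans ?_
    have : ∑ r ∈ range N, (if 1 ≤ r then (N / 8 : ℝ) * (1 / ((r : ℝ)) ^ 2) else 0) ≤
        ∑ r ∈ range (N + 1), (if 1 ≤ r then (N / 8 : ℝ) * (1 / ((r : ℝ)) ^ 2) else 0) := by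
      apply Finset.sum_le_sum_of_subset_of_nonneg
      · intro j hj
        rw [Finset.mem_range] at hj ⊢; omega
      · intro j _ _; split_ifs <;> positivity
    refine this.trans ?_
    rw [Finset.sum_range_succ']
    simp only [show ¬ (1 ≤ 0) by norm_num, if_false, add_zero]
    have e : ∀ k ∈ range N, (if 1 ≤ k + 1 then (N / 8 : ℝ) * (1 / (((k + 1 : ℕ) : ℝ)) ^ 2) else 0) =
        (N / 8) * (1 / ((k : ℝ) + 1) ^ 2) := by
      intro k _
      rw [if_pos (by omega)]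
      push_cast
      ring
    rw [Finset.sum_congr rfl e, ← Finset.mul_sum]
    have := sum_inv_sq N
    gcongr
  have := s1 0
  have := s1 1
  have := s1 (N - 1)
  linarith

theorem kernel_le {N ℓ : ℕ} (hN : 0 < N) (hℓ : 0 < ℓ) (m m' : ℤ) :
    FQ (2 * N) ((((m : ℝ) / (N * ℓ) : ℝ) : TT) - (((m' : ℝ) / (N * ℓ) : ℝ) : TT)) ≤
      GG N (((m / (ℓ : ℤ) - m' / (ℓ : ℤ)) % (N : ℤ)).toNat) := by
  have hN' : (0 : ℝ) < N := by exact_mod_cast hN
  have hℓ' : (0 : ℝ) < ℓ := by exact_mod_cast hℓ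
  have hℓZ : (0 : ℤ) < ℓ := by exact_mod_cast hℓ
  have hNZ : (0 : ℤ) < N := by exact_mod_cast hN
  set d : ℤ := m / (ℓ : ℤ) - m' / (ℓ : ℤ) with hd
  have hr0 : 0 ≤ d % (N : ℤ) := Int.emod_nonneg _ hNZ.ne'
  have hrN : d % (N : ℤ) < N := Int.emod_lt_of_pos _ hNZ
  obtain ⟨r, hr⟩ := Int.eq_ofNat_of_zero_le hr0
  rw [hr, Int.toNat_natCast]
  rw [hr] at hrN
  have hrN' : r < N := by exact_mod_cast hrN
  unfold GG
  split_ifs with h
  · have := FQ_le (2 * N) ((((m : ℝ) / (N * ℓ) : ℝ) : TT) - (((m' : ℝ) / (N * ℓ) : ℝ) : TT))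
    push_cast at this; exact this
  · push Not at h
    obtain ⟨h1, h2⟩ := h
    have hr1 : (1 : ℝ) < r := by exact_mod_cast h1
    have hr2 : (r : ℝ) + 1 < N := by exact_mod_cast h2
    set k : ℤ := d / (N : ℤ) with hk
    have hdk : d = N * k + r := by
      have := Int.mul_ediv_add_emod d N
      rw [hr] at this; linarith
    -- location of the difference
    set u : ℝ := (m : ℝ) / (N * ℓ) - (m' : ℝ) / (N * ℓ) with hu
    have f1 : (ℓ : ℤ) * (m / (ℓ : ℤ)) ≤ m := Int.mul_ediv_self_le hℓZ.ne'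
    have f2 : m < (ℓ : ℤ) * (m / (ℓ : ℤ)) + ℓ := Int.lt_mul_ediv_self_add hℓZ
    have f1' : (ℓ : ℤ) * (m' / (ℓ : ℤ)) ≤ m' := Int.mul_ediv_self_le hℓZ.ne'
    have f2' : m' < (ℓ : ℤ) * (m' / (ℓ : ℤ)) + ℓ := Int.lt_mul_ediv_self_add hℓZ
    have g1 : (ℓ : ℤ) * (d - 1) ≤ m - m' := by rw [hd]; nlinarith
    have g2 : m - m' ≤ (ℓ : ℤ) * (d + 1) := by rw [hd]; nlinarith
    have g1' : (ℓ : ℝ) * ((N * k + r) - 1) ≤ m - m' := by
      have : ((ℓ : ℤ) : ℝ) * ((d : ℝ) - 1) ≤ m - m' := by exact_mod_cast g1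
      rw [hdk] at this; push_cast at this; exact this
    have g2' : (m : ℝ) - m' ≤ (ℓ : ℝ) * ((N * k + r) + 1) := by
      have : (m : ℝ) - m' ≤ ((ℓ : ℤ) : ℝ) * ((d : ℝ) + 1) := by exact_mod_cast g2
      rw [hdk] at this; push_cast at this; exact this
    have hum : u * (N * ℓ) = m - m' := by rw [hu]; field_simp
    have k1 : (r : ℝ) - 1 ≤ N * (u - k) := by
      have : (ℓ : ℝ) * ((N * k + r) - 1) ≤ ℓ * (N * u) := by rw [← hum] at g1'; linarith
      have := le_of_mul_le_mul_left this hℓ'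
      linarith
    have k2 : N * (u - k) ≤ (r : ℝ) + 1 := by
      have : (ℓ : ℝ) * (N * u) ≤ ℓ * ((N * k + r) + 1) := by rw [← hum] at g2'; linarith
      have := le_of_mul_le_mul_left this hℓ'
      linarith
    have hnorm : ‖(((m : ℝ) / (N * ℓ) : ℝ) : TT) - (((m' : ℝ) / (N * ℓ) : ℝ) : TT)‖ = |u - round u| := by
      have : (((m : ℝ) / (N * ℓ) : ℝ) : TT) - (((m' : ℝ) / (N * ℓ) : ℝ) : TT) = ((u : ℝ) : TT) := rfl
      rw [this, UnitAddCircle.norm_eq]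
    have hlow : ((r : ℝ) - 1) / N ≤ ‖(((m : ℝ) / (N * ℓ) : ℝ) : TT) - (((m' : ℝ) / (N * ℓ) : ℝ) : TT)‖ ∨
        ((N : ℝ) - r - 1) / N ≤ ‖(((m : ℝ) / (N * ℓ) : ℝ) : TT) - (((m' : ℝ) / (N * ℓ) : ℝ) : TT)‖ := by
      rw [hnorm]
      rcases le_or_gt (round u) k with h | h
      · left
        have : (round u : ℝ) ≤ k := by exact_mod_cast h
        rw [div_le_iff₀ hN']
        have h3 : u - k ≤ |u - round u| := le_trans (by linarith) (le_abs_self _)
        nlinarith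
      · right
        have : (k : ℝ) + 1 ≤ round u := by exact_mod_cast h
        rw [div_le_iff₀ hN']
        have h3 : 1 - (u - k) ≤ |u - round u| := le_trans (by linarith) (neg_le_abs _)
        nlinarith
    have hN2 : 0 < 2 * N := by omega
    rcases hlow with h | h
    · have hpos : 0 < ((r : ℝ) - 1) / N := by apply div_pos <;> linarith
      have hθ := hpos.trans_le h
      refine (FQ_le' hN2 hθ).trans ?_
      have e1 : 1 / (4 * ((2 * N : ℕ) : ℝ) * ‖(((m : ℝ) / (N * ℓ) : ℝ) : TT) - (((m' : ℝ) / (N * ℓ) : ℝ) : TT)‖ ^ 2) ≤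
          1 / (4 * ((2 * N : ℕ) : ℝ) * (((r : ℝ) - 1) / N) ^ 2) := by
        apply one_div_le_one_div_of_le
        · positivity
        · gcongr
      refine e1.trans ?_
      have e2 : 1 / (4 * ((2 * N : ℕ) : ℝ) * (((r : ℝ) - 1) / N) ^ 2) = (N / 8) * (1 / ((r : ℝ) - 1) ^ 2) := by
        have : (r : ℝ) - 1 ≠ 0 := by linarith
        push_cast; field_simp; ring
      rw [e2]
      have : 0 ≤ 1 / ((N : ℝ) - r - 1) ^ 2 := by positivity
      gcongr
      linarith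
    · have hpos : 0 < ((N : ℝ) - r - 1) / N := by apply div_pos <;> linarith
      have hθ := hpos.trans_le h
      refine (FQ_le' hN2 hθ).trans ?_
      have e1 : 1 / (4 * ((2 * N : ℕ) : ℝ) * ‖(((m : ℝ) / (N * ℓ) : ℝ) : TT) - (((m' : ℝ) / (N * ℓ) : ℝ) : TT)‖ ^ 2) ≤
          1 / (4 * ((2 * N : ℕ) : ℝ) * (((N : ℝ) - r - 1) / N) ^ 2) := by
        apply one_div_le_one_div_of_le
        · positivity
        · gcongr
      refine e1.trans ?_
      have e2 : 1 / (4 * ((2 * N : ℕ) : ℝ) * (((N : ℝ) - r - 1) / N) ^ 2) = (N / 8) * (1 / ((N : ℝ) - r - 1) ^ 2) := by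
        have : (N : ℝ) - r - 1 ≠ 0 := by linarith
        push_cast; field_simp; ring
      rw [e2]
      have : 0 ≤ 1 / ((r : ℝ) - 1) ^ 2 := by positivity
      gcongr
      linarith

theorem gram_bound {N ℓ A : ℕ} (hN : 0 < N) (hℓ : 0 < ℓ) (s : Finset ℤ)
    (hinj : Set.InjOn (fun m : ℤ => m / (ℓ : ℤ)) s) (hbd : ∀ m ∈ s, |m / (ℓ : ℤ)| ≤ A)
    (m : ℤ) (hm : m ∈ s) :
    ∑ m' ∈ s, FQ (2 * N) ((((m : ℝ) / (N * ℓ) : ℝ) : TT) - (((m' : ℝ) / (N * ℓ) : ℝ) : TT)) ≤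
      7 * N * (4 * A / N + 3) := by
  have hN' : (0 : ℝ) < N := by exact_mod_cast hN
  have hNZ : (0 : ℤ) < N := by exact_mod_cast hN
  set res : ℤ → ℕ := fun m' => ((m / (ℓ : ℤ) - m' / (ℓ : ℤ)) % (N : ℤ)).toNat with hres
  have h1 : ∑ m' ∈ s, FQ (2 * N) ((((m : ℝ) / (N * ℓ) : ℝ) : TT) - (((m' : ℝ) / (N * ℓ) : ℝ) : TT)) ≤
      ∑ m' ∈ s, GG N (res m') := Finset.sum_le_sum (fun m' _ => kernel_le hN hℓ m m')
  refine h1.trans ?_
  have hmaps : ∀ m' ∈ s, res m' ∈ range N := by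
    intro m' _
    rw [Finset.mem_range, hres]
    have a := Int.emod_nonneg (m / (ℓ : ℤ) - m' / (ℓ : ℤ)) hNZ.ne'
    have b := Int.emod_lt_of_pos (m / (ℓ : ℤ) - m' / (ℓ : ℤ)) hNZ
    dsimp only
    omega
  rw [← Finset.sum_fiberwise_of_maps_to hmaps]
  have hfib : ∀ r ∈ range N, ∑ m' ∈ s.filter (fun m' => res m' = r), GG N (res m') ≤ (4 * A / N + 3) * GG N r := by
    intro r _
    have e : ∑ m' ∈ s.filter (fun m' => res m' = r), GG N (res m') = ∑ m' ∈ s.filter (fun m' => res m' = r), GG N r := by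
      apply Finset.sum_congr rfl
      intro m' hm'
      rw [(Finset.mem_filter.mp hm').2]
    rw [e, Finset.sum_const, nsmul_eq_mul]
    apply mul_le_mul_of_nonneg_right _ (GG_nonneg N r)
    -- cardinality of a fiber
    set q : ℤ → ℤ := fun m' => (m / (ℓ : ℤ) - m' / (ℓ : ℤ)) / (N : ℤ) with hq
    have hcard : (s.filter (fun m' => res m' = r)).card ≤ (Finset.Icc (-(2 * A : ℤ) / N) ((2 * A : ℤ) / N)).card := by
      apply Finset.card_le_card_of_injOn q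
      · intro m' hm'
        have hm's := (Finset.mem_filter.mp hm').1
        have a := abs_le.mp (hbd m hm)
        have b := abs_le.mp (hbd m' hm's)
        rw [Finset.coe_Icc, Set.mem_Icc]
        constructor
        · exact Int.ediv_le_ediv hNZ (by linarith [a.1, b.2])
        · exact Int.ediv_le_ediv hNZ (by linarith [a.2, b.1])
      · intro m₁ h₁ m₂ h₂ heq
        rw [Finset.mem_coe, Finset.mem_filter] at h₁ h₂
        apply hinj h₁.1 h₂.1
        have r1 := h₁.2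
        have r2 := h₂.2
        have e1 := Int.mul_ediv_add_emod (m / (ℓ : ℤ) - m₁ / (ℓ : ℤ)) N
        have e2 := Int.mul_ediv_add_emod (m / (ℓ : ℤ) - m₂ / (ℓ : ℤ)) N
        have a1 := Int.emod_nonneg (m / (ℓ : ℤ) - m₁ / (ℓ : ℤ)) hNZ.ne'
        have a2 := Int.emod_nonneg (m / (ℓ : ℤ) - m₂ / (ℓ : ℤ)) hNZ.ne'
        have r3 : (m / (ℓ : ℤ) - m₁ / (ℓ : ℤ)) % (N : ℤ) = (m / (ℓ : ℤ) - m₂ / (ℓ : ℤ)) % (N : ℤ) := by
          rw [hres] at r1 r2; dsimp only at r1 r2; omega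
        rw [hq] at heq; dsimp only at heq
        rw [heq, r3] at e1
        dsimp only
        linarith
    have hc2 : ((s.filter (fun m' => res m' = r)).card : ℝ) ≤ ((Finset.Icc (-(2 * A : ℤ) / N) ((2 * A : ℤ) / N)).card : ℝ) := by
      exact_mod_cast hcard
    refine hc2.trans ?_
    rw [Int.card_Icc]
    have hA : (0 : ℤ) ≤ 2 * A := by positivity
    have hle : -(2 * A : ℤ) / N ≤ (2 * A : ℤ) / N := Int.ediv_le_ediv hNZ (by linarith)
    have ht : (((2 * A : ℤ) / N + 1 - -(2 * A : ℤ) / N).toNat : ℝ) = (((2 * A : ℤ) / N + 1 - -(2 * A : ℤ) / N : ℤ) : ℝ) := by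
      rw [← Int.cast_natCast, Int.toNat_of_nonneg (by linarith)]
    rw [ht]
    push_cast
    have u1 : (((2 * A : ℤ) / N : ℤ) : ℝ) ≤ 2 * A / N := by
      rw [le_div_iff₀ hN']
      have := Int.ediv_mul_le (2 * A : ℤ) hNZ.ne'
      exact_mod_cast this
    have u2 : -(2 * (A : ℝ)) / N - 1 ≤ ((-(2 * A : ℤ) / N : ℤ) : ℝ) := by
      rw [sub_le_iff_le_add, div_le_iff₀ hN']
      have := Int.lt_ediv_add_one_mul_self (-(2 * A : ℤ)) hNZ
      have h' : ((-(2 * A : ℤ) : ℤ) : ℝ) < (((-(2 * A : ℤ) / N + 1) * N : ℤ) : ℝ) := by exact_mod_cast this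
      push_cast at h' ⊢
      linarith
    have u3 : 4 * (A : ℝ) / N = 2 * A / N + 2 * A / N := by ring
    have u4 : -(2 * (A : ℝ)) / N = - (2 * A / N) := by ring
    rw [u3]; linarith
  refine (Finset.sum_le_sum hfib).trans ?_
  rw [← Finset.mul_sum]
  calc _ ≤ (4 * A / N + 3) * (7 * (N : ℝ)) := by
        have := sum_GG hN
        gcongr
    _ = _ := by ring

theorem large_sieve {N ℓ A : ℕ} (hN : 0 < N) (hℓ : 0 < ℓ) (s : Finset ℤ)
    (hinj : Set.InjOn (fun m : ℤ => m / (ℓ : ℤ)) s) (hbd : ∀ m ∈ s, |m / (ℓ : ℤ)| ≤ A)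
    (f : ℕ → ℝ) :
    ∑ m ∈ s, ‖∑ x ∈ range N, (f x : ℂ) * ch (x • (((m : ℝ) / (N * ℓ) : ℝ) : TT))‖ ^ 2 ≤
      14 * N * (4 * A / N + 3) * ∑ x ∈ range N, f x ^ 2 := by
  have := duality N hN s (fun m : ℤ => (((m : ℝ) / (N * ℓ) : ℝ) : TT)) (7 * N * (4 * A / N + 3)) (by positivity)
    (fun m hm => gram_bound hN hℓ s hinj hbd m hm) f
  refine this.trans (le_of_eq ?_)
  ring

end Run7.h297
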