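import Pool.Agent.Run7.h297.CaseTwo
import Pool.Agent.Run7.h297.Sieve

set_option autoImplicit false

/-! The bilinear hitting estimate. -/

noncomputable section

namespace Run7.h297

open Real Finset MeasureTheory

theorem grouping (𝓜 : Finset (ℤ × ℤ)) (f : ℤ → ℝ) (hf : ∀ n, 0 ≤ f n) (ℓ : ℤ) (k : ℕ)
    (hk : ∀ t : ℤ, (𝓜.filter (fun m => m.1 / ℓ = t)).card ≤ k) :
    ∃ s : Finset ℤ, Set.InjOn (fun m : ℤ => m / ℓ) s ∧ (∀ n ∈ s, ∃ m ∈ 𝓜, m.1 = n) ∧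
      ∑ m ∈ 𝓜, f m.1 ≤ k * ∑ n ∈ s, f n := by
  classical
  set τ : Finset ℤ := 𝓜.image (fun m => m.1 / ℓ) with hτ
  have hne : ∀ t ∈ τ, (𝓜.filter (fun m => m.1 / ℓ = t)).Nonempty := by
    intro t ht
    rw [hτ, Finset.mem_image] at ht
    obtain ⟨m, hm, hmt⟩ := ht
    exact ⟨m, Finset.mem_filter.mpr ⟨hm, hmt⟩⟩
  have hex : ∀ t : ℤ, ∃ m : ℤ × ℤ, t ∈ τ → (m ∈ 𝓜 ∧ m.1 / ℓ = t ∧ ∀ m' ∈ 𝓜, m'.1 / ℓ = t → f m'.1 ≤ f m.1) := by
    intro t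
    by_cases ht : t ∈ τ
    · obtain ⟨m, hm, hmax⟩ := Finset.exists_max_image _ (fun m : ℤ × ℤ => f m.1) (hne t ht)
      rw [Finset.mem_filter] at hm
      refine ⟨m, fun _ => ⟨hm.1, hm.2, ?_⟩⟩
      intro m' hm' ht'
      exact hmax m' (Finset.mem_filter.mpr ⟨hm', ht'⟩)
    · exact ⟨0, fun h => absurd h ht⟩
  choose rep hrep using hex
  have hinj : Set.InjOn (fun t => (rep t).1) τ := by
    intro t ht t' ht' h
    have a := (hrep t ht).2.1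
    have b := (hrep t' ht').2.1
    dsimp only at h
    rw [← a, ← b, h]
  refine ⟨τ.image (fun t => (rep t).1), ?_, ?_, ?_⟩
  · intro a ha b hb h
    rw [Finset.mem_coe, Finset.mem_image] at ha hb
    obtain ⟨t, ht, rfl⟩ := ha
    obtain ⟨t', ht', rfl⟩ := hb
    dsimp only at h
    rw [(hrep t ht).2.1, (hrep t' ht').2.1] at h
    rw [h]
  · intro n hn
    rw [Finset.mem_image] at hn
    obtain ⟨t, ht, rfl⟩ := hn
    exact ⟨rep t, (hrep t ht).1, rfl⟩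
  · rw [Finset.sum_image hinj]
    have hmaps : ∀ m ∈ 𝓜, m.1 / ℓ ∈ τ := fun m hm => Finset.mem_image_of_mem _ hm
    rw [← Finset.sum_fiberwise_of_maps_to hmaps, Finset.mul_sum]
    apply Finset.sum_le_sum
    intro t ht
    calc ∑ m ∈ 𝓜.filter (fun m => m.1 / ℓ = t), f m.1
        ≤ ∑ m ∈ 𝓜.filter (fun m => m.1 / ℓ = t), f (rep t).1 := by
          apply Finset.sum_le_sum
          intro m hm
          rw [Finset.mem_filter] at hm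
          exact (hrep t ht).2.2 m hm.1 hm.2
      _ = (𝓜.filter (fun m => m.1 / ℓ = t)).card * f (rep t).1 := by
          rw [Finset.sum_const, nsmul_eq_mul]
      _ ≤ k * f (rep t).1 := by
          apply mul_le_mul_of_nonneg_right _ (hf _)
          exact_mod_cast hk t

theorem conj_hat (N : ℕ) (μ : ℕ → ℝ) (θ : TT) (cc : TT) :
    ‖∑ i ∈ range N, (μ i : ℂ) * ch (-(cc + i • θ))‖ = ‖∑ i ∈ range N, (μ i : ℂ) * ch (i • θ)‖ := by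
  have h1 : ∑ i ∈ range N, (μ i : ℂ) * ch (-(cc + i • θ)) =
      ch (-cc) * (starRingEnd ℂ) (∑ i ∈ range N, (μ i : ℂ) * ch (i • θ)) := by
    rw [map_sum, Finset.mul_sum]
    apply Finset.sum_congr rfl; intro i _
    rw [map_mul, Complex.conj_ofReal, star_ch, neg_add, ch_add]
    ring
  rw [h1, norm_mul, norm_ch, one_mul, Complex.norm_conj]

theorem propB {p : Par} (hp : p.Ok) {T : Finset ℕ} {xa xb : ℕ → ℝ} {c : ℝ} (hP : Pts p T xa xb c)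
    (s : ℤ) (G : ℝ) (g₂ : TT) (μ ν : ℕ → ℝ) (hμ0 : ∀ i, 0 ≤ μ i) (hμ1 : ∑ i ∈ range p.N, μ i = 1)
    (hν0 : ∀ y, 0 ≤ ν y) (hν1 : ∑ y ∈ T, ν y = 1) {l₁ l₂ : ℝ} (hl₁ : ∀ i ∈ range p.N, μ i ≤ l₁)
    (hl₂ : ∀ y ∈ T, ν y ≤ l₂) (hl₂0 : 0 ≤ l₂)
    (hsmall : 5600 * p.K * (p.D + 2) * (p.Kc + 1) * (4 * p.A / p.N + 3) * (l₁ * l₂ * p.N) ≤ p.V) :
    p.V / (2 * p.K) ≤ ∑ y ∈ T, ∑ i ∈ range p.N,
      if SS p.Q p.δ₁ p.δ₂ s (((xa y : ℝ) : TT), ((xb y : ℝ) : TT)) ((((G + i) / (p.N * p.ℓ) : ℝ) : TT), g₂) ≠ 0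
        then μ i * ν y else 0 := by
  classical
  have hN : (0 : ℝ) < p.N := by exact_mod_cast hp.hN
  have hℓ : (0 : ℝ) < p.ℓ := by exact_mod_cast hp.hℓ
  have hV := hp.V_pos
  have hK := hp.hK
  set X : ℕ → TT × TT := fun y => (((xa y : ℝ) : TT), ((xb y : ℝ) : TT)) with hX
  set g₁ : ℕ → TT := fun i => (((G + i) / (p.N * p.ℓ) : ℝ) : TT) with hg₁
  set f : ℤ → ℝ := fun n => ‖∑ i ∈ range p.N, (μ i : ℂ) * ch (i • (((n : ℝ) / (p.N * p.ℓ) : ℝ) : TT))‖ ^ 2 with hf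
  have hf0 : ∀ n, 0 ≤ f n := fun n => by rw [hf]; positivity
  have hhat : ∀ n : ℤ, ‖∑ i ∈ range p.N, (μ i : ℂ) * ch (-(n • g₁ i))‖ ^ 2 = f n := by
    intro n
    have e : ∀ i ∈ range p.N, (μ i : ℂ) * ch (-(n • g₁ i)) =
        (μ i : ℂ) * ch (-((((n * G / (p.N * p.ℓ)) : ℝ) : TT) + i • (((n : ℝ) / (p.N * p.ℓ) : ℝ) : TT))) := by
      intro i _
      congr 3
      rw [hg₁]; dsimp only
      have e1 : n • (((G + i) / (p.N * p.ℓ) : ℝ) : TT) = ((n * ((G + i) / (p.N * p.ℓ)) : ℝ) : TT) := by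
        rw [← zsmul_eq_mul]; rfl
      have e2 : i • (((n : ℝ) / (p.N * p.ℓ) : ℝ) : TT) = ((i * ((n : ℝ) / (p.N * p.ℓ)) : ℝ) : TT) := by
        rw [← nsmul_eq_mul i]; rfl
      rw [e1, e2]
      have e3 : (((n * G / (p.N * p.ℓ)) : ℝ) : TT) + ((i * ((n : ℝ) / (p.N * p.ℓ)) : ℝ) : TT) =
        ((n * G / (p.N * p.ℓ) + i * ((n : ℝ) / (p.N * p.ℓ)) : ℝ) : TT) := rfl
      rw [e3]
      congr 1
      field_simp
    rw [Finset.sum_congr rfl e, conj_hat]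
  set η : ℝ := p.V / (20 * p.K) with hη
  have hη0 : 0 < η := by positivity
  have hVη : p.V / η = 20 * p.K := by rw [hη]; field_simp
  set NF : ℕ → Finset (ℤ × ℤ) := fun y => NearF p.Rl p.Rh p.R2 p.r (X y) with hNF
  -- per point bound
  have h1 : ∀ y ∈ T, p.V * (9 / 10) - 20 * p.K * ∑ m ∈ NF y, f m.1 ≤
      ∑ i ∈ range p.N, μ i * SS p.Q p.δ₁ p.δ₂ s (X y) (g₁ i, g₂) := by
    intro y hy
    have hg := hP.hg y hy
    have h := per_point hp.hQ hp.h₁ hp.h₁' hp.h₂ hp.h₂' s (X y) p.N g₁ g₂ μ hμ0 hμ1 p.Rl p.Rh p.R2 p.r hη0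
    have h2 := (abs_le.mp h).1
    simp_rw [hhat] at h2
    rw [← Finset.mul_sum] at h2
    have e : (p.Q : ℝ) * (p.δ₁ * p.δ₂) = p.V := rfl
    rw [e, hVη] at h2
    have a := hg.a
    have b := hg.b
    have a' : η * SS p.Q p.δ₁ p.δ₂ 0 (X y) 0 ≤ p.V / 20 := by
      calc _ ≤ η * p.K := by gcongr
        _ = p.V / 20 := by rw [hη]; field_simp
    have b' : Rest p.Q p.δ₁ p.δ₂ p.Rl p.Rh p.R2 p.r (X y) ≤ p.V / 20 := b
    linarith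
  -- averaged bound for the resonant energy
  set 𝓜 := T.biUnion NF with h𝓜
  have h2 : ∑ y ∈ T, ∑ m ∈ NF y, f m.1 ≤ (p.D + 2) * ∑ m ∈ 𝓜, f m.1 := by
    have e : ∑ y ∈ T, ∑ m ∈ NF y, f m.1 = ∑ m ∈ 𝓜, ∑ y ∈ T.filter (fun y => m ∈ NF y), f m.1 := by
      apply Finset.sum_comm'
      intro y m
      rw [Finset.mem_filter, h𝓜, Finset.mem_biUnion]
      constructor
      · rintro ⟨hy, hm⟩; exact ⟨⟨hy, hm⟩, y, hy, hm⟩
      · rintro ⟨⟨hy, hm⟩, _⟩; exact ⟨hy, hm⟩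
    rw [e, Finset.mul_sum]
    apply Finset.sum_le_sum
    intro m _
    rw [Finset.sum_const, nsmul_eq_mul]
    apply mul_le_mul_of_nonneg_right _ (hf0 _)
    have := Pts.card_y hp hP (m := m)
    exact_mod_cast this
  obtain ⟨sg, hs1, hs2, hs3⟩ := grouping 𝓜 f hf0 (p.ℓ : ℤ) (p.Kc + 1) (Pts.card_m hp hP)
  have hbd : ∀ m ∈ sg, |m / (p.ℓ : ℤ)| ≤ p.A := by
    intro n hn
    obtain ⟨m, hm, rfl⟩ := hs2 n hn
    rw [h𝓜, Finset.mem_biUnion] at hm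
    obtain ⟨y, _, hm⟩ := hm
    rw [hNF, mem_NearF] at hm
    obtain ⟨_, hm2, _, _⟩ := hm
    have hℓZ : (0 : ℤ) < p.ℓ := by exact_mod_cast hp.hℓ
    have hA : (p.Rh : ℤ) + p.ℓ ≤ p.A * p.ℓ := by exact_mod_cast hp.hA
    rw [abs_le]
    constructor
    · rw [Int.le_ediv_iff_mul_le hℓZ]
      have : -(p.Rh : ℤ) ≤ m.1 := by omega
      nlinarith
    · have h3 : m.1 / (p.ℓ : ℤ) ≤ (p.A * p.ℓ : ℤ) / p.ℓ := by
        apply Int.ediv_le_ediv hℓZ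
        have : m.1 ≤ (p.Rh : ℤ) := by omega
        linarith
      rwa [Int.mul_ediv_cancel _ hℓZ.ne'] at h3
  have h3 := large_sieve hp.hN hp.hℓ sg hs1 hbd μ
  have h4 : ∑ x ∈ range p.N, μ x ^ 2 ≤ l₁ := by
    calc ∑ x ∈ range p.N, μ x ^ 2 ≤ ∑ x ∈ range p.N, l₁ * μ x := by
          apply Finset.sum_le_sum; intro x hx
          rw [sq]
          exact mul_le_mul_of_nonneg_right (hl₁ x hx) (hμ0 x)
      _ = l₁ := by rw [← Finset.mul_sum, hμ1, mul_one]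
  have h5 : ∑ y ∈ T, ∑ m ∈ NF y, f m.1 ≤
      (p.D + 2) * ((p.Kc + 1) * (14 * p.N * (4 * p.A / p.N + 3) * l₁)) := by
    refine h2.trans ?_
    gcongr
    refine hs3.trans ?_
    push_cast
    gcongr
    refine h3.trans ?_
    gcongr
  have h6 : ∑ y ∈ T, ν y * ∑ m ∈ NF y, f m.1 ≤ l₂ * ((p.D + 2) * ((p.Kc + 1) * (14 * p.N * (4 * p.A / p.N + 3) * l₁))) := by
    calc _ ≤ ∑ y ∈ T, l₂ * ∑ m ∈ NF y, f m.1 := by
          apply Finset.sum_le_sum; intro y hy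
          exact mul_le_mul_of_nonneg_right (hl₂ y hy) (Finset.sum_nonneg (fun m _ => hf0 _))
      _ = l₂ * ∑ y ∈ T, ∑ m ∈ NF y, f m.1 := by rw [Finset.mul_sum]
      _ ≤ _ := by gcongr
  have h7 : p.V / 2 ≤ ∑ y ∈ T, ν y * ∑ i ∈ range p.N, μ i * SS p.Q p.δ₁ p.δ₂ s (X y) (g₁ i, g₂) := by
    have e1 : ∑ y ∈ T, ν y * (p.V * (9 / 10) - 20 * p.K * ∑ m ∈ NF y, f m.1) ≤
        ∑ y ∈ T, ν y * ∑ i ∈ range p.N, μ i * SS p.Q p.δ₁ p.δ₂ s (X y) (g₁ i, g₂) := by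
      apply Finset.sum_le_sum; intro y hy
      exact mul_le_mul_of_nonneg_left (h1 y hy) (hν0 y)
    have e2 : ∑ y ∈ T, ν y * (p.V * (9 / 10) - 20 * p.K * ∑ m ∈ NF y, f m.1) =
        p.V * (9 / 10) - 20 * p.K * ∑ y ∈ T, ν y * ∑ m ∈ NF y, f m.1 := by
      simp_rw [mul_sub]
      rw [Finset.sum_sub_distrib, ← Finset.sum_mul, hν1, one_mul, Finset.mul_sum]
      congr 1
      apply Finset.sum_congr rfl; intro y _; ring
    have e3 : 20 * p.K * (l₂ * ((p.D + 2) * ((p.Kc + 1) * (14 * p.N * (4 * p.A / p.N + 3) * l₁)))) ≤ p.V / 20 := by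
      have : 20 * p.K * (l₂ * ((p.D + 2) * ((p.Kc + 1) * (14 * p.N * (4 * p.A / p.N + 3) * l₁)))) =
        (5600 * p.K * (p.D + 2) * (p.Kc + 1) * (4 * p.A / p.N + 3) * (l₁ * l₂ * p.N)) / 20 := by ring
      rw [this]; linarith
    have e4 : 20 * p.K * ∑ y ∈ T, ν y * ∑ m ∈ NF y, f m.1 ≤ p.V / 20 := by
      refine le_trans ?_ e3
      gcongr
    linarith
  have h8 : ∑ y ∈ T, ν y * ∑ i ∈ range p.N, μ i * SS p.Q p.δ₁ p.δ₂ s (X y) (g₁ i, g₂) ≤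
      p.K * ∑ y ∈ T, ∑ i ∈ range p.N, if SS p.Q p.δ₁ p.δ₂ s (X y) (g₁ i, g₂) ≠ 0 then μ i * ν y else 0 := by
    rw [Finset.mul_sum]
    apply Finset.sum_le_sum; intro y hy
    rw [Finset.mul_sum, Finset.mul_sum]
    apply Finset.sum_le_sum; intro i _
    by_cases h : SS p.Q p.δ₁ p.δ₂ s (X y) (g₁ i, g₂) = 0
    · rw [h]; simp
    · rw [if_pos h]
      have h9 := (SS_le hp.hQ hp.h₁ hp.h₁' hp.h₂ hp.h₂' s (X y) (g₁ i, g₂)).trans (hP.hg y hy).a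
      calc _ = (μ i * ν y) * SS p.Q p.δ₁ p.δ₂ s (X y) (g₁ i, g₂) := by ring
        _ ≤ (μ i * ν y) * p.K := by
          apply mul_le_mul_of_nonneg_left h9
          exact mul_nonneg (hμ0 i) (hν0 y)
        _ = _ := by ring
  rw [div_le_iff₀ (by positivity)]
  have := h7.trans h8
  linarith

end Run7.h297
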