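import Pool.Agent.Run7.h297.Node
import Pool.Agent.Run7.h297.PropB
import Pool.Agent.Run7.h297.Transfer
import Pool.Agent.Run7.h297.Two

set_option autoImplicit false

/-! The entropy form of the node inequality for digit systems. -/

noncomputable section

namespace Run7.h297

open Real Finset MeasureTheory

theorem hit_of_SS {Q : ℕ} {δ₁ δ₂ : ℝ} (h₁ : 0 < δ₁) (h₂ : 0 < δ₂) {x γ : TT × TT}
    (h : SS Q δ₁ δ₂ (2 * Q : ℤ) x γ ≠ 0) :
    ∃ n : ℕ, Q < n ∧ n < 3 * Q ∧ ‖(n : ℤ) • x.1 - γ.1‖ < δ₁ ∧ ‖(n : ℤ) • x.2 - γ.2‖ < δ₂ := by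
  unfold SS at h
  have h2 := right_ne_zero_of_mul h
  obtain ⟨j, hj, h3⟩ := Finset.exists_ne_zero_of_sum_ne_zero h2
  obtain ⟨j', hj', h4⟩ := Finset.exists_ne_zero_of_sum_ne_zero h3
  rw [Finset.mem_range] at hj hj'
  have e : ((2 * Q + j - j' : ℕ) : ℤ) = (2 * Q : ℤ) + ((j : ℤ) - (j' : ℤ)) := by
    rw [Nat.cast_sub (by omega)]; push_cast; ring
  refine ⟨2 * Q + j - j', by omega, by omega, ?_, ?_⟩
  · rw [e]
    by_contra hc
    push Not at hc
    exact h4 (by rw [tent_eq_zero h₁ hc, zero_mul])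
  · rw [e]
    by_contra hc
    push Not at hc
    exact h4 (by rw [tent_eq_zero h₂ hc, mul_zero])

theorem smul_coe_sub (n : ℕ) (x g : ℝ) : (n : ℤ) • ((x : ℝ) : TT) - ((g : ℝ) : TT) = ((n * x - g : ℝ) : TT) := by
  have e1 : (n : ℤ) • ((x : ℝ) : TT) = ((n * x : ℝ) : TT) := by
    have : ((n * x : ℝ)) = (n : ℤ) • x := by rw [zsmul_eq_mul]; push_cast; ring
    rw [this]; rfl
  rw [e1]; rfl

theorem norm_shift (n : ℕ) (x x' g g' : ℝ) :
    ‖((n * x - g : ℝ) : TT)‖ ≤ ‖((n * x' - g' : ℝ) : TT)‖ + n * |x - x'| + |g - g'| := by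
  have e : ((n * x - g : ℝ) : TT) = ((n * x' - g' : ℝ) : TT) + ((n * (x - x') - (g - g') : ℝ) : TT) := by
    have : (n * x - g : ℝ) = (n * x' - g') + (n * (x - x') - (g - g')) := by ring
    rw [this]; rfl
  rw [e]
  refine (norm_add_le _ _).trans ?_
  have h1 := norm_coe_le_abs (n * (x - x') - (g - g'))
  have h2 : |n * (x - x') - (g - g')| ≤ |n * (x - x')| + |g - g'| := abs_sub _ _
  rw [abs_mul, Nat.abs_cast] at h2
  linarith

variable {Ω : Type*} [Fintype Ω] (S : Sys Ω)

/-- the two constants of the node inequality -/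
def cst1 (M e t w : ℕ) (C : ℝ) : ℝ :=
  Real.log (8 * Real.exp 2 * (M * Real.log 2 + 1) ^ 2 / (1 / 2 ^ (5 * w + 2 * t + 2 * e + 38))) +
  2 * (M * Real.log 2) * (4 * (M * Real.log 2 + 1) * (C * (256 / 2 ^ t)))

def cst2 (M e t : ℕ) : ℝ :=
  2 * (M * Real.log 2) * (8 * (M * Real.log 2 + 1) ^ 2 / (1 / 2 ^ (e + t + 6)))

theorem dig_mod {a M : ℕ} {s s' : ℝ} : dig (a + M) s = dig (a + M) s' ↔
    dig a s = dig a s' ∧ dig (a + M) s % 2 ^ M = dig (a + M) s' % 2 ^ M := by
  constructor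
  · intro h
    exact ⟨dig_congr (by omega) h, by rw [h]⟩
  · rintro ⟨h1, h2⟩
    rw [← dig_div (k := a) (m := M), ← dig_div (k := a) (m := M) (t := s')] at h1
    have a1 := Nat.div_add_mod (dig (a + M) s) (2 ^ M)
    have a2 := Nat.div_add_mod (dig (a + M) s') (2 ^ M)
    rw [h1, h2] at a1
    omega

open Classical in
theorem Sys.P5 {n : ℕ} {C : ℝ} (hC : 0 ≤ C) (hd : S.Dom n C) {q0 Q1 : ℕ} {a b M e t w : ℕ}
    (he : Exps a b M e t w) (hbad : S.Bad q0 Q1 (1 / 2 ^ e)) (hq0 : q0 ≤ 2 ^ (a + b)) (hQ1 : 3 * 2 ^ (a + b) ≤ Q1)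
    (hn1 : 2 * a + b + M ≤ n) (hn2 : a + 2 * b ≤ n) :
    (S.hh (2 * a + b) (a + 2 * b) (a + M) b - S.hh (2 * a + b) (a + 2 * b) a b) +
      (S.hh (2 * a + b + M) (a + 2 * b) a b - S.hh (2 * a + b) (a + 2 * b) a b) ≤
      M * Real.log 2 + cst1 M e t w C + cst2 M e t * II S.hh M a b := by
  set i := 2 * a + b with hi
  set j := a + 2 * b with hj
  set p := par2 a b M e t w with hp
  have hok := he.ok
  have hV := he.V
  set 𝓖 : Set (TT × TT) := {x | Gen p x} with h𝓖
  have hmeas := he.meas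
  set ξ : Ω → ℕ × ℕ × ℕ × ℕ := S.xi i j a b with hξ
  set X : Ω → ℕ := fun ω => dig (a + M) (S.γ₁ ω) % 2 ^ M with hX
  set Y : Ω → ℕ := fun ω => dig (i + M) (S.α ω) % 2 ^ M with hY
  have hpos2M : 0 < 2 ^ M := by positivity
  set Tg : ℕ × ℕ × ℕ × ℕ → Finset ℕ := fun v =>
    (range (2 ^ M)).filter (fun y => good 𝓖 (i + M) j (v.1 * 2 ^ M + y) v.2.1) with hTg
  have hXH : H S.p (fun ω => (ξ ω, X ω)) = S.hh i j (a + M) b := by
    apply H_congr
    intro ω ω'
    rw [pair_eq', S.xi_eq, S.xi_eq, dig_mod (a := a) (M := M)]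
    tauto
  have hYH : H S.p (fun ω => (ξ ω, Y ω)) = S.hh (i + M) j a b := by
    apply H_congr
    intro ω ω'
    rw [pair_eq', S.xi_eq, S.xi_eq, dig_mod (a := i) (M := M)]
    tauto
  have hXYH : H S.p (fun ω => (ξ ω, (X ω, Y ω))) = S.hh (i + M) j (a + M) b := by
    apply H_congr
    intro ω ω'
    rw [triple_eq, S.xi_eq, S.xi_eq, dig_mod (a := i) (M := M), dig_mod (a := a) (M := M)]
    tauto
  have hlogN : Real.log ((2 ^ M : ℕ) : ℝ) = M * Real.log 2 := by
    push_cast; rw [Real.log_pow]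
  have hmass : (∑ ω, if Y ω ∈ Tg (ξ ω) then 0 else S.p ω) ≤ C * (256 / 2 ^ t) := by
    have h1 := S.bad_mass hC hd 𝓖 (τ := 256 / 2 ^ t) (by positivity) hmeas (k := i + M) (l := j) hn1 hn2
    refine le_trans (le_of_eq ?_) h1
    apply Finset.sum_congr rfl; intro ω _
    have e1 : (ξ ω).1 * 2 ^ M + Y ω = dig (i + M) (S.α ω) := by
      show dig i (S.α ω) * 2 ^ M + dig (i + M) (S.α ω) % 2 ^ M = dig (i + M) (S.α ω)
      rw [← dig_div (k := i) (m := M)]
      have := Nat.div_add_mod (dig (i + M) (S.α ω)) (2 ^ M)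
      rw [mul_comm] at this; exact this
    have e2 : (ξ ω).2.1 = dig j (S.β ω) := rfl
    have e3 : Y ω ∈ Tg (ξ ω) ↔ good 𝓖 (i + M) j (dig (i + M) (S.α ω)) (dig j (S.β ω)) := by
      rw [hTg]; dsimp only
      rw [Finset.mem_filter, e1, e2]
      constructor
      · exact fun h => h.2
      · intro h
        refine ⟨?_, h⟩
        rw [Finset.mem_range]; exact Nat.mod_lt _ hpos2M
    by_cases h : Y ω ∈ Tg (ξ ω)
    · rw [if_pos h, if_pos (e3.mp h)]
    · rw [if_neg h, if_neg (fun h' => h (e3.mpr h'))]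
  have key := NL (p := S.p) S.hp S.hp1 ξ X Y (N := 2 ^ M) Nat.one_le_two_pow
    (fun ω => Nat.mod_lt _ hpos2M) (fun ω => Nat.mod_lt _ hpos2M) Tg
    (fun v => Finset.filter_subset _ _) (ρ₀ := 1 / 2 ^ (5 * w + 2 * t + 2 * e + 38)) (p₀ := 1 / 2 ^ (e + t + 6))
    (by positivity)
    (by rw [div_le_one (by positivity)]; exact one_le_pow₀ (by norm_num)) (by positivity)
    (by
      intro v hv μ ν m0 m1 n0 n1 l₁ l₂ m2 n2 l0 hl
      set T := Tg v with hT
      -- choice of generic points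
      have hex : ∀ y : ℕ, ∃ x : ℝ × ℝ, y ∈ T → ((0 ≤ x.1 ∧ x.1 < 1) ∧ (0 ≤ x.2 ∧ x.2 < 1) ∧
          dig (i + M) x.1 = v.1 * 2 ^ M + y ∧ dig j x.2 = v.2.1 ∧ prj x ∈ 𝓖) := by
        intro y
        by_cases hy : y ∈ T
        · have := (Finset.mem_filter.mp hy).2
          obtain ⟨x, hx⟩ := this
          exact ⟨x, fun _ => hx⟩
        · exact ⟨0, fun h => absurd h hy⟩
      choose xs hxs using hex
      have hPts : Pts p T (fun y => (xs y).1) (fun y => (xs y).2) (v.1 * 2 ^ M) := by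
        have eN : (p.N : ℝ) * p.I = 2 ^ (i + M) := by
          show ((2 ^ M : ℕ) : ℝ) * ((2 ^ (2 * a + b) : ℕ) : ℝ) = _
          push_cast; rw [← pow_add]; congr 1; omega
        refine ⟨?_, ?_, ?_, ?_, ?_⟩
        · intro y hy
          have := (Finset.mem_filter.mp hy).1
          rw [Finset.mem_range] at this
          exact this
        · intro y hy
          obtain ⟨h1, h2, h3, h4, h5⟩ := hxs y hy
          have := dig_le (k := i + M) h1.1
          rw [h3] at this
          rw [eN]; push_cast at this; linarith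
        · intro y hy
          obtain ⟨h1, h2, h3, h4, h5⟩ := hxs y hy
          have := lt_dig (k := i + M) (xs y).1
          rw [h3] at this
          rw [eN]; push_cast at this; linarith
        · intro y hy y' hy'
          obtain ⟨_, h2, _, h4, _⟩ := hxs y hy
          obtain ⟨_, h2', _, h4', _⟩ := hxs y' hy'
          have := dig_close (k := j) h2.1 h2'.1 (h4.trans h4'.symm)
          refine this.trans (le_of_eq ?_)
          show _ = 1 / (((2 ^ (a + 2 * b) : ℕ)) : ℝ)
          push_cast; rfl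
        · intro y hy
          exact (hxs y hy).2.2.2.2
      have hB := propB hok hPts (2 * p.Q : ℤ) (v.2.2.1 * 2 ^ M) ((((v.2.2.2 : ℝ) / 2 ^ b : ℝ)) : TT) μ ν m0
        m1 n0 n1 m2 n2 l0 (by
          have k1 : (1 : ℝ) ≤ 2 ^ e := one_le_pow₀ (by norm_num)
          have k2 : (1 : ℝ) ≤ 2 ^ w := one_le_pow₀ (by norm_num)
          have k3 : (1 : ℝ) ≤ 2 ^ M := one_le_pow₀ (by norm_num)
          have k6 : (1 : ℝ) ≤ 2 ^ t := one_le_pow₀ (by norm_num)
          rw [hV]
          have rK : p.K = 2 * 2 ^ t := by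
            show (2 : ℝ) ^ (t + 1) = _
            rw [pow_succ]; ring
          have rKc : (p.Kc : ℝ) = 2048 * (2 ^ w) ^ 2 * 2 ^ e * 2 ^ t := by
            show ((2 ^ (2 * w + e + 11 + t) : ℕ) : ℝ) = _
            push_cast
            rw [pow_add, pow_add, pow_add, mul_comm 2 w, pow_mul]; norm_num; ring
          have rD : (p.D : ℝ) = 16 * (2 ^ w) ^ 2 := by
            show ((2 ^ (2 * w + 4) : ℕ) : ℝ) = _
            push_cast; rw [pow_add, mul_comm 2 w, pow_mul]; norm_num; ring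
          have rN : (p.N : ℝ) = 2 ^ M := by
            show ((2 ^ M : ℕ) : ℝ) = _
            push_cast; rfl
          have rA : (p.A : ℝ) = 2 ^ w * 2 ^ M := by
            show ((2 ^ (w + M) : ℕ) : ℝ) = _
            push_cast; rw [pow_add]
          have hl' : l₁ * l₂ * p.N ≤ 1 / ((2 ^ w) ^ 5 * (2 ^ t) ^ 2 * (2 ^ e) ^ 2 * 2 ^ 38) := by
            have : (2 : ℝ) ^ (5 * w + 2 * t + 2 * e + 38) = (2 ^ w) ^ 5 * (2 ^ t) ^ 2 * (2 ^ e) ^ 2 * 2 ^ 38 := by
              rw [pow_add, pow_add, pow_add, mul_comm 5 w, mul_comm 2 t, mul_comm 2 e, pow_mul, pow_mul, pow_mul]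
            rw [← this]; exact hl
          have hl0 : 0 ≤ l₁ * l₂ * p.N := by
            have h1 : 0 ≤ l₁ := by
              have : (0 : ℕ) ∈ range p.N := by
                rw [Finset.mem_range]; exact hok.hN
              exact (m0 0).trans (m2 0 this)
            positivity
          rw [rK, rKc, rD, rA]
          set Ea : ℝ := 2 ^ e
          set Wa : ℝ := 2 ^ w
          set Ta : ℝ := 2 ^ t
          have f1 : 16 * Wa ^ 2 + 2 ≤ 18 * Wa ^ 2 := by linarith [show 1 ≤ Wa ^ 2 from one_le_pow₀ k2]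
          have f2 : 2048 * Wa ^ 2 * Ea * Ta + 1 ≤ 2049 * (Wa ^ 2 * Ea * Ta) := by
            have : 1 ≤ Wa ^ 2 * Ea * Ta := by
              have : 1 ≤ Wa ^ 2 := one_le_pow₀ k2
              have h2 : 1 ≤ Wa ^ 2 * Ea := one_le_mul_of_one_le_of_one_le this k1
              exact one_le_mul_of_one_le_of_one_le h2 k6
            linarith
          have f3 : 4 * (Wa * 2 ^ M) / (p.N : ℝ) + 3 ≤ 7 * Wa := by
            rw [rN]
            have : 4 * (Wa * 2 ^ M) / (2 : ℝ) ^ M = 4 * Wa := by field_simp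
            rw [this]; linarith
          have f30 : 0 ≤ 4 * (Wa * 2 ^ M) / (p.N : ℝ) + 3 := by positivity
          calc 5600 * (2 * Ta) * (16 * Wa ^ 2 + 2) * (2048 * Wa ^ 2 * Ea * Ta + 1) * (4 * (Wa * 2 ^ M) / (p.N : ℝ) + 3) * (l₁ * l₂ * p.N)
              ≤ 5600 * (2 * Ta) * (18 * Wa ^ 2) * (2049 * (Wa ^ 2 * Ea * Ta)) * (7 * Wa) * (1 / (Wa ^ 5 * Ta ^ 2 * Ea ^ 2 * 2 ^ 38)) := by
                gcongr
            _ = (5600 * 2 * 18 * 2049 * 7 / 2 ^ 38) * (1 / Ea) := by field_simp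
            _ ≤ 1 / (16 * Ea) := by
                rw [show 1 / (16 * Ea) = (1 / 16) * (1 / Ea) by field_simp]
                apply mul_le_mul_of_nonneg_right _ (by positivity)
                norm_num)
      have eV : p.V / (2 * p.K) = 1 / 2 ^ (e + t + 6) := by
        rw [hV]
        have rK : p.K = 2 * 2 ^ t := by
          show (2 : ℝ) ^ (t + 1) = _
          rw [pow_succ]; ring
        rw [rK, pow_add, pow_add]
        field_simp
        norm_num
      rw [eV] at hB
      refine hB.trans ?_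
      apply Finset.sum_le_sum; intro y hy
      apply Finset.sum_le_sum; intro x hx
      have hmn : 0 ≤ μ x * ν y := mul_nonneg (m0 x) (n0 y)
      by_cases hS : SS p.Q p.δ₁ p.δ₂ (2 * p.Q : ℤ) ((((xs y).1 : ℝ) : TT), (((xs y).2 : ℝ) : TT))
        (((((v.2.2.1 * 2 ^ M : ℝ) + x) / (p.N * p.ℓ) : ℝ) : TT), ((((v.2.2.2 : ℝ) / 2 ^ b : ℝ)) : TT)) ≠ 0
      · rw [if_pos hS]
        have hz : pr S.p (fun ω => (ξ ω, (X ω, Y ω))) (v, (x, y)) = 0 := by
          by_contra hne
          unfold pr at hne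
          obtain ⟨ω, _, hω⟩ := Finset.exists_ne_zero_of_sum_ne_zero hne
          have hcond : (ξ ω, (X ω, Y ω)) = (v, (x, y)) := by
            by_contra hc; exact hω (if_neg hc)
          rw [if_pos hcond] at hω
          have hpω : 0 < S.p ω := lt_of_le_of_ne (S.hp ω) (Ne.symm hω)
          rw [triple_eq] at hcond
          obtain ⟨hc1, hc2, hc3⟩ := hcond
          obtain ⟨q, hq1, hq2, hq3, hq4⟩ := hit_of_SS hok.h₁ hok.h₂ hS
          have hQv : p.Q = 2 ^ (a + b) := rfl
          rw [hQv] at hq1 hq2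
          have hb := hbad ω hpω q (by omega) (by omega)
          obtain ⟨g1, g2, g3, g4, g5⟩ := hxs y hy
          -- closeness
          have d1 : dig (i + M) (S.α ω) = dig (i + M) (xs y).1 := by
            rw [g3]
            have e1 : dig i (S.α ω) * 2 ^ M + dig (i + M) (S.α ω) % 2 ^ M = dig (i + M) (S.α ω) := by
              rw [← dig_div (k := i) (m := M)]
              have := Nat.div_add_mod (dig (i + M) (S.α ω)) (2 ^ M)
              rw [mul_comm] at this; exact this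
            rw [← e1]
            have e2 : dig i (S.α ω) = v.1 := by rw [← hc1]; rfl
            rw [e2]
            have e3 : dig (i + M) (S.α ω) % 2 ^ M = y := hc3
            rw [e3]
          have d2 : dig j (S.β ω) = dig j (xs y).2 := by
            rw [g4, ← hc1]; rfl
          have c1 := dig_close (S.hα ω).1 g1.1 d1
          have c2 := dig_close (S.hβ ω).1 g2.1 d2
          have d3 : dig (a + M) (S.γ₁ ω) = v.2.2.1 * 2 ^ M + x := by
            have e1 : dig a (S.γ₁ ω) * 2 ^ M + dig (a + M) (S.γ₁ ω) % 2 ^ M = dig (a + M) (S.γ₁ ω) := by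
              rw [← dig_div (k := a) (m := M)]
              have := Nat.div_add_mod (dig (a + M) (S.γ₁ ω)) (2 ^ M)
              rw [mul_comm] at this; exact this
            rw [← e1]
            have e2 : dig a (S.γ₁ ω) = v.2.2.1 := by rw [← hc1]; rfl
            have e3 : dig (a + M) (S.γ₁ ω) % 2 ^ M = x := hc2
            rw [e2, e3]
          have d4 : dig b (S.γ₂ ω) = v.2.2.2 := by rw [← hc1]; rfl
          have c3 : |S.γ₁ ω - ((v.2.2.1 * 2 ^ M : ℝ) + x) / (p.N * p.ℓ)| ≤ 1 / (2 ^ M * 2 ^ a) := by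
            have f1 := dig_le (k := a + M) (S.hγ₁ ω).1
            have f2 := lt_dig (k := a + M) (S.γ₁ ω)
            rw [d3] at f1 f2
            push_cast at f1 f2
            have eN : (p.N : ℝ) * p.ℓ = 2 ^ M * 2 ^ a := by
              show ((2 ^ M : ℕ) : ℝ) * ((2 ^ a : ℕ) : ℝ) = _
              push_cast; rfl
            have e3 : (2 : ℝ) ^ (a + M) = 2 ^ M * 2 ^ a := by rw [add_comm, pow_add]
            rw [e3] at f1 f2
            rw [eN]
            have hpos : (0 : ℝ) < 2 ^ M * 2 ^ a := by positivity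
            have e4 : S.γ₁ ω - ((v.2.2.1 * 2 ^ M : ℝ) + x) / (2 ^ M * 2 ^ a) =
              (2 ^ M * 2 ^ a * S.γ₁ ω - ((v.2.2.1 * 2 ^ M : ℝ) + x)) / (2 ^ M * 2 ^ a) := by field_simp
            rw [e4, abs_div, abs_of_pos hpos]
            apply div_le_div_of_nonneg_right _ hpos.le
            rw [abs_le]; constructor <;> linarith
          have c4 : |S.γ₂ ω - (v.2.2.2 : ℝ) / 2 ^ b| ≤ 1 / 2 ^ b := by
            have f1 := dig_le (k := b) (S.hγ₂ ω).1
            have f2 := lt_dig (k := b) (S.γ₂ ω)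
            rw [d4] at f1 f2
            have hpos : (0 : ℝ) < 2 ^ b := by positivity
            have e4 : S.γ₂ ω - (v.2.2.2 : ℝ) / 2 ^ b = (2 ^ b * S.γ₂ ω - (v.2.2.2 : ℝ)) / 2 ^ b := by field_simp
            rw [e4, abs_div, abs_of_pos hpos]
            apply div_le_div_of_nonneg_right _ hpos.le
            rw [abs_le]; constructor <;> linarith
          have s1 := norm_shift q (S.α ω) (xs y).1 (S.γ₁ ω) (((v.2.2.1 * 2 ^ M : ℝ) + x) / (p.N * p.ℓ))
          have s2 := norm_shift q (S.β ω) (xs y).2 (S.γ₂ ω) ((v.2.2.2 : ℝ) / 2 ^ b)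
          rw [smul_coe_sub] at hq3 hq4
          have hqR : (q : ℝ) ≤ 3 * (2 ^ a * 2 ^ b) := by
            have : (q : ℝ) < ((3 * 2 ^ (a + b) : ℕ) : ℝ) := by exact_mod_cast hq2
            push_cast at this; rw [pow_add] at this; exact this.le
          have k1 : (1 : ℝ) ≤ 2 ^ e := one_le_pow₀ (by norm_num)
          have gM : (256 : ℝ) * 2 ^ e ≤ 2 ^ M := by
            have : (2 : ℝ) ^ (8 + e) ≤ 2 ^ M := pow_le_pow_right₀ (by norm_num) (by have := he.hM; omega)
            rw [pow_add] at this; norm_num at this; exact this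
          have rδ₁ : p.δ₁ = 4 / (2 ^ M * 2 ^ a) := rfl
          have rδ₂ : p.δ₂ = 2 ^ M / (2 ^ e * 64 * 2 ^ b) := by
            show (2 : ℝ) ^ M / (2 ^ (e + 6) * 2 ^ b) = _
            rw [pow_add]; norm_num
          have eiM : (2 : ℝ) ^ (i + M) = (2 ^ a) ^ 2 * 2 ^ b * 2 ^ M := by
            rw [hi, pow_add, pow_add, mul_comm 2 a, pow_mul]
          have ej : (2 : ℝ) ^ j = 2 ^ a * (2 ^ b) ^ 2 := by
            rw [hj, pow_add, mul_comm 2 b, pow_mul]
          rw [eiM] at c1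
          rw [ej] at c2
          rw [rδ₁] at hq3
          rw [rδ₂] at hq4
          set Ea : ℝ := 2 ^ e
          set Na : ℝ := 2 ^ M
          set Aa : ℝ := 2 ^ a with hAa
          set Ba : ℝ := 2 ^ b with hBa
          have A0 : 0 < Aa := by rw [hAa]; positivity
          have B0 : 0 < Ba := by rw [hBa]; positivity
          have N0 : 0 < Na := by linarith
          have E0 : 0 < Ea := by linarith
          clear_value Aa Ba Na Ea
          have u1 : (q : ℝ) * |S.α ω - (xs y).1| ≤ 3 / (Na * Aa) := by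
            calc _ ≤ (3 * (Aa * Ba)) * (1 / (Aa ^ 2 * Ba * Na)) := by gcongr
              _ = 3 / (Na * Aa) := by field_simp
          have u2 : (q : ℝ) * |S.β ω - (xs y).2| ≤ 3 / Ba := by
            calc _ ≤ (3 * (Aa * Ba)) * (1 / (Aa * Ba ^ 2)) := by gcongr
              _ = 3 / Ba := by field_simp
          have v1 : ‖((q * S.α ω - S.γ₁ ω : ℝ) : TT)‖ ≤ 8 / (Na * Aa) := by
            have : 8 / (Na * Aa) = 4 / (Na * Aa) + 3 / (Na * Aa) + 1 / (Na * Aa) := by ring
            rw [this]; linarith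
          have v2 : ‖((q * S.β ω - S.γ₂ ω : ℝ) : TT)‖ ≤ Na / (Ea * 64 * Ba) + 4 / Ba := by
            have : 4 / Ba = 3 / Ba + 1 / Ba := by ring
            rw [this]; linarith
          have : (q : ℝ) * ‖((q * S.α ω - S.γ₁ ω : ℝ) : TT)‖ * ‖((q * S.β ω - S.γ₂ ω : ℝ) : TT)‖ < 1 / Ea := by
            calc _ ≤ (3 * (Aa * Ba)) * (8 / (Na * Aa)) * (Na / (Ea * 64 * Ba) + 4 / Ba) := by
                  gcongr
              _ = (24 / 64) / Ea + 96 / Na := by field_simp; ring
              _ ≤ (24 / 64) / Ea + (96 / 256) / Ea := by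
                  have : 96 / Na ≤ 96 / 256 / Ea := by
                    rw [div_div, div_le_div_iff₀ (by positivity) (by positivity)]; linarith
                  linarith
              _ < 1 / Ea := by
                  rw [← add_div]
                  apply div_lt_div_of_pos_right _ (by positivity)
                  norm_num
          linarith
        rw [if_pos hz]
      · rw [if_neg hS]
        split_ifs
        · exact hmn
        · exact le_rfl)
  rw [hXH, hYH, hXYH] at key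
  rw [hlogN] at key
  have hξH : H S.p ξ = S.hh i j a b := rfl
  rw [hξH] at key
  have hlog2 : 0 ≤ Real.log 2 := (Real.log_pos (by norm_num)).le
  have hMl : 0 ≤ (M : ℝ) * Real.log 2 := by positivity
  have h3 : 2 * (M * Real.log 2) * (4 * (M * Real.log 2 + 1) * (∑ ω, if Y ω ∈ Tg (ξ ω) then 0 else S.p ω)) ≤
      2 * (M * Real.log 2) * (4 * (M * Real.log 2 + 1) * (C * (256 / 2 ^ t))) := by gcongr
  have hII : II S.hh M a b = S.hh i j (a + M) b + S.hh (i + M) j a b - S.hh (i + M) j (a + M) b - S.hh i j a b := by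
    unfold II; rw [← hi, ← hj]; ring
  unfold cst1 cst2
  rw [hII]
  linarith

end Run7.h297
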