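import Pool.Agent.Run7.h297.NTmB
import Pool.Agent.Run7.h297.TwoB

set_option autoImplicit false

/-! Tame cells are sparse. -/

noncomputable section

namespace Run7.h297

open Real Finset MeasureTheory

theorem fib_card {G : Finset (ℕ × ℕ)} (hG : ∀ z ∈ G, ∀ z' ∈ G, z.1 ≤ z'.1 + 2 ∧ z.2 ≤ z'.2 + 2) : G.card ≤ 25 := by
  rcases G.eq_empty_or_nonempty with h | ⟨z0, h0⟩
  · rw [h]; simp
  · have hsub : G ⊆ Finset.Icc (z0.1 - 2) (z0.1 + 2) ×ˢ Finset.Icc (z0.2 - 2) (z0.2 + 2) := by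
      intro z hz
      have h1 := hG z hz z0 h0
      have h2 := hG z0 h0 z hz
      rw [Finset.mem_product, Finset.mem_Icc, Finset.mem_Icc]
      omega
    have h3 := Finset.card_le_card hsub
    rw [Finset.card_product, Nat.card_Icc, Nat.card_Icc] at h3
    have h4 : z0.1 + 2 + 1 - (z0.1 - 2) ≤ 5 := by omega
    have h5 : z0.2 + 2 + 1 - (z0.2 - 2) ≤ 5 := by omega
    have h6 := Nat.mul_le_mul h4 h5
    omega

theorem floor_close {N : ℕ} {s t : ℝ} {u v : ℕ} (hu0 : (u : ℝ) ≤ N * s) (hu1 : N * s < u + 1) (hv0 : (v : ℝ) ≤ N * t) (hv1 : N * t < v + 1)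
    (h : N * |s - t| < 2) : u ≤ v + 2 := by
  have h1 : N * (s - t) ≤ N * |s - t| := mul_le_mul_of_nonneg_left (le_abs_self _) (Nat.cast_nonneg _)
  have h2 : (u : ℝ) < ((v + 3 : ℕ) : ℝ) := by push_cast; nlinarith
  have h3 : u < v + 3 := by exact_mod_cast h2
  omega

/-- distance of two points whose digits have the same ancestor -/
theorem anc_close {k r c u u' R : ℕ} {s t : ℝ} (hs : 0 ≤ s) (ht : 0 ≤ t) (hu : dig k s = c + u) (hu' : dig k t = c + u')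
    (h1 : u / 2 ^ r = R) (h2 : u' / 2 ^ r = R) : |s - t| ≤ 2 ^ r / 2 ^ k := by
  have hk : (0 : ℝ) < 2 ^ k := by positivity
  have a1 := dig_le (k := k) hs
  have a2 := lt_dig (k := k) s
  have b1 := dig_le (k := k) ht
  have b2 := lt_dig (k := k) t
  rw [hu] at a1 a2
  rw [hu'] at b1 b2
  have hp : 0 < 2 ^ r := by positivity
  have c1 := Nat.div_add_mod u (2 ^ r)
  have c2 := Nat.mod_lt u hp
  have c3 := Nat.div_add_mod u' (2 ^ r)
  have c4 := Nat.mod_lt u' hp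
  rw [h1] at c1
  rw [h2] at c3
  have d1 : u + 1 ≤ u' + 2 ^ r := by omega
  have d2 : u' + 1 ≤ u + 2 ^ r := by omega
  have d1' : (u : ℝ) + 1 ≤ u' + 2 ^ r := by exact_mod_cast d1
  have d2' : (u' : ℝ) + 1 ≤ u + 2 ^ r := by exact_mod_cast d2
  push_cast at a1 a2 b1 b2
  rw [abs_le, ← neg_div, div_le_iff₀ hk, le_div_iff₀ hk]
  constructor <;> nlinarith

/-- one coordinate of the return between two hits -/
theorem hit_ret {σ g k r n n0 c u u' R : ℕ} {s t : ℝ} {γ : TT} (hk : σ + g = k) (hn : n < 3 * 2 ^ σ) (hs : 0 ≤ s) (ht : 0 ≤ t)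
    (hu : dig k s = c + u) (hu' : dig k t = c + u') (h1 : u / 2 ^ r = R) (h2 : u' / 2 ^ r = R)
    (hh : ‖(n : ℤ) • ((s : ℝ) : TT) - γ‖ < 1 / 2 ^ g) (hh0 : ‖(n0 : ℤ) • ((t : ℝ) : TT) - γ‖ < 1 / 2 ^ g) :
    ‖((n : ℤ) - (n0 : ℤ)) • ((t : ℝ) : TT)‖ ≤ 5 * 2 ^ r * (1 / 2 ^ g) := by
  have hc := anc_close hs ht hu hu' h1 h2
  have e : ((n : ℤ) - (n0 : ℤ)) • ((t : ℝ) : TT) = ((n : ℤ) • ((s : ℝ) : TT) - γ) - ((n : ℤ) • (((s - t : ℝ)) : TT)) - ((n0 : ℤ) • ((t : ℝ) : TT) - γ) := by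
    have e1 : (((s - t : ℝ)) : TT) = ((s : ℝ) : TT) - ((t : ℝ) : TT) := rfl
    rw [e1, sub_smul, smul_sub]; abel
  rw [e]
  have h3 := norm_sub_le (((n : ℤ) • ((s : ℝ) : TT) - γ) - ((n : ℤ) • (((s - t : ℝ)) : TT))) ((n0 : ℤ) • ((t : ℝ) : TT) - γ)
  have h4 := norm_sub_le ((n : ℤ) • ((s : ℝ) : TT) - γ) ((n : ℤ) • (((s - t : ℝ)) : TT))
  have h5 : ‖(n : ℤ) • (((s - t : ℝ)) : TT)‖ ≤ 3 * 2 ^ r * (1 / 2 ^ g) := by
    have e2 : (n : ℤ) • (((s - t : ℝ)) : TT) = ((n * (s - t) : ℝ) : TT) := by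
      rw [natCast_zsmul, ← nsmul_eq_mul]; rfl
    rw [e2]
    refine (norm_coe_le_abs _).trans ?_
    rw [abs_mul, Nat.abs_cast]
    have hn' : (n : ℝ) ≤ 3 * 2 ^ σ := by
      have : (n : ℝ) < ((3 * 2 ^ σ : ℕ) : ℝ) := by exact_mod_cast hn
      push_cast at this; exact this.le
    calc (n : ℝ) * |s - t| ≤ (3 * 2 ^ σ) * (2 ^ r / 2 ^ k) := by gcongr
      _ = 3 * 2 ^ r * (1 / 2 ^ g) := by rw [← hk, pow_add]; field_simp
  have h6 : (1 : ℝ) ≤ 2 ^ r := one_le_pow₀ (by norm_num)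
  have h7 : (0 : ℝ) < 1 / 2 ^ g := by positivity
  have h8 : (1 : ℝ) * (1 / 2 ^ g) ≤ 2 ^ r * (1 / 2 ^ g) := by gcongr
  linarith

/-- the same multiple hits only nearby digits -/
theorem hit_same {σ g k r n c u u' R : ℕ} {s t : ℝ} {γ : TT} (hk : σ + g = k) (hn : n < 3 * 2 ^ σ) (hn1 : 2 ^ σ < n) (hs : 0 ≤ s) (ht : 0 ≤ t)
    (hr : r + 3 ≤ g) (hu : dig k s = c + u) (hu' : dig k t = c + u') (h1 : u / 2 ^ r = R) (h2 : u' / 2 ^ r = R)
    (hh : ‖(n : ℤ) • ((s : ℝ) : TT) - γ‖ < 1 / 2 ^ g) (hh0 : ‖(n : ℤ) • ((t : ℝ) : TT) - γ‖ < 1 / 2 ^ g) :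
    u ≤ u' + 2 := by
  have hc := anc_close hs ht hu hu' h1 h2
  have e2 : (n : ℤ) • (((s - t : ℝ)) : TT) = ((n * (s - t) : ℝ) : TT) := by
    rw [natCast_zsmul, ← nsmul_eq_mul]; rfl
  have e3 : ((n * (s - t) : ℝ) : TT) = ((n : ℤ) • ((s : ℝ) : TT) - γ) - ((n : ℤ) • ((t : ℝ) : TT) - γ) := by
    rw [← e2]
    have e1 : (((s - t : ℝ)) : TT) = ((s : ℝ) : TT) - ((t : ℝ) : TT) := rfl
    rw [e1, smul_sub]; abel
  have h3 : ‖((n * (s - t) : ℝ) : TT)‖ < 2 * (1 / 2 ^ g) := by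
    rw [e3]
    have := norm_sub_le ((n : ℤ) • ((s : ℝ) : TT) - γ) ((n : ℤ) • ((t : ℝ) : TT) - γ)
    linarith
  have hn' : (n : ℝ) ≤ 3 * 2 ^ σ := by
    have : (n : ℝ) < ((3 * 2 ^ σ : ℕ) : ℝ) := by exact_mod_cast hn
    push_cast at this; exact this.le
  have hn1' : (2 : ℝ) ^ σ ≤ n := by
    have : ((2 ^ σ : ℕ) : ℝ) ≤ n := by exact_mod_cast hn1.le
    push_cast at this; exact this
  have h4 : |(n : ℝ) * (s - t)| ≤ 1 / 2 := by
    rw [abs_mul, Nat.abs_cast]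
    calc (n : ℝ) * |s - t| ≤ (3 * 2 ^ σ) * (2 ^ r / 2 ^ k) := by gcongr
      _ = 3 * (2 ^ r / 2 ^ g) := by rw [← hk, pow_add]; field_simp
      _ ≤ 3 * (1 / 8) := by
        apply mul_le_mul_of_nonneg_left _ (by norm_num)
        rw [div_le_div_iff₀ (by positivity) (by norm_num), one_mul]
        have : (2 : ℝ) ^ (r + 3) ≤ 2 ^ g := pow_le_pow_right₀ (by norm_num) hr
        rw [pow_add] at this; norm_num at this; exact this
      _ ≤ 1 / 2 := by norm_num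
  rw [norm_coe_eq_abs h4, abs_mul, Nat.abs_cast] at h3
  have h5 : ((2 ^ k : ℕ) : ℝ) * |s - t| < 2 := by
    push_cast
    have h6 : (2 : ℝ) ^ σ * |s - t| < 2 * (1 / 2 ^ g) := lt_of_le_of_lt (by gcongr) h3
    have hg : (0 : ℝ) < 2 ^ g := by positivity
    calc (2 : ℝ) ^ k * |s - t| = 2 ^ g * (2 ^ σ * |s - t|) := by rw [← hk, pow_add]; ring
      _ < 2 ^ g * (2 * (1 / 2 ^ g)) := by gcongr
      _ = 2 := by field_simp
  have a1 := dig_le (k := k) hs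
  have a2 := lt_dig (k := k) s
  have b1 := dig_le (k := k) ht
  have b2 := lt_dig (k := k) t
  rw [hu] at a1 a2
  rw [hu'] at b1 b2
  have := floor_close (N := 2 ^ k) (u := c + u) (v := c + u') (by push_cast at a1 ⊢; exact a1) (by push_cast at a2 ⊢; exact a2)
    (by push_cast at b1 ⊢; exact b1) (by push_cast at b2 ⊢; exact b2) h5
  omega

theorem pow_1415 (n : ℕ) : (2 : ℝ) ^ ((n + 1) / 2) ≤ 2 * (1415 / 1000) ^ n := by
  obtain ⟨c, hc⟩ : ∃ c, c = (n + 1) / 2 := ⟨_, rfl⟩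
  rw [← hc]
  have hn : 2 * c ≤ n + 1 := by omega
  calc (2 : ℝ) ^ c ≤ ((1415 / 1000) ^ 2) ^ c := by
        apply pow_le_pow_left₀ (by norm_num); norm_num
    _ = (1415 / 1000) ^ (2 * c) := by rw [← pow_mul]
    _ ≤ (1415 / 1000) ^ (n + 1) := pow_le_pow_right₀ (by norm_num) hn
    _ = (1415 / 1000) * (1415 / 1000) ^ n := by rw [pow_succ]; ring
    _ ≤ 2 * (1415 / 1000) ^ n := by
      apply mul_le_mul_of_nonneg_right (by norm_num) (by positivity)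

/-- constant of sparsity -/
def Jc : ℝ := 25 * (1 + 2 ^ 15)

section

variable {a : AP} {f i j m : ℕ} (hs : ShOk a f i j m) {c1 c2 : ℕ} {γ : TT × TT}

open Classical in
/-- tame cells -/
def Fs (a : AP) (f i j m c1 c2 k l : ℕ) (γ : TT × TT) : Finset (ℕ × ℕ) :=
  ((range (2 ^ m) ×ˢ range (2 ^ m)).filter (fun p => Hs a f i j m c1 c2 γ p.1 p.2)).image (fun p => (p.1 / 2 ^ (m - k), p.2 / 2 ^ (m - l)))

theorem dig_anc {i m k c x : ℕ} {t : ℝ} (hk : k ≤ m) (h : dig (i + m) t = c * 2 ^ m + x) : dig (i + k) t = c * 2 ^ k + x / 2 ^ (m - k) := by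
  obtain ⟨d, rfl⟩ := Nat.exists_eq_add_of_le hk
  rw [Nat.add_sub_cancel_left]
  rw [← add_assoc] at h
  rw [← dig_div (k := i + k) (m := d), h, pow_add, ← mul_assoc, Nat.add_comm, Nat.add_mul_div_right _ _ (by positivity), Nat.add_comm]

open Classical in
theorem mem_Fs {k l : ℕ} (hk : k ≤ m) (hl : l ≤ m) {z : ℕ × ℕ} (hz : z ∈ Fs a f i j m c1 c2 k l γ) :
    ∃ P : ℝ × ℝ, (0 ≤ P.1 ∧ 0 ≤ P.2) ∧ (dig (i + k) P.1 = c1 * 2 ^ k + z.1 ∧ dig (j + l) P.2 = c2 * 2 ^ l + z.2) ∧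
      SS (2 ^ a.σ) a.d1 a.d2 (2 * 2 ^ a.σ) (pt P) γ ≠ 0 ∧ tame a f (pt P) := by
  unfold Fs at hz
  rw [Finset.mem_image] at hz
  obtain ⟨p, hp, rfl⟩ := hz
  rw [Finset.mem_filter] at hp
  obtain ⟨P, h1, h2, h3, h4⟩ := hp.2
  exact ⟨P, h1, ⟨dig_anc hk h2.1, dig_anc hl h2.2⟩, h3, h4⟩

include hs in
open Classical in
theorem Fs_sparse {k l : ℕ} (hk : k ≤ m) (hl : l ≤ m) (hk2 : a.σ + a.g = i + k) (hl2 : a.σ + a.f = j + l) {r t R1 R2 : ℕ}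
    (hr : r ≤ 192 * f) (ht : t ≤ 192 * f) :
    (((Fs a f i j m c1 c2 k l γ).filter (fun z => z.1 / 2 ^ r = R1 ∧ z.2 / 2 ^ t = R2)).card : ℝ) ≤ Jc * (1415 / 1000) ^ (r + t) := by
  set G := (Fs a f i j m c1 c2 k l γ).filter (fun z => z.1 / 2 ^ r = R1 ∧ z.2 / 2 ^ t = R2) with hG
  have hd1 := d1_pos (a := a)
  have hd2 := d2_pos (a := a)
  have hg1 := hs.g1
  have hg2 := hs.g2
  have hk1 := hs.k1
  have hf1 := hs.f1
  have hex : ∀ z : ℕ × ℕ, ∃ P : ℝ × ℝ, ∃ n : ℕ, z ∈ G → ((0 ≤ P.1 ∧ 0 ≤ P.2) ∧ (dig (i + k) P.1 = c1 * 2 ^ k + z.1 ∧ dig (j + l) P.2 = c2 * 2 ^ l + z.2) ∧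
      tame a f (pt P) ∧ 2 ^ a.σ < n ∧ n < 3 * 2 ^ a.σ ∧ ‖(n : ℤ) • ((P.1 : ℝ) : TT) - γ.1‖ < 1 / 2 ^ a.g ∧ ‖(n : ℤ) • ((P.2 : ℝ) : TT) - γ.2‖ < 1 / 2 ^ a.f) := by
    intro z
    by_cases hz : z ∈ G
    · obtain ⟨P, h1, h2, h3, h4⟩ := mem_Fs hk hl (Finset.mem_filter.mp hz).1
      have h3' : SS (2 ^ a.σ) a.d1 a.d2 (2 * ((2 ^ a.σ : ℕ) : ℤ)) (pt P) γ ≠ 0 := by push_cast; exact h3
      obtain ⟨n, n1, n2, n3, n4⟩ := hit_of_SS hd1 hd2 h3'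
      exact ⟨P, n, fun _ => ⟨h1, h2, h4, n1, n2, n3, n4⟩⟩
    · exact ⟨0, 0, fun h => absurd h hz⟩
  choose P n hPn using hex
  have hanc : ∀ z ∈ G, z.1 / 2 ^ r = R1 ∧ z.2 / 2 ^ t = R2 := fun z hz => (Finset.mem_filter.mp hz).2
  rcases G.eq_empty_or_nonempty with hemp | ⟨z0, hz0⟩
  · rw [hemp]; simp only [Finset.card_empty, Nat.cast_zero]; unfold Jc; positivity
  -- the number of multiples
  obtain ⟨p0, d0, t0, a0, b0, x0, y0⟩ := hPn z0 hz0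
  set R : Finset ℕ := (Finset.Icc 1 (2 * 2 ^ a.σ)).filter (fun d => pt (P z0) ∈ RetS (5 * 2 ^ r * a.d1) (5 * 2 ^ t * a.d2) d) with hR
  have hRc : (R.card : ℝ) ≤ 2 ^ (13 + (r + t + 1) / 2) := by
    have e : nret (5 * 2 ^ r * a.d1) (5 * 2 ^ t * a.d2) (2 * 2 ^ a.σ) (pt (P z0)) = (R.card : ℝ) := by
      unfold nret; rw [Finset.sum_boole]
    rw [← e]; exact t0 r t hr ht
  have himg : (G.image n) ⊆ insert (n z0) (R.image (fun d => n z0 + d) ∪ R.image (fun d => n z0 - d)) := by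
    intro q hq
    rw [Finset.mem_image] at hq
    obtain ⟨z, hz, rfl⟩ := hq
    obtain ⟨p, d, _, a1, b1, x1, y1⟩ := hPn z hz
    rw [Finset.mem_insert, Finset.mem_union, Finset.mem_image, Finset.mem_image]
    have r1 := hit_ret (σ := a.σ) (g := a.g) (k := i + k) (r := r) (n := n z) (n0 := n z0) hk2 b1 p.1 p0.1 d.1 d0.1 (hanc z hz).1 (hanc z0 hz0).1 x1 x0
    have r2 := hit_ret (σ := a.σ) (g := a.f) (k := j + l) (r := t) (n := n z) (n0 := n z0) hl2 b1 p.2 p0.2 d.2 d0.2 (hanc z hz).2 (hanc z0 hz0).2 y1 y0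
    rcases lt_trichotomy (n z) (n z0) with h | h | h
    · right; right
      refine ⟨n z0 - n z, ?_, by omega⟩
      rw [hR, Finset.mem_filter, Finset.mem_Icc]
      refine ⟨⟨by omega, by omega⟩, ?_⟩
      have e : ((n z : ℤ) - (n z0 : ℤ)) = -(((n z0 - n z : ℕ)) : ℤ) := by rw [Nat.cast_sub h.le]; ring
      rw [e, neg_smul, norm_neg, natCast_zsmul] at r1 r2
      exact ⟨r1, r2⟩
    · left; exact h
    · right; left
      refine ⟨n z - n z0, ?_, by omega⟩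
      rw [hR, Finset.mem_filter, Finset.mem_Icc]
      refine ⟨⟨by omega, by omega⟩, ?_⟩
      have e : ((n z : ℤ) - (n z0 : ℤ)) = (((n z - n z0 : ℕ)) : ℤ) := by rw [Nat.cast_sub h.le]
      rw [e, natCast_zsmul] at r1 r2
      exact ⟨r1, r2⟩
  have himc : (G.image n).card ≤ 1 + 2 * R.card := by
    refine (Finset.card_le_card himg).trans ((Finset.card_insert_le _ _).trans ?_)
    have u1 := Finset.card_union_le (R.image (fun d => n z0 + d)) (R.image (fun d => n z0 - d))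
    have u2 := Finset.card_image_le (s := R) (f := fun d => n z0 + d)
    have u3 := Finset.card_image_le (s := R) (f := fun d => n z0 - d)
    omega
  have hfib : G.card ≤ 25 * (G.image n).card := by
    apply Finset.card_le_mul_card_image
    intro q hq
    apply fib_card
    intro z hz z' hz'
    rw [Finset.mem_filter] at hz hz'
    obtain ⟨p, d, _, a1, b1, x1, y1⟩ := hPn z hz.1
    obtain ⟨p', d', _, a1', b1', x1', y1'⟩ := hPn z' hz'.1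
    rw [hz.2] at a1 b1 x1 y1
    rw [hz'.2] at a1' b1' x1' y1'
    exact ⟨hit_same (σ := a.σ) (g := a.g) (k := i + k) (r := r) (n := q) hk2 b1 a1 p.1 p'.1 (by omega) d.1 d'.1 (hanc z hz.1).1 (hanc z' hz'.1).1 x1 x1',
      hit_same (σ := a.σ) (g := a.f) (k := j + l) (r := t) (n := q) hl2 b1 a1 p.2 p'.2 (by omega) d.2 d'.2 (hanc z hz.1).2 (hanc z' hz'.1).2 y1 y1'⟩
  have h1 : (G.card : ℝ) ≤ 25 * (1 + 2 * R.card) := by
    have : G.card ≤ 25 * (1 + 2 * R.card) := hfib.trans (Nat.mul_le_mul_left _ himc)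
    exact_mod_cast this
  have h2 := pow_1415 (r + t)
  have h3 : (1 : ℝ) ≤ (1415 / 1000) ^ (r + t) := one_le_pow₀ (by norm_num)
  rw [pow_add] at hRc
  unfold Jc
  have h4 : (2 : ℝ) ^ 13 * 2 ^ ((r + t + 1) / 2) ≤ 2 ^ 13 * (2 * (1415 / 1000) ^ (r + t)) := by gcongr
  norm_num at h4 hRc ⊢
  linarith

end

end Run7.h297
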