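import Pool.Agent.Run7.h297.GSm
import Pool.Agent.Run7.h297.TameF

set_option autoImplicit false

/-! The sharp node inequality for the two leading coordinates. -/

noncomputable section

namespace Run7.h297

open Real Finset MeasureTheory

/-- the scale -/
def mf (f : ℕ) : ℕ := 39321600 * f

/-- the base level -/
def kf (f : ℕ) : ℕ := 39321600 * f - (4096 * f + 7)

/-- the grid of a shape -/
def shp (a b f s s' : ℕ) : AP :=
  ⟨8192 * f, kf f - 2 * s - s' + 1, kf f - s - 2 * s' + 1, a + b + kf f - s - s', a + mf f - s, b - s'⟩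

/-- admissible exponents -/
structure ExC (a b f : ℕ) : Prop where
  hf : 40000 ≤ f
  ha : 2 * mf f ≤ a
  hb : 2 * mf f ≤ b
  hlg : a + b + 4 * mf f ≤ 2 ^ (8192 * f)

theorem ExC.shp_ok {a b f : ℕ} (he : ExC a b f) {s s' : ℕ} (hs : s < 64 * f) (hs' : s' < 64 * f) :
    ShOk (shp a b f s s') f (2 * a + b + mf f) (a + 2 * b) (mf f) := by
  obtain ⟨h1, h2, h3, h4⟩ := he
  unfold mf at *
  have hk : kf f = 39321600 * f - (4096 * f + 7) := rfl
  refine ⟨by omega, rfl, ?_, ?_, ?_, ?_, ?_, ?_, ?_, ?_, ?_, ?_, ?_, ?_, ?_, ?_, ?_, ?_⟩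
  · show a + mf f - s + (b - s') = a + b + kf f - s - s' + 4096 * f + 7
    unfold mf; omega
  · show 4200 * (8192 * f) + 3000 * f + 5 ≤ kf f - 2 * s - s' + 1; omega
  · show 4200 * (8192 * f) + 3000 * f + 5 ≤ kf f - s - 2 * s' + 1; omega
  · show kf f - 2 * s - s' + 1 ≤ kf f - s - 2 * s' + 1 + 1000 * f; omega
  · show kf f - s - 2 * s' + 1 ≤ kf f - 2 * s - s' + 1 + 1000 * f; omega
  · show kf f - 2 * s - s' + 1 + 12 * (8192 * f) + 4000 * f ≤ a + b + kf f - s - s'; omega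
  · show 2 * (kf f - 2 * s - s' + 1) + 400 * f ≤ a + mf f - s; unfold mf; omega
  · show 2 * (kf f - 2 * s - s' + 1) + 400 * f ≤ b - s'; omega
  · show a + mf f - s ≤ a + b + kf f - s - s'; unfold mf; omega
  · show b - s' ≤ a + b + kf f - s - s'; omega
  · show a + mf f - s + (b - s') + 2 * (kf f - 2 * s - s' + 1) + 1000 * f ≤ 2 ^ (8192 * f); unfold mf; omega
  · refine ⟨?_, ?_, ?_, ?_⟩
    · show a + b + kf f - s - s' + (a + mf f - s) + 1 = 2 * a + b + 39321600 * f + (kf f - 2 * s - s' + 1); unfold mf; omega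
    · show a + b + kf f - s - s' + (b - s') + 1 = a + 2 * b + (kf f - s - 2 * s' + 1); omega
    · show 39321600 * f + 1 ≤ kf f - 2 * s - s' + 1 + 6 * (8192 * f); omega
    · show 39321600 * f + 1 ≤ kf f - s - 2 * s' + 1 + 6 * (8192 * f); omega
  · show kf f - 2 * s - s' + 1 + 1 ≤ 39321600 * f; omega
  · show kf f - s - 2 * s' + 1 + 1 ≤ 39321600 * f; omega
  · show 39321600 * f ≤ kf f - 2 * s - s' + 1 + 6000 * f; omega
  · show 39321600 * f ≤ kf f - s - 2 * s' + 1 + 6000 * f; omega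

/-- the generic set of a node -/
def GC (a b f : ℕ) : Set (TT × TT) := {x | ∀ s s', s < 64 * f → s' < 64 * f → GS (shp a b f s s') f x}

theorem meas_GC {a b f : ℕ} (he : ExC a b f) : volume (GC a b f)ᶜ ≤ ENNReal.ofReal (1 / 2 ^ (2 * f)) := by
  have hf := he.hf
  have hsub : (GC a b f)ᶜ ⊆ ⋃ k ∈ (range (64 * f) ×ˢ range (64 * f)), {x : TT × TT | GS (shp a b f k.1 k.2) f x}ᶜ := by
    intro x hx
    by_contra hcon
    simp only [Set.mem_iUnion, Set.mem_compl_iff, not_exists, not_not] at hcon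
    apply hx
    intro s s' hs hs'
    exact hcon (s, s') (by rw [Finset.mem_product, Finset.mem_range, Finset.mem_range]; exact ⟨hs, hs'⟩)
  refine (measure_mono hsub).trans ((measure_biUnion_finset_le _ _).trans ?_)
  calc _ ≤ ∑ k ∈ (range (64 * f) ×ˢ range (64 * f)), ENNReal.ofReal (1 / 2 ^ (100 * f)) := by
        apply Finset.sum_le_sum; intro k hk
        rw [Finset.mem_product, Finset.mem_range, Finset.mem_range] at hk
        exact meas_GS (he.shp_ok hk.1 hk.2) (by omega)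
    _ = ENNReal.ofReal (((64 * f * (64 * f) : ℕ) : ℝ) * (1 / 2 ^ (100 * f))) := by
        rw [Finset.sum_const, nsmul_eq_mul, Finset.card_product, card_range, ENNReal.ofReal_mul (Nat.cast_nonneg _), ENNReal.ofReal_natCast]
    _ ≤ _ := by
      apply ENNReal.ofReal_le_ofReal
      have h2 := nat_lt_two_pow f
      have h0 : (0 : ℝ) ≤ f := Nat.cast_nonneg f
      have e : (2 : ℝ) ^ (100 * f) = 2 ^ (2 * f) * (2 ^ (96 * f) * (2 ^ f * 2 ^ f)) := by
        rw [← pow_add, ← pow_add, ← pow_add]; congr 1; ring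
      have h3 : (4096 : ℝ) ≤ 2 ^ (96 * f) := by
        have : (2 : ℝ) ^ 12 ≤ 2 ^ (96 * f) := pow_le_pow_right₀ (by norm_num) (by omega)
        norm_num at this; exact this
      rw [e, mul_one_div, div_le_div_iff₀ (by positivity) (by positivity)]
      push_cast
      have h4 : (f : ℝ) * f ≤ 2 ^ f * 2 ^ f := by gcongr
      have h5 : (4096 : ℝ) * ((f : ℝ) * f) ≤ 2 ^ (96 * f) * (2 ^ f * 2 ^ f) := by gcongr
      calc (64 * (f : ℝ) * (64 * f)) * 2 ^ (2 * f) = (4096 * ((f : ℝ) * f)) * 2 ^ (2 * f) := by ring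
        _ ≤ (2 ^ (96 * f) * (2 ^ f * 2 ^ f)) * 2 ^ (2 * f) := by gcongr
        _ = _ := by ring

/-- the density bound -/
theorem dens_le {f : ℕ} (hf : 40000 ≤ f) : 2 * Real.exp (16 * ((f : ℝ) / 1200 + 1)) ≤ 2 ^ f := by
  have h1 : Real.exp (16 * ((f : ℝ) / 1200 + 1)) = Real.exp ((f : ℝ) / 75) * Real.exp 16 := by
    rw [← Real.exp_add]; congr 1; ring
  have h2 : (2 : ℝ) ^ f = Real.exp (f * Real.log 2) := by
    rw [mul_comm, Real.exp_mul, Real.exp_log (by norm_num), Real.rpow_natCast]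
  have h3 : (0.69 : ℝ) < Real.log 2 := by have := Real.log_two_gt_d9; linarith
  have h4 : (2 : ℝ) = Real.exp (Real.log 2) := (Real.exp_log (by norm_num)).symm
  have h5 : Real.log 2 ≤ 1 := by have := Real.log_two_lt_d9; linarith
  rw [h2]
  have hf' : (40000 : ℝ) ≤ f := by exact_mod_cast hf
  calc 2 * Real.exp (16 * ((f : ℝ) / 1200 + 1)) = Real.exp (Real.log 2 + 16 * ((f : ℝ) / 1200 + 1)) := by
        rw [Real.exp_add, Real.exp_log (by norm_num)]
    _ ≤ Real.exp (f * Real.log 2) := by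
      apply Real.exp_le_exp.mpr
      nlinarith

/-- the hit probability of a node -/
def pc (f : ℕ) : ℝ := ((64 * f : ℕ) : ℝ) ^ 2 * (1 / 2 ^ (4096 * f + 7) / (4 * (1 + 2 ^ 13))) / (15000 * Jc)

theorem pc_pos {f : ℕ} (hf : 1 ≤ f) : 0 < pc f := by
  have : (0 : ℝ) < ((64 * f : ℕ) : ℝ) := by exact_mod_cast (by omega : 0 < 64 * f)
  unfold pc Jc; positivity

theorem Hs_mem {a : AP} {f i j m c1 c2 k l : ℕ} {γ : TT × TT} {x y : ℕ} (hx : x < 2 ^ m) (hy : y < 2 ^ m) (h : Hs a f i j m c1 c2 γ x y) :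
    (x / 2 ^ (m - k), y / 2 ^ (m - l)) ∈ Fs a f i j m c1 c2 k l γ := by
  classical
  unfold Fs
  rw [Finset.mem_image]
  refine ⟨(x, y), ?_, rfl⟩
  rw [Finset.mem_filter, Finset.mem_product, Finset.mem_range, Finset.mem_range]
  exact ⟨⟨hx, hy⟩, h⟩

theorem ent_le {N : ℕ} (hN : 1 ≤ N) {μ : ℕ → ℝ} (h0 : ∀ x, 0 ≤ μ x) (h1 : ∑ x ∈ range N, μ x = 1) :
    ∑ x ∈ range N, negMulLog (μ x) ≤ Real.log N := by
  have h := sum_negMulLog_le (range N) μ (fun x _ => h0 x) 1 h1 (range N) (fun x hx hx' => absurd hx hx') N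
    (by exact_mod_cast hN) (by rw [Finset.inter_self, card_range])
  rw [negMulLog_one] at h
  linarith

end Run7.h297
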