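import Pool.Agent.Run7.h297.Lev

set_option autoImplicit false

/-! The second moment over a two parameter family of levels. -/

noncomputable section

namespace Run7.h297

open Real Finset

/-- distance -/
def dn (a b : ℕ) : ℕ := (a - b) + (b - a)

theorem geo93 (n : ℕ) : ∑ j ∈ range n, (93 / 100 : ℝ) ^ j ≤ 15 := by
  have h := geom_sum_eq (show (93 / 100 : ℝ) ≠ 1 by norm_num) n
  rw [h]
  have : (0 : ℝ) < (93 / 100) ^ n := by positivity
  rw [div_le_iff_of_neg (by norm_num)]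
  linarith

theorem sum_dn (n s : ℕ) : ∑ t ∈ range n, (93 / 100 : ℝ) ^ (dn s t) ≤ 30 := by
  have h1 : ∑ t ∈ range n, (93 / 100 : ℝ) ^ (dn s t) ≤
      ∑ t ∈ range (s + 1), (93 / 100 : ℝ) ^ (s - t) + ∑ t ∈ Finset.Ico (s + 1) (s + 1 + n), (93 / 100 : ℝ) ^ (t - s) := by
    have hsub : range n ⊆ range (s + 1) ∪ Finset.Ico (s + 1) (s + 1 + n) := by
      intro t ht
      rw [Finset.mem_range] at ht
      rw [Finset.mem_union, Finset.mem_range, Finset.mem_Ico]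
      omega
    have hdisj : Disjoint (range (s + 1)) (Finset.Ico (s + 1) (s + 1 + n)) := by
      rw [Finset.disjoint_left]
      intro t ht ht'
      rw [Finset.mem_range] at ht
      rw [Finset.mem_Ico] at ht'
      omega
    refine (Finset.sum_le_sum_of_subset_of_nonneg hsub (fun _ _ _ => by positivity)).trans ?_
    rw [Finset.sum_union hdisj]
    apply le_of_eq
    congr 1
    · apply Finset.sum_congr rfl; intro t ht
      rw [Finset.mem_range] at ht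
      congr 1; unfold dn; omega
    · apply Finset.sum_congr rfl; intro t ht
      rw [Finset.mem_Ico] at ht
      congr 1; unfold dn; omega
  have h2 : ∑ t ∈ range (s + 1), (93 / 100 : ℝ) ^ (s - t) ≤ 15 := by
    have := Finset.sum_range_reflect (fun j => (93 / 100 : ℝ) ^ j) (s + 1)
    rw [← this] at *
    have h3 : ∑ t ∈ range (s + 1), (93 / 100 : ℝ) ^ (s - t) = ∑ j ∈ range (s + 1), (93 / 100 : ℝ) ^ (s + 1 - 1 - j) := by
      apply Finset.sum_congr rfl; intro t _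
      congr 1
    rw [h3, Finset.sum_range_reflect (fun j => (93 / 100 : ℝ) ^ j) (s + 1)]
    exact geo93 _
  have h3 : ∑ t ∈ Finset.Ico (s + 1) (s + 1 + n), (93 / 100 : ℝ) ^ (t - s) ≤ 15 := by
    rw [Finset.sum_Ico_eq_sum_range]
    have e : s + 1 + n - (s + 1) = n := by omega
    rw [e]
    refine le_trans ?_ (geo93 n)
    apply Finset.sum_le_sum; intro j _
    have e2 : s + 1 + j - s = j + 1 := by omega
    rw [e2, pow_succ]
    have : (0 : ℝ) < (93 / 100) ^ j := by positivity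
    linarith
  linarith

section

variable {m : ℕ} {μ ν : ℕ → ℝ} (h0 : ∀ x, 0 ≤ μ x)

open Classical in
include h0 in
theorem inner_le {k1 k2 z1 z2 : ℕ} (hk1 : k1 ≤ m) (hk2 : k2 ≤ m) (hr : dd m μ k2 z2 = 0) :
    (∑ x ∈ range (2 ^ m), μ x * ((if x / 2 ^ (m - k1) = z1 then 1 else 0) * (if x / 2 ^ (m - k2) = z2 then 1 else 0))) ≤
      lev m μ k1 z1 * (61 / 100) ^ (k2 - k1) * (if z2 / 2 ^ (k2 - k1) = z1 / 2 ^ (k1 - k2) then 1 else 0) := by
  have nn := lev_nonneg (m := m) (μ := μ) h0 k1 z1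
  by_cases hc : z2 / 2 ^ (k2 - k1) = z1 / 2 ^ (k1 - k2)
  · rw [if_pos hc, mul_one]
    rcases le_total k1 k2 with hle | hle
    · have e1 : k1 - k2 = 0 := by omega
      rw [e1, pow_zero, Nat.div_one] at hc
      have h1 : lev m μ k2 z2 ≤ lev m μ k1 z1 * (61 / 100) ^ (k2 - k1) := by
        obtain ⟨j, rfl⟩ := Nat.exists_eq_add_of_le hle
        rw [Nat.add_sub_cancel_left] at hc ⊢
        rw [← hc]
        exact reg_le h0 hk2 hr
      refine le_trans ?_ h1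
      unfold lev
      apply Finset.sum_le_sum; intro x _
      have := h0 x
      split_ifs <;> simp_all
    · have e1 : k2 - k1 = 0 := by omega
      rw [e1, pow_zero, mul_one]
      unfold lev
      apply Finset.sum_le_sum; intro x _
      have := h0 x
      split_ifs <;> simp_all
  · rw [if_neg hc, mul_zero]
    apply le_of_eq
    apply Finset.sum_eq_zero; intro x _
    by_cases c1 : x / 2 ^ (m - k1) = z1
    · by_cases c2 : x / 2 ^ (m - k2) = z2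
      · exfalso; apply hc
        rw [← c1, ← c2, Nat.div_div_eq_div_mul, Nat.div_div_eq_div_mul, ← pow_add, ← pow_add]
        congr 2; omega
      · rw [if_neg c2]; ring
    · rw [if_neg c1]; ring

theorem sum4 {α β γ δ : Type*} (A : Finset α) (B : Finset β) (X : Finset γ) (Y : Finset δ) (f : α → β → γ → δ → ℝ) :
    ∑ a ∈ A, ∑ b ∈ B, ∑ x ∈ X, ∑ y ∈ Y, f a b x y = ∑ x ∈ X, ∑ y ∈ Y, ∑ a ∈ A, ∑ b ∈ B, f a b x y := by
  calc _ = ∑ a ∈ A, ∑ x ∈ X, ∑ b ∈ B, ∑ y ∈ Y, f a b x y := by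
        apply Finset.sum_congr rfl; intro a _; exact Finset.sum_comm
    _ = ∑ a ∈ A, ∑ x ∈ X, ∑ y ∈ Y, ∑ b ∈ B, f a b x y := by
        apply Finset.sum_congr rfl; intro a _
        apply Finset.sum_congr rfl; intro x _; exact Finset.sum_comm
    _ = ∑ x ∈ X, ∑ a ∈ A, ∑ y ∈ Y, ∑ b ∈ B, f a b x y := Finset.sum_comm
    _ = _ := by
        apply Finset.sum_congr rfl; intro x _; exact Finset.sum_comm

open Classical in
theorem ind_eq (F : Finset (ℕ × ℕ)) (a b : ℕ) :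
    (if (a, b) ∈ F then (1 : ℝ) else 0) = ∑ z ∈ F, (if a = z.1 then 1 else 0) * (if b = z.2 then 1 else 0) := by
  have : ∀ z ∈ F, (if a = z.1 then (1 : ℝ) else 0) * (if b = z.2 then 1 else 0) = if (a, b) = z then 1 else 0 := by
    intro z _
    by_cases h1 : a = z.1
    · by_cases h2 : b = z.2
      · rw [if_pos h1, if_pos h2, if_pos (Prod.ext h1 h2), mul_one]
      · rw [if_pos h1, if_neg h2, if_neg (fun h => h2 (congrArg Prod.snd h)), mul_zero]
    · rw [if_neg h1, if_neg (fun h => h1 (congrArg Prod.fst h)), zero_mul]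
  rw [Finset.sum_congr rfl this, Finset.sum_ite_eq]

open Classical in
theorem one_sum {k l : ℕ} (F : Finset (ℕ × ℕ)) :
    ∑ x ∈ range (2 ^ m), ∑ y ∈ range (2 ^ m), μ x * ν y * (if (x / 2 ^ (m - k), y / 2 ^ (m - l)) ∈ F then 1 else 0) =
      ∑ z ∈ F, lev m μ k z.1 * lev m ν l z.2 := by
  simp_rw [ind_eq]
  have h := sum4 (A := F) (B := range 1) (X := range (2 ^ m)) (Y := range (2 ^ m))
    (fun z _ x y => (μ x * (if x / 2 ^ (m - k) = z.1 then 1 else 0)) * (ν y * (if y / 2 ^ (m - l) = z.2 then 1 else 0)))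
  simp only [Finset.sum_range_one] at h
  have e1 : ∑ x ∈ range (2 ^ m), ∑ y ∈ range (2 ^ m), μ x * ν y * ∑ z ∈ F, (if x / 2 ^ (m - k) = z.1 then (1 : ℝ) else 0) *
      (if y / 2 ^ (m - l) = z.2 then 1 else 0) = ∑ x ∈ range (2 ^ m), ∑ y ∈ range (2 ^ m), ∑ z ∈ F,
      (μ x * (if x / 2 ^ (m - k) = z.1 then 1 else 0)) * (ν y * (if y / 2 ^ (m - l) = z.2 then 1 else 0)) := by
    apply Finset.sum_congr rfl; intro x _
    apply Finset.sum_congr rfl; intro y _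
    rw [Finset.mul_sum]
    apply Finset.sum_congr rfl; intro z _; ring
  rw [e1, ← h]
  apply Finset.sum_congr rfl; intro z _
  rw [← Finset.sum_mul_sum]
  unfold lev
  congr 1
  · apply Finset.sum_congr rfl; intro x _; rw [mul_ite, mul_one, mul_zero]
  · apply Finset.sum_congr rfl; intro x _; rw [mul_ite, mul_one, mul_zero]

variable (n0 : ∀ x, 0 ≤ ν x)

/-- regular cells of a set -/
def regF (m : ℕ) (μ ν : ℕ → ℝ) (k l : ℕ) (F : Finset (ℕ × ℕ)) : Finset (ℕ × ℕ) :=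
  F.filter (fun z => dd m μ k z.1 = 0 ∧ dd m ν l z.2 = 0)

include h0 n0 in
open Classical in
theorem pairU {k1 l1 k2 l2 : ℕ} (hk1 : k1 ≤ m) (hl1 : l1 ≤ m) (hk2 : k2 ≤ m) (hl2 : l2 ≤ m) (F1 F2 : Finset (ℕ × ℕ))
    {Jb : ℝ} (hc : ∀ R1 R2 : ℕ, ((F2.filter (fun z => z.1 / 2 ^ (k2 - k1) = R1 ∧ z.2 / 2 ^ (l2 - l1) = R2)).card : ℝ) ≤ Jb) :
    ∑ x ∈ range (2 ^ m), ∑ y ∈ range (2 ^ m), μ x * ν y *
      ((if (x / 2 ^ (m - k1), y / 2 ^ (m - l1)) ∈ regF m μ ν k1 l1 F1 then 1 else 0) *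
        (if (x / 2 ^ (m - k2), y / 2 ^ (m - l2)) ∈ regF m μ ν k2 l2 F2 then 1 else 0)) ≤
      Jb * (61 / 100) ^ ((k2 - k1) + (l2 - l1)) *
        ∑ x ∈ range (2 ^ m), ∑ y ∈ range (2 ^ m), μ x * ν y *
          (if (x / 2 ^ (m - k1), y / 2 ^ (m - l1)) ∈ regF m μ ν k1 l1 F1 then 1 else 0) := by
  rw [one_sum]
  have e1 : ∑ x ∈ range (2 ^ m), ∑ y ∈ range (2 ^ m), μ x * ν y *
      ((if (x / 2 ^ (m - k1), y / 2 ^ (m - l1)) ∈ regF m μ ν k1 l1 F1 then 1 else 0) *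
        (if (x / 2 ^ (m - k2), y / 2 ^ (m - l2)) ∈ regF m μ ν k2 l2 F2 then 1 else 0)) =
      ∑ z ∈ regF m μ ν k1 l1 F1, ∑ z' ∈ regF m μ ν k2 l2 F2,
        (∑ x ∈ range (2 ^ m), μ x * ((if x / 2 ^ (m - k1) = z.1 then 1 else 0) * (if x / 2 ^ (m - k2) = z'.1 then 1 else 0))) *
        (∑ y ∈ range (2 ^ m), ν y * ((if y / 2 ^ (m - l1) = z.2 then 1 else 0) * (if y / 2 ^ (m - l2) = z'.2 then 1 else 0))) := by
    simp_rw [ind_eq, Finset.sum_mul_sum, Finset.mul_sum]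
    rw [sum4]
    apply Finset.sum_congr rfl; intro x _
    apply Finset.sum_congr rfl; intro y _
    apply Finset.sum_congr rfl; intro z _
    apply Finset.sum_congr rfl; intro z' _
    ring
  rw [e1, Finset.mul_sum]
  apply Finset.sum_le_sum; intro z _
  have l1n := lev_nonneg (m := m) (μ := μ) h0 k1 z.1
  have l2n := lev_nonneg (m := m) (μ := ν) n0 l1 z.2
  have h2 : ∀ z' ∈ regF m μ ν k2 l2 F2,
        (∑ x ∈ range (2 ^ m), μ x * ((if x / 2 ^ (m - k1) = z.1 then 1 else 0) * (if x / 2 ^ (m - k2) = z'.1 then 1 else 0))) *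
        (∑ y ∈ range (2 ^ m), ν y * ((if y / 2 ^ (m - l1) = z.2 then 1 else 0) * (if y / 2 ^ (m - l2) = z'.2 then 1 else 0))) ≤
        (lev m μ k1 z.1 * (61 / 100) ^ (k2 - k1)) * (lev m ν l1 z.2 * (61 / 100) ^ (l2 - l1)) *
          (if z'.1 / 2 ^ (k2 - k1) = z.1 / 2 ^ (k1 - k2) ∧ z'.2 / 2 ^ (l2 - l1) = z.2 / 2 ^ (l1 - l2) then 1 else 0) := by
    intro z' hz'
    unfold regF at hz'
    rw [Finset.mem_filter] at hz'
    have a1 := inner_le h0 (z1 := z.1) hk1 hk2 hz'.2.1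
    have a2 := inner_le n0 (z1 := z.2) hl1 hl2 hz'.2.2
    have b1 : 0 ≤ ∑ y ∈ range (2 ^ m), ν y * ((if y / 2 ^ (m - l1) = z.2 then (1 : ℝ) else 0) * (if y / 2 ^ (m - l2) = z'.2 then 1 else 0)) := by
      apply Finset.sum_nonneg; intro y _
      apply mul_nonneg (n0 y)
      split_ifs <;> norm_num
    have b2 : 0 ≤ lev m μ k1 z.1 * (61 / 100) ^ (k2 - k1) * (if z'.1 / 2 ^ (k2 - k1) = z.1 / 2 ^ (k1 - k2) then (1 : ℝ) else 0) := by
      apply mul_nonneg (by positivity)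
      split_ifs <;> norm_num
    refine (mul_le_mul a1 a2 b1 b2).trans (le_of_eq ?_)
    by_cases c1 : z'.1 / 2 ^ (k2 - k1) = z.1 / 2 ^ (k1 - k2)
    · by_cases c2 : z'.2 / 2 ^ (l2 - l1) = z.2 / 2 ^ (l1 - l2)
      · rw [if_pos c1, if_pos c2, if_pos ⟨c1, c2⟩]; ring
      · have c3 : ¬(z'.1 / 2 ^ (k2 - k1) = z.1 / 2 ^ (k1 - k2) ∧ z'.2 / 2 ^ (l2 - l1) = z.2 / 2 ^ (l1 - l2)) := fun h => c2 h.2
        simp only [if_neg c3, if_neg c2, mul_zero]
    · have c3 : ¬(z'.1 / 2 ^ (k2 - k1) = z.1 / 2 ^ (k1 - k2) ∧ z'.2 / 2 ^ (l2 - l1) = z.2 / 2 ^ (l1 - l2)) := fun h => c1 h.1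
      simp only [if_neg c3, if_neg c1, mul_zero, zero_mul]
  refine (Finset.sum_le_sum h2).trans ?_
  rw [← Finset.mul_sum]
  have h3 : ∑ z' ∈ regF m μ ν k2 l2 F2, (if z'.1 / 2 ^ (k2 - k1) = z.1 / 2 ^ (k1 - k2) ∧ z'.2 / 2 ^ (l2 - l1) = z.2 / 2 ^ (l1 - l2) then (1 : ℝ) else 0) ≤ Jb := by
    rw [Finset.sum_boole]
    refine le_trans ?_ (hc (z.1 / 2 ^ (k1 - k2)) (z.2 / 2 ^ (l1 - l2)))
    have : (regF m μ ν k2 l2 F2).filter (fun z' => z'.1 / 2 ^ (k2 - k1) = z.1 / 2 ^ (k1 - k2) ∧ z'.2 / 2 ^ (l2 - l1) = z.2 / 2 ^ (l1 - l2)) ⊆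
        F2.filter (fun z' => z'.1 / 2 ^ (k2 - k1) = z.1 / 2 ^ (k1 - k2) ∧ z'.2 / 2 ^ (l2 - l1) = z.2 / 2 ^ (l1 - l2)) := by
      apply Finset.filter_subset_filter
      unfold regF
      exact Finset.filter_subset _ _
    exact_mod_cast Finset.card_le_card this
  calc _ ≤ (lev m μ k1 z.1 * (61 / 100) ^ (k2 - k1)) * (lev m ν l1 z.2 * (61 / 100) ^ (l2 - l1)) * Jb := by
        apply mul_le_mul_of_nonneg_left h3 (by positivity)
    _ = _ := by rw [pow_add]; ring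

end

end Run7.h297
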