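import Pool.Agent.Run7.h297.Ent
import Pool.Agent.Run7.h297.Sec

set_option autoImplicit false

/-! The second moment bound for a union over levels. -/

noncomputable section

namespace Run7.h297

open Real Finset

/-- the typical set -/
def tyS (m : ℕ) (μ : ℕ → ℝ) (D : ℝ) : Finset ℕ := (range (2 ^ m)).filter (fun x => μ x ≤ Real.exp (16 * (D + 1)) / 2 ^ m)

theorem tyS_mass {m : ℕ} {μ : ℕ → ℝ} (h0 : ∀ x, 0 ≤ μ x) (h1 : ∑ x ∈ range (2 ^ m), μ x = 1) {D : ℝ} (hD : 0 ≤ D)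
    (hE : m * Real.log 2 - D ≤ ∑ x ∈ range (2 ^ m), negMulLog (μ x)) :
    ∑ x ∈ range (2 ^ m), (if x ∈ tyS m μ D then 0 else μ x) ≤ 1 / 16 := by
  have hp : (0 : ℝ) < 2 ^ m := by positivity
  have hpt : ∀ x ∈ range (2 ^ m), 16 * (D + 1) * (if x ∈ tyS m μ D then 0 else μ x) - 1 / 2 ^ m ≤
      μ x * (m * Real.log 2) - negMulLog (μ x) := by
    intro x hx
    rcases (h0 x).eq_or_lt with h | h
    · rw [← h]
      have : (0 : ℝ) ≤ 1 / 2 ^ m := by positivity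
      have e1 : (if x ∈ tyS m μ D then (0 : ℝ) else 0) = 0 := by split_ifs <;> rfl
      rw [e1]; simp
    · have e : μ x * (m * Real.log 2) - negMulLog (μ x) = μ x * Real.log (2 ^ m * μ x) := by
        rw [Real.log_mul hp.ne' h.ne', Real.log_pow, negMulLog]; ring
      rw [e]
      by_cases hc : x ∈ tyS m μ D
      · rw [if_pos hc, mul_zero, zero_sub]
        have h2 := mul_log_ge (a := μ x) h.le (t := 2 ^ m * μ x) (by positivity)
        have h3 : μ x / (2 ^ m * μ x) = 1 / 2 ^ m := by field_simp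
        rw [h3] at h2
        linarith
      · rw [if_neg hc]
        have h4 : Real.exp (16 * (D + 1)) / 2 ^ m < μ x := by
          by_contra hcon
          push Not at hcon
          exact hc (Finset.mem_filter.mpr ⟨hx, hcon⟩)
        rw [div_lt_iff₀ hp] at h4
        have h5 : 16 * (D + 1) ≤ Real.log (2 ^ m * μ x) := by
          rw [Real.le_log_iff_exp_le (by positivity)]
          linarith
        have h6 := mul_le_mul_of_nonneg_left h5 h.le
        have : (0 : ℝ) ≤ 1 / 2 ^ m := by positivity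
        linarith
  have hs := Finset.sum_le_sum hpt
  rw [Finset.sum_sub_distrib, Finset.sum_sub_distrib, ← Finset.mul_sum, ← Finset.sum_mul, h1, Finset.sum_const, card_range,
    nsmul_eq_mul] at hs
  push_cast at hs
  have e2 : (2 : ℝ) ^ m * (1 / 2 ^ m) = 1 := by field_simp
  rw [e2] at hs
  have h7 : 16 * (D + 1) * ∑ x ∈ range (2 ^ m), (if x ∈ tyS m μ D then 0 else μ x) ≤ 16 * (D + 1) * (1 / 16) := by linarith
  exact le_of_mul_le_mul_left h7 (by linarith)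

section

variable {m : ℕ} {μ : ℕ → ℝ} (h0 : ∀ x, 0 ≤ μ x) (h1 : ∑ x ∈ range (2 ^ m), μ x = 1) {D : ℝ} (hD : 0 ≤ D)
  (hE : m * Real.log 2 - D ≤ ∑ x ∈ range (2 ^ m), negMulLog (μ x))

open Classical in
/-- weights of the normalized typical regular law -/
def wt (m : ℕ) (μ : ℕ → ℝ) (D : ℝ) (k : ℕ) (x : ℕ) : ℝ :=
  if x ∈ tyS m μ D ∧ dd m μ k (x / 2 ^ (m - k)) = 0 then μ x else 0

include h0 in
theorem wt_nonneg (k x : ℕ) : 0 ≤ wt m μ D k x := by
  unfold wt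
  split_ifs
  · exact h0 x
  · exact le_rfl

include h0 in
theorem wt_le (k x : ℕ) : wt m μ D k x ≤ μ x := by
  unfold wt
  split_ifs
  · exact le_rfl
  · exact h0 x

include h0 h1 hD hE in
theorem wt_mass {k : ℕ} (hk : irm m μ k ≤ 1 / 4) : 1 / 2 ≤ ∑ x ∈ range (2 ^ m), wt m μ D k x := by
  classical
  have h2 := tyS_mass h0 h1 hD hE
  have h3 : ∑ x ∈ range (2 ^ m), (μ x - (if x ∈ tyS m μ D then 0 else μ x) - (if dd m μ k (x / 2 ^ (m - k)) = 0 then 0 else μ x)) ≤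
      ∑ x ∈ range (2 ^ m), wt m μ D k x := by
    apply Finset.sum_le_sum; intro x _
    unfold wt
    have := h0 x
    by_cases c1 : x ∈ tyS m μ D
    · by_cases c2 : dd m μ k (x / 2 ^ (m - k)) = 0
      · rw [if_pos c1, if_pos c2, if_pos ⟨c1, c2⟩]; linarith
      · have c3 : ¬(x ∈ tyS m μ D ∧ dd m μ k (x / 2 ^ (m - k)) = 0) := fun h => c2 h.2
        rw [if_pos c1, if_neg c3, if_neg c2]; linarith
    · have c3 : ¬(x ∈ tyS m μ D ∧ dd m μ k (x / 2 ^ (m - k)) = 0) := fun h => c1 h.1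
      rw [if_neg c1, if_neg c3]
      split_ifs <;> linarith
  rw [Finset.sum_sub_distrib, Finset.sum_sub_distrib, h1] at h3
  have h4 : ∑ x ∈ range (2 ^ m), (if dd m μ k (x / 2 ^ (m - k)) = 0 then 0 else μ x) ≤ 1 / 4 := by
    unfold irm at hk
    exact hk
  linarith

end

section

variable {m : ℕ} {μ ν : ℕ → ℝ} (h0 : ∀ x, 0 ≤ μ x) (h1 : ∑ x ∈ range (2 ^ m), μ x = 1)
  (n0 : ∀ x, 0 ≤ ν x) (n1 : ∑ x ∈ range (2 ^ m), ν x = 1) {D : ℝ} (hD : 0 ≤ D)
  (hE : m * Real.log 2 - D ≤ ∑ x ∈ range (2 ^ m), negMulLog (μ x))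
  (hE' : m * Real.log 2 - D ≤ ∑ x ∈ range (2 ^ m), negMulLog (ν x))

open Classical in
/-- probability of the regular cells of a set -/
def qs (m : ℕ) (μ ν : ℕ → ℝ) (k l : ℕ) (F : Finset (ℕ × ℕ)) : ℝ :=
  ∑ x ∈ range (2 ^ m), ∑ y ∈ range (2 ^ m), μ x * ν y *
    (if (x / 2 ^ (m - k), y / 2 ^ (m - l)) ∈ regF m μ ν k l F then 1 else 0)

include h0 h1 n0 n1 hD hE hE' in
open Classical in
theorem qs_ge {k l : ℕ} (F : Finset (ℕ × ℕ)) {p : ℝ} (hk : irm m μ k ≤ 1 / 4) (hl : irm m ν l ≤ 1 / 4)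
    (hmix : ∀ μ' ν' : ℕ → ℝ, (∀ x, 0 ≤ μ' x) → (∀ x, 0 ≤ ν' x) → ∑ x ∈ range (2 ^ m), μ' x = 1 → ∑ x ∈ range (2 ^ m), ν' x = 1 →
      (∀ x, μ' x ≤ 2 * Real.exp (16 * (D + 1)) / 2 ^ m) → (∀ x, ν' x ≤ 2 * Real.exp (16 * (D + 1)) / 2 ^ m) →
      p ≤ ∑ x ∈ range (2 ^ m), ∑ y ∈ range (2 ^ m), μ' x * ν' y * (if (x / 2 ^ (m - k), y / 2 ^ (m - l)) ∈ F then 1 else 0)) :
    p / 4 ≤ qs m μ ν k l F := by
  set A := ∑ x ∈ range (2 ^ m), wt m μ D k x with hA
  set B := ∑ x ∈ range (2 ^ m), wt m ν D l x with hB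
  have hA1 : 1 / 2 ≤ A := wt_mass h0 h1 hD hE hk
  have hB1 : 1 / 2 ≤ B := wt_mass n0 n1 hD hE' hl
  have hA0 : 0 < A := by linarith
  have hB0 : 0 < B := by linarith
  have hp : (0 : ℝ) < 2 ^ m := by positivity
  have hbd : ∀ (ρ : ℕ → ℝ) (k : ℕ) (A : ℝ), (∀ x, 0 ≤ ρ x) → 1 / 2 ≤ A → ∀ x, wt m ρ D k x / A ≤ 2 * Real.exp (16 * (D + 1)) / 2 ^ m := by
    intro ρ k A hρ hA1 x
    have hA0 : 0 < A := by linarith
    have h2 : wt m ρ D k x ≤ Real.exp (16 * (D + 1)) / 2 ^ m := by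
      unfold wt
      split_ifs with h
      · exact (Finset.mem_filter.mp h.1).2
      · positivity
    rw [div_le_iff₀ hA0]
    have h3 : 0 ≤ Real.exp (16 * (D + 1)) / 2 ^ m := by positivity
    calc wt m ρ D k x ≤ Real.exp (16 * (D + 1)) / 2 ^ m := h2
      _ = 2 * (Real.exp (16 * (D + 1)) / 2 ^ m) * (1 / 2) := by ring
      _ ≤ 2 * (Real.exp (16 * (D + 1)) / 2 ^ m) * A := by gcongr
      _ = _ := by ring
  have key := hmix (fun x => wt m μ D k x / A) (fun x => wt m ν D l x / B)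
    (fun x => div_nonneg (wt_nonneg h0 k x) hA0.le) (fun x => div_nonneg (wt_nonneg n0 l x) hB0.le)
    (by rw [← Finset.sum_div, ← hA]; field_simp) (by rw [← Finset.sum_div, ← hB]; field_simp)
    (hbd μ k A h0 hA1) (hbd ν l B n0 hB1)
  have hle : ∑ x ∈ range (2 ^ m), ∑ y ∈ range (2 ^ m), (wt m μ D k x / A) * (wt m ν D l y / B) *
      (if (x / 2 ^ (m - k), y / 2 ^ (m - l)) ∈ F then 1 else 0) ≤ 4 * qs m μ ν k l F := by
    unfold qs
    rw [Finset.mul_sum]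
    apply Finset.sum_le_sum; intro x _
    rw [Finset.mul_sum]
    apply Finset.sum_le_sum; intro y _
    by_cases hF : (x / 2 ^ (m - k), y / 2 ^ (m - l)) ∈ regF m μ ν k l F
    · rw [if_pos hF]
      have hF' : (x / 2 ^ (m - k), y / 2 ^ (m - l)) ∈ F := (Finset.mem_filter.mp hF).1
      rw [if_pos hF', mul_one, mul_one]
      have a1 : wt m μ D k x / A ≤ 2 * μ x := by
        rw [div_le_iff₀ hA0]
        have := wt_le h0 (D := D) (m := m) k x
        have := h0 x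
        nlinarith
      have a2 : wt m ν D l y / B ≤ 2 * ν y := by
        rw [div_le_iff₀ hB0]
        have := wt_le n0 (D := D) (m := m) l y
        have := n0 y
        nlinarith
      have a3 := div_nonneg (wt_nonneg n0 (D := D) (m := m) l y) hB0.le
      have a4 : 0 ≤ 2 * μ x := by have := h0 x; linarith
      calc _ ≤ (2 * μ x) * (2 * ν y) := mul_le_mul a1 a2 a3 a4
        _ = _ := by ring
    · rw [if_neg hF]
      have hz : wt m μ D k x / A * (wt m ν D l y / B) * (if (x / 2 ^ (m - k), y / 2 ^ (m - l)) ∈ F then 1 else 0) = 0 := by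
        by_cases hF' : (x / 2 ^ (m - k), y / 2 ^ (m - l)) ∈ F
        · have hn : ¬ (dd m μ k (x / 2 ^ (m - k)) = 0 ∧ dd m ν l (y / 2 ^ (m - l)) = 0) :=
            fun h => hF (Finset.mem_filter.mpr ⟨hF', h⟩)
          by_cases c1 : dd m μ k (x / 2 ^ (m - k)) = 0
          · have c2 : ¬ dd m ν l (y / 2 ^ (m - l)) = 0 := fun h => hn ⟨c1, h⟩
            have : wt m ν D l y = 0 := by
              unfold wt; rw [if_neg (fun h => c2 h.2)]
            rw [this]; simp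
          · have : wt m μ D k x = 0 := by
              unfold wt; rw [if_neg (fun h => c1 h.2)]
            rw [this]; simp
        · rw [if_neg hF', mul_zero]
      rw [hz]; simp
  linarith

include h0 n0 in
open Classical in
theorem qs_pair {k1 l1 k2 l2 n : ℕ} (hk1 : k1 ≤ m) (hl1 : l1 ≤ m) (hk2 : k2 ≤ m) (hl2 : l2 ≤ m) (F1 F2 : Finset (ℕ × ℕ))
    {Jc : ℝ} (hJ : 0 ≤ Jc)
    (hT1 : ∀ r t R1 R2 : ℕ, r ≤ n → t ≤ n → ((F1.filter (fun z => z.1 / 2 ^ r = R1 ∧ z.2 / 2 ^ t = R2)).card : ℝ) ≤ Jc * (1415 / 1000) ^ (r + t))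
    (hT2 : ∀ r t R1 R2 : ℕ, r ≤ n → t ≤ n → ((F2.filter (fun z => z.1 / 2 ^ r = R1 ∧ z.2 / 2 ^ t = R2)).card : ℝ) ≤ Jc * (1415 / 1000) ^ (r + t))
    (hn1 : dn k1 k2 ≤ n) (hn2 : dn l1 l2 ≤ n) {d : ℕ} (hd : d ≤ dn k1 k2 + dn l1 l2) :
    ∑ x ∈ range (2 ^ m), ∑ y ∈ range (2 ^ m), μ x * ν y *
      ((if (x / 2 ^ (m - k1), y / 2 ^ (m - l1)) ∈ regF m μ ν k1 l1 F1 then 1 else 0) *
        (if (x / 2 ^ (m - k2), y / 2 ^ (m - l2)) ∈ regF m μ ν k2 l2 F2 then 1 else 0)) ≤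
      Jc * (93 / 100) ^ d * (qs m μ ν k1 l1 F1 + qs m μ ν k2 l2 F2) := by
  have q1 : 0 ≤ qs m μ ν k1 l1 F1 := by
    unfold qs
    apply Finset.sum_nonneg; intro x _
    apply Finset.sum_nonneg; intro y _
    have := h0 x; have := n0 y
    split_ifs <;> simp
    positivity
  have q2 : 0 ≤ qs m μ ν k2 l2 F2 := by
    unfold qs
    apply Finset.sum_nonneg; intro x _
    apply Finset.sum_nonneg; intro y _
    have := h0 x; have := n0 y
    split_ifs <;> simp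
    positivity
  have a1 : (k2 - k1) ≤ n ∧ (k1 - k2) ≤ n := by unfold dn at hn1; omega
  have a2 : (l2 - l1) ≤ n ∧ (l1 - l2) ≤ n := by unfold dn at hn2; omega
  have u1 := pairU h0 n0 hk1 hl1 hk2 hl2 F1 F2 (Jb := Jc * (1415 / 1000) ^ ((k2 - k1) + (l2 - l1)))
    (fun R1 R2 => hT2 _ _ R1 R2 a1.1 a2.1)
  have u2 := pairU h0 n0 hk2 hl2 hk1 hl1 F2 F1 (Jb := Jc * (1415 / 1000) ^ ((k1 - k2) + (l1 - l2)))
    (fun R1 R2 => hT1 _ _ R1 R2 a1.2 a2.2)
  have e : ∑ x ∈ range (2 ^ m), ∑ y ∈ range (2 ^ m), μ x * ν y *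
      ((if (x / 2 ^ (m - k2), y / 2 ^ (m - l2)) ∈ regF m μ ν k2 l2 F2 then (1 : ℝ) else 0) *
        (if (x / 2 ^ (m - k1), y / 2 ^ (m - l1)) ∈ regF m μ ν k1 l1 F1 then 1 else 0)) =
      ∑ x ∈ range (2 ^ m), ∑ y ∈ range (2 ^ m), μ x * ν y *
      ((if (x / 2 ^ (m - k1), y / 2 ^ (m - l1)) ∈ regF m μ ν k1 l1 F1 then 1 else 0) *
        (if (x / 2 ^ (m - k2), y / 2 ^ (m - l2)) ∈ regF m μ ν k2 l2 F2 then 1 else 0)) := by
    apply Finset.sum_congr rfl; intro x _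
    apply Finset.sum_congr rfl; intro y _
    ring
  rw [e] at u2
  have hcomb : ∀ j d : ℕ, d ≤ 2 * j → Jc * (1415 / 1000) ^ j * (61 / 100) ^ j ≤ Jc * (93 / 100 : ℝ) ^ d := by
    intro j d hdj
    rw [mul_assoc, ← mul_pow]
    apply mul_le_mul_of_nonneg_left _ hJ
    calc ((1415 / 1000 : ℝ) * (61 / 100)) ^ j ≤ ((93 / 100) ^ 2) ^ j := by
          apply pow_le_pow_left₀ (by norm_num); norm_num
      _ = (93 / 100) ^ (2 * j) := by rw [← pow_mul]
      _ ≤ (93 / 100) ^ d := pow_le_pow_of_le_one (by norm_num) (by norm_num) hdj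
  have hpos : 0 ≤ Jc * (93 / 100 : ℝ) ^ d := by positivity
  rcases le_total (dn k1 k2 + dn l1 l2) (2 * ((k2 - k1) + (l2 - l1))) with hc | hc
  · have h3 := hcomb ((k2 - k1) + (l2 - l1)) d (hd.trans hc)
    refine u1.trans ?_
    have h4 : Jc * (1415 / 1000) ^ ((k2 - k1) + (l2 - l1)) * (61 / 100) ^ ((k2 - k1) + (l2 - l1)) * qs m μ ν k1 l1 F1 ≤
      Jc * (93 / 100) ^ d * qs m μ ν k1 l1 F1 := mul_le_mul_of_nonneg_right h3 q1
    have h5 : 0 ≤ Jc * (93 / 100 : ℝ) ^ d * qs m μ ν k2 l2 F2 := mul_nonneg hpos q2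
    rw [mul_add]
    unfold qs at h4 h5 ⊢
    linarith
  · have h6 : dn k1 k2 + dn l1 l2 ≤ 2 * ((k1 - k2) + (l1 - l2)) := by unfold dn at hc ⊢; omega
    have h3 := hcomb ((k1 - k2) + (l1 - l2)) d (hd.trans h6)
    refine u2.trans ?_
    have h4 : Jc * (1415 / 1000) ^ ((k1 - k2) + (l1 - l2)) * (61 / 100) ^ ((k1 - k2) + (l1 - l2)) * qs m μ ν k2 l2 F2 ≤
      Jc * (93 / 100) ^ d * qs m μ ν k2 l2 F2 := mul_le_mul_of_nonneg_right h3 q2
    have h5 : 0 ≤ Jc * (93 / 100 : ℝ) ^ d * qs m μ ν k1 l1 F1 := mul_nonneg hpos q1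
    rw [mul_add]
    unfold qs at h4 h5 ⊢
    linarith

include h0 h1 hE in
theorem cnt_bad {n : ℕ} (lv : ℕ → ℕ → ℕ) (hinj : ∀ s, s < n → ∀ s', s' < n → ∀ s'', s'' < n → lv s s' = lv s s'' → s' = s'')
    (hlv : ∀ s, s < n → ∀ s', s' < n → 1 ≤ lv s s' ∧ lv s s' ≤ m) :
    ∑ s ∈ range n, ∑ s' ∈ range n, (if irm m μ (lv s s') ≤ 1 / 4 then (0 : ℝ) else 1) ≤ 19200 * n * D := by
  classical
  have hir0 : ∀ k, 0 ≤ irm m μ k := by
    intro k
    unfold irm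
    apply Finset.sum_nonneg; intro x _
    split_ifs
    · exact le_rfl
    · exact h0 x
  have h2 := sum_irm h0 h1
  have h3 : ∀ s ∈ range n, ∑ s' ∈ range n, (if irm m μ (lv s s') ≤ 1 / 4 then (0 : ℝ) else 1) ≤ 19200 * D := by
    intro s hs
    rw [Finset.mem_range] at hs
    have h4 : ∑ s' ∈ range n, (if irm m μ (lv s s') ≤ 1 / 4 then (0 : ℝ) else 1) ≤ ∑ s' ∈ range n, 4 * irm m μ (lv s s') := by
      apply Finset.sum_le_sum; intro s' _
      have := hir0 (lv s s')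
      split_ifs with hc
      · linarith
      · push Not at hc; linarith
    refine h4.trans ?_
    rw [← Finset.mul_sum]
    have h5 : ∑ s' ∈ range n, irm m μ (lv s s') ≤ ∑ k ∈ range m, irm m μ (k + 1) := by
      have e1 : ∑ s' ∈ range n, irm m μ (lv s s') = ∑ k ∈ (range n).image (fun s' => lv s s' - 1), irm m μ (k + 1) := by
        rw [Finset.sum_image]
        · apply Finset.sum_congr rfl; intro s' hs'
          rw [Finset.mem_range] at hs'
          congr 1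
          have := (hlv s hs s' hs').1
          omega
        · intro x hx y hy hxy
          rw [Finset.mem_coe, Finset.mem_range] at hx hy
          have a1 := (hlv s hs x hx).1
          have a2 := (hlv s hs y hy).1
          exact hinj s hs x hx y hy (by dsimp only at hxy; omega)
      rw [e1]
      apply Finset.sum_le_sum_of_subset_of_nonneg
      · intro k hk
        rw [Finset.mem_image] at hk
        obtain ⟨s', hs', rfl⟩ := hk
        rw [Finset.mem_range] at hs' ⊢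
        have := hlv s hs s' hs'
        omega
      · intro k _ _; exact hir0 _
    linarith
  refine (Finset.sum_le_sum h3).trans (le_of_eq ?_)
  rw [Finset.sum_const, card_range, nsmul_eq_mul]; ring

include h0 h1 n0 n1 hD hE hE' in
open Classical in
/-- the second moment theorem -/
theorem second_moment {n κ : ℕ} (hκ1 : 3 * n ≤ κ) (hκ2 : κ ≤ m) (hDn : 76800 * D ≤ n) (F : ℕ → ℕ → Finset (ℕ × ℕ)) {p Jc : ℝ} (hJ : 1 ≤ Jc)
    (hT : ∀ s s', s < n → s' < n → ∀ r t R1 R2 : ℕ, r ≤ 3 * n → t ≤ 3 * n →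
      (((F s s').filter (fun z => z.1 / 2 ^ r = R1 ∧ z.2 / 2 ^ t = R2)).card : ℝ) ≤ Jc * (1415 / 1000) ^ (r + t))
    (hmix : ∀ s s', s < n → s' < n → ∀ μ' ν' : ℕ → ℝ, (∀ x, 0 ≤ μ' x) → (∀ x, 0 ≤ ν' x) →
      ∑ x ∈ range (2 ^ m), μ' x = 1 → ∑ x ∈ range (2 ^ m), ν' x = 1 →
      (∀ x, μ' x ≤ 2 * Real.exp (16 * (D + 1)) / 2 ^ m) → (∀ x, ν' x ≤ 2 * Real.exp (16 * (D + 1)) / 2 ^ m) →
      p ≤ ∑ x ∈ range (2 ^ m), ∑ y ∈ range (2 ^ m), μ' x * ν' y *
        (if (x / 2 ^ (m - (κ - 2 * s - s')), y / 2 ^ (m - (κ - s - 2 * s'))) ∈ F s s' then 1 else 0)) (hp : 0 ≤ p) :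
    (n : ℝ) ^ 2 * p / (15000 * Jc) ≤ ∑ x ∈ range (2 ^ m), ∑ y ∈ range (2 ^ m), μ x * ν y *
      (if ∃ s s', s < n ∧ s' < n ∧ (x / 2 ^ (m - (κ - 2 * s - s')), y / 2 ^ (m - (κ - s - 2 * s'))) ∈ F s s' then 1 else 0) := by
  set G : Finset (ℕ × ℕ) := ((range n) ×ˢ (range n)).filter (fun z => irm m μ (κ - 2 * z.1 - z.2) ≤ 1 / 4 ∧ irm m ν (κ - z.1 - 2 * z.2) ≤ 1 / 4) with hG
  have hn0 : (0 : ℝ) ≤ n := Nat.cast_nonneg n
  -- number of good shapes
  have hGc : (n : ℝ) ^ 2 / 2 ≤ (G.card : ℝ) := by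
    have b1 := cnt_bad h0 h1 hE (n := n) (fun s s' => κ - 2 * s - s') (by intro s hs s' hs' s'' hs'' h; omega)
      (by intro s hs s' hs'; omega)
    have b2 := cnt_bad n0 n1 hE' (n := n) (fun s' s => κ - s - 2 * s') (by intro s hs s' hs' s'' hs'' h; omega)
      (by intro s hs s' hs'; omega)
    rw [Finset.sum_comm] at b2
    have e : (G.card : ℝ) = ∑ s ∈ range n, ∑ s' ∈ range n, (if irm m μ (κ - 2 * s - s') ≤ 1 / 4 ∧ irm m ν (κ - s - 2 * s') ≤ 1 / 4 then (1 : ℝ) else 0) := by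
      rw [hG, ← Finset.sum_product' (s := range n) (t := range n) (f := fun s s' => (if irm m μ (κ - 2 * s - s') ≤ 1 / 4 ∧ irm m ν (κ - s - 2 * s') ≤ 1 / 4 then (1 : ℝ) else 0)), Finset.sum_boole]
    have h3 : ∑ s ∈ range n, ∑ s' ∈ range n, ((1 : ℝ) - (if irm m μ (κ - 2 * s - s') ≤ 1 / 4 then (0 : ℝ) else 1) -
        (if irm m ν (κ - s - 2 * s') ≤ 1 / 4 then (0 : ℝ) else 1)) ≤ G.card := by
      rw [e]
      apply Finset.sum_le_sum; intro s _
      apply Finset.sum_le_sum; intro s' _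
      by_cases c1 : irm m μ (κ - 2 * s - s') ≤ 1 / 4
      · by_cases c2 : irm m ν (κ - s - 2 * s') ≤ 1 / 4
        · rw [if_pos c1, if_pos c2, if_pos ⟨c1, c2⟩]; norm_num
        · have c3 : ¬(irm m μ (κ - 2 * s - s') ≤ 1 / 4 ∧ irm m ν (κ - s - 2 * s') ≤ 1 / 4) := fun h => c2 h.2
          rw [if_pos c1, if_neg c2, if_neg c3]; norm_num
      · have c3 : ¬(irm m μ (κ - 2 * s - s') ≤ 1 / 4 ∧ irm m ν (κ - s - 2 * s') ≤ 1 / 4) := fun h => c1 h.1
        rw [if_neg c1, if_neg c3]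
        split_ifs <;> norm_num
    simp_rw [Finset.sum_sub_distrib] at h3
    have e2 : ∑ s ∈ range n, ∑ s' ∈ range n, (1 : ℝ) = (n : ℝ) ^ 2 := by
      simp only [Finset.sum_const, card_range, nsmul_eq_mul, mul_one]; ring
    rw [e2] at h3
    have h4 : 38400 * (n : ℝ) * D ≤ n ^ 2 / 2 := by
      have : (n : ℝ) * (76800 * D) ≤ n * n := mul_le_mul_of_nonneg_left hDn hn0
      nlinarith
    linarith
  -- indicator functions
  set V : ℕ × ℕ → ℕ → ℕ → ℝ := fun z x y =>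
    (if (x / 2 ^ (m - (κ - 2 * z.1 - z.2)), y / 2 ^ (m - (κ - z.1 - 2 * z.2))) ∈ regF m μ ν (κ - 2 * z.1 - z.2) (κ - z.1 - 2 * z.2) (F z.1 z.2) then 1 else 0) with hV
  set q : ℕ × ℕ → ℝ := fun z => qs m μ ν (κ - 2 * z.1 - z.2) (κ - z.1 - 2 * z.2) (F z.1 z.2) with hq
  have hqe : ∀ z, q z = ∑ x ∈ range (2 ^ m), ∑ y ∈ range (2 ^ m), μ x * ν y * V z x y := fun z => rfl
  have hq0 : ∀ z, 0 ≤ q z := by
    intro z
    rw [hqe]
    apply Finset.sum_nonneg; intro x _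
    apply Finset.sum_nonneg; intro y _
    have a1 := h0 x; have a2 := n0 y
    rw [hV]; dsimp only
    split_ifs
    · positivity
    · simp
  have hqp : ∀ z ∈ G, p / 4 ≤ q z := by
    intro z hz
    rw [hG, Finset.mem_filter, Finset.mem_product, Finset.mem_range, Finset.mem_range] at hz
    exact qs_ge h0 h1 n0 n1 hD hE hE' (F z.1 z.2) hz.2.1 hz.2.2 (hmix z.1 z.2 hz.1.1 hz.1.2)
  have hE1 : (n : ℝ) ^ 2 / 2 * (p / 4) ≤ ∑ z ∈ G, q z := by
    calc (n : ℝ) ^ 2 / 2 * (p / 4) ≤ G.card * (p / 4) := mul_le_mul_of_nonneg_right hGc (by linarith)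
      _ = ∑ z ∈ G, p / 4 := by rw [Finset.sum_const, nsmul_eq_mul]
      _ ≤ _ := Finset.sum_le_sum hqp
  have hpair : ∀ z ∈ G, ∀ z' ∈ G, ∑ x ∈ range (2 ^ m), ∑ y ∈ range (2 ^ m), μ x * ν y * (V z x y * V z' x y) ≤
      Jc * ((93 / 100) ^ (dn z.1 z'.1) * (93 / 100) ^ (dn z.2 z'.2)) * (q z + q z') := by
    intro z hz z' hz'
    rw [hG, Finset.mem_filter, Finset.mem_product, Finset.mem_range, Finset.mem_range] at hz hz'
    obtain ⟨⟨z1, z2⟩, _⟩ := hz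
    obtain ⟨⟨z1', z2'⟩, _⟩ := hz'
    have h5 := qs_pair (m := m) h0 n0 (k1 := κ - 2 * z.1 - z.2) (l1 := κ - z.1 - 2 * z.2) (k2 := κ - 2 * z'.1 - z'.2) (l2 := κ - z'.1 - 2 * z'.2)
      (n := 3 * n) (by omega) (by omega) (by omega) (by omega) (F z.1 z.2) (F z'.1 z'.2) (Jc := Jc) (by linarith)
      (fun r t R1 R2 hr ht => hT z.1 z.2 z1 z2 r t R1 R2 hr ht) (fun r t R1 R2 hr ht => hT z'.1 z'.2 z1' z2' r t R1 R2 hr ht)
      (by unfold dn; omega) (by unfold dn; omega) (d := dn z.1 z'.1 + dn z.2 z'.2) (by unfold dn; omega)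
    rw [← pow_add]
    exact h5
  have hE2 : ∑ z ∈ G, ∑ z' ∈ G, ∑ x ∈ range (2 ^ m), ∑ y ∈ range (2 ^ m), μ x * ν y * (V z x y * V z' x y) ≤ 1800 * Jc * ∑ z ∈ G, q z := by
    have h6 : ∀ z ∈ G, ∑ z' ∈ G, ((93 / 100 : ℝ) ^ (dn z.1 z'.1) * (93 / 100) ^ (dn z.2 z'.2)) ≤ 900 := by
      intro z _
      have h7 : ∑ z' ∈ G, ((93 / 100 : ℝ) ^ (dn z.1 z'.1) * (93 / 100) ^ (dn z.2 z'.2)) ≤
          ∑ z' ∈ (range n) ×ˢ (range n), ((93 / 100 : ℝ) ^ (dn z.1 z'.1) * (93 / 100) ^ (dn z.2 z'.2)) := by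
        apply Finset.sum_le_sum_of_subset_of_nonneg (Finset.filter_subset _ _)
        intro _ _ _; positivity
      refine h7.trans ?_
      rw [Finset.sum_product]
      have e7 : ∑ x ∈ range n, ∑ y ∈ range n, ((93 / 100 : ℝ) ^ (dn z.1 x) * (93 / 100) ^ (dn z.2 y)) =
          (∑ x ∈ range n, (93 / 100 : ℝ) ^ (dn z.1 x)) * ∑ y ∈ range n, (93 / 100 : ℝ) ^ (dn z.2 y) := by
        rw [Finset.sum_mul_sum]
      calc _ = (∑ x ∈ range n, (93 / 100 : ℝ) ^ (dn z.1 x)) * ∑ y ∈ range n, (93 / 100 : ℝ) ^ (dn z.2 y) := e7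
        _ ≤ (30 : ℝ) * 30 := mul_le_mul (sum_dn n z.1) (sum_dn n z.2) (Finset.sum_nonneg (fun _ _ => by positivity)) (by norm_num)
        _ = 900 := by norm_num
    have hdc : ∀ a b, dn a b = dn b a := by intro a b; unfold dn; omega
    calc ∑ z ∈ G, ∑ z' ∈ G, ∑ x ∈ range (2 ^ m), ∑ y ∈ range (2 ^ m), μ x * ν y * (V z x y * V z' x y)
        ≤ ∑ z ∈ G, ∑ z' ∈ G, (Jc * ((93 / 100) ^ (dn z.1 z'.1) * (93 / 100) ^ (dn z.2 z'.2)) * (q z + q z')) :=
          Finset.sum_le_sum (fun z hz => Finset.sum_le_sum (fun z' hz' => hpair z hz z' hz'))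
      _ = ∑ z ∈ G, ∑ z' ∈ G, (Jc * q z * ((93 / 100) ^ (dn z.1 z'.1) * (93 / 100) ^ (dn z.2 z'.2))) +
          ∑ z ∈ G, ∑ z' ∈ G, (Jc * q z' * ((93 / 100) ^ (dn z'.1 z.1) * (93 / 100) ^ (dn z'.2 z.2))) := by
          rw [← Finset.sum_add_distrib]
          apply Finset.sum_congr rfl; intro z _
          rw [← Finset.sum_add_distrib]
          apply Finset.sum_congr rfl; intro z' _
          rw [hdc z'.1 z.1, hdc z'.2 z.2]; ring
      _ = ∑ z ∈ G, ∑ z' ∈ G, (Jc * q z * ((93 / 100) ^ (dn z.1 z'.1) * (93 / 100) ^ (dn z.2 z'.2))) +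
          ∑ z' ∈ G, ∑ z ∈ G, (Jc * q z' * ((93 / 100) ^ (dn z'.1 z.1) * (93 / 100) ^ (dn z'.2 z.2))) := by
          congr 1
          exact Finset.sum_comm
      _ ≤ ∑ z ∈ G, (Jc * q z * 900) + ∑ z ∈ G, (Jc * q z * 900) := by
          apply add_le_add
          · apply Finset.sum_le_sum; intro z hz
            rw [← Finset.mul_sum]
            exact mul_le_mul_of_nonneg_left (h6 z hz) (mul_nonneg (by linarith) (hq0 z))
          · apply Finset.sum_le_sum; intro z hz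
            rw [← Finset.mul_sum]
            exact mul_le_mul_of_nonneg_left (h6 z hz) (mul_nonneg (by linarith) (hq0 z))
      _ = _ := by rw [← Finset.sum_mul, ← Finset.mul_sum]; ring
  -- conclusion
  set lam : ℝ := 1800 * Jc with hlam
  have hlam0 : 0 < lam := by rw [hlam]; linarith
  set U : ℕ → ℕ → ℝ := fun x y =>
    (if ∃ s s', s < n ∧ s' < n ∧ (x / 2 ^ (m - (κ - 2 * s - s')), y / 2 ^ (m - (κ - s - 2 * s'))) ∈ F s s' then 1 else 0) with hU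
  have hpt : ∀ x y, ∑ z ∈ G, V z x y ≤ lam / 2 * U x y + (∑ z ∈ G, V z x y) * (∑ z' ∈ G, V z' x y) / (2 * lam) := by
    intro x y
    set S := ∑ z ∈ G, V z x y with hS
    have hUv : U x y = 1 ∨ U x y = 0 := by rw [hU]; dsimp only; split_ifs <;> simp
    rcases hUv with h | h
    · rw [h]
      have : 0 ≤ (S - lam) ^ 2 / (2 * lam) := by positivity
      have e : (S - lam) ^ 2 / (2 * lam) = S * S / (2 * lam) - S + lam / 2 := by field_simp; ring
      linarith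
    · have hS0 : S = 0 := by
        rw [hS]
        apply Finset.sum_eq_zero; intro z hz
        rw [hV]; dsimp only
        rw [if_neg]
        intro hmem
        have hne : ¬ ∃ s s', s < n ∧ s' < n ∧ (x / 2 ^ (m - (κ - 2 * s - s')), y / 2 ^ (m - (κ - s - 2 * s'))) ∈ F s s' := by
          intro hex
          rw [hU] at h; dsimp only at h
          rw [if_pos hex] at h
          norm_num at h
        apply hne
        rw [hG, Finset.mem_filter, Finset.mem_product, Finset.mem_range, Finset.mem_range] at hz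
        exact ⟨z.1, z.2, hz.1.1, hz.1.2, (Finset.mem_filter.mp hmem).1⟩
      rw [hS0, h]; simp
  have hs1 : ∑ z ∈ G, q z = ∑ x ∈ range (2 ^ m), ∑ y ∈ range (2 ^ m), μ x * ν y * ∑ z ∈ G, V z x y := by
    simp_rw [hqe, Finset.mul_sum]
    rw [Finset.sum_comm]
    apply Finset.sum_congr rfl; intro x _
    rw [Finset.sum_comm]
  have hs2 : ∑ z ∈ G, ∑ z' ∈ G, ∑ x ∈ range (2 ^ m), ∑ y ∈ range (2 ^ m), μ x * ν y * (V z x y * V z' x y) =
      ∑ x ∈ range (2 ^ m), ∑ y ∈ range (2 ^ m), μ x * ν y * ((∑ z ∈ G, V z x y) * (∑ z' ∈ G, V z' x y)) := by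
    rw [sum4]
    apply Finset.sum_congr rfl; intro x _
    apply Finset.sum_congr rfl; intro y _
    rw [Finset.sum_mul_sum, Finset.mul_sum]
    apply Finset.sum_congr rfl; intro z _
    rw [Finset.mul_sum]
  have hfin : ∑ z ∈ G, q z ≤ lam / 2 * (∑ x ∈ range (2 ^ m), ∑ y ∈ range (2 ^ m), μ x * ν y * U x y) + (lam * ∑ z ∈ G, q z) / (2 * lam) := by
    rw [hs2] at hE2
    calc ∑ z ∈ G, q z = ∑ x ∈ range (2 ^ m), ∑ y ∈ range (2 ^ m), μ x * ν y * ∑ z ∈ G, V z x y := hs1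
      _ ≤ ∑ x ∈ range (2 ^ m), ∑ y ∈ range (2 ^ m), μ x * ν y * (lam / 2 * U x y + (∑ z ∈ G, V z x y) * (∑ z' ∈ G, V z' x y) / (2 * lam)) := by
          apply Finset.sum_le_sum; intro x _
          apply Finset.sum_le_sum; intro y _
          exact mul_le_mul_of_nonneg_left (hpt x y) (mul_nonneg (h0 x) (n0 y))
      _ = lam / 2 * (∑ x ∈ range (2 ^ m), ∑ y ∈ range (2 ^ m), μ x * ν y * U x y) +
          (∑ x ∈ range (2 ^ m), ∑ y ∈ range (2 ^ m), μ x * ν y * ((∑ z ∈ G, V z x y) * (∑ z' ∈ G, V z' x y))) / (2 * lam) := by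
          rw [Finset.mul_sum, Finset.sum_div, ← Finset.sum_add_distrib]
          apply Finset.sum_congr rfl; intro x _
          rw [Finset.mul_sum, Finset.sum_div, ← Finset.sum_add_distrib]
          apply Finset.sum_congr rfl; intro y _
          ring
      _ ≤ _ := by
          apply add_le_add le_rfl
          exact div_le_div_of_nonneg_right hE2 (by linarith)
  have e3 : (lam * ∑ z ∈ G, q z) / (2 * lam) = (∑ z ∈ G, q z) / 2 := by field_simp
  rw [e3] at hfin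
  have hfin2 : ∑ z ∈ G, q z ≤ lam * (∑ x ∈ range (2 ^ m), ∑ y ∈ range (2 ^ m), μ x * ν y * U x y) := by linarith
  rw [div_le_iff₀ (by linarith)]
  have h9 : (n : ℝ) ^ 2 / 2 * (p / 4) ≤ lam * (∑ x ∈ range (2 ^ m), ∑ y ∈ range (2 ^ m), μ x * ν y * U x y) := hE1.trans hfin2
  have hP0 : 0 ≤ ∑ x ∈ range (2 ^ m), ∑ y ∈ range (2 ^ m), μ x * ν y * U x y := by
    apply Finset.sum_nonneg; intro x _
    apply Finset.sum_nonneg; intro y _
    have a1 := h0 x; have a2 := n0 y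
    rw [hU]; dsimp only
    split_ifs
    · positivity
    · simp
  have h10 : 0 ≤ Jc * (∑ x ∈ range (2 ^ m), ∑ y ∈ range (2 ^ m), μ x * ν y * U x y) := mul_nonneg (by linarith) hP0
  rw [hlam] at h9
  linarith

end

end Run7.h297
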