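import Pool.Agent.Run7.h297.CoreB
import Pool.Agent.Run7.h297.NodeC
import Pool.Agent.Run7.h297.SecB
import Pool.Agent.Run7.h297.Tot

set_option autoImplicit false

/-! The sharp node inequality for the two leading coordinates: proof. -/

noncomputable section

namespace Run7.h297

open Real Finset MeasureTheory

/-- center of the target at a shape -/
def gam (a b f s s' c3 c4 : ℕ) : TT × TT :=
  ((((((c3 / 2 ^ s : ℕ) : ℝ) / 2 ^ (a + mf f - s)) : ℝ) : TT), (((((c4 / 2 ^ s' : ℕ) : ℝ) / 2 ^ (b - s')) : ℝ) : TT))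

/-- the tame cells of a node -/
def Fn (a b f c1 c2 c3 c4 s s' : ℕ) : Finset (ℕ × ℕ) :=
  Fs (shp a b f s s') f (2 * a + b + mf f) (a + 2 * b) (mf f) c1 c2 (kf f - 2 * s - s') (kf f - s - 2 * s') (gam a b f s s' c3 c4)

section

variable {Ω : Type*} [Fintype Ω] (S : Sys Ω)

theorem Sys.no_cell {q0 Q1 a b f : ℕ} (he : ExC a b f) (hbad : S.Bad q0 Q1 (1 / 2 ^ (4096 * f))) (hq0 : q0 ≤ 2 ^ (a + b))
    (hQ1 : 3 * 2 ^ (a + b + mf f) ≤ Q1) {c1 c2 c3 c4 s s' x y : ℕ} (hs : s < 64 * f) (hs' : s' < 64 * f) {ω : Ω} (hω : 0 < S.p ω)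
    (d1 : dig (2 * a + b + mf f + mf f) (S.α ω) = c1 * 2 ^ mf f + x) (d2 : dig (a + 2 * b + mf f) (S.β ω) = c2 * 2 ^ mf f + y)
    (d3 : dig (a + mf f) (S.γ₁ ω) = c3) (d4 : dig b (S.γ₂ ω) = c4)
    (hF : (x / 2 ^ (mf f - (kf f - 2 * s - s')), y / 2 ^ (mf f - (kf f - s - 2 * s'))) ∈ Fn a b f c1 c2 c3 c4 s s') : False := by
  have hf := he.hf
  have ha := he.ha
  have hb := he.hb
  have hk : kf f = 39321600 * f - (4096 * f + 7) := rfl
  have hm : mf f = 39321600 * f := rfl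
  unfold Fn at hF
  obtain ⟨P, ⟨p1, p2⟩, ⟨p3, p4⟩, p5, _⟩ := mem_Fs (by omega) (by omega) hF
  dsimp only at p3 p4
  have e1 := dig_anc (k := kf f - 2 * s - s') (by omega) d1
  have e2 := dig_anc (k := kf f - s - 2 * s') (by omega) d2
  have b1 := dig_close (S.hα ω).1 p1 (e1.trans p3.symm)
  have b2 := dig_close (S.hβ ω).1 p2 (e2.trans p4.symm)
  have f1 : dig (a + mf f - s) (S.γ₁ ω) = c3 / 2 ^ s := by
    rw [← d3]
    have e : a + mf f = (a + mf f - s) + s := by omega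
    conv_rhs => rw [e]
    rw [dig_div]
  have f2 : dig (b - s') (S.γ₂ ω) = c4 / 2 ^ s' := by
    rw [← d4]
    have e : b = (b - s') + s' := by omega
    conv_rhs => rw [e]
    rw [dig_div]
  have sg : a + b + kf f - s - s' + (a + mf f - s) = 2 * a + b + mf f + (kf f - 2 * s - s') := by omega
  have sf : a + b + kf f - s - s' + (b - s') = a + 2 * b + (kf f - s - 2 * s') := by omega
  refine S.no_hit (σ := a + b + kf f - s - s') (g := a + mf f - s) (f := b - s') (e := 4096 * f) hbad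
    (hq0.trans (Nat.pow_le_pow_right (by norm_num) (by omega)))
    (le_trans (Nat.mul_le_mul_left _ (Nat.pow_le_pow_right (by norm_num) (by omega))) hQ1)
    (by omega) (x := P) (c1 := c3 / 2 ^ s) (c2 := c4 / 2 ^ s') hω (by rw [sg]; exact b1) (by rw [sf]; exact b2) f1 f2 p5

/-- the hit estimate at a good node -/
theorem node_hit {a b f : ℕ} (he : ExC a b f) {X : ℝ × ℝ} {c1 c2 : ℕ} (hnd : Nd (2 * a + b + mf f) (a + 2 * b) X c1 c2)
    (hG : pt X ∈ GC a b f) (c3 c4 : ℕ) {μ ν : ℕ → ℝ} (m0 : ∀ x, 0 ≤ μ x) (n0 : ∀ x, 0 ≤ ν x)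
    (m1 : ∑ x ∈ range (2 ^ mf f), μ x = 1) (n1 : ∑ x ∈ range (2 ^ mf f), ν x = 1)
    (hE : mf f * Real.log 2 - (f : ℝ) / 1200 ≤ ∑ x ∈ range (2 ^ mf f), negMulLog (μ x))
    (hE' : mf f * Real.log 2 - (f : ℝ) / 1200 ≤ ∑ x ∈ range (2 ^ mf f), negMulLog (ν x))
    (Z : ℕ → ℕ → Prop) [∀ x y, Decidable (Z x y)]
    (hZ : ∀ x y, x < 2 ^ mf f → y < 2 ^ mf f → (∃ s s', s < 64 * f ∧ s' < 64 * f ∧
      (x / 2 ^ (mf f - (kf f - 2 * s - s')), y / 2 ^ (mf f - (kf f - s - 2 * s'))) ∈ Fn a b f c1 c2 c3 c4 s s') → Z x y) :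
    pc f ≤ ∑ x ∈ range (2 ^ mf f), ∑ y ∈ range (2 ^ mf f), if Z x y then μ x * ν y else 0 := by
  classical
  have hf := he.hf
  have hk : kf f = 39321600 * f - (4096 * f + 7) := rfl
  have hm : mf f = 39321600 * f := rfl
  have hf0 : (0 : ℝ) ≤ f := Nat.cast_nonneg f
  have key := second_moment (m := mf f) m0 m1 n0 n1 (D := (f : ℝ) / 1200) (by positivity) hE hE' (n := 64 * f) (κ := kf f)
    (by omega) (by omega) (by push_cast; linarith) (Fn a b f c1 c2 c3 c4) (p := 1 / 2 ^ (4096 * f + 7) / (4 * (1 + 2 ^ 13)))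
    (Jc := Jc) (by unfold Jc; norm_num)
    (by
      intro s s' hs hs' r t R1 R2 hr ht
      unfold Fn
      have hss := he.shp_ok hs hs'
      have hb := he.hb
      apply Fs_sparse hss (by omega) (by omega) _ _ (by omega) (by omega)
      · show a + b + kf f - s - s' + (a + mf f - s) = 2 * a + b + mf f + (kf f - 2 * s - s'); omega
      · show a + b + kf f - s - s' + (b - s') = a + 2 * b + (kf f - s - 2 * s'); omega)
    (by
      intro s s' hs hs' μ' ν' a0 b0 a1 b1 a2 b2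
      have hss := he.shp_ok hs hs'
      have hG' := hG s s' hs hs'
      have h3 := mix_tame hss hnd (T := 2 * Real.exp (16 * ((f : ℝ) / 1200 + 1))) ⟨a0, a1, a2⟩ ⟨b0, b1, b2⟩ hG' (by positivity) (dens_le hf)
        (gam a b f s s' c3 c4)
      rw [hss.V] at h3
      refine h3.trans ?_
      apply Finset.sum_le_sum; intro x hx
      apply Finset.sum_le_sum; intro y hy
      rw [Finset.mem_range] at hx hy
      apply mul_le_mul_of_nonneg_left _ (mul_nonneg (a0 x) (b0 y))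
      by_cases h : Hs (shp a b f s s') f (2 * a + b + mf f) (a + 2 * b) (mf f) c1 c2 (gam a b f s s' c3 c4) x y
      · rw [if_pos h, if_pos (show _ ∈ Fn a b f c1 c2 c3 c4 s s' from Hs_mem hx hy h)]
      · rw [if_neg h]
        split_ifs <;> norm_num)
    (by positivity)
  unfold pc
  refine key.trans ?_
  apply Finset.sum_le_sum; intro x hx
  apply Finset.sum_le_sum; intro y hy
  rw [Finset.mem_range] at hx hy
  have hxy : 0 ≤ μ x * ν y := mul_nonneg (m0 x) (n0 y)
  by_cases h : ∃ s s', s < 64 * f ∧ s' < 64 * f ∧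
      (x / 2 ^ (mf f - (kf f - 2 * s - s')), y / 2 ^ (mf f - (kf f - s - 2 * s'))) ∈ Fn a b f c1 c2 c3 c4 s s'
  · rw [if_pos h, if_pos (hZ x y hx hy h), mul_one]
  · rw [if_neg h, mul_zero]
    split_ifs
    · exact hxy
    · exact le_rfl

open Classical in
theorem Sys.P6c {n : ℕ} {C : ℝ} (hC : 0 ≤ C) (hd : S.Dom n C) {q0 Q1 a b f : ℕ}
    (he : ExC a b f) (hbad : S.Bad q0 Q1 (1 / 2 ^ (4096 * f))) (hq0 : q0 ≤ 2 ^ (a + b)) (hQ1 : 3 * 2 ^ (a + b + mf f) ≤ Q1)
    (hn1 : 2 * a + b + mf f ≤ n) (hn2 : a + 2 * b ≤ n) :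
    (S.hh (2 * a + b + mf f + mf f) (a + 2 * b) (a + mf f) b - S.hh (2 * a + b + mf f) (a + 2 * b) (a + mf f) b) +
      (S.hh (2 * a + b + mf f) (a + 2 * b + mf f) (a + mf f) b - S.hh (2 * a + b + mf f) (a + 2 * b) (a + mf f) b) ≤
      (2 * (mf f * Real.log 2) - (f : ℝ) / 1200) + 2 * (mf f * Real.log 2) * (C * (1 / 2 ^ (2 * f))) +
        (2 * (mf f * Real.log 2) / pc f) * IJ S.hh (mf f) (mf f) a b := by
  have hf := he.hf
  have hf0 : (40000 : ℝ) ≤ f := by exact_mod_cast hf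
  have hlg2 : (0.69 : ℝ) < Real.log 2 := by have := Real.log_two_gt_d9; linarith
  set i := 2 * a + b + mf f with hi
  set j := a + 2 * b with hj
  set g := a + mf f with hg
  set m := mf f with hm
  have hmr : (m : ℝ) = 39321600 * f := by rw [hm]; unfold mf; push_cast; ring
  set 𝓖 : Set (TT × TT) := shiftS (GC a b f) ((((-(1 / 2 ^ i) : ℝ)) : TT), (((-(1 / 2 ^ j) : ℝ)) : TT)) with h𝓖
  have hmeas : volume 𝓖ᶜ ≤ ENNReal.ofReal (1 / 2 ^ (2 * f)) := by
    rw [h𝓖, meas_shiftS]; exact meas_GC he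
  set ξ : Ω → ℕ × ℕ × ℕ × ℕ := S.xi i j g b with hξ
  set X : Ω → ℕ := fun ω => dig (i + m) (S.α ω) % 2 ^ m with hX
  set Y : Ω → ℕ := fun ω => dig (j + m) (S.β ω) % 2 ^ m with hY
  have hpos2k : 0 < 2 ^ m := by positivity
  have hXH : H S.p (fun ω => (ξ ω, X ω)) = S.hh (i + m) j g b := by
    apply H_congr
    intro ω ω'
    rw [pair_eq', S.xi_eq, S.xi_eq, dig_mod (a := i) (M := m)]
    tauto
  have hYH : H S.p (fun ω => (ξ ω, Y ω)) = S.hh i (j + m) g b := by
    apply H_congr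
    intro ω ω'
    rw [pair_eq', S.xi_eq, S.xi_eq, dig_mod (a := j) (M := m)]
    tauto
  have hXYH : H S.p (fun ω => (ξ ω, (X ω, Y ω))) = S.hh (i + m) (j + m) g b := by
    apply H_congr
    intro ω ω'
    rw [triple_eq, S.xi_eq, S.xi_eq, dig_mod (a := i) (M := m), dig_mod (a := j) (M := m)]
    tauto
  have hlogN : Real.log ((2 ^ m : ℕ) : ℝ) = m * Real.log 2 := by
    push_cast; rw [Real.log_pow]
  set bb : ℕ × ℕ × ℕ × ℕ → ℝ := fun v => if good 𝓖 i j v.1 v.2.1 then 0 else 1 with hbb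
  have hmass : ∑ v ∈ univ.image ξ, pr S.p ξ v * bb v ≤ C * (1 / 2 ^ (2 * f)) := by
    have h1 := S.bad_mass hC hd 𝓖 (τ := 1 / 2 ^ (2 * f)) (by positivity) hmeas (k := i) (l := j) hn1 hn2
    refine le_trans (le_of_eq ?_) h1
    unfold pr
    simp_rw [Finset.sum_mul]
    rw [Finset.sum_comm]
    apply Finset.sum_congr rfl; intro ω _
    have e1 : ∀ v ∈ univ.image ξ, (if ξ ω = v then S.p ω else 0) * bb v = if ξ ω = v then S.p ω * bb (ξ ω) else 0 := by
      intro v _
      split_ifs with h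
      · rw [h]
      · rw [zero_mul]
    rw [Finset.sum_congr rfl e1, Finset.sum_ite_eq, if_pos (Finset.mem_image_of_mem _ (Finset.mem_univ ω))]
    have e0 : bb (ξ ω) = if good 𝓖 i j (dig i (S.α ω)) (dig j (S.β ω)) then 0 else 1 := rfl
    rw [e0]
    split_ifs
    · rw [mul_zero]
    · rw [mul_one]
  have hbb0 : ∀ v, 0 ≤ bb v := by
    intro v; rw [hbb]; dsimp only
    split_ifs <;> norm_num
  have key := NLtot (p := S.p) S.hp S.hp1 ξ X Y (N := 2 ^ m) Nat.one_le_two_pow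
    (fun ω => Nat.mod_lt _ hpos2k) (fun ω => Nat.mod_lt _ hpos2k)
    (Tt := 2 * (m * Real.log 2) - (f : ℝ) / 1200) (Hm := 2 * (m * Real.log 2)) (p₁ := pc f) (pc_pos (by omega))
    (by rw [hlogN, hmr]; nlinarith) (by positivity) bb hbb0
    (by
      intro v hv μ ν hμe hνe m0 n0 m1 n1
      have t1 := ent_le Nat.one_le_two_pow m0 m1
      have t2 := ent_le Nat.one_le_two_pow n0 n1
      rw [hlogN] at t1 t2
      by_cases hgood : good 𝓖 i j v.1 v.2.1
      · by_cases hsmall : (∑ x ∈ range (2 ^ m), negMulLog (μ x)) + (∑ y ∈ range (2 ^ m), negMulLog (ν y)) ≤ 2 * (m * Real.log 2) - (f : ℝ) / 1200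
        · left
          have := hbb0 v
          have : 0 ≤ 2 * (m * Real.log 2) * bb v := by positivity
          linarith
        · right
          push Not at hsmall
          obtain ⟨x0, ⟨x10, x11⟩, ⟨x20, x21⟩, dg1, dg2, hx0⟩ := hgood
          set X0 : ℝ × ℝ := (x0.1 - 1 / 2 ^ i, x0.2 - 1 / 2 ^ j) with hX0
          have hptX : pt X0 = prj x0 + ((((-(1 / 2 ^ i) : ℝ)) : TT), (((-(1 / 2 ^ j) : ℝ)) : TT)) := by
            unfold pt prj
            rw [hX0]; dsimp only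
            rw [sub_eq_add_neg, sub_eq_add_neg]; rfl
          have hGX : pt X0 ∈ GC a b f := by
            rw [hptX]; exact hx0
          obtain ⟨c1a, c1b⟩ := mem_of_dig x10 dg1
          obtain ⟨c2a, c2b⟩ := mem_of_dig x20 dg2
          have hnd : Nd i j X0 v.1 v.2.1 := by
            refine ⟨?_, ?_, ?_, ?_⟩
            · rw [hX0]; dsimp only
              have : ((v.1 : ℝ) + 1) / 2 ^ i = v.1 / 2 ^ i + 1 / 2 ^ i := by ring
              linarith
            · rw [hX0]; dsimp only; linarith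
            · rw [hX0]; dsimp only
              have : ((v.2.1 : ℝ) + 1) / 2 ^ j = v.2.1 / 2 ^ j + 1 / 2 ^ j := by ring
              linarith
            · rw [hX0]; dsimp only; linarith
          apply node_hit he hnd hGX v.2.2.1 v.2.2.2 m0 n0 m1 n1 (by linarith) (by linarith)
          intro x y hx hy hex
          obtain ⟨s, s', hs, hs', hF⟩ := hex
          by_contra hne
          unfold pr at hne
          obtain ⟨ω, _, hω⟩ := Finset.exists_ne_zero_of_sum_ne_zero hne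
          have hcond : (ξ ω, (X ω, Y ω)) = (v, (x, y)) := by
            by_contra hc; exact hω (if_neg hc)
          rw [if_pos hcond] at hω
          have hpω : 0 < S.p ω := lt_of_le_of_ne (S.hp ω) (Ne.symm hω)
          rw [triple_eq] at hcond
          obtain ⟨hc1, hc2, hc3⟩ := hcond
          have d1 : dig (i + m) (S.α ω) = v.1 * 2 ^ m + x := by
            have e1 : dig i (S.α ω) * 2 ^ m + dig (i + m) (S.α ω) % 2 ^ m = dig (i + m) (S.α ω) := by
              rw [← dig_div (k := i) (m := m)]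
              have := Nat.div_add_mod (dig (i + m) (S.α ω)) (2 ^ m)
              rw [mul_comm] at this; exact this
            rw [← e1]
            have e2 : dig i (S.α ω) = v.1 := by rw [← hc1]; rfl
            have e3 : dig (i + m) (S.α ω) % 2 ^ m = x := hc2
            rw [e2, e3]
          have d2 : dig (j + m) (S.β ω) = v.2.1 * 2 ^ m + y := by
            have e1 : dig j (S.β ω) * 2 ^ m + dig (j + m) (S.β ω) % 2 ^ m = dig (j + m) (S.β ω) := by
              rw [← dig_div (k := j) (m := m)]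
              have := Nat.div_add_mod (dig (j + m) (S.β ω)) (2 ^ m)
              rw [mul_comm] at this; exact this
            rw [← e1]
            have e2 : dig j (S.β ω) = v.2.1 := by rw [← hc1]; rfl
            have e3 : dig (j + m) (S.β ω) % 2 ^ m = y := hc3
            rw [e2, e3]
          have f1 : dig g (S.γ₁ ω) = v.2.2.1 := by rw [← hc1]; rfl
          have f2 : dig b (S.γ₂ ω) = v.2.2.2 := by rw [← hc1]; rfl
          exact S.no_cell he hbad hq0 hQ1 hs hs' hpω d1 d2 f1 f2 hF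
      · left
        have e0 : bb v = 1 := by rw [hbb]; dsimp only; rw [if_neg hgood]
        rw [e0, hmr] at *
        nlinarith)
  rw [hXH, hYH, hXYH] at key
  have hξe : H S.p ξ = S.hh i j g b := rfl
  rw [hξe] at key
  have e5 : IJ S.hh m m a b = S.hh (i + m) j g b + S.hh i (j + m) g b - S.hh i j g b - S.hh (i + m) (j + m) g b := rfl
  rw [e5]
  have hlg : 0 < Real.log 2 := Real.log_pos (by norm_num)
  have h6 : 2 * (m * Real.log 2) * (∑ v ∈ univ.image ξ, pr S.p ξ v * bb v) ≤ 2 * (m * Real.log 2) * (C * (1 / 2 ^ (2 * f))) := by gcongr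
  have e7 : S.hh (i + m) j g b + S.hh i (j + m) g b - S.hh (i + m) (j + m) g b - S.hh i j g b =
      S.hh (i + m) j g b + S.hh i (j + m) g b - S.hh i j g b - S.hh (i + m) (j + m) g b := by ring
  rw [e7] at key
  linarith

/-- the sharp bound of a node in the form used for the bookkeeping -/
theorem Sys.P6C {n : ℕ} {C : ℝ} (hC : 0 ≤ C) (hd : S.Dom n C) {q0 Q1 a b f : ℕ}
    (he : ExC a b f) (hbad : S.Bad q0 Q1 (1 / 2 ^ (4096 * f))) (hq0 : q0 ≤ 2 ^ (a + b)) (hQ1 : 3 * 2 ^ (a + b + mf f) ≤ Q1)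
    (hn1 : 2 * a + b + mf f ≤ n) (hn2 : a + 2 * b ≤ n) :
    S.hh (2 * a + b + 2 * mf f) (a + 2 * b + mf f) (a + mf f) b ≤
      S.hh (2 * a + b) (a + 2 * b) (a + mf f) b + 3 * (mf f : ℝ) * Real.log 2 -
        ((f : ℝ) / 1200 - 2 * (mf f * Real.log 2) * (C * (1 / 2 ^ (2 * f)))) +
        (2 * (mf f * Real.log 2) / pc f) * IJ S.hh (mf f) (mf f) a b := by
  have h1 := S.P6c hC hd he hbad hq0 hQ1 hn1 hn2
  have h2 := IJ_nonneg S.sub4 (mf f) (mf f) a b
  have h4 := S.incr (2 * a + b) (a + 2 * b) (a + mf f) b (2 * a + b + mf f)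
    (a + 2 * b) (a + mf f) b (by omega) (by omega) le_rfl le_rfl
  have e4 : (2 * a + b + mf f - (2 * a + b)) + (a + 2 * b - (a + 2 * b)) + (a + mf f - (a + mf f)) + (b - b) = mf f := by omega
  rw [e4] at h4
  have e5 : IJ S.hh (mf f) (mf f) a b = S.hh (2 * a + b + mf f + mf f) (a + 2 * b) (a + mf f) b + S.hh (2 * a + b + mf f) (a + 2 * b + mf f) (a + mf f) b -
          S.hh (2 * a + b + mf f) (a + 2 * b) (a + mf f) b -
          S.hh (2 * a + b + mf f + mf f) (a + 2 * b + mf f) (a + mf f) b := rfl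
  have e6 : S.hh (2 * a + b + mf f + mf f) (a + 2 * b + mf f) (a + mf f) b =
      S.hh (2 * a + b + mf f + mf f) (a + 2 * b) (a + mf f) b + S.hh (2 * a + b + mf f) (a + 2 * b + mf f) (a + mf f) b -
          S.hh (2 * a + b + mf f) (a + 2 * b) (a + mf f) b - IJ S.hh (mf f) (mf f) a b := by rw [e5]; ring
  have e7 : 2 * a + b + 2 * mf f = 2 * a + b + mf f + mf f := by ring
  rw [e7, e6]
  linarith

end

end Run7.h297
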