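import Pool.Agent.Run7.h297.Quad

set_option autoImplicit false

/-! Measure of the points at which several modes are simultaneously small. -/

noncomputable section

namespace Run7.h297

open Real Finset MeasureTheory

theorem norm_ch_sub_one_le (θ : TT) : ‖ch θ - 1‖ ≤ 7 * ‖θ‖ := by
  obtain ⟨x, rfl, h1, h2⟩ := exists_rep θ
  rw [← h1, ch_coe]
  have h3 : ‖Complex.exp (2 * π * x * Complex.I) - 1‖ = 2 * |Real.sin (π * x)| := by
    have := Complex.norm_exp_I_mul_ofReal_sub_one (2 * π * x)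
    have e : Complex.exp (2 * π * x * Complex.I) = Complex.exp (Complex.I * ((2 * π * x : ℝ) : ℂ)) := by
      congr 1; push_cast; ring
    rw [e, this, Real.norm_eq_abs, abs_mul]
    rw [show (2 * π * x) / 2 = π * x by ring]
    norm_num
  rw [h3]
  have h4 : |Real.sin (π * x)| ≤ |π * x| := Real.abs_sin_le_abs
  rw [abs_mul, abs_of_pos Real.pi_pos] at h4
  have h5 : π ≤ 3.5 := by linarith [Real.pi_lt_d2]
  nlinarith [abs_nonneg x]

theorem norm_nsmul_le_tt (j : ℕ) (θ : TT) : ‖j • θ‖ ≤ j * ‖θ‖ := by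
  obtain ⟨x, rfl, h1, h2⟩ := exists_rep θ
  have e : j • (x : TT) = ((j * x : ℝ) : TT) := by
    rw [← nsmul_eq_mul]; rfl
  rw [e, ← h1]
  refine (norm_coe_le_abs _).trans ?_
  rw [abs_mul, Nat.abs_cast]

theorem FQ_lower {K : ℕ} (hK : 0 < K) {θ : TT} (hθ : ‖θ‖ ≤ 1 / (16 * K)) : (K : ℝ) / 4 ≤ FQ K θ := by
  have hK' : (0 : ℝ) < K := by exact_mod_cast hK
  have h1 : (K : ℝ) * (9 / 16) ≤ ‖∑ j ∈ range K, ch (j • θ)‖ := by
    have e : (K : ℂ) = ∑ j ∈ range K, ch (j • θ) - ∑ j ∈ range K, (ch (j • θ) - 1) := by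
      rw [Finset.sum_sub_distrib]; simp
    have a : (K : ℝ) ≤ ‖∑ j ∈ range K, ch (j • θ)‖ + ‖∑ j ∈ range K, (ch (j • θ) - 1)‖ := by
      have : (K : ℝ) = ‖(K : ℂ)‖ := by rw [Complex.norm_natCast]
      rw [this, e]
      exact norm_sub_le _ _
    have b : ‖∑ j ∈ range K, (ch (j • θ) - 1)‖ ≤ K * (7 / 16) := by
      calc _ ≤ ∑ j ∈ range K, ‖ch (j • θ) - 1‖ := norm_sum_le _ _
        _ ≤ ∑ j ∈ range K, (7 / 16 : ℝ) := by
          apply Finset.sum_le_sum; intro j hj
          rw [Finset.mem_range] at hj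
          refine (norm_ch_sub_one_le _).trans ?_
          have c := norm_nsmul_le_tt j θ
          have d : (j : ℝ) * ‖θ‖ ≤ K * (1 / (16 * K)) := by
            have : (j : ℝ) ≤ K := by exact_mod_cast hj.le
            gcongr
          have f : (K : ℝ) * (1 / (16 * K)) = 1 / 16 := by field_simp
          rw [f] at d
          linarith
        _ = _ := by rw [Finset.sum_const, card_range, nsmul_eq_mul]
    linarith
  unfold FQ
  rw [div_le_div_iff₀ (by norm_num) hK']
  have h2 : ((K : ℝ) * (9 / 16)) ^ 2 ≤ ‖∑ j ∈ range K, ch (j • θ)‖ ^ 2 := by gcongr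
  nlinarith

theorem dm_add_left (m m' : ℤ × ℤ) (x : TT × TT) : dm (m + m') x = dm m x + dm m' x := by
  unfold dm
  simp only [Prod.fst_add, Prod.snd_add, add_smul]
  abel

theorem dm_smul_left (n : ℤ) (m : ℤ × ℤ) (x : TT × TT) : dm (n • m) x = n • dm m x := by
  unfold dm
  simp only [Prod.smul_fst, Prod.smul_snd, smul_add, smul_eq_mul, mul_smul]

theorem integral_ch_dm (v : ℤ × ℤ) : ∫ x : TT × TT, ch (dm v x) = if v = 0 then 1 else 0 := by
  by_cases hv : v = 0
  · rw [if_pos hv, hv]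
    simp only [dm_zero, ch_zero]
    simp
  · rw [if_neg hv]
    have h := measurePreserving_dm hv
    have h1 : ∫ x : TT × TT, ch (dm v x) = ∫ θ, ch θ ∂(Measure.map (dm v) volume) := by
      rw [integral_map h.measurable.aemeasurable continuous_ch.aestronglyMeasurable]
    rw [h1, h.map_eq]
    have h2 := integral_ch 1
    simp only [one_smul, one_ne_zero, if_false] at h2
    exact h2

theorem integrable_ch_dm (v : ℤ × ℤ) : Integrable (fun x : TT × TT => ch (dm v x)) := by
  apply Continuous.integrable_of_hasCompactSupport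
  · exact continuous_ch.comp (continuous_dm v)
  · exact HasCompactSupport.of_compactSpace _

/-- no relations with small coefficients -/
def NoRel (K1 K2 K3 : ℕ) (a b c : ℤ × ℤ) : Prop :=
  ∀ n1 n2 n3 : ℤ, |n1| < K1 → |n2| < K2 → |n3| < K3 → n1 • a + n2 • b + n3 • c = 0 → n1 = 0 ∧ n2 = 0 ∧ n3 = 0

theorem abs_df_lt {K : ℕ} {p : ℕ × ℕ} (hp : p ∈ PP K) : |df p| < K := by
  unfold PP at hp
  rw [Finset.mem_product, Finset.mem_range, Finset.mem_range] at hp
  unfold df
  rw [abs_lt]; constructor <;> omega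

theorem card_df_zero (K : ℕ) : ∑ p ∈ PP K, (if df p = 0 then (1 : ℂ) else 0) = K := by
  unfold PP df
  rw [Finset.sum_product]
  have : ∀ j ∈ range K, ∑ j' ∈ range K, (if ((j : ℤ) - (j' : ℤ)) = 0 then (1 : ℂ) else 0) = 1 := by
    intro j hj
    rw [Finset.sum_eq_single j]
    · simp
    · intro b _ hb
      rw [if_neg]; omega
    · intro h; exact absurd hj h
  rw [Finset.sum_congr rfl this]; simp

theorem int3 {K1 K2 K3 : ℕ} {a b c : ℤ × ℤ} (h : NoRel K1 K2 K3 a b c) :
    ∫ x : TT × TT, ((K1 * FQ K1 (dm a x)) * (K2 * FQ K2 (dm b x)) * (K3 * FQ K3 (dm c x)) : ℝ) = K1 * K2 * K3 := by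
  have h1 : ∫ x : TT × TT, (((K1 * FQ K1 (dm a x)) * (K2 * FQ K2 (dm b x)) * (K3 * FQ K3 (dm c x)) : ℝ) : ℂ) =
      (K1 : ℂ) * K2 * K3 := by
    have e : ∀ x : TT × TT, (((K1 * FQ K1 (dm a x)) * (K2 * FQ K2 (dm b x)) * (K3 * FQ K3 (dm c x)) : ℝ) : ℂ) =
        ∑ p ∈ PP K1, ∑ q ∈ PP K2, ∑ r ∈ PP K3, ch (dm (df p • a + df q • b + df r • c) x) := by
      intro x
      rw [Complex.ofReal_mul, Complex.ofReal_mul, ← FQ_expand', ← FQ_expand', ← FQ_expand', Finset.sum_mul_sum,
        Finset.sum_mul]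
      apply Finset.sum_congr rfl; intro p _
      rw [Finset.sum_mul]
      apply Finset.sum_congr rfl; intro q _
      rw [Finset.mul_sum]
      apply Finset.sum_congr rfl; intro r _
      rw [dm_add_left, dm_add_left, dm_smul_left, dm_smul_left, dm_smul_left, ch_add, ch_add]
    simp_rw [e]
    rw [integral_finsetSum]
    · have e2 : ∀ p ∈ PP K1, ∫ x : TT × TT, ∑ q ∈ PP K2, ∑ r ∈ PP K3, ch (dm (df p • a + df q • b + df r • c) x) =
          ∑ q ∈ PP K2, ∑ r ∈ PP K3, (if df p = 0 then (1 : ℂ) else 0) * ((if df q = 0 then (1 : ℂ) else 0) * (if df r = 0 then (1 : ℂ) else 0)) := by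
        intro p hp
        rw [integral_finsetSum]
        · apply Finset.sum_congr rfl; intro q hq
          rw [integral_finsetSum]
          · apply Finset.sum_congr rfl; intro r hr
            rw [integral_ch_dm]
            by_cases hz : df p • a + df q • b + df r • c = 0
            · obtain ⟨z1, z2, z3⟩ := h _ _ _ (abs_df_lt hp) (abs_df_lt hq) (abs_df_lt hr) hz
              rw [if_pos hz, if_pos z1, if_pos z2, if_pos z3]; ring
            · rw [if_neg hz]
              by_cases z1 : df p = 0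
              · by_cases z2 : df q = 0
                · by_cases z3 : df r = 0
                  · exfalso; apply hz; rw [z1, z2, z3]; simp
                  · rw [if_neg z3]; simp
                · rw [if_neg z2]; simp
              · rw [if_neg z1]; simp
          · intro r _; exact integrable_ch_dm _
        · intro q _
          apply integrable_finsetSum; intro r _; exact integrable_ch_dm _
      rw [Finset.sum_congr rfl e2]
      simp_rw [← Finset.mul_sum, ← Finset.sum_mul]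
      rw [card_df_zero, card_df_zero, card_df_zero]
      ring
    · intro p _
      apply integrable_finsetSum; intro q _
      apply integrable_finsetSum; intro r _; exact integrable_ch_dm _
  rw [integral_complex_ofReal] at h1
  exact_mod_cast h1

theorem meas3 {K1 K2 K3 : ℕ} (k1 : 0 < K1) (k2 : 0 < K2) (k3 : 0 < K3) {a b c : ℤ × ℤ} (h : NoRel K1 K2 K3 a b c)
    {r1 r2 r3 : ℝ} (hr1 : r1 ≤ 1 / (16 * K1)) (hr2 : r2 ≤ 1 / (16 * K2)) (hr3 : r3 ≤ 1 / (16 * K3)) :
    volume {x : TT × TT | ‖dm a x‖ ≤ r1 ∧ ‖dm b x‖ ≤ r2 ∧ ‖dm c x‖ ≤ r3} ≤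
      ENNReal.ofReal (64 / (K1 * K2 * K3)) := by
  have k1' : (0 : ℝ) < K1 := by exact_mod_cast k1
  have k2' : (0 : ℝ) < K2 := by exact_mod_cast k2
  have k3' : (0 : ℝ) < K3 := by exact_mod_cast k3
  set f : TT × TT → ℝ := fun x => (K1 * FQ K1 (dm a x)) * (K2 * FQ K2 (dm b x)) * (K3 * FQ K3 (dm c x)) with hf
  have hfc : Continuous f := by
    rw [hf]
    exact ((continuous_const.mul ((continuous_FQ K1).comp (continuous_dm a))).mul
      (continuous_const.mul ((continuous_FQ K2).comp (continuous_dm b)))).mul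
      (continuous_const.mul ((continuous_FQ K3).comp (continuous_dm c)))
  have hf0 : ∀ x, 0 ≤ f x := by
    intro x
    have := FQ_nonneg K1 (dm a x)
    have := FQ_nonneg K2 (dm b x)
    have := FQ_nonneg K3 (dm c x)
    rw [hf]; positivity
  have hfi : Integrable f := Continuous.integrable_of_hasCompactSupport hfc (HasCompactSupport.of_compactSpace _)
  set T : ℝ := (K1 * (K1 / 4)) * (K2 * (K2 / 4)) * (K3 * (K3 / 4)) with hT
  have hT0 : 0 < T := by positivity
  have hsub : {x : TT × TT | ‖dm a x‖ ≤ r1 ∧ ‖dm b x‖ ≤ r2 ∧ ‖dm c x‖ ≤ r3} ⊆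
      {x | ENNReal.ofReal T ≤ ENNReal.ofReal (f x)} := by
    intro x hx
    simp only [Set.mem_ofPred_eq] at hx ⊢
    apply ENNReal.ofReal_le_ofReal
    have l1 := FQ_lower k1 (hx.1.trans hr1)
    have l2 := FQ_lower k2 (hx.2.1.trans hr2)
    have l3 := FQ_lower k3 (hx.2.2.trans hr3)
    have := FQ_nonneg K1 (dm a x)
    have := FQ_nonneg K2 (dm b x)
    rw [hT, hf]
    dsimp only
    gcongr
  refine (measure_mono hsub).trans ?_
  refine (meas_ge_le_lintegral_div (hfc.measurable.ennreal_ofReal.aemeasurable) (by simpa using hT0) ENNReal.ofReal_ne_top).trans ?_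
  rw [← ofReal_integral_eq_lintegral_ofReal hfi (Filter.Eventually.of_forall hf0), int3 h,
    ← ENNReal.ofReal_div_of_pos hT0]
  apply ENNReal.ofReal_le_ofReal
  apply le_of_eq
  rw [hT]; field_simp; norm_num

/-- linearly independent pairs -/
theorem meas2 {K1 K2 : ℕ} (k1 : 0 < K1) (k2 : 0 < K2) {a b : ℤ × ℤ} (hab : a.1 * b.2 - a.2 * b.1 ≠ 0)
    {r1 r2 : ℝ} (hr1 : r1 ≤ 1 / (16 * K1)) (hr2 : r2 ≤ 1 / (16 * K2)) :
    volume {x : TT × TT | ‖dm a x‖ ≤ r1 ∧ ‖dm b x‖ ≤ r2} ≤ ENNReal.ofReal (64 / (K1 * K2)) := by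
  have h : NoRel K1 K2 1 a b 0 := by
    intro n1 n2 n3 _ _ h3 hrel
    have h3' : n3 = 0 := by
      rw [Nat.cast_one] at h3
      rw [abs_lt] at h3; omega
    rw [h3'] at hrel
    simp only [zero_smul, add_zero] at hrel
    have e1 := congrArg Prod.fst hrel
    have e2 := congrArg Prod.snd hrel
    simp only [Prod.fst_add, Prod.snd_add, Prod.smul_fst, Prod.smul_snd, smul_eq_mul, Prod.fst_zero, Prod.snd_zero] at e1 e2
    have f1 : n1 * (a.1 * b.2 - a.2 * b.1) = 0 := by linear_combination b.2 * e1 - b.1 * e2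
    have f2 : n2 * (a.1 * b.2 - a.2 * b.1) = 0 := by linear_combination a.1 * e2 - a.2 * e1
    exact ⟨(mul_eq_zero.mp f1).resolve_right hab, (mul_eq_zero.mp f2).resolve_right hab, h3'⟩
  have := meas3 k1 k2 one_pos h (r1 := r1) (r2 := r2) (r3 := 0) hr1 hr2 (by norm_num)
  rw [Nat.cast_one, mul_one] at this
  refine le_trans (le_of_eq ?_) this
  congr 1
  ext x
  simp [dm_zero]

open Classical in
theorem markov_card {ι : Type*} (W : Finset ι) (A : ι → Set (TT × TT)) (hA : ∀ i, MeasurableSet (A i)) (v : ι → ℝ)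
    (hv0 : ∀ i ∈ W, 0 ≤ v i) (hv : ∀ i ∈ W, volume (A i) ≤ ENNReal.ofReal (v i)) {t : ℝ} (ht : 0 < t) :
    volume {x : TT × TT | t ≤ ((W.filter (fun i => x ∈ A i)).card : ℝ)} ≤ ENNReal.ofReal ((∑ i ∈ W, v i) / t) := by
  have hsub : {x : TT × TT | t ≤ ((W.filter (fun i => x ∈ A i)).card : ℝ)} ⊆
      {x | ENNReal.ofReal t ≤ ∑ i ∈ W, (A i).indicator (fun _ => (1 : ENNReal)) x} := by
    intro x hx
    simp only [Set.mem_ofPred_eq] at hx ⊢
    have e : ∑ i ∈ W, (A i).indicator (fun _ => (1 : ENNReal)) x = ((W.filter (fun i => x ∈ A i)).card : ENNReal) := by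
      rw [Finset.card_filter]
      push_cast
      apply Finset.sum_congr rfl; intro i _
      rw [Set.indicator_apply]
    rw [e, ← ENNReal.ofReal_natCast]
    exact ENNReal.ofReal_le_ofReal hx
  refine (measure_mono hsub).trans ?_
  have hm : ∀ i ∈ W, Measurable ((A i).indicator (fun _ => (1 : ENNReal))) :=
    fun i _ => measurable_const.indicator (hA i)
  refine (meas_ge_le_lintegral_div (Finset.measurable_sum W hm).aemeasurable (by simpa using ht) ENNReal.ofReal_ne_top).trans ?_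
  rw [ENNReal.ofReal_div_of_pos ht]
  apply ENNReal.div_le_div_right
  rw [lintegral_finsetSum _ hm, ENNReal.ofReal_sum_of_nonneg hv0]
  apply Finset.sum_le_sum; intro i hi
  rw [lintegral_indicator_const (hA i), one_mul]
  exact hv i hi

end Run7.h297
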