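import Pool.Agent.Run7.h297.PropB

set_option autoImplicit false

/-! Many shapes for the third coordinate. -/

noncomputable section

namespace Run7.h297

open Real Finset MeasureTheory

theorem propB7 {p : Par} (hp : p.Ok) {T : Finset ℕ} {xa xb : ℕ → ℝ} {c : ℝ} (hP : Pts p T xa xb c)
    (s : ℤ) (G : ℝ) (g₂ : TT) (μ ν : ℕ → ℝ) (hμ0 : ∀ i, 0 ≤ μ i) (hμ1 : ∑ i ∈ range p.N, μ i = 1)
    (hν0 : ∀ y, 0 ≤ ν y) (hν1 : ∑ y ∈ T, ν y = 1) {l₁ l₂ : ℝ} (hl₁ : ∀ i ∈ range p.N, μ i ≤ l₁)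
    (hl₂ : ∀ y ∈ T, ν y ≤ l₂) (hl₂0 : 0 ≤ l₂)
    (hsmall : 5600 * p.K * (p.D + 2) * (p.Kc + 1) * (4 * p.A / p.N + 3) * (l₁ * l₂ * p.N) ≤ p.V) :
    p.V / 2 ≤ ∑ y ∈ T, ν y * ∑ i ∈ range p.N, μ i *
      SS p.Q p.δ₁ p.δ₂ s (((xa y : ℝ) : TT), ((xb y : ℝ) : TT)) ((((G + i) / (p.N * p.ℓ) : ℝ) : TT), g₂) := by
  classical
  have hN : (0 : ℝ) < p.N := by exact_mod_cast hp.hN
  have hℓ : (0 : ℝ) < p.ℓ := by exact_mod_cast hp.hℓ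
  have hV := hp.V_pos
  have hK := hp.hK
  set X : ℕ → TT × TT := fun y => (((xa y : ℝ) : TT), ((xb y : ℝ) : TT)) with hX
  set g₁ : ℕ → TT := fun i => (((G + i) / (p.N * p.ℓ) : ℝ) : TT) with hg₁
  set f : ℤ → ℝ := fun n => ‖∑ i ∈ range p.N, (μ i : ℂ) * ch (i • (((n : ℝ) / (p.N * p.ℓ) : ℝ) : TT))‖ ^ 2 with hf
  have hf0 : ∀ n, 0 ≤ f n := fun n => by rw [hf]; positivity
  have hhat : ∀ n : ℤ, ‖∑ i ∈ range p.N, (μ i : ℂ) * ch (-(n • g₁ i))‖ ^ 2 = f n := by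
    intro n
    have e : ∀ i ∈ range p.N, (μ i : ℂ) * ch (-(n • g₁ i)) =
        (μ i : ℂ) * ch (-((((n * G / (p.N * p.ℓ)) : ℝ) : TT) + i • (((n : ℝ) / (p.N * p.ℓ) : ℝ) : TT))) := by
      intro i _
      congr 3
      rw [hg₁]; dsimp only
      have e1 : n • (((G + i) / (p.N * p.ℓ) : ℝ) : TT) = ((n * ((G + i) / (p.N * p.ℓ)) : ℝ) : TT) := by
        rw [← zsmul_eq_mul]; rfl
      have e2 : i • (((n : ℝ) / (p.N * p.ℓ) : ℝ) : TT) = ((i * ((n : ℝ) / (p.N * p.ℓ)) : ℝ) : TT) := by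
        rw [← nsmul_eq_mul i]; rfl
      rw [e1, e2]
      have e3 : (((n * G / (p.N * p.ℓ)) : ℝ) : TT) + ((i * ((n : ℝ) / (p.N * p.ℓ)) : ℝ) : TT) =
        ((n * G / (p.N * p.ℓ) + i * ((n : ℝ) / (p.N * p.ℓ)) : ℝ) : TT) := rfl
      rw [e3]
      congr 1
      field_simp
    rw [Finset.sum_congr rfl e, conj_hat]
  set η : ℝ := p.V / (20 * p.K) with hη
  have hη0 : 0 < η := by positivity
  have hVη : p.V / η = 20 * p.K := by rw [hη]; field_simp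
  set NF : ℕ → Finset (ℤ × ℤ) := fun y => NearF p.Rl p.Rh p.R2 p.r (X y) with hNF
  -- per point bound
  have h1 : ∀ y ∈ T, p.V * (9 / 10) - 20 * p.K * ∑ m ∈ NF y, f m.1 ≤
      ∑ i ∈ range p.N, μ i * SS p.Q p.δ₁ p.δ₂ s (X y) (g₁ i, g₂) := by
    intro y hy
    have hg := hP.hg y hy
    have h := per_point hp.hQ hp.h₁ hp.h₁' hp.h₂ hp.h₂' s (X y) p.N g₁ g₂ μ hμ0 hμ1 p.Rl p.Rh p.R2 p.r hη0
    have h2 := (abs_le.mp h).1
    simp_rw [hhat] at h2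
    rw [← Finset.mul_sum] at h2
    have e : (p.Q : ℝ) * (p.δ₁ * p.δ₂) = p.V := rfl
    rw [e, hVη] at h2
    have a := hg.a
    have b := hg.b
    have a' : η * SS p.Q p.δ₁ p.δ₂ 0 (X y) 0 ≤ p.V / 20 := by
      calc _ ≤ η * p.K := by gcongr
        _ = p.V / 20 := by rw [hη]; field_simp
    have b' : Rest p.Q p.δ₁ p.δ₂ p.Rl p.Rh p.R2 p.r (X y) ≤ p.V / 20 := b
    linarith
  -- averaged bound for the resonant energy
  set 𝓜 := T.biUnion NF with h𝓜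
  have h2 : ∑ y ∈ T, ∑ m ∈ NF y, f m.1 ≤ (p.D + 2) * ∑ m ∈ 𝓜, f m.1 := by
    have e : ∑ y ∈ T, ∑ m ∈ NF y, f m.1 = ∑ m ∈ 𝓜, ∑ y ∈ T.filter (fun y => m ∈ NF y), f m.1 := by
      apply Finset.sum_comm'
      intro y m
      rw [Finset.mem_filter, h𝓜, Finset.mem_biUnion]
      constructor
      · rintro ⟨hy, hm⟩; exact ⟨⟨hy, hm⟩, y, hy, hm⟩
      · rintro ⟨⟨hy, hm⟩, _⟩; exact ⟨hy, hm⟩
    rw [e, Finset.mul_sum]
    apply Finset.sum_le_sum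
    intro m _
    rw [Finset.sum_const, nsmul_eq_mul]
    apply mul_le_mul_of_nonneg_right _ (hf0 _)
    have := Pts.card_y hp hP (m := m)
    exact_mod_cast this
  obtain ⟨sg, hs1, hs2, hs3⟩ := grouping 𝓜 f hf0 (p.ℓ : ℤ) (p.Kc + 1) (Pts.card_m hp hP)
  have hbd : ∀ m ∈ sg, |m / (p.ℓ : ℤ)| ≤ p.A := by
    intro n hn
    obtain ⟨m, hm, rfl⟩ := hs2 n hn
    rw [h𝓜, Finset.mem_biUnion] at hm
    obtain ⟨y, _, hm⟩ := hm
    rw [hNF, mem_NearF] at hm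
    obtain ⟨_, hm2, _, _⟩ := hm
    have hℓZ : (0 : ℤ) < p.ℓ := by exact_mod_cast hp.hℓ
    have hA : (p.Rh : ℤ) + p.ℓ ≤ p.A * p.ℓ := by exact_mod_cast hp.hA
    rw [abs_le]
    constructor
    · rw [Int.le_ediv_iff_mul_le hℓZ]
      have : -(p.Rh : ℤ) ≤ m.1 := by omega
      nlinarith
    · have h3 : m.1 / (p.ℓ : ℤ) ≤ (p.A * p.ℓ : ℤ) / p.ℓ := by
        apply Int.ediv_le_ediv hℓZ
        have : m.1 ≤ (p.Rh : ℤ) := by omega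
        linarith
      rwa [Int.mul_ediv_cancel _ hℓZ.ne'] at h3
  have h3 := large_sieve hp.hN hp.hℓ sg hs1 hbd μ
  have h4 : ∑ x ∈ range p.N, μ x ^ 2 ≤ l₁ := by
    calc ∑ x ∈ range p.N, μ x ^ 2 ≤ ∑ x ∈ range p.N, l₁ * μ x := by
          apply Finset.sum_le_sum; intro x hx
          rw [sq]
          exact mul_le_mul_of_nonneg_right (hl₁ x hx) (hμ0 x)
      _ = l₁ := by rw [← Finset.mul_sum, hμ1, mul_one]
  have h5 : ∑ y ∈ T, ∑ m ∈ NF y, f m.1 ≤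
      (p.D + 2) * ((p.Kc + 1) * (14 * p.N * (4 * p.A / p.N + 3) * l₁)) := by
    refine h2.trans ?_
    gcongr
    refine hs3.trans ?_
    push_cast
    gcongr
    refine h3.trans ?_
    gcongr
  have h6 : ∑ y ∈ T, ν y * ∑ m ∈ NF y, f m.1 ≤ l₂ * ((p.D + 2) * ((p.Kc + 1) * (14 * p.N * (4 * p.A / p.N + 3) * l₁))) := by
    calc _ ≤ ∑ y ∈ T, l₂ * ∑ m ∈ NF y, f m.1 := by
          apply Finset.sum_le_sum; intro y hy
          exact mul_le_mul_of_nonneg_right (hl₂ y hy) (Finset.sum_nonneg (fun m _ => hf0 _))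
      _ = l₂ * ∑ y ∈ T, ∑ m ∈ NF y, f m.1 := by rw [Finset.mul_sum]
      _ ≤ _ := by gcongr
  have h7 : p.V / 2 ≤ ∑ y ∈ T, ν y * ∑ i ∈ range p.N, μ i * SS p.Q p.δ₁ p.δ₂ s (X y) (g₁ i, g₂) := by
    have e1 : ∑ y ∈ T, ν y * (p.V * (9 / 10) - 20 * p.K * ∑ m ∈ NF y, f m.1) ≤
        ∑ y ∈ T, ν y * ∑ i ∈ range p.N, μ i * SS p.Q p.δ₁ p.δ₂ s (X y) (g₁ i, g₂) := by
      apply Finset.sum_le_sum; intro y hy
      exact mul_le_mul_of_nonneg_left (h1 y hy) (hν0 y)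
    have e2 : ∑ y ∈ T, ν y * (p.V * (9 / 10) - 20 * p.K * ∑ m ∈ NF y, f m.1) =
        p.V * (9 / 10) - 20 * p.K * ∑ y ∈ T, ν y * ∑ m ∈ NF y, f m.1 := by
      simp_rw [mul_sub]
      rw [Finset.sum_sub_distrib, ← Finset.sum_mul, hν1, one_mul, Finset.mul_sum]
      congr 1
      apply Finset.sum_congr rfl; intro y _; ring
    have e3 : 20 * p.K * (l₂ * ((p.D + 2) * ((p.Kc + 1) * (14 * p.N * (4 * p.A / p.N + 3) * l₁)))) ≤ p.V / 20 := by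
      have : 20 * p.K * (l₂ * ((p.D + 2) * ((p.Kc + 1) * (14 * p.N * (4 * p.A / p.N + 3) * l₁)))) =
        (5600 * p.K * (p.D + 2) * (p.Kc + 1) * (4 * p.A / p.N + 3) * (l₁ * l₂ * p.N)) / 20 := by ring
      rw [this]; linarith
    have e4 : 20 * p.K * ∑ y ∈ T, ν y * ∑ m ∈ NF y, f m.1 ≤ p.V / 20 := by
      refine le_trans ?_ e3
      gcongr
    linarith
  exact h7

end Run7.h297
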