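import Pool.Agent.Run7.h297.Cell
import Pool.Agent.Run7.h297.P5b
import Pool.Agent.Run7.h297.TwoB

set_option autoImplicit false

/-! At most one shape is hit. -/

noncomputable section

namespace Run7.h297

open Real Finset MeasureTheory

/-- the smoothed number of hits of a shape -/
def hitS (a b M e t w c3 c4 u v : ℕ) (x : TT × TT) (i : ℕ) : ℝ :=
  SS (par3 a b M e t w u v).Q (par3 a b M e t w u v).δ₁ (par3 a b M e t w u v).δ₂ (2 * (par3 a b M e t w u v).Q : ℤ) x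
    ((((((c3 : ℝ) * 2 ^ M + 6 * 2 ^ u + i) / ((par3 a b M e t w u v).N * (par3 a b M e t w u v).ℓ) : ℝ)) : TT), (((c4 : ℝ) / 2 ^ b : ℝ) : TT))

section

variable {a b M e t w n : ℕ} (he : ExP a b M e t w n) {u v : ℕ} (hu : u ≤ n) (hv : v ≤ n)

include he hu hv

theorem ExP.d1 : (par3 a b M e t w u v).δ₁ = 4 * 2 ^ u / (2 ^ M * 2 ^ a) := by
  obtain ⟨ea, eb⟩ := he.eqs hu hv
  show 4 / (2 ^ M * 2 ^ (a - u)) = _
  rw [ea]; field_simp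

theorem ExP.d2 : (par3 a b M e t w u v).δ₂ = 2 ^ M * 2 ^ v / (2 ^ e * 64 * 2 ^ b) := by
  obtain ⟨ea, eb⟩ := he.eqs hu hv
  show 2 ^ M / (2 ^ (e + 6) * 2 ^ (b - v)) = _
  rw [eb, pow_add]; field_simp; norm_num

theorem hitS_hit {c3 c4 : ℕ} {x : TT × TT} {i : ℕ} (h : hitS a b M e t w c3 c4 u v x i ≠ 0) :
    ∃ q : ℕ, 2 ^ (a - u + (b - v)) < q ∧ q < 3 * 2 ^ (a - u + (b - v)) ∧
      ‖(q : ℤ) • x.1 - (((((c3 : ℝ) * 2 ^ M + 6 * 2 ^ u + i) / (2 ^ M * 2 ^ a) : ℝ)) : TT)‖ < 4 * 2 ^ u / (2 ^ M * 2 ^ a) ∧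
      ‖(q : ℤ) • x.2 - (((c4 : ℝ) / 2 ^ b : ℝ) : TT)‖ < 2 ^ M * 2 ^ v / (2 ^ e * 64 * 2 ^ b) := by
  have hok := he.ok hu hv
  unfold hitS at h
  obtain ⟨q, h1, h2, h3, h4⟩ := hit_of_SS hok.h₁ hok.h₂ h
  rw [he.d1 hu hv] at h3
  rw [he.d2 hu hv] at h4
  have eN : ((par3 a b M e t w u v).N : ℝ) * (par3 a b M e t w u v).ℓ = 2 ^ M * 2 ^ a := by
    show ((2 ^ M : ℕ) : ℝ) * ((2 ^ a : ℕ) : ℝ) = _
    push_cast; rfl
  rw [eN] at h3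
  exact ⟨q, h1, h2, h3, h4⟩

theorem hitS_nonneg (c3 c4 : ℕ) (x : TT × TT) (i : ℕ) : 0 ≤ hitS a b M e t w c3 c4 u v x i := by
  unfold hitS SS
  apply mul_nonneg (by positivity)
  apply Finset.sum_nonneg; intro j _
  apply Finset.sum_nonneg; intro j' _
  exact mul_nonneg (tent_nonneg _ _) (tent_nonneg _ _)

theorem hitS_le_one (c3 c4 : ℕ) {x : TT × TT} (i : ℕ)
    (hx : x ∈ NRet (20 * 2 ^ n / (2 ^ M * 2 ^ a)) (2 * 2 ^ M * 2 ^ n / (2 ^ e * 64 * 2 ^ b)) (3 * 2 ^ (a + b))) :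
    hitS a b M e t w c3 c4 u v x i ≤ 1 := by
  have hok := he.ok hu hv
  unfold hitS
  refine (SS_le_nret hok.hQ le_rfl hok.h₁ hok.h₂ _ _ _).trans ?_
  have h0 : nret (2 * (par3 a b M e t w u v).δ₁) (2 * (par3 a b M e t w u v).δ₂) (par3 a b M e t w u v).Q x = 0 := by
    unfold nret
    apply Finset.sum_eq_zero; intro d hd
    rw [Finset.mem_Icc] at hd
    rw [if_neg]
    intro hr
    have hU : (2 : ℝ) ^ u ≤ 2 ^ n := pow_le_pow_right₀ (by norm_num) hu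
    have hV : (2 : ℝ) ^ v ≤ 2 ^ n := pow_le_pow_right₀ (by norm_num) hv
    have hQ : (par3 a b M e t w u v).Q ≤ 2 ^ (a + b) := by
      show 2 ^ (a - u + (b - v)) ≤ 2 ^ (a + b)
      exact Nat.pow_le_pow_right (by norm_num) (by omega)
    apply hx d hd.1 (by omega)
    refine ⟨hr.1.trans ?_, hr.2.trans ?_⟩
    · rw [he.d1 hu hv, mul_div_assoc']
      apply div_le_div_of_nonneg_right _ (by positivity)
      have : (0 : ℝ) < 2 ^ n := by positivity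
      linarith
    · rw [he.d2 hu hv, mul_div_assoc']
      apply div_le_div_of_nonneg_right _ (by positivity)
      have : (2 : ℝ) ^ M * 2 ^ v ≤ 2 ^ M * 2 ^ n := by gcongr
      linarith
  rw [h0]; linarith

end

section

variable {a b M e t w n : ℕ} (he : ExP a b M e t w n)

include he

theorem annulus {u u' : ℕ} (hu' : u' ≤ n) (huu : u + 3 ≤ u') {z : TT}
    {g : ℝ} (h1 : ‖z - (((g + 6 * 2 ^ u) / (2 ^ M * 2 ^ a) : ℝ) : TT)‖ < 4 * 2 ^ u / (2 ^ M * 2 ^ a))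
    (h2 : ‖z - (((g + 6 * 2 ^ u') / (2 ^ M * 2 ^ a) : ℝ) : TT)‖ < 4 * 2 ^ u' / (2 ^ M * 2 ^ a)) : False := by
  have hM := he.hM
  have ha := he.ha
  have e1 : (((6 * (2 ^ u' - 2 ^ u) / (2 ^ M * 2 ^ a) : ℝ)) : TT) =
      (z - (((g + 6 * 2 ^ u) / (2 ^ M * 2 ^ a) : ℝ) : TT)) - (z - (((g + 6 * 2 ^ u') / (2 ^ M * 2 ^ a) : ℝ) : TT)) := by
    rw [sub_sub_sub_cancel_left]
    have : (6 * (2 ^ u' - 2 ^ u) / (2 ^ M * 2 ^ a) : ℝ) = (g + 6 * 2 ^ u') / (2 ^ M * 2 ^ a) - (g + 6 * 2 ^ u) / (2 ^ M * 2 ^ a) := by ring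
    rw [this]; rfl
  have h8 : (8 : ℝ) * 2 ^ u ≤ 2 ^ u' := by
    have : (2 : ℝ) ^ (3 + u) ≤ 2 ^ u' := pow_le_pow_right₀ (by norm_num) (by omega)
    rw [pow_add] at this; norm_num at this; exact this
  have hbig : (256 : ℝ) * 2 ^ u' ≤ 2 ^ M * 2 ^ a := by
    have : (2 : ℝ) ^ (8 + u') ≤ 2 ^ (M + a) := pow_le_pow_right₀ (by norm_num) (by omega)
    rw [pow_add, pow_add] at this; norm_num at this; exact this
  have hp : (0 : ℝ) < 2 ^ M * 2 ^ a := by positivity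
  have hu0 : (0 : ℝ) < 2 ^ u := by positivity
  have habs : |(6 * (2 ^ u' - 2 ^ u) / (2 ^ M * 2 ^ a) : ℝ)| = 6 * (2 ^ u' - 2 ^ u) / (2 ^ M * 2 ^ a) := by
    rw [abs_of_nonneg]
    apply div_nonneg _ hp.le
    linarith
  have h3 : ‖(((6 * (2 ^ u' - 2 ^ u) / (2 ^ M * 2 ^ a) : ℝ)) : TT)‖ = 6 * (2 ^ u' - 2 ^ u) / (2 ^ M * 2 ^ a) := by
    rw [norm_coe_eq_abs, habs]
    rw [habs, div_le_div_iff₀ hp (by norm_num)]
    linarith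
  rw [e1] at h3
  have h4 := norm_sub_le (z - (((g + 6 * 2 ^ u) / (2 ^ M * 2 ^ a) : ℝ) : TT)) (z - (((g + 6 * 2 ^ u') / (2 ^ M * 2 ^ a) : ℝ) : TT))
  rw [h3] at h4
  have h5 : 6 * ((2 : ℝ) ^ u' - 2 ^ u) / (2 ^ M * 2 ^ a) < 4 * 2 ^ u / (2 ^ M * 2 ^ a) + 4 * 2 ^ u' / (2 ^ M * 2 ^ a) := by linarith
  rw [← add_div, div_lt_div_iff_of_pos_right hp] at h5
  linarith

theorem shape_unique {c3 c4 : ℕ} {x : TT × TT} {i : ℕ}
    (hx : x ∈ NRet (20 * 2 ^ n / (2 ^ M * 2 ^ a)) (2 * 2 ^ M * 2 ^ n / (2 ^ e * 64 * 2 ^ b)) (3 * 2 ^ (a + b)))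
    {u v u' v' : ℕ} (hu : 3 * u ≤ n) (hv : 3 * v ≤ n) (hu' : 3 * u' ≤ n) (hv' : 3 * v' ≤ n)
    (h : hitS a b M e t w c3 c4 (3 * u) (3 * v) x i ≠ 0) (h' : hitS a b M e t w c3 c4 (3 * u') (3 * v') x i ≠ 0) : u = u' ∧ v = v' := by
  obtain ⟨q, q1, q2, q3, q4⟩ := hitS_hit he hu hv h
  obtain ⟨q', p1, p2, p3, p4⟩ := hitS_hit he hu' hv' h'
  have hM := he.hM
  have ha := he.ha
  have hb := he.hb
  have eg : ∀ k : ℕ, ((c3 : ℝ) * 2 ^ M + 6 * 2 ^ k + i) = ((c3 : ℝ) * 2 ^ M + i) + 6 * 2 ^ k := fun k => by ring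
  rw [eg] at q3 p3
  -- the multiples coincide
  have hqq : q = q' := by
    by_contra hne
    have hU : ∀ k : ℕ, k ≤ n → (2 : ℝ) ^ k ≤ 2 ^ n := fun k hk => pow_le_pow_right₀ (by norm_num) hk
    have hp : (0 : ℝ) < 2 ^ M * 2 ^ a := by positivity
    have r1 : ‖((q : ℤ) - (q' : ℤ)) • x.1‖ ≤ 20 * 2 ^ n / (2 ^ M * 2 ^ a) := by
      have e1 : ((q : ℤ) - (q' : ℤ)) • x.1 = ((q : ℤ) • x.1 - (((((c3 : ℝ) * 2 ^ M + i + 6 * 2 ^ (3 * u)) / (2 ^ M * 2 ^ a) : ℝ)) : TT)) -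
          ((q' : ℤ) • x.1 - (((((c3 : ℝ) * 2 ^ M + i + 6 * 2 ^ (3 * u')) / (2 ^ M * 2 ^ a) : ℝ)) : TT)) +
          (((6 * (2 ^ (3 * u) - 2 ^ (3 * u')) / (2 ^ M * 2 ^ a) : ℝ)) : TT) := by
        have e2 : (((6 * (2 ^ (3 * u) - 2 ^ (3 * u')) / (2 ^ M * 2 ^ a) : ℝ)) : TT) =
            (((((c3 : ℝ) * 2 ^ M + i + 6 * 2 ^ (3 * u)) / (2 ^ M * 2 ^ a) : ℝ)) : TT) - (((((c3 : ℝ) * 2 ^ M + i + 6 * 2 ^ (3 * u')) / (2 ^ M * 2 ^ a) : ℝ)) : TT) := by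
          have : (6 * (2 ^ (3 * u) - 2 ^ (3 * u')) / (2 ^ M * 2 ^ a) : ℝ) =
            ((c3 : ℝ) * 2 ^ M + i + 6 * 2 ^ (3 * u)) / (2 ^ M * 2 ^ a) - ((c3 : ℝ) * 2 ^ M + i + 6 * 2 ^ (3 * u')) / (2 ^ M * 2 ^ a) := by ring
          rw [this]; rfl
        rw [e2, sub_smul]; abel
      rw [e1]
      have t1 := norm_add_le (((q : ℤ) • x.1 - (((((c3 : ℝ) * 2 ^ M + i + 6 * 2 ^ (3 * u)) / (2 ^ M * 2 ^ a) : ℝ)) : TT)) -
          ((q' : ℤ) • x.1 - (((((c3 : ℝ) * 2 ^ M + i + 6 * 2 ^ (3 * u')) / (2 ^ M * 2 ^ a) : ℝ)) : TT))) (((6 * (2 ^ (3 * u) - 2 ^ (3 * u')) / (2 ^ M * 2 ^ a) : ℝ)) : TT)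
      have t2 := norm_sub_le ((q : ℤ) • x.1 - (((((c3 : ℝ) * 2 ^ M + i + 6 * 2 ^ (3 * u)) / (2 ^ M * 2 ^ a) : ℝ)) : TT))
          ((q' : ℤ) • x.1 - (((((c3 : ℝ) * 2 ^ M + i + 6 * 2 ^ (3 * u')) / (2 ^ M * 2 ^ a) : ℝ)) : TT))
      have t3 := norm_coe_le_abs (6 * (2 ^ (3 * u) - 2 ^ (3 * u')) / (2 ^ M * 2 ^ a) : ℝ)
      have t4 : |(6 * (2 ^ (3 * u) - 2 ^ (3 * u')) / (2 ^ M * 2 ^ a) : ℝ)| ≤ 6 * 2 ^ n / (2 ^ M * 2 ^ a) := by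
        rw [abs_div, abs_of_pos hp]
        apply div_le_div_of_nonneg_right _ hp.le
        have f1 := hU _ hu
        have f2 := hU _ hu'
        have f3 : (0 : ℝ) < 2 ^ (3 * u) := by positivity
        have f4 : (0 : ℝ) < 2 ^ (3 * u') := by positivity
        rw [abs_le]; constructor <;> linarith
      have t5 : 4 * (2 : ℝ) ^ (3 * u) / (2 ^ M * 2 ^ a) ≤ 4 * 2 ^ n / (2 ^ M * 2 ^ a) := by
        apply div_le_div_of_nonneg_right _ hp.le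
        have := hU _ hu; linarith
      have t6 : 4 * (2 : ℝ) ^ (3 * u') / (2 ^ M * 2 ^ a) ≤ 4 * 2 ^ n / (2 ^ M * 2 ^ a) := by
        apply div_le_div_of_nonneg_right _ hp.le
        have := hU _ hu'; linarith
      have t7 : 20 * (2 : ℝ) ^ n / (2 ^ M * 2 ^ a) = 6 * 2 ^ n / (2 ^ M * 2 ^ a) + 4 * 2 ^ n / (2 ^ M * 2 ^ a) + 4 * 2 ^ n / (2 ^ M * 2 ^ a) + 6 * 2 ^ n / (2 ^ M * 2 ^ a) := by ring
      have t8 : (0 : ℝ) ≤ 6 * 2 ^ n / (2 ^ M * 2 ^ a) := by positivity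
      linarith
    have r2 : ‖((q : ℤ) - (q' : ℤ)) • x.2‖ ≤ 2 * 2 ^ M * 2 ^ n / (2 ^ e * 64 * 2 ^ b) := by
      have hp2 : (0 : ℝ) < 2 ^ e * 64 * 2 ^ b := by positivity
      have e1 : ((q : ℤ) - (q' : ℤ)) • x.2 = ((q : ℤ) • x.2 - (((c4 : ℝ) / 2 ^ b : ℝ) : TT)) - ((q' : ℤ) • x.2 - (((c4 : ℝ) / 2 ^ b : ℝ) : TT)) := by
        rw [sub_smul]; abel
      rw [e1]
      have t2 := norm_sub_le ((q : ℤ) • x.2 - (((c4 : ℝ) / 2 ^ b : ℝ) : TT)) ((q' : ℤ) • x.2 - (((c4 : ℝ) / 2 ^ b : ℝ) : TT))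
      have t5 : ∀ k : ℕ, k ≤ n → 2 ^ M * (2 : ℝ) ^ k / (2 ^ e * 64 * 2 ^ b) ≤ 2 ^ M * 2 ^ n / (2 ^ e * 64 * 2 ^ b) := by
        intro k hk
        apply div_le_div_of_nonneg_right _ hp2.le
        have := hU _ hk
        gcongr
      have t6 := t5 _ hv
      have t7 := t5 _ hv'
      have t8 : 2 * 2 ^ M * 2 ^ n / (2 ^ e * 64 * 2 ^ b) = 2 ^ M * (2 : ℝ) ^ n / (2 ^ e * 64 * 2 ^ b) + 2 ^ M * 2 ^ n / (2 ^ e * 64 * 2 ^ b) := by ring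
      linarith
    have hQ : ∀ k l : ℕ, 2 ^ (a - 3 * k + (b - 3 * l)) ≤ 2 ^ (a + b) := fun k l => Nat.pow_le_pow_right (by norm_num) (by omega)
    have hQ1 := hQ u v
    have hQ2 := hQ u' v'
    rcases lt_or_gt_of_ne hne with hlt | hlt
    · apply hx (q' - q) (by omega) (by omega)
      have e : ((q : ℤ) - (q' : ℤ)) = -(((q' - q : ℕ)) : ℤ) := by rw [Nat.cast_sub hlt.le]; ring
      rw [e, neg_smul, norm_neg, natCast_zsmul] at r1 r2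
      exact ⟨r1, r2⟩
    · apply hx (q - q') (by omega) (by omega)
      have e : ((q : ℤ) - (q' : ℤ)) = (((q - q' : ℕ)) : ℤ) := by rw [Nat.cast_sub hlt.le]
      rw [e, natCast_zsmul] at r1 r2
      exact ⟨r1, r2⟩
  rw [← hqq] at p1 p2 p3 p4
  -- the total exponents coincide
  have hsum : ∀ {k l k' l' : ℕ}, 3 * k ≤ n → 3 * l ≤ n → 3 * k' ≤ n → 3 * l' ≤ n → 2 ^ (a - 3 * k' + (b - 3 * l')) < q →
      q < 3 * 2 ^ (a - 3 * k + (b - 3 * l)) → k + l ≤ k' + l' := by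
    intro k l k' l' h1 h2 h3 h4 h5 h6
    by_contra hc
    have h7 : 2 ^ (a - 3 * k + (b - 3 * l) + 3) ≤ 2 ^ (a - 3 * k' + (b - 3 * l')) := Nat.pow_le_pow_right (by norm_num) (by omega)
    rw [pow_add] at h7
    omega
  have s1 := hsum hu hv hu' hv' p1 q2
  have s2 := hsum hu' hv' hu hv q1 p2
  rcases lt_trichotomy u u' with h | h | h
  · exact (annulus he hu' (by omega) q3 p3).elim
  · exact ⟨h, by omega⟩
  · exact (annulus he hu (by omega) p3 q3).elim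

open Classical in
theorem sum_shapes {c3 c4 : ℕ} {x : TT × TT} {i : ℕ}
    (hx : x ∈ NRet (20 * 2 ^ n / (2 ^ M * 2 ^ a)) (2 * 2 ^ M * 2 ^ n / (2 ^ e * 64 * 2 ^ b)) (3 * 2 ^ (a + b))) {nn : ℕ} (hnn : 3 * nn ≤ n) :
    ∑ k ∈ range nn ×ˢ range nn, hitS a b M e t w c3 c4 (3 * k.1) (3 * k.2) x i ≤
      if ∃ u v, u < nn ∧ v < nn ∧ hitS a b M e t w c3 c4 (3 * u) (3 * v) x i ≠ 0 then 1 else 0 := by
  by_cases h : ∃ u v, u < nn ∧ v < nn ∧ hitS a b M e t w c3 c4 (3 * u) (3 * v) x i ≠ 0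
  · rw [if_pos h]
    obtain ⟨u, v, hu, hv, huv⟩ := h
    have e1 : ∑ k ∈ range nn ×ˢ range nn, hitS a b M e t w c3 c4 (3 * k.1) (3 * k.2) x i = hitS a b M e t w c3 c4 (3 * u) (3 * v) x i := by
      apply Finset.sum_eq_single (u, v)
      · intro k hk hne
        rw [Finset.mem_product, Finset.mem_range, Finset.mem_range] at hk
        by_contra hc
        have := shape_unique he hx (by omega) (by omega) (by omega) (by omega) hc huv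
        exact hne (Prod.ext this.1 this.2)
      · intro hn
        exact absurd (by rw [Finset.mem_product, Finset.mem_range, Finset.mem_range]; exact ⟨hu, hv⟩) hn
    rw [e1]
    exact hitS_le_one he (by omega) (by omega) c3 c4 i hx
  · rw [if_neg h]
    apply le_of_eq
    apply Finset.sum_eq_zero; intro k hk
    rw [Finset.mem_product, Finset.mem_range, Finset.mem_range] at hk
    by_contra hc
    exact h ⟨k.1, k.2, hk.1, hk.2, hc⟩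

end

end Run7.h297
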