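import Pool.Agent.Run7.h297.P5a
import Pool.Agent.Run7.h297.P5c

set_option autoImplicit false

/-! Typical sets of constant mass and the fiber estimate. -/

noncomputable section

namespace Run7.h297

open Real Finset MeasureTheory

theorem negMulLog_le_one' {x : ℝ} (hx : 0 ≤ x) : negMulLog x ≤ 1 := by
  rcases hx.eq_or_lt with h | h
  · rw [← h, negMulLog_zero]; norm_num
  · unfold negMulLog
    have h1 := Real.log_le_sub_one_of_pos (inv_pos.mpr h)
    rw [Real.log_inv] at h1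
    have h2 : x * (-Real.log x) ≤ x * (x⁻¹ - 1) := mul_le_mul_of_nonneg_left h1 hx
    have h3 : x * (x⁻¹ - 1) = 1 - x := by field_simp
    linarith

/-- the typical set -/
def typ (N : ℕ) (μ : ℕ → ℝ) (c : ℝ) : Finset ℕ :=
  (range N).filter (fun x => μ x ≤ Real.exp (-((∑ x ∈ range N, negMulLog (μ x)) - c)))

theorem typ_mass {N : ℕ} (hN : 1 ≤ N) {μ : ℕ → ℝ} (h0 : ∀ x, 0 ≤ μ x) (h1 : ∑ x ∈ range N, μ x = 1) {c θ : ℝ}
    (hc : 0 < c) (hcθ : θ * (Real.log N + c) + 1 ≤ c) : θ ≤ ∑ x ∈ typ N μ c, μ x := by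
  set h := ∑ x ∈ range N, negMulLog (μ x) with hh
  set A := typ N μ c with hA
  have hAs : A ⊆ range N := Finset.filter_subset _ _
  set α := ∑ x ∈ A, μ x with hα
  have hle1 : ∀ x ∈ range N, μ x ≤ 1 := by
    intro x hx
    rw [← h1]; exact Finset.single_le_sum (fun y _ => h0 y) hx
  have hpos : 0 ≤ h := by
    apply Finset.sum_nonneg; intro x hx
    exact negMulLog_nonneg (h0 x) (hle1 x hx)
  have hα0 : 0 ≤ α := Finset.sum_nonneg (fun x _ => h0 x)
  have e1 : h = ∑ x ∈ A, negMulLog (μ x) + ∑ x ∈ range N \ A, negMulLog (μ x) := by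
    rw [hh, add_comm, Finset.sum_sdiff hAs]
  have e2 : ∑ x ∈ range N \ A, μ x = 1 - α := by
    have := Finset.sum_sdiff (f := μ) hAs
    rw [h1] at this; linarith
  have b1 : ∑ x ∈ A, negMulLog (μ x) ≤ 1 + α * Real.log N := by
    have := sum_negMulLog_le A μ (fun x _ => h0 x) α rfl A (fun x hx hx' => absurd hx hx') N (by exact_mod_cast hN)
      (by rw [Finset.inter_self]; exact_mod_cast (Finset.card_le_card hAs).trans (by rw [card_range]))
    have h2 := negMulLog_le_one' hα0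
    linarith
  have b2 : ∑ x ∈ range N \ A, negMulLog (μ x) ≤ (1 - α) * (h - c) := by
    rw [← e2, Finset.sum_mul]
    apply Finset.sum_le_sum; intro x hx
    rw [Finset.mem_sdiff] at hx
    have h3 : Real.exp (-(h - c)) < μ x := by
      by_contra hcon
      push Not at hcon
      exact hx.2 (Finset.mem_filter.mpr ⟨hx.1, hcon⟩)
    have h4 : 0 < μ x := lt_trans (Real.exp_pos _) h3
    have h5 : -(h - c) < Real.log (μ x) := (Real.lt_log_iff_exp_lt h4).mpr h3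
    unfold negMulLog
    nlinarith
  have b3 : c - 1 ≤ α * (Real.log N + c) := by
    have h7 : 0 ≤ α * h := mul_nonneg hα0 hpos
    nlinarith
  have hL : 0 ≤ Real.log N := Real.log_nonneg (by exact_mod_cast hN)
  have h8 : θ * (Real.log N + c) ≤ α * (Real.log N + c) := by linarith
  exact le_of_mul_le_mul_right h8 (by linarith)

section

variable {a b M e t w n : ℕ} (he : ExP a b M e t w n)

include he in
/-- the mean number of hits over a fiber -/
theorem fiber_mean {nn : ℕ} (hnn : 3 * nn ≤ n) {T : Finset ℕ} {xs : ℕ → ℝ × ℝ} {c1 c3 c4 : ℕ}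
    (hTN : ∀ y ∈ T, y < 2 ^ M)
    (hx1 : ∀ y ∈ T, (y : ℝ) ≤ 2 ^ M * 2 ^ (2 * a + b) * (xs y).1 - c1 * 2 ^ M)
    (hx2 : ∀ y ∈ T, 2 ^ M * 2 ^ (2 * a + b) * (xs y).1 - c1 * 2 ^ M < y + 1)
    (hx3 : ∀ y ∈ T, ∀ y' ∈ T, |(xs y).2 - (xs y').2| ≤ 1 / 2 ^ (a + 2 * b))
    (hgen : ∀ y ∈ T, ∀ u v, u < nn → v < nn → Gen (par3 a b M e t w (3 * u) (3 * v)) (pt (xs y)))
    {μ ν : ℕ → ℝ} (m0 : ∀ i, 0 ≤ μ i) (m1 : ∑ i ∈ range (2 ^ M), μ i = 1) (n0 : ∀ y, 0 ≤ ν y) (n1 : ∑ y ∈ T, ν y = 1)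
    {l₁ l₂ : ℝ} (hl₁ : ∀ i ∈ range (2 ^ M), μ i ≤ l₁) (hl₂ : ∀ y ∈ T, ν y ≤ l₂) (hl₂0 : 0 ≤ l₂)
    (hsmall : ∀ u v, u < nn → v < nn → 5600 * (par3 a b M e t w (3 * u) (3 * v)).K * ((par3 a b M e t w (3 * u) (3 * v)).D + 2) *
      ((par3 a b M e t w (3 * u) (3 * v)).Kc + 1) * (4 * (par3 a b M e t w (3 * u) (3 * v)).A / (par3 a b M e t w (3 * u) (3 * v)).N + 3) *
      (l₁ * l₂ * (par3 a b M e t w (3 * u) (3 * v)).N) ≤ (par3 a b M e t w (3 * u) (3 * v)).V) :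
    (nn : ℝ) ^ 2 * (1 / (16 * 2 ^ e) / 2) ≤
      ∑ y ∈ T, ν y * ∑ i ∈ range (2 ^ M), μ i * ∑ k ∈ range nn ×ˢ range nn, hitS a b M e t w c3 c4 (3 * k.1) (3 * k.2) (pt (xs y)) i := by
  have hshape : ∀ k ∈ range nn ×ˢ range nn, 1 / (16 * 2 ^ e) / 2 ≤
      ∑ y ∈ T, ν y * ∑ i ∈ range (2 ^ M), μ i * hitS a b M e t w c3 c4 (3 * k.1) (3 * k.2) (pt (xs y)) i := by
    intro k hk
    rw [Finset.mem_product, Finset.mem_range, Finset.mem_range] at hk
    have hok := he.ok (u := 3 * k.1) (v := 3 * k.2) (by omega) (by omega)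
    have hV := he.V (u := 3 * k.1) (v := 3 * k.2) (by omega) (by omega)
    have hPts : Pts (par3 a b M e t w (3 * k.1) (3 * k.2)) T (fun y => (xs y).1) (fun y => (xs y).2) (c1 * 2 ^ M) := by
      have eN : ((par3 a b M e t w (3 * k.1) (3 * k.2)).N : ℝ) * (par3 a b M e t w (3 * k.1) (3 * k.2)).I = 2 ^ M * 2 ^ (2 * a + b) := by
        show ((2 ^ M : ℕ) : ℝ) * ((2 ^ (2 * a + b) : ℕ) : ℝ) = _
        push_cast; rfl
      refine ⟨hTN, ?_, ?_, ?_, ?_⟩
      · intro y hy; rw [eN]; exact hx1 y hy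
      · intro y hy; rw [eN]; exact hx2 y hy
      · intro y hy y' hy'
        refine (hx3 y hy y' hy').trans (le_of_eq ?_)
        show _ = 1 / (((2 ^ (a + 2 * b) : ℕ)) : ℝ)
        push_cast; rfl
      · intro y hy; exact hgen y hy k.1 k.2 hk.1 hk.2
    have h7 := propB7 hok hPts (2 * (par3 a b M e t w (3 * k.1) (3 * k.2)).Q : ℤ) ((c3 : ℝ) * 2 ^ M + 6 * 2 ^ (3 * k.1))
      ((((c4 : ℝ) / 2 ^ b : ℝ)) : TT) μ ν m0 m1 n0 n1 hl₁ hl₂ hl₂0 (hsmall k.1 k.2 hk.1 hk.2)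
    rw [hV] at h7
    exact h7
  have h1 := Finset.sum_le_sum hshape
  rw [Finset.sum_const, nsmul_eq_mul, Finset.card_product, card_range] at h1
  have e1 : ((nn * nn : ℕ) : ℝ) * (1 / (16 * 2 ^ e) / 2) = (nn : ℝ) ^ 2 * (1 / (16 * 2 ^ e) / 2) := by push_cast; ring
  rw [e1] at h1
  refine h1.trans (le_of_eq ?_)
  rw [Finset.sum_comm]
  apply Finset.sum_congr rfl; intro y _
  rw [← Finset.mul_sum]
  congr 1
  rw [Finset.sum_comm]
  apply Finset.sum_congr rfl; intro i _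
  rw [← Finset.mul_sum]

include he in
open Classical in
/-- the hit estimate over a fiber -/
theorem fiber_hit {nn : ℕ} (hnn : 3 * nn ≤ n) {T0 : Finset ℕ} {xs : ℕ → ℝ × ℝ} {c1 c3 c4 : ℕ}
    (hTN : ∀ y ∈ T0, y < 2 ^ M)
    (hx1 : ∀ y ∈ T0, (y : ℝ) ≤ 2 ^ M * 2 ^ (2 * a + b) * (xs y).1 - c1 * 2 ^ M)
    (hx2 : ∀ y ∈ T0, 2 ^ M * 2 ^ (2 * a + b) * (xs y).1 - c1 * 2 ^ M < y + 1)
    (hx3 : ∀ y ∈ T0, ∀ y' ∈ T0, |(xs y).2 - (xs y').2| ≤ 1 / 2 ^ (a + 2 * b))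
    (hgen : ∀ y ∈ T0, ∀ u v, u < nn → v < nn → Gen (par3 a b M e t w (3 * u) (3 * v)) (pt (xs y)))
    (hnr : ∀ y ∈ T0, pt (xs y) ∈ NRet (20 * 2 ^ n / (2 ^ M * 2 ^ a)) (2 * 2 ^ M * 2 ^ n / (2 ^ e * 64 * 2 ^ b)) (3 * 2 ^ (a + b)))
    {μ ν : ℕ → ℝ} (m0 : ∀ i, 0 ≤ μ i) (m1 : ∑ i ∈ range (2 ^ M), μ i = 1) (n0 : ∀ y, 0 ≤ ν y) (n1 : ∑ y ∈ range (2 ^ M), ν y = 1)
    {θ c : ℝ} (hθ : 0 < θ) (hc : 0 < c) (hcθ : θ * (Real.log ((2 ^ M : ℕ) : ℝ) + c) + 1 ≤ c)
    (hE : Real.log ((2 ^ M : ℕ) : ℝ) + 4 * c ≤ (∑ x ∈ range (2 ^ M), negMulLog (μ x)) + ∑ y ∈ range (2 ^ M), negMulLog (ν y))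
    (hb : ∑ y ∈ (range (2 ^ M)).filter (fun y => y ∉ T0), ν y ≤ θ / 2)
    (hsmall : ∀ u v, u < nn → v < nn → 5600 * (par3 a b M e t w (3 * u) (3 * v)).K * ((par3 a b M e t w (3 * u) (3 * v)).D + 2) *
      ((par3 a b M e t w (3 * u) (3 * v)).Kc + 1) * (4 * (par3 a b M e t w (3 * u) (3 * v)).A / (par3 a b M e t w (3 * u) (3 * v)).N + 3) *
      (2 * Real.exp (-(2 * c)) / θ ^ 2) ≤ (par3 a b M e t w (3 * u) (3 * v)).V)
    (Z : ℕ → ℕ → Prop) (hZ : ∀ i y, i < 2 ^ M → y ∈ T0 →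
      (∃ u v, u < nn ∧ v < nn ∧ hitS a b M e t w c3 c4 (3 * u) (3 * v) (pt (xs y)) i ≠ 0) → Z i y) :
    (nn : ℝ) ^ 2 * (1 / (16 * 2 ^ e) / 2) * (θ * (θ / 2)) ≤
      ∑ i ∈ range (2 ^ M), ∑ y ∈ range (2 ^ M), if Z i y then μ i * ν y else 0 := by
  have hN1 : 1 ≤ 2 ^ M := Nat.one_le_two_pow
  have a1 := typ_mass hN1 m0 m1 hc hcθ
  have a2 := typ_mass hN1 n0 n1 hc hcθ
  set A := typ (2 ^ M) μ c with hA
  set B := typ (2 ^ M) ν c with hB
  set T := B.filter (fun y => y ∈ T0) with hT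
  have hTT0 : T ⊆ T0 := fun y hy => (Finset.mem_filter.mp hy).2
  have hTr : T ⊆ range (2 ^ M) := fun y hy => Finset.mem_range.mpr (hTN y (hTT0 hy))
  have hAr : A ⊆ range (2 ^ M) := Finset.filter_subset _ _
  set α := ∑ x ∈ A, μ x with hα
  set β := ∑ y ∈ T, ν y with hβ
  have hβ1 : θ / 2 ≤ β := by
    have e1 : ∑ y ∈ B, ν y = β + ∑ y ∈ B.filter (fun y => y ∉ T0), ν y := by
      rw [hβ, hT, Finset.sum_filter_add_sum_filter_not]
    have e2 : ∑ y ∈ B.filter (fun y => y ∉ T0), ν y ≤ ∑ y ∈ (range (2 ^ M)).filter (fun y => y ∉ T0), ν y := by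
      apply Finset.sum_le_sum_of_subset_of_nonneg
      · intro y hy
        rw [Finset.mem_filter] at hy ⊢
        exact ⟨(Finset.mem_filter.mp hy.1).1, hy.2⟩
      · intro y _ _; exact n0 y
    linarith
  have hα0 : 0 < α := lt_of_lt_of_le hθ a1
  have hβ0 : 0 < β := lt_of_lt_of_le (by positivity) hβ1
  set h1 := ∑ x ∈ range (2 ^ M), negMulLog (μ x) with hh1
  set h2 := ∑ x ∈ range (2 ^ M), negMulLog (ν x) with hh2
  set μ' : ℕ → ℝ := fun i => if i ∈ A then μ i / α else 0 with hμ'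
  set ν' : ℕ → ℝ := fun y => if y ∈ T then ν y / β else 0 with hν'
  have m0' : ∀ i, 0 ≤ μ' i := by
    intro i; rw [hμ']; dsimp only
    split_ifs
    · exact div_nonneg (m0 i) hα0.le
    · exact le_rfl
  have n0' : ∀ i, 0 ≤ ν' i := by
    intro i; rw [hν']; dsimp only
    split_ifs
    · exact div_nonneg (n0 i) hβ0.le
    · exact le_rfl
  have m1' : ∑ i ∈ range (2 ^ M), μ' i = 1 := by
    rw [hμ']
    rw [← Finset.sum_filter, Finset.filter_mem_eq_inter, Finset.inter_eq_right.mpr hAr, ← Finset.sum_div, ← hα]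
    exact div_self hα0.ne'
  have n1' : ∑ y ∈ T, ν' y = 1 := by
    have : ∑ y ∈ T, ν' y = ∑ y ∈ T, ν y / β := by
      apply Finset.sum_congr rfl; intro y hy
      rw [hν']; dsimp only; rw [if_pos hy]
    rw [this, ← Finset.sum_div, ← hβ]
    exact div_self hβ0.ne'
  have hl1 : ∀ i ∈ range (2 ^ M), μ' i ≤ Real.exp (-(h1 - c)) / θ := by
    intro i _
    rw [hμ']; dsimp only
    split_ifs with h
    · have h3 := (Finset.mem_filter.mp h).2
      apply div_le_div₀ (Real.exp_pos _).le h3 hθ a1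
    · positivity
  have hl2 : ∀ y ∈ T, ν' y ≤ Real.exp (-(h2 - c)) / (θ / 2) := by
    intro y hy
    rw [hν']; dsimp only
    rw [if_pos hy]
    have h3 := (Finset.mem_filter.mp (Finset.mem_filter.mp hy).1).2
    exact div_le_div₀ (Real.exp_pos _).le h3 (by positivity) hβ1
  have hdens : Real.exp (-(h1 - c)) / θ * (Real.exp (-(h2 - c)) / (θ / 2)) * ((2 ^ M : ℕ) : ℝ) ≤ 2 * Real.exp (-(2 * c)) / θ ^ 2 := by
    have e1 : ((2 ^ M : ℕ) : ℝ) = Real.exp (Real.log ((2 ^ M : ℕ) : ℝ)) := by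
      rw [Real.exp_log]; positivity
    have e2 : Real.exp (-(h1 - c)) / θ * (Real.exp (-(h2 - c)) / (θ / 2)) * ((2 ^ M : ℕ) : ℝ) =
        2 * Real.exp (-(h1 - c) + -(h2 - c) + Real.log ((2 ^ M : ℕ) : ℝ)) / θ ^ 2 := by
      rw [Real.exp_add, Real.exp_add, ← e1]; field_simp
    rw [e2]
    apply div_le_div_of_nonneg_right _ (by positivity)
    apply mul_le_mul_of_nonneg_left _ (by norm_num)
    apply Real.exp_le_exp.mpr
    linarith
  have key := fiber_mean he hnn (T := T) (xs := xs) (c1 := c1) (c3 := c3) (c4 := c4) (fun y hy => hTN y (hTT0 hy)) (fun y hy => hx1 y (hTT0 hy))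
    (fun y hy => hx2 y (hTT0 hy)) (fun y hy y' hy' => hx3 y (hTT0 hy) y' (hTT0 hy')) (fun y hy => hgen y (hTT0 hy)) m0' m1' n0' n1' hl1 hl2
    (by positivity) (by
      intro u v hu hv
      refine le_trans ?_ (hsmall u v hu hv)
      apply mul_le_mul_of_nonneg_left
      · exact hdens
      · have : 0 < (par3 a b M e t w (3 * u) (3 * v)).K := (he.ok (u := 3 * u) (v := 3 * v) (by omega) (by omega)).hK
        positivity)
  have hup : ∑ y ∈ T, ν' y * ∑ i ∈ range (2 ^ M), μ' i * ∑ k ∈ range nn ×ˢ range nn, hitS a b M e t w c3 c4 (3 * k.1) (3 * k.2) (pt (xs y)) i ≤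
      (1 / (θ * (θ / 2))) * ∑ i ∈ range (2 ^ M), ∑ y ∈ range (2 ^ M), if Z i y then μ i * ν y else 0 := by
    rw [Finset.sum_comm, Finset.mul_sum]
    refine le_trans ?_ (Finset.sum_le_sum_of_subset_of_nonneg hTr (fun y _ _ => ?_))
    · apply Finset.sum_le_sum; intro y hy
      rw [Finset.mul_sum, Finset.mul_sum]
      apply Finset.sum_le_sum; intro i hi
      rw [Finset.mem_range] at hi
      have hs := sum_shapes he (c3 := c3) (c4 := c4) (i := i) (hnr y (hTT0 hy)) hnn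
      have hmn : 0 ≤ μ i * ν y := mul_nonneg (m0 i) (n0 y)
      have hpm : ν' y * μ' i ≤ (1 / (θ * (θ / 2))) * (μ i * ν y) := by
        have g1 : μ' i ≤ μ i / θ := by
          rw [hμ']; dsimp only
          split_ifs
          · exact div_le_div_of_nonneg_left (m0 i) hθ a1
          · exact div_nonneg (m0 i) hθ.le
        have g2 : ν' y ≤ ν y / (θ / 2) := by
          rw [hν']; dsimp only
          rw [if_pos hy]
          exact div_le_div_of_nonneg_left (n0 y) (by positivity) hβ1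
        calc ν' y * μ' i ≤ (ν y / (θ / 2)) * (μ i / θ) := mul_le_mul g2 g1 (m0' i) (div_nonneg (n0 y) (by positivity))
          _ = _ := by field_simp
      by_cases hex : ∃ u v, u < nn ∧ v < nn ∧ hitS a b M e t w c3 c4 (3 * u) (3 * v) (pt (xs y)) i ≠ 0
      · rw [if_pos hex] at hs
        rw [if_pos (hZ i y hi (hTT0 hy) hex)]
        calc ν' y * (μ' i * ∑ k ∈ range nn ×ˢ range nn, hitS a b M e t w c3 c4 (3 * k.1) (3 * k.2) (pt (xs y)) i)
            = (ν' y * μ' i) * ∑ k ∈ range nn ×ˢ range nn, hitS a b M e t w c3 c4 (3 * k.1) (3 * k.2) (pt (xs y)) i := by ring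
          _ ≤ (ν' y * μ' i) * 1 := by
            apply mul_le_mul_of_nonneg_left hs
            exact mul_nonneg (n0' y) (m0' i)
          _ ≤ _ := by rw [mul_one]; exact hpm
      · rw [if_neg hex] at hs
        have h0 : 0 ≤ (1 / (θ * (θ / 2))) * (if Z i y then μ i * ν y else 0) := by
          apply mul_nonneg (by positivity)
          split_ifs
          · exact hmn
          · exact le_rfl
        refine le_trans ?_ h0
        calc ν' y * (μ' i * ∑ k ∈ range nn ×ˢ range nn, hitS a b M e t w c3 c4 (3 * k.1) (3 * k.2) (pt (xs y)) i)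
            = (ν' y * μ' i) * ∑ k ∈ range nn ×ˢ range nn, hitS a b M e t w c3 c4 (3 * k.1) (3 * k.2) (pt (xs y)) i := by ring
          _ ≤ (ν' y * μ' i) * 0 := by
            apply mul_le_mul_of_nonneg_left hs
            exact mul_nonneg (n0' y) (m0' i)
          _ = 0 := mul_zero _
    · apply mul_nonneg (by positivity)
      apply Finset.sum_nonneg; intro i _
      split_ifs
      · exact mul_nonneg (m0 i) (n0 y)
      · exact le_rfl
  have h9 := key.trans hup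
  have hθ2 : 0 < θ * (θ / 2) := by positivity
  have h10 := mul_le_mul_of_nonneg_right h9 hθ2.le
  refine h10.trans (le_of_eq ?_)
  rw [mul_comm (1 / (θ * (θ / 2))), mul_assoc, one_div_mul_cancel hθ2.ne', mul_one]

end

end Run7.h297
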