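import Pool.Agent.Run7.h297.Kern

set_option autoImplicit false

/-! Two applications of the Cauchy-Schwarz inequality and the resulting sums over quadruples of modes. -/

noncomputable section

namespace Run7.h297

open Real Finset MeasureTheory

/-- pairs of indices -/
def PP (N : ℕ) : Finset (ℕ × ℕ) := range N ×ˢ range N

/-- difference -/
def df (p : ℕ × ℕ) : ℤ := (p.1 : ℤ) - (p.2 : ℤ)

theorem FQ_expand' (N : ℕ) (θ : TT) : ∑ p ∈ PP N, ch (df p • θ) = ((N * FQ N θ : ℝ) : ℂ) := by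
  unfold PP df
  rw [Finset.sum_product, FQ_expand]

theorem dbl_ge (N : ℕ) (F : ℤ → ℝ) (hF : ∀ u, 0 ≤ F u) :
    (N : ℝ) * ∑ x ∈ range N, F x ≤ ∑ p ∈ PP (2 * N), F (df p) := by
  unfold PP df
  rw [Finset.sum_product_right]
  calc (N : ℝ) * ∑ x ∈ range N, F x = ∑ j' ∈ range N, ∑ x ∈ range N, F x := by
        rw [Finset.sum_const, card_range, nsmul_eq_mul]
    _ ≤ ∑ j' ∈ range N, ∑ j ∈ range (2 * N), F ((j : ℤ) - (j' : ℤ)) := by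
        apply Finset.sum_le_sum
        intro j' hj'
        rw [Finset.mem_range] at hj'
        have : ∑ x ∈ range N, F x = ∑ j ∈ Finset.Ico j' (N + j'), F ((j : ℤ) - (j' : ℤ)) := by
          rw [Finset.sum_Ico_eq_sum_range]
          rw [Nat.add_sub_cancel]
          apply Finset.sum_congr rfl
          intro x _
          congr 1
          push_cast; ring
        rw [this]
        apply Finset.sum_le_sum_of_subset_of_nonneg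
        · intro j hj
          rw [Finset.mem_Ico] at hj
          rw [Finset.mem_range]; omega
        · intro j _ _; exact hF _
    _ ≤ _ := by
        apply Finset.sum_le_sum_of_subset_of_nonneg
        · intro j hj
          rw [Finset.mem_range] at hj ⊢; omega
        · intro j _ _; exact Finset.sum_nonneg (fun i _ => hF _)

theorem norm_sum_sq {ι : Type*} (s : Finset ι) (f : ι → ℂ) :
    ((‖∑ i ∈ s, f i‖ ^ 2 : ℝ) : ℂ) = ∑ i ∈ s, ∑ i' ∈ s, f i * (starRingEnd ℂ) (f i') := by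
  push_cast
  rw [← Complex.mul_conj', map_sum, Finset.sum_mul_sum]

theorem cs_cycle {N1 N2 : ℕ} (h1 : 0 < N1) (h2 : 0 < N2) (K : ℤ → ℤ → ℂ) (μ ν : ℕ → ℝ)
    (hν : ∀ v, 0 ≤ ν v) {A1 A2 : ℝ} (hA1 : ∑ u ∈ range N1, μ u ^ 2 ≤ A1) (hA2 : ∑ v ∈ range N2, ν v ^ 2 ≤ A2) :
    ‖∑ u ∈ range N1, ∑ v ∈ range N2, ((μ u * ν v : ℝ) : ℂ) * K u v‖ ^ 4 ≤
      (A1 * A2 / (N1 * N2)) ^ 2 *
        ∑ p ∈ PP (2 * N2), ∑ r ∈ PP (2 * N2),
          ‖∑ j ∈ PP (2 * N1), K (df j) (df p) * (starRingEnd ℂ) (K (df j) (df r))‖ ^ 2 := by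
  have h1' : (0 : ℝ) < N1 := by exact_mod_cast h1
  have h2' : (0 : ℝ) < N2 := by exact_mod_cast h2
  have hA10 : 0 ≤ A1 := (Finset.sum_nonneg (fun u _ => sq_nonneg (μ u))).trans hA1
  have hA20 : 0 ≤ A2 := (Finset.sum_nonneg (fun u _ => sq_nonneg (ν u))).trans hA2
  set G : ℤ → ℂ := fun u => ∑ v ∈ range N2, (ν v : ℂ) * K u v with hG
  set L : ℤ → ℤ → ℂ := fun v v' => ∑ j ∈ PP (2 * N1), K (df j) v * (starRingEnd ℂ) (K (df j) v') with hL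
  set X : ℝ := ‖∑ u ∈ range N1, ∑ v ∈ range N2, ((μ u * ν v : ℝ) : ℂ) * K u v‖ with hX
  set Y : ℝ := ∑ j ∈ PP (2 * N1), ‖G (df j)‖ ^ 2 with hY
  set W : ℝ := ∑ p ∈ PP (2 * N2), ∑ r ∈ PP (2 * N2), ‖L (df p) (df r)‖ ^ 2 with hW
  have hX0 : 0 ≤ X := norm_nonneg _
  have hY0 : 0 ≤ Y := Finset.sum_nonneg (fun _ _ => by positivity)
  have hW0 : 0 ≤ W := Finset.sum_nonneg (fun _ _ => Finset.sum_nonneg (fun _ _ => by positivity))
  -- first step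
  have e1 : ∑ u ∈ range N1, ∑ v ∈ range N2, ((μ u * ν v : ℝ) : ℂ) * K u v = ∑ u ∈ range N1, (μ u : ℂ) * G u := by
    apply Finset.sum_congr rfl; intro u _
    rw [hG]; dsimp only
    rw [Finset.mul_sum]
    apply Finset.sum_congr rfl; intro v _
    push_cast; ring
  have s1 : X ^ 2 ≤ A1 * ∑ u ∈ range N1, ‖G u‖ ^ 2 := by
    have a : X ≤ ∑ u ∈ range N1, |μ u| * ‖G u‖ := by
      rw [hX, e1]
      refine (norm_sum_le _ _).trans (le_of_eq ?_)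
      apply Finset.sum_congr rfl; intro u _
      rw [norm_mul, Complex.norm_real, Real.norm_eq_abs]
    have b := Finset.sum_mul_sq_le_sq_mul_sq (range N1) (fun u => |μ u|) (fun u : ℕ => ‖G u‖)
    simp only [sq_abs] at b
    calc X ^ 2 ≤ (∑ u ∈ range N1, |μ u| * ‖G u‖) ^ 2 := pow_le_pow_left₀ hX0 a 2
      _ ≤ _ := b
      _ ≤ _ := by
        apply mul_le_mul_of_nonneg_right hA1
        exact Finset.sum_nonneg (fun _ _ => by positivity)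
  have s2 : (N1 : ℝ) * ∑ u ∈ range N1, ‖G u‖ ^ 2 ≤ Y := dbl_ge N1 (fun u => ‖G u‖ ^ 2) (fun u => by positivity)
  have s12 : (N1 : ℝ) * X ^ 2 ≤ A1 * Y := by
    calc (N1 : ℝ) * X ^ 2 ≤ N1 * (A1 * ∑ u ∈ range N1, ‖G u‖ ^ 2) := by gcongr
      _ = A1 * (N1 * ∑ u ∈ range N1, ‖G u‖ ^ 2) := by ring
      _ ≤ A1 * Y := by gcongr
  -- third step
  have s3 : Y ≤ ∑ v ∈ range N2, ∑ v' ∈ range N2, (ν v * ν v') * ‖L v v'‖ := by
    have e : (Y : ℂ) = ∑ v ∈ range N2, ∑ v' ∈ range N2, ((ν v * ν v' : ℝ) : ℂ) * L v v' := by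
      rw [hY, Complex.ofReal_sum]
      have : ∀ j ∈ PP (2 * N1), ((‖G (df j)‖ ^ 2 : ℝ) : ℂ) =
          ∑ v ∈ range N2, ∑ v' ∈ range N2, ((ν v * ν v' : ℝ) : ℂ) * (K (df j) v * (starRingEnd ℂ) (K (df j) v')) := by
        intro j _
        rw [hG, norm_sum_sq]
        apply Finset.sum_congr rfl; intro v _
        apply Finset.sum_congr rfl; intro v' _
        rw [map_mul, Complex.conj_ofReal]
        push_cast; ring
      rw [Finset.sum_congr rfl this, Finset.sum_comm]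
      apply Finset.sum_congr rfl; intro v _
      rw [Finset.sum_comm]
      apply Finset.sum_congr rfl; intro v' _
      rw [hL, Finset.mul_sum]
    have : Y = ‖(Y : ℂ)‖ := by rw [Complex.norm_real, Real.norm_eq_abs, abs_of_nonneg hY0]
    rw [this, e]
    refine (norm_sum_le _ _).trans ?_
    apply Finset.sum_le_sum; intro v _
    refine (norm_sum_le _ _).trans ?_
    apply Finset.sum_le_sum; intro v' _
    rw [norm_mul, Complex.norm_real, Real.norm_eq_abs, abs_of_nonneg (mul_nonneg (hν v) (hν v'))]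
  have s4 : Y ^ 2 ≤ A2 ^ 2 * ∑ v ∈ range N2, ∑ v' ∈ range N2, ‖L v v'‖ ^ 2 := by
    have b := Finset.sum_mul_sq_le_sq_mul_sq (range N2 ×ˢ range N2) (fun z => ν z.1 * ν z.2) (fun z => ‖L z.1 z.2‖)
    rw [Finset.sum_product, Finset.sum_product, Finset.sum_product] at b
    have e : ∑ v ∈ range N2, ∑ v' ∈ range N2, (ν v * ν v') ^ 2 = (∑ v ∈ range N2, ν v ^ 2) ^ 2 := by
      rw [sq (∑ v ∈ range N2, ν v ^ 2), Finset.sum_mul_sum]
      apply Finset.sum_congr rfl; intro v _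
      apply Finset.sum_congr rfl; intro v' _
      ring
    dsimp only at b
    rw [e] at b
    have c0 : 0 ≤ ∑ v ∈ range N2, ∑ v' ∈ range N2, ‖L v v'‖ ^ 2 :=
      Finset.sum_nonneg (fun _ _ => Finset.sum_nonneg (fun _ _ => by positivity))
    have d0 : 0 ≤ ∑ v ∈ range N2, ν v ^ 2 := Finset.sum_nonneg (fun _ _ => by positivity)
    calc Y ^ 2 ≤ (∑ v ∈ range N2, ∑ v' ∈ range N2, (ν v * ν v') * ‖L v v'‖) ^ 2 := pow_le_pow_left₀ hY0 s3 2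
      _ ≤ _ := b
      _ ≤ _ := by gcongr
  have s5 : ((N2 : ℝ) * N2) * ∑ v ∈ range N2, ∑ v' ∈ range N2, ‖L v v'‖ ^ 2 ≤ W := by
    have a : ∀ v : ℤ, (N2 : ℝ) * ∑ v' ∈ range N2, ‖L v v'‖ ^ 2 ≤ ∑ r ∈ PP (2 * N2), ‖L v (df r)‖ ^ 2 :=
      fun v => dbl_ge N2 (fun v' => ‖L v v'‖ ^ 2) (fun u => by positivity)
    have b := dbl_ge N2 (fun v => ∑ r ∈ PP (2 * N2), ‖L v (df r)‖ ^ 2)
      (fun u => Finset.sum_nonneg (fun _ _ => by positivity))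
    calc ((N2 : ℝ) * N2) * ∑ v ∈ range N2, ∑ v' ∈ range N2, ‖L v v'‖ ^ 2
        = N2 * ∑ v ∈ range N2, (N2 * ∑ v' ∈ range N2, ‖L v v'‖ ^ 2) := by
          rw [← Finset.mul_sum]; ring
      _ ≤ N2 * ∑ v ∈ range N2, ∑ r ∈ PP (2 * N2), ‖L v (df r)‖ ^ 2 := by
          gcongr with v _
          exact a v
      _ ≤ W := b
  -- conclusion
  have c0 : 0 ≤ ∑ v ∈ range N2, ∑ v' ∈ range N2, ‖L v v'‖ ^ 2 :=
    Finset.sum_nonneg (fun _ _ => Finset.sum_nonneg (fun _ _ => by positivity))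
  have t1 : (N1 : ℝ) ^ 2 * X ^ 4 ≤ A1 ^ 2 * Y ^ 2 := by
    calc (N1 : ℝ) ^ 2 * X ^ 4 = (N1 * X ^ 2) ^ 2 := by ring
      _ ≤ (A1 * Y) ^ 2 := pow_le_pow_left₀ (by positivity) s12 2
      _ = _ := by ring
  have t2 : ((N2 : ℝ) * N2) * Y ^ 2 ≤ A2 ^ 2 * W := by
    calc ((N2 : ℝ) * N2) * Y ^ 2 ≤ (N2 * N2) * (A2 ^ 2 * ∑ v ∈ range N2, ∑ v' ∈ range N2, ‖L v v'‖ ^ 2) := by gcongr
      _ = A2 ^ 2 * ((N2 * N2) * ∑ v ∈ range N2, ∑ v' ∈ range N2, ‖L v v'‖ ^ 2) := by ring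
      _ ≤ A2 ^ 2 * W := by gcongr
  have t3 : (((N1 : ℝ) * N2) ^ 2) * X ^ 4 ≤ (A1 * A2) ^ 2 * W := by
    calc (((N1 : ℝ) * N2) ^ 2) * X ^ 4 = (N2 * N2) * (N1 ^ 2 * X ^ 4) := by ring
      _ ≤ (N2 * N2) * (A1 ^ 2 * Y ^ 2) := by gcongr
      _ = A1 ^ 2 * ((N2 * N2) * Y ^ 2) := by ring
      _ ≤ A1 ^ 2 * (A2 ^ 2 * W) := by gcongr
      _ = _ := by ring
  rw [div_pow, div_mul_eq_mul_div, le_div_iff₀ (by positivity)]
  linarith

/-- the sum attached to four modes -/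
def IQ (N1 N2 : ℕ) (κ1 κ2 κ3 κ4 : ℤ → ℤ → ℂ) : ℂ :=
  ∑ p ∈ PP (2 * N2), ∑ r ∈ PP (2 * N2),
    (∑ j ∈ PP (2 * N1), κ1 (df j) (df p) * (starRingEnd ℂ) (κ2 (df j) (df r))) *
    (starRingEnd ℂ) (∑ j ∈ PP (2 * N1), κ3 (df j) (df p) * (starRingEnd ℂ) (κ4 (df j) (df r)))

theorem quad_expand {ι : Type*} (N1 N2 : ℕ) (s : Finset ι) (w : ι → ℂ) (κ : ι → ℤ → ℤ → ℂ) {b : ℝ}
    (hb : ∀ m ∈ s, ‖w m‖ ≤ b) :
    ∑ p ∈ PP (2 * N2), ∑ r ∈ PP (2 * N2),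
      ‖∑ j ∈ PP (2 * N1), (∑ m ∈ s, w m * κ m (df j) (df p)) *
        (starRingEnd ℂ) (∑ m ∈ s, w m * κ m (df j) (df r))‖ ^ 2 ≤
    b ^ 4 * ∑ m1 ∈ s, ∑ m2 ∈ s, ∑ m3 ∈ s, ∑ m4 ∈ s, ‖IQ N1 N2 (κ m1) (κ m2) (κ m3) (κ m4)‖ := by
  set D : ℝ := ∑ p ∈ PP (2 * N2), ∑ r ∈ PP (2 * N2),
      ‖∑ j ∈ PP (2 * N1), (∑ m ∈ s, w m * κ m (df j) (df p)) *
        (starRingEnd ℂ) (∑ m ∈ s, w m * κ m (df j) (df r))‖ ^ 2 with hD
  have hD0 : 0 ≤ D := Finset.sum_nonneg (fun _ _ => Finset.sum_nonneg (fun _ _ => by positivity))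
  set ℓ : ι → ι → ℕ × ℕ → ℕ × ℕ → ℂ := fun m m' p r =>
    ∑ j ∈ PP (2 * N1), κ m (df j) (df p) * (starRingEnd ℂ) (κ m' (df j) (df r)) with hℓ
  have e1 : ∀ p r : ℕ × ℕ, ∑ j ∈ PP (2 * N1), (∑ m ∈ s, w m * κ m (df j) (df p)) *
        (starRingEnd ℂ) (∑ m ∈ s, w m * κ m (df j) (df r)) =
      ∑ z ∈ s ×ˢ s, (w z.1 * (starRingEnd ℂ) (w z.2)) * ℓ z.1 z.2 p r := by
    intro p r
    rw [Finset.sum_product]
    have : ∀ j ∈ PP (2 * N1), (∑ m ∈ s, w m * κ m (df j) (df p)) *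
        (starRingEnd ℂ) (∑ m ∈ s, w m * κ m (df j) (df r)) =
        ∑ m ∈ s, ∑ m' ∈ s, (w m * (starRingEnd ℂ) (w m')) *
          (κ m (df j) (df p) * (starRingEnd ℂ) (κ m' (df j) (df r))) := by
      intro j _
      rw [map_sum, Finset.sum_mul_sum]
      apply Finset.sum_congr rfl; intro m _
      apply Finset.sum_congr rfl; intro m' _
      rw [map_mul]; ring
    rw [Finset.sum_congr rfl this, Finset.sum_comm]
    apply Finset.sum_congr rfl; intro m _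
    rw [Finset.sum_comm]
    apply Finset.sum_congr rfl; intro m' _
    rw [hℓ, Finset.mul_sum]
  have e2 : (D : ℂ) = ∑ z ∈ s ×ˢ s, ∑ z' ∈ s ×ˢ s, (w z.1 * (starRingEnd ℂ) (w z.2) *
      (starRingEnd ℂ) (w z'.1 * (starRingEnd ℂ) (w z'.2))) * IQ N1 N2 (κ z.1) (κ z.2) (κ z'.1) (κ z'.2) := by
    rw [hD, Complex.ofReal_sum]
    simp_rw [Complex.ofReal_sum]
    have : ∀ p ∈ PP (2 * N2), ∀ r ∈ PP (2 * N2),
        ((‖∑ j ∈ PP (2 * N1), (∑ m ∈ s, w m * κ m (df j) (df p)) *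
        (starRingEnd ℂ) (∑ m ∈ s, w m * κ m (df j) (df r))‖ ^ 2 : ℝ) : ℂ) =
        ∑ z ∈ s ×ˢ s, ∑ z' ∈ s ×ˢ s, (w z.1 * (starRingEnd ℂ) (w z.2) *
      (starRingEnd ℂ) (w z'.1 * (starRingEnd ℂ) (w z'.2))) * (ℓ z.1 z.2 p r * (starRingEnd ℂ) (ℓ z'.1 z'.2 p r)) := by
      intro p _ r _
      rw [e1, norm_sum_sq]
      apply Finset.sum_congr rfl; intro z _
      apply Finset.sum_congr rfl; intro z' _
      rw [map_mul (starRingEnd ℂ) (w z'.1 * (starRingEnd ℂ) (w z'.2))]; ring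
    rw [Finset.sum_congr rfl (fun p hp => Finset.sum_congr rfl (fun r hr => this p hp r hr))]
    have sw : ∀ p ∈ PP (2 * N2), ∑ r ∈ PP (2 * N2), ∑ z ∈ s ×ˢ s, ∑ z' ∈ s ×ˢ s, (w z.1 * (starRingEnd ℂ) (w z.2) *
      (starRingEnd ℂ) (w z'.1 * (starRingEnd ℂ) (w z'.2))) * (ℓ z.1 z.2 p r * (starRingEnd ℂ) (ℓ z'.1 z'.2 p r)) =
      ∑ z ∈ s ×ˢ s, ∑ z' ∈ s ×ˢ s, ∑ r ∈ PP (2 * N2), (w z.1 * (starRingEnd ℂ) (w z.2) *
      (starRingEnd ℂ) (w z'.1 * (starRingEnd ℂ) (w z'.2))) * (ℓ z.1 z.2 p r * (starRingEnd ℂ) (ℓ z'.1 z'.2 p r)) := by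
      intro p _
      rw [Finset.sum_comm]
      apply Finset.sum_congr rfl; intro z _
      rw [Finset.sum_comm]
    rw [Finset.sum_congr rfl sw, Finset.sum_comm]
    apply Finset.sum_congr rfl; intro z _
    rw [Finset.sum_comm]
    apply Finset.sum_congr rfl; intro z' _
    unfold IQ
    rw [Finset.mul_sum]
    apply Finset.sum_congr rfl; intro p _
    rw [Finset.mul_sum]
  have e3 : D = ‖(D : ℂ)‖ := by rw [Complex.norm_real, Real.norm_eq_abs, abs_of_nonneg hD0]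
  rw [e3, e2]
  refine (norm_sum_le _ _).trans ?_
  have e4 : b ^ 4 * ∑ m1 ∈ s, ∑ m2 ∈ s, ∑ m3 ∈ s, ∑ m4 ∈ s, ‖IQ N1 N2 (κ m1) (κ m2) (κ m3) (κ m4)‖ =
      ∑ z ∈ s ×ˢ s, ∑ z' ∈ s ×ˢ s, b ^ 4 * ‖IQ N1 N2 (κ z.1) (κ z.2) (κ z'.1) (κ z'.2)‖ := by
    rw [Finset.sum_product, Finset.mul_sum]
    apply Finset.sum_congr rfl; intro m1 _
    rw [Finset.mul_sum]
    apply Finset.sum_congr rfl; intro m2 _
    rw [Finset.sum_product, Finset.mul_sum]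
    apply Finset.sum_congr rfl; intro m3 _
    rw [Finset.mul_sum]
  rw [e4]
  apply Finset.sum_le_sum; intro z hz
  refine (norm_sum_le _ _).trans ?_
  apply Finset.sum_le_sum; intro z' hz'
  rw [Finset.mem_product] at hz hz'
  rw [norm_mul]
  apply mul_le_mul_of_nonneg_right _ (norm_nonneg _)
  rw [norm_mul, norm_mul, Complex.norm_conj, Complex.norm_conj, norm_mul, Complex.norm_conj]
  have a1 := hb z.1 hz.1
  have a2 := hb z.2 hz.2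
  have a3 := hb z'.1 hz'.1
  have a4 := hb z'.2 hz'.2
  have b0 : 0 ≤ b := (norm_nonneg _).trans a1
  calc ‖w z.1‖ * ‖w z.2‖ * (‖w z'.1‖ * ‖w z'.2‖) ≤ b * b * (b * b) := by gcongr
    _ = b ^ 4 := by ring

/-- physical bound -/
theorem IQ_phys (N1 N2 : ℕ) (κ1 κ2 κ3 κ4 : ℤ → ℤ → ℂ) :
    ‖IQ N1 N2 κ1 κ2 κ3 κ4‖ ≤ ((2 * N1 : ℕ) : ℝ) ^ 2 * ((2 * N2 : ℕ) : ℝ) ^ 2 *
      ∑ u ∈ Finset.Ioo (-((2 * N1 : ℕ) : ℤ)) (2 * N1 : ℕ), ∑ v ∈ Finset.Ioo (-((2 * N2 : ℕ) : ℤ)) (2 * N2 : ℕ),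
        ∑ u' ∈ Finset.Ioo (-((2 * N1 : ℕ) : ℤ)) (2 * N1 : ℕ), ∑ v' ∈ Finset.Ioo (-((2 * N2 : ℕ) : ℤ)) (2 * N2 : ℕ),
          ‖κ1 u v‖ * ‖κ2 u v'‖ * ‖κ3 u' v‖ * ‖κ4 u' v'‖ := by
  set F : ℤ → ℤ → ℤ → ℤ → ℝ := fun u v u' v' => ‖κ1 u v‖ * ‖κ2 u v'‖ * ‖κ3 u' v‖ * ‖κ4 u' v'‖ with hF
  have hF0 : ∀ u v u' v', 0 ≤ F u v u' v' := fun u v u' v' => by rw [hF]; positivity
  have h1 : ‖IQ N1 N2 κ1 κ2 κ3 κ4‖ ≤ ∑ p ∈ PP (2 * N2), ∑ r ∈ PP (2 * N2), ∑ j ∈ PP (2 * N1), ∑ j' ∈ PP (2 * N1),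
      F (df j) (df p) (df j') (df r) := by
    unfold IQ
    refine (norm_sum_le _ _).trans ?_
    apply Finset.sum_le_sum; intro p _
    refine (norm_sum_le _ _).trans ?_
    apply Finset.sum_le_sum; intro r _
    rw [norm_mul, Complex.norm_conj]
    have a : ∀ κ κ' : ℤ → ℤ → ℂ, ‖∑ j ∈ PP (2 * N1), κ (df j) (df p) * (starRingEnd ℂ) (κ' (df j) (df r))‖ ≤
        ∑ j ∈ PP (2 * N1), ‖κ (df j) (df p)‖ * ‖κ' (df j) (df r)‖ := by
      intro κ κ'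
      refine (norm_sum_le _ _).trans (le_of_eq ?_)
      apply Finset.sum_congr rfl; intro j _
      rw [norm_mul, Complex.norm_conj]
    calc _ ≤ (∑ j ∈ PP (2 * N1), ‖κ1 (df j) (df p)‖ * ‖κ2 (df j) (df r)‖) *
          (∑ j ∈ PP (2 * N1), ‖κ3 (df j) (df p)‖ * ‖κ4 (df j) (df r)‖) := by
          apply mul_le_mul (a κ1 κ2) (a κ3 κ4) (norm_nonneg _)
          exact Finset.sum_nonneg (fun _ _ => by positivity)
      _ = _ := by
          rw [Finset.sum_mul_sum]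
          apply Finset.sum_congr rfl; intro j _
          apply Finset.sum_congr rfl; intro j' _
          rw [hF]; ring
  refine h1.trans ?_
  set U := Finset.Ioo (-((2 * N1 : ℕ) : ℤ)) (2 * N1 : ℕ) with hU
  set V := Finset.Ioo (-((2 * N2 : ℕ) : ℤ)) (2 * N2 : ℕ) with hV
  set n1 : ℝ := ((2 * N1 : ℕ) : ℝ) with hn1
  set n2 : ℝ := ((2 * N2 : ℕ) : ℝ) with hn2
  have n10 : 0 ≤ n1 := Nat.cast_nonneg _
  have n20 : 0 ≤ n2 := Nat.cast_nonneg _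
  have d1 : ∀ G : ℤ → ℝ, (∀ u, 0 ≤ G u) → ∑ p ∈ PP (2 * N1), G (df p) ≤ n1 * ∑ u ∈ U, G u :=
    fun G hG => double_le (2 * N1) G hG
  have d2 : ∀ G : ℤ → ℝ, (∀ u, 0 ≤ G u) → ∑ p ∈ PP (2 * N2), G (df p) ≤ n2 * ∑ u ∈ V, G u :=
    fun G hG => double_le (2 * N2) G hG
  have a1 : ∀ v u v', ∑ j' ∈ PP (2 * N1), F u v (df j') v' ≤ n1 * ∑ u' ∈ U, F u v u' v' :=
    fun v u v' => d1 (fun u' => F u v u' v') (fun u' => hF0 _ _ _ _)
  have a2 : ∀ v v', ∑ j ∈ PP (2 * N1), ∑ j' ∈ PP (2 * N1), F (df j) v (df j') v' ≤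
      n1 * (n1 * ∑ u ∈ U, ∑ u' ∈ U, F u v u' v') := by
    intro v v'
    calc _ ≤ ∑ j ∈ PP (2 * N1), n1 * ∑ u' ∈ U, F (df j) v u' v' := Finset.sum_le_sum (fun j _ => a1 _ _ _)
      _ = n1 * ∑ j ∈ PP (2 * N1), ∑ u' ∈ U, F (df j) v u' v' := by rw [Finset.mul_sum]
      _ ≤ _ := by
        apply mul_le_mul_of_nonneg_left _ n10
        exact d1 (fun u => ∑ u' ∈ U, F u v u' v') (fun u => Finset.sum_nonneg (fun _ _ => hF0 _ _ _ _))
  have a3 : ∀ v, ∑ r ∈ PP (2 * N2), ∑ j ∈ PP (2 * N1), ∑ j' ∈ PP (2 * N1), F (df j) v (df j') (df r) ≤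
      n1 * (n1 * (n2 * ∑ v' ∈ V, ∑ u ∈ U, ∑ u' ∈ U, F u v u' v')) := by
    intro v
    calc _ ≤ ∑ r ∈ PP (2 * N2), n1 * (n1 * ∑ u ∈ U, ∑ u' ∈ U, F u v u' (df r)) := Finset.sum_le_sum (fun r _ => a2 _ _)
      _ = n1 * (n1 * ∑ r ∈ PP (2 * N2), ∑ u ∈ U, ∑ u' ∈ U, F u v u' (df r)) := by
        rw [Finset.mul_sum, Finset.mul_sum]
      _ ≤ _ := by
        apply mul_le_mul_of_nonneg_left _ n10
        apply mul_le_mul_of_nonneg_left _ n10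
        exact d2 (fun v' => ∑ u ∈ U, ∑ u' ∈ U, F u v u' v')
          (fun v' => Finset.sum_nonneg (fun _ _ => Finset.sum_nonneg (fun _ _ => hF0 _ _ _ _)))
  calc _ ≤ ∑ p ∈ PP (2 * N2), n1 * (n1 * (n2 * ∑ v' ∈ V, ∑ u ∈ U, ∑ u' ∈ U, F u (df p) u' v')) :=
        Finset.sum_le_sum (fun p _ => a3 _)
    _ = n1 * (n1 * (n2 * ∑ p ∈ PP (2 * N2), ∑ v' ∈ V, ∑ u ∈ U, ∑ u' ∈ U, F u (df p) u' v')) := by
        rw [Finset.mul_sum, Finset.mul_sum, Finset.mul_sum]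
    _ ≤ n1 * (n1 * (n2 * (n2 * ∑ v ∈ V, ∑ v' ∈ V, ∑ u ∈ U, ∑ u' ∈ U, F u v u' v'))) := by
        apply mul_le_mul_of_nonneg_left _ n10
        apply mul_le_mul_of_nonneg_left _ n10
        apply mul_le_mul_of_nonneg_left _ n20
        exact d2 (fun v => ∑ v' ∈ V, ∑ u ∈ U, ∑ u' ∈ U, F u v u' v')
          (fun v => Finset.sum_nonneg (fun _ _ => Finset.sum_nonneg (fun _ _ => Finset.sum_nonneg (fun _ _ => hF0 _ _ _ _))))
    _ = n1 ^ 2 * n2 ^ 2 * ∑ u ∈ U, ∑ v ∈ V, ∑ u' ∈ U, ∑ v' ∈ V, F u v u' v' := by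
        have e : ∑ v ∈ V, ∑ v' ∈ V, ∑ u ∈ U, ∑ u' ∈ U, F u v u' v' = ∑ u ∈ U, ∑ v ∈ V, ∑ u' ∈ U, ∑ v' ∈ V, F u v u' v' := by
          have a : ∀ v ∈ V, ∑ v' ∈ V, ∑ u ∈ U, ∑ u' ∈ U, F u v u' v' = ∑ u ∈ U, ∑ u' ∈ U, ∑ v' ∈ V, F u v u' v' := by
            intro v _
            rw [Finset.sum_comm]
            apply Finset.sum_congr rfl; intro u _
            rw [Finset.sum_comm]
          rw [Finset.sum_congr rfl a, Finset.sum_comm]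
        rw [e]; ring

/-- a mode as a function on the grid -/
def kap (Q : ℕ) (s : ℤ) (c A B : TT) (u v : ℤ) : ℂ :=
  (1 / (Q : ℂ)) * ∑ t ∈ PP Q, ch ((s + df t) • (c + (u • A + v • B)))

theorem kap_eq {Q : ℕ} (hQ : 0 < Q) (s : ℤ) (c A B : TT) (u v : ℤ) :
    kap Q s c A B u v = (FQ Q (c + (u • A + v • B)) : ℂ) * ch (s • (c + (u • A + v • B))) := by
  have hQ' : (Q : ℂ) ≠ 0 := by exact_mod_cast hQ.ne'
  unfold kap
  have : ∀ t ∈ PP Q, ch ((s + df t) • (c + (u • A + v • B))) =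
      ch (s • (c + (u • A + v • B))) * ch (df t • (c + (u • A + v • B))) := by
    intro t _
    rw [add_smul, ch_add]
  rw [Finset.sum_congr rfl this, ← Finset.mul_sum, FQ_expand']
  push_cast
  field_simp

theorem norm_kap {Q : ℕ} (hQ : 0 < Q) (s : ℤ) (c A B : TT) (u v : ℤ) :
    ‖kap Q s c A B u v‖ = FQ Q (c + (u • A + v • B)) := by
  rw [kap_eq hQ, norm_mul, norm_ch, mul_one, Complex.norm_real, Real.norm_eq_abs, abs_of_nonneg (FQ_nonneg _ _)]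

theorem ell_formula {Q : ℕ} (N : ℕ) (s : ℤ) (c1 A1 B1 c2 A2 B2 : TT) (v v' : ℤ) :
    ∑ j ∈ PP N, kap Q s c1 A1 B1 (df j) v * (starRingEnd ℂ) (kap Q s c2 A2 B2 (df j) v') =
      (1 / (Q : ℂ)) ^ 2 * ∑ t1 ∈ PP Q, ∑ t2 ∈ PP Q,
        ((N * FQ N ((s + df t1) • A1 - (s + df t2) • A2) : ℝ) : ℂ) *
          (ch ((s + df t1) • (c1 + v • B1)) * ch (-((s + df t2) • (c2 + v' • B2)))) := by
  have h : ∀ j ∈ PP N, kap Q s c1 A1 B1 (df j) v * (starRingEnd ℂ) (kap Q s c2 A2 B2 (df j) v') =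
      ∑ t1 ∈ PP Q, ∑ t2 ∈ PP Q, (1 / (Q : ℂ)) ^ 2 * (ch (df j • ((s + df t1) • A1 - (s + df t2) • A2)) *
        (ch ((s + df t1) • (c1 + v • B1)) * ch (-((s + df t2) • (c2 + v' • B2))))) := by
    intro j _
    unfold kap
    rw [map_mul, map_sum]
    have e0 : (starRingEnd ℂ) (1 / (Q : ℂ)) = 1 / (Q : ℂ) := by
      rw [map_div₀, map_one]
      congr 1
      exact Complex.conj_natCast Q
    rw [e0]
    have e1 : ∀ a b c d : ℂ, (a * b) * (c * d) = (a * c) * (b * d) := fun a b c d => by ring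
    rw [e1, Finset.sum_mul_sum, Finset.mul_sum]
    apply Finset.sum_congr rfl; intro t1 _
    rw [Finset.mul_sum]
    apply Finset.sum_congr rfl; intro t2 _
    rw [star_ch, ← ch_add, ← ch_add, ← ch_add, sq]
    congr 2
    have e2 : (s + df t1) • (c1 + (df j • A1 + v • B1)) = df j • ((s + df t1) • A1) + (s + df t1) • (c1 + v • B1) := by
      rw [smul_comm (df j) (s + df t1) A1]
      simp only [smul_add]
      abel
    have e3 : (s + df t2) • (c2 + (df j • A2 + v' • B2)) = df j • ((s + df t2) • A2) + (s + df t2) • (c2 + v' • B2) := by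
      rw [smul_comm (df j) (s + df t2) A2]
      simp only [smul_add]
      abel
    rw [e2, e3, smul_sub]
    abel
  rw [Finset.sum_congr rfl h, Finset.sum_comm, Finset.mul_sum]
  apply Finset.sum_congr rfl; intro t1 _
  rw [Finset.sum_comm, Finset.mul_sum]
  apply Finset.sum_congr rfl; intro t2 _
  rw [← Finset.mul_sum, ← Finset.sum_mul, FQ_expand']

theorem IQ_freq {Q : ℕ} (hQ : 0 < Q) (N1 N2 : ℕ) (s : ℤ) (c1 A1 B1 c2 A2 B2 c3 A3 B3 c4 A4 B4 : TT) :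
    ‖IQ N1 N2 (kap Q s c1 A1 B1) (kap Q s c2 A2 B2) (kap Q s c3 A3 B3) (kap Q s c4 A4 B4)‖ ≤
      (((2 * N1 : ℕ) : ℝ) ^ 2 * ((2 * N2 : ℕ) : ℝ) ^ 2 / (Q : ℝ) ^ 4) *
      ∑ t1 ∈ PP Q, ∑ t2 ∈ PP Q, ∑ t3 ∈ PP Q, ∑ t4 ∈ PP Q,
        FQ (2 * N1) ((s + df t1) • A1 - (s + df t2) • A2) * FQ (2 * N2) ((s + df t1) • B1 - (s + df t3) • B3) *
        FQ (2 * N2) ((s + df t4) • B4 - (s + df t2) • B2) * FQ (2 * N1) ((s + df t3) • A3 - (s + df t4) • A4) := by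
  have hQ' : (0 : ℝ) < Q := by exact_mod_cast hQ
  set a12 : ℕ × ℕ → ℕ × ℕ → ℝ := fun t1 t2 => ((2 * N1 : ℕ) : ℝ) * FQ (2 * N1) ((s + df t1) • A1 - (s + df t2) • A2) with ha12
  set a34 : ℕ × ℕ → ℕ × ℕ → ℝ := fun t3 t4 => ((2 * N1 : ℕ) : ℝ) * FQ (2 * N1) ((s + df t3) • A3 - (s + df t4) • A4) with ha34
  set Φ : ℕ × ℕ → ℕ × ℕ → ℕ × ℕ → ℕ × ℕ → ℂ := fun t1 t2 t3 t4 =>
    ch ((s + df t1) • c1) * ch (-((s + df t2) • c2)) * (ch (-((s + df t3) • c3)) * ch ((s + df t4) • c4)) with hΦ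
  have main : IQ N1 N2 (kap Q s c1 A1 B1) (kap Q s c2 A2 B2) (kap Q s c3 A3 B3) (kap Q s c4 A4 B4) =
      (1 / (Q : ℂ)) ^ 4 * ∑ t1 ∈ PP Q, ∑ t2 ∈ PP Q, ∑ t3 ∈ PP Q, ∑ t4 ∈ PP Q,
        ((a12 t1 t2 * a34 t3 t4 : ℝ) : ℂ) * Φ t1 t2 t3 t4 *
        ((((2 * N2 : ℕ) : ℝ) * FQ (2 * N2) ((s + df t1) • B1 - (s + df t3) • B3) : ℝ) : ℂ) *
        ((((2 * N2 : ℕ) : ℝ) * FQ (2 * N2) ((s + df t4) • B4 - (s + df t2) • B2) : ℝ) : ℂ) := by
    unfold IQ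
    have h : ∀ p ∈ PP (2 * N2), ∀ r ∈ PP (2 * N2),
        (∑ j ∈ PP (2 * N1), kap Q s c1 A1 B1 (df j) (df p) * (starRingEnd ℂ) (kap Q s c2 A2 B2 (df j) (df r))) *
        (starRingEnd ℂ) (∑ j ∈ PP (2 * N1), kap Q s c3 A3 B3 (df j) (df p) * (starRingEnd ℂ) (kap Q s c4 A4 B4 (df j) (df r))) =
        ∑ t1 ∈ PP Q, ∑ t2 ∈ PP Q, ∑ t3 ∈ PP Q, ∑ t4 ∈ PP Q, (1 / (Q : ℂ)) ^ 4 *
          (((a12 t1 t2 * a34 t3 t4 : ℝ) : ℂ) * Φ t1 t2 t3 t4) *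
          (ch (df p • ((s + df t1) • B1 - (s + df t3) • B3)) * ch (df r • ((s + df t4) • B4 - (s + df t2) • B2))) := by
      intro p _ r _
      rw [ell_formula, ell_formula, map_mul, map_sum]
      have e0 : (starRingEnd ℂ) ((1 / (Q : ℂ)) ^ 2) = (1 / (Q : ℂ)) ^ 2 := by
        rw [map_pow, map_div₀, map_one]
        congr 2
        exact Complex.conj_natCast Q
      rw [e0]
      have e1 : ∀ a b c d : ℂ, (a * b) * (c * d) = (a * c) * (b * d) := fun a b c d => by ring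
      rw [e1, ← pow_add]
      rw [Finset.sum_mul, Finset.mul_sum]
      apply Finset.sum_congr rfl; intro t1 _
      rw [Finset.sum_mul, Finset.mul_sum]
      apply Finset.sum_congr rfl; intro t2 _
      rw [Finset.mul_sum, Finset.mul_sum]
      apply Finset.sum_congr rfl; intro t3 _
      rw [map_sum, Finset.mul_sum, Finset.mul_sum]
      apply Finset.sum_congr rfl; intro t4 _
      rw [map_mul, Complex.conj_ofReal, map_mul, star_ch, star_ch, neg_neg]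
      rw [hΦ, ha12, ha34]
      dsimp only
      have f1 : ch ((s + df t1) • (c1 + df p • B1)) = ch ((s + df t1) • c1) * ch (df p • ((s + df t1) • B1)) := by
        rw [← ch_add, smul_add, smul_comm (df p)]
      have f2 : ch (-((s + df t2) • (c2 + df r • B2))) = ch (-((s + df t2) • c2)) * ch (-(df r • ((s + df t2) • B2))) := by
        rw [← ch_add, smul_add, smul_comm (df r), neg_add]
      have f3 : ch (-((s + df t3) • (c3 + df p • B3))) = ch (-((s + df t3) • c3)) * ch (-(df p • ((s + df t3) • B3))) := by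
        rw [← ch_add, smul_add, smul_comm (df p), neg_add]
      have f4 : ch ((s + df t4) • (c4 + df r • B4)) = ch ((s + df t4) • c4) * ch (df r • ((s + df t4) • B4)) := by
        rw [← ch_add, smul_add, smul_comm (df r)]
      have f5 : ch (df p • ((s + df t1) • B1 - (s + df t3) • B3)) = ch (df p • ((s + df t1) • B1)) * ch (-(df p • ((s + df t3) • B3))) := by
        rw [← ch_add, smul_sub, sub_eq_add_neg]
      have f6 : ch (df r • ((s + df t4) • B4 - (s + df t2) • B2)) = ch (df r • ((s + df t4) • B4)) * ch (-(df r • ((s + df t2) • B2))) := by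
        rw [← ch_add, smul_sub, sub_eq_add_neg]
      rw [f1, f2, f3, f4, f5, f6]
      push_cast
      ring
    rw [Finset.sum_congr rfl (fun p hp => Finset.sum_congr rfl (fun r hr => h p hp r hr))]
    have sw : ∀ (G : ℕ × ℕ → ℕ × ℕ → ℕ × ℕ → ℕ × ℕ → ℕ × ℕ → ℕ × ℕ → ℂ),
        ∑ p ∈ PP (2 * N2), ∑ r ∈ PP (2 * N2), ∑ t1 ∈ PP Q, ∑ t2 ∈ PP Q, ∑ t3 ∈ PP Q, ∑ t4 ∈ PP Q, G p r t1 t2 t3 t4 =
        ∑ t1 ∈ PP Q, ∑ t2 ∈ PP Q, ∑ t3 ∈ PP Q, ∑ t4 ∈ PP Q, ∑ p ∈ PP (2 * N2), ∑ r ∈ PP (2 * N2), G p r t1 t2 t3 t4 := by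
      intro G
      have a1 : ∀ p ∈ PP (2 * N2), ∑ r ∈ PP (2 * N2), ∑ t1 ∈ PP Q, ∑ t2 ∈ PP Q, ∑ t3 ∈ PP Q, ∑ t4 ∈ PP Q, G p r t1 t2 t3 t4 =
          ∑ t1 ∈ PP Q, ∑ t2 ∈ PP Q, ∑ t3 ∈ PP Q, ∑ t4 ∈ PP Q, ∑ r ∈ PP (2 * N2), G p r t1 t2 t3 t4 := by
        intro p _
        rw [Finset.sum_comm]
        apply Finset.sum_congr rfl; intro t1 _
        rw [Finset.sum_comm]
        apply Finset.sum_congr rfl; intro t2 _
        rw [Finset.sum_comm]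
        apply Finset.sum_congr rfl; intro t3 _
        rw [Finset.sum_comm]
      rw [Finset.sum_congr rfl a1, Finset.sum_comm]
      apply Finset.sum_congr rfl; intro t1 _
      rw [Finset.sum_comm]
      apply Finset.sum_congr rfl; intro t2 _
      rw [Finset.sum_comm]
      apply Finset.sum_congr rfl; intro t3 _
      rw [Finset.sum_comm]
    rw [sw, Finset.mul_sum]
    apply Finset.sum_congr rfl; intro t1 _
    rw [Finset.mul_sum]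
    apply Finset.sum_congr rfl; intro t2 _
    rw [Finset.mul_sum]
    apply Finset.sum_congr rfl; intro t3 _
    rw [Finset.mul_sum]
    apply Finset.sum_congr rfl; intro t4 _
    simp_rw [← Finset.mul_sum]
    rw [← Finset.sum_mul, FQ_expand', FQ_expand']
    ring
  rw [main, norm_mul, norm_pow, norm_div, norm_one, Complex.norm_natCast]
  have e : ((2 * N1 : ℕ) : ℝ) ^ 2 * ((2 * N2 : ℕ) : ℝ) ^ 2 / (Q : ℝ) ^ 4 = (1 / (Q : ℝ)) ^ 4 * (((2 * N1 : ℕ) : ℝ) ^ 2 * ((2 * N2 : ℕ) : ℝ) ^ 2) := by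
    field_simp
  rw [e, mul_assoc]
  apply mul_le_mul_of_nonneg_left _ (by positivity)
  refine (norm_sum_le _ _).trans ?_
  rw [Finset.mul_sum]
  apply Finset.sum_le_sum; intro t1 _
  refine (norm_sum_le _ _).trans ?_
  rw [Finset.mul_sum]
  apply Finset.sum_le_sum; intro t2 _
  refine (norm_sum_le _ _).trans ?_
  rw [Finset.mul_sum]
  apply Finset.sum_le_sum; intro t3 _
  refine (norm_sum_le _ _).trans ?_
  rw [Finset.mul_sum]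
  apply Finset.sum_le_sum; intro t4 _
  have hΦ1 : ‖Φ t1 t2 t3 t4‖ = 1 := by
    rw [hΦ]; dsimp only
    simp only [norm_mul, norm_ch, mul_one]
  have n1 : 0 ≤ a12 t1 t2 * a34 t3 t4 := by
    rw [ha12, ha34]; dsimp only
    exact mul_nonneg (mul_nonneg (Nat.cast_nonneg _) (FQ_nonneg _ _)) (mul_nonneg (Nat.cast_nonneg _) (FQ_nonneg _ _))
  rw [norm_mul, norm_mul, norm_mul, hΦ1, mul_one, Complex.norm_real, Complex.norm_real, Complex.norm_real,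
    Real.norm_eq_abs, Real.norm_eq_abs, Real.norm_eq_abs, abs_of_nonneg n1,
    abs_of_nonneg (mul_nonneg (Nat.cast_nonneg _) (FQ_nonneg _ _)), abs_of_nonneg (mul_nonneg (Nat.cast_nonneg _) (FQ_nonneg _ _))]
  apply le_of_eq
  rw [ha12, ha34]; dsimp only
  ring

end Run7.h297
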